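import Pool.Agent.MP_20d318_ag.Lat.Loo
import Pool.Agent.MP_20d318_ag.AG.Test
import Pool.Agent.MP_20d318_ag.AG.Glue
import Mathlib.Algebra.Polynomial.Homogenize
import Mathlib.RingTheory.MvPolynomial.EulerIdentity
import Mathlib.RingTheory.MvPolynomial.IrreducibleQuadratic

-- ======== part 0: formerly Pool.Agent.MP_20d318_ag.BV.Spec
section MrgPart0

-- ======== part 0: formerly Pool.Agent.MP_20d318_ag.BV.LDefs
section MrgPart0

/-! The lattices of the surface `T` (ten points blown up) and of the threefold `X`. -/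

set_option autoImplicit false

namespace Pool.Agent.MP_20d318_ag.BV

open Pool.Agent.MP_20d318_ag.Lat

/-- The ten points: `none` is the singular point of the second cubic. -/
abbrev Q : Type := Option (Fin 9)

/-- `(d, m)` is the class `d H - ∑ m q • e q`. -/
abbrev Lam (R : Type) : Type := R × (Q → R)

/-- `(L, τ, b)` is the class `L + τ f - ∑ b i j • E i j`; for a curve, the degrees. -/
abbrev W (R : Type) : Type := Lam R × R × (Fin 2 → Fin 4 → R)

section ring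

variable {R : Type} [CommRing R]

/-- The intersection form. -/
def ip (D Z : Lam R) : R := D.1 * Z.1 - ∑ q, D.2 q * Z.2 q

/-- The degree of the class `D` on a curve with degrees `Z`. -/
def ipW (D Z : W R) : R := ip D.1 Z.1 + D.2.1 * Z.2.1 - ∑ i, ∑ j, D.2.2 i j * Z.2.2 i j

/-- The class of a line. -/
def cH : Lam R := (1, 0)

/-- The class of an exceptional curve. -/
def cE (q : Q) : Lam R := (0, Pi.single q (-1))

/-- The class `H - e q`. -/
def ch (q : Q) : Lam R := (1, Pi.single q 1)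

/-- The class of a fibre of the pencil. -/
def cF : Lam R := (3, fun q => q.elim 0 fun _ => 1)

/-- The class of the proper transform of the singular cubic. -/
def cR : Lam R := (3, fun q => q.elim 2 fun _ => 1)

/-- The anticanonical class. -/
def cK : Lam R := (3, fun _ => 1)

/-- The two branch curves. -/
def cC (i : Fin 2) : Lam R := ![cF, cR] i

/-- The action of the involution attached to the base point `i`. -/
def sig (i : Fin 9) (D : Lam R) : Lam R :=
  -D - (2 * D.2 none) • cE none + ip D (ch (some i)) • cF + ip D cF • ch (some i)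

/-- The action on the threefold. -/
def sigW (i : Fin 9) (D : W R) : W R := (sig i D.1, D.2)

/-- The action of a word. -/
def actW (l : List (Fin 9)) (D : W R) : W R := l.foldr sigW D

end ring

/-- Integral classes as real classes. -/
def toR (c : Lam ℤ) : Lam ℝ := (c.1, fun q => c.2 q)

/-- Integral classes as real classes. -/
def toRW (D : W ℤ) : W ℝ := (toR D.1, D.2.1, fun i j => D.2.2 i j)

/-- The classes of sections. -/
def SS : Set (Lam ℤ) := {s | s.2 none = 0 ∧ ip s s = -1 ∧ ip s cF = 1}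

/-- The classes of bisections through the singular point. -/
def BB : Set (Lam ℤ) := {c | ∃ s ∈ SS, ∃ s' ∈ SS, ip s s' = 1 ∧ c = s + s' - cE none}

/-- The negative curves of `T`. -/
def GEN : Set (Lam ℤ) := SS ∪ BB ∪ {cE none, cR}

/-- The cone of curves of `T`. -/
def NE : Set (Lam ℝ) := cone (toR '' GEN)

/-- The nef cone of `T`. -/
def NT : Set (Lam ℝ) := {L | ∀ c ∈ GEN, 0 ≤ ip L (toR c)}

/-- The nef cone of `X`. -/
def NX : Set (W ℝ) := {D | (∀ i j, 0 ≤ D.2.2 i j) ∧ (∀ i, ∑ j, D.2.2 i j ≤ D.2.1) ∧ D.1 ∈ NT ∧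
  ∀ j, D.1 - ∑ i, D.2.2 i j • cC i ∈ NT}

/-- What the geometry of `T` gives for the set `P` of classes of prime divisors. -/
structure PA (P : Set (Lam ℤ)) : Prop where
  pos : ∀ c ∈ P, ∀ c' ∈ P, c ≠ c' → 0 ≤ ip c c'
  rr : ∀ c : Lam ℤ, 0 ≤ c.1 → ∑ q, c.2 q * (c.2 q + 1) < (c.1 + 1) * (c.1 + 2) →
    c ∈ AddSubmonoid.closure P
  memE : ∀ q, cE q ∈ P
  memF : cF ∈ P
  memR : cR ∈ P
  vert : ∀ c ∈ P, ip c cF = 0 → c = cF ∨ c = cR ∨ c = cE none
  nefH : ∀ c ∈ P, 0 ≤ c.1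
  nefh : ∀ c ∈ P, ∀ q, c.2 q ≤ c.1

/-- The degrees of a curve on `X`: on a copy of `T`, over a branch curve, on an exceptional
divisor, or general. -/
def Cur (P : Set (Lam ℤ)) (Z : W ℤ) : Prop :=
  (Z.1 = 0 ∨ ∃ c ∈ P, ∃ n : ℕ, Z.1 = n • c) ∧ 0 ≤ Z.2.1 ∧
  ((∃ j, Z.2.1 = 0 ∧ ∀ i j', Z.2.2 i j' = if j' = j then ip (cC i) Z.1 else 0) ∨
   (∃ i, (∃ n : ℕ, Z.1 = n • cC i) ∧ ∀ i' j, Z.2.2 i' j = if i' = i then Z.2.1 else 0) ∨
   (∃ i j, (∃ n : ℕ, Z.1 = n • cC i) ∧ Z.2.1 = 0 ∧ Z.2.2 i j ≤ 0 ∧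
     ∀ i' j', ¬ (i' = i ∧ j' = j) → Z.2.2 i' j' = 0) ∨
   ((∀ i j, 0 ≤ Z.2.2 i j) ∧ (∀ i, ∑ j, Z.2.2 i j ≤ ip (cC i) Z.1) ∧
     ∀ j, ∑ i, Z.2.2 i j ≤ Z.2.1))

/-- Classes of effective divisors on `X`. -/
def EG (P : Set (Lam ℤ)) : Set (W ℤ) := {D | (∃ c ∈ P, D = (c, 0, 0)) ∨ D = (0, 1, 0) ∨
  (∃ i j, D = (0, 0, fun i' j' => if i' = i ∧ j' = j then -1 else 0)) ∨
  (∃ i, D = (cC i, 0, fun i' _ => if i' = i then 1 else 0)) ∨
  ∃ j, D = (0, 1, fun _ j' => if j' = j then 1 else 0)}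

/-- The integral classes. -/
def LW : AddSubgroup (W ℝ) := AddSubgroup.closure (Set.range toRW)

/-! ### Statements of the lattice modules -/

/-- LATA: the negative curves are prime. -/
def LatAStmt : Prop := ∀ P, PA P → GEN ⊆ P

/-- LATD: integral nef classes lie in the cone of the negative curves (Cremona descent). -/
def LatDStmt : Prop := ∀ L : Lam ℤ, toR L ∈ NT → toR L ∈ NE

/-- LATB: a rational polyhedral cone that meets every orbit. -/
def LatBStmt : Prop := (∃ P B : Set (W ℝ), RP LW P ∧ P ⊆ NX ∧ NX ∩ B ⊆ P ∧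
  ∀ D ∈ NX, ∃ l, actW l D ∈ B) ∧
  (Set.range fun l => actW l (((cH : Lam ℝ), 0, 0) : W ℝ)).Infinite

/-- LATC: the nef criterion, effectivity, spanning. -/
def LatCStmt : Prop := ∀ P, PA P → GEN ⊆ P → LatDStmt →
  (∀ D ∈ NX, ∀ Z, Cur P Z → 0 ≤ ipW D (toRW Z)) ∧
  (∀ D : W ℤ, toRW D ∈ NX → toRW D ∈ cone (toRW '' EG P)) ∧
  Submodule.span ℝ (NX ∩ Set.range toRW) = ⊤ ∧
  ∀ D ∈ NX, -D ∈ NX → D = 0

end Pool.Agent.MP_20d318_ag.BV

end MrgPart0

-- ======== part 1: formerly Pool.Agent.MP_20d318_ag.BV.Defs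
section MrgPart1

/-! The surface `T` and the threefold `X` as sets of local rings. -/

set_option autoImplicit false

namespace Pool.Agent.MP_20d318_ag.BV

open Pool.Agent.MP_79c67d_ag Pool.Agent.MP_20d318_ag.AG MvPolynomial

section general

variable {k K M L : Type} [Field k] [Field K] [Field M] [Field L] [Algebra k K] [Algebra k M]
  [Algebra k L] {Λ : Type}

/-- `γ` generates the fractional ideal spanned by `S`. -/
def Gn (S : Set K) (O : Subalgebra k K) (γ : K) : Prop :=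
  (∀ a ∈ S, a / γ ∈ O) ∧ ∃ a ∈ S, IsU O (a / γ)

/-- The fractional ideal spanned by `S` is generated by an element of `S`. -/
def Prin (S : Set K) (O : Subalgebra k K) : Prop := ∃ γ, Gn S O γ

/-- A generator. -/
noncomputable def gn (S : Set K) (O : Subalgebra k K) : K := Classical.epsilon (Gn S O)

variable (k) in
/-- A standard chart of the closure of the graph. -/
def cht (S : Λ → Set K) (j : Λ → K) : Subalgebra k K :=
  Algebra.adjoin k (⋃ l, (fun a => a / j l) '' S l)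

variable (k) in
/-- The closure of the image of the map to a product of projective spaces. -/
def mp (S : Λ → Set K) : Set (Subalgebra k K) := {O | ∃ j, (∀ l, j l ∈ S l) ∧ O ∈ Pts (cht k S j)}

variable (k) in
/-- Families of functions whose ratios generate the field. -/
structure Fam (S : Λ → Set K) : Prop where
  fin : ∀ l, (S l).Finite
  ne : ∀ l, (S l).Nonempty
  nz : ∀ l, ∀ a ∈ S l, a ≠ 0
  top : IntermediateField.adjoin k {f | ∃ l, ∃ a ∈ S l, ∃ b ∈ S l, f = a / b} = ⊤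

/-- Complete separated models with a finite cover by charts. -/
structure Fine (X : Set (Subalgebra k K)) : Prop extends Good X where
  cov : ∃ 𝒢 : Set (Set K), 𝒢.Finite ∧ (∀ G ∈ 𝒢, G.Finite ∧ Frac (Algebra.adjoin k G)) ∧
    X = ⋃ G ∈ 𝒢, Pts (Algebra.adjoin k G)

/-- Normal models. -/
structure Nice (X : Set (Subalgebra k K)) : Prop extends Fine X where
  nrm : ∀ O ∈ X, Nrm O

/-- The fractions of elements of `R` whose denominator is a unit of `O`. -/
def fr (R O : Subalgebra k K) : Subalgebra k K where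
  carrier := {f | ∃ a ∈ R, ∃ b ∈ R, IsU O b ∧ f = a / b}
  mul_mem' := by
    rintro _ _ ⟨a, ha, b, hb, hu, rfl⟩ ⟨c, hc, d, hd, hv, rfl⟩
    exact ⟨a * c, R.mul_mem ha hc, b * d, R.mul_mem hb hd, hu.mul hv, div_mul_div_comm a b c d⟩
  add_mem' := by
    rintro _ _ ⟨a, ha, b, hb, hu, rfl⟩ ⟨c, hc, d, hd, hv, rfl⟩
    exact ⟨a * d + b * c, R.add_mem (R.mul_mem ha hd) (R.mul_mem hb hc), b * d,
      R.mul_mem hb hd, hu.mul hv, div_add_div a c hu.1 hv.1⟩
  algebraMap_mem' c := ⟨_, R.algebraMap_mem c, 1, R.one_mem, isU_one, by simp⟩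

/-- Rational points. -/
def RatPt (O : Subalgebra k K) : Prop := ∀ f ∈ O, ∃ c : k, f - algebraMap k K c ∈ mx O

/-- The residues of the `r i` are algebraically independent. -/
def Ind {n : ℕ} (O : Subalgebra k K) (r : Fin n → K) : Prop :=
  (∀ i, r i ∈ O) ∧ ∀ p : MvPolynomial (Fin n) k, p ≠ 0 → IsU O (aeval r p)

/-- The residue field has transcendence degree at most `n`. -/
def Dim (O : Subalgebra k K) (n : ℕ) : Prop := ¬ ∃ r : Fin (n + 1) → K, Ind O r

/-- `u` is algebraic over `B` modulo the maximal ideal of `O`. -/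
def AlgM (O B : Subalgebra k K) (u : K) : Prop :=
  ∃ p : Polynomial K, (∀ i, p.coeff i ∈ B) ∧ (∃ i, IsU O (p.coeff i)) ∧ p.eval u ∈ mx O

/-- `y` is transcendental over the image of `ι`. -/
def Tr (ι : M →ₐ[k] K) (y : K) : Prop :=
  ∀ p : Polynomial M, Polynomial.eval₂ (ι : M →+* K) y p = 0 → p = 0

/-- `P` is the place of the plane curve `p = 0`. -/
structure PlOf (a b : K) (p : MvPolynomial (Fin 2) k) (P : Place k K) : Prop where
  irr : Irreducible p
  pts : plO P ∈ Pts (Algebra.adjoin k {a, b})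
  ord : P.ord (aeval ![a, b] p) = 1
  mem : ∀ q : MvPolynomial (Fin 2) k, aeval ![a, b] q ∈ mx (plO P) ↔ p ∣ q

/-- `s` is a local coordinate if it vanishes. -/
def Crd (O : Subalgebra k K) (s : K) : Prop :=
  s ∈ mx O → ∃ D : Derivation k K K, (∀ f ∈ O, D f ∈ O) ∧ IsU O (D s)

variable (k) in
/-- The degree of the polar divisor. -/
noncomputable def pdeg (u : L) : ℤ := ∑ᶠ P : Place k L, max 0 (-P.ord u)

variable (k) in
/-- The degree of the map `(1 : u : v)`. -/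
noncomputable def pdeg2 (u v : L) : ℤ := ∑ᶠ P : Place k L, max 0 (max (-P.ord u) (-P.ord v))

/-- The point of `T` below `O`. -/
noncomputable def pr (ι : M →ₐ[k] K) (T : Set (Subalgebra k M)) (O : Subalgebra k K) :
    Subalgebra k M :=
  Classical.epsilon fun R => R ∈ T ∧ Dom R (O.comap ι)

/-- The pull-back of local equations. -/
noncomputable def up (ι : M →ₐ[k] K) (T : Set (Subalgebra k M)) (f : Subalgebra k M → M)
    (O : Subalgebra k K) : K :=
  ι (f (pr ι T O))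

/-- `X` maps to `T`. -/
def Maps (ι : M →ₐ[k] K) (X : Set (Subalgebra k K)) (T : Set (Subalgebra k M)) : Prop :=
  ∀ O ∈ X, ∃ R ∈ T, Dom R (O.comap ι)

variable (k) in
/-- Affine coordinates of the generic point of the plane. -/
structure GenP (x y : K) : Prop where
  ind : AlgebraicIndependent k ![x, y]
  top : IntermediateField.adjoin k {x, y} = ⊤

end general

section poly

variable {k : Type} [Field k]

/-- The polar form. -/
noncomputable def pol {A : Type} [CommRing A] [Algebra k A] (P : MvPolynomial (Fin 3) k)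
    (v w : Fin 3 → A) : A :=
  ∑ i, v i * aeval w (pderiv i P)

/-- The affine equation of a form. -/
noncomputable def aff (P : MvPolynomial (Fin 3) k) : MvPolynomial (Fin 2) k :=
  aeval ![X 0, X 1, 1] P

/-- The part of degree `j` of the expansion of `p` at the point `(α, β)`. -/
noncomputable def tay (p : MvPolynomial (Fin 2) k) (α β : k) (j : ℕ) : MvPolynomial (Fin 2) k :=
  homogeneousComponent j (aeval ![X 0 + C α, X 1 + C β] p)

/-- `p` vanishes to order at least `m` at the point. -/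
def Van (p : MvPolynomial (Fin 2) k) (α β : k) (m : ℕ) : Prop := ∀ j < m, tay p α β j = 0

/-- `p` vanishes to order exactly `m` at the point. -/
def IsOrd (p : MvPolynomial (Fin 2) k) (α β : k) (m : ℕ) : Prop := Van p α β m ∧ tay p α β m ≠ 0

/-- Ten points and two cubic forms. -/
structure Dat (k : Type) [Field k] where
  /-- first coordinates -/
  a : Q → k
  /-- second coordinates -/
  b : Q → k
  /-- the smooth cubic -/
  F : MvPolynomial (Fin 3) k
  /-- the singular cubic -/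
  G : MvPolynomial (Fin 3) k

/-- The homogeneous coordinates of the points. -/
def Dat.pt (d : Dat k) (A : Type) [CommRing A] [Algebra k A] (q : Q) : Fin 3 → A :=
  ![algebraMap k A (d.a q), algebraMap k A (d.b q), 1]

/-- The coefficients of the restriction of a cubic to the line through the base point `i` with
direction `(u, v)`. -/
noncomputable def Dat.co (d : Dat k) {A : Type} [CommRing A] [Algebra k A]
    (P : MvPolynomial (Fin 3) k) (i : Fin 9) (u v : A) : Fin 3 → A :=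
  ![pol P ![u, v, 0] (d.pt A (some i)), pol P (d.pt A (some i)) ![u, v, 0], aeval ![u, v, 0] P]

/-- The line through two base points. -/
noncomputable def Dat.lin (d : Dat k) (i j : Fin 9) : MvPolynomial (Fin 2) k :=
  C (d.b (some j) - d.b (some i)) * (X 0 - C (d.a (some i))) -
    C (d.a (some j) - d.a (some i)) * (X 1 - C (d.b (some i)))

/-- The properties of the pencil that are used. -/
structure Cub (d : Dat k) : Prop where
  hF : d.F.IsHomogeneous 3
  hG : d.G.IsHomogeneous 3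
  a0 : d.a none = 0
  b0 : d.b none = 0
  inj : ∀ q q', d.a q = d.a q' → d.b q = d.b q' → q = q'
  ncol : ∀ (i j : Fin 9) (q : Q), i ≠ j → q ≠ some i → q ≠ some j →
    (d.a q - d.a (some i)) * (d.b (some j) - d.b (some i)) ≠
      (d.b q - d.b (some i)) * (d.a (some j) - d.a (some i))
  vanF : ∀ i, aeval (d.pt k (some i)) d.F = 0
  vanG : ∀ i, aeval (d.pt k (some i)) d.G = 0
  Fnu : aeval (![0, 0, 1] : Fin 3 → k) d.F ≠ 0
  jac : ∀ i, aeval (d.pt k (some i)) (pderiv 0 d.F) * aeval (d.pt k (some i)) (pderiv 1 d.G) ≠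
    aeval (d.pt k (some i)) (pderiv 1 d.F) * aeval (d.pt k (some i)) (pderiv 0 d.G)
  Gz : ∀ (A : Type) [CommRing A] [Algebra k A] (v : Fin 3 → A), aeval v d.G =
    v 2 * aeval ![v 0, v 1, 0] (pderiv 2 d.G) + aeval ![v 0, v 1, 0] d.G
  cop : ∀ (L : Type) [Field L] [Algebra k L] (α β : L), aeval ![α, β, 0] (pderiv 2 d.G) = 0 →
    aeval ![α, β, 0] d.G = 0 → α = 0 ∧ β = 0
  base : ∀ (L : Type) [Field L] [Algebra k L] (v : Fin 3 → L), aeval v d.F = 0 → aeval v d.G = 0 →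
    v = 0 ∨ ∃ i, v 2 ≠ 0 ∧ v = v 2 • d.pt L (some i)
  smF : ∀ (L : Type) [Field L] [Algebra k L] (v : Fin 3 → L),
    (∀ i, aeval v (pderiv i d.F) = 0) → v = 0
  smG : ∀ (L : Type) [Field L] [Algebra k L] (v : Fin 3 → L),
    (∀ i, aeval v (pderiv i d.G) = 0) → v 0 = 0 ∧ v 1 = 0
  nol : ∀ (L : Type) [Field L] [Algebra k L] (i : Fin 9) (s t u v : L),
    (∀ j, s * d.co d.F i u v j = t * d.co d.G i u v j) → (s = 0 ∧ t = 0) ∨ (u = 0 ∧ v = 0)
  irr : ∀ α β : k, (α ≠ 0 ∨ β ≠ 0) → Irreducible (aff (C α * d.F + C β * d.G)) ∧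
    (aff (C α * d.F + C β * d.G)).totalDegree = 3
  nc : ∀ p : MvPolynomial (Fin 2) k, p.totalDegree ≤ 2 →
    (∀ i, eval ![d.a (some i), d.b (some i)] p = 0) → p = 0

end poly

section surface

variable {k M : Type} [Field k] [Field M] [Algebra k M] (d : Dat k) (x y : M)

/-- The map to the plane. -/
def SH : Set M := {x, y, 1}

/-- The first coordinate centered at `q`. -/
def xq (q : Q) : M := x - algebraMap k M (d.a q)

/-- The second coordinate centered at `q`. -/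
def yq (q : Q) : M := y - algebraMap k M (d.b q)

/-- The projection from the point `q`. -/
def SQ (q : Q) : Set M := {xq d x q, yq d y q}

/-- The families defining `T`. -/
def famT (o : Option Q) : Set M := o.elim (SH x y) (SQ d x y)

/-- The plane blown up in the ten points. -/
def TT : Set (Subalgebra k M) := mp k (famT d x y)

/-- `O` lies over the point `q`. -/
def Ov (q : Q) (O : Subalgebra k M) : Prop := ∀ a ∈ SQ d x y q, a ∈ mx O

/-- Local equations of the exceptional curves. -/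
noncomputable def ex (q : Q) (O : Subalgebra k M) : M := gn (SQ d x y q) O / gn (SH x y) O

/-- Local equations of a divisor of class `c`. -/
noncomputable def lb (c : Lam ℤ) (O : Subalgebra k M) : M :=
  gn (SH x y) O ^ (-c.1) * ∏ q, ex d x y q O ^ (-c.2 q)

/-- The degrees of a curve. -/
noncomputable def zz {Y : Set (Subalgebra k M)} (ν : Curve Y) : Lam ℤ :=
  (-ν.deg (gn (SH x y)), fun q => ν.deg (ex d x y q))

/-- The values of the two cubics. -/
noncomputable def fg (i : Fin 2) : M := aeval ![x, y, 1] (![d.F, d.G] i)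

/-- Local equations of the two branch curves. -/
noncomputable def sT (i : Fin 2) (O : Subalgebra k M) : M := fg d x y i * lb d x y (cC i) O

/-- `φ` defines an effective divisor of class `c`. -/
def Sec (c : Lam ℤ) (φ : M) : Prop := φ ≠ 0 ∧ ∀ O ∈ TT d x y, φ * lb d x y c O ∈ O

open Classical in
/-- `φ` defines the prime divisor `P`, of class `c`. -/
def Prm (c : Lam ℤ) (φ : M) (P : Place k M) : Prop := φ ≠ 0 ∧ plO P ∈ TT d x y ∧
  ∀ P' : Place k M, plO P' ∈ TT d x y →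
    P'.ord (φ * lb d x y c (plO P')) = if P' = P then 1 else 0

/-- The classes of prime divisors. -/
def PP : Set (Lam ℤ) := {c | ∃ φ P, Prm d x y c φ P}

/-- `(x, y)` and `(x', y')` are the two further points of intersection of a line through the base
point `i` with a member of the pencil. -/
def Par (i : Fin 9) (x' y' : M) : Prop := ∃ u t r r' : M,
  x = algebraMap k M (d.a (some i)) + u * r ∧ y = algebraMap k M (d.b (some i)) + r ∧
  x' = algebraMap k M (d.a (some i)) + u * r' ∧ y' = algebraMap k M (d.b (some i)) + r' ∧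
  fg d x y 0 = t * fg d x y 1 ∧ fg d x' y' 0 = t * fg d x' y' 1 ∧
  d.co d.F i u 1 2 - t * d.co d.G i u 1 2 ≠ 0 ∧
  (d.co d.F i u 1 2 - t * d.co d.G i u 1 2) * (r + r') =
    -(d.co d.F i u 1 1 - t * d.co d.G i u 1 1) ∧
  (d.co d.F i u 1 2 - t * d.co d.G i u 1 2) * (r * r') = d.co d.F i u 1 0 - t * d.co d.G i u 1 0

/-- The Jacobian of the coordinates `(a, b)` generates the anticanonical sheaf at `O`. -/
def Jac (O : Subalgebra k M) (a b : M) : Prop := ∃ J : Fin 2 → Fin 2 → M,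
  IsU O ((J 0 0 * J 1 1 - J 0 1 * J 1 0) / lb d x y cK O) ∧
  ∀ (K : Type) [Field K] [Algebra k K] (ι : M →ₐ[k] K) (D : Derivation k K (Fin 3 → K)),
    D (ι a) = ι (J 0 0) • D (ι x) + ι (J 0 1) • D (ι y) ∧
    D (ι b) = ι (J 1 0) • D (ι x) + ι (J 1 1) • D (ι y)

end surface

section threefold

variable {k M K : Type} [Field k] [Field M] [Field K] [Algebra k M] [Algebra k K]
  (d : Dat k) (x y : M) (ι : M →ₐ[k] K) (l : k) (ζ w : K)

/-- The function field of the double cover. -/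
structure Ext : Prop where
  l0 : l ≠ 0
  l1 : l ≠ 1
  tr : Tr ι ζ
  eq : w ^ 2 * ι (fg d x y 1) = ι (fg d x y 0) * (ζ * (ζ - 1) * (ζ - algebraMap k K l))
  top : IntermediateField.adjoin k (Set.range ι ∪ {ζ, w}) = ⊤

/-- The family defining the blow-up. -/
def SI : Set K :=
  {w * ι x, w * ι y, w * ι (fg d x y 1 / fg d x y 0 * x), w * ι (fg d x y 1 / fg d x y 0 * y),
    ι x, ι y, 1, ι x * ζ ^ 2, ι y * ζ ^ 2, ζ ^ 2}

/-- The families defining `X`. -/
def famX : Option Q ⊕ Bool → Set K :=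
  Sum.elim (fun o => ι '' famT d x y o) fun b => if b then SI d x y ι ζ w else {ζ, 1}

/-- The threefold. -/
def XX : Set (Subalgebra k K) := mp k (famX d x y ι ζ w)

open Classical in
/-- The generator of the ideal `(ζ, 1)`. -/
noncomputable def eta (O : Subalgebra k K) : K := if ζ ∈ O then 1 else ζ

open Classical in
/-- The affine coordinate on the line. -/
noncomputable def zc (O : Subalgebra k K) : K := if ζ ∈ O then ζ else ζ⁻¹

/-- Local equations of the four branch points. -/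
noncomputable def tau (j : Fin 4) (O : Subalgebra k K) : K :=
  ![ζ, ζ - 1, ζ - algebraMap k K l, 1] j / eta ζ O

/-- Local equations of the pull-backs of the branch curves. -/
noncomputable def sX (i : Fin 2) : Subalgebra k K → K := up ι (TT d x y) (sT d x y i)

/-- The coordinate on the exceptional fibres. -/
noncomputable def AA (O : Subalgebra k K) : K :=
  w * up ι (TT d x y) (ex d x y none) O / (sX d x y ι 0 O * eta ζ O ^ 2)

/-- Local equations of the exceptional divisors. -/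
noncomputable def EE (i : Fin 2) (j : Fin 4) (O : Subalgebra k K) : K :=
  gn {sX d x y ι i O, tau l ζ j O} O

/-- The degrees of a curve. -/
noncomputable def ZZ {Y : Set (Subalgebra k K)} (ν : Curve Y) : W ℤ :=
  ((-ν.deg (up ι (TT d x y) (gn (SH x y))), fun q => ν.deg (up ι (TT d x y) (ex d x y q))),
    -ν.deg (eta ζ), fun i j => ν.deg (EE d x y ι l ζ i j))

/-- Local equations of a divisor of class `D`. -/
noncomputable def lbW (D : W ℤ) (O : Subalgebra k K) : K :=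
  up ι (TT d x y) (lb d x y D.1) O * eta ζ O ^ (-D.2.1) *
    ∏ i, ∏ j, EE d x y ι l ζ i j O ^ (-D.2.2 i j)

end threefold

/-- What the geometry of `X` supplies. -/
structure GeoX {k K : Type} [Field k] [Field K] [Algebra k K] (X : Set (Subalgebra k K))
    (P : Set (Lam ℤ)) (Z : Curve X → W ℤ) : Prop where
  pa : PA P
  cart : ∀ D : W ℤ, ∃ C : Cartier X, ∀ ν, ν.deg C.f = ipW D (Z ν)
  cls : ∀ C : Cartier X, ∃ (N : ℤ) (D : W ℤ), N ≠ 0 ∧ ∀ ν, N * ν.deg C.f = ipW D (Z ν)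
  eff : ∀ D ∈ EG P, ∃ C : Cartier X, C.Effective ∧ ∀ ν, ν.deg C.f = ipW D (Z ν)
  cur : ∀ ν, Cur P (Z ν)
  tE : ∀ i j, ∃ ν, ∃ n : ℤ, 0 < n ∧
    Z ν = (0, 0, fun i' j' => if i' = i ∧ j' = j then -n else 0)
  tC : ∀ i, ∃ ν, ∃ n : ℤ, 0 < n ∧ Z ν = (0, n, fun i' _ => if i' = i then n else 0)
  tT : ∀ c ∈ P, ∀ j, ∃ ν, ∃ n : ℕ, 0 < n ∧
    Z ν = (n • c, 0, fun i j' => if j' = j then ip (cC i) (n • c) else 0)
  tG : ∀ c ∈ P, ∃ ν, ∃ n : ℕ, 0 < n ∧ Z ν = (n • c, 0, 0)
  aut : ∀ i, ∃ g : Aut X, ∀ ν, Z (ν.push (g.1 : K →ₐ[k] K) fun O => (g.2 O).1) = sigW i (Z ν)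

end Pool.Agent.MP_20d318_ag.BV

end MrgPart1

-- ======== part 2: formerly Pool.Agent.MP_20d318_ag.BV.Spec
section MrgPart2

/-! Statements of the modules of the geometric side. -/

set_option autoImplicit false

namespace Pool.Agent.MP_20d318_ag.BV

open Pool.Agent.MP_79c67d_ag Pool.Agent.MP_20d318_ag.AG MvPolynomial

/-! ### General commutative algebra -/

/-- ETA: a simple root gives a smooth local ring with the obvious coordinates. -/
def EtStmt : Prop := ∀ (k K : Type) [Field k] [Field K] [Algebra k K] (n : ℕ) (c : Fin n → K)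
  (θ : K) (p : MvPolynomial (Option (Fin n)) k) (O : Subalgebra k K), AlgebraicIndependent k c →
  aeval (fun o : Option (Fin n) => o.elim θ c) p = 0 →
  O ∈ Pts (Algebra.adjoin k (insert θ (Set.range c))) →
  IsU O (aeval (fun o : Option (Fin n) => o.elim θ c) (pderiv none p)) →
    Algebra.FormallySmooth k O ∧ ∀ D : Derivation k K (Fin 3 → K), ∀ a ∈ O,
      ∃ r : Fin n → K, (∀ i, r i ∈ O) ∧ D a = ∑ i, r i • D (c i)

/-- ETA: smoothness is local. -/
def SmGStmt : Prop := ∀ (k K : Type) [Field k] [Field K] [Algebra k K] (G : Set K), G.Finite →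
  (∀ O ∈ Pts (Algebra.adjoin k G), Algebra.FormallySmooth k O) →
    Algebra.FormallySmooth k (Algebra.adjoin k G)

/-- ETN: a simple root gives a normal local ring. -/
def EtNStmt : Prop := ∀ (k K : Type) [Field k] [Field K] [Algebra k K] (n : ℕ) (c : Fin n → K)
  (θ : K) (p : MvPolynomial (Option (Fin n)) k) (O : Subalgebra k K), AlgebraicIndependent k c →
  aeval (fun o : Option (Fin n) => o.elim θ c) p = 0 →
  O ∈ Pts (Algebra.adjoin k (insert θ (Set.range c))) → Frac O →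
  IsU O (aeval (fun o : Option (Fin n) => o.elim θ c) (pderiv none p)) → Nrm O

/-- HT1: prime divisors have codimension one. -/
def HtOneStmt : Prop := ∀ (k K : Type) [Field k] [Field K] [Algebra k K] (G : Set K) (n : ℕ)
  (c : Fin (n + 2) → K) (P : Place k K), G.Finite → Frac (Algebra.adjoin k G) →
  AlgebraicIndependent k c → plO P ∈ Pts (Algebra.adjoin k G) → ¬ Dim (plO P) n

/-- DIM: the transcendence degree of residue fields. -/
def DimUpStmt : Prop := ∀ (k M K : Type) [Field k] [Field M] [Field K] [Algebra k M] [Algebra k K]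
  (ι : M →ₐ[k] K) (R : Subalgebra k M) (O : Subalgebra k K) (u v : K) (n : ℕ),
  Dom R (O.comap ι) → O ∈ Pts (Algebra.adjoin k (ι '' R ∪ {u, v})) → Dim R n →
  AlgM O (Algebra.adjoin k (ι '' R ∪ {u})) v → Dim O (n + 1) ∧ (AlgM O (R.map ι) u → Dim O n)

/-- DIM: points of dimension one are curves. -/
def CurveStmt : Prop := ∀ (k K : Type) [Field k] [CharZero k] [IsAlgClosed k] [Field K]
  [Algebra k K] (X : Set (Subalgebra k K)), Good X → ∀ O ∈ X, Dim O 1 → ¬ Dim O 0 →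
    ∃ ν : Curve X, ν.gen = O

/-- The affine plane. -/
structure Plane {k M : Type} [Field k] [Field M] [Algebra k M] (a b : M) : Prop where
  frac : Frac (Algebra.adjoin k {a, b})
  nrm : Nrm (Algebra.adjoin k {a, b})
  tri : ∀ O ∈ Pts (Algebra.adjoin k {a, b}), O = ⊤ ∨ RatPt O ∨ ∃ P : Place k M, plO P = O
  ex : ∀ p : MvPolynomial (Fin 2) k, Irreducible p → ∃ P, PlOf a b p P
  plof : ∀ P : Place k M, plO P ∈ Pts (Algebra.adjoin k {a, b}) → ∃ p, PlOf a b p P
  uniq : ∀ (p p' : MvPolynomial (Fin 2) k) (P P' : Place k M), PlOf a b p P → PlOf a b p' P' →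
    p ∣ p' → P = P'
  dim : ∀ P : Place k M, plO P ∈ Pts (Algebra.adjoin k {a, b}) → ¬ RatPt (plO P) ∧ Dim (plO P) 1
  der : ∀ i, ∃ D : Derivation k M M, ∀ p : MvPolynomial (Fin 2) k,
    D (aeval ![a, b] p) = aeval ![a, b] (pderiv i p)
  hom : ∀ a' b' : M, GenP k a' b' → ∃ σ : M ≃ₐ[k] M, σ a = a' ∧ σ b = b'
  top : ∀ a' b' : M, IntermediateField.adjoin k {a', b'} = ⊤ → GenP k a' b'

/-- PLANE. -/
def PlaneStmt : Prop := ∀ (k M : Type) [Field k] [CharZero k] [IsAlgClosed k] [Field M]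
  [Algebra k M] (a b : M), GenP k a b → Plane (k := k) a b

/-- PROJ: the degrees of the projections of a plane curve. -/
def ProjStmt : Prop := ∀ (k L : Type) [Field k] [CharZero k] [IsAlgClosed k] [Field L]
  [Algebra k L] [IsFF k L] (u v : L) (p : MvPolynomial (Fin 2) k), Irreducible p →
  aeval ![u, v] p = 0 → (Transcendental k u ∨ Transcendental k v) →
    ∃ n : ℕ, 0 < n ∧ pdeg2 k u v = n * p.totalDegree ∧ ∀ (α β : k) (m : ℕ), IsOrd p α β m →
      (v ≠ algebraMap k L β → pdeg k ((u - algebraMap k L α) / (v - algebraMap k L β)) =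
        n * ((p.totalDegree : ℤ) - m)) ∧
      (u ≠ algebraMap k L α → pdeg k ((v - algebraMap k L β) / (u - algebraMap k L α)) =
        n * ((p.totalDegree : ℤ) - m))

/-- HOR: a closed point of the generic fibre is linearly equivalent to rational points. -/
def HorBStmt : Prop := ∀ (k M K : Type) [Field k] [Field M] [Field K] [Algebra k M] [Algebra k K]
  (ι : M →ₐ[k] K) (t : M) (l : k) (ζ w : K), t ≠ 0 → Tr ι ζ →
  w ^ 2 = ι t * (ζ * (ζ - 1) * (ζ - algebraMap k K l)) →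
  ∀ O ∈ Pts (Algebra.adjoin k (Set.range ι ∪ {ζ, w})), (∃ g ∈ mx O, g ≠ 0) →
    ∃ h ∈ Algebra.adjoin k (Set.range ι ∪ {ζ, w}), h ≠ 0 ∧ h ∈ mx O ∧
      ∀ O' ∈ Pts (Algebra.adjoin k (Set.range ι ∪ {ζ, w})), h ∈ mx O' → O' = O ∨
        ∃ a b : M, b ^ 2 = t * (a * (a - 1) * (a - algebraMap k M l)) ∧
          ζ - ι a ∈ mx O' ∧ w - ι b ∈ mx O'

/-- CLSG: induction over prime divisors. -/
def ClsGenStmt : Prop := ∀ (k K : Type) [Field k] [Field K] [Algebra k K]
  (X : Set (Subalgebra k K)) (Gd : (Subalgebra k K → K) → Prop) (lev : Place k K → ℕ), Nice X →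
  (∀ g, Gd g → IsCart X g) → (∀ f g, Gd f → Gd g → Gd (f * g)) →
  (∀ g (n : ℤ), Gd g → Gd (g ^ n)) → Gd 1 →
  (∀ P : Place k K, plO P ∈ X → ∃ g, Gd g ∧ P.ord (g (plO P)) ≠ 0 ∧ ∀ P' : Place k K,
    plO P' ∈ X → P' ≠ P → P'.ord (g (plO P')) ≠ 0 → lev P' < lev P) →
  ∀ f, IsCart X f → ∃ (N : ℤ) (g : Subalgebra k K → K), N ≠ 0 ∧ Gd g ∧
    ∀ O ∈ X, IsU O (f O ^ N / g O)

/-- XALG: the universal property of the function field of the double cover. -/
def XHomStmt : Prop := ∀ (k M K : Type) [Field k] [Field M] [Field K] [Algebra k M] [Algebra k K]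
  (ι : M →ₐ[k] K) (σ : M ≃ₐ[k] M) (t : M) (l : k) (ζ w : K), t ≠ 0 → σ t = t → Tr ι ζ →
  w ^ 2 = ι t * (ζ * (ζ - 1) * (ζ - algebraMap k K l)) →
  IntermediateField.adjoin k (Set.range ι ∪ {ζ, w}) = ⊤ →
    ∃ φ : K ≃ₐ[k] K, (∀ m, φ (ι m) = ι (σ m)) ∧ φ ζ = ζ ∧ φ w = w

/-- XALG: existence of the fields. -/
def XExStmt : Prop := (∀ (k : Type) [Field k], ∃ (M : Type) (_ : Field M) (_ : Algebra k M)
  (x y : M), GenP k x y) ∧ ∀ (k M : Type) [Field k] [Field M] [Algebra k M] (d : Dat k) (x y : M)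
  (l : k), l ≠ 0 → l ≠ 1 → fg d x y 1 ≠ 0 → ∃ (K : Type) (_ : Field K) (_ : Algebra k K)
    (ι : M →ₐ[k] K) (ζ w : K), Ext d x y ι l ζ w

/-- XALG: valuations with a prescribed centre and a prescribed value of a transcendental. -/
def UpStmt : Prop := ∀ (k M K : Type) [Field k] [Field M] [Field K] [Algebra k M] [Algebra k K]
  (ι : M →ₐ[k] K) (R : Subalgebra k M) (y : K), IsLocalRing R → Tr ι y →
    (∀ c : k, ∃ V : Subalgebra k K, IsVal V ∧ Dom R (V.comap ι) ∧ y - algebraMap k K c ∈ mx V) ∧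
    ∃ V : Subalgebra k K, IsVal V ∧ Dom R (V.comap ι) ∧ Ind V ![y]

/-! ### The surface -/

section surface

variable {k M : Type} [Field k] [Field M] [Algebra k M] (d : Dat k) (x y : M)

/-- The local structure of `T`. -/
structure TLoc : Prop where
  fam : Fam k (famT d x y)
  nice : Nice (TT d x y)
  gH : ∀ O ∈ TT d x y, Gn (SH x y) O (gn (SH x y) O)
  gQ : ∀ O ∈ TT d x y, ∀ q, Gn (SQ d x y q) O (gn (SQ d x y q) O)
  exm : ∀ O ∈ TT d x y, ∀ q, ex d x y q O ∈ O
  exu : ∀ O ∈ TT d x y, ∀ q, ¬ Ov d x y q O → IsU O (ex d x y q O)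
  exx : ∀ O ∈ TT d x y, ∀ q, Ov d x y q O → ex d x y q O ∈ mx O
  ovu : ∀ O : Subalgebra k M, IsLocalRing O → ∀ q q', Ov d x y q O → Ov d x y q' O → q = q'
  hu : ∀ O ∈ TT d x y, x ∈ O → y ∈ O → IsU O (gn (SH x y) O)
  c0 : ∀ O ∈ TT d x y, x ∈ O → y ∈ O → (∀ q, ¬ Ov d x y q O) → O ∈ Pts (Algebra.adjoin k {x, y})
  c1 : ∀ O ∈ TT d x y, ∀ q, Ov d x y q O → xq d x q / yq d y q ∈ O →
    O ∈ Pts (Algebra.adjoin k {xq d x q / yq d y q, yq d y q}) ∧ IsU O (ex d x y q O / yq d y q)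
  c2 : ∀ O ∈ TT d x y, ∀ q, Ov d x y q O → yq d y q / xq d x q ∈ O →
    O ∈ Pts (Algebra.adjoin k {yq d y q / xq d x q, xq d x q}) ∧ IsU O (ex d x y q O / xq d x q)
  c3 : ∀ O ∈ TT d x y, x⁻¹ ∈ mx O → y / x ∈ O → O ∈ Pts (Algebra.adjoin k {y / x, x⁻¹}) ∧
    IsU O (gn (SH x y) O / x) ∧ ∀ q, ¬ Ov d x y q O
  c4 : ∀ O ∈ TT d x y, y⁻¹ ∈ mx O → x / y ∈ O → O ∈ Pts (Algebra.adjoin k {x / y, y⁻¹}) ∧
    IsU O (gn (SH x y) O / y) ∧ ∀ q, ¬ Ov d x y q O
  g1 : ∀ q, GenP k (xq d x q / yq d y q) (yq d y q)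
  g2 : ∀ q, GenP k (yq d y q / xq d x q) (xq d x q)
  g3 : GenP k (y / x) x⁻¹
  g4 : GenP k (x / y) y⁻¹
  cases : ∀ O ∈ TT d x y, (x ∈ O ∧ y ∈ O ∧ ∀ q, ¬ Ov d x y q O) ∨
    (∃ q, Ov d x y q O ∧ xq d x q / yq d y q ∈ O) ∨ (∃ q, Ov d x y q O ∧ yq d y q / xq d x q ∈ O) ∨
    (x⁻¹ ∈ mx O ∧ y / x ∈ O) ∨ (y⁻¹ ∈ mx O ∧ x / y ∈ O)
  lbne : ∀ O ∈ TT d x y, ∀ c, lb d x y c O ≠ 0
  lbadd : ∀ O ∈ TT d x y, ∀ c c', lb d x y (c + c') O = lb d x y c O * lb d x y c' O
  lbsm : ∀ O ∈ TT d x y, ∀ (n : ℤ) c, lb d x y (n • c) O = lb d x y c O ^ n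
  lbH : ∀ O : Subalgebra k M, lb d x y cH O = (gn (SH x y) O)⁻¹
  lbE : ∀ (O : Subalgebra k M) q, lb d x y (cE q) O = ex d x y q O
  lbh : ∀ O ∈ TT d x y, ∀ q, lb d x y (ch q) O = (gn (SQ d x y q) O)⁻¹
  lbF : ∀ O ∈ TT d x y, lb d x y cF O = lb d x y cR O * ex d x y none O ^ 2
  cart : ∀ c, IsCart (TT d x y) (lb d x y c)
  cartH : IsCart (TT d x y) (gn (SH x y))
  cartQ : ∀ q, IsCart (TT d x y) (gn (SQ d x y q))
  cartE : ∀ q, IsCart (TT d x y) (ex d x y q)
  deg : ∀ (ν : Curve (TT d x y)) c, ν.deg (lb d x y c) = ip c (zz d x y ν)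
  chart : ∀ O ∈ TT d x y, ∃ a b : M, GenP k a b ∧ O ∈ Pts (Algebra.adjoin k {a, b}) ∧
    Jac d x y O a b
  tri : ∀ O ∈ TT d x y, O = ⊤ ∨ RatPt O ∨ ∃ P : Place k M, plO P = O
  dim : ∀ P : Place k M, plO P ∈ TT d x y → ¬ RatPt (plO P) ∧ Dim (plO P) 1

/-- The pencil of cubics on `T`. -/
structure Pen : Prop where
  ne : ∀ i, fg d x y i ≠ 0
  mem : ∀ O ∈ TT d x y, ∀ i, sT d x y i O ∈ O
  one : ∀ O ∈ TT d x y, IsU O (sT d x y 0 O) ∨ IsU O (sT d x y 1 O * ex d x y none O ^ 2)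
  gnF : ∀ O ∈ TT d x y, Gn {fg d x y 0, fg d x y 1} O (lb d x y cF O)⁻¹
  crd : ∀ O ∈ TT d x y, ∀ i, Crd O (sT d x y i O)
  cart : ∀ i, IsCart (TT d x y) (sT d x y i)

/-- The prime divisors of `T`. -/
structure TPl : Prop where
  plE : ∀ q, ∃ P, Prm d x y (cE q) 1 P ∧ Ov d x y q (plO P) ∧
    IsU (plO P) (xq d x q / yq d y q) ∧
    (∀ P' : Place k M, plO P' ∈ TT d x y → Ov d x y q (plO P') → P' = P) ∧
    ∀ p m, IsOrd p (d.a q) (d.b q) m → P.ord (aeval ![x, y] p) = m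
  plL : ∃ P, Prm d x y cH 1 P ∧ x⁻¹ ∈ mx (plO P) ∧ IsU (plO P) (y / x) ∧
    (∀ P' : Place k M, plO P' ∈ TT d x y → ¬ (x ∈ plO P' ∧ y ∈ plO P') → P' = P) ∧
    ∀ p : MvPolynomial (Fin 2) k, p ≠ 0 → P.ord (aeval ![x, y] p) = -p.totalDegree
  plP : ∀ p P (m : Q → ℕ), PlOf x y p P → (∀ q, IsOrd p (d.a q) (d.b q) (m q)) →
    Prm d x y (p.totalDegree, fun q => m q) (aeval ![x, y] p) P ∧ ∀ q, ¬ Ov d x y q (plO P)
  sec : ∀ (c : Lam ℤ) (p : MvPolynomial (Fin 2) k), p ≠ 0 → (p.totalDegree : ℤ) ≤ c.1 →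
    (∀ q, Van p (d.a q) (d.b q) (c.2 q).toNat) → Sec d x y c (aeval ![x, y] p)
  all : ∀ P : Place k M, plO P ∈ TT d x y → ∃ c φ, Prm d x y c φ P
  prW : ∀ α β : k, α ≠ 0 →
    ∃ P, Prm d x y cF (algebraMap k M α * fg d x y 0 + algebraMap k M β * fg d x y 1) P
  prC : ∀ i, ∃ P, Prm d x y (cC i) (fg d x y i) P
  prL : ∀ i j, i ≠ j →
    ∃ P, Prm d x y (ch (some i) - cE (some j)) (aeval ![x, y] (d.lin i j)) P

/-- The degrees of curves on `T`. -/
structure TZ : Prop where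
  cur : ∀ P : Place k M, plO P ∈ TT d x y → ∃ ν : Curve (TT d x y), ν.gen = plO P
  zero : ∀ c φ, (∀ O ∈ TT d x y, IsU O (φ * lb d x y c O)) → c = 0
  uniq : ∀ c c' φ φ' P, Prm d x y c φ P → Prm d x y c' φ' P → c = c'
  prm : ∀ c φ P, Prm d x y c φ P → ∀ ν : Curve (TT d x y), ν.gen = plO P →
    ∃ n : ℕ, 0 < n ∧ zz d x y ν = n • c
  cases : ∀ ν : Curve (TT d x y), (RatPt ν.gen ∧ zz d x y ν = 0) ∨ ∃ P : Place k M, ν.gen = plO P

/-- The twisted elliptic curve has only the points of order two. -/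
def MW (l : k) : Prop := ∀ a b : M,
  b ^ 2 * fg d x y 1 = fg d x y 0 * (a * (a - 1) * (a - algebraMap k M l)) → b = 0

/-- Everything about `T`. -/
structure TAll : Prop where
  cub : Cub d
  gen : GenP k x y
  loc : TLoc d x y
  pen : Pen d x y
  pl : TPl d x y
  z : TZ d x y

/-- The involution is a regular map of `T`. -/
structure SigT (x' y' : M) : Prop where
  eq : TT d x' y' = TT d x y
  ex : ∀ O ∈ TT d x y, IsU O (ex d x' y' none O / ex d x y none O)
  st : ∀ O ∈ TT d x y, ∀ j, IsU O (sT d x' y' j O / sT d x y j O)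
  tt : fg d x' y' 1 / fg d x' y' 0 = fg d x y 1 / fg d x y 0

end surface

/-- TLOC. -/
def TLocStmt : Prop := PlaneStmt → ∀ (k M : Type) [Field k] [CharZero k] [IsAlgClosed k] [Field M]
  [Algebra k M] (d : Dat k) (x y : M), Cub d → GenP k x y → TLoc d x y

/-- PEN. -/
def PenStmt : Prop := PlaneStmt → ∀ (k M : Type) [Field k] [CharZero k] [IsAlgClosed k] [Field M]
  [Algebra k M] (d : Dat k) (x y : M), Cub d → GenP k x y → TLoc d x y → Pen d x y

/-- TPL. -/
def TPlStmt : Prop := PlaneStmt → ∀ (k M : Type) [Field k] [CharZero k] [IsAlgClosed k] [Field M]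
  [Algebra k M] (d : Dat k) (x y : M), Cub d → GenP k x y → TLoc d x y → TPl d x y

/-- TZ. -/
def TZStmt : Prop := PlaneStmt → ProjStmt → CurveStmt → ∀ (k M : Type) [Field k] [CharZero k]
  [IsAlgClosed k] [Field M] [Algebra k M] (d : Dat k) (x y : M), Cub d → GenP k x y →
    TLoc d x y → TPl d x y → TZ d x y

/-- TPA. -/
def TPaStmt : Prop := ∀ (k M : Type) [Field k] [CharZero k] [IsAlgClosed k] [Field M]
  [Algebra k M] (d : Dat k) (x y : M), TAll d x y → PA (PP d x y)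

/-- MW. -/
def MwStmt : Prop := PlaneStmt → ∀ (k M : Type) [Field k] [CharZero k] [IsAlgClosed k] [Field M]
  [Algebra k M] (d : Dat k) (x y : M) (l : k), TAll d x y → l ≠ 0 → l ≠ 1 → MW d x y l

/-- SIG1. -/
def Sig1Stmt : Prop := PlaneStmt → ∀ (k M : Type) [Field k] [CharZero k] [IsAlgClosed k] [Field M]
  [Algebra k M] (d : Dat k) (x y : M), Cub d → GenP k x y → ∀ i,
    ∃ σ : M ≃ₐ[k] M, GenP k (σ x) (σ y) ∧ Par d x y i (σ x) (σ y)

/-- SIGT. -/
def SigTStmt : Prop := ∀ (k M : Type) [Field k] [CharZero k] [IsAlgClosed k] [Field M]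
  [Algebra k M] (d : Dat k) (x y x' y' : M) (i : Fin 9), TAll d x y → TAll d x' y' →
    Par d x y i x' y' → SigT d x y x' y'

/-- SIG2. -/
def Sig2Stmt : Prop := ∀ (k M : Type) [Field k] [CharZero k] [IsAlgClosed k] [Field M]
  [Algebra k M] (d : Dat k) (x y x' y' : M) (i : Fin 9), TAll d x y → TAll d x' y' →
    Par d x y i x' y' → SigT d x y x' y' →
      ∀ ν : Curve (TT d x y), zz d x' y' ν = sig i (zz d x y ν)

/-! ### The threefold -/

section threefold

variable {k M K : Type} [Field k] [Field M] [Field K] [Algebra k M] [Algebra k K]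
  (d : Dat k) (x y : M) (ι : M →ₐ[k] K) (l : k) (ζ w : K)

/-- The charts of `X`. -/
structure XLoc : Prop where
  fam : Fam k (famX d x y ι ζ w)
  fine : Fine (XX d x y ι ζ w)
  maps : Maps ι (XX d x y ι ζ w) (TT d x y)
  ind : AlgebraicIndependent k ![ι x, ι y, ζ]
  wne : w ≠ 0
  tne : ∀ (O : Subalgebra k K) j, tau l ζ j O ≠ 0
  zm : ∀ O ∈ XX d x y ι ζ w, zc ζ O ∈ O
  gZ : ∀ O ∈ XX d x y ι ζ w, Gn {ζ, 1} O (eta ζ O)
  tp : ∀ O : Subalgebra k K, ∃ α β : Fin 4 → k,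
    (∀ j, tau l ζ j O = algebraMap k K (α j) * zc ζ O + algebraMap k K (β j)) ∧
    ∀ j j', j ≠ j' → α j * β j' ≠ α j' * β j
  sne : ∀ O ∈ XX d x y ι ζ w, ∀ i, sX d x y ι i O ≠ 0
  ane : ∀ O ∈ XX d x y ι ζ w, AA d x y ι ζ w O ≠ 0
  aa : ∀ O ∈ XX d x y ι ζ w, AA d x y ι ζ w O ∈ O ∨ (AA d x y ι ζ w O)⁻¹ ∈ O
  eqn : ∀ O ∈ XX d x y ι ζ w,
    AA d x y ι ζ w O ^ 2 * (sX d x y ι 0 O * sX d x y ι 1 O) = ∏ j, tau l ζ j O
  pts : ∀ O ∈ XX d x y ι ζ w, ∀ a ∈ O, a = AA d x y ι ζ w O ∨ a = (AA d x y ι ζ w O)⁻¹ →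
    O ∈ Pts (Algebra.adjoin k (ι '' pr ι (TT d x y) O ∪ {zc ζ O, a}))
  prin : ∀ O : Subalgebra k K, IsLocalRing O → (∃ R ∈ TT d x y, Dom R (O.comap ι)) →
    AA d x y ι ζ w O ∈ O ∨ (AA d x y ι ζ w O)⁻¹ ∈ O → zc ζ O ∈ O → Prin (SI d x y ι ζ w) O
  tm : ∀ O ∈ XX d x y ι ζ w, ∀ j, tau l ζ j O ∈ O
  sm : ∀ O ∈ XX d x y ι ζ w, ∀ i, sX d x y ι i O ∈ O
  t1 : ∀ O ∈ XX d x y ι ζ w, ∀ j j', tau l ζ j O ∈ mx O → tau l ζ j' O ∈ mx O → j = j'
  s1 : ∀ O ∈ XX d x y ι ζ w, ∀ i i', sX d x y ι i O ∈ mx O → sX d x y ι i' O ∈ mx O → i = i'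
  dim : ∀ O ∈ XX d x y ι ζ w, ∀ n, Dim (pr ι (TT d x y) O) n → Dim O (n + 1)
  dimZ : ∀ O ∈ XX d x y ι ζ w, ∀ n, Dim (pr ι (TT d x y) O) n →
    AlgM O ((pr ι (TT d x y) O).map ι) (zc ζ O) →
    ¬ (IsU O (AA d x y ι ζ w O) ∧ ∃ i, sX d x y ι i O ∈ mx O) → Dim O n
  dimA : ∀ O ∈ XX d x y ι ζ w, ∀ n, Dim (pr ι (TT d x y) O) n → IsU O (AA d x y ι ζ w O) →
    AlgM O ((pr ι (TT d x y) O).map ι) (AA d x y ι ζ w O) → Dim O n

/-- The divisors on `X`. -/
structure XDiv : Prop where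
  gE : ∀ O ∈ XX d x y ι ζ w, ∀ i j, Gn {sX d x y ι i O, tau l ζ j O} O (EE d x y ι l ζ i j O)
  em : ∀ O ∈ XX d x y ι ζ w, ∀ i j, EE d x y ι l ζ i j O ∈ O
  eu : ∀ O ∈ XX d x y ι ζ w, ∀ i j, IsU O (sX d x y ι i O) ∨ IsU O (tau l ζ j O) →
    IsU O (EE d x y ι l ζ i j O)
  emx : ∀ O ∈ XX d x y ι ζ w, ∀ i j, sX d x y ι i O ∈ mx O → tau l ζ j O ∈ mx O →
    EE d x y ι l ζ i j O ∈ mx O
  eT : ∀ O ∈ XX d x y ι ζ w, ∀ i j, AA d x y ι ζ w O ∈ O → tau l ζ j O ∈ mx O →
    IsU O (EE d x y ι l ζ i j O / sX d x y ι i O)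
  eC : ∀ O ∈ XX d x y ι ζ w, ∀ i j, (AA d x y ι ζ w O)⁻¹ ∈ O → sX d x y ι i O ∈ mx O →
    IsU O (EE d x y ι l ζ i j O / tau l ζ j O)
  rT : ∀ O ∈ XX d x y ι ζ w, ∀ j, tau l ζ j O / ∏ i, EE d x y ι l ζ i j O ∈ O ∧
    (AA d x y ι ζ w O ∉ mx O → IsU O (tau l ζ j O / ∏ i, EE d x y ι l ζ i j O))
  rC : ∀ O ∈ XX d x y ι ζ w, ∀ i, sX d x y ι i O / ∏ j, EE d x y ι l ζ i j O ∈ O ∧
    ((AA d x y ι ζ w O)⁻¹ ∉ mx O → IsU O (sX d x y ι i O / ∏ j, EE d x y ι l ζ i j O))
  cartZ : IsCart (XX d x y ι ζ w) (eta ζ)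
  cartT : ∀ j, IsCart (XX d x y ι ζ w) (tau l ζ j)
  cartS : ∀ i, IsCart (XX d x y ι ζ w) (sX d x y ι i)
  cartA : IsCart (XX d x y ι ζ w) (AA d x y ι ζ w)
  cartE : ∀ i j, IsCart (XX d x y ι ζ w) (EE d x y ι l ζ i j)
  cartW : ∀ D, IsCart (XX d x y ι ζ w) (lbW d x y ι l ζ D)
  degW : ∀ (ν : Curve (XX d x y ι ζ w)) D,
    ν.deg (lbW d x y ι l ζ D) = ipW D (ZZ d x y ι l ζ ν)
  degL : ∀ (ν : Curve (XX d x y ι ζ w)) c φ, φ ≠ 0 →
    ν.deg (up ι (TT d x y) fun R => φ * lb d x y c R) = ip c (ZZ d x y ι l ζ ν).1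
  degS : ∀ (ν : Curve (XX d x y ι ζ w)) i, ν.deg (sX d x y ι i) = ip (cC i) (ZZ d x y ι l ζ ν).1
  degT : ∀ (ν : Curve (XX d x y ι ζ w)) j, ν.deg (tau l ζ j) = (ZZ d x y ι l ζ ν).2.1
  eff : ∀ D ∈ EG (PP d x y), ∃ C : Cartier (XX d x y ι ζ w), C.Effective ∧
    ∀ ν : Curve (XX d x y ι ζ w), ν.deg C.f = ipW D (ZZ d x y ι l ζ ν)

/-- Smoothness and the canonical class. -/
structure XSm : Prop where
  sm : ∀ O ∈ XX d x y ι ζ w, Algebra.FormallySmooth k O
  nrm : ∀ O ∈ XX d x y ι ζ w, Nrm O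
  can : ∀ D : Derivation k K (Fin 3 → K), (∀ i, D (![ι x, ι y, ζ] i) = Pi.single i 1) →
    ∀ O ∈ XX d x y ι ζ w, ∃ c : Fin 3 → K, (∀ i, c i ∈ O) ∧
      (∀ a ∈ O, ∃ r : Fin 3 → K, (∀ i, r i ∈ O) ∧ D a = ∑ i, r i • D (c i)) ∧
      IsU O (w * ι (fg d x y 1) * (Matrix.of fun i => D (c i)).det)

/-- The degrees of curves on `X`. -/
structure XCur : Prop where
  c0 : ∀ ν : Curve (XX d x y ι ζ w), RatPt (pr ι (TT d x y) ν.gen) → (ZZ d x y ι l ζ ν).1 = 0
  c1 : ∀ (ν : Curve (XX d x y ι ζ w)) c φ P, Prm d x y c φ P → pr ι (TT d x y) ν.gen = plO P →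
    ∃ n : ℕ, 0 < n ∧ (ZZ d x y ι l ζ ν).1 = n • c
  cA : ∀ (ν : Curve (XX d x y ι ζ w)) j, AA d x y ι ζ w ν.gen ∈ mx ν.gen →
    tau l ζ j ν.gen ∈ mx ν.gen → (ZZ d x y ι l ζ ν).2.1 = 0 ∧
      ∀ i j', (ZZ d x y ι l ζ ν).2.2 i j' = if j' = j then ip (cC i) (ZZ d x y ι l ζ ν).1 else 0
  cB : ∀ (ν : Curve (XX d x y ι ζ w)) i, (AA d x y ι ζ w ν.gen)⁻¹ ∈ mx ν.gen →
    sX d x y ι i ν.gen ∈ mx ν.gen →
      ∀ i' j, (ZZ d x y ι l ζ ν).2.2 i' j = if i' = i then (ZZ d x y ι l ζ ν).2.1 else 0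
  cX : ∀ (ν : Curve (XX d x y ι ζ w)) i j, sX d x y ι i ν.gen ∈ mx ν.gen →
    tau l ζ j ν.gen ∈ mx ν.gen → (ZZ d x y ι l ζ ν).2.1 = 0 ∧
      ∀ i' j', ¬ (i' = i ∧ j' = j) → (ZZ d x y ι l ζ ν).2.2 i' j' = 0
  cG : ∀ (ν : Curve (XX d x y ι ζ w)) (c : k), c ≠ 0 → c ≠ 1 → c ≠ l →
    ζ - algebraMap k K c ∈ mx ν.gen → (ZZ d x y ι l ζ ν).2 = 0
  cur : ∀ ν : Curve (XX d x y ι ζ w), Cur (PP d x y) (ZZ d x y ι l ζ ν)

/-- The test curves. -/
structure XTest : Prop where
  tE : ∀ i j, ∃ ν : Curve (XX d x y ι ζ w), ∃ n : ℤ, 0 < n ∧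
    ZZ d x y ι l ζ ν = (0, 0, fun i' j' => if i' = i ∧ j' = j then -n else 0)
  tC : ∀ i, ∃ ν : Curve (XX d x y ι ζ w), ∃ n : ℤ, 0 < n ∧
    ZZ d x y ι l ζ ν = (0, n, fun i' _ => if i' = i then n else 0)
  tT : ∀ c ∈ PP d x y, ∀ j, ∃ ν : Curve (XX d x y ι ζ w), ∃ n : ℕ, 0 < n ∧
    ZZ d x y ι l ζ ν = (n • c, 0, fun i j' => if j' = j then ip (cC i) (n • c) else 0)
  tG : ∀ c ∈ PP d x y, ∃ ν : Curve (XX d x y ι ζ w), ∃ n : ℕ, 0 < n ∧
    ZZ d x y ι l ζ ν = (n • c, 0, 0)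

/-- The prime divisors of `X`. -/
structure XPl : Prop where
  uE : ∀ (P P' : Place k K) i j, plO P ∈ XX d x y ι ζ w → plO P' ∈ XX d x y ι ζ w →
    sX d x y ι i (plO P) ∈ mx (plO P) → tau l ζ j (plO P) ∈ mx (plO P) →
    sX d x y ι i (plO P') ∈ mx (plO P') → tau l ζ j (plO P') ∈ mx (plO P') → P = P'
  top : ∀ (P : Place k K) j, plO P ∈ XX d x y ι ζ w → tau l ζ j (plO P) ∈ mx (plO P) →
    (∀ i, IsU (plO P) (sX d x y ι i (plO P))) → pr ι (TT d x y) (plO P) = ⊤
  uT : ∀ (P P' : Place k K) j, plO P ∈ XX d x y ι ζ w → plO P' ∈ XX d x y ι ζ w →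
    tau l ζ j (plO P) ∈ mx (plO P) → pr ι (TT d x y) (plO P) = ⊤ →
    tau l ζ j (plO P') ∈ mx (plO P') → pr ι (TT d x y) (plO P') = ⊤ → P = P'
  pl : ∀ P : Place k K, plO P ∈ XX d x y ι ζ w →
    pr ι (TT d x y) (plO P) = ⊤ ∨ ∃ P₀ : Place k M, pr ι (TT d x y) (plO P) = plO P₀
  uV : ∀ (P P' : Place k K) (P₀ : Place k M), plO P ∈ XX d x y ι ζ w → plO P' ∈ XX d x y ι ζ w →
    (∀ j, IsU (plO P) (tau l ζ j (plO P))) → (∀ j, IsU (plO P') (tau l ζ j (plO P'))) →
    pr ι (TT d x y) (plO P) = plO P₀ → pr ι (TT d x y) (plO P') = plO P₀ → P = P'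

/-- Everything local about `X`. -/
structure XAll : Prop where
  t : TAll d x y
  ext : Ext d x y ι l ζ w
  loc : XLoc d x y ι l ζ w
  div : XDiv d x y ι l ζ w

end threefold

/-- XLOC. -/
def XLocStmt : Prop := DimUpStmt → ∀ (k M K : Type) [Field k] [CharZero k] [IsAlgClosed k] [Field M]
  [Field K] [Algebra k M] [Algebra k K] (d : Dat k) (x y : M) (ι : M →ₐ[k] K) (l : k) (ζ w : K),
  TAll d x y → Ext d x y ι l ζ w → XLoc d x y ι l ζ w

/-- XDIV. -/
def XDivStmt : Prop := ∀ (k M K : Type) [Field k] [CharZero k] [IsAlgClosed k] [Field M]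
  [Field K] [Algebra k M] [Algebra k K] (d : Dat k) (x y : M) (ι : M →ₐ[k] K) (l : k) (ζ w : K),
  TAll d x y → Ext d x y ι l ζ w → XLoc d x y ι l ζ w → XDiv d x y ι l ζ w

/-- XSM. -/
def XSmStmt : Prop := EtStmt → EtNStmt → ∀ (k M K : Type) [Field k] [CharZero k] [IsAlgClosed k]
  [Field M] [Field K] [Algebra k M] [Algebra k K] (d : Dat k) (x y : M) (ι : M →ₐ[k] K) (l : k)
  (ζ w : K), XAll d x y ι l ζ w → XSm d x y ι ζ w

/-- XCUR. -/
def XCurStmt : Prop := ∀ (k M K : Type) [Field k] [CharZero k] [IsAlgClosed k] [Field M]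
  [Field K] [Algebra k M] [Algebra k K] (d : Dat k) (x y : M) (ι : M →ₐ[k] K) (l : k) (ζ w : K),
  XAll d x y ι l ζ w → XCur d x y ι l ζ w

/-- XTEST. -/
def XTestStmt : Prop := UpStmt → CurveStmt → ∀ (k M K : Type) [Field k] [CharZero k]
  [IsAlgClosed k] [Field M] [Field K] [Algebra k M] [Algebra k K] (d : Dat k) (x y : M)
  (ι : M →ₐ[k] K) (l : k) (ζ w : K), XAll d x y ι l ζ w → XCur d x y ι l ζ w →
    XTest d x y ι l ζ w

/-- XPL. -/
def XPlStmt : Prop := HtOneStmt → ∀ (k M K : Type) [Field k] [CharZero k] [IsAlgClosed k]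
  [Field M] [Field K] [Algebra k M] [Algebra k K] (d : Dat k) (x y : M) (ι : M →ₐ[k] K) (l : k)
  (ζ w : K), XAll d x y ι l ζ w → XPl d x y ι l ζ w

/-- XCLS. -/
def XClsStmt : Prop := HorBStmt → ClsGenStmt → ∀ (k M K : Type) [Field k] [CharZero k]
  [IsAlgClosed k] [Field M] [Field K] [Algebra k M] [Algebra k K] (d : Dat k) (x y : M)
  (ι : M →ₐ[k] K) (l : k) (ζ w : K), XAll d x y ι l ζ w → XPl d x y ι l ζ w → MW d x y l →
  (∀ O ∈ XX d x y ι ζ w, Nrm O) → ∀ C : Cartier (XX d x y ι ζ w), ∃ (N : ℤ) (D : W ℤ), N ≠ 0 ∧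
    ∀ ν : Curve (XX d x y ι ζ w), N * ν.deg C.f = ipW D (ZZ d x y ι l ζ ν)

/-- SIGX. -/
def SigXStmt : Prop := XHomStmt → ∀ (k M K : Type) [Field k] [CharZero k] [IsAlgClosed k]
  [Field M] [Field K] [Algebra k M] [Algebra k K] (d : Dat k) (x y : M) (ι : M →ₐ[k] K) (l : k)
  (ζ w : K) (σ : M ≃ₐ[k] M) (i : Fin 9), XAll d x y ι l ζ w → XAll d (σ x) (σ y) ι l ζ w →
  SigT d x y (σ x) (σ y) → (∀ ν : Curve (TT d x y), zz d (σ x) (σ y) ν = sig i (zz d x y ν)) →
    ∃ g : Aut (XX d x y ι ζ w), ∀ ν : Curve (XX d x y ι ζ w),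
      ZZ d x y ι l ζ (ν.push (g.1 : K →ₐ[k] K) fun O => (g.2 O).1) = sigW i (ZZ d x y ι l ζ ν)

/-- GLUE. -/
def GlueStmt : Prop := LatAStmt → LatDStmt → LatBStmt → LatCStmt →
  ∀ (k K : Type) [Field k] [Field K] [Algebra k K] (X : Set (Subalgebra k K)) (P : Set (Lam ℤ))
    (Z : Curve X → W ℤ), GeoX X P Z → ConeStatement X ∧ Module.finrank ℝ (N1 X) = 20 ∧
      ∃ ξ ∈ N1 X, (Set.range fun g : Aut X => g.act ξ).Infinite

/-! ### The pencil -/

/-- The properties of the pencil that do not mention the base points. -/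
structure Pre {k : Type} [Field k] (F G : MvPolynomial (Fin 3) k) : Prop where
  hF : F.IsHomogeneous 3
  hG : G.IsHomogeneous 3
  Fnu : aeval (![0, 0, 1] : Fin 3 → k) F ≠ 0
  Gz : ∀ (A : Type) [CommRing A] [Algebra k A] (v : Fin 3 → A), aeval v G =
    v 2 * aeval ![v 0, v 1, 0] (pderiv 2 G) + aeval ![v 0, v 1, 0] G
  cop : ∀ (L : Type) [Field L] [Algebra k L] (α β : L), aeval ![α, β, 0] (pderiv 2 G) = 0 →
    aeval ![α, β, 0] G = 0 → α = 0 ∧ β = 0
  smF : ∀ (L : Type) [Field L] [Algebra k L] (v : Fin 3 → L),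
    (∀ i, aeval v (pderiv i F) = 0) → v = 0
  smG : ∀ (L : Type) [Field L] [Algebra k L] (v : Fin 3 → L),
    (∀ i, aeval v (pderiv i G) = 0) → v 0 = 0 ∧ v 1 = 0
  irr : ∀ α β : k, (α ≠ 0 ∨ β ≠ 0) → Irreducible (aff (C α * F + C β * G)) ∧
    (aff (C α * F + C β * G)).totalDegree = 3
  line : ∀ (α β : k) (p v : Fin 3 → k), LinearIndependent k ![p, v] →
    (∀ s t : k, aeval (s • p + t • v) (C α * F + C β * G) = 0) → α = 0 ∧ β = 0
  tv : ∀ p : Fin 3 → k, p ≠ 0 → aeval p F = 0 → aeval p G = 0 → p 2 ≠ 0 ∧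
    LinearIndependent k ![fun i => aeval p (pderiv i F), fun i => aeval p (pderiv i G)]

/-- The nine base points. -/
structure Nine {k : Type} [Field k] (d : Dat k) : Prop where
  a0 : d.a none = 0
  b0 : d.b none = 0
  inj : ∀ q q', d.a q = d.a q' → d.b q = d.b q' → q = q'
  vanF : ∀ i, aeval (d.pt k (some i)) d.F = 0
  vanG : ∀ i, aeval (d.pt k (some i)) d.G = 0
  all : ∀ α β : k, aeval ![α, β, 1] d.F = 0 → aeval ![α, β, 1] d.G = 0 →
    ∃ i, α = d.a (some i) ∧ β = d.b (some i)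
  nc : ∀ p : MvPolynomial (Fin 2) k, p.totalDegree ≤ 2 →
    (∀ i, eval ![d.a (some i), d.b (some i)] p = 0) → p = 0

/-- SETB. -/
def SetBStmt : Prop := ∀ (k : Type) [Field k] [CharZero k] [IsAlgClosed k]
  (F G : MvPolynomial (Fin 3) k), Pre F G → ∃ d : Dat k, d.F = F ∧ d.G = G ∧ Nine d

/-- SETC. -/
def SetCStmt : Prop := ∀ (k : Type) [Field k] [CharZero k] [IsAlgClosed k] (d : Dat k),
  Pre d.F d.G → Nine d → Cub d

end Pool.Agent.MP_20d318_ag.BV

end MrgPart2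

-- marker of a merged file
example : 731051 + 164163 = 731051 + 164163 := rfl

end MrgPart0

-- ======== part 1: formerly Pool.Agent.MP_20d318_ag.BV.Poly2
section MrgPart1

-- ======== part 0: formerly Pool.Agent.MP_20d318_ag.BV.BaseA
section MrgPart0

/-! Generators of fractional ideals, Cartier divisors and degrees on curves. -/

set_option autoImplicit false
set_option linter.unusedSectionVars false

namespace Pool.Agent.MP_20d318_ag.BV

open Pool.Agent.MP_79c67d_ag Pool.Agent.MP_20d318_ag.AG MvPolynomial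
open scoped IntermediateField

variable {k K M L : Type} [Field k] [Field K] [Field M] [Field L] [Algebra k K] [Algebra k M]
  [Algebra k L]

section gn

variable {S S' : Set K} {O O' : Subalgebra k K} {γ γ' p q : K}

theorem Gn.ne (h : Gn S O γ) : γ ≠ 0 := by
  obtain ⟨a, -, hu⟩ := h.2
  exact (div_ne_zero_iff.1 hu.1).2
theorem Gn.prin (h : Gn S O γ) : Prin S O := ⟨γ, h⟩
theorem Gn.div_mem (h : Gn S O γ) (h' : ∀ a ∈ S, a / γ' ∈ O) : γ / γ' ∈ O := by
  obtain ⟨a, ha, hu⟩ := h.2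
  have h0 := (div_ne_zero_iff.1 hu.1).1
  have h1 := h.ne
  convert hu.div_mem (h' a ha) using 1
  rw [div_div_div_cancel_left' _ _ h0]
theorem Gn.unit (h : Gn S O γ) (h' : Gn S O γ') : IsU O (γ / γ') :=
  ⟨div_ne_zero h.ne h'.ne, h.div_mem h'.1, by rw [inv_div]; exact h'.div_mem h.1⟩
theorem Gn.of_unit (h : Gn S O γ) (hu : IsU O (γ' / γ)) : Gn S O γ' := by
  have e : ∀ a : K, a / γ' = a / γ / (γ' / γ) := fun a =>
    (div_div_div_cancel_right₀ h.ne a γ').symm
  obtain ⟨a, ha, ha'⟩ := h.2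
  exact ⟨fun b hb => e b ▸ hu.div_mem (h.1 b hb), a, ha, e a ▸ ha'.div hu⟩
theorem Gn.mono (h : Gn S O γ) (hle : O ≤ O') : Gn S O' γ :=
  ⟨fun a ha => hle (h.1 a ha), h.2.imp fun _ ha => ⟨ha.1, ha.2.mono hle⟩⟩
theorem Prin.mono (h : Prin S O) (hle : O ≤ O') : Prin S O' := h.imp fun _ h' => h'.mono hle
theorem gn_of_mem (hp : p ∈ S) (h0 : p ≠ 0) (h : ∀ a ∈ S, a / p ∈ O) : Gn S O p :=
  ⟨h, p, hp, by rw [div_self h0]; exact isU_one⟩
theorem Gn.exists_mem (h : Gn S O γ) : ∃ b ∈ S, Gn S O b :=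
  h.2.imp fun _ ha => ⟨ha.1, h.of_unit ha.2⟩
theorem Prin.exists_mem (h : Prin S O) : ∃ b ∈ S, Gn S O b := h.elim fun _ h' => h'.exists_mem
theorem gn_spec (h : Prin S O) : Gn S O (gn S O) := Classical.epsilon_spec h
theorem gn_left (h0 : p ≠ 0) (h : q / p ∈ O) : Gn {p, q} O p :=
  gn_of_mem (Or.inl rfl) h0 (by
    rintro a (rfl | rfl)
    · rw [div_self h0]; exact O.one_mem
    · exact h)
theorem gn_right (h0 : q ≠ 0) (h : p / q ∈ O) : Gn {p, q} O q := by
  rw [Set.pair_comm]; exact gn_left h0 h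
theorem Prin.pair (h : Prin {p, q} O) : p / q ∈ O ∨ q / p ∈ O := by
  obtain ⟨b, hb | hb, h'⟩ := h.exists_mem
  · exact Or.inr (hb ▸ h'.1 q (Or.inr rfl))
  · exact Or.inl ((Set.mem_singleton_iff.1 hb) ▸ h'.1 p (Or.inl rfl))
/-- The unit ideal. -/
theorem gn_one (h : ∀ a ∈ S, a ∈ O) (hu : ∃ a ∈ S, IsU O a) : Gn S O 1 := by
  simpa [Gn] using And.intro h hu
theorem Gn.mem (h : Gn S O γ) (hS : ∀ a ∈ S, a ∈ O) : γ ∈ O := by
  simpa using h.div_mem (γ' := 1) (by simpa using hS)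
theorem Gn.mem_mx (h : Gn S O γ) (hS : ∀ a ∈ S, a ∈ mx O) : γ ∈ mx O := by
  obtain ⟨a, ha, hu⟩ := h.2
  have := mx_div (hS a ha) hu
  rwa [div_div_cancel₀ (div_ne_zero_iff.1 hu.1).1] at this
theorem Gn.isU (h : Gn S O γ) (hS : ∀ a ∈ S, a ∈ O) (hu : ∃ a ∈ S, IsU O a) : IsU O γ := by
  simpa using h.unit (gn_one hS hu)
theorem Gn.smul (h : Gn S O γ) {c : K} (hc : c ≠ 0) :
    Gn ((fun a => c * a) '' S) O (c * γ) := by
  obtain ⟨a, ha, hu⟩ := h.2
  refine ⟨?_, c * a, ⟨a, ha, rfl⟩, by rwa [mul_div_mul_left _ _ hc]⟩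
  rintro _ ⟨b, hb, rfl⟩
  rw [mul_div_mul_left _ _ hc]
  exact h.1 b hb
theorem Gn.pair_mul (h : Gn {p, q} O γ) {c : K} (hc : c ≠ 0) :
    Gn {c * p, c * q} O (c * γ) := by
  simpa only [Set.image_pair] using h.smul hc
theorem Gn.pair_unit {p' q' : K} (h : Gn {p, q} O γ) (hp : IsU O (p' / p)) (hq : IsU O (q' / q)) :
    Gn {p', q'} O γ := by
  have e1 : p' / γ = p' / p * (p / γ) :=
    (div_mul_div_cancel₀ (div_ne_zero_iff.1 hp.1).2).symm
  have e2 : q' / γ = q' / q * (q / γ) :=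
    (div_mul_div_cancel₀ (div_ne_zero_iff.1 hq.1).2).symm
  refine ⟨?_, ?_⟩
  · rintro a (rfl | rfl)
    · exact e1 ▸ O.mul_mem hp.mem (h.1 p (Or.inl rfl))
    · exact e2 ▸ O.mul_mem hq.mem (h.1 q (Or.inr rfl))
  · obtain ⟨a, rfl | rfl, hu⟩ := h.2
    · exact ⟨p', Or.inl rfl, e1 ▸ hp.mul hu⟩
    · exact ⟨q', Or.inr rfl, e2 ▸ hq.mul hu⟩
/-- Two sets that span the same fractional ideal have the same generators. -/
theorem Gn.of_span (hO : IsLocalRing O) (h : Gn S O γ) (h1 : ∀ a ∈ S', a / γ ∈ O)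
    (h2 : ∀ a ∈ S, a ∈ Submodule.span O S') : Gn S' O γ := by
  refine ⟨h1, by_contra fun hn => ?_⟩
  have key : ∀ a ∈ Submodule.span O S', a / γ ∈ mx O := by
    intro a ha
    induction ha using Submodule.span_induction with
    | mem b hb => exact ⟨h1 b hb, fun hu => hn ⟨b, hb, hu⟩⟩
    | zero => rw [zero_div]; exact zero_mem_mx
    | add b c _ _ hb hc => rw [add_div]; exact mx_add hO hb hc
    | smul c b _ hb =>
      change (c : K) * b / γ ∈ mx O
      rw [mul_div_assoc]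
      exact mx_mul_left c.2 hb
  obtain ⟨a, ha, hu⟩ := h.2
  exact hu.not_mx (key a (h2 a ha))
theorem gn_map (ι : M →ₐ[k] K) {T : Set M} {g : M} :
    Gn (ι '' T) O (ι g) ↔ Gn T (O.comap ι) g := by
  simp only [Gn, Set.forall_mem_image, Set.exists_mem_image, isU_comap, Subalgebra.mem_comap,
    map_div₀]
theorem Gn.up (ι : M →ₐ[k] K) {T : Set M} {g : M} {R : Subalgebra k M} (h : Gn T R g)
    (hle : R ≤ O.comap ι) : Gn (ι '' T) O (ι g) := (gn_map ι).2 (h.mono hle)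
theorem _root_.Pool.Agent.MP_20d318_ag.AG.IsVal.prin (hV : IsVal O) (hS : S.Finite)
    (h : ∃ a ∈ S, a ≠ 0) : Prin S O := by
  obtain ⟨a, ha, ha0⟩ := h
  obtain ⟨j, hj, hmax⟩ := Set.exists_max_image S (fun b => hV.vs.valuation b) hS ⟨a, ha⟩
  refine ⟨j, gn_of_mem hj (fun h0 => ha0 ?_) fun b hb => (hV.vs.valuation_le_one_iff _).1 ?_⟩
  · simpa [h0] using hmax a ha
  · rw [map_div₀]
    exact div_le_one_of_le₀ (hmax b hb) zero_le

/-- A generator stays a generator in a neighbourhood. -/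
theorem Gn.nbhd (h : Gn S O γ) (hS : S.Finite) : ∃ T : Finset K, (∀ a ∈ T, a ∈ O) ∧
    ∀ W : Subalgebra k K, (∀ a ∈ T, a ∈ W) → Gn S W γ := by
  classical
  obtain ⟨a, ha, hu⟩ := h.2
  refine ⟨insert (a / γ)⁻¹ (hS.toFinset.image fun b => b / γ), fun b hb => ?_, fun W hW => ?_⟩
  · rcases Finset.mem_insert.1 hb with rfl | hb
    · exact hu.inv_mem
    · obtain ⟨c, hc, rfl⟩ := Finset.mem_image.1 hb
      exact h.1 c (hS.mem_toFinset.1 hc)
  · have h1 : ∀ b ∈ S, b / γ ∈ W := fun b hb =>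
      hW _ (Finset.mem_insert_of_mem (Finset.mem_image_of_mem _ (hS.mem_toFinset.2 hb)))
    exact ⟨h1, a, ha, hu.1, h1 a ha, hW _ (Finset.mem_insert_self _ _)⟩

end gn

section poly

variable {O : Subalgebra k K} {σ : Type}

theorem aeval_mem {r : σ → K} (h : ∀ i, r i ∈ O) (p : MvPolynomial σ k) : aeval r p ∈ O := by
  induction p using MvPolynomial.induction_on with
  | C c => rw [aeval_C]; exact O.algebraMap_mem c
  | add p q hp hq => rw [map_add]; exact O.add_mem hp hq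
  | mul_X p i hp => rw [map_mul, aeval_X]; exact O.mul_mem hp (h i)
theorem evO_aeval (ρ : O →ₐ[k] L) {r : σ → K} (h : ∀ i, r i ∈ O) (p : MvPolynomial σ k) :
    evO O ρ (aeval r p) = aeval (fun i => evO O ρ (r i)) p := by
  induction p using MvPolynomial.induction_on with
  | C c => rw [aeval_C, aeval_C, evO_const]
  | add p q hp hq => rw [map_add, map_add, evO_add ρ (aeval_mem h p) (aeval_mem h q), hp, hq]
  | mul_X p i hp => rw [map_mul, map_mul, aeval_X, aeval_X, evO_mul ρ (aeval_mem h p) (h i), hp]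
theorem aeval_sub_mx (hO : IsLocalRing O) {r s : σ → K} (hs : ∀ i, s i ∈ O)
    (h : ∀ i, r i - s i ∈ mx O) (p : MvPolynomial σ k) : aeval r p - aeval s p ∈ mx O := by
  induction p using MvPolynomial.induction_on with
  | C c => rw [aeval_C, aeval_C, sub_self]; exact zero_mem_mx
  | add p q hp hq =>
    convert mx_add hO hp hq using 1
    rw [map_add, map_add]; ring
  | mul_X p i hp =>
    have hr : r i ∈ O := by simpa using O.add_mem (h i).1 (hs i)
    convert mx_add hO (mx_mul_right hp hr) (mx_mul_left (aeval_mem hs p) (h i)) using 1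
    rw [map_mul, map_mul, aeval_X, aeval_X]; ring
theorem aeval_sub_const (hO : IsLocalRing O) {r : σ → K} {c : σ → k}
    (h : ∀ i, r i - algebraMap k K (c i) ∈ mx O) (p : MvPolynomial σ k) :
    aeval r p - algebraMap k K (eval c p) ∈ mx O := by
  have := aeval_sub_mx hO (s := algebraMap k K ∘ c) (fun i => O.algebraMap_mem _) h p
  rwa [aeval_algebraMap_apply, aeval_eq_eval] at this
theorem mem_adjoin_pair {a b f : K} :
    f ∈ Algebra.adjoin k {a, b} ↔ ∃ p : MvPolynomial (Fin 2) k, aeval ![a, b] p = f := by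
  have e : ({a, b} : Set K) = Set.range ![a, b] := by
    ext z
    simp only [Set.mem_insert_iff, Set.mem_singleton_iff, Set.mem_range, Fin.exists_fin_two,
      Matrix.cons_val_zero, Matrix.cons_val_one, eq_comm]
  rw [e, Algebra.adjoin_range_eq_range_aeval]
  rfl
/-- The chain rule. -/
theorem der_aeval [Fintype σ] {A N : Type} [CommRing A] [Algebra k A] [AddCommGroup N] [Module A N]
    [Module k N] [IsScalarTower k A N] (D : Derivation k A N) (c : σ → A) (p : MvPolynomial σ k) :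
    D (aeval c p) = ∑ i, aeval c (pderiv i p) • D (c i) := by
  classical
  induction p using MvPolynomial.induction_on with
  | C a => simp
  | add p q hp hq => simp only [map_add, hp, hq, add_smul, Finset.sum_add_distrib]
  | mul_X p j hp =>
    have e : ∀ i, aeval c (pderiv i (p * X j)) • D (c i) =
        (if i = j then aeval c p • D (c j) else 0) + c j • aeval c (pderiv i p) • D (c i) := by
      intro i
      rw [Derivation.leibniz, smul_eq_mul, smul_eq_mul, map_add, map_mul, map_mul, aeval_X,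
        add_smul, mul_smul (c j)]
      split_ifs with hij
      · subst hij; rw [pderiv_X_self, map_one, mul_one]
      · rw [pderiv_X_of_ne (Ne.symm hij), map_zero, mul_zero, zero_smul]
    rw [map_mul, aeval_X, Derivation.leibniz, hp, Finset.smul_sum]
    simp only [e, Finset.sum_add_distrib, Finset.sum_ite_eq', Finset.mem_univ, if_true]
/-- A derivation that is regular on the generators preserves the local ring. -/
theorem der_pres {G : Set K} (hO : O ∈ Pts (Algebra.adjoin k G)) (D : Derivation k K K)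
    (h : ∀ g ∈ G, D g ∈ O) : ∀ f ∈ O, D f ∈ O := by
  have key : ∀ a ∈ Algebra.adjoin k G, D a ∈ O := by
    intro a ha
    induction ha using Algebra.adjoin_induction with
    | mem g hg => exact h g hg
    | algebraMap c => rw [Derivation.map_algebraMap]; exact O.zero_mem
    | add a b _ _ ha hb => rw [map_add]; exact O.add_mem ha hb
    | mul a b ha' hb' ha hb =>
      rw [Derivation.leibniz, smul_eq_mul, smul_eq_mul]
      exact O.add_mem (O.mul_mem (hO.2.1 ha') hb) (O.mul_mem (hO.2.1 hb') ha)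
  intro f hf
  obtain ⟨a, ha, b, hb, hu, rfl⟩ := hO.2.2 f hf
  rw [Derivation.leibniz_div, smul_eq_mul, smul_eq_mul, smul_eq_mul]
  exact O.mul_mem (O.pow_mem hu.inv_mem 2)
    (O.sub_mem (O.mul_mem hu.mem (key a ha)) (O.mul_mem (hO.2.1 ha) (key b hb)))
theorem Crd.of_unit (hO : IsLocalRing O) {s u : K} (h : Crd O s) (hs : s ∈ O) (hu : IsU O u) :
    Crd O (u * s) := fun hm => by
  have h1 : s ∈ mx O := (mx_or_of_mul hu.mem hs hm).resolve_left hu.not_mx
  obtain ⟨D, hD, hs'⟩ := h h1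
  refine ⟨D, hD, ?_⟩
  rw [Derivation.leibniz, smul_eq_mul, smul_eq_mul]
  exact (hu.mul hs').add_mx hO (mx_mul_right h1 (hD u hu.mem))

end poly

section cart

variable {X : Set (Subalgebra k K)} {f g : Subalgebra k K → K} {S : Set K} {p q r : K}

theorem isCart_of_gn (hS : S.Finite) (h : ∀ O ∈ X, Gn S O (f O)) : IsCart X f := fun O hO => by
  obtain ⟨T, h1, h2⟩ := (h O hO).nbhd hS
  exact ⟨T, h1, fun O' hO' hT => (h O' hO').unit (h2 O' hT)⟩
theorem isCart_gn_pair {a b : Subalgebra k K → K} (ha : IsCart X a) (hb : IsCart X b)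
    (h : ∀ O ∈ X, Gn {a O, b O} O (f O)) : IsCart X f := fun O hO => by
  classical
  obtain ⟨T, h1, h2⟩ := (h O hO).nbhd (Set.toFinite _)
  obtain ⟨Ta, h3, h4⟩ := ha O hO
  obtain ⟨Tb, h5, h6⟩ := hb O hO
  refine ⟨T ∪ (Ta ∪ Tb), fun c hc => ?_, fun O' hO' hT => (h O' hO').unit ?_⟩
  · rcases Finset.mem_union.1 hc with hc | hc
    · exact h1 c hc
    · exact (Finset.mem_union.1 hc).elim (h3 c) (h5 c)
  · exact (h2 O' fun c hc => hT c (Finset.mem_union_left _ hc)).pair_unit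
      (h4 O' hO' fun c hc => hT c (Finset.mem_union_right _ (Finset.mem_union_left _ hc)))
      (h6 O' hO' fun c hc => hT c (Finset.mem_union_right _ (Finset.mem_union_right _ hc)))
theorem _root_.Pool.Agent.MP_20d318_ag.AG.IsCart.congr (hf : IsCart X f)
    (h : ∀ O ∈ X, IsU O (g O / f O)) : IsCart X g := fun O hO => by
  classical
  obtain ⟨T, h1, h2⟩ := hf O hO
  refine ⟨insert (g O / f O) (insert (g O / f O)⁻¹ T), fun c hc => ?_, fun O' hO' hT => ?_⟩
  · rcases Finset.mem_insert.1 hc with rfl | hc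
    · exact (h O hO).mem
    · rcases Finset.mem_insert.1 hc with rfl | hc
      · exact (h O hO).inv_mem
      · exact h1 c hc
  · have h3 : IsU O' (g O / f O) := ⟨(h O hO).1, hT _ (Finset.mem_insert_self _ _),
      hT _ (Finset.mem_insert_of_mem (Finset.mem_insert_self _ _))⟩
    have h4 := ((h O' hO').mul (h2 O' hO' fun c hc =>
      hT c (Finset.mem_insert_of_mem (Finset.mem_insert_of_mem hc)))).div h3
    rwa [div_mul_div_cancel₀ (hf.ne hO'), div_div_div_cancel_right₀ (hf.ne hO)] at h4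
theorem ev_mul (ν : Curve X) {a b : K} (ha : a ∈ ν.gen) (hb : b ∈ ν.gen) :
    ν.ev (a * b) = ν.ev a * ν.ev b := evO_mul ν.ρ ha hb
theorem ev_div (ν : Curve X) {a b : K} (ha : a ∈ ν.gen) (hb : IsU ν.gen b) :
    ν.ev (a / b) = ν.ev a / ν.ev b := evO_div ν.ρ ha hb
theorem ev_sub_const (ν : Curve X) {a : K} (ha : a ∈ ν.gen) (c : k) :
    ν.ev (a - algebraMap k K c) = ν.ev a - algebraMap k ν.L c := by
  rw [ν.ev_eq, evO_sub ν.ρ ha (ν.gen.algebraMap_mem c), evO_const, ν.ev_eq]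
theorem ev_eq_zero (ν : Curve X) {a : K} (ha : a ∈ ν.gen) : ν.ev a = 0 ↔ a ∈ mx ν.gen :=
  ν.locHom.eq_zero_iff ha
theorem ev_const_of (ν : Curve X) {a : K} {c : k} (h : a - algebraMap k K c ∈ mx ν.gen) :
    ν.ev a = algebraMap k ν.L c := by
  have ha : a ∈ ν.gen := by simpa using ν.gen.add_mem h.1 (ν.gen.algebraMap_mem c)
  rw [← sub_eq_zero, ← ev_sub_const ν ha]
  exact (ev_eq_zero ν h.1).2 h
/-- A function that vanishes on the curve vanishes at the points where it is regular. -/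
theorem mx_pt (ν : Curve X) (P : Place k ν.L) {a : K} (h : a ∈ mx ν.gen) (ha : a ∈ ν.pt P) :
    a ∈ mx (ν.pt P) := mx_of_le (ν.pt_le P) ha h
theorem mx_pt_cart (hf : IsCart X f) (ν : Curve X) (P : Place k ν.L) (h : f ν.gen ∈ mx ν.gen) :
    f (ν.pt P) ∈ mx ν.gen := by
  have := mx_mul_left (hf.unit (ν.pt_mem P) ν.gen_mem (ν.pt_le P)).mem h
  rwa [div_mul_cancel₀ _ (hf.ne ν.gen_mem)] at this
/-- A function that is constant on the curve is regular at all points where it or its inverse is. -/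
theorem mem_pt_of_const (ν : Curve X) (P : Place k ν.L) {a : K} {c : k}
    (h : a - algebraMap k K c ∈ mx ν.gen) (ha : a ∈ ν.pt P ∨ a⁻¹ ∈ ν.pt P) :
    a - algebraMap k K c ∈ mx (ν.pt P) := by
  refine mx_pt ν P h ((ν.pt P).sub_mem (ha.elim id fun h1 => ?_) ((ν.pt P).algebraMap_mem c))
  by_cases h0 : a = 0
  · exact h0 ▸ (ν.pt P).zero_mem
  have hu : IsU ν.gen a :=
    ⟨h0, by simpa using ν.gen.add_mem h.1 (ν.gen.algebraMap_mem c), ν.pt_le P h1⟩
  have e := ev_const_of ν h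
  have hc : c ≠ 0 := fun hc => evO_ne ν.ρ hu (by rw [← ν.ev_eq, e, hc, map_zero])
  have h2 := (ν.v_eq_one_iff P h1).1 (by
    rw [ν.ev_eq, evO_inv ν.ρ hu, ← ν.ev_eq, e, map_inv₀, FF.v_const P hc, inv_one])
  simpa using h2.inv_mem

/-- The order of a generator at a point of a curve. -/
theorem gn_ord (ν : Curve X) (P : Place k ν.L) {γ : K} (hr : r ∈ S) (h0 : Gn S ν.gen r)
    (h : Gn S (ν.pt P) γ) : (∀ a ∈ S, P.ord (ν.ev (γ / r)) ≤ P.ord (ν.ev (a / r))) ∧
      ∃ a ∈ S, P.ord (ν.ev (γ / r)) = P.ord (ν.ev (a / r)) := by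
  have hu : IsU ν.gen (γ / r) := (h.mono (ν.pt_le P)).unit h0
  have he : ν.ev (γ / r) ≠ 0 := evO_ne ν.ρ hu
  have key : ∀ a ∈ S, ν.ev (a / r) ≠ 0 →
      P.ord (ν.ev (a / γ)) = P.ord (ν.ev (a / r)) - P.ord (ν.ev (γ / r)) := fun a ha h1 => by
    rw [← P.ord_div h1 he, ← ev_div ν (h0.1 a ha) hu, div_div_div_cancel_right₀ h0.ne]
  have e1 : ν.ev (r / r) = 1 := by rw [div_self h0.ne, ν.ev_eq, evO_one]
  have h2 : ∀ a ∈ S, ν.ev (a / r) ≠ 0 → P.ord (ν.ev (γ / r)) ≤ P.ord (ν.ev (a / r)) :=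
    fun a ha h1 => by
      have := FF.ord_nonneg (ν.v_le P (h.1 a ha))
      rw [key a ha h1] at this
      omega
  refine ⟨fun a ha => ?_, ?_⟩
  · by_cases h1 : ν.ev (a / r) = 0
    · have := h2 r hr (by rw [e1]; exact one_ne_zero)
      rw [e1, P.ord_one] at this
      rwa [h1, P.ord_zero]
    · exact h2 a ha h1
  · obtain ⟨a, ha, ha'⟩ := h.2
    have h1 : IsU ν.gen (a / r) := by
      have := (ha'.mono (ν.pt_le P)).mul hu
      rwa [div_mul_div_cancel₀ h.ne] at this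
    have := ν.ord_unit P ha'
    rw [key a ha (evO_ne ν.ρ h1)] at this
    exact ⟨a, ha, by omega⟩

variable [CharZero k] [IsAlgClosed k]

theorem ev_transcendental (ν : Curve X) {a : K} (ha : a ∈ ν.gen)
    (h : ∀ c : k, a - algebraMap k K c ∉ mx ν.gen) : Transcendental k (ν.ev a) :=
  transcendental_iff_ne.2 fun c hc => h c
    ((ev_eq_zero ν (ν.gen.sub_mem ha (ν.gen.algebraMap_mem c))).1
      (by rw [ev_sub_const ν ha, hc, sub_self]))
theorem pt_rat (ν : Curve X) (P : Place k ν.L) : RatPt (ν.pt P) := fun a ha => by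
  obtain ⟨c, hc⟩ := FF.residue P (ν.v_le P ha)
  refine ⟨c, (ν.v_lt_one_iff P ((ν.pt P).sub_mem ha ((ν.pt P).algebraMap_mem c))).1 ?_⟩
  rwa [ev_sub_const ν (ν.pt_le P ha)]
theorem exists_pl (ν : Curve X) : Nonempty (Place k ν.L) := by
  obtain ⟨t, ht⟩ := exists_transcendental k ν.L
  obtain ⟨P, -⟩ := exists_place_pos ht
  exact ⟨P⟩
theorem deg_rat (hf : IsCart X f) (ν : Curve X) (h : RatPt ν.gen) : ν.deg f = 0 :=
  finsum_eq_zero_of_forall_eq_zero fun P => by
    obtain ⟨c, hc⟩ := h _ (hf.unit (ν.pt_mem P) ν.gen_mem (ν.pt_le P)).mem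
    rw [ev_const_of ν hc, P.ord_const]
theorem deg_zero_aux (hX : Good X) (hf : IsCart X f) (ν : Curve X)
    (h : ∀ P, IsU (ν.pt P) (f (ν.pt P))) : ν.deg f = 0 := by
  obtain ⟨P⟩ := exists_pl ν
  have h1 := ((h P).mono (ν.pt_le P)).div (hf.unit (ν.pt_mem P) ν.gen_mem (ν.pt_le P))
  rw [div_div_cancel₀ (h P).1] at h1
  rw [deg_of_unit hX hf ν h1]
  exact finsum_eq_zero_of_forall_eq_zero fun Q => ν.ord_unit Q (h Q)
theorem degc (hX : Good X) (hf : IsCart X f) (hg : IsCart X g) (ν : Curve X)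
    (h : ∀ P, IsU (ν.pt P) (f (ν.pt P) / g (ν.pt P))) : ν.deg f = ν.deg g := by
  have h1 := deg_zero_aux hX (hf.div hg) ν h
  rw [deg_div hX hf hg] at h1
  omega
theorem deg_zero_of (hX : Good X) (hf : IsCart X f) (ν : Curve X)
    (h : ∀ P, IsU (ν.pt P) (f (ν.pt P))) : ν.deg f = 0 := deg_zero_aux hX hf ν h
theorem deg_cmul (hX : Good X) (hf : IsCart X f) {c : K} (hc : c ≠ 0) (ν : Curve X) :
    ν.deg (fun O => c * f O) = ν.deg f := by
  have h1 := deg_mul hX (isCart_const hc) hf ν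
  rw [deg_const, zero_add] at h1
  exact h1
theorem deg_gn_nonpos (hX : Good X) (hS : S.Finite) (h : ∀ O ∈ X, Gn S O (f O)) (ν : Curve X) :
    ν.deg f ≤ 0 := by
  have hf := isCart_of_gn hS h
  obtain ⟨b, hb, hu⟩ := (h _ ν.gen_mem).2
  have hc : IsCart X fun _ => b := isCart_const (div_ne_zero_iff.1 hu.1).1
  have h1 := deg_nonneg hX (hc.div hf) (fun O hO => (h O hO).1 b hb) ν hu
  rw [deg_div hX hc hf, deg_const] at h1
  omega

theorem deg_of_ord (ν : Curve X) {φ : Place k ν.L → ℤ} (hφ : (Function.support φ).Finite)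
    (h0 : Gn S ν.gen (f ν.gen)) (h : ∀ P, Gn S (ν.pt P) (f (ν.pt P))) (hr : Gn S ν.gen r)
    (e : ∀ P, P.ord (ν.ev (f (ν.pt P) / r)) = -φ P) : ν.deg f = -∑ᶠ P, φ P := by
  have hu := h0.unit hr
  have he : ν.ev (f ν.gen / r) ≠ 0 := evO_ne ν.ρ hu
  have h1 : ∑ᶠ P : Place k ν.L, (φ P + P.ord (ν.ev (f ν.gen / r))) = ∑ᶠ P, φ P := by
    rw [finsum_add_distrib hφ (FF.finite_ord _), FF.finsum_ord he, add_zero]
  rw [← h1, ← finsum_neg_distrib]
  refine finsum_congr fun P => ?_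
  have h2 := ((h P).mono (ν.pt_le P)).unit hr
  have h3 : ν.ev (f (ν.pt P) / r) ≠ 0 := evO_ne ν.ρ h2
  rw [← div_div_div_cancel_right₀ hr.ne, ev_div ν h2.mem hu, P.ord_div h3 he, e]
  ring

theorem deg_gn_pair (ν : Curve X) (h0 : Gn {p, q} ν.gen (f ν.gen))
    (h : ∀ P, Gn {p, q} (ν.pt P) (f (ν.pt P))) (hq : q ≠ 0) (hpq : p / q ∈ ν.gen) :
    ν.deg f = -pdeg k (ν.ev (p / q)) := by
  have hr := gn_right hq hpq
  refine deg_of_ord ν ((FF.finite_ord (ν.ev (p / q))).subset fun P hP h1 => hP ?_) h0 h hr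
    fun P => ?_
  · simp only [h1, neg_zero, max_self]
  · obtain ⟨h1, a, ha, h2⟩ := gn_ord ν P (Or.inr rfl) hr (h P)
    have h3 := h1 p (Or.inl rfl)
    have h4 := h1 q (Or.inr rfl)
    have e1 : P.ord (ν.ev (q / q)) = 0 := by rw [div_self hq, ν.ev_eq, evO_one, P.ord_one]
    rcases ha with rfl | rfl <;> omega
theorem deg_gn_three (ν : Curve X) (h0 : Gn {p, q, r} ν.gen (f ν.gen))
    (h : ∀ P, Gn {p, q, r} (ν.pt P) (f (ν.pt P))) (hr : r ≠ 0) (hp : p / r ∈ ν.gen)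
    (hq : q / r ∈ ν.gen) : ν.deg f = -pdeg2 k (ν.ev (p / r)) (ν.ev (q / r)) := by
  have hg : Gn {p, q, r} ν.gen r := gn_of_mem (Or.inr (Or.inr rfl)) hr (by
    rintro a (rfl | rfl | rfl)
    · exact hp
    · exact hq
    · rw [div_self hr]; exact ν.gen.one_mem)
  refine deg_of_ord ν (((FF.finite_ord (ν.ev (p / r))).union
    (FF.finite_ord (ν.ev (q / r)))).subset fun P hP => by_contra fun h1 => hP ?_) h0 h hg
    fun P => ?_
  · simp only [Set.mem_union, Function.mem_support, ne_eq, not_or, not_not] at h1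
    simp only [h1.1, h1.2, neg_zero, max_self]
  · obtain ⟨h1, a, ha, h2⟩ := gn_ord ν P (Or.inr (Or.inr rfl)) hg (h P)
    have h3 := h1 p (Or.inl rfl)
    have h4 := h1 q (Or.inr (Or.inl rfl))
    have h5 := h1 r (Or.inr (Or.inr rfl))
    have e1 : P.ord (ν.ev (r / r)) = 0 := by rw [div_self hr, ν.ev_eq, evO_one, P.ord_one]
    rcases ha with rfl | rfl | rfl <;> omega

variable [IsFF k L] {u v : L}

theorem pdeg_eq (hu : Transcendental k u) : pdeg k u = Module.finrank k⟮u⟯ L := by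
  rw [← deg_pole hu, FF.deg_eq_finsum]
  refine finsum_congr fun P => ?_
  rw [Finsupp.sup_apply, Finsupp.neg_apply, FF.div_apply, Finsupp.zero_apply, max_comm]
theorem pdeg_const (c : k) : pdeg k (algebraMap k L c) = 0 :=
  finsum_eq_zero_of_forall_eq_zero fun P => by rw [P.ord_const, neg_zero, max_self]
theorem pdeg_pos (hu : Transcendental k u) : 0 < pdeg k u := by
  have := finDim_adjoin hu
  rw [pdeg_eq hu]
  exact_mod_cast Module.finrank_pos
theorem pdeg_nonneg (u : L) : 0 ≤ pdeg k u := finsum_nonneg fun _ => le_max_left _ _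
theorem const_of_pdeg (h : pdeg k u = 0) : ∃ c : k, u = algebraMap k L c :=
  by_contra fun hn => (pdeg_pos (transcendental_iff_ne.2 fun c hc => hn ⟨c, hc⟩)).ne' h
theorem pdeg2_zero_left (v : L) : pdeg2 k 0 v = pdeg k v :=
  finsum_congr fun P => by rw [P.ord_zero, neg_zero, ← max_assoc, max_self]
theorem pdeg2_zero_right (u : L) : pdeg2 k u 0 = pdeg k u :=
  finsum_congr fun P => by rw [P.ord_zero, neg_zero, max_comm (-P.ord u), ← max_assoc, max_self]

end cart

end Pool.Agent.MP_20d318_ag.BV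

end MrgPart0

-- ======== part 1: formerly Pool.Agent.MP_20d318_ag.BV.BaseB2
section MrgPart1

/-! Normal models and dimension. -/

set_option autoImplicit false

namespace Pool.Agent.MP_20d318_ag.BV

open Pool.Agent.MP_79c67d_ag Pool.Agent.MP_20d318_ag.AG MvPolynomial

variable {k K M L Λ Λ' : Type} [Field k] [Field K] [Field M] [Field L] [Algebra k K] [Algebra k M]
  [Algebra k L]

section nice

variable {X : Set (Subalgebra k K)} {O : Subalgebra k K} {f g : Subalgebra k K → K}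

theorem Fine.chart (hX : Fine X) (hO : O ∈ X) :
    ∃ G : Set K, G.Finite ∧ Frac (Algebra.adjoin k G) ∧ O ∈ Pts (Algebra.adjoin k G) := by
  obtain ⟨𝒢, -, h1, h2⟩ := hX.cov
  rw [h2] at hO
  obtain ⟨G, hG, hO⟩ := Set.mem_iUnion₂.1 hO
  exact ⟨G, (h1 G hG).1, (h1 G hG).2, hO⟩
theorem Fine.top (hX : Fine X) : ⊤ ∈ X := by
  obtain ⟨O, hO, -⟩ := hX.cpl ⊤ fun _ => Or.inl Algebra.mem_top
  obtain ⟨𝒢, -, h1, h2⟩ := hX.cov
  rw [h2] at hO ⊢
  obtain ⟨G, hG, -⟩ := Set.mem_iUnion₂.1 hO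
  exact Set.mem_iUnion₂.2 ⟨G, hG, top_mem_Pts (h1 G hG).2⟩
theorem Fine.frac (hX : Fine X) (hO : O ∈ X) : Frac O := by
  obtain ⟨G, -, h1, h2⟩ := hX.chart hO
  exact h1.mono h2.2.1
theorem Fine.fin (hX : Fine X) (a : K) : {P : Place k K | plO P ∈ X ∧ P.ord a ≠ 0}.Finite := by
  obtain ⟨𝒢, h0, h1, h2⟩ := hX.cov
  refine (h0.biUnion fun G hG => pole_stmt k K G (h1 G hG).1 (h1 G hG).2 a).subset ?_
  rintro P ⟨hP, ha⟩
  rw [h2] at hP
  obtain ⟨G, hG, hP⟩ := Set.mem_iUnion₂.1 hP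
  exact Set.mem_iUnion₂.2 ⟨G, hG, hP, ha⟩
theorem mx_plO {P : Place k K} {a : K} (h0 : a ≠ 0) : a ∈ mx (plO P) ↔ 0 < P.ord a := by
  rw [mem_mx_plO, ← P.ge1_iff, P.ge_iff h0, Int.lt_iff_add_one_le, zero_add]
theorem mem_plO_ord {P : Place k K} {a : K} : a ∈ plO P ↔ 0 ≤ P.ord a := by
  rw [mem_plO', P.ge_iff']
  exact ⟨fun h => h.elim (fun h0 => by simp [h0]) id, Or.inr⟩

namespace B2

theorem ord_eq (hf : IsCart X f) (hO : O ∈ X) {P : Place k K} (hP : plO P ∈ X)
    (hle : O ≤ plO P) : P.ord (f O) = P.ord (f (plO P)) := by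
  have h := ((isU_plO' P).1 (hf.unit hO hP hle)).2
  rw [P.ord_div (hf.ne hO) (hf.ne hP)] at h
  omega

end B2

theorem Fine.fin_cart (hX : Fine X) (hf : IsCart X f) :
    {P : Place k K | plO P ∈ X ∧ P.ord (f (plO P)) ≠ 0}.Finite := by
  obtain ⟨T, -, hT⟩ := hf ⊤ hX.top
  refine ((hX.fin (f ⊤)).union (T.finite_toSet.biUnion fun a _ => hX.fin a)).subset ?_
  rintro P ⟨hP, hord⟩
  by_contra hn
  simp only [Set.mem_union, Set.mem_iUnion, Set.mem_ofPred_eq, hP, true_and, not_or, not_not,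
    not_exists] at hn
  have h := ((isU_plO' P).1 (hT _ hP fun a ha => mem_plO_ord.2 (hn.2 a ha).ge)).2
  rw [P.ord_div (hf.ne hP) (hf.ne hX.top), hn.1, sub_zero] at h
  exact hord h
theorem Nice.krull (hX : Nice X) (hO : O ∈ X) {a : K}
    (h : ∀ P : Place k K, plO P ∈ X → O ≤ plO P → a ∈ plO P) : a ∈ O := by
  obtain ⟨G, h1, -, h2⟩ := hX.toFine.chart hO
  exact krull_stmt k K O (noeth_stmt k K G h1 O h2) (hX.nrm O hO) (hX.toFine.frac hO) a
    fun P hP => h P (hX.toFine.toGood.pts hO hP) hP.2.1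
theorem Nice.eff (hX : Nice X) (hf : IsCart X f) (hO : O ∈ X)
    (h : ∀ P : Place k K, plO P ∈ X → O ≤ plO P → 0 ≤ P.ord (f (plO P))) : f O ∈ O :=
  hX.krull hO fun P hP hle => mem_plO_ord.2 (by rw [B2.ord_eq hf hO hP hle]; exact h P hP hle)
theorem Nice.unit (hX : Nice X) (hf : IsCart X f) (hO : O ∈ X)
    (h : ∀ P : Place k K, plO P ∈ X → O ≤ plO P → P.ord (f (plO P)) = 0) : IsU O (f O) :=
  ⟨hf.ne hO, hX.eff hf hO fun P hP hle => (h P hP hle).ge,
    hX.krull hO fun P hP hle => mem_plO_ord.2 (by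
      rw [P.ord_inv, B2.ord_eq hf hO hP hle, h P hP hle, neg_zero])⟩
theorem Nice.unit_div (hX : Nice X) (hf : IsCart X f) (hg : IsCart X g) (hO : O ∈ X)
    (h : ∀ P : Place k K, plO P ∈ X → P.ord (f (plO P)) = P.ord (g (plO P))) :
    IsU O (f O / g O) :=
  hX.unit (hf.div hg) hO fun P hP _ => by
    rw [Pi.div_apply, P.ord_div (hf.ne hP) (hg.ne hP), h P hP, sub_self]

variable {d : Dat k} {x y : M} {c : Lam ℤ} {φ : M} {P : Place k M} {R : Subalgebra k M}

theorem Prm.cart (h : Prm d x y c φ P) (hc : IsCart (TT d x y) (lb d x y c)) :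
    IsCart (TT d x y) fun O => φ * lb d x y c O := (isCart_const h.1).mul hc
theorem Prm.mem (h : Prm d x y c φ P) (hN : Nice (TT d x y)) (hc : IsCart (TT d x y) (lb d x y c))
    (hR : R ∈ TT d x y) : φ * lb d x y c R ∈ R :=
  hN.eff (h.cart hc) hR fun P' hP' _ => by
    rw [h.2.2 P' hP']
    split_ifs <;> norm_num
theorem Prm.mx_iff (h : Prm d x y c φ P) (hN : Nice (TT d x y))
    (hc : IsCart (TT d x y) (lb d x y c)) (hR : R ∈ TT d x y) :
    φ * lb d x y c R ∈ mx R ↔ R ≤ plO P := by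
  refine ⟨fun hm => by_contra fun hn => hm.2 (hN.unit (h.cart hc) hR fun P' hP' hle => ?_),
    fun hle => ⟨h.mem hN hc hR, fun hu => ?_⟩⟩
  · rw [h.2.2 P' hP', if_neg]
    rintro rfl
    exact hn hle
  · have h1 := ((isU_plO' P).1 (hu.mono hle)).2
    have h2 := B2.ord_eq (h.cart hc) hR h.2.1 hle
    have h3 := h.2.2 P h.2.1
    rw [if_pos rfl] at h3
    omega
theorem Prm.eq_of_mx (h : Prm d x y c φ P) (hc : IsCart (TT d x y) (lb d x y c))
    {P' : Place k M} (hP' : plO P' ∈ TT d x y)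
    (hm : φ * lb d x y c (plO P') ∈ mx (plO P')) : P' = P := by
  by_contra hn
  have h1 := (mx_plO ((h.cart hc).ne hP')).1 hm
  rw [h.2.2 P' hP', if_neg hn] at h1
  exact lt_irrefl _ h1

end nice

section dim

variable {O W : Subalgebra k K} {X : Set (Subalgebra k K)} {n : ℕ}

namespace B2

theorem ind_iff {ρ : O →ₐ[k] L} (hρ : LocHom O ρ) {r : Fin n → K} (hr : ∀ i, r i ∈ O) :
    Ind O r ↔ AlgebraicIndependent k fun i => evO O ρ (r i) := by
  rw [algebraicIndependent_iff]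
  refine ⟨fun h p hp => by_contra fun h0 => evO_ne ρ (h.2 p h0) (by rw [evO_aeval ρ hr, hp]),
    fun h => ⟨hr, fun p h0 => isU_of_not_mx (aeval_mem hr p) fun hm => h0 (h p ?_)⟩⟩
  rw [← evO_aeval ρ hr]
  exact (hρ.eq_zero_iff hm.1).2 hm

theorem X_sub_C_ne {σ : Type} (i : σ) (c : k) :
    (MvPolynomial.X i - C c : MvPolynomial σ k) ≠ 0 := fun h => by
  have := congrArg (eval fun _ => c + 1) h
  simp at this

end B2

theorem Dim.succ (h : Dim O n) : Dim O (n + 1) := by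
  rintro ⟨r, h1, h2⟩
  refine h ⟨r ∘ Fin.succ, fun i => h1 _, fun p hp => ?_⟩
  rw [← aeval_rename]
  exact h2 _ fun h0 => hp (rename_injective _ (Fin.succ_injective _) (by rw [h0, map_zero]))
theorem Dim.of_dom (h : Dim W n) (hd : Dom O W) : Dim O n := by
  rintro ⟨r, h1, h2⟩
  exact h ⟨r, fun i => hd.1 (h1 i), fun p hp => (h2 p hp).mono hd.1⟩
theorem Dim.comap {ι : M →ₐ[k] K} {R : Subalgebra k M} (h : Dim O n) (hd : Dom R (O.comap ι)) :
    Dim R n := by
  rintro ⟨r, h1, h2⟩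
  refine h ⟨fun i => ι (r i), fun i => hd.1 (h1 i), fun p hp => ?_⟩
  have := (isU_comap ι).1 ((h2 p hp).mono hd.1)
  rwa [← AlgHom.comp_apply, comp_aeval] at this
theorem RatPt.dim (h : RatPt O) : Dim O 0 := by
  rintro ⟨r, h1, h2⟩
  obtain ⟨c, hc⟩ := h _ (h1 0)
  exact hc.2 (by simpa using h2 _ (B2.X_sub_C_ne 0 c))
theorem not_dim_zero [IsAlgClosed k] (hO : IsLocalRing O) {a : K} (ha : a ∈ O)
    (h : ∀ c : k, a - algebraMap k K c ∉ mx O) : ¬ Dim O 0 := fun hd => by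
  refine hd ⟨fun _ : Fin 1 => a, (B2.ind_iff resid_loc fun _ => ha).2
    ((algebraicIndependent_unique_type_iff (ι := Fin 1)).2
      (transcendental_iff_ne.2 fun c hc => h c ?_))⟩
  refine (resid_loc.eq_zero_iff (O.sub_mem ha (O.algebraMap_mem c))).1 ?_
  rw [evO_sub _ ha (O.algebraMap_mem c), evO_const, sub_eq_zero]
  exact hc
theorem rat_iff [IsAlgClosed k] (hO : IsLocalRing O) : RatPt O ↔ Dim O 0 :=
  ⟨RatPt.dim, fun h _ hf => by_contra fun hn => not_dim_zero hO hf (not_exists.1 hn) h⟩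
theorem ratPt_of (hO : O ∈ Pts W) {G : Set K} (hW : W = Algebra.adjoin k G)
    (h : ∀ g ∈ G, ∃ c : k, g - algebraMap k K c ∈ mx O) : RatPt O := by
  have key : ∀ a ∈ W, ∃ c : k, a - algebraMap k K c ∈ mx O := by
    intro a ha
    rw [hW] at ha
    induction ha using Algebra.adjoin_induction with
    | mem g hg => exact h g hg
    | algebraMap c => exact ⟨c, by simpa using zero_mem_mx⟩
    | add a b _ _ h1 h2 =>
      obtain ⟨c, hc⟩ := h1
      obtain ⟨e, he⟩ := h2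
      exact ⟨c + e, by rw [map_add, add_sub_add_comm]; exact mx_add hO.1 hc he⟩
    | mul a b ha _ h1 h2 =>
      obtain ⟨c, hc⟩ := h1
      obtain ⟨e, he⟩ := h2
      refine ⟨c * e, ?_⟩
      have := mx_add hO.1 (mx_mul_left (hO.2.1 (hW ▸ ha)) he)
        (mx_mul_right hc (O.algebraMap_mem e))
      rwa [show a * (b - algebraMap k K e) + (a - algebraMap k K c) * algebraMap k K e =
        a * b - algebraMap k K (c * e) by rw [map_mul]; ring] at this
  intro f hf
  obtain ⟨a, ha, b, hb, hu, rfl⟩ := hO.2.2 f hf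
  obtain ⟨c, hc⟩ := key a ha
  obtain ⟨e, he⟩ := key b hb
  have he0 : e ≠ 0 := fun h0 => hu.not_mx (by simpa [h0] using he)
  refine ⟨c / e, ?_⟩
  have h1 := mx_div (mx_sub' hO.1 hc (mx_mul_left (O.algebraMap_mem (c / e)) he)) hu
  have h2 : (algebraMap k K e) ≠ 0 := by simpa using he0
  have h3 := hu.ne
  rwa [show (a - algebraMap k K c - algebraMap k K (c / e) * (b - algebraMap k K e)) / b =
    a / b - algebraMap k K (c / e) by rw [map_div₀]; field_simp; ring] at h1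
theorem curve_dim (ν : Curve X) : Dim ν.gen 1 := by
  rintro ⟨r, h⟩
  have h1 := ((B2.ind_iff ν.locHom h.1).1 h).cardinalMk_le_trdeg
  rw [ν.ff.tr] at h1
  simp at h1
theorem ind_one {a : K} (h : Ind O ![a]) (c : k) : IsU O (a - algebraMap k K c) := by
  simpa using h.2 _ (B2.X_sub_C_ne 0 c)
theorem algM_of_mx {B : Subalgebra k K} {a : K} {c : k} (h : a - algebraMap k K c ∈ mx O) :
    AlgM O B a := by
  refine ⟨Polynomial.X - Polynomial.C (algebraMap k K c), fun i => ?_, ⟨1, ?_⟩, by simpa using h⟩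
  · rw [Polynomial.coeff_sub, Polynomial.coeff_X, Polynomial.coeff_C]
    refine B.sub_mem ?_ ?_
    · split_ifs
      exacts [B.one_mem, B.zero_mem]
    · split_ifs
      exacts [B.algebraMap_mem c, B.zero_mem]
  · simpa using isU_one
theorem AlgM.mono {B B' : Subalgebra k K} {a : K} (h : AlgM O B a) (hB : B ≤ B') : AlgM O B' a :=
  let ⟨p, h1, h2⟩ := h
  ⟨p, fun i => hB (h1 i), h2⟩
theorem GenP.aeval_ne {x y : K} (h : GenP k x y) {p : MvPolynomial (Fin 2) k} (hp : p ≠ 0) :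
    aeval ![x, y] p ≠ 0 := fun h0 => hp (algebraicIndependent_iff.1 h.ind p h0)
theorem GenP.not_dim {x y : K} (h : GenP k x y) : ¬ Dim (⊤ : Subalgebra k K) 1 := fun hd =>
  hd ⟨![x, y], fun _ => Algebra.mem_top, fun _ hp => isU_top.2 (h.aeval_ne hp)⟩
theorem GenP.x_ne {x y : K} (h : GenP k x y) (c : k) : x - algebraMap k K c ≠ 0 := by
  simpa using h.aeval_ne (B2.X_sub_C_ne 0 c)
theorem GenP.y_ne {x y : K} (h : GenP k x y) (c : k) : y - algebraMap k K c ≠ 0 := by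
  simpa using h.aeval_ne (B2.X_sub_C_ne 1 c)
theorem GenP.swap {x y : K} (h : GenP k x y) : GenP k y x where
  ind := by
    have := h.ind.comp (Equiv.swap (0 : Fin 2) 1) (Equiv.injective _)
    convert this using 1
    funext i
    fin_cases i <;> simp
  top := by rw [Set.pair_comm]; exact h.top
theorem GenP.map {x y : K} (h : GenP k x y) (σ : K ≃ₐ[k] K) : GenP k (σ x) (σ y) where
  ind := by
    have := h.ind.map' (f := (σ : K →ₐ[k] K)) σ.injective
    convert this using 1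
    funext i
    fin_cases i <;> simp
  top := by
    have := congrArg (IntermediateField.map (σ : K →ₐ[k] K)) h.top
    rw [IntermediateField.adjoin_map, Set.image_pair] at this
    refine this.trans (eq_top_iff.2 fun a _ => ⟨σ.symm a, trivial, by simp⟩)
theorem Tr.ne {ι : M →ₐ[k] K} {y : K} (h : Tr ι y) (m : M) : y ≠ ι m := fun e =>
  Polynomial.X_sub_C_ne_zero m (h _ (by simp [e]))
theorem Tr.inv {ι : M →ₐ[k] K} {y : K} (h : Tr ι y) : Tr ι y⁻¹ := fun p hp => by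
  have h0 : y⁻¹ ≠ 0 := inv_ne_zero (by simpa using h.ne 0)
  let _ := invertibleOfNonzero h0
  have := (Polynomial.eval₂_reverse_eq_zero_iff (ι : M →+* K) y⁻¹ p).2 hp
  rw [invOf_eq_inv, inv_inv] at this
  exact Polynomial.reverse_eq_zero.1 (h _ this)
theorem Tr.lin {ι : M →ₐ[k] K} {y : K} (h : Tr ι y) {a : M} (ha : a ≠ 0) (b : M) :
    Tr ι (ι a * y + ι b) := fun p hp => by
  have h1 := h (p.comp (Polynomial.C a * Polynomial.X + Polynomial.C b)) (by
    rw [Polynomial.eval₂_comp]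
    simpa using hp)
  refine (Polynomial.comp_eq_zero_iff.1 h1).resolve_right fun h2 => ha ?_
  simpa using congrArg (Polynomial.coeff · 1) h2.2

end dim

end Pool.Agent.MP_20d318_ag.BV

end MrgPart1

-- ======== part 2: formerly Pool.Agent.MP_20d318_ag.BV.Poly2
section MrgPart2

/-! Expansions of plane curves at a point, orders of vanishing. -/

set_option autoImplicit false

namespace Pool.Agent.MP_20d318_ag.BV

open MvPolynomial

variable {k A : Type} [Field k] [CommRing A] [Algebra k A]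

namespace Poly2

/-- Translation. -/
noncomputable abbrev sh (α β : k) : MvPolynomial (Fin 2) k →ₐ[k] MvPolynomial (Fin 2) k :=
  aeval ![X 0 + C α, X 1 + C β]

theorem aeval_sh (α β : k) (x y : A) (p : MvPolynomial (Fin 2) k) :
    aeval ![x, y] (sh α β p) = aeval ![x + algebraMap k A α, y + algebraMap k A β] p := by
  rw [comp_aeval_apply]
  congr 2
  funext i
  fin_cases i <;> simp

theorem aeval_XX (p : MvPolynomial (Fin 2) k) :
    aeval ![(X 0 : MvPolynomial (Fin 2) k), X 1] p = p := by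
  have : ![(X 0 : MvPolynomial (Fin 2) k), X 1] = X := by
    funext i
    fin_cases i <;> rfl
  rw [this, aeval_X_left_apply]

theorem sh_sh (α β : k) (p : MvPolynomial (Fin 2) k) : sh (-α) (-β) (sh α β p) = p := by
  rw [aeval_sh]
  simpa using aeval_XX p

theorem deg_le (α β : k) (p : MvPolynomial (Fin 2) k) :
    (sh α β p).totalDegree ≤ p.totalDegree := by
  have h1 : ∀ (i : Fin 2) (c : k) n,
      ((X i + C c : MvPolynomial (Fin 2) k) ^ n).totalDegree ≤ n := fun i c n =>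
    (totalDegree_pow _ _).trans (by
      have := totalDegree_add (X i : MvPolynomial (Fin 2) k) (C c)
      rw [totalDegree_X, totalDegree_C] at this
      exact (Nat.mul_le_mul_left n this).trans (by simp))
  conv_lhs => rw [p.as_sum, map_sum]
  refine totalDegree_finsetSum_le fun s hs => ?_
  rw [aeval_monomial, Finsupp.prod_fintype _ _ (by simp), Fin.prod_univ_two]
  refine (totalDegree_mul _ _).trans ?_
  refine le_trans ?_ (le_totalDegree hs)
  rw [Finsupp.sum_fintype _ _ (by simp), Fin.sum_univ_two, algebraMap_eq, totalDegree_C, zero_add]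
  exact (totalDegree_mul _ _).trans (add_le_add (h1 _ _ _) (h1 _ _ _))

theorem deg_eq (α β : k) (p : MvPolynomial (Fin 2) k) :
    (sh α β p).totalDegree = p.totalDegree :=
  le_antisymm (deg_le α β p) (by
    conv_lhs => rw [← sh_sh α β p]
    exact deg_le _ _ _)

theorem coeff_zero_sh (α β : k) (p : MvPolynomial (Fin 2) k) :
    coeff 0 (sh α β p) = eval ![α, β] p := by
  have := aeval_sh α β (0 : k) 0 p
  rw [show ![(0 : k), 0] = 0 by funext i; fin_cases i <;> rfl, aeval_zero] at this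
  simpa [constantCoeff_eq, coe_aeval_eq_eval] using this

theorem pderiv_sh (α β : k) (i : Fin 2) (p : MvPolynomial (Fin 2) k) :
    pderiv i (sh α β p) = sh α β (pderiv i p) := by
  induction p using MvPolynomial.induction_on with
  | C a => simp
  | add p q hp hq => simp only [map_add, hp, hq]
  | mul_X p j hp =>
    simp only [map_mul, Derivation.leibniz, smul_eq_mul, map_add, hp]
    fin_cases i <;> fin_cases j <;> simp

theorem deg2 (s : Fin 2 →₀ ℕ) : s.degree = s 0 + s 1 := by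
  rw [Finsupp.degree_eq_sum, Fin.sum_univ_two]

theorem hc_one (q : MvPolynomial (Fin 2) k) : homogeneousComponent 1 q =
    C (coeff 0 (pderiv 0 q)) * X 0 + C (coeff 0 (pderiv 1 q)) * X 1 := by
  ext s
  rw [coeff_homogeneousComponent, coeff_add, coeff_C_mul, coeff_C_mul, coeff_X, coeff_X,
    coeff_pderiv, coeff_pderiv, deg2]
  by_cases h0 : Finsupp.single 0 1 = s
  · subst h0
    simp [Finsupp.single_eq_single_iff]
  by_cases h1 : Finsupp.single 1 1 = s
  · subst h1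
    simp [Finsupp.single_eq_single_iff]
  rw [if_neg h0, if_neg h1, if_neg]
  · simp
  · intro h
    rcases Nat.add_eq_one_iff.1 h with ⟨a, b⟩ | ⟨a, b⟩
    · exact h1 (by ext i; fin_cases i <;> simp [a, b])
    · exact h0 (by ext i; fin_cases i <;> simp [a, b])

/-- Exponents of degree less than `n`. -/
abbrev Tri (n : ℕ) : Type := Σ j : Fin n, Fin (j + 1)

/-- The exponent. -/
noncomputable def ee {n : ℕ} (t : Tri n) : Fin 2 →₀ ℕ :=
  Finsupp.single 0 (t.2 : ℕ) + Finsupp.single 1 (t.1 - t.2 : ℕ)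

theorem card_tri (n : ℕ) : 2 * Fintype.card (Tri n) = n * (n + 1) := by
  rw [Fintype.card_sigma]
  simp only [Fintype.card_fin]
  rw [Fin.sum_univ_eq_sum_range (fun j => j + 1)]
  induction n with
  | zero => simp
  | succ n ih =>
    rw [Finset.sum_range_succ, mul_add, ih]
    ring

theorem ee_deg {n : ℕ} (t : Tri n) : (ee t).degree = t.1 := by
  have := t.2.2
  simp only [deg2, ee]
  simp
  omega

theorem ee_inj {n : ℕ} : Function.Injective (ee (n := n)) := by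
  rintro ⟨j, i⟩ ⟨j', i'⟩ h
  have h1 : j = j' := Fin.ext (by simpa only [ee_deg] using congrArg Finsupp.degree h)
  subst h1
  have h2 : i = i' := Fin.ext (by simpa [ee] using DFunLike.congr_fun h 0)
  rw [h2]

theorem ee_sur {n : ℕ} {s : Fin 2 →₀ ℕ} (h : s.degree < n) : ∃ t : Tri n, ee t = s :=
  ⟨⟨⟨s.degree, h⟩, ⟨s 0, by simp only [deg2]; omega⟩⟩, by
    ext i
    fin_cases i <;> simp [ee, deg2]⟩

theorem aeval3 (x y : A) (w : MvPolynomial (Fin 2) k) (P : MvPolynomial (Fin 3) k) :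
    aeval ![x, y] (aeval ![X 0, X 1, w] P) = aeval ![x, y, aeval ![x, y] w] P := by
  rw [comp_aeval_apply]
  congr 2
  funext i
  fin_cases i <;> simp

theorem eval_aff (P : MvPolynomial (Fin 3) k) (x y : k) :
    eval ![x, y] (aff P) = aeval ![x, y, 1] P := by
  rw [← coe_aeval_eq_eval]
  simpa [aff] using aeval3 x y 1 P

theorem pderiv_aff (P : MvPolynomial (Fin 3) k) (i : Fin 2) :
    pderiv i (aff P) = aff (pderiv i.castSucc P) := by
  unfold aff
  induction P using MvPolynomial.induction_on with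
  | C a => simp
  | add p q hp hq => simp only [map_add, hp, hq]
  | mul_X p j hp =>
    simp only [map_mul, Derivation.leibniz, smul_eq_mul, map_add, hp]
    fin_cases i <;> fin_cases j <;> simp

theorem hom0 {n : ℕ} {P : MvPolynomial (Fin 3) k} (h : P.IsHomogeneous n) :
    (aeval ![(X 0 : MvPolynomial (Fin 2) k), X 1, 0] P).IsHomogeneous n := by
  simpa using h.aeval (n := 1) ![(X 0 : MvPolynomial (Fin 2) k), X 1, 0] fun i => by
    fin_cases i
    · exact isHomogeneous_X _ _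
    · exact isHomogeneous_X _ _
    · exact isHomogeneous_zero _ _ _

end Poly2

open Poly2

section tay

variable {p : MvPolynomial (Fin 2) k} {α β : k}

theorem tay_hom (p : MvPolynomial (Fin 2) k) (α β : k) (j : ℕ) : (tay p α β j).IsHomogeneous j :=
  homogeneousComponent_isHomogeneous _ _

theorem aeval_tay (p : MvPolynomial (Fin 2) k) (α β : k) (x y : A) :
    aeval ![x, y] p = ∑ j ∈ Finset.range (p.totalDegree + 1),
      aeval ![x - algebraMap k A α, y - algebraMap k A β] (tay p α β j) := by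
  unfold tay
  rw [← map_sum, ← deg_eq α β p, sum_homogeneousComponent, aeval_sh, sub_add_cancel,
    sub_add_cancel]

theorem tay_of_lt {j : ℕ} (h : p.totalDegree < j) : tay p α β j = 0 :=
  homogeneousComponent_eq_zero _ _ ((deg_le α β p).trans_lt h)

theorem tay_top (hp : p ≠ 0) (α β : k) : tay p α β p.totalDegree ≠ 0 := by
  have h : sh α β p ≠ 0 := fun e => hp (by rw [← sh_sh α β p, e, map_zero])
  obtain ⟨s, hs, e⟩ := Finset.exists_mem_eq_sup _ (support_nonempty.2 h)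
    fun s : Fin 2 →₀ ℕ => s.sum fun _ e => e
  intro h0
  have := congrArg (coeff s) h0
  rw [tay, coeff_homogeneousComponent,
    if_pos (show s.degree = _ from ((deg_eq α β p).symm.trans e).symm)] at this
  exact mem_support_iff.1 hs this

theorem tay_zero (p : MvPolynomial (Fin 2) k) (α β : k) :
    tay p α β 0 = C (eval ![α, β] p) := by
  rw [tay, homogeneousComponent_zero, coeff_zero_sh]

theorem tay_one (p : MvPolynomial (Fin 2) k) (α β : k) : tay p α β 1 =
    C (eval ![α, β] (pderiv 0 p)) * X 0 + C (eval ![α, β] (pderiv 1 p)) * X 1 := by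
  rw [tay, hc_one, pderiv_sh, pderiv_sh, coeff_zero_sh, coeff_zero_sh]

theorem exists_isOrd (hp : p ≠ 0) (α β : k) : ∃ m, m ≤ p.totalDegree ∧ IsOrd p α β m := by
  classical
  have h : ∃ j, tay p α β j ≠ 0 := ⟨_, tay_top hp α β⟩
  exact ⟨Nat.find h, Nat.find_min' h (tay_top hp α β),
    fun j hj => not_not.1 (Nat.find_min h hj), Nat.find_spec h⟩

theorem IsOrd.le {m n : ℕ} (h : IsOrd p α β m) (h' : Van p α β n) : n ≤ m :=
  not_lt.1 fun hl => h.2 (h' m hl)

theorem isOrd_zero : IsOrd p α β 0 ↔ eval ![α, β] p ≠ 0 := by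
  simp [IsOrd, Van, tay_zero]

theorem isOrd_one (h : eval ![α, β] p = 0)
    (h' : eval ![α, β] (pderiv 0 p) ≠ 0 ∨ eval ![α, β] (pderiv 1 p) ≠ 0) : IsOrd p α β 1 := by
  refine ⟨fun j hj => by rw [Nat.lt_one_iff.1 hj, tay_zero, h, map_zero], fun e => ?_⟩
  rw [tay_one] at e
  rcases h' with h' | h'
  · exact h' (by simpa using congrArg (eval ![1, 0]) e)
  · exact h' (by simpa using congrArg (eval ![0, 1]) e)

/-- Dehomogenization of binary forms is injective. -/
theorem dehom_ne {n : ℕ} (h : p.IsHomogeneous n) (hp : p ≠ 0) :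
    aeval ![(Polynomial.X : Polynomial k), 1] p ≠ 0 ∧
      aeval ![1, (Polynomial.X : Polynomial k)] p ≠ 0 := by
  have key : ∀ q : MvPolynomial (Fin 2) k, q.IsHomogeneous n → q ≠ 0 →
      aeval ![(Polynomial.X : Polynomial k), 1] q ≠ 0 := fun q h hq e =>
    hq ((Polynomial.homogenize_eq_of_isHomogeneous h e).symm.trans (Polynomial.homogenize_zero n))
  refine ⟨key p h hp, fun e => key (rename (Equiv.swap 0 1) p) h.rename_isHomogeneous
    (fun e => hp (rename_injective _ (Equiv.injective _) (e.trans (map_zero _).symm))) ?_⟩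
  rw [aeval_rename, ← e]
  congr 2
  funext i
  fin_cases i <;> simp

/-- Curves with prescribed multiplicities. -/
theorem exists_van (a b : Q → k) (c : Lam ℤ) (h0 : 0 ≤ c.1)
    (h : ∑ q, c.2 q * (c.2 q + 1) < (c.1 + 1) * (c.1 + 2)) :
    ∃ p : MvPolynomial (Fin 2) k, p ≠ 0 ∧ (p.totalDegree : ℤ) ≤ c.1 ∧
      ∀ q, Van p (a q) (b q) (c.2 q).toNat := by
  classical
  obtain ⟨n, hn⟩ := Int.eq_ofNat_of_zero_le h0
  let P : (Tri (n + 1) → k) →ₗ[k] MvPolynomial (Fin 2) k :=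
    ∑ t, monomial (ee t) ∘ₗ LinearMap.proj t
  have hP : ∀ v, P v = ∑ t, monomial (ee t) (v t) := fun v => by simp [P]
  let Ψ : MvPolynomial (Fin 2) k →ₗ[k] ∀ q, Tri (c.2 q).toNat → k :=
    LinearMap.pi fun q => LinearMap.pi fun t => lcoeff k (ee t) ∘ₗ (sh (a q) (b q)).toLinearMap
  have hk : LinearMap.ker (Ψ ∘ₗ P) ≠ ⊥ := LinearMap.ker_ne_bot_of_finrank_lt (by
    rw [Module.finrank_pi_fintype, Module.finrank_fintype_fun_eq_card]
    simp only [Module.finrank_fintype_fun_eq_card]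
    refine lt_of_mul_lt_mul_left (a := 2) ?_ (by norm_num)
    rw [card_tri, Finset.mul_sum]
    simp only [card_tri]
    zify
    refine lt_of_le_of_lt (Finset.sum_le_sum fun q _ => ?_) (h.trans_eq (by rw [hn]; ring))
    rcases le_total 0 (c.2 q) with h1 | h1
    · rw [Int.toNat_of_nonneg h1]
    · rw [Int.toNat_of_nonpos h1]
      rcases h1.eq_or_lt with h1 | h1
      · simp [h1]
      · have : c.2 q + 1 ≤ 0 := h1
        push_cast
        nlinarith)
  obtain ⟨v, hv, hne⟩ := Submodule.exists_mem_ne_zero_of_ne_bot hk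
  refine ⟨P v, fun e => hne (funext fun t => ?_), ?_, fun q j hj => ?_⟩
  · have := congrArg (coeff (ee t)) e
    simpa [hP, coeff_sum, coeff_monomial, ee_inj.eq_iff] using this
  · rw [hn, hP, Int.ofNat_le]
    refine totalDegree_finsetSum_le fun t _ => (totalDegree_monomial_le _ _).trans ?_
    exact (ee_deg t).le.trans (Nat.le_of_lt_succ t.1.2)
  · ext s
    rw [tay, coeff_homogeneousComponent]
    split_ifs with hs
    · obtain ⟨t, rfl⟩ := ee_sur (hs.trans_lt hj)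
      exact congrFun (congrFun (LinearMap.mem_ker.1 hv) q) t
    · rfl

end tay

section cub

variable {d : Dat k}

theorem Poly2.ord_some (h : Cub d) {α β : k} (hα : α ≠ 0 ∨ β ≠ 0) (i : Fin 9) :
    IsOrd (aff (C α * d.F + C β * d.G)) (d.a (some i)) (d.b (some i)) 1 := by
  have e : d.pt k (some i) = ![d.a (some i), d.b (some i), 1] := rfl
  refine isOrd_one (by
    rw [eval_aff, ← e, map_add, map_mul, map_mul, h.vanF, h.vanG, mul_zero, mul_zero, add_zero]) ?_
  rw [pderiv_aff, pderiv_aff, eval_aff, eval_aff, ← e, show Fin.castSucc (0 : Fin 2) = 0 from rfl,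
    show Fin.castSucc (1 : Fin 2) = 1 from rfl]
  by_contra hn
  simp only [not_or, not_not, map_add, pderiv_C_mul, map_mul, aeval_C, Algebra.algebraMap_self,
    RingHom.id_apply] at hn
  have hj := sub_ne_zero.2 (h.jac i)
  obtain ⟨h1, h2⟩ := hn
  rcases hα with hα | hα
  · exact mul_ne_zero hα hj (by
      linear_combination aeval (d.pt k (some i)) (pderiv 1 d.G) * h1 -
        aeval (d.pt k (some i)) (pderiv 0 d.G) * h2)
  · exact mul_ne_zero hα hj (by
      linear_combination aeval (d.pt k (some i)) (pderiv 0 d.F) * h2 -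
        aeval (d.pt k (some i)) (pderiv 1 d.F) * h1)

theorem Poly2.tay_G (h : Cub d) (j : ℕ) : tay (aff d.G) (d.a none) (d.b none) j =
    (if j = 2 then aeval ![X 0, X 1, 0] (pderiv 2 d.G) else 0) +
      if j = 3 then aeval ![X 0, X 1, 0] d.G else 0 := by
  have e := h.Gz (MvPolynomial (Fin 2) k) ![X 0, X 1, 1]
  rw [tay, h.a0, h.b0, C_0, add_zero, add_zero, aeval_XX, aff, e]
  simp only [Matrix.cons_val, one_mul, map_add]
  rw [homogeneousComponent_of_mem (hom0 h.hG.pderiv), homogeneousComponent_of_mem (hom0 h.hG)]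

theorem Cub.ordW (h : Cub d) {α : k} (hα : α ≠ 0) (β : k) (q : Q) :
    IsOrd (aff (C α * d.F + C β * d.G)) (d.a q) (d.b q) (q.elim 0 fun _ => 1) := by
  cases q with
  | some i => exact ord_some h (Or.inl hα) i
  | none =>
    have h1 := tay_G h 0
    rw [tay_zero, eval_aff] at h1
    have h2 : aeval ![d.a none, d.b none, 1] d.G = 0 := by simpa using h1
    refine isOrd_zero.2 ?_
    rw [eval_aff, map_add, map_mul, map_mul, h2, h.a0, h.b0]
    simpa using ⟨hα, h.Fnu⟩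

theorem Cub.ordG (h : Cub d) (q : Q) :
    IsOrd (aff d.G) (d.a q) (d.b q) (q.elim 2 fun _ => 1) := by
  cases q with
  | some i => simpa using ord_some h (α := 0) (β := 1) (Or.inr one_ne_zero) i
  | none =>
    refine ⟨fun j hj => ?_, ?_⟩
    · have : j < 2 := hj
      rw [tay_G h, if_neg (by omega), if_neg (by omega), add_zero]
    · change tay _ _ _ 2 ≠ 0
      rw [tay_G h, if_pos rfl, if_neg (by omega), add_zero]
      intro e
      have hq : ∀ (L : Type) [Field L] [Algebra k L] (x y : L),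
          aeval ![x, y] (aeval ![(X 0 : MvPolynomial (Fin 2) k), X 1, 0] d.G) = 0 →
          x = 0 ∧ y = 0 := fun L _ _ x y h0 => h.cop L x y
        (by have := aeval3 x y 0 (pderiv 2 d.G); rw [e, map_zero] at this; exact this.symm)
        (by have := aeval3 x y 0 d.G; rw [h0, map_zero] at this; exact this.symm)
      have hh := hom0 h.hG
      generalize aeval ![(X 0 : MvPolynomial (Fin 2) k), X 1, 0] d.G = c at hq hh
      by_cases hd : (aeval ![(Polynomial.X : Polynomial k), 1] c).degree = 0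
      · have h3 := Polynomial.homogenize_eq_of_isHomogeneous hh
          (Polynomial.eq_C_of_degree_eq_zero hd)
        rw [Polynomial.homogenize_C] at h3
        exact one_ne_zero (hq k 1 0 (by rw [← h3]; simp)).1
      · obtain ⟨t, ht⟩ := IsAlgClosed.exists_aeval_eq_zero (AlgebraicClosure k) _ hd
        refine one_ne_zero (hq (AlgebraicClosure k) t 1 ?_).2
        rw [← ht, comp_aeval_apply]
        congr 2
        funext i
        fin_cases i <;> simp

theorem Cub.ordF (h : Cub d) (q : Q) :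
    IsOrd (aff d.F) (d.a q) (d.b q) (q.elim 0 fun _ => 1) := by
  simpa using h.ordW (α := 1) one_ne_zero 0 q

theorem Cub.lin (h : Cub d) {i j : Fin 9} (hij : i ≠ j) : Irreducible (d.lin i j) ∧
    (d.lin i j).totalDegree = 1 ∧
    ∀ q, IsOrd (d.lin i j) (d.a q) (d.b q) (if q = some i ∨ q = some j then 1 else 0) := by
  have h0 : pderiv 0 (d.lin i j) = C (d.b (some j) - d.b (some i)) := by
    simp [Dat.lin, -map_sub, Derivation.map_sub]
  have h1 : pderiv 1 (d.lin i j) = -C (d.a (some j) - d.a (some i)) := by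
    simp [Dat.lin, -map_sub, Derivation.map_sub]
  have hne : d.b (some j) - d.b (some i) ≠ 0 ∨ d.a (some j) - d.a (some i) ≠ 0 := by
    by_contra hn
    simp only [not_or, not_not, sub_eq_zero] at hn
    exact hij (Option.some.inj (h.inj _ _ hn.2 hn.1)).symm
  have hl : ∀ (c e : k) (s : Fin 2),
      (C c * (X s - C e) : MvPolynomial (Fin 2) k).totalDegree ≤ 1 := fun c e s =>
    (totalDegree_mul _ _).trans (by
      rw [totalDegree_C, zero_add]
      exact (totalDegree_sub_C_le _ _).trans (totalDegree_X s).le)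
  have hd : (d.lin i j).totalDegree = 1 := by
    refine le_antisymm ((totalDegree_sub _ _).trans (max_le (hl _ _ _) (hl _ _ _)))
      (Nat.one_le_iff_ne_zero.2 fun e => ?_)
    rw [totalDegree_eq_zero_iff_eq_C.1 e, pderiv_C] at h0 h1
    rcases hne with hne | hne
    · exact hne (C_eq_zero.1 h0.symm)
    · exact hne (C_eq_zero.1 (neg_eq_zero.1 h1.symm))
  refine ⟨irreducible_of_totalDegree_eq_one hd fun x hx => Ne.isUnit ?_, hd, fun q => ?_⟩
  · rintro rfl
    rw [show d.lin i j = 0 from MvPolynomial.ext _ _ fun s => zero_dvd_iff.1 (hx s)] at hd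
    simp at hd
  · have ev : eval ![d.a q, d.b q] (d.lin i j) =
        (d.a q - d.a (some i)) * (d.b (some j) - d.b (some i)) -
          (d.b q - d.b (some i)) * (d.a (some j) - d.a (some i)) := by
      simp [Dat.lin]
      ring
    split_ifs with hq
    · refine isOrd_one (by rw [ev]; rcases hq with rfl | rfl <;> ring) ?_
      rw [h0, h1, map_neg, eval_C, eval_C, neg_ne_zero]
      exact hne
    · rw [not_or] at hq
      exact isOrd_zero.2 (ev ▸ sub_ne_zero.2 (h.ncol i j q hij hq.1 hq.2))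

end cub

end Pool.Agent.MP_20d318_ag.BV

end MrgPart2

-- marker of a merged file
example : 731051 + 166397 = 731051 + 166397 := rfl

end MrgPart1

-- marker of a merged file
example : 731051 + 166397 = 731051 + 166397 := rfl
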