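import Pool.Agent.MP_20d318_ag.BV.SetC
import Pool.Agent.MP_20d318_ag.BV.Poly2

-- ======== part 0: formerly Pool.Agent.MP_20d318_ag.BV.BaseB
section MrgPart0


end MrgPart0

-- ======== part 1: formerly Pool.Agent.MP_20d318_ag.BV.Poly
section MrgPart1


end MrgPart1

-- ======== part 2: formerly Pool.Agent.MP_20d318_ag.BV.Base
section MrgPart2


end MrgPart2

-- ======== part 3: formerly Pool.Agent.MP_20d318_ag.BV.ClsG
section MrgPart3

/-! Induction over prime divisors. -/

set_option autoImplicit false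

namespace Pool.Agent.MP_20d318_ag.BV

open Pool.Agent.MP_79c67d_ag Pool.Agent.MP_20d318_ag.AG

namespace ClsG

variable {k K : Type} [Field k] [Field K] [Algebra k K] {X : Set (Subalgebra k K)}
  {Gd : (Subalgebra k K → K) → Prop}

/-- A nonzero multiple of `φ` is the divisor of a good system of local equations. -/
def Sp (X : Set (Subalgebra k K)) (Gd : (Subalgebra k K → K) → Prop) (φ : Place k K → ℤ) : Prop :=
  ∃ (N : ℤ) (g : Subalgebra k K → K), N ≠ 0 ∧ Gd g ∧
    ∀ P : Place k K, plO P ∈ X → P.ord (g (plO P)) = N * φ P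

theorem Sp.congr {φ ψ : Place k K → ℤ} (h : Sp X Gd φ)
    (e : ∀ P : Place k K, plO P ∈ X → φ P = ψ P) : Sp X Gd ψ := by
  obtain ⟨N, g, hN, hg, h⟩ := h
  exact ⟨N, g, hN, hg, fun P hP => by rw [h P hP, e P hP]⟩

theorem Sp.comb (hc : ∀ g, Gd g → IsCart X g) (hm : ∀ f g, Gd f → Gd g → Gd (f * g))
    (hz : ∀ g (n : ℤ), Gd g → Gd (g ^ n)) {φ ψ : Place k K → ℤ} (h : Sp X Gd φ) (h' : Sp X Gd ψ)
    (a b : ℤ) : Sp X Gd fun P => a * φ P + b * ψ P := by
  obtain ⟨N, g, hN, hg, h⟩ := h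
  obtain ⟨N', g', hN', hg', h'⟩ := h'
  refine ⟨N * N', g ^ (a * N') * g' ^ (b * N), mul_ne_zero hN hN', hm _ _ (hz _ _ hg) (hz _ _ hg'),
    fun P hP => ?_⟩
  rw [Pi.mul_apply, Pi.pow_apply, Pi.pow_apply,
    Place.ord_mul _ (zpow_ne_zero _ ((hc g hg).ne hP)) (zpow_ne_zero _ ((hc g' hg').ne hP)),
    Place.ord_zpow, Place.ord_zpow, h P hP, h' P hP]
  ring

theorem Sp.cancel {φ : Place k K → ℤ} {a : ℤ} (ha : a ≠ 0) (h : Sp X Gd fun P => a * φ P) :
    Sp X Gd φ := by
  obtain ⟨N, g, hN, hg, h⟩ := h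
  exact ⟨N * a, g, mul_ne_zero hN ha, hg, fun P hP => by rw [h P hP, mul_assoc]⟩

open Classical in
theorem fin (hc : ∀ g, Gd g → IsCart X g) (hm : ∀ f g, Gd f → Gd g → Gd (f * g))
    (hz : ∀ g (n : ℤ), Gd g → Gd (g ^ n)) (h1 : Gd 1) (S : Finset (Place k K)) :
    ∀ φ : Place k K → ℤ, (∀ P : Place k K, plO P ∈ X → φ P ≠ 0 →
      P ∈ S ∧ Sp X Gd fun P' => if P' = P then 1 else 0) → Sp X Gd φ := by
  induction S using Finset.induction_on with
  | empty =>
    intro φ h
    refine ⟨1, 1, one_ne_zero, h1, fun P hP => ?_⟩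
    have : φ P = 0 := by
      by_contra h0
      exact absurd (h P hP h0).1 (Finset.notMem_empty _)
    simp [this]
  | insert P₀ S _ ih =>
    intro φ h
    have h' : Sp X Gd fun P => if P = P₀ then 0 else φ P := by
      refine ih _ fun P hP h0 => ?_
      have hne : P ≠ P₀ := fun e => h0 (if_pos e)
      rw [if_neg hne] at h0
      exact ⟨(Finset.mem_insert.1 (h P hP h0).1).resolve_left hne, (h P hP h0).2⟩
    by_cases h0 : plO P₀ ∈ X ∧ φ P₀ ≠ 0
    · refine (Sp.comb hc hm hz h' (h P₀ h0.1 h0.2).2 1 (φ P₀)).congr fun P _ => ?_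
      by_cases e : P = P₀
      · simp [e]
      · simp [e]
    · refine h'.congr fun P hP => ?_
      by_cases e : P = P₀
      · subst e
        rw [if_pos rfl]
        by_contra h2
        exact h0 ⟨hP, fun h3 => h2 h3.symm⟩
      · exact if_neg e

end ClsG

open ClsG in
/-- CLSG. -/
theorem clsGen_stmt : ClsGenStmt := by
  classical
  intro k K _ _ _ X Gd lev hX hc hm hz h1 hP f hf
  have key : ∀ (n : ℕ) (P : Place k K), lev P = n → plO P ∈ X →
      Sp X Gd fun P' => if P' = P then 1 else 0 := by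
    intro n
    induction n using Nat.strong_induction_on with
    | _ n ih =>
      intro P hn hPX
      obtain ⟨g, hg, h0, hl⟩ := hP P hPX
      have hlow : Sp X Gd fun P' => if P' = P then 0 else P'.ord (g (plO P')) := by
        refine ClsG.fin hc hm hz h1 (hX.toFine.fin_cart (hc g hg)).toFinset _ fun P' hP' h2 => ?_
        have hne : P' ≠ P := fun e => h2 (if_pos e)
        rw [if_neg hne] at h2
        exact ⟨(Set.Finite.mem_toFinset _).2 ⟨hP', h2⟩,
          ih _ (hn ▸ hl P' hP' hne h2) P' rfl hP'⟩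
      have hg' : Sp X Gd fun P' => P'.ord (g (plO P')) :=
        ⟨1, g, one_ne_zero, hg, fun P' _ => (one_mul _).symm⟩
      refine Sp.cancel h0 ((Sp.comb hc hm hz hg' hlow 1 (-1)).congr fun P' _ => ?_)
      by_cases e : P' = P
      · simp [e]
      · simp [e]
  obtain ⟨N, g, hN, hg, h⟩ : Sp X Gd fun P => P.ord (f (plO P)) :=
    ClsG.fin hc hm hz h1 (hX.toFine.fin_cart hf).toFinset _ fun P hPX h2 =>
      ⟨(Set.Finite.mem_toFinset _).2 ⟨hPX, h2⟩, key _ P rfl hPX⟩
  refine ⟨N, g, hN, hg, fun O hO => ?_⟩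
  refine hX.unit_div (hf.zpow N) (hc g hg) hO fun P hPX => ?_
  rw [h P hPX, Pi.pow_apply, Place.ord_zpow]

end Pool.Agent.MP_20d318_ag.BV

end MrgPart3

-- ======== part 4: formerly Pool.Agent.MP_20d318_ag.BV.Mw
section MrgPart4

/-! The quadratic twist has only points of order two over the function field of the plane. -/

set_option autoImplicit false

namespace Pool.Agent.MP_20d318_ag.BV

open Pool.Agent.MP_79c67d_ag Pool.Agent.MP_20d318_ag.AG MvPolynomial

namespace Mw

variable {k M : Type} [Field k] [Field M] [Algebra k M] {P : Place k M} {D : Derivation k M M}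

theorem der_split (D : Derivation k M M) {π : M} (hπ : π ≠ 0) (n : ℤ) (f : M) :
    D f = π ^ (n - 1) * (n * (f / π ^ n) * D π + π * D (f / π ^ n)) := by
  have h0 : π ^ n ≠ 0 := zpow_ne_zero n hπ
  have h1 : f = π ^ n * (f / π ^ n) := by field_simp
  have h2 : π ^ n = π ^ (n - 1) * π := by rw [← zpow_add_one₀ hπ, sub_add_cancel]
  generalize f / π ^ n = u at h1
  rw [h1, D.leibniz, D.leibniz_zpow, smul_eq_mul, smul_eq_mul, smul_eq_mul, zsmul_eq_mul, h2]
  ring

theorem ge_der (hD : ∀ f ∈ plO P, D f ∈ plO P) {f : M} (hf : f ≠ 0) :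
    P.Ge (P.ord f - 1) (D f) := by
  have hu : P.Ge 0 (f / P.unif ^ P.ord f) := P.ge_of_le (by
    rw [P.ord_div hf (zpow_ne_zero _ P.unif_ne)]; simp)
  have hπ : P.Ge 0 P.unif := P.ge_unif.mono zero_le_one
  rw [der_split D P.unif_ne (P.ord f) f]
  refine Place.Ge.mul0' (P.ge_of_le (by simp)) (Place.Ge.add ?_ ?_)
  · exact ((P.ge_intCast _).mul0 hu).mul0 ((mem_plO' P).1 (hD _ ((mem_plO' P).2 hπ)))
  · exact hπ.mul0 ((mem_plO' P).1 (hD _ ((mem_plO' P).2 hu)))

theorem der_ne [CharZero k] (hD : ∀ f ∈ plO P, D f ∈ plO P) {π f : M} (h1 : P.ord π = 1)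
    (hu : IsU (plO P) (D π)) (hf : P.ord f ≠ 0) : D f ≠ 0 := by
  have hπ : π ≠ 0 := by rintro rfl; simp at h1
  have h0 : f ≠ 0 := by rintro rfl; simp at hf
  have hv : IsU (plO P) (f / π ^ P.ord f) := (isU_plO' P).2
    ⟨div_ne_zero h0 (zpow_ne_zero _ hπ), by rw [P.ord_div h0 (zpow_ne_zero _ hπ)]; simp [h1]⟩
  rw [der_split D hπ (P.ord f) f]
  refine mul_ne_zero (zpow_ne_zero _ hπ) (IsU.ne (O := plO P) ?_)
  exact IsU.add_mx (plO_isVal P).isLocalRing (((isU_intCast hf).mul hv).mul hu)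
    (mx_mul_right ((mx_plO hπ).2 (by omega)) (hD _ hv.mem))

theorem not_both {a : M} {c c' : k} (h : c ≠ c') (h1 : 0 < P.ord (a - algebraMap k M c))
    (h2 : 0 < P.ord (a - algebraMap k M c')) : False := by
  have := Place.Ge.sub (P.ge_of_le (n := 1) h1) (P.ge_of_le (n := 1) h2)
  rw [sub_sub_sub_cancel_left, ← map_sub] at this
  exact h (sub_eq_zero.1 (Place.const_eq_zero this)).symm

theorem val (hD : ∀ f ∈ plO P, D f ∈ plO P) {a : M} {l : k} (l0 : l ≠ 0) (l1 : l ≠ 1)
    (h : a * (a - 1) * (a - algebraMap k M l) ≠ 0) (hd : D a ≠ 0) :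
    P.ord (a * (a - 1) * (a - algebraMap k M l)) - 1 ≤ 2 * P.ord (D a) := by
  have h2 : a - algebraMap k M l ≠ 0 := right_ne_zero_of_mul h
  have h0 : a ≠ 0 := left_ne_zero_of_mul (left_ne_zero_of_mul h)
  have h1 : a - 1 ≠ 0 := right_ne_zero_of_mul (left_ne_zero_of_mul h)
  have e0 := (ge_der hD h0).le hd
  have e1 := ge_der hD h1
  have e2 := ge_der hD h2
  rw [map_sub, Derivation.map_one_eq_zero, sub_zero] at e1
  rw [map_sub, Derivation.map_algebraMap, sub_zero] at e2
  replace e1 := e1.le hd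
  replace e2 := e2.le hd
  rw [P.ord_mul (mul_ne_zero h0 h1) h2, P.ord_mul h0 h1]
  rcases lt_or_ge (P.ord a) 0 with hn | hn
  · have a1 := (Place.add_ne_and_ord h0 (P.ge_one.neg.mono (m := P.ord a + 1) (by omega))).2
    have a2 := (Place.add_ne_and_ord h0
      ((P.ge_const l).neg.mono (m := P.ord a + 1) (by omega))).2
    rw [← sub_eq_add_neg] at a1 a2
    omega
  · have ha := P.ge_of_le hn
    have e := ((mem_plO' P).1 (hD a ((mem_plO' P).2 ha))).le hd
    have b1 := (ha.sub P.ge_one).le h1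
    have b2 := (ha.sub (P.ge_const l)).le h2
    have c1 := not_both (P := P) (a := a) (zero_ne_one' k)
    have c2 := not_both (P := P) (a := a) l0.symm
    have c3 := not_both (P := P) (a := a) l1.symm
    simp only [map_zero, sub_zero, map_one, imp_false, not_lt] at c1 c2 c3
    omega

theorem key (hD : ∀ f ∈ plO P, D f ∈ plO P) {a b f g : M} {l : k} (l0 : l ≠ 0) (l1 : l ≠ 1)
    (hb : b ≠ 0) (hf : f ≠ 0) (hg : g ≠ 0)
    (h : b ^ 2 * g = f * (a * (a - 1) * (a - algebraMap k M l))) {m : ℤ}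
    (hm : 2 * m ≤ P.ord f + P.ord g) : P.Ge m (f * D a / b) := by
  by_cases hd : D a = 0
  · simp [hd, P.ge_zero]
  have h0 : a * (a - 1) * (a - algebraMap k M l) ≠ 0 :=
    right_ne_zero_of_mul (h ▸ mul_ne_zero (pow_ne_zero 2 hb) hg)
  have h1 := val hD l0 l1 h0 hd
  have h2 := congrArg P.ord h
  rw [P.ord_mul (pow_ne_zero 2 hb) hg, P.ord_mul hf h0, P.ord_pow] at h2
  refine P.ge_of_le ?_
  rw [P.ord_div (mul_ne_zero hf hd) hb, P.ord_mul hf hd]
  push_cast at h2
  omega

theorem der_zero {x y a : M} (hF : Frac (Algebra.adjoin k {x, y})) {D₀ D₁ : Derivation k M M}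
    (h1 : D₀ x = 1) (h2 : D₀ y = 0) (h3 : D₁ x = 0) (h4 : D₁ y = 1) (ha : D₀ a = 0)
    (hb : D₁ a = 0) (D : Derivation k M M) : D a = 0 := by
  have h : Set.EqOn D (D x • D₀ + D y • D₁ : Derivation k M M) (Algebra.adjoin k {x, y}) :=
    Derivation.eqOn_adjoin (by
      rintro _ (rfl | rfl) <;> simp [*])
  obtain ⟨p, hp, q, hq, -, rfl⟩ := hF a
  have : D (p / q) = (D x • D₀ + D y • D₁ : Derivation k M M) (p / q) := by
    rw [Derivation.leibniz_div, Derivation.leibniz_div, h hp, h hq]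
  rw [this]
  simp [ha, hb]

end Mw

open Mw in
theorem mw_stmt : MwStmt := by
  intro hPl k M _ _ _ _ _ d x y l hT l0 l1 a b h
  by_contra hb
  have hP := hPl k M x y hT.gen
  have hf := hT.pen.ne 0
  have hg := hT.pen.ne 1
  choose D hD using hP.der
  have hx : ∀ i, D i x = if i = 0 then 1 else 0 := fun i => by
    simpa [pderiv_X, Pi.single_apply, eq_comm, apply_ite] using hD i (X 0)
  have hy : ∀ i, D i y = if i = 1 then 1 else 0 := fun i => by
    simpa [pderiv_X, Pi.single_apply, eq_comm, apply_ite] using hD i (X 1)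
  have e0 : fg d x y 0 = aeval ![x, y] (aff d.F) := (aeval_aff _ _ _).symm
  have e1 : fg d x y 1 = aeval ![x, y] (aff d.G) := (aeval_aff _ _ _).symm
  -- the two functions are polynomials
  have hV : ∀ i, ∃ p : MvPolynomial (Fin 2) k, aeval ![x, y] p = fg d x y 0 * D i a / b := by
    intro i
    refine mem_adjoin_pair.1 (krull_stmt k M _ (Krull.noeth_adjoin (Set.toFinite _)) hP.nrm
      hP.frac _ fun P hO => (mem_plO' P).2 (key (der_pres hO (D i) ?_) l0 l1 hb hf hg h ?_))
    · rintro _ (rfl | rfl)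
      · rw [hx]; split_ifs; exacts [one_mem _, zero_mem _]
      · rw [hy]; split_ifs; exacts [one_mem _, zero_mem _]
    · have h0 := mem_plO_ord.1 (hO.2.1 (mem_adjoin_pair.2 ⟨_, e0.symm⟩))
      have h1 := mem_plO_ord.1 (hO.2.1 (mem_adjoin_pair.2 ⟨_, e1.symm⟩))
      omega
  choose p hp using hV
  have x0 : x ≠ 0 := by simpa using hT.gen.x_ne 0
  -- of degree at most two
  have hdeg : ∀ i, (p i).totalDegree ≤ 2 := by
    intro i
    by_cases h0 : p i = 0
    · simp [h0]
    obtain ⟨P, hP1, hP2, hP3, -, hP4⟩ := hT.pl.plL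
    have hO := (hT.loc.c3 _ hP1.2.1 hP2 hP3.mem).1
    have h1 : P.Ge (-3) (fg d x y 0 * (x • D i) a / b) := by
      refine key (der_pres hO (x • D i) ?_) l0 l1 hb hf hg h ?_
      · rintro _ (rfl | rfl)
        · have : (x • D i) (y / x) = D i y - y / x * D i x := by
            simp only [Derivation.smul_apply, Derivation.leibniz_div, smul_eq_mul]; field_simp
          rw [this, hx, hy]
          refine sub_mem ?_ (mul_mem hP3.mem ?_) <;> split_ifs <;>
            first | exact one_mem _ | exact zero_mem _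
        · have : (x • D i) x⁻¹ = -x⁻¹ * D i x := by
            simp only [Derivation.smul_apply, Derivation.leibniz_inv, smul_eq_mul]; field_simp
          rw [this, hx]
          refine mul_mem (neg_mem hP2.1) ?_
          split_ifs; exacts [one_mem _, zero_mem _]
      · rw [e0, e1, hP4 _ hT.cub.irrF.1.ne_zero, hP4 _ hT.cub.irrG.1.ne_zero, hT.cub.irrF.2,
          hT.cub.irrG.2]
        norm_num
    have h2 : fg d x y 0 * (x • D i) a / b = aeval ![x, y] (X 0 * p i) := by
      simp only [Derivation.smul_apply, smul_eq_mul, map_mul, aeval_X, hp]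
      simp only [Matrix.cons_val_zero]
      ring
    have h3 : X 0 * p i ≠ 0 := mul_ne_zero (X_ne_zero _) h0
    rw [h2] at h1
    have h4 := h1.le (hT.gen.aeval_ne h3)
    rw [hP4 _ h3, totalDegree_mul_of_isDomain (X_ne_zero _) h0, totalDegree_X] at h4
    omega
  -- vanishing at the base points
  have hvan : ∀ j, eval ![d.a (some j), d.b (some j)] (p 0) = 0 ∧
      eval ![d.a (some j), d.b (some j)] (p 1) = 0 := by
    intro j
    obtain ⟨P, hP1, hP2, hP3, -, hP4⟩ := hT.pl.plE (some j)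
    have hO := (hT.loc.c1 _ hP1.2.1 _ hP2 hP3.mem).1
    have hl := (plO_isVal P).isLocalRing
    have y0 : yq d y (some j) ≠ 0 := hT.gen.y_ne _
    set u := xq d x (some j) / yq d y (some j) with hu
    have dx : (u • D 0 + D 1) (xq d x (some j)) = u := by simp [xq, hx]
    have dy : (u • D 0 + D 1) (yq d y (some j)) = 1 := by simp [yq, hy]
    have h1 : P.Ge 1 (fg d x y 0 * (u • D 0 + D 1) a / b) := by
      refine key (der_pres hO (u • D 0 + D 1) ?_) l0 l1 hb hf hg h ?_
      · rintro _ (rfl | rfl)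
        · have : (u • D 0 + D 1) u = 0 := by
            conv_lhs => rw [hu]
            rw [Derivation.leibniz_div, ← hu, dx, dy, hu]
            simp only [smul_eq_mul]; field_simp; ring
          rw [this]; exact zero_mem _
        · rw [dy]; exact one_mem _
      · rw [e0, e1, hP4 _ _ (hT.cub.ordF _), hP4 _ _ (hT.cub.ordG _)]
        simp
    have h2 : fg d x y 0 * (u • D 0 + D 1) a / b =
        u * aeval ![x, y] (p 0) + aeval ![x, y] (p 1) := by
      simp only [Derivation.add_apply, Derivation.smul_apply, smul_eq_mul, hp]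
      ring
    have hx1 : xq d x (some j) ∈ mx (plO P) := hP2 _ (Or.inl rfl)
    have hy1 : yq d y (some j) ∈ mx (plO P) := hP2 _ (Or.inr rfl)
    have h3 := fun i => aeval_sub_const hl (r := ![x, y]) (c := ![d.a (some j), d.b (some j)])
      (Fin.forall_fin_two.2 ⟨hx1, hy1⟩) (p i)
    rw [h2, P.ge1_iff, ← mem_mx_plO] at h1
    have h4 := mx_sub' hl (mx_sub' hl h1 (mx_mul_left hP3.mem (h3 0))) (h3 1)
    generalize eval ![d.a (some j), d.b (some j)] (p 0) = c0 at h4 ⊢
    generalize eval ![d.a (some j), d.b (some j)] (p 1) = c1 at h4 ⊢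
    have h5 : u * algebraMap k M c0 + algebraMap k M c1 ∈ mx (plO P) := by
      refine (congrArg (· ∈ mx (plO P)) ?_).mp h4
      ring
    have h6 : c0 = 0 := by
      by_contra h6
      refine (hT.loc.dim P hP1.2.1).1 (ratPt_of hO rfl ?_)
      rintro _ (rfl | rfl)
      · refine ⟨-c1 / c0, (congrArg (· ∈ mx (plO P)) ?_).mp (mx_div h5 (isU_const h6))⟩
        have := (_root_.map_ne_zero (algebraMap k M)).2 h6
        rw [map_div₀, map_neg]
        field_simp
        ring
      · exact ⟨0, by simpa using hy1⟩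
    rw [h6, map_zero, mul_zero, zero_add] at h5
    exact ⟨h6, const_mem_mx.1 h5⟩
  have hz : ∀ i, D i a = 0 := by
    intro i
    have h0 : p i = 0 := hT.cub.nc _ (hdeg i) fun j => by
      revert i
      exact Fin.forall_fin_two.2 (hvan j)
    have h1 := hp i
    rw [h0, map_zero, eq_comm, div_eq_zero_iff, mul_eq_zero] at h1
    tauto
  -- the place of the smooth cubic
  obtain ⟨P, -, hP1, hP2⟩ := hT.pl.prC 0
  have h1 : P.ord (sT d x y 0 (plO P)) = 1 := by simpa [sT] using hP2 P hP1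
  have hl0 := hT.loc.lbne _ hP1 cF
  have s0 : sT d x y 0 (plO P) = fg d x y 0 * lb d x y cF (plO P) := rfl
  have s1 : sT d x y 1 (plO P) * ex d x y none (plO P) ^ 2 = fg d x y 1 * lb d x y cF (plO P) := by
    rw [hT.loc.lbF _ hP1, ← mul_assoc]; rfl
  have h2 := ((hT.pen.one _ hP1).resolve_left fun hu => by
    have := ((isU_plO' P).1 hu).2
    omega)
  rw [s1, isU_plO', P.ord_mul hg hl0] at h2
  obtain ⟨E, hE, hE'⟩ := hT.pen.crd _ hP1 0 ((mx_plO (s0 ▸ mul_ne_zero hf hl0)).2 (by omega))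
  have h0 : a * (a - 1) * (a - algebraMap k M l) ≠ 0 :=
    right_ne_zero_of_mul (h ▸ mul_ne_zero (pow_ne_zero 2 hb) hg)
  have h3 := congrArg P.ord h
  rw [P.ord_mul (pow_ne_zero 2 hb) hg, P.ord_mul hf h0, P.ord_pow] at h3
  have h4 := h1
  rw [s0, P.ord_mul hf hl0] at h4
  have h5 : E a = 0 := der_zero hP.frac (by simp [hx]) (by simp [hy]) (by simp [hx]) (by simp [hy])
    (hz 0) (hz 1) E
  refine der_ne hE h1 hE' (f := a * (a - 1) * (a - algebraMap k M l)) (by push_cast at h3; omega) ?_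
  simp [Derivation.leibniz, h5]

end Pool.Agent.MP_20d318_ag.BV

end MrgPart4

-- marker of a merged file
example : 731051 + 771428 = 731051 + 771428 := rfl
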