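import Mathlib.RingTheory.AdicCompletion.Completeness
import Mathlib.RingTheory.KrullDimension.Polynomial
import Pool.Agent.MP_20d318_ag.AG.Spec
import Pool.Agent.MP_20d318_ag.BV.Poly2
import Pool.Agent.MP_20d318_ag.BV.Mw

-- ======== part 0: formerly Pool.Agent.MP_20d318_ag.AG.BHom
section MrgPart0

/-! Module BHOM: exchange of algebraically independent families, and homomorphisms from the
charts of the blow-up, built with power series. -/

set_option autoImplicit false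

namespace Pool.Agent.MP_20d318_ag.AG

open Polynomial

theorem trd_stmt : TrdStmt := by
  intro k L ι _ _ _ _ a b ha hab
  let M := AlgebraicIndependent.matroid k L
  have h1 : M.Indep (Set.range a) := AlgebraicIndependent.matroid_indep_iff.2 ha.to_subtype_range
  have h2 : Set.range a ⊆ M.closure (Set.range b) := by
    rintro _ ⟨i, rfl⟩
    rw [AlgebraicIndependent.matroid_closure_eq]
    exact hab i
  have h3 := ha.injective.encard_range.trans (h1.encard_le_eRk_of_subset h2)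
  rw [Matroid.eRk_closure_eq] at h3
  have h4 := M.eRk_le_encard (Set.range b)
  have h5 : (Set.range b).encard ≤ ENat.card ι := by
    rw [← Set.image_univ, ← Set.encard_univ]
    exact Set.encard_image_le _ _
  have h6 : M.Indep (Set.range b) :=
    (Matroid.indep_iff_eRk_eq_encard_of_finite (Set.finite_range b)).2
      (le_antisymm h4 (h5.trans h3))
  have h7 : Function.Injective b := by
    rw [← Set.injOn_univ]
    refine Set.finite_univ.injOn_of_encard_image_eq ?_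
    rw [Set.image_univ, Set.encard_univ]
    exact le_antisymm h5 (h3.trans h4)
  exact AlgebraicIndependent.of_subtype_range h7 (AlgebraicIndependent.matroid_indep_iff.1 h6)

namespace BHom

theorem alg_of_pow {k L : Type} [Field k] [Field L] [Algebra k L] {R : Subalgebra k L} {a b z : L}
    (ha : a ∈ R) (hb : b ∈ R) (ha0 : a ≠ 0) {n : ℕ} (hn : n ≠ 0) (h : a * z ^ n = b) :
    IsAlgebraic R z := by
  refine ⟨C (⟨a, ha⟩ : R) * X ^ n - C (⟨b, hb⟩ : R), fun e => ha0 ?_, ?_⟩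
  · have := congrArg (fun P : R[X] => P.coeff n) e
    simp only [coeff_sub, coeff_C_mul, coeff_X_pow, if_true, mul_one, coeff_C, if_neg hn, sub_zero,
      coeff_zero] at this
    exact congrArg Subtype.val this
  · simp only [map_sub, map_mul, aeval_C, map_pow, aeval_X]
    exact sub_eq_zero.2 h

/-- The cubic `S - S ^ 3 = τ ^ 3` has a power series root near each of `0, 1, -1`. -/
theorem exists_root {k P : Type} [Field k] [CharZero k] [CommRing P] [Algebra k P]
    (τ : PowerSeries P) (hτ : PowerSeries.constantCoeff τ = 0) (c : ZMod 3) :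
    ∃ S : PowerSeries P, τ ^ 3 = S - S ^ 3 ∧ PowerSeries.constantCoeff S = (c.valMinAbs : P) := by
  have hc : c.valMinAbs = 0 ∨ c.valMinAbs = 1 ∨ c.valMinAbs = -1 := by revert c; decide
  have h2 : IsUnit (2 : PowerSeries P) := by
    have := (IsUnit.mk0 (2 : k) two_ne_zero).map (algebraMap k (PowerSeries P))
    rwa [map_ofNat] at this
  have hm : (X ^ 3 - X + C (τ ^ 3) : (PowerSeries P)[X]).Monic := by monicity!
  obtain ⟨S, hS, hS'⟩ := HenselianRing.is_henselian (I := Ideal.span {PowerSeries.X})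
    (X ^ 3 - X + C (τ ^ 3) : (PowerSeries P)[X]) hm (c.valMinAbs : PowerSeries P) (by
      rw [Ideal.mem_span_singleton, PowerSeries.X_dvd_iff]
      rcases hc with h | h | h <;> simp [h, hτ] <;> ring) (by
      refine IsUnit.map _ ?_
      rw [derivative_add, derivative_C, add_zero]
      rcases hc with h | h | h
      · simp [h]
      · convert h2 using 1
        norm_num [h]
      · convert h2 using 1
        norm_num [h])
  refine ⟨S, ?_, ?_⟩
  · have := hS.eq_zero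
    simp only [eval_add, eval_sub, eval_pow, eval_X, eval_C] at this
    linear_combination this
  · rw [Ideal.mem_span_singleton, PowerSeries.X_dvd_iff, map_sub, map_intCast] at hS'
    exact sub_eq_zero.1 hS'

theorem transcendental_X (P : Type) [CommRing P] :
    Transcendental P (PowerSeries.X : PowerSeries P) := by
  rw [transcendental_iff_injective]
  have : (aeval (PowerSeries.X : PowerSeries P) : P[X] →ₐ[P] PowerSeries P) =
      Polynomial.coeToPowerSeries.algHom P := by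
    apply Polynomial.algHom_ext
    simp
  rw [this]
  intro a b hab
  simpa using hab

theorem indep (k : Type) [Field k] (j : Fin 3) :
    AlgebraicIndependent k fun i : Fin 3 =>
      if i = j then (PowerSeries.X : PowerSeries (MvPolynomial (Fin 3) k))
      else PowerSeries.C (MvPolynomial.X i) := by
  let P := MvPolynomial (Fin 3) k
  let e : P →ₐ[k] PowerSeries P := IsScalarTower.toAlgHom k P (PowerSeries P)
  have he : Function.Injective e := PowerSeries.C_injective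
  have h1 : AlgebraicIndependent k fun i : {i : Fin 3 // i ≠ j} => e (MvPolynomial.X i.1) :=
    ((MvPolynomial.algebraicIndependent_X (Fin 3) k).comp _ Subtype.val_injective).map' he
  have h2 : Transcendental
      (Algebra.adjoin k (Set.range fun i : {i : Fin 3 // i ≠ j} => e (MvPolynomial.X i.1)))
      (PowerSeries.X : PowerSeries P) := by
    intro h
    have h3 : IsAlgebraic e.range (PowerSeries.X : PowerSeries P) :=
      h.tower_top_of_subalgebra_le (Algebra.adjoin_le (by rintro _ ⟨i, rfl⟩; exact ⟨_, rfl⟩))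
    exact transcendental_X P (IsAlgebraic.of_ringHom_of_comp_eq e.rangeRestrict.toRingHom
      (RingHom.id _) h3 e.rangeRestrict_surjective Function.injective_id rfl)
  have h3 := (h1.option_iff_transcendental _).2 h2
  rw [← algebraicIndependent_equiv (Equiv.optionSubtypeNe j)]
  convert h3 using 1
  ext1 o
  rcases o with _ | ⟨i, hi⟩
  · simp
  · simp [hi, e, PowerSeries.algebraMap_eq]

end BHom

open BHom in
theorem bhom_stmt (hF : FieldHomStmt) : BHomStmt := by
  intro k K D _ _ _ _ _ _ x y p j r hg hr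
  let P := MvPolynomial (Fin 3) k
  let A := PowerSeries P
  obtain ⟨L, _, _, e, he⟩ : ∃ (L : Type) (_ : Field L) (_ : Algebra k L) (e : A →ₐ[k] L),
      Function.Injective e :=
    ⟨FractionRing A, inferInstance, inferInstance, IsScalarTower.toAlgHom k A _,
      IsFractionRing.injective A _⟩
  let ρ : Fin 3 → A := fun i => if i = j then 1 else PowerSeries.C (MvPolynomial.X i)
  let τ : Fin 3 → A := fun i => ρ i * PowerSeries.X
  have hτ0 : ∀ i, PowerSeries.constantCoeff (τ i) = 0 := fun i => by simp [τ]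
  have hτj : τ j = PowerSeries.X := by simp [τ, ρ]
  have hX : e PowerSeries.X ≠ 0 := (map_ne_zero_iff e he).2 PowerSeries.X_ne_zero
  choose S hS hS0 using fun i => exists_root (k := k) (τ i) (hτ0 i) (p i)
  have hτ : AlgebraicIndependent k fun i => e (τ i) := by
    refine trd_stmt k L (Fin 3) _ _ ((indep k j).map' he) fun i => ?_
    refine alg_of_pow (a := if i = j then 1 else e (τ j)) (b := e (τ i)) ?_
      (Algebra.subset_adjoin ⟨i, rfl⟩) ?_ one_ne_zero ?_
    · split_ifs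
      exacts [one_mem _, Algebra.subset_adjoin ⟨j, rfl⟩]
    · split_ifs
      exacts [one_ne_zero, hτj ▸ hX]
    · by_cases h : i = j
      · simp [h, hτj]
      · simp [h, τ, ρ, mul_comm]
  have hSe : ∀ i, e (τ i) ^ 3 = e (S i) - e (S i) ^ 3 := fun i => by
    rw [← map_pow, hS, map_sub, map_pow]
  have hS1 : ∀ i, e (S i) ≠ 0 := fun i h => by
    have := hSe i
    rw [h] at this
    exact hτ.ne_zero i (by simpa using this)
  have hy : AlgebraicIndependent k fun i => (e (S i))⁻¹ := by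
    refine trd_stmt k L (Fin 3) _ _ hτ fun i => ?_
    have hm : (e (S i))⁻¹ ∈ Algebra.adjoin k (Set.range fun i => (e (S i))⁻¹) :=
      Algebra.subset_adjoin ⟨i, rfl⟩
    refine alg_of_pow (pow_mem hm 3) (sub_mem (pow_mem hm 2) (one_mem _))
      (pow_ne_zero _ (inv_ne_zero (hS1 i))) three_ne_zero ?_
    have := hS1 i
    rw [hSe]
    field_simp
  obtain ⟨φ, hφx, hφy⟩ := hF k K L (Fin 3) x y (fun i => e (τ i) / e (S i))
    (fun i => (e (S i))⁻¹) hg hy fun i => by
      have := hS1 i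
      rw [div_pow, hSe]
      field_simp
      ring
  have h1 : ∀ i, φ (sc y i) = e (S i) := fun i => by simp [sc, hφy]
  have h2 : ∀ i, φ (tc x y i) = e (τ i) := fun i => by
    have := hS1 i
    simp only [tc, map_div₀, hφx, hφy]
    field_simp
  have h3 : ∀ i, φ (tc x y i / tc x y j) = e (ρ i) := fun i => by
    rw [map_div₀, h2, h2, hτj, div_eq_iff hX, ← map_mul]
  have hle : ∀ u : bch k x y j, (φ.comp (bch k x y j).val) u ∈ e.range := fun u => by
    have : bch k x y j ≤ e.range.comap φ := by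
      refine Algebra.adjoin_le ?_
      rintro _ ((⟨i, rfl⟩ | ⟨i, rfl⟩) | ⟨i, rfl⟩)
      exacts [⟨_, (h1 i).symm⟩, ⟨_, (h2 i).symm⟩, ⟨_, (h3 i).symm⟩]
    exact this u.2
  let χ0 : bch k x y j →ₐ[k] A := (AlgEquiv.ofInjective e he).symm.toAlgHom.comp
    ((φ.comp (bch k x y j).val).codRestrict e.range hle)
  have hχ0 : ∀ (u : bch k x y j) (a : A), φ u = e a → χ0 u = a := fun u a h => by
    refine (AlgEquiv.ofInjective e he).symm_apply_eq.2 (Subtype.ext ?_)
    exact h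
  let cc : A →ₐ[k] P := { PowerSeries.constantCoeff (R := P) with commutes' := fun c => rfl }
  have hcc : ∀ a, cc a = PowerSeries.constantCoeff a := fun _ => rfl
  refine ⟨((MvPolynomial.aeval r).comp cc).comp χ0, fun i h => ?_, fun i h => ?_, fun i h => ?_⟩
  · rw [AlgHom.comp_apply, hχ0 _ _ (h1 i), AlgHom.comp_apply, hcc, hS0, map_intCast]
  · rw [AlgHom.comp_apply, hχ0 _ _ (h2 i), AlgHom.comp_apply, hcc, hτ0, map_zero]
  · rw [AlgHom.comp_apply, hχ0 _ _ (h3 i), AlgHom.comp_apply, hcc]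
    by_cases hi : i = j
    · simp [ρ, hi, hr]
    · simp [ρ, hi, P]

end Pool.Agent.MP_20d318_ag.AG

end MrgPart0

-- ======== part 1: formerly Pool.Agent.MP_20d318_ag.BV.Plane
section MrgPart1

/-! Module PLANE: the points of the affine plane. -/

set_option autoImplicit false

namespace Pool.Agent.MP_20d318_ag.BV

open Pool.Agent.MP_79c67d_ag Pool.Agent.MP_20d318_ag.AG MvPolynomial

namespace Pln

variable {k M : Type} [Field k] [Field M] [Algebra k M] {a b : M} {O : Subalgebra k M}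

theorem range_eq {α : Type} (a b : α) : Set.range ![a, b] = {a, b} := by
  ext x
  simp [eq_comm, or_comm]

theorem mem_R {f : M} : f ∈ Algebra.adjoin k {a, b} ↔
    ∃ p : MvPolynomial (Fin 2) k, aeval ![a, b] p = f := by
  rw [← range_eq, Algebra.adjoin_range_eq_range_aeval]
  rfl

theorem aeval_mem (p : MvPolynomial (Fin 2) k) : aeval ![a, b] p ∈ Algebra.adjoin k {a, b} :=
  mem_R.2 ⟨p, rfl⟩

theorem frac (h : IntermediateField.adjoin k {a, b} = ⊤) : Frac (Algebra.adjoin k {a, b}) := by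
  intro f
  obtain ⟨r, hr, s, hs, rfl⟩ := IntermediateField.mem_adjoin_iff_div.1
    (h ▸ IntermediateField.mem_top : f ∈ IntermediateField.adjoin k {a, b})
  by_cases h0 : s = 0
  · exact ⟨0, Subalgebra.zero_mem _, 1, Subalgebra.one_mem _, one_ne_zero, by simp [h0]⟩
  · exact ⟨r, hr, s, hs, h0, rfl⟩

theorem alg (h : IntermediateField.adjoin k {a, b} = ⊤) :
    Algebra.IsAlgebraic (Algebra.adjoin k (Set.range ![a, b])) M := by
  rw [range_eq]
  have := Krull.isFractionRing (frac h)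
  exact IsLocalization.isAlgebraic M (nonZeroDivisors (Algebra.adjoin k {a, b}))

theorem inj (h : GenP k a b) :
    Function.Injective (aeval ![a, b] : MvPolynomial (Fin 2) k →ₐ[k] M) := h.ind

theorem ne0 (h : GenP k a b) {p : MvPolynomial (Fin 2) k} (hp : p ≠ 0) : aeval ![a, b] p ≠ 0 :=
  fun e => hp (inj h (e.trans (map_zero _).symm))

theorem nrm (h : GenP k a b) : Nrm (Algebra.adjoin k {a, b}) := by
  have hf := frac h.top
  rw [← range_eq] at hf ⊢
  have := Krull.isFractionRing hf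
  have : IsIntegrallyClosed (Algebra.adjoin k (Set.range ![a, b])) :=
    IsIntegrallyClosed.of_equiv h.ind.aevalEquiv.toRingEquiv
  intro f hf
  obtain ⟨y, rfl⟩ := IsIntegrallyClosed.algebraMap_eq_of_integral hf
  exact y.2

theorem rep (hO : O ∈ Pts (Algebra.adjoin k {a, b})) {f : M} (hf : f ∈ O) :
    ∃ r s : MvPolynomial (Fin 2) k, IsU O (aeval ![a, b] s) ∧
      f = aeval ![a, b] r / aeval ![a, b] s := by
  obtain ⟨r, hr, s, hs, hu, rfl⟩ := hO.2.2 f hf
  obtain ⟨r, rfl⟩ := mem_R.1 hr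
  obtain ⟨s, rfl⟩ := mem_R.1 hs
  exact ⟨r, s, hu, rfl⟩

/-- The prime ideal of a point. -/
def ctr (hO : O ∈ Pts (Algebra.adjoin k {a, b})) : Ideal (MvPolynomial (Fin 2) k) where
  carrier := {q | aeval ![a, b] q ∈ mx O}
  add_mem' {p q} hp hq := by
    change aeval ![a, b] (p + q) ∈ mx O
    rw [map_add]
    exact mx_add hO.1 hp hq
  zero_mem' := by
    change aeval ![a, b] (0 : MvPolynomial (Fin 2) k) ∈ mx O
    rw [map_zero]
    exact zero_mem_mx
  smul_mem' c q hq := by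
    change aeval ![a, b] (c * q) ∈ mx O
    rw [map_mul]
    exact mx_mul_left (hO.2.1 (aeval_mem c)) hq

theorem ctr_prime (hO : O ∈ Pts (Algebra.adjoin k {a, b})) : (ctr hO).IsPrime := by
  refine ⟨(Ideal.ne_top_iff_one _).2 fun h1 => ?_, fun {p q} hpq => ?_⟩
  · have h2 : aeval ![a, b] (1 : MvPolynomial (Fin 2) k) ∈ mx O := h1
    rw [map_one] at h2
    exact one_not_mem_mx h2
  · have h2 : aeval ![a, b] (p * q) ∈ mx O := hpq
    rw [map_mul] at h2
    exact mx_or_of_mul (hO.2.1 (aeval_mem p)) (hO.2.1 (aeval_mem q)) h2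

/-- There is no chain of three primes above zero. -/
theorem maximal {p : MvPolynomial (Fin 2) k} (hp : Prime p) {I : Ideal (MvPolynomial (Fin 2) k)}
    (hI : I.IsPrime) (h : Ideal.span {p} < I) : I.IsMaximal := by
  obtain ⟨J, hJ, hle⟩ := I.exists_le_maximal hI.ne_top
  by_contra hn
  have h3 : I < J := lt_of_le_of_ne hle fun e => hn (e ▸ hJ)
  have := (Ideal.span_singleton_prime hp.ne_zero).2 hp
  have h1 := Ideal.one_le_height_span_singleton_of_mem_nonZeroDivisors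
    (mem_nonZeroDivisors_of_ne_zero hp.ne_zero)
  have h2 := Ideal.height_add_one_le_of_lt_of_isPrime h
  have h4 := Ideal.height_add_one_le_of_lt_of_isPrime h3
  have h5 : (J.height : WithBot ℕ∞) ≤ _ := Ideal.height_le_ringKrullDim_of_isPrime
  rw [MvPolynomial.ringKrullDim_of_isNoetherianRing, ringKrullDim_eq_zero_of_field, zero_add,
    Nat.card_fin] at h5
  have h6 : J.height ≤ 2 := WithBot.coe_le_coe.1 h5
  have h7 : (1 : ℕ∞) + 1 + 1 ≤ 2 :=
    ((add_le_add_left ((add_le_add_left h1 1).trans h2) 1).trans h4).trans h6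
  exact absurd h7 (by decide)

theorem ratPt (hO : O ∈ Pts (Algebra.adjoin k {a, b})) {x : Fin 2 → k}
    (h : ∀ q : MvPolynomial (Fin 2) k, aeval ![a, b] q ∈ mx O ↔ aeval x q = 0) : RatPt O := by
  intro f hf
  obtain ⟨r, s, hu, rfl⟩ := rep hO hf
  have hs : aeval x s ≠ 0 := fun e => hu.not_mx ((h s).2 e)
  refine ⟨aeval x r / aeval x s, ?_⟩
  have h1 := (h (r - C (aeval x r / aeval x s) * s)).2 (by
    rw [map_sub, map_mul, aeval_C, Algebra.algebraMap_self_apply, div_mul_cancel₀ _ hs, sub_self])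
  have h2 := mx_div h1 hu
  rwa [map_sub, map_mul, aeval_C, sub_div, mul_div_cancel_right₀ _ hu.1] at h2

theorem place (h : GenP k a b) (hO : O ∈ Pts (Algebra.adjoin k {a, b}))
    {p : MvPolynomial (Fin 2) k} (hp : Irreducible p)
    (hm : ∀ q : MvPolynomial (Fin 2) k, aeval ![a, b] q ∈ mx O ↔ p ∣ q) :
    ∃ P : Place k M, plO P = O ∧ PlOf a b p P := by
  obtain ⟨P, rfl, h1⟩ := dvr_stmt k M O hO.1 (noeth_stmt k M _ (Set.toFinite _) O hO)
    ((frac h.top).mono hO.2.1) _ ((hm p).2 dvd_rfl) (ne0 h hp.ne_zero) fun f hf => by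
      obtain ⟨r, s, hu, rfl⟩ := rep hO hf.1
      have h2 := mx_mul_right hf hu.mem
      rw [div_mul_cancel₀ _ hu.1] at h2
      obtain ⟨t, rfl⟩ := (hm r).1 h2
      rw [map_mul, div_right_comm, mul_div_cancel_left₀ _ (ne0 h hp.ne_zero)]
      exact hu.div_mem (hO.2.1 (aeval_mem t))
  exact ⟨P, rfl, hp, hO, h1, hm⟩

theorem tri [IsAlgClosed k] (h : GenP k a b) (hO : O ∈ Pts (Algebra.adjoin k {a, b})) :
    O = ⊤ ∨ RatPt O ∨ ∃ (P : Place k M) (p : MvPolynomial (Fin 2) k), plO P = O ∧ PlOf a b p P := by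
  have hI := ctr_prime hO
  by_cases h0 : ctr hO = ⊥
  · refine Or.inl (eq_top_iff.2 fun f _ => ?_)
    obtain ⟨r, hr, s, hs, hs0, rfl⟩ := frac h.top f
    obtain ⟨s, rfl⟩ := mem_R.1 hs
    refine (isU_of_not_mx (hO.2.1 hs) fun hm => hs0 ?_).div_mem (hO.2.1 hr)
    have h1 : s ∈ ctr hO := hm
    rw [h0, Ideal.mem_bot] at h1
    rw [h1, map_zero]
  obtain ⟨p, hp1, hp⟩ := Ideal.IsPrime.exists_mem_prime_of_ne_bot hI h0
  have hle : Ideal.span {p} ≤ ctr hO := (Ideal.span_singleton_le_iff_mem _).2 hp1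
  rcases hle.eq_or_lt with h1 | h1
  · obtain ⟨P, h2⟩ := place h hO hp.irreducible fun q => by
      rw [← Ideal.mem_span_singleton, h1]
      rfl
    exact Or.inr (Or.inr ⟨P, p, h2⟩)
  · obtain ⟨x, hx⟩ := isMaximal_iff_eq_vanishingIdeal_singleton.1 (maximal hp hI h1)
    refine Or.inr (Or.inl (ratPt hO (x := x) fun q => ?_))
    rw [← mem_vanishingIdeal_singleton_iff, ← hx]
    rfl

theorem ex (h : GenP k a b) {p : MvPolynomial (Fin 2) k} (hp : Irreducible p) :
    ∃ P, PlOf a b p P := by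
  have key : ∀ q : MvPolynomial (Fin 2) k,
      (∃ r : MvPolynomial (Fin 2) k, aeval ![a, b] q = aeval ![a, b] (p * r)) ↔ p ∣ q :=
    fun q => exists_congr fun r => (inj h).eq_iff
  obtain ⟨O, hO, hU⟩ := exists_loc (Algebra.adjoin k {a, b})
    {f | ∃ r : MvPolynomial (Fin 2) k, f = aeval ![a, b] (p * r)} ⟨0, by simp⟩
    (fun h1 => hp.not_dvd_one ((key 1).1 (by rw [map_one]; exact h1)))
    (by
      rintro _ - _ - ⟨r, rfl⟩ ⟨s, rfl⟩
      exact ⟨r + s, by rw [mul_add, map_add]⟩)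
    (fun f hf g hg => by
      obtain ⟨r, rfl⟩ := mem_R.1 hf
      obtain ⟨s, rfl⟩ := mem_R.1 hg
      rw [← map_mul]
      exact (key _).trans (hp.prime.dvd_mul.trans (or_congr (key r).symm (key s).symm)))
  obtain ⟨P, -, hP⟩ := place h hO hp fun q => by
    rw [← key, mx, Set.mem_ofPred_eq, hU _ (aeval_mem q), not_not]
    exact and_iff_right (hO.2.1 (aeval_mem q))
  exact ⟨P, hP⟩

theorem uniq {p p' : MvPolynomial (Fin 2) k} {P P' : Place k M} (h : PlOf a b p P)
    (h' : PlOf a b p' P') (hd : p ∣ p') : P = P' := by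
  refine plO_inj fun f hf => ?_
  obtain ⟨r, s, hu, rfl⟩ := rep h.pts hf
  exact (isU_of_not_mx (h'.pts.2.1 (aeval_mem s)) fun hm =>
    hu.not_mx ((h.mem s).2 (hd.trans ((h'.mem s).1 hm)))).div_mem (h'.pts.2.1 (aeval_mem r))

/-- Polynomials are constant modulo the maximal ideal of a rational point. -/
theorem sub_mx (hO : IsLocalRing O) {c : Fin 2 → M} {x : Fin 2 → k}
    (hc : ∀ i, c i - algebraMap k M (x i) ∈ mx O) (q : MvPolynomial (Fin 2) k) :
    aeval c q - algebraMap k M (aeval x q) ∈ mx O := by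
  induction q using MvPolynomial.induction_on with
  | C r => simpa using zero_mem_mx
  | add p q hp hq =>
    rw [map_add, map_add, map_add, add_sub_add_comm]
    exact mx_add hO hp hq
  | mul_X p i hp =>
    have h1 : c i ∈ O := by simpa using O.add_mem (hc i).1 (O.algebraMap_mem (x i))
    have h2 := mx_add hO (mx_mul_right hp h1) (mx_mul_left (O.algebraMap_mem (aeval x p)) (hc i))
    rw [map_mul, map_mul, map_mul, aeval_X, aeval_X]
    rwa [sub_mul, mul_sub, sub_add_sub_cancel] at h2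

theorem not_mem (h : GenP k a b) (hO : O ∈ Pts (Algebra.adjoin k {a, b})) {x : Fin 2 → k}
    (hc : ∀ i, ![a, b] i - algebraMap k M (x i) ∈ mx O) {i j : Fin 2} (hij : j ≠ i) :
    (![a, b] i - algebraMap k M (x i)) / (![a, b] j - algebraMap k M (x j)) ∉ O := by
  intro hm
  obtain ⟨r, s, hu, he⟩ := rep hO hm
  have hl : ∀ l, aeval ![a, b] (X l - C (x l) : MvPolynomial (Fin 2) k) =
      ![a, b] l - algebraMap k M (x l) := fun l => by rw [map_sub, aeval_X, aeval_C]
  have hj : (X j - C (x j) : MvPolynomial (Fin 2) k) ≠ 0 := fun e => by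
    simpa using congrArg (pderiv j) e
  rw [← hl, ← hl, div_eq_div_iff (ne0 h hj) hu.1, ← map_mul, ← map_mul] at he
  have h1 := congrArg (fun q => aeval x (pderiv i q)) (inj h he)
  have h2 : aeval x s = 0 := by simpa [pderiv_X_of_ne hij] using h1
  have h3 := sub_mx hO.1 hc s
  rw [h2, map_zero, sub_zero] at h3
  exact hu.not_mx h3

theorem not_rat (h : GenP k a b) (hO : O ∈ Pts (Algebra.adjoin k {a, b})) (hV : IsVal O) :
    ¬ RatPt O := by
  intro hr
  have h1 : ∀ i, ![a, b] i ∈ O := fun i => by simpa using hO.2.1 (aeval_mem (k := k) (X i))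
  choose x hx using fun i => hr _ (h1 i)
  rcases hV ((![a, b] 0 - algebraMap k M (x 0)) / (![a, b] 1 - algebraMap k M (x 1))) with h2 | h2
  · exact not_mem h hO hx (by decide) h2
  · rw [inv_div] at h2
    exact not_mem h hO hx (by decide) h2

theorem dim (h : GenP k a b) (hV : IsVal O) (hO : O ≠ ⊤) : Dim O 1 := by
  rintro ⟨r, hr, hu⟩
  have h1 : AlgebraicIndependent k r :=
    algebraicIndependent_iff.2 fun p hp => by_contra fun h0 => (hu p h0).1 hp
  have h2 : IsTranscendenceBasis k ![a, b] :=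
    h.ind.isTranscendenceBasis_iff_isAlgebraic.2 (alg h.top)
  have h3 := (h1.isTranscendenceBasis_of_trdeg_le_of_finite h2.cardinalMk_eq_trdeg.ge).isAlgebraic
  have h4 : Algebra.adjoin k (Set.range r) ≤ O := Algebra.adjoin_le (Set.range_subset_iff.2 hr)
  refine hO (eq_top_iff.2 fun f _ => ?_)
  obtain ⟨⟨c, hc⟩, hc0, hi⟩ := (h3.isAlgebraic f).exists_integral_multiple
  have h5 : c * f ∈ O := mem_of_isIntegral hV.vs (fun u => h4 u.2) hi
  obtain ⟨p, rfl⟩ : ∃ p : MvPolynomial (Fin (1 + 1)) k, aeval r p = c := by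
    rwa [Algebra.adjoin_range_eq_range_aeval] at hc
  have h6 := hu p fun e => hc0 (Subtype.ext (by simp [e]))
  have h7 := h6.div_mem h5
  rwa [mul_div_cancel_left₀ _ h6.1] at h7

theorem der (h : GenP k a b) (i : Fin 2) : ∃ D : Derivation k M M, ∀ p : MvPolynomial (Fin 2) k,
    D (aeval ![a, b] p) = aeval ![a, b] (pderiv i p) := by
  let _ : Algebra (MvPolynomial (Fin 2) k) M :=
    (aeval ![a, b] : MvPolynomial (Fin 2) k →ₐ[k] M).toRingHom.toAlgebra
  have : IsScalarTower k (MvPolynomial (Fin 2) k) M :=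
    .of_algebraMap_eq fun c => ((aeval ![a, b] : MvPolynomial (Fin 2) k →ₐ[k] M).commutes c).symm
  have : FaithfulSMul (MvPolynomial (Fin 2) k) M :=
    (faithfulSMul_iff_algebraMap_injective _ _).2 (inj h)
  have : IsFractionRing (MvPolynomial (Fin 2) k) M := by
    refine IsFractionRing.of_field _ _ fun f => ?_
    obtain ⟨r, hr, s, hs, -, he⟩ := frac h.top f
    obtain ⟨r, rfl⟩ := mem_R.1 hr
    obtain ⟨s, rfl⟩ := mem_R.1 hs
    exact ⟨r, s, he⟩
  have := Algebra.FormallyEtale.of_isLocalization (Rₘ := M)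
    (nonZeroDivisors (MvPolynomial (Fin 2) k))
  have hb := KaehlerDifferential.isBaseChange_of_formallyEtale k (MvPolynomial (Fin 2) k) M
  let D₀ : Derivation k (MvPolynomial (Fin 2) k) M :=
    (Algebra.linearMap (MvPolynomial (Fin 2) k) M).compDer (pderiv i)
  refine ⟨(hb.lift D₀.liftKaehlerDifferential).compDer (KaehlerDifferential.D k M), fun p => ?_⟩
  change hb.lift D₀.liftKaehlerDifferential (KaehlerDifferential.D k M (algebraMap _ M p)) = D₀ p
  rw [← KaehlerDifferential.map_D k k, hb.lift_eq, Derivation.liftKaehlerDifferential_comp_D]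

theorem equiv (h : GenP k a b) : ∃ e : FractionRing (MvPolynomial (Fin 2) k) ≃ₐ[k] M,
    ∀ p : MvPolynomial (Fin 2) k, e (algebraMap _ _ p) = aeval ![a, b] p :=
  ⟨h.ind.aevalEquivField.trans ((IntermediateField.equivOfEq
    (by rw [range_eq, h.top])).trans IntermediateField.topEquiv),
    h.ind.aevalEquivField_algebraMap_apply_coe⟩

theorem hom (h : GenP k a b) {a' b' : M} (h' : GenP k a' b') :
    ∃ σ : M ≃ₐ[k] M, σ a = a' ∧ σ b = b' := by
  obtain ⟨e, he⟩ := equiv h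
  obtain ⟨e', he'⟩ := equiv h'
  have key : ∀ p : MvPolynomial (Fin 2) k,
      (e.symm.trans e') (aeval ![a, b] p) = aeval ![a', b'] p := fun p => by
    rw [← he, AlgEquiv.trans_apply, e.symm_apply_apply, he']
  exact ⟨e.symm.trans e', by simpa using key (X 0), by simpa using key (X 1)⟩

end Pln

open Pln in
theorem plane_stmt : PlaneStmt := fun k M _ _ _ _ _ a b h =>
  { frac := frac h.top
    nrm := nrm h
    tri := fun _ hO => (tri h hO).imp_right (Or.imp_right fun ⟨P, _, hP, _⟩ => ⟨P, hP⟩)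
    ex := fun _ hp => Pln.ex h hp
    plof := fun P hP => by
      rcases tri h hP with h1 | h1 | ⟨P', p, h1, h2⟩
      · exact absurd h1 (plO_ne_top P)
      · exact absurd h1 (not_rat h hP (plO_isVal P))
      · exact ⟨p, plO_inj h1.le ▸ h2⟩
    uniq := fun _ _ _ _ => uniq
    dim := fun P hP => ⟨not_rat h hP (plO_isVal P), dim h (plO_isVal P) (plO_ne_top P)⟩
    der := der h
    hom := fun _ _ => hom h
    top := fun a' b' h' =>
      ⟨trd_stmt k M (Fin 2) ![a, b] ![a', b'] h.ind fun _ => (alg h').isAlgebraic _, h'⟩ }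

end Pool.Agent.MP_20d318_ag.BV

end MrgPart1

-- ======== part 2: formerly Pool.Agent.MP_20d318_ag.BV.TLoc
section MrgPart2

/-! The charts of the surface `T`. -/

set_option autoImplicit false

namespace Pool.Agent.MP_20d318_ag.BV

open Pool.Agent.MP_79c67d_ag Pool.Agent.MP_20d318_ag.AG MvPolynomial

namespace TLocAux

variable {k M : Type} [Field k] [Field M] [Algebra k M] {d : Dat k} {x y : M}
  {O R : Subalgebra k M}

theorem x_ne (hg : GenP k x y) : x ≠ 0 := by simpa using hg.x_ne 0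
theorem y_ne (hg : GenP k x y) : y ≠ 0 := by simpa using hg.y_ne 0
theorem xq_ne (hg : GenP k x y) (q : Q) : xq d x q ≠ 0 := hg.x_ne _
theorem yq_ne (hg : GenP k x y) (q : Q) : yq d y q ≠ 0 := hg.y_ne _

theorem x_mem : x ∈ SH x y := Or.inl rfl
theorem y_mem : y ∈ SH x y := Or.inr (Or.inl rfl)
theorem one_mem : (1 : M) ∈ SH x y := Or.inr (Or.inr rfl)
theorem xq_mem (q : Q) : xq d x q ∈ SQ d x y q := Or.inl rfl
theorem yq_mem (q : Q) : yq d y q ∈ SQ d x y q := Or.inr rfl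

theorem all_SH {p : M → Prop} (h1 : p x) (h2 : p y) (h3 : p 1) : ∀ a ∈ SH x y, p a := by
  rintro a (rfl | rfl | rfl) <;> assumption

theorem all_SQ {p : M → Prop} {q : Q} (h1 : p (xq d x q)) (h2 : p (yq d y q)) :
    ∀ a ∈ SQ d x y q, p a := by
  rintro a (rfl | rfl) <;> assumption

theorem xq_of_mem (h : x ∈ R) (q : Q) : xq d x q ∈ R := R.sub_mem h (R.algebraMap_mem _)
theorem yq_of_mem (h : y ∈ R) (q : Q) : yq d y q ∈ R := R.sub_mem h (R.algebraMap_mem _)

theorem x_of_xq {q : Q} (h : xq d x q ∈ R) : x ∈ R := by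
  simpa [xq] using R.add_mem h (R.algebraMap_mem (d.a q))

theorem y_of_yq {q : Q} (h : yq d y q ∈ R) : y ∈ R := by
  simpa [yq] using R.add_mem h (R.algebraMap_mem (d.b q))

theorem Ov_x {q : Q} (h : Ov d x y q O) : x ∈ O := x_of_xq (h _ (xq_mem q)).1
theorem Ov_y {q : Q} (h : Ov d x y q O) : y ∈ O := y_of_yq (h _ (yq_mem q)).1

theorem fam (hg : GenP k x y) : Fam k (famT d x y) where
  fin l := by
    cases l with
    | none => exact Set.toFinite ({x, y, 1} : Set M)
    | some q => exact Set.toFinite ({xq d x q, yq d y q} : Set M)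
  ne l := by
    cases l with
    | none => exact ⟨_, one_mem⟩
    | some q => exact ⟨_, xq_mem q⟩
  nz l := by
    cases l with
    | none => exact all_SH (p := fun a => a ≠ 0) (x_ne hg) (y_ne hg) one_ne_zero
    | some q => exact all_SQ (p := fun a => a ≠ 0) (xq_ne hg q) (yq_ne hg q)
  top := by
    refine top_le_iff.1 (hg.top.ge.trans (IntermediateField.adjoin.mono _ _ _ ?_))
    rintro a (rfl | rfl)
    · exact ⟨none, _, x_mem, 1, one_mem, (div_one _).symm⟩
    · exact ⟨none, _, y_mem, 1, one_mem, (div_one _).symm⟩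

theorem loc (hO : O ∈ TT d x y) : IsLocalRing O := mp_loc hO

theorem gH (hg : GenP k x y) (hO : O ∈ TT d x y) : Gn (SH x y) O (gn (SH x y) O) :=
  gn_spec (mp_prin (fam hg) hO none)

theorem gQ (hg : GenP k x y) (hO : O ∈ TT d x y) (q : Q) :
    Gn (SQ d x y q) O (gn (SQ d x y q) O) :=
  gn_spec (mp_prin (fam hg) hO (some q))

theorem hu (hg : GenP k x y) (hO : O ∈ TT d x y) (hx : x ∈ O) (hy : y ∈ O) :
    IsU O (gn (SH x y) O) :=
  (gH hg hO).isU (all_SH (p := fun a => a ∈ O) hx hy O.one_mem) ⟨1, one_mem, isU_one⟩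

theorem sub_div_eq (a γ : M) (c : k) :
    (a - algebraMap k M c) / γ = a / γ + -(algebraMap k M c * (1 / γ)) := by ring

theorem sq_div {γ : M} (h : Gn (SH x y) O γ) (q : Q) : ∀ a ∈ SQ d x y q, a / γ ∈ O := by
  have h1 := h.1 1 one_mem
  refine all_SQ (p := fun a => a / γ ∈ O) ?_ ?_
  · rw [xq, sub_div_eq]
    exact O.add_mem (h.1 x x_mem) (O.neg_mem (O.mul_mem (O.algebraMap_mem _) h1))
  · rw [yq, sub_div_eq]
    exact O.add_mem (h.1 y y_mem) (O.neg_mem (O.mul_mem (O.algebraMap_mem _) h1))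

theorem exm (hg : GenP k x y) (hO : O ∈ TT d x y) (q : Q) : ex d x y q O ∈ O := by
  obtain ⟨a, ha, hu⟩ := (gQ hg hO q).2
  have h := hu.div_mem (sq_div (gH hg hO) q a ha)
  have ha0 : a ≠ 0 := (fam (d := d) hg).nz (some q) a ha
  have h1 := (gH hg hO).ne
  have h2 := (gQ hg hO q).ne
  convert h using 1
  rw [ex]
  field_simp

theorem unit_of_not {q : Q} (hx : x ∈ O) (hy : y ∈ O) (h : ¬ Ov d x y q O) :
    ∃ a ∈ SQ d x y q, IsU O a := by
  by_contra hn
  refine h fun a ha => ⟨?_, fun hu => hn ⟨a, ha, hu⟩⟩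
  exact all_SQ (p := fun a => a ∈ O) (xq_of_mem hx q) (yq_of_mem hy q) a ha

theorem exu (hg : GenP k x y) (hO : O ∈ TT d x y) (q : Q) (h : ¬ Ov d x y q O) :
    IsU O (ex d x y q O) := by
  have hH := gH hg hO
  refine (gQ hg hO q).unit ⟨sq_div hH q, ?_⟩
  rcases isU_or_mx (hH.1 1 one_mem) with h1 | h1
  · have hγ : IsU O (gn (SH x y) O) := by simpa using h1.inv
    have hm : ∀ a ∈ SH x y, a ∈ O := fun a ha => by
      simpa [hγ.1] using O.mul_mem (hH.1 a ha) hγ.mem
    obtain ⟨a, ha, hu⟩ := unit_of_not (hm x x_mem) (hm y y_mem) h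
    exact ⟨a, ha, hu.div hγ⟩
  · obtain ⟨a, ha, hu⟩ := hH.2
    rcases ha with ha | ha | ha
    · refine ⟨_, xq_mem q, ?_⟩
      rw [xq, sub_div_eq]
      exact (ha ▸ hu).add_mx (loc hO) (mx_neg (mx_mul_left (O.algebraMap_mem _) h1))
    · refine ⟨_, yq_mem q, ?_⟩
      rw [yq, sub_div_eq]
      exact (ha ▸ hu).add_mx (loc hO) (mx_neg (mx_mul_left (O.algebraMap_mem _) h1))
    · exact absurd ((Set.mem_singleton_iff.1 ha) ▸ hu) h1.2

theorem exx (hg : GenP k x y) (hO : O ∈ TT d x y) (q : Q) (h : Ov d x y q O) :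
    ex d x y q O ∈ mx O :=
  mx_div ((gQ hg hO q).mem_mx h) (hu hg hO (Ov_x h) (Ov_y h))

theorem ovu (hc : Cub d) (hO : IsLocalRing O) {q q' : Q} (h : Ov d x y q O) (h' : Ov d x y q' O) :
    q = q' := by
  have h1 := mx_sub' hO (h' _ (xq_mem q')) (h _ (xq_mem q))
  have h2 := mx_sub' hO (h' _ (yq_mem q')) (h _ (yq_mem q))
  have e1 : xq d x q' - xq d x q = algebraMap k M (d.a q - d.a q') := by simp [xq]
  have e2 : yq d y q' - yq d y q = algebraMap k M (d.b q - d.b q') := by simp [yq]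
  rw [e1, const_mem_mx, sub_eq_zero] at h1
  rw [e2, const_mem_mx, sub_eq_zero] at h2
  exact hc.inj q q' h1 h2

/-- Charts in the affine part. -/
theorem aff_chart (hg : GenP k x y) (hO : O ∈ TT d x y) (hR : R ≤ O) (hx : x ∈ R) (hy : y ∈ R)
    (h : ∀ q, Ov d x y q O → ∃ b ∈ SQ d x y q, ∀ a ∈ SQ d x y q, a / b ∈ R) : O ∈ Pts R := by
  refine mp_chart (fam hg) hO hR fun l => ?_
  cases l with
  | none =>
    refine ⟨1, one_mem, fun a ha => le_fr ?_⟩
    rw [div_one]
    exact all_SH (p := fun a => a ∈ R) hx hy R.one_mem a ha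
  | some q =>
    by_cases hq : Ov d x y q O
    · obtain ⟨b, hb, h1⟩ := h q hq
      exact ⟨b, hb, fun a ha => le_fr (h1 a ha)⟩
    · obtain ⟨b, hb, hu⟩ := unit_of_not (hR hx) (hR hy) hq
      have hm := all_SQ (d := d) (p := fun a => a ∈ R) (xq_of_mem hx q) (yq_of_mem hy q)
      exact ⟨b, hb, fun a ha => ⟨a, hm a ha, b, hm b hb, hu, rfl⟩⟩

theorem adj_le {a b : M} (ha : a ∈ O) (hb : b ∈ O) : Algebra.adjoin k {a, b} ≤ O :=
  Algebra.adjoin_le (by rintro _ (rfl | rfl) <;> assumption)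

theorem adj_l {a b : M} : a ∈ Algebra.adjoin k {a, b} := Algebra.subset_adjoin (Or.inl rfl)
theorem adj_r {a b : M} : b ∈ Algebra.adjoin k {a, b} := Algebra.subset_adjoin (Or.inr rfl)

theorem c0 (hg : GenP k x y) (hO : O ∈ TT d x y) (hx : x ∈ O) (hy : y ∈ O)
    (h : ∀ q, ¬ Ov d x y q O) : O ∈ Pts (Algebra.adjoin k {x, y}) :=
  aff_chart hg hO (adj_le hx hy) adj_l adj_r fun q hq => absurd hq (h q)

theorem ex_div (q : Q) (b : M) :
    ex d x y q O / b = gn (SQ d x y q) O / b / gn (SH x y) O := by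
  rw [ex]; ring

theorem c1 (hc : Cub d) (hg : GenP k x y) (hO : O ∈ TT d x y) (q : Q) (h : Ov d x y q O)
    (hm : xq d x q / yq d y q ∈ O) :
    O ∈ Pts (Algebra.adjoin k {xq d x q / yq d y q, yq d y q}) ∧
      IsU O (ex d x y q O / yq d y q) := by
  have h0 := yq_ne (d := d) hg q
  constructor
  · refine aff_chart hg hO (adj_le hm (h _ (yq_mem q)).1) (x_of_xq (d := d) (q := q) ?_)
      (y_of_yq adj_r) fun q' hq' => ?_
    · have := Subalgebra.mul_mem _ (adj_l (k := k) (a := xq d x q / yq d y q) (b := yq d y q)) adj_r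
      rwa [div_mul_cancel₀ _ h0] at this
    · obtain rfl := ovu hc (loc hO) h hq'
      refine ⟨_, yq_mem q, all_SQ (p := fun a => a / yq d y q ∈ _) adj_l ?_⟩
      rw [div_self h0]
      exact Subalgebra.one_mem _
  · rw [ex_div]
    exact ((gQ hg hO q).unit (gn_right h0 hm)).div (hu hg hO (Ov_x h) (Ov_y h))

theorem c2 (hc : Cub d) (hg : GenP k x y) (hO : O ∈ TT d x y) (q : Q) (h : Ov d x y q O)
    (hm : yq d y q / xq d x q ∈ O) :
    O ∈ Pts (Algebra.adjoin k {yq d y q / xq d x q, xq d x q}) ∧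
      IsU O (ex d x y q O / xq d x q) := by
  have h0 := xq_ne (d := d) hg q
  constructor
  · refine aff_chart hg hO (adj_le hm (h _ (xq_mem q)).1) (x_of_xq adj_r)
      (y_of_yq (d := d) (q := q) ?_) fun q' hq' => ?_
    · have := Subalgebra.mul_mem _ (adj_l (k := k) (a := yq d y q / xq d x q) (b := xq d x q)) adj_r
      rwa [div_mul_cancel₀ _ h0] at this
    · obtain rfl := ovu hc (loc hO) h hq'
      refine ⟨_, xq_mem q, all_SQ (p := fun a => a / xq d x q ∈ _) ?_ adj_l⟩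
      rw [div_self h0]
      exact Subalgebra.one_mem _
  · rw [ex_div]
    exact ((gQ hg hO q).unit (gn_left h0 hm)).div (hu hg hO (Ov_x h) (Ov_y h))

/-- A ratio of centred coordinates near the line at infinity. -/
theorem inf_fr (hO : IsLocalRing O) {u v : M} (h0 : u ≠ 0) (hu : u⁻¹ ∈ mx O) (α β : k) :
    (v - algebraMap k M β) / (u - algebraMap k M α) ∈ fr (Algebra.adjoin k {v / u, u⁻¹}) O := by
  refine ⟨v / u - algebraMap k M β * u⁻¹, ?_, 1 + -(algebraMap k M α * u⁻¹), ?_, ?_, ?_⟩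
  · exact Subalgebra.sub_mem _ adj_l (Subalgebra.mul_mem _ (Subalgebra.algebraMap_mem _ _) adj_r)
  · exact Subalgebra.add_mem _ (Subalgebra.one_mem _) (Subalgebra.neg_mem _
      (Subalgebra.mul_mem _ (Subalgebra.algebraMap_mem _ _) adj_r))
  · exact isU_one.add_mx hO (mx_neg (mx_mul_left (O.algebraMap_mem _) hu))
  · have e1 : v / u - algebraMap k M β * u⁻¹ = (v - algebraMap k M β) / u := by ring
    have e2 : 1 + -(algebraMap k M α * u⁻¹) = (u - algebraMap k M α) / u := by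
      field_simp; ring
    rw [e1, e2, div_div_div_cancel_right₀ h0]

theorem not_mem_of_inv {u : M} (h0 : u ≠ 0) (hu : u⁻¹ ∈ mx O) : u ∉ O := fun h =>
  hu.2 (IsU.inv ⟨h0, h, hu.1⟩)

theorem c3 (hg : GenP k x y) (hO : O ∈ TT d x y) (h : x⁻¹ ∈ mx O) (hm : y / x ∈ O) :
    O ∈ Pts (Algebra.adjoin k {y / x, x⁻¹}) ∧ IsU O (gn (SH x y) O / x) ∧
      ∀ q, ¬ Ov d x y q O := by
  have h0 := x_ne hg
  have h1 : ∀ a ∈ SH x y, a / x ∈ Algebra.adjoin k {y / x, x⁻¹} :=
    all_SH (p := fun a => a / x ∈ _) (by rw [div_self h0]; exact Subalgebra.one_mem _) adj_l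
      (by rw [one_div]; exact adj_r)
  refine ⟨mp_chart (fam hg) hO (adj_le hm h.1) fun l => ?_,
    (gH hg hO).unit (gn_of_mem x_mem h0 fun a ha => adj_le hm h.1 (h1 a ha)),
    fun q hq => not_mem_of_inv h0 h (Ov_x hq)⟩
  cases l with
  | none => exact ⟨x, x_mem, fun a ha => le_fr (h1 a ha)⟩
  | some q =>
    refine ⟨_, xq_mem q, all_SQ (p := fun a => a / xq d x q ∈ _) ?_ (inf_fr (loc hO) h0 h _ _)⟩
    rw [div_self (xq_ne hg q)]
    exact Subalgebra.one_mem _

theorem c4 (hg : GenP k x y) (hO : O ∈ TT d x y) (h : y⁻¹ ∈ mx O) (hm : x / y ∈ O) :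
    O ∈ Pts (Algebra.adjoin k {x / y, y⁻¹}) ∧ IsU O (gn (SH x y) O / y) ∧
      ∀ q, ¬ Ov d x y q O := by
  have h0 := y_ne hg
  have h1 : ∀ a ∈ SH x y, a / y ∈ Algebra.adjoin k {x / y, y⁻¹} :=
    all_SH (p := fun a => a / y ∈ _) adj_l (by rw [div_self h0]; exact Subalgebra.one_mem _)
      (by rw [one_div]; exact adj_r)
  refine ⟨mp_chart (fam hg) hO (adj_le hm h.1) fun l => ?_,
    (gH hg hO).unit (gn_of_mem y_mem h0 fun a ha => adj_le hm h.1 (h1 a ha)),
    fun q hq => not_mem_of_inv h0 h (Ov_y hq)⟩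
  cases l with
  | none => exact ⟨y, y_mem, fun a ha => le_fr (h1 a ha)⟩
  | some q =>
    refine ⟨_, yq_mem q, all_SQ (p := fun a => a / yq d y q ∈ _) (inf_fr (loc hO) h0 h _ _) ?_⟩
    rw [div_self (yq_ne hg q)]
    exact Subalgebra.one_mem _

theorem cases (hg : GenP k x y) (hO : O ∈ TT d x y) :
    (x ∈ O ∧ y ∈ O ∧ ∀ q, ¬ Ov d x y q O) ∨
    (∃ q, Ov d x y q O ∧ xq d x q / yq d y q ∈ O) ∨ (∃ q, Ov d x y q O ∧ yq d y q / xq d x q ∈ O) ∨
    (x⁻¹ ∈ mx O ∧ y / x ∈ O) ∨ (y⁻¹ ∈ mx O ∧ x / y ∈ O) := by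
  by_cases hxy : x ∈ O ∧ y ∈ O
  · by_cases hq : ∃ q, Ov d x y q O
    · obtain ⟨q, hq⟩ := hq
      rcases Prin.pair (gQ hg hO q).prin with h | h
      · exact Or.inr (Or.inl ⟨q, hq, h⟩)
      · exact Or.inr (Or.inr (Or.inl ⟨q, hq, h⟩))
    · exact Or.inl ⟨hxy.1, hxy.2, fun q h => hq ⟨q, h⟩⟩
  · obtain ⟨b, hb, h⟩ := (gH hg hO).exists_mem
    have h1 : b⁻¹ ∈ mx O := by
      refine ⟨by simpa using h.1 1 one_mem, fun hu => hxy ?_⟩
      have hb' : b ∈ O := by simpa using hu.inv_mem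
      have hm : ∀ a ∈ SH x y, a ∈ O := fun a ha => by
        simpa [h.ne] using O.mul_mem (h.1 a ha) hb'
      exact ⟨hm x x_mem, hm y y_mem⟩
    rcases hb with hb | hb | hb
    · exact Or.inr (Or.inr (Or.inr (Or.inl ⟨hb ▸ h1, hb ▸ h.1 y y_mem⟩)))
    · exact Or.inr (Or.inr (Or.inr (Or.inr ⟨hb ▸ h1, hb ▸ h.1 x x_mem⟩)))
    · rw [Set.mem_singleton_iff.1 hb, inv_one] at h1
      exact absurd h1 one_not_mem_mx

theorem top_of (hg : GenP k x y) {a b : M} (hx : x ∈ IntermediateField.adjoin k {a, b})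
    (hy : y ∈ IntermediateField.adjoin k {a, b}) : IntermediateField.adjoin k {a, b} = ⊤ := by
  refine top_le_iff.1 (hg.top.ge.trans (IntermediateField.adjoin_le_iff.2 ?_))
  rintro _ (rfl | rfl) <;> assumption

theorem fl {a b : M} : a ∈ IntermediateField.adjoin k {a, b} :=
  IntermediateField.subset_adjoin _ _ (Or.inl rfl)
theorem fr' {a b : M} : b ∈ IntermediateField.adjoin k {a, b} :=
  IntermediateField.subset_adjoin _ _ (Or.inr rfl)

theorem blow_mem {u v : M} {α β : k} (h0 : v - algebraMap k M β ≠ 0) :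
    u ∈ IntermediateField.adjoin k
      {(u - algebraMap k M α) / (v - algebraMap k M β), v - algebraMap k M β} ∧
    v ∈ IntermediateField.adjoin k
      {(u - algebraMap k M α) / (v - algebraMap k M β), v - algebraMap k M β} := by
  constructor
  · have := add_mem (mul_mem (fl (k := k) (a := (u - algebraMap k M α) / (v - algebraMap k M β))
      (b := v - algebraMap k M β)) fr') (IntermediateField.algebraMap_mem _ α)
    rwa [div_mul_cancel₀ _ h0, sub_add_cancel] at this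
  · have := add_mem (fr' (k := k) (a := (u - algebraMap k M α) / (v - algebraMap k M β))
      (b := v - algebraMap k M β)) (IntermediateField.algebraMap_mem _ β)
    rwa [sub_add_cancel] at this

theorem inf_mem {u v : M} (h0 : u ≠ 0) :
    u ∈ IntermediateField.adjoin k {v / u, u⁻¹} ∧ v ∈ IntermediateField.adjoin k {v / u, u⁻¹} := by
  have h : u ∈ IntermediateField.adjoin k {v / u, u⁻¹} := by
    simpa using inv_mem (fr' (k := k) (a := v / u) (b := u⁻¹))
  refine ⟨h, ?_⟩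
  have := mul_mem (fl (k := k) (a := v / u) (b := u⁻¹)) h
  rwa [div_mul_cancel₀ _ h0] at this

theorem g1 (hP : Plane (k := k) x y) (hg : GenP k x y) (q : Q) :
    GenP k (xq d x q / yq d y q) (yq d y q) :=
  hP.top _ _ (top_of hg (blow_mem (yq_ne hg q)).1 (blow_mem (yq_ne hg q)).2)

theorem g2 (hP : Plane (k := k) x y) (hg : GenP k x y) (q : Q) :
    GenP k (yq d y q / xq d x q) (xq d x q) :=
  hP.top _ _ (top_of hg (blow_mem (xq_ne hg q)).2 (blow_mem (xq_ne hg q)).1)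

theorem g3 (hP : Plane (k := k) x y) (hg : GenP k x y) : GenP k (y / x) x⁻¹ :=
  hP.top _ _ (top_of hg (inf_mem (x_ne hg)).1 (inf_mem (x_ne hg)).2)

theorem g4 (hP : Plane (k := k) x y) (hg : GenP k x y) : GenP k (x / y) y⁻¹ :=
  hP.top _ _ (top_of hg (inf_mem (y_ne hg)).2 (inf_mem (y_ne hg)).1)

/-! ### Local equations -/

theorem ex_ne (hg : GenP k x y) (hO : O ∈ TT d x y) (q : Q) : ex d x y q O ≠ 0 :=
  div_ne_zero (gQ hg hO q).ne (gH hg hO).ne

theorem lbne (hg : GenP k x y) (hO : O ∈ TT d x y) (c : Lam ℤ) : lb d x y c O ≠ 0 :=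
  mul_ne_zero (zpow_ne_zero _ (gH hg hO).ne)
    (Finset.prod_ne_zero_iff.2 fun q _ => zpow_ne_zero _ (ex_ne hg hO q))

theorem lbadd (hg : GenP k x y) (hO : O ∈ TT d x y) (c c' : Lam ℤ) :
    lb d x y (c + c') O = lb d x y c O * lb d x y c' O := by
  simp only [lb, Prod.fst_add, Prod.snd_add, Pi.add_apply, neg_add, zpow_add₀ (gH hg hO).ne,
    zpow_add₀ (ex_ne hg hO _), Finset.prod_mul_distrib]
  ring

theorem lbsm (n : ℤ) (c : Lam ℤ) : lb d x y (n • c) O = lb d x y c O ^ n := by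
  simp only [lb, Prod.smul_fst, Prod.smul_snd, Pi.smul_apply, smul_eq_mul, mul_zpow,
    ← Finset.prod_zpow, ← zpow_mul, neg_mul, mul_comm n]

theorem lbH : lb d x y cH O = (gn (SH x y) O)⁻¹ := by simp [lb, cH]

theorem prod_single (q : Q) (n : ℤ) :
    ∏ q', ex d x y q' O ^ (-(Pi.single q n : Q → ℤ) q') = ex d x y q O ^ (-n) := by
  rw [Finset.prod_eq_single q (fun q' _ h => by simp [Pi.single_eq_of_ne h]) (by simp)]
  simp

theorem lbE (q : Q) : lb d x y (cE q) O = ex d x y q O := by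
  rw [lb, cE, prod_single]
  simp

theorem lbh (hg : GenP k x y) (hO : O ∈ TT d x y) (q : Q) :
    lb d x y (ch q) O = (gn (SQ d x y q) O)⁻¹ := by
  have := (gH hg hO).ne
  rw [lb, ch, prod_single, ex]
  simp only [zpow_neg, zpow_one, inv_div]
  field_simp

theorem cF_eq : (cF : Lam ℤ) = cR + (2 : ℤ) • cE none := by
  refine Prod.ext (by simp [cF, cR, cE]) (funext fun q => ?_)
  cases q <;> simp [cF, cR, cE]

theorem lbF (hg : GenP k x y) (hO : O ∈ TT d x y) :
    lb d x y cF O = lb d x y cR O * ex d x y none O ^ 2 := by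
  rw [cF_eq, lbadd hg hO, lbsm, lbE, zpow_ofNat]

theorem cartH (hg : GenP k x y) : IsCart (TT d x y) (gn (SH x y)) :=
  isCart_of_gn ((fam (d := d) hg).fin none) fun _ hO => gH hg hO

theorem cartQ (hg : GenP k x y) (q : Q) : IsCart (TT d x y) (gn (SQ d x y q)) :=
  isCart_of_gn ((fam (d := d) hg).fin (some q)) fun _ hO => gQ hg hO q

theorem cartE (hg : GenP k x y) (q : Q) : IsCart (TT d x y) (ex d x y q) :=
  (cartQ hg q).div (cartH hg)

theorem lb_fun (c : Lam ℤ) :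
    lb d x y c = gn (SH x y) ^ (-c.1) * ∏ q, ex d x y q ^ (-c.2 q) :=
  funext fun O => by simp only [lb, Pi.mul_apply, Pi.pow_apply, Finset.prod_apply]

theorem cart (hg : GenP k x y) (c : Lam ℤ) : IsCart (TT d x y) (lb d x y c) := by
  rw [lb_fun]
  exact ((cartH hg).zpow _).mul (isCart_prod fun q _ => (cartE hg q).zpow _)

theorem deg [CharZero k] [IsAlgClosed k] (hg : GenP k x y) (ν : Curve (TT d x y)) (c : Lam ℤ) :
    ν.deg (lb d x y c) = ip c (zz d x y ν) := by
  have hX : Good (TT d x y) := (fine_mp (fam hg)).toGood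
  rw [lb_fun, deg_mul hX ((cartH hg).zpow _) (isCart_prod fun q _ => (cartE hg q).zpow _),
    deg_zpow hX (cartH hg), deg_prod hX fun q _ => (cartE hg q).zpow _]
  simp only [deg_zpow hX (cartE hg _), ip, zz, neg_mul, mul_neg, Finset.sum_neg_distrib]
  ring

/-! ### Jacobians -/

theorem div_lbK (a : M) : a / lb d x y cK O = a * gn (SH x y) O ^ 3 * ∏ q, ex d x y q O := by
  simp only [lb, cK, zpow_neg, pow_one, zpow_ofNat, Finset.prod_inv_distrib, div_eq_mul_inv,
    mul_inv, inv_inv, mul_assoc]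

theorem jac_ov (hc : Cub d) (hg : GenP k x y) (hO : O ∈ TT d x y) {q : Q} (h : Ov d x y q O)
    {r : M} (hr : IsU O (ex d x y q O / r)) : IsU O (r⁻¹ / lb d x y cK O) := by
  classical
  rw [div_lbK, ← Finset.mul_prod_erase _ _ (Finset.mem_univ q)]
  have h1 := (hr.mul ((hu hg hO (Ov_x h) (Ov_y h)).pow 3)).mul
    (isU_prod (s := Finset.univ.erase q) (f := fun q' => ex d x y q' O) fun q' hq' =>
      exu hg hO q' fun h' => Finset.ne_of_mem_erase hq' (ovu hc (loc hO) h' h))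
  convert h1 using 1
  ring

theorem jac_no (hg : GenP k x y) (hO : O ∈ TT d x y) (h : ∀ q, ¬ Ov d x y q O)
    {r : M} (hr : IsU O (gn (SH x y) O / r)) : IsU O (r⁻¹ ^ 3 / lb d x y cK O) := by
  rw [div_lbK]
  have h1 := (hr.pow 3).mul (isU_prod (s := Finset.univ) (f := fun q' => ex d x y q' O)
    fun q' _ => exu hg hO q' (h q'))
  convert h1 using 1
  ring

section der

variable {K : Type} [Field K] [Algebra k K] (ι : M →ₐ[k] K) (D : Derivation k K (Fin 3 → K))

theorem der_sub (u : M) (c : k) : D (ι (u - algebraMap k M c)) = D (ι u) := by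
  simp

theorem der_div (u v : M) (hv : v ≠ 0) :
    D (ι (u / v)) = ι v⁻¹ • D (ι u) + ι (-(u / v ^ 2)) • D (ι v) := by
  have h : ι v ≠ 0 := (map_ne_zero ι).2 hv
  rw [map_div₀, D.leibniz_div]
  ext i
  simp only [Pi.smul_apply, Pi.sub_apply, Pi.add_apply, smul_eq_mul, map_inv₀, map_neg, map_div₀,
    map_pow]
  field_simp
  ring

theorem der_inv (u : M) : D (ι u⁻¹) = ι (-(u⁻¹ ^ 2)) • D (ι u) := by
  rw [map_inv₀, D.leibniz_inv]
  simp

end der

theorem chart (hP : Plane (k := k) x y) (hc : Cub d) (hg : GenP k x y) (hO : O ∈ TT d x y) :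
    ∃ a b : M, GenP k a b ∧ O ∈ Pts (Algebra.adjoin k {a, b}) ∧ Jac d x y O a b := by
  rcases cases hg hO with ⟨hx, hy, h⟩ | ⟨q, h, hm⟩ | ⟨q, h, hm⟩ | ⟨h, hm⟩ | ⟨h, hm⟩
  · refine ⟨x, y, hg, c0 hg hO hx hy h, ![![1, 0], ![0, 1]], ?_, fun K _ _ ι D => by simp⟩
    simpa using jac_no hg hO h (r := 1) (by simpa using hu hg hO hx hy)
  · obtain ⟨h1, h2⟩ := c1 hc hg hO q h hm
    refine ⟨_, _, g1 hP hg q, h1, ![![(yq d y q)⁻¹, -(xq d x q / yq d y q ^ 2)], ![0, 1]], ?_,
      fun K _ _ ι D => ⟨?_, ?_⟩⟩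
    · simpa using jac_ov hc hg hO h h2
    · rw [der_div ι D _ _ (yq_ne hg q)]
      congr 2
      · exact der_sub ι D _ _
      · exact der_sub ι D _ _
    · simp [yq]
  · obtain ⟨h1, h2⟩ := c2 hc hg hO q h hm
    refine ⟨_, _, g2 hP hg q, h1, ![![-(yq d y q / xq d x q ^ 2), (xq d x q)⁻¹], ![1, 0]], ?_,
      fun K _ _ ι D => ⟨?_, ?_⟩⟩
    · simpa [neg_div] using (jac_ov hc hg hO h h2).neg
    · rw [der_div ι D _ _ (xq_ne hg q), add_comm]
      congr 2
      · exact der_sub ι D _ _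
      · exact der_sub ι D _ _
    · simp [xq]
  · obtain ⟨h1, h2, h3⟩ := c3 hg hO h hm
    refine ⟨_, _, g3 hP hg, h1, ![![-(y / x ^ 2), x⁻¹], ![-(x⁻¹ ^ 2), 0]], ?_,
      fun K _ _ ι D => ⟨?_, ?_⟩⟩
    · convert jac_no hg hO h3 h2 using 2
      simp only [Matrix.cons_val_zero, Matrix.cons_val_one]
      ring
    · rw [der_div ι D _ _ (x_ne hg), add_comm]
      rfl
    · rw [der_inv]
      simp
  · obtain ⟨h1, h2, h3⟩ := c4 hg hO h hm
    refine ⟨_, _, g4 hP hg, h1, ![![y⁻¹, -(x / y ^ 2)], ![0, -(y⁻¹ ^ 2)]], ?_,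
      fun K _ _ ι D => ⟨?_, ?_⟩⟩
    · convert (jac_no hg hO h3 h2).neg using 1
      simp only [Matrix.cons_val_zero, Matrix.cons_val_one]
      ring
    · rw [der_div ι D _ _ (y_ne hg)]
      rfl
    · rw [der_inv]
      simp

end TLocAux

open TLocAux in
theorem tLoc_stmt : TLocStmt := by
  intro hP k M _ _ _ _ _ d x y hc hg
  have hp := hP k M x y hg
  have hch : ∀ O ∈ TT d x y, ∃ a b : M, Plane (k := k) a b ∧ O ∈ Pts (Algebra.adjoin k {a, b}) :=
    fun O hO => by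
      obtain ⟨a, b, h1, h2, -⟩ := chart hp hc hg hO
      exact ⟨a, b, hP k M a b h1, h2⟩
  exact
    { fam := fam hg
      nice :=
        { toFine := fine_mp (fam hg)
          nrm := fun O hO => by
            obtain ⟨a, b, h1, h2⟩ := hch O hO
            exact nrmLoc_stmt k M _ O h1.nrm h2.2.1 h2.2.2 }
      gH := fun _ hO => gH hg hO
      gQ := fun _ hO => gQ hg hO
      exm := fun _ hO => exm hg hO
      exu := fun _ hO => exu hg hO
      exx := fun _ hO => exx hg hO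
      ovu := fun _ hO _ _ => ovu hc hO
      hu := fun _ hO => hu hg hO
      c0 := fun _ hO => c0 hg hO
      c1 := fun _ hO => c1 hc hg hO
      c2 := fun _ hO => c2 hc hg hO
      c3 := fun _ hO => c3 hg hO
      c4 := fun _ hO => c4 hg hO
      g1 := g1 hp hg
      g2 := g2 hp hg
      g3 := g3 hp hg
      g4 := g4 hp hg
      cases := fun _ hO => cases hg hO
      lbne := fun _ hO => lbne hg hO
      lbadd := fun _ hO => lbadd hg hO
      lbsm := fun _ _ => lbsm
      lbH := fun _ => lbH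
      lbE := fun _ => lbE
      lbh := fun _ hO => lbh hg hO
      lbF := fun _ hO => lbF hg hO
      cart := cart hg
      cartH := cartH hg
      cartQ := cartQ hg
      cartE := cartE hg
      deg := deg hg
      chart := fun _ hO => chart hp hc hg hO
      tri := fun O hO => by
        obtain ⟨a, b, h1, h2⟩ := hch O hO
        exact h1.tri O h2
      dim := fun P hO => by
        obtain ⟨a, b, h1, h2⟩ := hch _ hO
        exact h1.dim P h2 }

end Pool.Agent.MP_20d318_ag.BV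

end MrgPart2

-- ======== part 3: formerly Pool.Agent.MP_20d318_ag.BV.XSm
section MrgPart3

/-! Module XSM: the threefold is smooth and normal, and its canonical sheaf is trivial.
At every point the local ring is a localization of a hypersurface in four variables
`(a, b, z, t)`, one derivative of the equation is a unit, and the derivative in `t` is, up to a
unit, the Jacobian that compares the global three-form with `da db dz`. -/

set_option autoImplicit false

namespace Pool.Agent.MP_20d318_ag.BV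

open Pool.Agent.MP_79c67d_ag Pool.Agent.MP_20d318_ag.AG MvPolynomial

namespace XSm

variable {k K M : Type} [Field k] [Field K] [Field M] [Algebra k K] [Algebra k M]

/-- A simple root is algebraic. -/
theorem alg_of {n : ℕ} (c : Fin n → K) (θ : K) (p : MvPolynomial (Option (Fin n)) k)
    (h0 : aeval (fun o : Option (Fin n) => o.elim θ c) p = 0)
    (h1 : aeval (fun o : Option (Fin n) => o.elim θ c) (pderiv none p) ≠ 0) :
    IsAlgebraic (Algebra.adjoin k (Set.range c)) θ := by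
  let R := Algebra.adjoin k (Set.range c)
  let c' : Fin n → R := fun i => ⟨c i, Algebra.subset_adjoin ⟨i, rfl⟩⟩
  let φ : MvPolynomial (Option (Fin n)) k →ₐ[k] Polynomial R :=
    aeval fun o : Option (Fin n) => o.elim Polynomial.X fun i => Polynomial.C (c' i)
  have e1 : ∀ q, Polynomial.aeval θ (φ q) = aeval (fun o : Option (Fin n) => o.elim θ c) q := by
    intro q
    have := comp_aeval_apply (R := k)
      (f := fun o : Option (Fin n) => o.elim Polynomial.X fun i => Polynomial.C (c' i))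
      ((Polynomial.aeval θ : Polynomial R →ₐ[R] K).restrictScalars k) q
    refine this.trans ?_
    congr 2
    funext o
    cases o <;> simp [c', R]
  have e2 : ∀ q, Polynomial.derivative (φ q) = φ (pderiv none q) := by
    intro q
    induction q using MvPolynomial.induction_on with
    | C a => simp [φ, Polynomial.algebraMap_apply]
    | add p q hp hq => simp [hp, hq]
    | mul_X p o hp =>
      rw [map_mul, Polynomial.derivative_mul, hp, Derivation.leibniz]
      cases o <;> simp [φ, mul_comm, add_comm]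
  refine ⟨φ p, fun h => h1 ?_, by rw [e1, h0]⟩
  rw [← e1, ← e2, h]
  simp

/-- Cramer's rule for four vectors in three-space. -/
theorem det_rel (r : Fin 4 → Fin 3 → K) (P : Fin 4 → K) (h : ∑ j, P j • r j = 0) (i : Fin 4) :
    ∃ ε : K, (ε = 1 ∨ ε = -1) ∧ P 3 * (Matrix.of fun m : Fin 3 => r (i.succAbove m)).det =
      ε * P i * (Matrix.of fun m : Fin 3 => r m.castSucc).det := by
  have h0 := congrFun h 0
  have h1 := congrFun h 1
  have h2 := congrFun h 2
  simp only [Fin.sum_univ_four, Pi.add_apply, Pi.smul_apply, smul_eq_mul, Pi.zero_apply] at h0 h1 h2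
  have e : ∀ a b c : Fin 4, (Matrix.of (![r a, r b, r c] : Fin 3 → Fin 3 → K)).det =
      r a 0 * r b 1 * r c 2 - r a 0 * r b 2 * r c 1 - r a 1 * r b 0 * r c 2 + r a 1 * r b 2 * r c 0 +
        r a 2 * r b 0 * r c 1 - r a 2 * r b 1 * r c 0 := fun a b c => by
    simp [Matrix.det_fin_three]
  have f3 : (fun m : Fin 3 => r m.castSucc) = ![r 0, r 1, r 2] := by
    funext m; fin_cases m <;> rfl
  rw [f3, e]
  fin_cases i
  · have f : (fun m : Fin 3 => r ((0 : Fin 4).succAbove m)) = ![r 1, r 2, r 3] := by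
      funext m; fin_cases m <;> rfl
    refine ⟨-1, Or.inr rfl, ?_⟩
    change P 3 * (Matrix.of fun m : Fin 3 => r ((0 : Fin 4).succAbove m)).det = -1 * P 0 * _
    rw [f, e]
    linear_combination (r 1 1 * r 2 2 - r 1 2 * r 2 1) * h0 + (r 1 2 * r 2 0 - r 1 0 * r 2 2) * h1 +
      (r 1 0 * r 2 1 - r 1 1 * r 2 0) * h2
  · have f : (fun m : Fin 3 => r ((1 : Fin 4).succAbove m)) = ![r 0, r 2, r 3] := by
      funext m; fin_cases m <;> rfl
    refine ⟨1, Or.inl rfl, ?_⟩
    change P 3 * (Matrix.of fun m : Fin 3 => r ((1 : Fin 4).succAbove m)).det = 1 * P 1 * _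
    rw [f, e]
    linear_combination (r 0 1 * r 2 2 - r 0 2 * r 2 1) * h0 + (r 0 2 * r 2 0 - r 0 0 * r 2 2) * h1 +
      (r 0 0 * r 2 1 - r 0 1 * r 2 0) * h2
  · have f : (fun m : Fin 3 => r ((2 : Fin 4).succAbove m)) = ![r 0, r 1, r 3] := by
      funext m; fin_cases m <;> rfl
    refine ⟨-1, Or.inr rfl, ?_⟩
    change P 3 * (Matrix.of fun m : Fin 3 => r ((2 : Fin 4).succAbove m)).det = -1 * P 2 * _
    rw [f, e]
    linear_combination (r 0 1 * r 1 2 - r 0 2 * r 1 1) * h0 + (r 0 2 * r 1 0 - r 0 0 * r 1 2) * h1 +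
      (r 0 0 * r 1 1 - r 0 1 * r 1 0) * h2
  · have f : (fun m : Fin 3 => r ((3 : Fin 4).succAbove m)) = ![r 0, r 1, r 2] := by
      funext m; fin_cases m <;> rfl
    refine ⟨1, Or.inl rfl, ?_⟩
    change P 3 * (Matrix.of fun m : Fin 3 => r ((3 : Fin 4).succAbove m)).det = 1 * P 3 * _
    rw [f, e, one_mul]

/-- The conclusion at one point, relative to the coordinates `v` and the factor `W`. -/
def Out (O : Subalgebra k K) (v : Fin 3 → K) (W : K) : Prop :=
  Algebra.FormallySmooth k O ∧ Nrm O ∧ ∀ D : Derivation k K (Fin 3 → K), ∃ c : Fin 3 → K,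
    (∀ i, c i ∈ O) ∧ (∀ a ∈ O, ∃ r : Fin 3 → K, (∀ i, r i ∈ O) ∧ D a = ∑ i, r i • D (c i)) ∧
    ∃ u, IsU O u ∧ W * (Matrix.of fun i => D (c i)).det = u * (Matrix.of fun i => D (v i)).det

theorem Out.of_unit {O : Subalgebra k K} {v : Fin 3 → K} {W W' u : K} (h : Out O v W)
    (hu : IsU O u) (e : W = u * W') : Out O v W' := by
  refine ⟨h.1, h.2.1, fun D => ?_⟩
  obtain ⟨c, h1, h2, u', hu', h3⟩ := h.2.2 D
  refine ⟨c, h1, h2, u' / u, hu'.div hu, ?_⟩
  rw [div_mul_eq_mul_div, eq_div_iff hu.1, ← h3, e]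
  ring

/-- The Jacobian criterion for a hypersurface in four variables. -/
theorem hyp (hE : EtStmt) (hN : EtNStmt) {O : Subalgebra k K} (v : Fin 4 → K)
    (P : MvPolynomial (Fin 4) k) (hind : AlgebraicIndependent k fun m : Fin 3 => v m.castSucc)
    (h0 : aeval v P = 0) (hO : O ∈ Pts (Algebra.adjoin k (Set.range v))) (hF : Frac O) (i : Fin 4)
    (hi : IsU O (aeval v (pderiv i P))) :
    Out O (fun m => v m.castSucc) (aeval v (pderiv 3 P)) := by
  let c : Fin 3 → K := fun m => v (i.succAbove m)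
  let p : MvPolynomial (Option (Fin 3)) k := rename (finSuccEquiv' i) P
  have hv : (fun o : Option (Fin 3) => o.elim (v i) c) ∘ finSuccEquiv' i = v := by
    funext j
    rcases eq_or_ne j i with rfl | hj
    · simp [finSuccEquiv'_at]
    · obtain ⟨m, rfl⟩ := Fin.exists_succAbove_eq hj
      simp [finSuccEquiv'_succAbove, c]
  have e0 : aeval (fun o : Option (Fin 3) => o.elim (v i) c) p = 0 := by
    rw [aeval_rename, hv, h0]
  have e1 : aeval (fun o : Option (Fin 3) => o.elim (v i) c) (pderiv none p) =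
      aeval v (pderiv i P) := by
    rw [← finSuccEquiv'_at i, pderiv_rename (finSuccEquiv' i).injective, aeval_rename, hv]
  have hr : insert (v i) (Set.range c) = Set.range v := by
    ext f
    refine ⟨?_, ?_⟩
    · rintro (rfl | ⟨m, rfl⟩)
      exacts [⟨i, rfl⟩, ⟨_, rfl⟩]
    · rintro ⟨j, rfl⟩
      rcases eq_or_ne j i with rfl | hj
      · exact Or.inl rfl
      · obtain ⟨m, rfl⟩ := Fin.exists_succAbove_eq hj
        exact Or.inr ⟨m, rfl⟩
  have halg : ∀ j, IsAlgebraic (Algebra.adjoin k (Set.range c)) (v j) := fun j => by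
    rcases eq_or_ne j i with rfl | hj
    · exact alg_of c _ p e0 (by rw [e1]; exact hi.1)
    · obtain ⟨m, rfl⟩ := Fin.exists_succAbove_eq hj
      exact isAlgebraic_algebraMap
        (⟨c m, Algebra.subset_adjoin ⟨m, rfl⟩⟩ : Algebra.adjoin k (Set.range c))
  have hc : AlgebraicIndependent k c := trd_stmt k K (Fin 3) _ c hind fun m => halg _
  have hO' : O ∈ Pts (Algebra.adjoin k (insert (v i) (Set.range c))) := by rwa [hr]
  obtain ⟨s1, s2⟩ := hE k K 3 c (v i) p O hc e0 hO' (by rwa [e1])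
  refine ⟨s1, hN k K 3 c (v i) p O hc e0 hO' hF (by rwa [e1]), fun D => ⟨c, fun m =>
    hO.2.1 (Algebra.subset_adjoin ⟨_, rfl⟩), s2 D, ?_⟩⟩
  have hD := der_aeval D v P
  rw [h0, map_zero] at hD
  obtain ⟨ε, hε, he⟩ := det_rel (fun j => D (v j)) (fun j => aeval v (pderiv j P)) hD.symm i
  refine ⟨ε * aeval v (pderiv i P), IsU.mul ?_ hi, he⟩
  rcases hε with rfl | rfl
  exacts [isU_one, isU_one.neg]

/-- A polynomial in the first two of four variables. -/
noncomputable def lf (q : MvPolynomial (Fin 2) k) : MvPolynomial (Fin 4) k := aeval ![X 0, X 1] q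

theorem lf_eval (a b z t : K) (q : MvPolynomial (Fin 2) k) :
    aeval ![a, b, z, t] (lf q) = aeval ![a, b] q := by
  rw [lf, comp_aeval_apply]
  congr 2
  funext i
  fin_cases i <;> simp

theorem lf_der (i : Fin 4) (q : MvPolynomial (Fin 2) k) : pderiv i (lf q) =
    lf (pderiv 0 q) * pderiv i (X 0) + lf (pderiv 1 q) * pderiv i (X 1) := by
  rw [lf, der_aeval]
  simp [Fin.sum_univ_two, lf]

theorem lf_der0 (q : MvPolynomial (Fin 2) k) : pderiv 0 (lf q) = lf (pderiv 0 q) := by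
  rw [lf_der]; simp
theorem lf_der1 (q : MvPolynomial (Fin 2) k) : pderiv 1 (lf q) = lf (pderiv 1 q) := by
  rw [lf_der]; simp
theorem lf_der2 (q : MvPolynomial (Fin 2) k) : pderiv 2 (lf q) = 0 := by
  rw [lf_der]; simp
theorem lf_der3 (q : MvPolynomial (Fin 2) k) : pderiv 3 (lf q) = 0 := by
  rw [lf_der]; simp

/-- The product of linear forms in the third variable. -/
noncomputable def gp (α β : Fin 4 → k) (s : Finset (Fin 4)) : MvPolynomial (Fin 4) k :=
  ∏ j ∈ s, (C (α j) * X 2 + C (β j))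

theorem gp_eval (α β : Fin 4 → k) (s : Finset (Fin 4)) (a b z t : K) :
    aeval ![a, b, z, t] (gp α β s) = ∏ j ∈ s, (algebraMap k K (α j) * z + algebraMap k K (β j)) := by
  simp [gp, map_prod]

theorem gp_der3 (α β : Fin 4 → k) (s : Finset (Fin 4)) : pderiv 3 (gp α β s) = 0 :=
  Finset.prod_induction _ (fun p => pderiv 3 p = 0)
    (fun a b ha hb => by rw [Derivation.leibniz, ha, hb]; simp) (by simp) fun j _ => by simp

theorem gp_der2 (α β : Fin 4 → k) (j : Fin 4) : pderiv 2 (gp α β Finset.univ) =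
    C (α j) * gp α β (Finset.univ.erase j) +
      (C (α j) * X 2 + C (β j)) * pderiv 2 (gp α β (Finset.univ.erase j)) := by
  rw [gp, ← Finset.mul_prod_erase _ _ (Finset.mem_univ j), Derivation.leibniz]
  simp [gp]
  ring

omit [Field K] in
theorem range4 (a b z t : K) : Set.range ![a, b, z, t] = {a, b} ∪ {z, t} := by
  ext f
  simp only [Matrix.range_cons, Matrix.range_empty, Set.mem_union, Set.mem_singleton_iff,
    Set.mem_insert_iff, Set.mem_empty_iff_false]
  tauto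

omit [Field K] in
theorem cast4 (a b z t : K) : (fun m : Fin 3 => ![a, b, z, t] m.castSucc) = ![a, b, z] := by
  funext m; fin_cases m <;> rfl

/-- The two local equations of the threefold. -/
theorem core [CharZero k] (hE : EtStmt) (hN : EtNStmt) {O : Subalgebra k K} (hF : Frac O)
    (hl : IsLocalRing O) {a b z A S : K} (n u : MvPolynomial (Fin 2) k) (α β : Fin 4 → k)
    (τ : Fin 4 → K) (hτ : ∀ j, τ j = algebraMap k K (α j) * z + algebraMap k K (β j))
    (hab : ∀ j j', j ≠ j' → α j * β j' ≠ α j' * β j) (hm : ∀ j, τ j ∈ O)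
    (ht : ∀ j j', τ j ∈ mx O → τ j' ∈ mx O → j = j')
    (hind : AlgebraicIndependent k ![a, b, z]) (hu : IsU O (aeval ![a, b] u))
    (hn : aeval ![a, b] n = aeval ![a, b] u * S) (hS : S ∈ O) (hA0 : A ≠ 0)
    (haa : A ∈ O ∨ A⁻¹ ∈ O) (heq : A ^ 2 * S = ∏ j, τ j)
    (hp : ∀ t ∈ O, t = A ∨ t = A⁻¹ → O ∈ Pts (Algebra.adjoin k ({a, b} ∪ {z, t})))
    (hcrd : S ∈ mx O → IsU O (aeval ![a, b] (pderiv 0 n)) ∨ IsU O (aeval ![a, b] (pderiv 1 n))) :
    Out O ![a, b, z] (A * S) := by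
  have h2 : IsU O (2 : K) := by simpa using isU_intCast (O := O) (n := 2) two_ne_zero
  have hg : ∀ (s : Finset (Fin 4)) (t : K), aeval ![a, b, z, t] (gp α β s) = ∏ j ∈ s, τ j :=
    fun s t => by rw [gp_eval]; exact Finset.prod_congr rfl fun j _ => (hτ j).symm
  have key : ∀ t ∈ O, t = A ∨ t = A⁻¹ → ∀ P : MvPolynomial (Fin 4) k, aeval ![a, b, z, t] P = 0 →
      ∀ i, IsU O (aeval ![a, b, z, t] (pderiv i P)) →
        Out O ![a, b, z] (aeval ![a, b, z, t] (pderiv 3 P)) := fun t h1 h2 P h0 i hi => by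
    have := hyp hE hN ![a, b, z, t] P (by rwa [cast4]) h0 (by rw [range4]; exact hp t h1 h2) hF i hi
    rwa [cast4] at this
  have mem : ∀ t ∈ O, t = A ∨ t = A⁻¹ → ∀ P : MvPolynomial (Fin 4) k, aeval ![a, b, z, t] P ∈ O :=
    fun t h1 h2 P => aeval_mem (fun i => (hp t h1 h2).2.1 (Algebra.subset_adjoin
      (by rw [← range4]; exact ⟨i, rfl⟩))) P
  by_cases hA : A ∈ O
  · let P : MvPolynomial (Fin 4) k := X 3 ^ 2 * lf n - lf u * gp α β Finset.univ
    have h0 : aeval ![a, b, z, A] P = 0 := by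
      simp only [P, map_sub, map_mul, map_pow, lf_eval, hg, aeval_X, hn, ← heq]
      change A ^ 2 * _ - _ = 0
      ring
    have d3 : aeval ![a, b, z, A] (pderiv 3 P) = 2 * aeval ![a, b] u * (A * S) := by
      simp [P, Derivation.leibniz, Derivation.leibniz_pow, lf_der3, gp_der3, lf_eval, hn]
      ring
    suffices h : ∃ i, IsU O (aeval ![a, b, z, A] (pderiv i P)) by
      obtain ⟨i, hi⟩ := h
      exact (key A hA (Or.inl rfl) P h0 i hi).of_unit (h2.mul hu) d3
    by_cases hx : ∃ j, τ j ∈ mx O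
    · obtain ⟨j, hj⟩ := hx
      have hα : α j ≠ 0 := fun h => by
        have h1 := hj
        rw [hτ, h, map_zero, zero_mul, zero_add, const_mem_mx] at h1
        obtain ⟨j', hj'⟩ := exists_ne j
        exact hab j j' hj'.symm (by rw [h, h1, zero_mul, mul_zero])
      have d2 : aeval ![a, b, z, A] (pderiv 2 P) = -(aeval ![a, b] u *
          (algebraMap k K (α j) * ∏ j' ∈ Finset.univ.erase j, τ j' +
            τ j * aeval ![a, b, z, A] (pderiv 2 (gp α β (Finset.univ.erase j))))) := by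
        simp [P, Derivation.leibniz, Derivation.leibniz_pow, lf_der2, gp_der2 α β j, lf_eval, hg,
          ← hτ]
      refine ⟨2, d2 ▸ (hu.mul (IsU.add_mx hl ((isU_const hα).mul (isU_prod fun j' hj' =>
        isU_of_not_mx (hm j') fun h => Finset.ne_of_mem_erase hj' (ht _ _ h hj)))
        (mx_mul_right hj (mem A hA (Or.inl rfl) _)))).neg⟩
    · have hall : IsU O (A ^ 2 * S) :=
        heq ▸ isU_prod fun j _ => isU_of_not_mx (hm j) fun h => hx ⟨j, h⟩
      refine ⟨3, d3 ▸ (h2.mul hu).mul (IsU.of_mul (O.mul_mem hA hS) hA ?_)⟩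
      rwa [show A * S * A = A ^ 2 * S by ring]
  · have hB : A⁻¹ ∈ mx O := ⟨haa.resolve_left hA, fun h => hA (by simpa using h.2.2)⟩
    have hS' : S = A⁻¹ ^ 2 * ∏ j, τ j := by rw [← heq]; field_simp
    let P : MvPolynomial (Fin 4) k := lf n - X 3 ^ 2 * (lf u * gp α β Finset.univ)
    have h0 : aeval ![a, b, z, A⁻¹] P = 0 := by
      simp only [P, map_sub, map_mul, map_pow, lf_eval, hg, aeval_X, hn, hS']
      change _ - A⁻¹ ^ 2 * _ = 0
      ring
    have d3 : aeval ![a, b, z, A⁻¹] (pderiv 3 P) = -(2 * aeval ![a, b] u) * (A * S) := by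
      simp [P, Derivation.leibniz, Derivation.leibniz_pow, lf_der3, gp_der3, lf_eval, hg, ← heq]
      field_simp
    suffices h : ∃ i, IsU O (aeval ![a, b, z, A⁻¹] (pderiv i P)) by
      obtain ⟨i, hi⟩ := h
      exact (key A⁻¹ hB.1 (Or.inr rfl) P h0 i hi).of_unit (h2.mul hu).neg d3
    have hB2 : ∀ Q : MvPolynomial (Fin 4) k, -(A⁻¹ ^ 2 * aeval ![a, b, z, A⁻¹] Q) ∈ mx O := fun Q =>
      mx_neg (mx_mul_right (mx_pow hB two_ne_zero) (mem _ hB.1 (Or.inr rfl) Q))
    rcases hcrd (hS' ▸ mx_mul_right (mx_pow hB two_ne_zero) (O.prod_mem fun j _ => hm j)) with h | h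
    · have d0 : aeval ![a, b, z, A⁻¹] (pderiv 0 P) = aeval ![a, b] (pderiv 0 n) +
          -(A⁻¹ ^ 2 * aeval ![a, b, z, A⁻¹] (pderiv 0 (lf u * gp α β Finset.univ))) := by
        simp only [P, map_sub, lf_der0, lf_eval]
        rw [Derivation.leibniz, Derivation.leibniz_pow]
        simp [sub_eq_add_neg]
      exact ⟨0, d0 ▸ IsU.add_mx hl h (hB2 _)⟩
    · have d1 : aeval ![a, b, z, A⁻¹] (pderiv 1 P) = aeval ![a, b] (pderiv 1 n) +
          -(A⁻¹ ^ 2 * aeval ![a, b, z, A⁻¹] (pderiv 1 (lf u * gp α β Finset.univ))) := by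
        simp only [P, map_sub, lf_der1, lf_eval]
        rw [Derivation.leibniz, Derivation.leibniz_pow]
        simp [sub_eq_add_neg]
      exact ⟨1, d1 ▸ IsU.add_mx hl h (hB2 _)⟩

/-- A local coordinate has a unit among its derivatives. -/
theorem crd_unit {R : Subalgebra k M} {a b : M} (hR : R ∈ Pts (Algebra.adjoin k {a, b}))
    (n : MvPolynomial (Fin 2) k) (h : Crd R (aeval ![a, b] n)) (hm : aeval ![a, b] n ∈ mx R) :
    IsU R (aeval ![a, b] (pderiv 0 n)) ∨ IsU R (aeval ![a, b] (pderiv 1 n)) := by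
  obtain ⟨D, h1, h2⟩ := h hm
  have ha : a ∈ R := hR.2.1 (Algebra.subset_adjoin (by simp))
  have hb : b ∈ R := hR.2.1 (Algebra.subset_adjoin (by simp))
  have hv : ∀ i, (![a, b] : Fin 2 → M) i ∈ R := fun i => by fin_cases i <;> assumption
  by_contra hn
  rw [not_or] at hn
  rw [der_aeval, Fin.sum_univ_two, smul_eq_mul, smul_eq_mul] at h2
  exact h2.not_mx (mx_add hR.1 (mx_mul_right ⟨aeval_mem hv _, hn.1⟩ (h1 _ (hv 0)))
    (mx_mul_right ⟨aeval_mem hv _, hn.2⟩ (h1 _ (hv 1))))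

theorem map_pair (ι : M →ₐ[k] K) (a b : M) (p : MvPolynomial (Fin 2) k) :
    ι (aeval ![a, b] p) = aeval ![ι a, ι b] p := by
  rw [comp_aeval_apply]
  congr 2
  funext i
  fin_cases i <;> rfl

/-- The coordinates of a chart are independent. -/
theorem ind3 (ι : M →ₐ[k] K) {x y a b : M} {ζ : K} (h : AlgebraicIndependent k ![ι x, ι y, ζ])
    (hg : GenP k a b) (O : Subalgebra k K) : AlgebraicIndependent k ![ι a, ι b, zc ζ O] := by
  refine trd_stmt k K (Fin 3) _ _ h ?_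
  have hm : ∀ f ∈ Algebra.adjoin k (Set.range ![ι a, ι b, zc ζ O]),
      IsAlgebraic (Algebra.adjoin k (Set.range ![ι a, ι b, zc ζ O])) f := fun f hf =>
    isAlgebraic_algebraMap (⟨f, hf⟩ : Algebra.adjoin k (Set.range ![ι a, ι b, zc ζ O]))
  have h1 : ∀ f ∈ Algebra.adjoin k {a, b}, ι f ∈ Algebra.adjoin k (Set.range ![ι a, ι b, zc ζ O]) := by
    intro f hf
    obtain ⟨p, rfl⟩ := mem_adjoin_pair.1 hf
    rw [map_pair]
    refine aeval_mem (fun i => Algebra.subset_adjoin ?_) p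
    fin_cases i
    exacts [⟨0, rfl⟩, ⟨1, rfl⟩]
  have h2 : ∀ f : M, IsAlgebraic (Algebra.adjoin k (Set.range ![ι a, ι b, zc ζ O])) (ι f) := by
    intro f
    obtain ⟨r, hr, s, hs, rfl⟩ := IntermediateField.mem_adjoin_iff_div.1
      (show f ∈ IntermediateField.adjoin k {a, b} from hg.top ▸ IntermediateField.mem_top)
    rw [map_div₀, div_eq_mul_inv]
    exact (hm _ (h1 r hr)).mul (hm _ (h1 s hs)).inv
  have h3 : IsAlgebraic (Algebra.adjoin k (Set.range ![ι a, ι b, zc ζ O])) (zc ζ O) :=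
    hm _ (Algebra.subset_adjoin ⟨2, rfl⟩)
  intro i
  fin_cases i
  · exact h2 x
  · exact h2 y
  · change IsAlgebraic _ ζ
    by_cases hz : ζ ∈ O
    · have e : zc ζ O = ζ := if_pos hz
      exact (congrArg _ e).mp h3
    · have e : (zc ζ O)⁻¹ = ζ := by rw [zc, if_neg hz, inv_inv]
      exact (congrArg _ e).mp h3.inv

theorem der_zc (D : Derivation k K (Fin 3 → K)) (ζ : K) (O : Subalgebra k K) :
    ∃ ε : K, IsU O ε ∧ D (zc ζ O) = (ε / eta ζ O ^ 2) • D ζ := by
  by_cases hz : ζ ∈ O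
  · exact ⟨1, isU_one, by simp [zc, eta, hz]⟩
  · refine ⟨-1, isU_one.neg, ?_⟩
    rw [zc, eta, if_neg hz, if_neg hz, Derivation.leibniz_inv]
    congr 1
    rw [neg_div, one_div, inv_pow]

theorem cK_eq : (cK : Lam ℤ) = cR + cE none := by
  refine Prod.ext (by simp [cK, cR, cE]) (funext fun q => ?_)
  cases q <;> simp [cK, cR, cE]

variable [CharZero k] {d : Dat k} {x y : M} {ι : M →ₐ[k] K} {l : k} {ζ w : K}

/-- The local statement. -/
theorem loc (hE : EtStmt) (hN : EtNStmt) (H : XAll d x y ι l ζ w) {O : Subalgebra k K}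
    (hO : O ∈ XX d x y ι ζ w) : ∃ a b : M, Jac d x y (pr ι (TT d x y) O) a b ∧
      Out O ![ι a, ι b, zc ζ O] (AA d x y ι ζ w O * (sX d x y ι 0 O * sX d x y ι 1 O)) := by
  have L := H.loc
  have hR := L.maps.mem hO
  obtain ⟨a, b, hg, hP, hJ⟩ := H.t.loc.chart _ hR
  have m0 := H.t.pen.mem _ hR 0
  have m1 := H.t.pen.mem _ hR 1
  have hS := (pr ι (TT d x y) O).mul_mem m0 m1
  have hc : Crd (pr ι (TT d x y) O)
      (sT d x y 0 (pr ι (TT d x y) O) * sT d x y 1 (pr ι (TT d x y) O)) := by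
    rcases H.t.pen.one _ hR with h | h
    · exact (H.t.pen.crd _ hR 1).of_unit hP.1 m1 h
    · rw [mul_comm]
      exact (H.t.pen.crd _ hR 0).of_unit hP.1 m0
        (IsU.of_mul m1 (Subalgebra.pow_mem _ (H.t.loc.exm _ hR none) 2) h)
  obtain ⟨N, hN', U, hU', hU, e⟩ := hP.2.2 _ hS
  obtain ⟨n, rfl⟩ := mem_adjoin_pair.1 hN'
  obtain ⟨u, rfl⟩ := mem_adjoin_pair.1 hU'
  have e' : aeval ![a, b] n = aeval ![a, b] u *
      (sT d x y 0 (pr ι (TT d x y) O) * sT d x y 1 (pr ι (TT d x y) O)) := by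
    rw [e, mul_div_cancel₀ _ hU.1]
  have eS : sX d x y ι 0 O * sX d x y ι 1 O =
      ι (sT d x y 0 (pr ι (TT d x y) O) * sT d x y 1 (pr ι (TT d x y) O)) := (map_mul ι _ _).symm
  obtain ⟨α, β, hτ, hab⟩ := L.tp O
  refine ⟨a, b, hJ, core hE hN (L.fine.frac hO) (mp_loc hO) n u α β (fun j => tau l ζ j O) hτ hab
    (L.tm O hO) (L.t1 O hO) (ind3 ι L.ind hg O) (map_pair ι a b u ▸ L.maps.isU_up hO hU) ?_
    (O.mul_mem (L.sm O hO 0) (L.sm O hO 1)) (L.ane O hO) (L.aa O hO) (L.eqn O hO) ?_ ?_⟩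
  · rw [← map_pair, ← map_pair, e', map_mul, eS]
  · intro t ht h
    have := Pts_up ι hP (L.pts O hO t ht h)
    rwa [Set.image_pair] at this
  · intro h
    rw [eS, L.maps.mx_up hO hS] at h
    have := crd_unit hP n (e' ▸ hc.of_unit hP.1 hS hU) (e' ▸ mx_mul_left hU.2.1 h)
    rw [← map_pair, ← map_pair]
    exact this.imp (L.maps.isU_up hO) (L.maps.isU_up hO)

end XSm

open XSm in
theorem xSm_stmt : XSmStmt := by
  intro hE hN k M K _ _ _ _ _ _ _ d x y ι l ζ w H
  refine ⟨fun O hO => ?_, fun O hO => ?_, fun D hD O hO => ?_⟩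
  · obtain ⟨a, b, -, h⟩ := loc hE hN H hO
    exact h.1
  · obtain ⟨a, b, -, h⟩ := loc hE hN H hO
    exact h.2.1
  obtain ⟨a, b, ⟨J, hJ, hJ'⟩, h⟩ := loc hE hN H hO
  obtain ⟨c, h1, h2, u, hu, h3⟩ := h.2.2 D
  refine ⟨c, h1, h2, ?_⟩
  have L := H.loc
  have hR := L.maps.mem hO
  obtain ⟨ja, jb⟩ := hJ' K ι D
  obtain ⟨ε, hε, jz⟩ := der_zc D ζ O
  have d0 : D (ι x) = Pi.single 0 1 := hD 0
  have d1 : D (ι y) = Pi.single 1 1 := hD 1
  have d2 : D ζ = Pi.single 2 1 := hD 2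
  have hdet : (Matrix.of fun i => D (![ι a, ι b, zc ζ O] i)).det =
      ι (J 0 0 * J 1 1 - J 0 1 * J 1 0) * (ε / eta ζ O ^ 2) := by
    simp [Matrix.det_fin_three, ja, jb, jz, d0, d1, d2]
    ring
  have hU := L.maps.isU_up hO hJ
  rw [cK_eq, H.t.loc.lbadd _ hR, H.t.loc.lbE, map_div₀, map_mul] at hU
  have n1 : eta ζ O ≠ 0 := (L.gZ O hO).ne
  have n2 : ι (lb d x y cR (pr ι (TT d x y) O)) ≠ 0 := (map_ne_zero ι).2 (H.t.loc.lbne _ hR _)
  have n3 : ι (ex d x y none (pr ι (TT d x y) O)) ≠ 0 :=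
    (map_ne_zero ι).2 (H.t.loc.lbE (pr ι (TT d x y) O) none ▸ H.t.loc.lbne _ hR _)
  have n4 := L.sne O hO 0
  have n5 : ι (fg d x y 1) ≠ 0 := (map_ne_zero ι).2 (H.t.pen.ne 1)
  have n6 := L.wne
  have e1 : sX d x y ι 1 O = ι (fg d x y 1) * ι (lb d x y cR (pr ι (TT d x y) O)) := map_mul ι _ _
  have e2 : AA d x y ι ζ w O =
      w * ι (ex d x y none (pr ι (TT d x y) O)) / (sX d x y ι 0 O * eta ζ O ^ 2) := rfl
  rw [hdet, e1, e2] at h3
  have e3 : w * ι (fg d x y 1) * (Matrix.of fun i => D (c i)).det =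
      u * ε * (ι (J 0 0 * J 1 1 - J 0 1 * J 1 0) / (ι (lb d x y cR (pr ι (TT d x y) O)) *
        ι (ex d x y none (pr ι (TT d x y) O)))) := by
    field_simp at h3 ⊢
    linear_combination h3
  exact e3 ▸ (hu.mul hε).mul hU

end Pool.Agent.MP_20d318_ag.BV

end MrgPart3

-- ======== part 4: formerly Pool.Agent.MP_20d318_ag.BV.XPl
section MrgPart4

/-! The prime divisors of the threefold. -/

set_option autoImplicit false

namespace Pool.Agent.MP_20d318_ag.BV

open Pool.Agent.MP_79c67d_ag Pool.Agent.MP_20d318_ag.AG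

namespace XPlAux

section general

variable {k K : Type} [Field k] [Field K] [Algebra k K] {O O' S : Subalgebra k K} {G : Set K}
  {u A : K}

/-- Two points of a chart agree if the generators are congruent to elements of a subring on which
the maximal ideals agree. -/
theorem ext0 (h : O ∈ Pts (Algebra.adjoin k G)) (h' : O' ∈ Pts (Algebra.adjoin k G))
    (hS : S ≤ O) (hS' : S ≤ O') (hm : ∀ s ∈ S, s ∈ mx O ↔ s ∈ mx O')
    (hG : ∀ g ∈ G, ∃ s ∈ S, g - s ∈ mx O ∧ g - s ∈ mx O') : O = O' := by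
  have key : ∀ b ∈ Algebra.adjoin k G, ∃ s ∈ S, b - s ∈ mx O ∧ b - s ∈ mx O' := by
    intro b hb
    induction hb using Algebra.adjoin_induction with
    | mem g hg => exact hG g hg
    | algebraMap c =>
      exact ⟨_, S.algebraMap_mem c, by simpa using zero_mem_mx, by simpa using zero_mem_mx⟩
    | add a b _ _ iha ihb =>
      obtain ⟨s, hs, h1, h2⟩ := iha
      obtain ⟨t, ht, h3, h4⟩ := ihb
      have e : a + b - (s + t) = (a - s) + (b - t) := by ring
      exact ⟨s + t, S.add_mem hs ht, e ▸ mx_add h.1 h1 h3, e ▸ mx_add h'.1 h2 h4⟩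
    | mul a b _ hb iha ihb =>
      obtain ⟨s, hs, h1, h2⟩ := iha
      obtain ⟨t, ht, h3, h4⟩ := ihb
      have e : a * b - s * t = (a - s) * b + s * (b - t) := by ring
      exact ⟨s * t, S.mul_mem hs ht,
        e ▸ mx_add h.1 (mx_mul_right h1 (h.2.1 hb)) (mx_mul_left (hS hs) h3),
        e ▸ mx_add h'.1 (mx_mul_right h2 (h'.2.1 hb)) (mx_mul_left (hS' hs) h4)⟩
  refine Pts_ext h h' fun b hb => ?_
  obtain ⟨s, hs, h1, h2⟩ := key b hb
  have e1 : s = b - (b - s) := by ring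
  have e2 : b = (b - s) + s := by ring
  constructor
  · intro h3
    have h4 := (hm s hs).1 (e1 ▸ mx_sub' h.1 h3 h1)
    exact e2 ▸ mx_add h'.1 h2 h4
  · intro h3
    have h4 := (hm s hs).2 (e1 ▸ mx_sub' h'.1 h3 h2)
    exact e2 ▸ mx_add h.1 h1 h4

theorem aev_mem (hS : S ≤ O) (hu : u ∈ O) (p : Polynomial S) : Polynomial.aeval u p ∈ O := by
  rw [Polynomial.aeval_eq_sum_range]
  exact O.sum_mem fun i _ => O.mul_mem (hS (p.coeff i).2) (O.pow_mem hu i)

theorem aev_mx (hO : IsLocalRing O) (hu : u ∈ O) {p : Polynomial S}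
    (h : ∀ i, (p.coeff i : K) ∈ mx O) : Polynomial.aeval u p ∈ mx O := by
  rw [Polynomial.aeval_eq_sum_range]
  exact mx_sum hO fun i _ => mx_mul_right (h i) (O.pow_mem hu i)

theorem aev_iff (hO : IsLocalRing O) (hS : S ≤ O) (hu : u ∈ O) (hn : ¬ AlgM O S u)
    (p : Polynomial S) : Polynomial.aeval u p ∈ mx O ↔ ∀ i, (p.coeff i : K) ∈ mx O := by
  refine ⟨fun h i => by_contra fun hi => hn ⟨p.map (algebraMap S K), fun j => ?_, ⟨i, ?_⟩, ?_⟩,
    aev_mx hO hu⟩
  · rw [Polynomial.coeff_map]; exact (p.coeff j).2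
  · rw [Polynomial.coeff_map]; exact isU_of_not_mx (hS (p.coeff i).2) hi
  · rwa [Polynomial.eval_map_algebraMap]

/-- The polynomials in `u` with coefficients in `S`. -/
noncomputable def pu (S : Subalgebra k K) (u : K) : Subalgebra k K :=
  (Polynomial.aeval (R := S) u).range.restrictScalars k

theorem mem_pu {b : K} : b ∈ pu S u ↔ ∃ p : Polynomial S, Polynomial.aeval u p = b := Iff.rfl

theorem le_pu {s : K} (hs : s ∈ S) : s ∈ pu S u := ⟨Polynomial.C ⟨s, hs⟩, by simp⟩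

theorem self_pu : u ∈ pu S u := ⟨Polynomial.X, by simp⟩

theorem pu_le (hS : S ≤ O) (hu : u ∈ O) : pu S u ≤ O := by
  rintro _ ⟨p, rfl⟩
  exact aev_mem hS hu p

theorem ext1 (h : O ∈ Pts (Algebra.adjoin k G)) (h' : O' ∈ Pts (Algebra.adjoin k G))
    (hS : S ≤ O) (hS' : S ≤ O') (hm : ∀ s ∈ S, s ∈ mx O ↔ s ∈ mx O') (hu : u ∈ O) (hu' : u ∈ O')
    (hn : ¬ AlgM O S u) (hn' : ¬ AlgM O' S u)
    (hG : ∀ g ∈ G, ∃ s ∈ pu S u, g - s ∈ mx O ∧ g - s ∈ mx O') : O = O' := by
  refine ext0 h h' (pu_le hS hu) (pu_le hS' hu') ?_ hG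
  rintro _ ⟨p, rfl⟩
  change Polynomial.aeval u p ∈ mx O ↔ Polynomial.aeval u p ∈ mx O'
  rw [aev_iff h.1 hS hu hn, aev_iff h'.1 hS' hu' hn']
  exact forall_congr' fun i => hm _ (p.coeff i).2

theorem parity {L : Type} [Field L] {p q g : Polynomial L} (hg : g.natDegree = 3)
    (h : p ^ 2 - q ^ 2 * g = 0) : p = 0 ∧ q = 0 := by
  have hg0 : g ≠ 0 := by rintro rfl; simp at hg
  have h1 : p ^ 2 = q ^ 2 * g := sub_eq_zero.1 h
  have hq : q = 0 := by
    by_contra hq
    have h2 := congrArg Polynomial.natDegree h1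
    rw [Polynomial.natDegree_mul (pow_ne_zero 2 hq) hg0, Polynomial.natDegree_pow,
      Polynomial.natDegree_pow, hg] at h2
    omega
  refine ⟨?_, hq⟩
  rw [hq] at h1
  simpa using h1

/-- The norm argument for the double cover. -/
theorem quad_iff (hO : IsLocalRing O) (hS : S ≤ O) (hu : u ∈ O) (hA : A ∈ O) (hn : ¬ AlgM O S u)
    {g : Polynomial S} (hd : g.natDegree ≤ 3) (hc : IsU O (g.coeff 3 : K))
    (he : A ^ 2 = Polynomial.aeval u g) (p q : Polynomial S) :
    Polynomial.aeval u p + Polynomial.aeval u q * A ∈ mx O ↔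
      (∀ i, (p.coeff i : K) ∈ mx O) ∧ ∀ i, (q.coeff i : K) ∈ mx O := by
  refine ⟨fun h => ?_, fun h => mx_add hO (aev_mx hO hu h.1) (mx_mul_right (aev_mx hO hu h.2) hA)⟩
  let φ : S →+* IsLocalRing.ResidueField O := ((resid O).comp (Subalgebra.inclusion hS)).toRingHom
  have hφ : ∀ s : S, φ s = 0 ↔ (s : K) ∈ mx O := fun s => by
    rw [← resid_loc.eq_zero_iff (hS s.2), evO_of_mem _ (hS s.2)]; rfl
  have hz : ∀ r : Polynomial S, r.map φ = 0 ↔ ∀ i, (r.coeff i : K) ∈ mx O := fun r => by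
    rw [Polynomial.ext_iff]
    exact forall_congr' fun i => by rw [Polynomial.coeff_map, Polynomial.coeff_zero]; exact hφ _
  have h1 : Polynomial.aeval u (p ^ 2 - q ^ 2 * g) ∈ mx O := by
    have e : Polynomial.aeval u (p ^ 2 - q ^ 2 * g) =
        (Polynomial.aeval u p + Polynomial.aeval u q * A) *
          (Polynomial.aeval u p - Polynomial.aeval u q * A) := by
      rw [map_sub, map_mul, map_pow, map_pow, ← he]; ring
    rw [e]
    exact mx_mul_right h (O.sub_mem (aev_mem hS hu p) (O.mul_mem (aev_mem hS hu q) hA))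
  have h2 := (hz _).2 ((aev_iff hO hS hu hn _).1 h1)
  rw [Polynomial.map_sub, Polynomial.map_mul, Polynomial.map_pow, Polynomial.map_pow] at h2
  have h3 : (g.map φ).natDegree = 3 := by
    refine Polynomial.natDegree_eq_of_le_of_coeff_ne_zero (Polynomial.natDegree_map_le.trans hd) ?_
    rw [Polynomial.coeff_map]
    exact fun h0 => hc.not_mx ((hφ _).1 h0)
  exact ⟨(hz _).1 (parity h3 h2).1, (hz _).1 (parity h3 h2).2⟩

theorem ext2 (h : O ∈ Pts (Algebra.adjoin k ((S : Set K) ∪ {u, A})))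
    (h' : O' ∈ Pts (Algebra.adjoin k ((S : Set K) ∪ {u, A})))
    (hm : ∀ s ∈ S, s ∈ mx O ↔ s ∈ mx O') (hn : ¬ AlgM O S u) (hn' : ¬ AlgM O' S u)
    {g : Polynomial S} (hd : g.natDegree ≤ 3) (hc : IsU S (g.coeff 3 : K))
    (he : A ^ 2 = Polynomial.aeval u g) : O = O' := by
  have hB : ∀ a ∈ (S : Set K) ∪ {u, A}, a ∈ Algebra.adjoin k ((S : Set K) ∪ {u, A}) :=
    fun a ha => Algebra.subset_adjoin ha
  have hS : S ≤ Algebra.adjoin k ((S : Set K) ∪ {u, A}) := fun a ha => hB a (Or.inl ha)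
  have hu := hB u (Or.inr (by simp))
  have hA := hB A (Or.inr (by simp))
  have key : ∀ b ∈ Algebra.adjoin k ((S : Set K) ∪ {u, A}), ∃ p q : Polynomial S,
      b = Polynomial.aeval u p + Polynomial.aeval u q * A := by
    intro b hb
    induction hb using Algebra.adjoin_induction with
    | mem a ha =>
      rcases ha with ha | rfl | rfl
      · exact ⟨Polynomial.C ⟨a, ha⟩, 0, by simp⟩
      · exact ⟨Polynomial.X, 0, by simp⟩
      · exact ⟨0, 1, by simp⟩
    | algebraMap c => exact ⟨Polynomial.C ⟨_, S.algebraMap_mem c⟩, 0, by simp⟩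
    | add a b _ _ iha ihb =>
      obtain ⟨p, q, rfl⟩ := iha
      obtain ⟨p', q', rfl⟩ := ihb
      exact ⟨p + p', q + q', by simp only [map_add]; ring⟩
    | mul a b _ _ iha ihb =>
      obtain ⟨p, q, rfl⟩ := iha
      obtain ⟨p', q', rfl⟩ := ihb
      exact ⟨p * p' + q * q' * g, p * q' + q * p', by
        simp only [map_add, map_mul, ← he]; ring⟩
  refine Pts_ext h h' fun b hb => ?_
  obtain ⟨p, q, rfl⟩ := key b hb
  rw [quad_iff h.1 (hS.trans h.2.1) (h.2.1 hu) (h.2.1 hA) hn hd (hc.mono (hS.trans h.2.1)) he,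
    quad_iff h'.1 (hS.trans h'.2.1) (h'.2.1 hu) (h'.2.1 hA) hn' hd (hc.mono (hS.trans h'.2.1)) he]
  exact and_congr (forall_congr' fun i => hm _ (p.coeff i).2)
    (forall_congr' fun i => hm _ (q.coeff i).2)

theorem ext3 (h : O ∈ Pts (Algebra.adjoin k ((S : Set K) ∪ {u, A})))
    (h' : O' ∈ Pts (Algebra.adjoin k ((S : Set K) ∪ {u, A})))
    (hm : ∀ s ∈ S, s ∈ mx O ↔ s ∈ mx O') (hn : ¬ AlgM O S u) (hn' : ¬ AlgM O' S u)
    {s : K} (hs : IsU S s) (c : k) (he : A ^ 2 = s * (u * (u - 1) * (u - algebraMap k K c))) :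
    O = O' := by
  let g : Polynomial S := Polynomial.C ⟨s, hs.mem⟩ *
    (Polynomial.X * (Polynomial.X - 1) * (Polynomial.X - Polynomial.C (algebraMap k S c)))
  have g1 : g.natDegree ≤ 3 := by
    simp only [g]
    compute_degree
  have g2 : g.coeff 3 = ⟨s, hs.mem⟩ := by
    simp only [g]
    compute_degree!
  refine ext2 h h' hm hn hn' g1 (by rw [g2]; exact hs) ?_
  rw [he]
  simp only [g, map_mul, map_sub, map_one, Polynomial.aeval_X, Polynomial.aeval_C]
  rfl

end general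

section geom

variable {k M K : Type} [Field k] [Field M] [Field K] [Algebra k M] [Algebra k K]
  {d : Dat k} {x y : M} {ι : M →ₐ[k] K} {l : k} {ζ w : K} {O O' : Subalgebra k K}

theorem eta_congr (h : ζ ∈ O ↔ ζ ∈ O') : eta ζ O' = eta ζ O := by
  by_cases hz : ζ ∈ O
  · simp [eta, hz, h.1 hz]
  · simp [eta, hz, mt h.2 hz]

theorem zc_congr (h : ζ ∈ O ↔ ζ ∈ O') : zc ζ O' = zc ζ O := by
  by_cases hz : ζ ∈ O
  · simp [zc, hz, h.1 hz]
  · simp [zc, hz, mt h.2 hz]

theorem tau_congr (h : ζ ∈ O ↔ ζ ∈ O') (j : Fin 4) : tau l ζ j O' = tau l ζ j O := by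
  unfold tau; rw [eta_congr h]

theorem sX_congr (hR : pr ι (TT d x y) O' = pr ι (TT d x y) O) (i : Fin 2) :
    sX d x y ι i O' = sX d x y ι i O := by
  unfold sX up; rw [hR]

theorem AA_congr (h : ζ ∈ O ↔ ζ ∈ O') (hR : pr ι (TT d x y) O' = pr ι (TT d x y) O) :
    AA d x y ι ζ w O' = AA d x y ι ζ w O := by
  unfold AA; rw [sX_congr hR, eta_congr h]; unfold up; rw [hR]

/-- The branch point decides the chart of the line. -/
theorem zeta_mem (hL : XLoc d x y ι l ζ w) (hO : O ∈ XX d x y ι ζ w) {j : Fin 4}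
    (ht : tau l ζ j O ∈ mx O) : ζ ∈ O ↔ j ≠ 3 := by
  constructor
  · rintro hz rfl
    exact one_not_mem_mx (by simpa [tau, eta, hz] using ht)
  · intro hj
    by_contra hz
    have h1 : ζ⁻¹ ∈ O := by simpa [zc, hz] using hL.zm O hO
    have h2 : tau l ζ 3 O ∈ mx O := by
      have e : tau l ζ 3 O = ζ⁻¹ := by simp [tau, eta, hz]
      rw [e]
      exact ⟨h1, fun hu => hz (by simpa using hu.2.2)⟩
    exact hj (hL.t1 O hO j 3 ht h2)

theorem zc_const (hL : XLoc d x y ι l ζ w) {j : Fin 4} (ht : tau l ζ j O ∈ mx O) :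
    ∃ c e : k, zc ζ O - algebraMap k K c = algebraMap k K e * tau l ζ j O := by
  obtain ⟨α, β, h1, h2⟩ := hL.tp O
  have ha : α j ≠ 0 := fun ha => by
    rw [h1 j, ha, map_zero, zero_mul, zero_add, const_mem_mx] at ht
    obtain ⟨j', hj⟩ := exists_ne j
    exact h2 j j' hj.symm (by rw [ha, ht, zero_mul, mul_zero])
  refine ⟨-β j / α j, (α j)⁻¹, ?_⟩
  have : algebraMap k K (α j) ≠ 0 := by simpa using ha
  rw [h1 j, map_div₀, map_neg, map_inv₀]
  field_simp
  ring

theorem algM_zc (hL : XLoc d x y ι l ζ w) {j : Fin 4} (ht : tau l ζ j O ∈ mx O)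
    (B : Subalgebra k K) : AlgM O B (zc ζ O) := by
  obtain ⟨c, e, h⟩ := zc_const hL ht
  exact algM_of_mx (c := c) (h ▸ mx_mul_left (O.algebraMap_mem e) ht)

theorem map_le (hL : XLoc d x y ι l ζ w) (hO : O ∈ XX d x y ι ζ w) :
    (pr ι (TT d x y) O).map ι ≤ O := by
  rintro _ ⟨a, ha, rfl⟩
  exact hL.maps.mem_up hO ha

theorem map_le' (hL : XLoc d x y ι l ζ w) (hO' : O' ∈ XX d x y ι ζ w)
    (hR : pr ι (TT d x y) O' = pr ι (TT d x y) O) : (pr ι (TT d x y) O).map ι ≤ O' :=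
  hR ▸ map_le hL hO'

theorem map_mx (hL : XLoc d x y ι l ζ w) (hO : O ∈ XX d x y ι ζ w) (hO' : O' ∈ XX d x y ι ζ w)
    (hR : pr ι (TT d x y) O' = pr ι (TT d x y) O) :
    ∀ s ∈ (pr ι (TT d x y) O).map ι, s ∈ mx O ↔ s ∈ mx O' := by
  rintro _ ⟨a, ha, rfl⟩
  change ι a ∈ mx O ↔ ι a ∈ mx O'
  rw [hL.maps.mx_up hO ha, hL.maps.mx_up hO' (hR ▸ ha), hR]

theorem sX_mx (h : XAll d x y ι l ζ w) (hO : O ∈ XX d x y ι ζ w) (i : Fin 2) :
    sX d x y ι i O ∈ mx O ↔ sT d x y i (pr ι (TT d x y) O) ∈ mx (pr ι (TT d x y) O) :=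
  h.loc.maps.mx_up hO (h.t.pen.mem _ (h.loc.maps.mem hO) i)

theorem sX_top (h : XAll d x y ι l ζ w) (hO : O ∈ XX d x y ι ζ w) (hR : pr ι (TT d x y) O = ⊤)
    (i : Fin 2) : IsU O (sX d x y ι i O) := by
  refine isU_of_not_mx (h.loc.sm O hO i) fun hm => h.loc.sne O hO i ?_
  have h1 := (sX_mx h hO i).1 hm
  unfold sX up
  rw [hR] at h1 ⊢
  rw [mem_mx_top.1 h1, map_zero]

theorem prod_tau_mx (hL : XLoc d x y ι l ζ w) (hO : O ∈ XX d x y ι ζ w) {j : Fin 4}
    (ht : tau l ζ j O ∈ mx O) : ∏ j, tau l ζ j O ∈ mx O := by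
  rw [← Finset.mul_prod_erase _ _ (Finset.mem_univ j)]
  exact mx_mul_right ht (O.prod_mem fun j' _ => hL.tm O hO j')

theorem eqn_inv (hL : XLoc d x y ι l ζ w) (hO : O ∈ XX d x y ι ζ w) :
    sX d x y ι 0 O * sX d x y ι 1 O = (AA d x y ι ζ w O)⁻¹ ^ 2 * ∏ j, tau l ζ j O := by
  have := hL.ane O hO
  rw [← hL.eqn O hO]
  field_simp

theorem ss_mx (hL : XLoc d x y ι l ζ w) (hO : O ∈ XX d x y ι ζ w) {i : Fin 2}
    (hs : sX d x y ι i O ∈ mx O) : sX d x y ι 0 O * sX d x y ι 1 O ∈ mx O := by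
  fin_cases i
  · exact mx_mul_right hs (hL.sm O hO 1)
  · exact mx_mul_left (hL.sm O hO 0) hs

/-- On the ramification divisors over the branch points `A` vanishes. -/
theorem A_mx (hL : XLoc d x y ι l ζ w) (hO : O ∈ XX d x y ι ζ w) {j : Fin 4}
    (ht : tau l ζ j O ∈ mx O) (hs : ∀ i, IsU O (sX d x y ι i O)) : AA d x y ι ζ w O ∈ mx O := by
  have h1 := prod_tau_mx hL hO ht
  have hu := (hs 0).mul (hs 1)
  rcases hL.aa O hO with hA | hA
  · rw [← hL.eqn O hO] at h1
    exact mx_of_pow hA ((mx_or_of_mul (O.pow_mem hA 2) hu.mem h1).resolve_right hu.not_mx)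
  · exact absurd (eqn_inv hL hO ▸ mx_mul_left (O.pow_mem hA 2) h1) hu.not_mx

/-- On the ramification divisors over the branch curves `1 / A` vanishes. -/
theorem Ainv_mx (hL : XLoc d x y ι l ζ w) (hO : O ∈ XX d x y ι ζ w) {i : Fin 2}
    (hs : sX d x y ι i O ∈ mx O) (ht : ∀ j, IsU O (tau l ζ j O)) :
    (AA d x y ι ζ w O)⁻¹ ∈ mx O := by
  have h1 := ss_mx hL hO hs
  have hu : IsU O (∏ j, tau l ζ j O) := isU_prod fun j _ => ht j
  rcases hL.aa O hO with hA | hA
  · exact absurd (hL.eqn O hO ▸ mx_mul_left (O.pow_mem hA 2) h1) hu.not_mx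
  · rw [eqn_inv hL hO] at h1
    exact mx_of_pow hA ((mx_or_of_mul (O.pow_mem hA 2) hu.mem h1).resolve_right hu.not_mx)

theorem A_unit (hL : XLoc d x y ι l ζ w) (hO : O ∈ XX d x y ι ζ w)
    (hs : ∀ i, IsU O (sX d x y ι i O)) (ht : ∀ j, IsU O (tau l ζ j O)) :
    IsU O (AA d x y ι ζ w O) := by
  have hu : IsU O (∏ j, tau l ζ j O) := isU_prod fun j _ => ht j
  have hv := (hs 0).mul (hs 1)
  rcases hL.aa O hO with hA | hA
  · rw [← hL.eqn O hO] at hu
    exact IsU.of_pow hA two_ne_zero (IsU.of_mul (O.pow_mem hA 2) hv.mem hu)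
  · rw [eqn_inv hL hO] at hv
    simpa using (IsU.of_pow hA two_ne_zero (IsU.of_mul (O.pow_mem hA 2) hu.mem hv)).inv

theorem zeta_of_units (ht : ∀ j, IsU O (tau l ζ j O)) : ζ ∈ O := by
  by_contra hz
  have h1 := (ht 3).inv_mem
  simp [tau, eta, hz] at h1

theorem gen_cases {R : Subalgebra k M} {a b g : K} (hg : g ∈ ι '' R ∪ {a, b}) :
    g ∈ R.map ι ∨ g = a ∨ g = b := by
  rcases hg with hg | hg | hg
  exacts [Or.inl hg, Or.inr (Or.inl hg), Or.inr (Or.inr hg)]

variable {P P' : Place k K}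

theorem not_dim (hH : HtOneStmt) (hL : XLoc d x y ι l ζ w) (hP : plO P ∈ XX d x y ι ζ w) :
    ¬ Dim (plO P) 1 := by
  obtain ⟨G, h1, h2, h3⟩ := hL.fine.chart hP
  exact hH k K G 1 ![ι x, ι y, ζ] P h1 h2 hL.ind h3

theorem pl (hH : HtOneStmt) (h : XAll d x y ι l ζ w) (hP : plO P ∈ XX d x y ι ζ w) :
    pr ι (TT d x y) (plO P) = ⊤ ∨ ∃ P₀ : Place k M, pr ι (TT d x y) (plO P) = plO P₀ := by
  rcases h.t.loc.tri _ (h.loc.maps.mem hP) with h1 | h1 | ⟨P₀, h1⟩
  · exact Or.inl h1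
  · exact absurd (h.loc.dim _ hP 0 h1.dim) (not_dim hH h.loc hP)
  · exact Or.inr ⟨P₀, h1.symm⟩

theorem dim_pr (h : XAll d x y ι l ζ w) (hO : O ∈ XX d x y ι ζ w) {P₀ : Place k M}
    (hR : pr ι (TT d x y) O = plO P₀) : Dim (pr ι (TT d x y) O) 1 := by
  have := h.loc.maps.mem hO
  rw [hR] at this ⊢
  exact (h.t.loc.dim P₀ this).2

theorem top (hH : HtOneStmt) (h : XAll d x y ι l ζ w) {j : Fin 4} (hP : plO P ∈ XX d x y ι ζ w)
    (ht : tau l ζ j (plO P) ∈ mx (plO P)) (hs : ∀ i, IsU (plO P) (sX d x y ι i (plO P))) :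
    pr ι (TT d x y) (plO P) = ⊤ := by
  refine (pl hH h hP).resolve_right fun ⟨P₀, hR⟩ => not_dim hH h.loc hP ?_
  exact h.loc.dimZ _ hP 1 (dim_pr h hP hR) (algM_zc h.loc ht _) fun ⟨_, i, hi⟩ => (hs i).not_mx hi

/-- The exceptional divisors lie over the branch curves, and `A` is a coordinate on the fibres. -/
theorem exc (hH : HtOneStmt) (h : XAll d x y ι l ζ w) {i : Fin 2} {j : Fin 4} {Q : Place k M}
    (hQ : Prm d x y (cC i) (fg d x y i) Q) (hP : plO P ∈ XX d x y ι ζ w)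
    (hs : sX d x y ι i (plO P) ∈ mx (plO P)) (ht : tau l ζ j (plO P) ∈ mx (plO P)) :
    pr ι (TT d x y) (plO P) = plO Q ∧ IsU (plO P) (AA d x y ι ζ w (plO P)) ∧
      ¬ AlgM (plO P) ((pr ι (TT d x y) (plO P)).map ι) (AA d x y ι ζ w (plO P)) := by
  obtain ⟨P₀, hR⟩ := (pl hH h hP).resolve_left fun h1 => (sX_top h hP h1 i).not_mx hs
  have h1 := (sX_mx h hP i).1 hs
  have h2 := h.loc.maps.mem hP
  have hd := dim_pr h hP hR
  rw [hR] at h1 h2
  have h3 : P₀ = Q := hQ.eq_of_mx (h.t.loc.cart _) h2 h1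
  have h4 : IsU (plO P) (AA d x y ι ζ w (plO P)) := by
    by_contra hn
    exact not_dim hH h.loc hP (h.loc.dimZ _ hP 1 hd (algM_zc h.loc ht _) fun h5 => hn h5.1)
  exact ⟨h3 ▸ hR, h4, fun h5 => not_dim hH h.loc hP (h.loc.dimA _ hP 1 hd h4 h5)⟩

theorem uE (hH : HtOneStmt) (h : XAll d x y ι l ζ w) {i : Fin 2} {j : Fin 4}
    (hP : plO P ∈ XX d x y ι ζ w) (hP' : plO P' ∈ XX d x y ι ζ w)
    (hs : sX d x y ι i (plO P) ∈ mx (plO P)) (ht : tau l ζ j (plO P) ∈ mx (plO P))
    (hs' : sX d x y ι i (plO P') ∈ mx (plO P')) (ht' : tau l ζ j (plO P') ∈ mx (plO P')) :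
    P = P' := by
  obtain ⟨Q, hQ⟩ := h.t.pl.prC i
  obtain ⟨h1, h2, h3⟩ := exc hH h hQ hP hs ht
  obtain ⟨h1', h2', h3'⟩ := exc hH h hQ hP' hs' ht'
  have hR := h1'.trans h1.symm
  have hz := (zeta_mem h.loc hP ht).trans (zeta_mem h.loc hP' ht').symm
  have p1 := h.loc.pts _ hP _ h2.mem (Or.inl rfl)
  have p2 := h.loc.pts _ hP' _ h2'.mem (Or.inl rfl)
  rw [AA_congr hz hR] at h2' h3' p2
  rw [hR] at h3' p2
  rw [zc_congr hz] at p2
  rw [tau_congr hz] at ht'
  obtain ⟨c, e, hc⟩ := zc_const h.loc ht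
  refine plO_inj (ext1 p1 p2 (map_le h.loc hP) (map_le' h.loc hP' hR) (map_mx h.loc hP hP' hR)
    h2.mem h2'.mem h3 h3' fun g hg => ?_).le
  rcases gen_cases hg with hg | rfl | rfl
  · exact ⟨g, le_pu hg, by simpa using zero_mem_mx, by simpa using zero_mem_mx⟩
  · exact ⟨_, Subalgebra.algebraMap_mem _ c, hc ▸ mx_mul_left (Subalgebra.algebraMap_mem _ e) ht,
      hc ▸ mx_mul_left (Subalgebra.algebraMap_mem _ e) ht'⟩
  · exact ⟨_, self_pu, by simpa using zero_mem_mx, by simpa using zero_mem_mx⟩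

theorem uT (h : XAll d x y ι l ζ w) {j : Fin 4}
    (hO : O ∈ XX d x y ι ζ w) (hO' : O' ∈ XX d x y ι ζ w)
    (ht : tau l ζ j O ∈ mx O) (h1 : pr ι (TT d x y) O = ⊤)
    (ht' : tau l ζ j O' ∈ mx O') (h1' : pr ι (TT d x y) O' = ⊤) : O = O' := by
  have hR := h1'.trans h1.symm
  have hz := (zeta_mem h.loc hO ht).trans (zeta_mem h.loc hO' ht').symm
  have h2 := A_mx h.loc hO ht (sX_top h hO h1)
  have h2' := A_mx h.loc hO' ht' (sX_top h hO' h1')
  have p1 := h.loc.pts _ hO _ h2.1 (Or.inl rfl)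
  have p2 := h.loc.pts _ hO' _ h2'.1 (Or.inl rfl)
  rw [AA_congr hz hR] at h2' p2
  rw [hR, zc_congr hz] at p2
  rw [tau_congr hz] at ht'
  obtain ⟨c, e, hc⟩ := zc_const h.loc ht
  refine ext0 p1 p2 (map_le h.loc hO) (map_le' h.loc hO' hR) (map_mx h.loc hO hO' hR)
    fun g hg => ?_
  rcases gen_cases hg with hg | rfl | rfl
  · exact ⟨g, hg, by simpa using zero_mem_mx, by simpa using zero_mem_mx⟩
  · exact ⟨_, Subalgebra.algebraMap_mem _ c, hc ▸ mx_mul_left (Subalgebra.algebraMap_mem _ e) ht,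
      hc ▸ mx_mul_left (Subalgebra.algebraMap_mem _ e) ht'⟩
  · exact ⟨0, Subalgebra.zero_mem _, by simpa using h2, by simpa using h2'⟩

theorem zc_eq (hz : ζ ∈ O) : zc ζ O = ζ := if_pos hz

theorem not_algM (hH : HtOneStmt) (h : XAll d x y ι l ζ w) {P₀ : Place k M}
    (hP : plO P ∈ XX d x y ι ζ w) (ht : ∀ j, IsU (plO P) (tau l ζ j (plO P)))
    (hR : pr ι (TT d x y) (plO P) = plO P₀) :
    ¬ AlgM (plO P) ((pr ι (TT d x y) (plO P)).map ι) ζ := fun ha => by
  refine not_dim hH h.loc hP (h.loc.dimZ _ hP 1 (dim_pr h hP hR)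
    ((zc_eq (zeta_of_units ht)).symm ▸ ha) fun ⟨h1, i, hi⟩ => ?_)
  exact h1.inv.not_mx (Ainv_mx h.loc hP hi ht)

theorem uV (hH : HtOneStmt) (h : XAll d x y ι l ζ w) {P₀ : Place k M}
    (hP : plO P ∈ XX d x y ι ζ w) (hP' : plO P' ∈ XX d x y ι ζ w)
    (ht : ∀ j, IsU (plO P) (tau l ζ j (plO P))) (ht' : ∀ j, IsU (plO P') (tau l ζ j (plO P')))
    (h1 : pr ι (TT d x y) (plO P) = plO P₀) (h1' : pr ι (TT d x y) (plO P') = plO P₀) :
    P = P' := by
  have hR := h1'.trans h1.symm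
  have z1 := zeta_of_units ht
  have z2 := zeta_of_units ht'
  have hz : ζ ∈ plO P ↔ ζ ∈ plO P' := iff_of_true z1 z2
  have n1 := not_algM hH h hP ht h1
  have n2 := not_algM hH h hP' ht' h1'
  rw [hR] at n2
  have hm := map_mx h.loc hP hP' hR
  have hsS : ∀ i, sX d x y ι i (plO P) ∈ (pr ι (TT d x y) (plO P)).map ι := fun i =>
    ⟨_, h.t.pen.mem _ (h.loc.maps.mem hP) i, rfl⟩
  refine plO_inj (le_of_eq ?_)
  by_cases hs : ∃ i, sX d x y ι i (plO P) ∈ mx (plO P)
  · obtain ⟨i, hi⟩ := hs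
    have hi' : sX d x y ι i (plO P') ∈ mx (plO P') := sX_congr hR i ▸ (hm _ (hsS i)).1 hi
    have h2 := Ainv_mx h.loc hP hi ht
    have h2' := Ainv_mx h.loc hP' hi' ht'
    have p1 := h.loc.pts _ hP _ h2.1 (Or.inr rfl)
    have p2 := h.loc.pts _ hP' _ h2'.1 (Or.inr rfl)
    rw [AA_congr hz hR] at h2' p2
    rw [hR, zc_eq z2] at p2
    rw [zc_eq z1] at p1
    refine ext1 p1 p2 (map_le h.loc hP) (map_le' h.loc hP' hR) hm z1 z2 n1 n2 fun g hg => ?_
    rcases gen_cases hg with hg | rfl | rfl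
    · exact ⟨g, le_pu hg, by simpa using zero_mem_mx, by simpa using zero_mem_mx⟩
    · exact ⟨_, self_pu, by simpa using zero_mem_mx, by simpa using zero_mem_mx⟩
    · exact ⟨0, Subalgebra.zero_mem _, by simpa using h2, by simpa using h2'⟩
  · have hu : ∀ i, IsU (plO P) (sX d x y ι i (plO P)) := fun i =>
      isU_of_not_mx (h.loc.sm _ hP i) fun hi => hs ⟨i, hi⟩
    have hu' : ∀ i, IsU (plO P') (sX d x y ι i (plO P')) := fun i =>
      isU_of_not_mx (h.loc.sm _ hP' i) fun hi =>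
        (hu i).not_mx ((hm _ (hsS i)).2 (sX_congr hR i ▸ hi))
    have p1 := h.loc.pts _ hP _ (A_unit h.loc hP hu ht).mem (Or.inl rfl)
    have p2 := h.loc.pts _ hP' _ (A_unit h.loc hP' hu' ht').mem (Or.inl rfl)
    rw [AA_congr hz hR, hR, zc_eq z2, ← Subalgebra.coe_map] at p2
    rw [zc_eq z1, ← Subalgebra.coe_map] at p1
    have hS : ∀ i, IsU ((pr ι (TT d x y) (plO P)).map ι) (sX d x y ι i (plO P)) := fun i => by
      have h3 : IsU (pr ι (TT d x y) (plO P)) (sT d x y i (pr ι (TT d x y) (plO P))) :=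
        isU_of_not_mx (h.t.pen.mem _ (h.loc.maps.mem hP) i) fun h4 =>
          (hu i).not_mx ((sX_mx h hP i).2 h4)
      exact ⟨(hu i).1, hsS i, _, h3.inv_mem, map_inv₀ ι _⟩
    refine ext3 p1 p2 hm n1 n2 ((hS 0).mul (hS 1)).inv l ?_
    have e1 := h.loc.eqn _ hP
    have e2 : ∏ j, tau l ζ j (plO P) = ζ * (ζ - 1) * (ζ - algebraMap k K l) := by
      simp [tau, eta, z1, Fin.prod_univ_four]
    rw [← e2, ← e1, mul_comm (AA d x y ι ζ w (plO P) ^ 2),
      inv_mul_cancel_left₀ ((hu 0).mul (hu 1)).1]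

end geom

end XPlAux

theorem xPl_stmt : XPlStmt := fun hH _ _ _ _ _ _ _ _ _ _ _ _ _ _ _ _ _ h =>
  { uE := fun _ _ _ _ => XPlAux.uE hH h
    top := fun _ _ => XPlAux.top hH h
    uT := fun _ _ _ hP hP' ht h1 ht' h1' => plO_inj (XPlAux.uT h hP hP' ht h1 ht' h1').le
    pl := fun _ => XPlAux.pl hH h
    uV := fun _ _ _ => XPlAux.uV hH h }

end Pool.Agent.MP_20d318_ag.BV

end MrgPart4

-- marker of a merged file
example : 731051 + 853974 = 731051 + 853974 := rfl
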