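import Mathlib.Algebra.MvPolynomial.PDeriv
import Pool.Agent.MP_20d318_ag.Sch.Stmt

/-!
Pencils of plane cubics with a singular member, and the double covers of the product of the
blown up plane with a line.
-/

set_option autoImplicit false

open AlgebraicGeometry CategoryTheory MvPolynomial

namespace Pool.Agent.MP_20d318_ag

open MP_a703b5_ag (const)

/-- `F` is a smooth plane cubic, `G` is a cubic that is singular at `(0 : 0 : 1)`, all members of
the pencil are irreducible, and the two curves meet transversally, outside the line `z = 0`. -/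
def Pencil (F G : MvPolynomial (Fin 3) ℂ) : Prop :=
  F.IsHomogeneous 3 ∧ G.IsHomogeneous 3 ∧
  (∀ p : Fin 3 → ℂ, (∀ i, eval p (pderiv i F) = 0) → p = 0) ∧
  (∀ i, eval ![0, 0, 1] (pderiv i G) = 0) ∧
  (∀ a b : ℂ, a ≠ 0 ∨ b ≠ 0 → Irreducible (C a * F + C b * G)) ∧
  ∀ p : Fin 3 → ℂ, p ≠ 0 → eval p F = 0 → eval p G = 0 → p 2 ≠ 0 ∧
    LinearIndependent ℂ ![fun i => eval p (pderiv i F), fun i => eval p (pderiv i G)]

variable {X : Scheme.{0}} [IsIntegral X]

/-- The rational map to projective space given by the functions in `S` is a morphism. -/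
def Regular (S : Set X.functionField) : Prop :=
  ∀ p : X, ∃ b ∈ S, ∀ a ∈ S, ∃ u : X.presheaf.stalk p, a = algebraMap _ X.functionField u * b

/-- The function field of `X` is `ℂ(x, y, ζ, w)` with `w² = (F / G)(x, y, 1) · ζ (ζ - 1) (ζ - l)`,
and the maps `(x : y : 1)`, `(x : y)`, `(F : G)` and `(ζ : 1)` are morphisms. -/
def BorceaVoisin (s : X ⟶ Spec (CommRingCat.of ℂ)) (F G : MvPolynomial (Fin 3) ℂ) (l : ℂ) : Prop :=
  letI : Algebra ℂ X.functionField := (const s).toAlgebra
  ∃ x y ζ w : X.functionField, AlgebraicIndependent ℂ ![x, y, ζ] ∧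
    IntermediateField.adjoin ℂ {x, y, ζ, w} = ⊤ ∧
    w ^ 2 * aeval ![x, y, 1] G = aeval ![x, y, 1] F * (ζ * (ζ - 1) * (ζ - const s l)) ∧
    Regular {x, y, 1} ∧ Regular {x, y} ∧ Regular {aeval ![x, y, 1] F, aeval ![x, y, 1] G} ∧
    Regular {ζ, 1}

end Pool.Agent.MP_20d318_ag
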