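import Pool.Agent.MP_20d318_ag.BV.Poly2
import Pool.Agent.MP_20d318_ag.BV.Stmt
import Pool.Agent.MP_20d318_ag.Sch.Places
import Pool.Agent.MP_20d318_ag.AG.Ht
import Pool.Agent.MP_20d318_ag.BV.Mw

-- ======== part 0: formerly Pool.Agent.MP_20d318_ag.BV.LatD
section MrgPart0

-- ======== part 0: formerly Pool.Agent.MP_20d318_ag.BV.SpecF
section MrgPart0

/-! Statements of the modules of the scheme side. -/

set_option autoImplicit false

open AlgebraicGeometry CategoryTheory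

namespace Pool.Agent.MP_20d318_ag.BV

open Pool.Agent.MP_a703b5_ag Pool.Agent.MP_20d318_ag.AG

/-- SETA. -/
def SetAStmt : Prop := ∀ F G : MvPolynomial (Fin 3) ℂ, Pencil F G → Pre F G

/-- EX. -/
def ExStmt : Prop := ∃ F G : MvPolynomial (Fin 3) ℂ, Pencil F G

/-- FINA: the closure of a graph is covered by charts. -/
def ChartStmt : Prop := ∀ (K Λ : Type) [Field K] [Algebra ℂ K] [Finite Λ] (S : Λ → Set K),
  Fam ℂ S → ∃ (ι : Type) (_ : Finite ι) (𝒞 : Charts K ι), Sch.pts 𝒞 = mp ℂ S ∧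
    ∀ j, ∃ G : Set K, G.Finite ∧ 𝒞.B j = Algebra.adjoin ℂ G

/-- FINA: infinite orbits. -/
def OrbStmt : Prop := ∀ (K ι : Type) [Field K] [Algebra ℂ K] (𝒞 : Charts K ι) (N : Model 𝒞),
  (∃ ξ ∈ AG.N1 (Sch.pts 𝒞), (Set.range fun g : AG.Aut (Sch.pts 𝒞) => g.act ξ).Infinite) →
    ∃ ξ ∈ N1 N.s, (Set.range fun a : CategoryTheory.Aut (Over.mk N.s) => push a ξ).Infinite

/-- FINB: the properties of the scheme. -/
def FinStmt : Prop := SmGStmt → ∀ (M K : Type) [Field M] [Field K] [Algebra ℂ M] [Algebra ℂ K]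
  (d : Dat ℂ) (x y : M) (ι : M →ₐ[ℂ] K) (l : ℂ) (ζ w : K), XAll d x y ι l ζ w → XSm d x y ι ζ w →
  ∀ (J : Type) (𝒞 : Charts K J) (N : Model 𝒞), Sch.pts 𝒞 = XX d x y ι ζ w →
    (∀ j, ∃ G : Set K, G.Finite ∧ 𝒞.B j = Algebra.adjoin ℂ G) →
      Smooth N.s ∧ TrivialCanonical N.s ∧ BorceaVoisin N.s d.F d.G l

end Pool.Agent.MP_20d318_ag.BV

end MrgPart0

-- ======== part 1: formerly Pool.Agent.MP_20d318_ag.BV.LatD
section MrgPart1

/-! Cremona descent: integral nef classes are sums of negative curves. -/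

set_option autoImplicit false

namespace Pool.Agent.MP_20d318_ag.BV

open Pool.Agent.MP_20d318_ag.Lat

namespace LatD

theorem ip_comm (D Z : Lam ℤ) : ip D Z = ip Z D := by
  simp only [ip, mul_comm]

theorem ip_add (D Z Y : Lam ℤ) : ip D (Z + Y) = ip D Z + ip D Y := by
  simp only [ip, Prod.fst_add, Prod.snd_add, Pi.add_apply, mul_add, Finset.sum_add_distrib]
  ring

theorem ip_smul (n : ℤ) (D Z : Lam ℤ) : ip D (n • Z) = n * ip D Z := by
  simp only [ip, Prod.smul_fst, Prod.smul_snd, Pi.smul_apply, smul_eq_mul, mul_sub,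
    Finset.mul_sum]
  congr 1
  · ring
  · exact Finset.sum_congr rfl fun q _ => by ring

theorem add_ip (D Z Y : Lam ℤ) : ip (Z + Y) D = ip Z D + ip Y D := by
  rw [ip_comm, ip_add, ip_comm D, ip_comm D]

theorem smul_ip (n : ℤ) (D Z : Lam ℤ) : ip (n • Z) D = n * ip Z D := by
  rw [ip_comm, ip_smul, ip_comm D]

theorem ip_sub (D Z Y : Lam ℤ) : ip D (Z - Y) = ip D Z - ip D Y := by
  have := ip_add D (Z - Y) Y
  rw [sub_add_cancel] at this
  omega

theorem sub_ip (D Z Y : Lam ℤ) : ip (Z - Y) D = ip Z D - ip Y D := by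
  rw [ip_comm, ip_sub, ip_comm D, ip_comm D]

theorem ip_cE (D : Lam ℤ) (q : Q) : ip D (cE q) = D.2 q := by
  simp [ip, cE, Pi.single_apply]

theorem ip_cH (D : Lam ℤ) : ip D cH = D.1 := by
  simp [ip, cH]

theorem ip_toR (D Z : Lam ℤ) : ip (toR D) (toR Z) = ((ip D Z : ℤ) : ℝ) := by
  simp [ip, toR]

theorem cR_eq : (cR : Lam ℤ) = cF - (2 : ℤ) • cE none := by
  refine Prod.ext (by simp [cR, cF, cE]) (funext fun q => ?_)
  cases q <;> simp [cR, cF, cE]

/-- The reflection in a root. -/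
def rf (a : Lam ℤ) : Lam ℤ →+ Lam ℤ where
  toFun D := D + ip D a • a
  map_zero' := by simp [ip]
  map_add' D Z := by
    rw [add_ip, add_smul]
    abel

theorem rf_apply (a D : Lam ℤ) : rf a D = D + ip D a • a := rfl

/-- Roots orthogonal to the fibre and to the curve over the singular point. -/
structure Rt (a : Lam ℤ) : Prop where
  sq : ip a a = -2
  fib : ip a cF = 0
  nu : a.2 none = 0

theorem rf_adj (a D Z : Lam ℤ) : ip (rf a D) Z = ip D (rf a Z) := by
  rw [rf_apply, rf_apply, add_ip, ip_add, smul_ip, ip_smul, ip_comm a Z]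
  ring

theorem Rt.inv {a : Lam ℤ} (h : Rt a) (D : Lam ℤ) : rf a (rf a D) = D := by
  rw [rf_apply a (rf a D), rf_apply, add_ip, smul_ip, h.sq, add_assoc, ← add_smul]
  have : ip D a + (ip D a + ip D a * -2) = 0 := by ring
  rw [this, zero_smul, add_zero]

theorem Rt.iso {a : Lam ℤ} (h : Rt a) (D Z : Lam ℤ) : ip (rf a D) (rf a Z) = ip D Z := by
  rw [rf_adj, h.inv]

theorem Rt.cF {a : Lam ℤ} (h : Rt a) : rf a cF = cF := by
  rw [rf_apply, ip_comm, h.fib, zero_smul, add_zero]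

theorem Rt.cE {a : Lam ℤ} (h : Rt a) : rf a (cE none) = cE none := by
  rw [rf_apply, ip_comm, ip_cE, h.nu, zero_smul, add_zero]

theorem Rt.cR {a : Lam ℤ} (h : Rt a) : rf a cR = cR := by
  rw [cR_eq, map_sub, map_zsmul, h.cF, h.cE]

theorem Rt.ss {a : Lam ℤ} (h : Rt a) {s : Lam ℤ} (hs : s ∈ SS) : rf a s ∈ SS := by
  refine ⟨?_, ?_, ?_⟩
  · rw [← ip_cE, rf_adj, h.cE, ip_cE]
    exact hs.1
  · rw [h.iso]
    exact hs.2.1
  · rw [rf_adj, h.cF]
    exact hs.2.2

theorem Rt.gen {a : Lam ℤ} (h : Rt a) {c : Lam ℤ} (hc : c ∈ GEN) : rf a c ∈ GEN := by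
  rcases hc with (hc | ⟨s, hs, s', hs', h1, rfl⟩) | hc | hc
  · exact Or.inl (Or.inl (h.ss hc))
  · refine Or.inl (Or.inr ⟨rf a s, h.ss hs, rf a s', h.ss hs', ?_, ?_⟩)
    · rw [h.iso, h1]
    · rw [map_sub, map_add, h.cE]
  · rw [hc, h.cE]
    exact Or.inr (Or.inl rfl)
  · rw [hc, h.cR]
    exact Or.inr (Or.inr rfl)

theorem cE_snd (q q' : Q) : (cE q : Lam ℤ).2 q' = if q' = q then -1 else 0 := by
  simp [cE, Pi.single_apply]

theorem cE_ss (i : Fin 9) : cE (some i) ∈ SS := by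
  refine ⟨by simp [cE_snd], by rw [ip_cE]; simp [cE_snd], ?_⟩
  rw [ip_comm, ip_cE]
  rfl

theorem cF_some (i : Fin 9) : (cF : Lam ℤ).2 (some i) = 1 := rfl

theorem line_ss {i j : Fin 9} (hij : i ≠ j) : cH - cE (some i) - cE (some j) ∈ SS := by
  refine ⟨by simp [cE_snd, cH], ?_, ?_⟩
  · rw [ip_sub, ip_sub, ip_cH, ip_cE, ip_cE]
    simp [cH, cE, hij, hij.symm]
  · rw [ip_comm, ip_sub, ip_sub, ip_cH, ip_cE, ip_cE, cF_some, cF_some]
    rfl

theorem bis_gen (i : Fin 9) : cH - cE (some i) - cE none ∈ GEN := by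
  obtain ⟨j, hj⟩ := exists_ne i
  refine Or.inl (Or.inr ⟨_, line_ss hj.symm, _, cE_ss j, ?_, by abel⟩)
  rw [ip_cE]
  simp [cE_snd, cH, hj]

theorem root {i j k : Fin 9} (hij : i ≠ j) (hik : i ≠ k) (hjk : j ≠ k) :
    Rt (cH - cE (some i) - cE (some j) - cE (some k)) := by
  refine ⟨?_, ?_, by simp [cE_snd, cH]⟩
  · rw [ip_sub, ip_sub, ip_sub, ip_cH, ip_cE, ip_cE, ip_cE]
    simp [cH, cE, hij, hij.symm, hik, hik.symm, hjk, hjk.symm]
  · rw [ip_comm, ip_sub, ip_sub, ip_sub, ip_cH, ip_cE, ip_cE, ip_cE, cF_some, cF_some, cF_some]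
    rfl

theorem zs {S : AddSubmonoid (Lam ℤ)} {n : ℤ} (hn : 0 ≤ n) {c : Lam ℤ} (hc : c ∈ S) :
    n • c ∈ S := by
  obtain ⟨m, rfl⟩ := Int.eq_ofNat_of_zero_le hn
  rw [natCast_zsmul]
  exact S.nsmul_mem hc m

theorem sum_cE (c : Fin 9 → ℤ) :
    ∑ t, c t • (cE (some t) : Lam ℤ) = (0, fun q => q.elim 0 fun t => -c t) := by
  refine Prod.ext ?_ (funext fun q => ?_)
  · simp [Prod.fst_sum, cE]
  · rw [Prod.snd_sum, Finset.sum_apply]
    cases q <;> simp [cE_snd]

/-- Classes that no Cremona reflection lowers. -/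
theorem red (L : Lam ℤ) (hL : ∀ c ∈ GEN, 0 ≤ ip L c)
    (h3 : ∀ i j k : Fin 9, i ≠ j → i ≠ k → j ≠ k →
      L.2 (some i) + L.2 (some j) + L.2 (some k) ≤ L.1) :
    L ∈ AddSubmonoid.closure GEN := by
  classical
  obtain ⟨i, -, hi⟩ := Finset.exists_max_image Finset.univ (fun t : Fin 9 => L.2 (some t))
    Finset.univ_nonempty
  obtain ⟨j, hj0, hj⟩ := Finset.exists_max_image (Finset.univ.erase i)
    (fun t : Fin 9 => L.2 (some t))
    (Finset.card_pos.1 (by rw [Finset.card_erase_of_mem (Finset.mem_univ i)]; simp))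
  obtain ⟨k, hk0, hk⟩ := Finset.exists_max_image ((Finset.univ.erase i).erase j)
    (fun t : Fin 9 => L.2 (some t))
    (Finset.card_pos.1 (by
      rw [Finset.card_erase_of_mem hj0, Finset.card_erase_of_mem (Finset.mem_univ i)]; simp))
  have hji : j ≠ i := (Finset.mem_erase.1 hj0).1
  have hkj : k ≠ j := (Finset.mem_erase.1 hk0).1
  have hk1 := (Finset.mem_erase.1 hk0).2
  have hki : k ≠ i := (Finset.mem_erase.1 hk1).1
  have a1 := h3 i j k hji.symm hki.symm hkj.symm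
  have a2 := hi k (Finset.mem_univ k)
  have a3 := hj k hk1
  have a4 := hL _ (Or.inl (Or.inl (cE_ss k)))
  have a5 := hL _ (bis_gen k)
  rw [ip_cE] at a4
  rw [ip_sub, ip_sub, ip_cH, ip_cE, ip_cE] at a5
  let c : Fin 9 → ℤ := fun t => if t = i then L.1 - L.2 (some i) - L.2 (some j) - L.2 (some k)
    else if t = j then 0 else L.2 (some k) - L.2 (some t)
  have hc : ∀ t, 0 ≤ c t := by
    intro t
    simp only [c]
    split_ifs with h1 h2
    · omega
    · exact le_rfl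
    · have := hk t (by simp [h1, h2])
      omega
  have e : L = L.2 (some k) • cR +
      (L.1 - L.2 (some j) - 2 * L.2 (some k)) • (cH - cE (some i) - cE none) +
      (L.2 (some j) - L.2 (some k)) • (cH - cE (some j) - cE none) +
      ∑ t, c t • cE (some t) + (L.1 - L.2 (some k) - L.2 none) • cE none := by
    rw [sum_cE]
    refine Prod.ext ?_ (funext fun q => ?_)
    · simp [cR, cH, cE]
      ring
    · cases q with
      | none =>
        simp [cR, cH, cE_snd]
        ring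
      | some t =>
        by_cases h1 : t = i
        · subst h1
          simp [cR, cH, cE_snd, c, hji.symm]
          ring
        · by_cases h2 : t = j
          · subst h2
            simp [cR, cH, cE_snd, c, h1]
          · simp [cR, cH, cE_snd, c, h1, h2]
  have m : ∀ x ∈ GEN, x ∈ AddSubmonoid.closure GEN := fun x hx => AddSubmonoid.subset_closure hx
  rw [e]
  refine add_mem (add_mem (add_mem (add_mem (zs a4 (m _ (Or.inr (Or.inr rfl))))
    (zs (by omega) (m _ (bis_gen i)))) (zs (by omega) (m _ (bis_gen j))))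
    (sum_mem fun t _ => zs (hc t) (m _ (Or.inl (Or.inl (cE_ss t))))))
    (zs (by omega) (m _ (Or.inr (Or.inl rfl))))

theorem deg_nonneg (L : Lam ℤ) (hL : ∀ c ∈ GEN, 0 ≤ ip L c) : 0 ≤ L.1 := by
  have a1 := hL _ (Or.inl (Or.inl (cE_ss 0)))
  have a2 := hL _ (Or.inl (Or.inl (cE_ss 1)))
  have a3 := hL _ (Or.inl (Or.inl (line_ss (i := 0) (j := 1) (by decide))))
  rw [ip_cE] at a1 a2
  rw [ip_sub, ip_sub, ip_cH, ip_cE, ip_cE] at a3
  omega

/-- Integral nef classes are sums of negative curves. -/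
theorem desc (n : ℕ) : ∀ L : Lam ℤ, L.1 < n → (∀ c ∈ GEN, 0 ≤ ip L c) →
    L ∈ AddSubmonoid.closure GEN := by
  induction n with
  | zero =>
    intro L h hL
    have := deg_nonneg L hL
    omega
  | succ n ih =>
    intro L h hL
    by_cases h3 : ∀ i j k : Fin 9, i ≠ j → i ≠ k → j ≠ k →
      L.2 (some i) + L.2 (some j) + L.2 (some k) ≤ L.1
    · exact red L hL h3
    push Not at h3
    obtain ⟨i, j, k, hij, hik, hjk, hlt⟩ := h3
    have hr := root hij hik hjk
    have h1 := ih (rf (cH - cE (some i) - cE (some j) - cE (some k)) L) (by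
      rw [rf_apply, ip_sub, ip_sub, ip_sub, ip_cH, ip_cE, ip_cE, ip_cE]
      simp [cH, cE]
      omega) (fun c hc => by
      rw [rf_adj]
      exact hL _ (hr.gen hc))
    rw [← hr.inv L]
    generalize rf (cH - cE (some i) - cE (some j) - cE (some k)) L = M at h1
    induction h1 using AddSubmonoid.closure_induction with
    | mem x hx => exact AddSubmonoid.subset_closure (hr.gen hx)
    | zero => rw [map_zero]; exact zero_mem _
    | add x y _ _ hx hy => rw [map_add]; exact add_mem hx hy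

theorem toR_add (x y : Lam ℤ) : toR (x + y) = toR x + toR y := by
  refine Prod.ext (by simp [toR]) (funext fun q => by simp [toR])

theorem toR_zero : toR 0 = 0 := by
  refine Prod.ext (by simp [toR]) (funext fun q => by simp [toR])

end LatD

open LatD

theorem latD_stmt : LatDStmt := by
  intro L hL
  have h1 : L ∈ AddSubmonoid.closure GEN := desc (L.1.toNat + 1) L (by omega) fun c hc => by
    have := hL c hc
    rw [ip_toR] at this
    exact_mod_cast this
  clear hL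
  induction h1 using AddSubmonoid.closure_induction with
  | mem x hx => exact subset_cone _ ⟨x, hx, rfl⟩
  | zero => rw [toR_zero]; exact (isCone_cone _).zero
  | add x y _ _ hx hy => rw [toR_add]; exact (isCone_cone _).add _ hx _ hy

end Pool.Agent.MP_20d318_ag.BV

end MrgPart1

-- marker of a merged file
example : 731051 + 596346 = 731051 + 596346 := rfl

end MrgPart0

-- ======== part 1: formerly Pool.Agent.MP_20d318_ag.BV.Main
section MrgPart1

/-! The assembly of the modules. -/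

set_option autoImplicit false

open AlgebraicGeometry CategoryTheory

namespace Pool.Agent.MP_20d318_ag.BV

open Pool.Agent.MP_a703b5_ag Pool.Agent.MP_20d318_ag.AG

/-- All modules. -/
structure Mods : Prop where
  latA : LatAStmt
  latD : LatDStmt
  latB : LatBStmt
  latC : LatCStmt
  glue : GlueStmt
  et : EtStmt
  smG : SmGStmt
  etN : EtNStmt
  ht1 : HtOneStmt
  dimUp : DimUpStmt
  curve : CurveStmt
  plane : PlaneStmt
  proj : ProjStmt
  hor : HorBStmt
  clsG : ClsGenStmt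
  xHom : XHomStmt
  xEx : XExStmt
  up : UpStmt
  tLoc : TLocStmt
  pen : PenStmt
  tPl : TPlStmt
  tZ : TZStmt
  tPa : TPaStmt
  mw : MwStmt
  sig1 : Sig1Stmt
  sigT : SigTStmt
  sig2 : Sig2Stmt
  xLoc : XLocStmt
  xDiv : XDivStmt
  xSm : XSmStmt
  xCur : XCurStmt
  xTest : XTestStmt
  xPl : XPlStmt
  xCls : XClsStmt
  sigX : SigXStmt
  setA : SetAStmt
  setB : SetBStmt
  setC : SetCStmt
  chart : ChartStmt
  orb : OrbStmt
  fin : FinStmt

variable {k M K : Type} [Field k] [CharZero k] [IsAlgClosed k] [Field M] [Field K] [Algebra k M]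
  [Algebra k K] {d : Dat k} {x y : M} {ι : M →ₐ[k] K} {l : k} {ζ w : K}

theorem Mods.tAll (h : Mods) (hd : Cub d) (hg : GenP k x y) : TAll d x y :=
  have h1 := h.tLoc h.plane k M d x y hd hg
  have h2 := h.tPl h.plane k M d x y hd hg h1
  ⟨hd, hg, h1, h.pen h.plane k M d x y hd hg h1, h2, h.tZ h.plane h.proj h.curve k M d x y hd hg h1 h2⟩

theorem Mods.xAll (h : Mods) (ht : TAll d x y) (he : Ext d x y ι l ζ w) : XAll d x y ι l ζ w :=
  have h1 := h.xLoc h.dimUp k M K d x y ι l ζ w ht he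
  ⟨ht, he, h1, h.xDiv k M K d x y ι l ζ w ht he h1⟩

theorem Mods.geo (h : Mods) (hx : XAll d x y ι l ζ w) :
    GeoX (XX d x y ι ζ w) (PP d x y) (fun ν => ZZ d x y ι l ζ ν) := by
  have hc := h.xCur k M K d x y ι l ζ w hx
  have ht := h.xTest h.up h.curve k M K d x y ι l ζ w hx hc
  refine ⟨h.tPa k M d x y hx.t, fun D => ⟨⟨_, hx.div.cartW D⟩, fun ν => hx.div.degW ν D⟩,
    h.xCls h.hor h.clsG k M K d x y ι l ζ w hx (h.xPl h.ht1 k M K d x y ι l ζ w hx)
      (h.mw h.plane k M d x y l hx.t hx.ext.l0 hx.ext.l1)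
      (h.xSm h.et h.etN k M K d x y ι l ζ w hx).nrm,
    hx.div.eff, hc.cur, ht.tE, ht.tC, ht.tT, ht.tG, fun i => ?_⟩
  obtain ⟨σ, hg, hp⟩ := h.sig1 h.plane k M d x y hx.t.cub hx.t.gen i
  have h1 := h.tAll hx.t.cub hg
  have h2 := h.sigT k M d x y _ _ i hx.t h1 hp
  refine h.sigX h.xHom k M K d x y ι l ζ w σ i hx (h.xAll h1 ⟨hx.ext.l0, hx.ext.l1, hx.ext.tr, ?_,
    hx.ext.top⟩) h2 (h.sig2 k M d x y _ _ i hx.t h1 hp h2)
  have h3 := congrArg ι h2.tt
  have h4 := (map_ne_zero ι).2 (h1.pen.ne 0)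
  have h5 := (map_ne_zero ι).2 (hx.t.pen.ne 0)
  rw [map_div₀, map_div₀, div_eq_div_iff h4 h5] at h3
  refine mul_right_cancel₀ h5 ?_
  linear_combination w ^ 2 * h3 + ι (fg d (σ x) (σ y) 0) * hx.ext.eq

theorem Mods.final (h : Mods) (F G : MvPolynomial (Fin 3) ℂ) (l : ℂ) (hP : Pencil F G) (h0 : l ≠ 0)
    (h1 : l ≠ 1) : ∃ (X : Scheme.{0}) (_ : IsIntegral X) (s : X ⟶ Spec (CommRingCat.of ℂ)),
      IsProjective s ∧ Smooth s ∧ TrivialCanonical s ∧ BorceaVoisin s F G l ∧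
      Module.finrank ℝ (N1 s) = 20 ∧
      (∃ ξ ∈ N1 s, (Set.range fun a : CategoryTheory.Aut (Over.mk s) => push a ξ).Infinite) ∧
      ConeConj s := by
  have hp := h.setA F G hP
  obtain ⟨d, rfl, rfl, h9⟩ := h.setB ℂ F G hp
  have hd := h.setC ℂ d hp h9
  obtain ⟨M, _, _, x, y, hg⟩ := h.xEx.1 ℂ
  have ht := h.tAll hd hg
  obtain ⟨K, _, _, ι, ζ, w, he⟩ := h.xEx.2 ℂ M d x y l h0 h1 (ht.pen.ne 1)
  have hx := h.xAll ht he
  obtain ⟨J, _, 𝒞, hC, hG⟩ := h.chart K _ _ hx.loc.fam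
  obtain ⟨N⟩ := exists_model 𝒞
  have h2 := h.glue h.latA h.latD h.latB h.latC ℂ K _ _ _ (h.geo hx)
  have hC' : Sch.pts 𝒞 = XX d x y ι ζ w := hC
  obtain ⟨h3, h4, h5⟩ := h.fin h.smG M K d x y ι l ζ w hx (h.xSm h.et h.etN ℂ M K d x y ι l ζ w hx)
    J 𝒞 N hC' hG
  rw [← hC'] at h2
  have h6 := Sch.bridge K J 𝒞 N h2.1
  exact ⟨N.X, inferInstance, N.s, N.proj, h3, h4, h5, h6.1.trans h2.2.1, h.orb K J 𝒞 N h2.2.2, h6.2⟩

end Pool.Agent.MP_20d318_ag.BV

end MrgPart1

-- ======== part 2: formerly Pool.Agent.MP_20d318_ag.BV.TPl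
section MrgPart2

-- ======== part 0: formerly Pool.Agent.MP_20d318_ag.BV.Pen
section MrgPart0

/-! The pencil of cubics on the surface `T`. -/

set_option autoImplicit false

namespace Pool.Agent.MP_20d318_ag.BV

open Pool.Agent.MP_79c67d_ag Pool.Agent.MP_20d318_ag.AG MvPolynomial

namespace PenR

variable {k M : Type} [Field k] [Field M] [Algebra k M] {d : Dat k} {x y : M}
  {O : Subalgebra k M}

theorem loc (hT : TLoc d x y) (hO : O ∈ TT d x y) : IsLocalRing O := hT.nice.loc O hO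

theorem ov_iff {q : Q} : Ov d x y q O ↔ xq d x q ∈ mx O ∧ yq d y q ∈ mx O := by
  simp [Ov, SQ]

theorem ov_mem {q : Q} (h : Ov d x y q O) : x ∈ O ∧ y ∈ O := by
  obtain ⟨h1, h2⟩ := ov_iff.1 h
  exact ⟨by simpa [xq] using O.add_mem h1.1 (O.algebraMap_mem (d.a q)),
    by simpa [yq] using O.add_mem h2.1 (O.algebraMap_mem (d.b q))⟩

/-- Away from the ten points. -/
theorem lb_far (hT : TLoc d x y) (hO : O ∈ TT d x y) (hn : ∀ q, ¬ Ov d x y q O) {g : M}
    (hg : IsU O (gn (SH x y) O / g)) (c : Lam ℤ) : IsU O (lb d x y c O * g ^ c.1) := by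
  have h0 : g ≠ 0 := fun h => hg.1 (by simp [h])
  have h1 := (hg.zpow (-c.1)).mul
    (isU_prod (s := Finset.univ) fun q _ => (hT.exu O hO q (hn q)).zpow (-c.2 q))
  convert h1 using 1
  rw [lb, div_zpow, zpow_neg g, div_inv_eq_mul]
  ring

/-- Over one of the ten points. -/
theorem lb_near (hT : TLoc d x y) (hO : O ∈ TT d x y) {q : Q} (hq : Ov d x y q O) {r : M}
    (hr : IsU O (ex d x y q O / r)) (c : Lam ℤ) : IsU O (lb d x y c O * r ^ c.2 q) := by
  classical
  have h1 := (((hT.hu O hO (ov_mem hq).1 (ov_mem hq).2).zpow (-c.1)).mul (hr.zpow (-c.2 q))).mul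
    (isU_prod (s := Finset.univ.erase q) fun q' hq' => (hT.exu O hO q' fun h =>
      Finset.ne_of_mem_erase hq' (hT.ovu O (loc hT hO) q' q h hq)).zpow (-c.2 q'))
  convert h1 using 1
  rw [lb, ← Finset.mul_prod_erase _ _ (Finset.mem_univ q), div_zpow, zpow_neg r, div_inv_eq_mul]
  ring

/-- The two coordinate derivations of a chart. -/
theorem ders {a b : M} (hP : Plane (k := k) a b) (hO : O ∈ Pts (Algebra.adjoin k {a, b})) :
    (∃ D : Derivation k M M, (∀ f ∈ O, D f ∈ O) ∧ D a = 1 ∧ D b = 0) ∧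
      ∃ D : Derivation k M M, (∀ f ∈ O, D f ∈ O) ∧ D a = 0 ∧ D b = 1 := by
  obtain ⟨D, hD⟩ := hP.der 0
  obtain ⟨E, hE⟩ := hP.der 1
  have h1 : D a = 1 := by simpa using hD (X 0)
  have h2 : D b = 0 := by simpa using hD (X 1)
  have h3 : E a = 0 := by simpa using hE (X 0)
  have h4 : E b = 1 := by simpa using hE (X 1)
  refine ⟨⟨D, der_pres hO D ?_, h1, h2⟩, E, der_pres hO E ?_, h3, h4⟩
  · rintro g (rfl | rfl)
    · exact h1 ▸ O.one_mem
    · exact h2 ▸ O.zero_mem
  · rintro g (rfl | rfl)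
    · exact h3 ▸ O.zero_mem
    · exact h4 ▸ O.one_mem

variable (d x y O) in
/-- A chart of the plane away from the ten points. -/
structure Far (g : M) (w : Fin 3 → M) (j : Fin 3) : Prop where
  one : w j = 1
  mem : ∀ i, w i ∈ O
  eq : ![x, y, 1] = g • w
  der : ∀ i, i ≠ j → ∃ D : Derivation k M M, (∀ f ∈ O, D f ∈ O) ∧
    ∀ l, D (w l) = if l = i then 1 else 0
  gen : IsU O (gn (SH x y) O / g)
  nov : ∀ q, ¬ Ov d x y q O

variable (d x y O) in
/-- A chart of the blow-up. -/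
structure Near (q : Q) (u v r : M) : Prop where
  ov : Ov d x y q O
  hx : x = algebraMap k M (d.a q) + u * r
  hy : y = algebraMap k M (d.b q) + v * r
  hu : u ∈ O
  hv : v ∈ O
  hr : r ∈ mx O
  gen : IsU O (ex d x y q O / r)
  der : ∃ D : Derivation k M M, (∀ f ∈ O, D f ∈ O) ∧ D r = 0 ∧ IsU O (u * D v - v * D u)
  der' : ∃ D : Derivation k M M, (∀ f ∈ O, D f ∈ O) ∧ D r = 1 ∧ D u = 0 ∧ D v = 0

theorem mem_left {a b : M} (h : O ∈ Pts (Algebra.adjoin k {a, b})) : a ∈ O :=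
  h.2.1 (Algebra.subset_adjoin (by simp))

theorem mem_right {a b : M} (h : O ∈ Pts (Algebra.adjoin k {a, b})) : b ∈ O :=
  h.2.1 (Algebra.subset_adjoin (by simp))

variable [CharZero k] [IsAlgClosed k]

theorem far_or_near (hP : PlaneStmt) (hg : GenP k x y) (hT : TLoc d x y) (hO : O ∈ TT d x y) :
    (∃ g w j, Far d x y O g w j) ∨ ∃ q u v r, Near d x y O q u v r := by
  have hx0 : x ≠ 0 := by simpa using hg.x_ne 0
  have hy0 : y ≠ 0 := by simpa using hg.y_ne 0
  rcases hT.cases O hO with ⟨hx, hy, hn⟩ | ⟨q, hq, h⟩ | ⟨q, hq, h⟩ | ⟨h1, h2⟩ | ⟨h1, h2⟩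
  · obtain ⟨⟨D, hD, a1, a2⟩, E, hE, b1, b2⟩ := ders (hP k M x y hg) (hT.c0 O hO hx hy hn)
    refine Or.inl ⟨1, ![x, y, 1], 2, rfl, ?_, by simp, ?_, by simpa using hT.hu O hO hx hy, hn⟩
    · intro i; fin_cases i <;> simp [hx, hy]
    · intro i hi
      fin_cases i
      · exact ⟨D, hD, fun l => by fin_cases l <;> simp [a1, a2]⟩
      · exact ⟨E, hE, fun l => by fin_cases l <;> simp [b1, b2]⟩
      · exact absurd rfl hi
  · obtain ⟨hp, he⟩ := hT.c1 O hO q hq h
    obtain ⟨⟨D, hD, a1, a2⟩, E, hE, b1, b2⟩ := ders (hP k M _ _ (hT.g1 q)) hp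
    have h0 : yq d y q ≠ 0 := hg.y_ne _
    refine Or.inr ⟨q, xq d x q / yq d y q, 1, yq d y q, hq, ?_, by simp [yq], h, O.one_mem,
      (ov_iff.1 hq).2, he, ⟨D, hD, a2, ?_⟩, E, hE, b2, b1, by simp⟩
    · rw [div_mul_cancel₀ _ h0]; simp [xq]
    · simpa [a1] using isU_one.neg
  · obtain ⟨hp, he⟩ := hT.c2 O hO q hq h
    obtain ⟨⟨D, hD, a1, a2⟩, E, hE, b1, b2⟩ := ders (hP k M _ _ (hT.g2 q)) hp
    have h0 : xq d x q ≠ 0 := hg.x_ne _
    refine Or.inr ⟨q, 1, yq d y q / xq d x q, xq d x q, hq, by simp [xq], ?_, O.one_mem, h,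
      (ov_iff.1 hq).1, he, ⟨D, hD, a2, ?_⟩, E, hE, b2, by simp, b1⟩
    · rw [div_mul_cancel₀ _ h0]; simp [yq]
    · simpa [a1] using isU_one
  · obtain ⟨hp, he, hn⟩ := hT.c3 O hO h1 h2
    obtain ⟨⟨D, hD, a1, a2⟩, E, hE, b1, b2⟩ := ders (hP k M _ _ hT.g3) hp
    refine Or.inl ⟨x, ![1, y / x, x⁻¹], 0, rfl, ?_, ?_, ?_, he, hn⟩
    · intro i; fin_cases i <;> simp [h1.1, h2]
    · ext i; fin_cases i <;> simp [hx0, mul_div_cancel₀]
    · intro i hi
      fin_cases i
      · exact absurd rfl hi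
      · exact ⟨D, hD, fun l => by fin_cases l <;> simp [a1, a2]⟩
      · exact ⟨E, hE, fun l => by fin_cases l <;> simp [b1, b2]⟩
  · obtain ⟨hp, he, hn⟩ := hT.c4 O hO h1 h2
    obtain ⟨⟨D, hD, a1, a2⟩, E, hE, b1, b2⟩ := ders (hP k M _ _ hT.g4) hp
    refine Or.inl ⟨y, ![x / y, 1, y⁻¹], 1, rfl, ?_, ?_, ?_, he, hn⟩
    · intro i; fin_cases i <;> simp [h1.1, h2]
    · ext i; fin_cases i <;> simp [hy0, mul_div_cancel₀]
    · intro i hi
      fin_cases i
      · exact ⟨D, hD, fun l => by fin_cases l <;> simp [a1, a2]⟩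
      · exact absurd rfl hi
      · exact ⟨E, hE, fun l => by fin_cases l <;> simp [b1, b2]⟩


omit [CharZero k] [IsAlgClosed k]

theorem hom (hc : Cub d) (i : Fin 2) : (![d.F, d.G] i).IsHomogeneous 3 := by
  fin_cases i
  exacts [hc.hF, hc.hG]

section far

variable {g : M} {w : Fin 3 → M} {j : Fin 3}

theorem Far.sT (h : Far d x y O g w j) (hc : Cub d) (hT : TLoc d x y) (hO : O ∈ TT d x y)
    (i : Fin 2) : ∃ u, IsU O u ∧ sT d x y i O = u * aeval w (![d.F, d.G] i) := by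
  refine ⟨_, lb_far hT hO h.nov h.gen (cC i), ?_⟩
  have e : (cC i : Lam ℤ).1 = (3 : ℕ) := by fin_cases i <;> rfl
  rw [BV.sT, fg, h.eq, aeval_smul (hom hc i), e, zpow_natCast]
  ring

theorem Far.not_pt (h : Far d x y O g w j) (hw : IsU O (w 2)) (q : Q)
    (h0 : w 0 - algebraMap k M (d.a q) * w 2 ∈ mx O)
    (h1 : w 1 - algebraMap k M (d.b q) * w 2 ∈ mx O) : False := by
  have e0 : x = g * w 0 := by simpa using congrFun h.eq 0
  have e1 : y = g * w 1 := by simpa using congrFun h.eq 1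
  have e2 : 1 = g * w 2 := by simpa using congrFun h.eq 2
  have e : g = (w 2)⁻¹ := eq_inv_of_mul_eq_one_left e2.symm
  have hw0 := hw.1
  refine h.nov q (ov_iff.2 ⟨?_, ?_⟩)
  · convert mx_div h0 hw using 1
    rw [xq, e0, e]; field_simp
  · convert mx_div h1 hw using 1
    rw [yq, e1, e]; field_simp

theorem Far.unit (h : Far d x y O g w j) (hc : Cub d) (hO : IsLocalRing O) :
    IsU O (aeval w d.F) ∨ IsU O (aeval w d.G) := by
  by_contra hn
  rw [not_or] at hn
  have hρ : LocHom O (resid O) := resid_loc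
  have z : ∀ P : MvPolynomial (Fin 3) k, ¬ IsU O (aeval w P) →
      aeval (fun i => evO O (resid O) (w i)) P = 0 := fun P hP => by
    rw [← evO_aeval _ h.mem]
    exact (hρ.eq_zero_iff (aeval_mem h.mem P)).2 ⟨aeval_mem h.mem P, hP⟩
  rcases hc.base _ _ (z _ hn.1) (z _ hn.2) with h0 | ⟨i, h2, h0⟩
  · have := congrFun h0 j
    simp [h.one, evO_one] at this
  · have key : ∀ (l : Fin 3) (c : k), evO O (resid O) (w l) =
        evO O (resid O) (w 2) * algebraMap k _ c → w l - algebraMap k M c * w 2 ∈ mx O := by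
      intro l c e
      have m := O.mul_mem (O.algebraMap_mem c) (h.mem 2)
      rw [← hρ.eq_zero_iff (O.sub_mem (h.mem l) m), evO_sub _ (h.mem l) m,
        evO_mul _ (O.algebraMap_mem c) (h.mem 2), evO_const, e]
      ring
    exact h.not_pt (isU_of_not_mx (h.mem 2) fun hm => h2 ((hρ.eq_zero_iff (h.mem 2)).2 hm))
      (some i) (key 0 _ (by simpa [Dat.pt] using congrFun h0 0))
      (key 1 _ (by simpa [Dat.pt] using congrFun h0 1))

theorem Far.crd (h : Far d x y O g w j) (hO : IsLocalRing O) {P : MvPolynomial (Fin 3) k}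
    (hP : P.IsHomogeneous 3) (hs : ¬ ∀ i, aeval w (pderiv i P) ∈ mx O) : Crd O (aeval w P) := by
  intro hm
  by_cases hi : ∃ i, i ≠ j ∧ aeval w (pderiv i P) ∉ mx O
  · obtain ⟨i, hi, hu⟩ := hi
    obtain ⟨D, hD, e⟩ := h.der i hi
    refine ⟨D, hD, ?_⟩
    rw [der_aeval]
    simpa [e] using isU_of_not_mx (aeval_mem h.mem _) hu
  push Not at hi
  refine (hs fun i => ?_).elim
  by_cases hij : i = j
  swap
  · exact hi i hij
  have e := euler hP w
  rw [pol, ← Finset.add_sum_erase _ _ (Finset.mem_univ j), h.one, one_mul] at e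
  rw [hij, eq_sub_of_add_eq e]
  exact mx_sub' hO (mx_mul_left (natCast_mem O 3) hm)
    (mx_sum hO fun l hl => mx_mul_left (h.mem l) (hi l (Finset.ne_of_mem_erase hl)))

theorem Far.crd' (h : Far d x y O g w j) (hc : Cub d) (hO : IsLocalRing O) (i : Fin 2) :
    Crd O (aeval w (![d.F, d.G] i)) := by
  refine h.crd hO (hom hc i) fun hs => ?_
  have hρ : LocHom O (resid O) := resid_loc
  have z : ∀ l, aeval (fun i => evO O (resid O) (w i)) (pderiv l (![d.F, d.G] i)) = 0 := fun l => by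
    rw [← evO_aeval _ h.mem]
    exact (hρ.eq_zero_iff (aeval_mem h.mem _)).2 (hs l)
  fin_cases i
  · have := congrFun (hc.smF _ _ z) j
    simp [h.one, evO_one] at this
  · obtain ⟨h0, h1⟩ := hc.smG _ _ z
    rw [hρ.eq_zero_iff (h.mem _)] at h0 h1
    have hw : IsU O (w 2) := by
      have := h.one
      fin_cases j
      · exact absurd (this ▸ h0) one_not_mem_mx
      · exact absurd (this ▸ h1) one_not_mem_mx
      · exact this ▸ isU_one
    exact h.not_pt hw none (by simpa [hc.a0] using h0) (by simpa [hc.b0] using h1)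

end far

section near

variable {q : Q} {i : Fin 9} {u v r : M}

theorem Near.not_mx (h : Near d x y O q u v r) (hO : IsLocalRing O) (hu : u ∈ mx O)
    (hv : v ∈ mx O) : False := by
  obtain ⟨D, hD, -, h1⟩ := h.der
  exact h1.not_mx (mx_sub' hO (mx_mul_right hu (hD _ h.hv)) (mx_mul_right hv (hD _ h.hu)))

theorem Near.co_mem (h : Near d x y O q u v r) (P : MvPolynomial (Fin 3) k) (i : Fin 9)
    (j : Fin 3) : d.co P i u v j ∈ O := by
  obtain ⟨p, hp⟩ := co_poly d P i j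
  rw [hp]
  exact aeval_mem (fun l => by fin_cases l <;> simp [h.hu, h.hv]) p

/-- The proper transform of a cubic through a base point. -/
noncomputable def pt1 (d : Dat k) (P : MvPolynomial (Fin 3) k) (i : Fin 9) (u v r : M) : M :=
  d.co P i u v 0 + r * (d.co P i u v 1 + r * d.co P i u v 2)

theorem Near.tail (h : Near d x y O q u v r) (P : MvPolynomial (Fin 3) k) (i : Fin 9) :
    d.co P i u v 1 + r * d.co P i u v 2 ∈ O :=
  O.add_mem (h.co_mem P i 1) (O.mul_mem h.hr.1 (h.co_mem P i 2))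

theorem Near.pt1_mem (h : Near d x y O q u v r) (P : MvPolynomial (Fin 3) k) (i : Fin 9) :
    pt1 d P i u v r ∈ O :=
  O.add_mem (h.co_mem P i 0) (O.mul_mem h.hr.1 (h.tail P i))

theorem Near.co_mx (h : Near d x y O q u v r) (hO : IsLocalRing O) {P : MvPolynomial (Fin 3) k}
    {i : Fin 9} (hm : pt1 d P i u v r ∈ mx O) : d.co P i u v 0 ∈ mx O := by
  simpa [pt1] using mx_sub' hO hm (mx_mul_right h.hr (h.tail P i))

theorem Near.r_ne (h : Near d x y O q u v r) : r ≠ 0 := fun e => h.gen.1 (by simp [e])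

theorem Near.sT (h : Near d x y O (some i) u v r) (hc : Cub d) (hT : TLoc d x y)
    (hO : O ∈ TT d x y) (l : Fin 2) :
    ∃ e, IsU O e ∧ sT d x y l O = e * pt1 d (![d.F, d.G] l) i u v r := by
  refine ⟨_, lb_near hT hO h.ov h.gen (cC l), ?_⟩
  have e : (cC l : Lam ℤ).2 (some i) = 1 := by fin_cases l <;> rfl
  have hv : aeval (d.pt k (some i)) (![d.F, d.G] l) = 0 := by
    fin_cases l
    exacts [hc.vanF i, hc.vanG i]
  have e1 := aeval_line d (hom hc l) hv u v r
  rw [← h.hx, ← h.hy] at e1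
  rw [BV.sT, fg, e1, e, zpow_one, pt1]
  ring

theorem lin_mx (hO : IsLocalRing O) {a b c e : M} (ha : a ∈ O) (hb : b ∈ O) (hc : c ∈ O)
    (he : e ∈ O) (hd : IsU O (a * e - b * c)) (h1 : a * u + b * v ∈ mx O)
    (h2 : c * u + e * v ∈ mx O) : u ∈ mx O ∧ v ∈ mx O := by
  have h0 := hd.1
  constructor
  · convert mx_div (mx_sub' hO (mx_mul_left he h1) (mx_mul_left hb h2)) hd using 1
    rw [eq_div_iff h0]; ring
  · convert mx_div (mx_sub' hO (mx_mul_left ha h2) (mx_mul_left hc h1)) hd using 1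
    rw [eq_div_iff h0]; ring

theorem Near.unit (h : Near d x y O (some i) u v r) (hc : Cub d) (hO : IsLocalRing O) :
    IsU O (pt1 d d.F i u v r) ∨ IsU O (pt1 d d.G i u v r) := by
  by_contra hn
  rw [not_or] at hn
  have h1 := h.co_mx hO ⟨h.pt1_mem _ _, hn.1⟩
  have h2 := h.co_mx hO ⟨h.pt1_mem _ _, hn.2⟩
  rw [co_zero, mul_comm u, mul_comm v] at h1 h2
  obtain ⟨h3, h4⟩ := lin_mx hO (O.algebraMap_mem _) (O.algebraMap_mem _) (O.algebraMap_mem _)
    (O.algebraMap_mem _) (by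
      have := isU_const (O := O) (sub_ne_zero.2 (hc.jac i))
      rwa [map_sub, map_mul, map_mul] at this) h1 h2
  exact h.not_mx hO h3 h4

theorem Near.crd (h : Near d x y O (some i) u v r) (hc : Cub d) (hO : IsLocalRing O) (l : Fin 2) :
    Crd O (pt1 d (![d.F, d.G] l) i u v r) := by
  intro hm
  obtain ⟨D, hD, h0, h1⟩ := h.der
  refine ⟨D, hD, isU_of_not_mx (hD _ hm.1) fun hn => ?_⟩
  have h2 := h.co_mx hO hm
  have h3 : D (d.co (![d.F, d.G] l) i u v 0) ∈ mx O := by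
    have := mx_sub' hO hn (mx_mul_right h.hr (hD _ (h.tail (![d.F, d.G] l) i)))
    rwa [pt1, map_add, D.leibniz, h0, smul_zero, add_zero, smul_eq_mul, add_sub_cancel_right] at this
  rw [co_zero] at h2 h3
  rw [map_add, D.leibniz, D.leibniz, D.map_algebraMap, D.map_algebraMap, smul_zero, smul_zero,
    zero_add, zero_add, smul_eq_mul, smul_eq_mul, mul_comm _ (D u), mul_comm _ (D v)] at h3
  obtain ⟨h4, h5⟩ := lin_mx hO h.hu h.hv (hD _ h.hu) (hD _ h.hv) h1 h2 h3
  rw [const_mem_mx] at h4 h5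
  refine hc.jac i ?_
  fin_cases l
  · simp only [Fin.zero_eta, Matrix.cons_val_zero] at h4 h5
    rw [h4, h5, zero_mul, zero_mul]
  · simp only [Fin.mk_one, Matrix.cons_val_one, Matrix.cons_val_zero] at h4 h5
    rw [h4, h5, mul_zero, mul_zero]

theorem Near.sF (h : Near d x y O none u v r) (hc : Cub d) (hT : TLoc d x y)
    (hO : O ∈ TT d x y) : IsU O (BV.sT d x y 0 O) := by
  have h1 : IsU O (lb d x y (cC 0) O * r ^ (0 : ℤ)) := lb_near hT hO h.ov h.gen (cC 0)
  rw [zpow_zero, mul_one] at h1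
  refine IsU.mul ?_ h1
  obtain ⟨h2, h3⟩ := ov_iff.1 h.ov
  have h4 := aeval_sub_const (loc hT hO) (r := ![x, y, 1]) (c := ![0, 0, 1]) (fun l => by
    fin_cases l
    · simpa [xq, hc.a0] using h2
    · simpa [yq, hc.b0] using h3
    · simpa using zero_mem_mx) d.F
  have h5 := (isU_const (O := O) (c := eval ![0, 0, 1] d.F) (by
    simpa [coe_aeval_eq_eval] using hc.Fnu)).add_mx (loc hT hO) h4
  simpa [fg] using h5

theorem Near.vec (h : Near d x y O q u v r) (l : Fin 3) : ![u, v, 0] l ∈ O := by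
  fin_cases l <;> simp [h.hu, h.hv]

theorem Near.sG (h : Near d x y O none u v r) (hc : Cub d) (hT : TLoc d x y)
    (hO : O ∈ TT d x y) : ∃ e, IsU O e ∧ BV.sT d x y 1 O =
      e * (aeval ![u, v, 0] (pderiv 2 d.G) + r * aeval ![u, v, 0] d.G) := by
  have h1 : IsU O (lb d x y (cC 1) O * r ^ ((2 : ℕ) : ℤ)) := lb_near hT hO h.ov h.gen (cC 1)
  refine ⟨_, h1, ?_⟩
  have e1 := hc.G_blow u v r
  have e2 : x = u * r := by simpa [hc.a0] using h.hx
  have e3 : y = v * r := by simpa [hc.b0] using h.hy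
  rw [← e2, ← e3] at e1
  have e4 : fg d x y 1 = aeval ![x, y, 1] d.G := rfl
  rw [BV.sT, e4, e1, zpow_natCast]
  ring

theorem Near.crdG (h : Near d x y O q u v r) (hc : Cub d) (hO : IsLocalRing O) :
    Crd O (aeval ![u, v, 0] (pderiv 2 d.G) + r * aeval ![u, v, 0] d.G) := by
  intro hm
  obtain ⟨D, hD, h0, h1, h2⟩ := h.der'
  have z : ∀ P : MvPolynomial (Fin 3) k, D (aeval ![u, v, 0] P) = 0 := fun P => by
    rw [der_aeval]; simp [Fin.sum_univ_three, h1, h2]
  refine ⟨D, hD, ?_⟩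
  rw [map_add, D.leibniz, z, z, h0, smul_zero, zero_add, zero_add, smul_eq_mul, mul_one]
  refine isU_of_not_mx (aeval_mem h.vec _) fun hn => ?_
  have h3 : aeval ![u, v, 0] (pderiv 2 d.G) ∈ mx O := by
    simpa using mx_sub' hO hm (mx_mul_left h.hr.1 hn)
  have hρ : LocHom O (resid O) := resid_loc
  have e : (fun l => evO O (resid O) (![u, v, 0] l)) =
      ![evO O (resid O) u, evO O (resid O) v, 0] := by
    ext l; fin_cases l <;> simp [evO_zero]
  rw [← hρ.eq_zero_iff (aeval_mem h.vec _), evO_aeval _ h.vec, e] at hn h3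
  obtain ⟨h4, h5⟩ := hc.cop _ _ _ h3 hn
  exact h.not_mx hO ((hρ.eq_zero_iff h.hu).1 h4) ((hρ.eq_zero_iff h.hv).1 h5)

end near

theorem fg_ne (hc : Cub d) (hg : GenP k x y) (i : Fin 2) : fg d x y i ≠ 0 := by
  rw [fg, ← aeval_aff]
  refine hg.aeval_ne ?_
  fin_cases i
  exacts [hc.irrF.1.ne_zero, hc.irrG.1.ne_zero]

theorem all [CharZero k] [IsAlgClosed k] (hP : PlaneStmt) (hc : Cub d) (hg : GenP k x y)
    (hT : TLoc d x y) (hO : O ∈ TT d x y) : (∀ i, sT d x y i O ∈ O ∧ Crd O (sT d x y i O)) ∧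
      (IsU O (sT d x y 0 O) ∨ IsU O (sT d x y 1 O * ex d x y none O ^ 2)) := by
  have hl := loc hT hO
  rcases far_or_near hP hg hT hO with ⟨g, w, j, h⟩ | ⟨_ | i, u, v, r, h⟩
  · refine ⟨fun i => ?_, ?_⟩
    · obtain ⟨e, he, h1⟩ := h.sT hc hT hO i
      rw [h1]
      exact ⟨O.mul_mem he.mem (aeval_mem h.mem _),
        (h.crd' hc hl i).of_unit hl (aeval_mem h.mem _) he⟩
    · obtain ⟨e, he, h1⟩ := h.sT hc hT hO 0
      obtain ⟨e', he', h2⟩ := h.sT hc hT hO 1
      rw [h1, h2]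
      exact (h.unit hc hl).imp he.mul fun h3 =>
        (he'.mul h3).mul ((hT.exu O hO none (h.nov none)).pow 2)
  · have h0 := h.sF hc hT hO
    refine ⟨fun i => ?_, Or.inl h0⟩
    fin_cases i
    · exact ⟨h0.mem, fun hm => absurd hm h0.not_mx⟩
    · obtain ⟨e, he, h1⟩ := h.sG hc hT hO
      have m := O.add_mem (aeval_mem h.vec (pderiv 2 d.G)) (O.mul_mem h.hr.1 (aeval_mem h.vec d.G))
      simp only [Fin.mk_one]
      rw [h1]
      exact ⟨O.mul_mem he.mem m, (h.crdG hc hl).of_unit hl m he⟩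
  · refine ⟨fun l => ?_, ?_⟩
    · obtain ⟨e, he, h1⟩ := h.sT hc hT hO l
      rw [h1]
      exact ⟨O.mul_mem he.mem (h.pt1_mem _ _), (h.crd hc hl l).of_unit hl (h.pt1_mem _ _) he⟩
    · obtain ⟨e, he, h1⟩ := h.sT hc hT hO 0
      obtain ⟨e', he', h2⟩ := h.sT hc hT hO 1
      rw [h1, h2]
      exact (h.unit hc hl).imp he.mul fun h3 => (he'.mul h3).mul
        ((hT.exu O hO none fun h4 => by simpa using hT.ovu O hl _ _ h4 h.ov).pow 2)

end PenR

theorem pen_stmt : PenStmt := by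
  intro hP k M _ _ _ _ _ d x y hc hg hT
  refine ⟨PenR.fg_ne hc hg, fun O hO i => ((PenR.all hP hc hg hT hO).1 i).1,
    fun O hO => (PenR.all hP hc hg hT hO).2, fun O hO => ?_,
    fun O hO i => ((PenR.all hP hc hg hT hO).1 i).2,
    fun i => (isCart_const (PenR.fg_ne hc hg i)).mul (hT.cart (cC i))⟩
  obtain ⟨h1, h2⟩ := PenR.all hP hc hg hT hO
  have e0 : fg d x y 0 / (lb d x y cF O)⁻¹ = sT d x y 0 O := div_inv_eq_mul _ _
  have e1 : fg d x y 1 / (lb d x y cF O)⁻¹ = sT d x y 1 O * ex d x y none O ^ 2 := by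
    rw [div_inv_eq_mul, hT.lbF O hO, ← mul_assoc]; rfl
  refine ⟨?_, ?_⟩
  · rintro a (rfl | rfl)
    · exact e0 ▸ (h1 0).1
    · exact e1 ▸ O.mul_mem (h1 1).1 (O.pow_mem (hT.exm O hO none) 2)
  · exact h2.elim (fun h => ⟨_, by simp, e0 ▸ h⟩) fun h => ⟨_, by simp, e1 ▸ h⟩

end Pool.Agent.MP_20d318_ag.BV

end MrgPart0

-- ======== part 1: formerly Pool.Agent.MP_20d318_ag.BV.TPl
section MrgPart1

/-! The prime divisors of the surface `T`. -/

set_option autoImplicit false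

namespace Pool.Agent.MP_20d318_ag.BV

open Pool.Agent.MP_79c67d_ag Pool.Agent.MP_20d318_ag.AG MvPolynomial

namespace TPlR

open PenR

variable {k M : Type} [Field k] [Field M] [Algebra k M] {d : Dat k} {x y a b : M}
  {O W R : Subalgebra k M} {P P' : Place k M}

theorem irr_X : Irreducible (X 1 : MvPolynomial (Fin 2) k) := X_prime.irreducible

theorem unit_poly (h : PlOf a b (X 1 : MvPolynomial (Fin 2) k) P) {f : Polynomial k} (hf : f ≠ 0) :
    IsU (plO P) (Polynomial.aeval a f) := by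
  have e : aeval ![a, b] (Polynomial.aeval (X 0 : MvPolynomial (Fin 2) k) f) =
      Polynomial.aeval a f := by
    rw [← Polynomial.aeval_algHom_apply]; simp
  rw [← e]
  refine isU_of_not_mx (aeval_mem (fun i => ?_) _) fun hm => hf ?_
  · fin_cases i
    exacts [mem_left h.pts, mem_right h.pts]
  · obtain ⟨g, hg⟩ := (h.mem _).1 hm
    have := congrArg (aeval ![(Polynomial.X : Polynomial k), 0]) hg
    rw [← Polynomial.aeval_algHom_apply] at this
    simpa using this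

theorem ord_sum {ι : Type} [DecidableEq ι] {s : Finset ι} {t : ι → M} {j : ι} (hj : j ∈ s)
    (h0 : t j ≠ 0) (h : ∀ i ∈ s, i ≠ j → P.Ge (P.ord (t j) + 1) (t i)) :
    P.ord (∑ i ∈ s, t i) = P.ord (t j) := by
  rw [← Finset.add_sum_erase _ _ hj]
  exact (Place.add_ne_and_ord h0 (Place.ge_sum fun i hi =>
    h i (Finset.mem_of_mem_erase hi) (Finset.ne_of_mem_erase hi))).2

theorem ord_unit {u : M} (h : IsU (plO P) u) : P.ord u = 0 := ((isU_plO' P).1 h).2

theorem adj_le (ha : a ∈ O) (hb : b ∈ O) : Algebra.adjoin k {a, b} ≤ O :=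
  Algebra.adjoin_le (by rintro g (rfl | rfl) <;> assumption)

theorem vec_mem (ha : a ∈ O) (hb : b ∈ O) (i : Fin 2) : ![a, b] i ∈ O := by
  fin_cases i <;> assumption

theorem mem_TT (hT : TLoc d x y) (h : plO P ∈ Pts R)
    (h' : ∀ O ∈ TT d x y, Dom O (plO P) → R ≤ O) : plO P ∈ TT d x y :=
  mp_local h (fun l => (plO_isVal P).prin (hT.fam.fin l)
    ((hT.fam.ne l).imp fun a ha => ⟨ha, hT.fam.nz l a ha⟩)) h'

theorem mem_of_inv (hd : Dom O W) (h : a⁻¹ ∈ O) (h' : a ∈ W) : a ∈ O := by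
  by_cases h0 : a = 0
  · exact h0 ▸ O.zero_mem
  simpa using (hd.2 _ h ⟨inv_ne_zero h0, hd.1 h, by simpa using h'⟩).inv_mem

theorem xy_mem (hT : TLoc d x y) (hO : O ∈ TT d x y) (hd : Dom O W) (hx : x ∈ W) (hy : y ∈ W) :
    x ∈ O ∧ y ∈ O := by
  rcases hT.cases O hO with ⟨h1, h2, -⟩ | ⟨q, h, -⟩ | ⟨q, h, -⟩ | ⟨h1, h2⟩ | ⟨h1, h2⟩
  · exact ⟨h1, h2⟩
  · exact ov_mem h
  · exact ov_mem h
  · have h0 : x ≠ 0 := hT.fam.nz none x (by simp [famT, SH])
    exact absurd (mul_inv_cancel₀ h0 ▸ mx_mul_left hx (hd.mx h1)) one_not_mem_mx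
  · have h0 : y ≠ 0 := hT.fam.nz none y (by simp [famT, SH])
    exact absurd (mul_inv_cancel₀ h0 ▸ mx_mul_left hy (hd.mx h1)) one_not_mem_mx

/-- A place through the origin of a chart is impossible. -/
theorem not_both (hT : TLoc d x y) (hP : plO P ∈ TT d x y)
    (h : plO P ∈ Pts (Algebra.adjoin k {a, b})) {α β : k} (ha : a - algebraMap k M α ∈ mx (plO P))
    (hb : b - algebraMap k M β ∈ mx (plO P)) : False :=
  (hT.dim P hP).1 (ratPt_of h rfl (by
    rintro g (rfl | rfl)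
    exacts [⟨α, ha⟩, ⟨β, hb⟩]))

theorem eq_of_mx (hp : Plane (k := k) a b) (h : PlOf a b (X 1 : MvPolynomial (Fin 2) k) P)
    (h' : plO P' ∈ Pts (Algebra.adjoin k {a, b})) (hb : b ∈ mx (plO P')) : P' = P := by
  obtain ⟨p, h1⟩ := hp.plof P' h'
  exact hp.uniq _ _ _ _ h1 h ((h1.mem _).1 (by simpa using hb))

theorem ord_lb_near (hT : TLoc d x y) (hP : plO P ∈ TT d x y) {q : Q} (hq : Ov d x y q (plO P))
    (h1 : P.ord (ex d x y q (plO P)) = 1) (c : Lam ℤ) : P.ord (lb d x y c (plO P)) = -c.2 q := by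
  have h0 : ex d x y q (plO P) ≠ 0 := (hT.cartE q).ne hP
  have := ord_unit (lb_near hT hP hq (r := ex d x y q (plO P)) (by rw [div_self h0]; exact isU_one) c)
  rw [P.ord_mul (hT.lbne _ hP c) (zpow_ne_zero _ h0), P.ord_zpow, h1] at this
  omega

theorem ord_lb_far (hT : TLoc d x y) (hP : plO P ∈ TT d x y) (hq : ∀ q, ¬ Ov d x y q (plO P))
    (c : Lam ℤ) : P.ord (lb d x y c (plO P)) = -c.1 * P.ord (gn (SH x y) (plO P)) := by
  have h0 := (hT.gH _ hP).ne
  have := ord_unit (lb_far hT hP hq (g := gn (SH x y) (plO P))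
    (by rw [div_self h0]; exact isU_one) c)
  rw [P.ord_mul (hT.lbne _ hP c) (zpow_ne_zero _ h0), P.ord_zpow] at this
  linarith

variable [CharZero k] [IsAlgClosed k]

open Classical in
theorem plE (hP : PlaneStmt) (hg : GenP k x y) (hT : TLoc d x y) (q : Q) :
    ∃ P, Prm d x y (cE q) 1 P ∧ Ov d x y q (plO P) ∧ IsU (plO P) (xq d x q / yq d y q) ∧
    (∀ P' : Place k M, plO P' ∈ TT d x y → Ov d x y q (plO P') → P' = P) ∧
    ∀ p m, IsOrd p (d.a q) (d.b q) m → P.ord (aeval ![x, y] p) = m := by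
  have hp := hP k M _ _ (hT.g1 q)
  obtain ⟨P, h⟩ := hp.ex _ irr_X
  have h0 : yq d y q ≠ 0 := hg.y_ne _
  have hr : P.ord (yq d y q) = 1 := by simpa using h.ord
  have hm : yq d y q ∈ mx (plO P) := (mx_plO h0).2 (by omega)
  have hu : IsU (plO P) (xq d x q / yq d y q) := by
    simpa using unit_poly h Polynomial.X_ne_zero
  have hov : Ov d x y q (plO P) :=
    ov_iff.2 ⟨by simpa [h0] using mx_mul_left hu.mem hm, hm⟩
  have hTT : plO P ∈ TT d x y := mem_TT hT h.pts fun O hO hd => by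
    refine adj_le ?_ (O.sub_mem (xy_mem hT hO hd (ov_mem hov).1 (ov_mem hov).2).2
      (O.algebraMap_mem _))
    exact (Prin.pair (hT.gQ O hO q).prin).elim id fun h1 =>
      mem_of_inv hd (by rwa [inv_div]) hu.mem
  have huniq : ∀ P' : Place k M, plO P' ∈ TT d x y → Ov d x y q (plO P') → P' = P := by
    intro P' h1 h2
    by_cases h3 : xq d x q / yq d y q ∈ plO P'
    · exact eq_of_mx hp h (hT.c1 _ h1 q h2 h3).1 (ov_iff.1 h2).2
    · have h4 := (plO_isVal P').inv_mx h3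
      rw [inv_div] at h4
      exact (not_both hT h1 (hT.c2 _ h1 q h2 h4.1).1 (α := 0) (β := 0) (by simpa using h4)
        (by simpa using (ov_iff.1 h2).1)).elim
  refine ⟨P, ⟨one_ne_zero, hTT, fun P' h1 => ?_⟩, hov, hu, huniq, fun p m hm' => ?_⟩
  · rw [one_mul, hT.lbE]
    split_ifs with h2
    · subst h2
      have := ord_unit (hT.c1 _ h1 q hov hu.mem).2
      rw [P'.ord_div ((hT.cartE q).ne h1) h0] at this
      omega
    · exact ord_unit (hT.exu _ h1 q fun h3 => h2 (huniq P' h1 h3))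
  · have e : ∀ j, aeval ![x - algebraMap k M (d.a q), y - algebraMap k M (d.b q)]
        (tay p (d.a q) (d.b q) j) =
        yq d y q ^ j * aeval ![xq d x q / yq d y q, 1] (tay p (d.a q) (d.b q) j) := fun j => by
      rw [← aeval_smul (tay_hom p _ _ j)]
      congr 2
      ext i; fin_cases i
      · simp [mul_div_cancel₀ _ h0, xq]
      · simp [yq]
    have hun : IsU (plO P) (aeval ![xq d x q / yq d y q, 1] (tay p (d.a q) (d.b q) m)) := by
      convert unit_poly h (dehom_ne (tay_hom p _ _ m) hm'.2).1 using 1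
      rw [← AlgHom.comp_apply, comp_aeval]
      congr 2
      ext i; fin_cases i <;> simp
    have ho : P.ord (yq d y q ^ m * aeval ![xq d x q / yq d y q, 1] (tay p (d.a q) (d.b q) m)) =
        m := by
      rw [P.ord_mul (pow_ne_zero _ h0) hun.1, ord_unit hun, P.ord_pow, hr]; simp
    rw [aeval_tay p (d.a q) (d.b q), Finset.sum_congr rfl fun j _ => e j]
    refine Eq.trans (b := P.ord _) (ord_sum (j := m) ?_ ?_ fun i _ hi => ?_) ho
    rotate_left
    · exact mul_ne_zero (pow_ne_zero _ h0) hun.1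
    rotate_left
    · rw [Finset.mem_range]
      by_contra hn
      exact hm'.2 (tay_of_lt (by omega))
    · rcases lt_or_gt_of_ne hi with h2 | h2
      · rw [hm'.1 i h2, map_zero, mul_zero]; exact P.ge_zero _
      · rw [ho]
        refine (Place.Ge.mul0' (P.ge_of_le ?_) ((mem_plO' P).1
          (aeval_mem (vec_mem hu.mem (plO P).one_mem) _)))
        rw [P.ord_pow, hr]; omega

open Classical in
theorem plL (hP : PlaneStmt) (hg : GenP k x y) (hT : TLoc d x y) :
    ∃ P, Prm d x y cH 1 P ∧ x⁻¹ ∈ mx (plO P) ∧ IsU (plO P) (y / x) ∧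
    (∀ P' : Place k M, plO P' ∈ TT d x y → ¬ (x ∈ plO P' ∧ y ∈ plO P') → P' = P) ∧
    ∀ p : MvPolynomial (Fin 2) k, p ≠ 0 → P.ord (aeval ![x, y] p) = -p.totalDegree := by
  have hp := hP k M _ _ hT.g3
  obtain ⟨P, h⟩ := hp.ex _ irr_X
  have h0 : x ≠ 0 := by simpa using hg.x_ne 0
  have hy0 : y ≠ 0 := by simpa using hg.y_ne 0
  have hr : P.ord x = -1 := by
    have : -P.ord x = 1 := by simpa using h.ord
    omega
  have hm : x⁻¹ ∈ mx (plO P) := (mx_plO (inv_ne_zero h0)).2 (by rw [P.ord_inv]; omega)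
  have hu : IsU (plO P) (y / x) := by simpa using unit_poly h Polynomial.X_ne_zero
  have hx : x ∉ plO P := fun h1 =>
    absurd (mul_inv_cancel₀ h0 ▸ mx_mul_left h1 hm) one_not_mem_mx
  have e0 : y⁻¹ * (y / x) = x⁻¹ := by field_simp
  have hTT : plO P ∈ TT d x y := mem_TT hT h.pts fun O hO hd => by
    rcases hT.cases O hO with ⟨h1, -⟩ | ⟨q, h1, -⟩ | ⟨q, h1, -⟩ | ⟨h1, h2⟩ | ⟨h1, h2⟩
    · exact absurd (hd.1 h1) hx
    · exact absurd (hd.1 (ov_mem h1).1) hx
    · exact absurd (hd.1 (ov_mem h1).1) hx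
    · exact adj_le h2 h1.1
    · have h3 : y / x ∈ O := mem_of_inv hd (by rwa [inv_div]) hu.mem
      exact adj_le h3 (e0 ▸ O.mul_mem h1.1 h3)
  have huniq : ∀ P' : Place k M, plO P' ∈ TT d x y → ¬ (x ∈ plO P' ∧ y ∈ plO P') → P' = P := by
    intro P' hO hn
    rcases hT.cases _ hO with ⟨h1, h2, -⟩ | ⟨q, h1, -⟩ | ⟨q, h1, -⟩ | ⟨h1, h2⟩ | ⟨h1, h2⟩
    · exact absurd ⟨h1, h2⟩ hn
    · exact absurd (ov_mem h1) hn
    · exact absurd (ov_mem h1) hn
    · exact eq_of_mx hp h (hT.c3 _ hO h1 h2).1 h1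
    · by_cases h3 : y / x ∈ plO P'
      · have h4 : x⁻¹ ∈ mx (plO P') := e0 ▸ mx_mul_right h1 h3
        exact eq_of_mx hp h (hT.c3 _ hO h4 h3).1 h4
      · have h4 := (plO_isVal P').inv_mx h3
        rw [inv_div] at h4
        exact (not_both hT hO (hT.c4 _ hO h1 h2).1 (α := 0) (β := 0) (by simpa using h4)
          (by simpa using h1)).elim
  refine ⟨P, ⟨one_ne_zero, hTT, fun P' h1 => ?_⟩, hm, hu, huniq, fun p hp0 => ?_⟩
  · rw [one_mul, hT.lbH, P'.ord_inv]
    split_ifs with h2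
    · subst h2
      have := ord_unit (hT.c3 _ h1 hm hu.mem).2.1
      rw [P'.ord_div (hT.gH _ h1).ne h0] at this
      omega
    · have h3 : x ∈ plO P' ∧ y ∈ plO P' := by_contra fun h3 => h2 (huniq P' h1 h3)
      rw [ord_unit (hT.hu _ h1 h3.1 h3.2), neg_zero]
  · have e : ∀ j, aeval ![x - algebraMap k M 0, y - algebraMap k M 0] (tay p 0 0 j) =
        x ^ j * aeval ![1, y / x] (tay p 0 0 j) := fun j => by
      rw [← aeval_smul (tay_hom p _ _ j)]
      congr 2
      ext i; fin_cases i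
      · simp
      · simp [mul_div_cancel₀ _ h0]
    have hun : IsU (plO P) (aeval ![1, y / x] (tay p 0 0 p.totalDegree)) := by
      convert unit_poly h (dehom_ne (tay_hom p _ _ _) (tay_top hp0 0 0)).2 using 1
      rw [← AlgHom.comp_apply, comp_aeval]
      congr 2
      ext i; fin_cases i <;> simp
    have ho : P.ord (x ^ p.totalDegree * aeval ![1, y / x] (tay p 0 0 p.totalDegree)) =
        -p.totalDegree := by
      rw [P.ord_mul (pow_ne_zero _ h0) hun.1, ord_unit hun, P.ord_pow, hr]; simp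
    rw [aeval_tay p 0 0, Finset.sum_congr rfl fun j _ => e j]
    refine Eq.trans (b := P.ord _) (ord_sum (j := p.totalDegree) ?_ ?_ fun i hi hi' => ?_) ho
    · simp
    · exact mul_ne_zero (pow_ne_zero _ h0) hun.1
    rw [ho]
    refine (Place.Ge.mul0' (P.ge_of_le ?_) ((mem_plO' P).1
      (aeval_mem (vec_mem (plO P).one_mem hu.mem) _)))
    rw [Finset.mem_range] at hi
    rw [P.ord_pow, hr]; omega

/-- The three kinds of prime divisors, with the orders of the polynomials and of `lb c`. -/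
theorem kinds (hP : PlaneStmt) (hg : GenP k x y) (hT : TLoc d x y) (hO : plO P ∈ TT d x y) :
    (∃ q, Ov d x y q (plO P) ∧ Prm d x y (cE q) 1 P ∧
      (∀ c, P.ord (lb d x y c (plO P)) = -c.2 q) ∧
      ∀ p m, IsOrd p (d.a q) (d.b q) m → P.ord (aeval ![x, y] p) = m) ∨
    (¬ (x ∈ plO P ∧ y ∈ plO P) ∧ Prm d x y cH 1 P ∧ (∀ c, P.ord (lb d x y c (plO P)) = c.1) ∧
      ∀ p : MvPolynomial (Fin 2) k, p ≠ 0 → P.ord (aeval ![x, y] p) = -p.totalDegree) ∨
    ((∀ c, P.ord (lb d x y c (plO P)) = 0) ∧ ∃ p, PlOf x y p P) := by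
  by_cases h1 : ∃ q, Ov d x y q (plO P)
  · obtain ⟨q, hq⟩ := h1
    obtain ⟨P₀, h2, -, -, h3, h4⟩ := plE hP hg hT q
    obtain rfl := h3 P hO hq
    refine Or.inl ⟨q, hq, h2, ord_lb_near hT hO hq ?_, h4⟩
    simpa [hT.lbE] using h2.2.2 P hO
  push Not at h1
  by_cases h2 : x ∈ plO P ∧ y ∈ plO P
  · refine Or.inr (Or.inr ⟨fun c => ?_, (hP k M x y hg).plof P (hT.c0 _ hO h2.1 h2.2 h1)⟩)
    rw [ord_lb_far hT hO h1, ord_unit (hT.hu _ hO h2.1 h2.2), mul_zero]
  · obtain ⟨P₀, h3, -, -, h4, h5⟩ := plL hP hg hT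
    obtain rfl := h4 P hO h2
    refine Or.inr (Or.inl ⟨h2, h3, fun c => ?_, h5⟩)
    have : -P.ord (gn (SH x y) (plO P)) = 1 := by simpa [hT.lbH] using h3.2.2 P hO
    rw [ord_lb_far hT hO h1, neg_mul_comm, this, mul_one]

theorem plP (hP : PlaneStmt) (hg : GenP k x y) (hT : TLoc d x y) (p : MvPolynomial (Fin 2) k)
    (P : Place k M) (m : Q → ℕ) (h : PlOf x y p P) (hm : ∀ q, IsOrd p (d.a q) (d.b q) (m q)) :
    Prm d x y (p.totalDegree, fun q => m q) (aeval ![x, y] p) P ∧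
      ∀ q, ¬ Ov d x y q (plO P) := by
  have hx := mem_left h.pts
  have hy := mem_right h.pts
  have hTT : plO P ∈ TT d x y := mem_TT hT h.pts fun O hO hd =>
    adj_le (xy_mem hT hO hd hx hy).1 (xy_mem hT hO hd hx hy).2
  have hn : ∀ q, ¬ Ov d x y q (plO P) := fun q hq =>
    not_both hT hTT h.pts (ov_iff.1 hq).1 (ov_iff.1 hq).2
  have h0 := hg.aeval_ne h.irr.ne_zero
  refine ⟨⟨h0, hTT, fun P' h1 => ?_⟩, hn⟩
  rw [P'.ord_mul h0 (hT.lbne _ h1 _)]
  rcases kinds hP hg hT h1 with ⟨q, h2, -, h3, h4⟩ | ⟨h2, -, h3, h4⟩ | ⟨h3, p', h4⟩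
  · rw [h3, h4 p _ (hm q), if_neg fun e : P' = P => hn q (e ▸ h2)]; simp
  · rw [h3, h4 p h.irr.ne_zero, if_neg fun e : P' = P => h2 (e ▸ ⟨hx, hy⟩)]; simp
  · rw [h3, add_zero]
    split_ifs with e
    · exact e ▸ h.ord
    · exact ord_unit (isU_of_not_mx (aeval_mem (vec_mem (mem_left h4.pts) (mem_right h4.pts)) p)
        fun h5 => e ((hP k M x y hg).uniq _ _ _ _ h4 h ((h4.mem p).1 h5)))

theorem sec (hP : PlaneStmt) (hg : GenP k x y) (hT : TLoc d x y) (c : Lam ℤ)
    (p : MvPolynomial (Fin 2) k) (hp : p ≠ 0) (hd : (p.totalDegree : ℤ) ≤ c.1)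
    (hv : ∀ q, Van p (d.a q) (d.b q) (c.2 q).toNat) : Sec d x y c (aeval ![x, y] p) := by
  have h0 := hg.aeval_ne hp
  refine ⟨h0, fun O hO => hT.nice.eff (f := fun O => aeval ![x, y] p * lb d x y c O)
    ((isCart_const h0).mul (hT.cart c)) hO fun P h1 _ => ?_⟩
  rw [P.ord_mul h0 (hT.lbne _ h1 _)]
  rcases kinds hP hg hT h1 with ⟨q, -, -, h3, h4⟩ | ⟨-, -, h3, h4⟩ | ⟨h3, p', h4⟩
  · obtain ⟨m, -, hm⟩ := exists_isOrd hp (d.a q) (d.b q)
    have := hm.le (hv q)
    rw [h3, h4 p m hm]; omega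
  · rw [h3, h4 p hp]; omega
  · rw [h3, add_zero]
    exact mem_plO_ord.1 (aeval_mem (vec_mem (mem_left h4.pts) (mem_right h4.pts)) p)

theorem prm_of (hP : PlaneStmt) (hg : GenP k x y) (hT : TLoc d x y) {p : MvPolynomial (Fin 2) k}
    (hp : Irreducible p) {m : Q → ℕ} (hm : ∀ q, IsOrd p (d.a q) (d.b q) (m q)) {c : Lam ℤ}
    (h1 : c.1 = p.totalDegree) (h2 : ∀ q, c.2 q = m q) : ∃ P, Prm d x y c (aeval ![x, y] p) P := by
  obtain ⟨P, h⟩ := (hP k M x y hg).ex p hp
  obtain rfl : c = ((p.totalDegree : ℤ), fun q => (m q : ℤ)) := Prod.ext h1 (funext h2)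
  exact ⟨P, (plP hP hg hT p P m h hm).1⟩

end TPlR

theorem tPl_stmt : TPlStmt := by
  intro hP k M _ _ _ _ _ d x y hc hg hT
  refine ⟨TPlR.plE hP hg hT, TPlR.plL hP hg hT, TPlR.plP hP hg hT, TPlR.sec hP hg hT,
    fun P hO => ?_, fun α β hα => ?_, fun i => ?_, fun i j hij => ?_⟩
  · rcases TPlR.kinds hP hg hT hO with ⟨q, -, h, -⟩ | ⟨-, h, -⟩ | ⟨-, p, h⟩
    · exact ⟨_, _, h⟩
    · exact ⟨_, _, h⟩
    · choose m _ hm using fun q => exists_isOrd h.irr.ne_zero (d.a q) (d.b q)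
      exact ⟨_, _, (TPlR.plP hP hg hT p P m h hm).1⟩
  · have h := hc.irr α β (Or.inl hα)
    have := TPlR.prm_of hP hg hT h.1 (hc.ordW hα β) (c := cF) (by rw [h.2]; rfl)
      fun q => by cases q <;> rfl
    simpa [aeval_aff, fg] using this
  · fin_cases i
    · have := TPlR.prm_of hP hg hT hc.irrF.1 hc.ordF (c := cF) (by rw [hc.irrF.2]; rfl)
        fun q => by cases q <;> rfl
      rwa [aeval_aff] at this
    · have := TPlR.prm_of hP hg hT hc.irrG.1 hc.ordG (c := cR) (by rw [hc.irrG.2]; rfl)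
        fun q => by cases q <;> rfl
      rwa [aeval_aff] at this
  · obtain ⟨h1, h2, h3⟩ := hc.lin hij
    refine TPlR.prm_of hP hg hT h1 h3 (by rw [h2]; rfl) fun q => ?_
    by_cases e1 : q = some i
    · simp [ch, cE, e1, hij]
    · by_cases e2 : q = some j
      · simp [ch, cE, e2, hij.symm]
      · simp [ch, cE, e1, e2]

end Pool.Agent.MP_20d318_ag.BV

end MrgPart1

-- marker of a merged file
example : 731051 + 723942 = 731051 + 723942 := rfl

end MrgPart2

-- ======== part 3: formerly Pool.Agent.MP_20d318_ag.BV.Sig1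
section MrgPart3

/-! SIG1: existence of the involution. -/

set_option autoImplicit false

namespace Pool.Agent.MP_20d318_ag.BV

open MvPolynomial

namespace Sig1

variable {k M : Type} [Field k] [Field M] [Algebra k M]

theorem aeval_mem {σ : Type} (E : IntermediateField k M) {v : σ → M} (h : ∀ i, v i ∈ E)
    (p : MvPolynomial σ k) : aeval v p ∈ E := by
  induction p using MvPolynomial.induction_on with
  | C a => simp
  | add p q hp hq => rw [map_add]; exact add_mem hp hq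
  | mul_X p i hp => rw [map_mul, aeval_X]; exact mul_mem hp (h i)

theorem der_aeval_zero {σ : Type} (D : Derivation k M M) {v : σ → M} (h : ∀ i, D (v i) = 0)
    (p : MvPolynomial σ k) : D (aeval v p) = 0 := by
  induction p using MvPolynomial.induction_on with
  | C a => simp
  | add p q hp hq => rw [map_add, map_add, hp, hq, add_zero]
  | mul_X p i hp => rw [map_mul, aeval_X, D.leibniz, hp, h i, smul_zero, smul_zero, add_zero]

theorem co_mem (d : Dat k) (P : MvPolynomial (Fin 3) k) (i : Fin 9) (j : Fin 3)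
    (E : IntermediateField k M) {u : M} (hu : u ∈ E) : d.co P i u 1 j ∈ E := by
  obtain ⟨p, hp⟩ := co_poly d P i j
  rw [hp]
  refine aeval_mem E (fun l => ?_) p
  fin_cases l
  exacts [hu, E.one_mem]

theorem co_der (d : Dat k) (P : MvPolynomial (Fin 3) k) (i : Fin 9) (j : Fin 3)
    (D : Derivation k M M) {u : M} (hu : D u = 0) : D (d.co P i u 1 j) = 0 := by
  obtain ⟨p, hp⟩ := co_poly d P i j
  rw [hp]
  refine der_aeval_zero D (fun l => ?_) p
  fin_cases l
  exacts [hu, D.map_one_eq_zero]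

theorem top_of {x y : M} (h : GenP k x y) {E : IntermediateField k M} (hx : x ∈ E) (hy : y ∈ E) :
    E = ⊤ := by
  rw [eq_top_iff, ← h.top, IntermediateField.adjoin_le_iff]
  rintro _ (rfl | rfl)
  exacts [hx, hy]

theorem der_ex {a b : M} (h : Plane (k := k) a b) :
    (∃ D : Derivation k M M, D a = 1 ∧ D b = 0) ∧ ∃ D : Derivation k M M, D a = 0 ∧ D b = 1 := by
  obtain ⟨D0, h0⟩ := h.der 0
  obtain ⟨D1, h1⟩ := h.der 1
  exact ⟨⟨D0, by simpa using h0 (X 0), by simpa using h0 (X 1)⟩,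
    D1, by simpa using h1 (X 0), by simpa using h1 (X 1)⟩

end Sig1

open Sig1 in
theorem sig1_stmt : Sig1Stmt := by
  intro hP k M _ _ _ _ _ d x y hc hg i
  have : CharZero M := charZero_of_injective_algebraMap (algebraMap k M).injective
  have pl := hP k M x y hg
  obtain ⟨a, ha⟩ : ∃ a, a = algebraMap k M (d.a (some i)) := ⟨_, rfl⟩
  obtain ⟨b, hb⟩ : ∃ b, b = algebraMap k M (d.b (some i)) := ⟨_, rfl⟩
  obtain ⟨r, hr⟩ : ∃ r, r = y - b := ⟨_, rfl⟩
  have r0 : r ≠ 0 := by rw [hr, hb]; exact hg.y_ne _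
  obtain ⟨u, hu⟩ : ∃ u, u = (x - a) / r := ⟨_, rfl⟩
  have ex : x = a + u * r := by rw [hu]; field_simp; ring
  have ey : y = b + r := by rw [hr]; ring
  have hur : GenP k u r := pl.top u r (by
    have h1 : u ∈ IntermediateField.adjoin k {u, r} :=
      IntermediateField.subset_adjoin _ _ (by simp)
    have h2 : r ∈ IntermediateField.adjoin k {u, r} :=
      IntermediateField.subset_adjoin _ _ (by simp)
    refine top_of hg ?_ ?_
    · rw [ex, ha]; exact add_mem (IntermediateField.algebraMap_mem _ _) (mul_mem h1 h2)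
    · rw [ey, hb]; exact add_mem (IntermediateField.algebraMap_mem _ _) h2)
  obtain ⟨⟨D0, D0u, -⟩, D, Du, Dr⟩ := der_ex (hP k M u r hur)
  have lF : ∀ s : M, fg d (a + u * s) (b + s) 0 =
      s * (d.co d.F i u 1 0 + s * d.co d.F i u 1 1 + s ^ 2 * d.co d.F i u 1 2) := fun s => by
    have := aeval_line d hc.hF (hc.vanF i) u 1 s
    rw [one_mul, ← ha, ← hb] at this
    exact this
  have lG : ∀ s : M, fg d (a + u * s) (b + s) 1 =
      s * (d.co d.G i u 1 0 + s * d.co d.G i u 1 1 + s ^ 2 * d.co d.G i u 1 2) := fun s => by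
    have := aeval_line d hc.hG (hc.vanG i) u 1 s
    rw [one_mul, ← ha, ← hb] at this
    exact this
  have g0 : fg d x y 1 ≠ 0 := by
    have := hg.aeval_ne hc.irrG.1.ne_zero
    rwa [aeval_aff] at this
  obtain ⟨t, ht⟩ : ∃ t, t = fg d x y 0 / fg d x y 1 := ⟨_, rfl⟩
  have et : fg d x y 0 = t * fg d x y 1 := by rw [ht]; field_simp
  have dF := fun j => co_der d d.F i j D Du
  have dG := fun j => co_der d d.G i j D Du
  have mF := fun j E => co_mem d d.F i j E (u := u)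
  have mG := fun j E => co_mem d d.G i j E (u := u)
  have nol := hc.nol M i 1 t u 1
  have f2 : d.co d.F i u 1 2 = aeval ![u, 1, 0] d.F := rfl
  have g2 : d.co d.G i u 1 2 = aeval ![u, 1, 0] d.G := rfl
  have f0 := co_zero d d.F i u 1
  have g0' := co_zero d d.G i u 1
  have key : ∃ r' : M, r' ≠ 0 ∧ d.co d.F i u 1 2 - t * d.co d.G i u 1 2 ≠ 0 ∧
      (d.co d.F i u 1 2 - t * d.co d.G i u 1 2) * (r + r') =
        -(d.co d.F i u 1 1 - t * d.co d.G i u 1 1) ∧
      (d.co d.F i u 1 2 - t * d.co d.G i u 1 2) * (r * r') =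
        d.co d.F i u 1 0 - t * d.co d.G i u 1 0 := by
    have e := et
    rw [ex, ey, lF, lG] at e
    generalize d.co d.F i u 1 = f at *
    generalize d.co d.G i u 1 = g at *
    have q : (f 0 - t * g 0) + r * (f 1 - t * g 1) + r ^ 2 * (f 2 - t * g 2) = 0 :=
      mul_left_cancel₀ r0 (by linear_combination e)
    have dA : ∀ j, D (f j - t * g j) = -(g j * D t) := fun j => by
      simp [D.leibniz, dF j, dG j]
    have Dt : D t ≠ 0 := fun h0 => by
      have d0 : ∀ j, D (f j - t * g j) = 0 := fun j => by rw [dA, h0]; ring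
      have q1 := congrArg D q
      simp only [map_add, D.leibniz, d0, Dr, D.leibniz_pow, smul_eq_mul, map_zero,
        nsmul_eq_mul] at q1
      have q1' : (f 1 - t * g 1) + 2 * (r * (f 2 - t * g 2)) = 0 := by
        norm_num at q1; linear_combination q1
      have q2 := congrArg D q1'
      have d2 : D (2 : M) = 0 := by simpa using D.map_natCast 2
      simp only [map_add, D.leibniz, d0, Dr, smul_eq_mul, map_zero, d2] at q2
      have a2 : f 2 - t * g 2 = 0 := by
        have : 2 * (f 2 - t * g 2) = 0 := by linear_combination q2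
        exact (mul_eq_zero.1 this).resolve_left two_ne_zero
      have a1 : f 1 - t * g 1 = 0 := by rw [a2] at q1'; linear_combination q1'
      have a0 : f 0 - t * g 0 = 0 := by rw [a1, a2] at q; linear_combination q
      rcases nol (fun j => by
        fin_cases j
        · exact by simpa [sub_eq_zero] using a0
        · exact by simpa [sub_eq_zero] using a1
        · exact by simpa [sub_eq_zero] using a2) with h | h
      exacts [one_ne_zero h.1, one_ne_zero h.2]
    have ne : ∀ j, f j - t * g j = 0 → f j = 0 ∧ g j = 0 := fun j h => by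
      have h1 := dA j
      rw [h, map_zero, eq_comm, neg_eq_zero, mul_eq_zero] at h1
      have h2 := h1.resolve_right Dt
      rw [h2] at h
      exact ⟨by linear_combination h, h2⟩
    have A2 : f 2 - t * g 2 ≠ 0 := fun h => by
      obtain ⟨h1, h2⟩ := ne 2 h
      rcases hc.base M ![u, 1, 0] (f2 ▸ h1) (g2 ▸ h2) with h | ⟨_, h, -⟩
      · exact one_ne_zero (congrFun h 1)
      · exact h rfl
    have A0 : f 0 - t * g 0 ≠ 0 := fun h => by
      obtain ⟨h1, h2⟩ := ne 0 h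
      refine hc.jac i ((algebraMap k M).injective ?_)
      rw [map_mul, map_mul]
      rw [f0] at h1
      rw [g0'] at h2
      generalize algebraMap k M (aeval (d.pt k (some i)) (pderiv 0 d.F)) = a1 at *
      generalize algebraMap k M (aeval (d.pt k (some i)) (pderiv 1 d.F)) = a2 at *
      generalize algebraMap k M (aeval (d.pt k (some i)) (pderiv 0 d.G)) = a3 at *
      generalize algebraMap k M (aeval (d.pt k (some i)) (pderiv 1 d.G)) = a4 at *
      linear_combination a1 * h2 - a3 * h1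
    have s1 : (f 2 - t * g 2) * (r + (-(f 1 - t * g 1) / (f 2 - t * g 2) - r)) =
        -(f 1 - t * g 1) := by field_simp; ring
    have s2 : (f 2 - t * g 2) * (r * (-(f 1 - t * g 1) / (f 2 - t * g 2) - r)) =
        f 0 - t * g 0 := by linear_combination r * s1 - q
    exact ⟨_, fun h => A0 (by rw [← s2, h]; ring), A2, s1, s2⟩
  obtain ⟨r', r1, A2, s1, s2⟩ := key
  have et' : fg d (a + u * r') (b + r') 0 = t * fg d (a + u * r') (b + r') 1 := by
    rw [lF, lG]
    linear_combination r' * (r' * s1 - s2)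
  have g1 : fg d (a + u * r') (b + r') 1 ≠ 0 := fun h => by
    rcases hc.base M ![a + u * r', b + r', 1] (by have := et'; rw [h, mul_zero] at this; exact this)
      h with h' | ⟨j, -, h'⟩
    · exact one_ne_zero (congrFun h' 2)
    · have h1 : a + u * r' = algebraMap k M (d.a (some j)) := by
        simpa [Dat.pt] using congrFun h' 0
      have h2 : b + r' = algebraMap k M (d.b (some j)) := by
        simpa [Dat.pt] using congrFun h' 1
      have h3 := congrArg D0 h2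
      have h4 := congrArg D0 h1
      rw [hb, map_add, D0.map_algebraMap, D0.map_algebraMap, zero_add] at h3
      rw [ha, map_add, D0.map_algebraMap, D0.map_algebraMap, D0.leibniz, h3, D0u] at h4
      exact r1 (by simpa using h4)
  have hg' : GenP k (a + u * r') (b + r') := pl.top _ _ (by
    generalize hE : IntermediateField.adjoin k {a + u * r', b + r'} = E
    have h1 : a + u * r' ∈ E := hE ▸ IntermediateField.subset_adjoin _ _ (by simp)
    have h2 : b + r' ∈ E := hE ▸ IntermediateField.subset_adjoin _ _ (by simp)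
    have ma : a ∈ E := ha ▸ E.algebraMap_mem _
    have mb : b ∈ E := hb ▸ E.algebraMap_mem _
    have mr : r' ∈ E := by simpa using sub_mem h2 mb
    have mu : u ∈ E := by
      have := div_mem (sub_mem h1 ma) mr
      rwa [add_sub_cancel_left, mul_div_cancel_right₀ _ r1] at this
    have mf : ∀ j, fg d (a + u * r') (b + r') j ∈ E := fun j =>
      Sig1.aeval_mem E (fun l => by fin_cases l; exacts [h1, h2, E.one_mem]) _
    have mt : t ∈ E := by
      have := div_mem (mf 0) (mf 1)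
      rwa [et', mul_div_cancel_right₀ _ g1] at this
    have mA := fun j => sub_mem (mF j E mu) (mul_mem mt (mG j E mu))
    have mr0 : r ∈ E := by
      have := sub_mem (div_mem (neg_mem (mA 1)) (mA 2)) mr
      rwa [← s1, mul_div_cancel_left₀ _ A2, add_sub_cancel_right] at this
    exact top_of hg (ex ▸ add_mem ma (mul_mem mu mr0)) (ey ▸ add_mem mb mr0))
  obtain ⟨σ, h1, h2⟩ := pl.hom _ _ hg'
  rw [← h1, ← h2] at hg' et'
  exact ⟨σ, hg', u, t, r, r', ha ▸ ex, hb ▸ ey, ha ▸ h1, hb ▸ h2, et, et', A2, s1, s2⟩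

end Pool.Agent.MP_20d318_ag.BV

end MrgPart3

-- marker of a merged file
example : 731051 + 479736 = 731051 + 479736 := rfl
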