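import Mathlib.Algebra.MvPolynomial.Funext
import Mathlib.Algebra.Polynomial.SpecificDegree
import Mathlib.Analysis.CStarAlgebra.Classes
import Mathlib.LinearAlgebra.CrossProduct
import Mathlib.RingTheory.Nullstellensatz
import Mathlib.RingTheory.MvPolynomial.EulerIdentity
import Mathlib.RingTheory.MvPolynomial.IrreducibleQuadratic
import Mathlib.Tactic.Polynomial.Basic
import Pool.Agent.MP_20d318_ag.BV.Poly2
import Pool.Agent.MP_20d318_ag.BV.Sig1

-- ======== part 0: formerly Pool.Agent.MP_20d318_ag.BV.Eta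
section MrgPart0

/-! A simple root gives a formally smooth local ring; smoothness is local. -/

set_option autoImplicit false

namespace Pool.Agent.MP_20d318_ag.BV

open Pool.Agent.MP_79c67d_ag Pool.Agent.MP_20d318_ag.AG MvPolynomial

namespace ETA

variable {k K : Type} [Field k] [Field K] [Algebra k K]

/-- An irreducible relation generates all relations. -/
theorem dvd_of_root {R : Type} [CommRing R] [IsDomain R] [IsGCDMonoid R] (ψ : R →+* K)
    (hψ : Function.Injective ψ) (θ : K) {p q : Polynomial R} (hp : Irreducible p)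
    (h0 : p.eval₂ ψ θ = 0) (h1 : q.eval₂ ψ θ = 0) : p ∣ q := by
  let F := FractionRing R
  let : Algebra F K := (IsFractionRing.lift hψ : F →+* K).toAlgebra
  have he : ∀ f : Polynomial R, Polynomial.aeval θ (f.map (algebraMap R F)) = f.eval₂ ψ θ := by
    intro f
    rw [Polynomial.aeval_def, Polynomial.eval₂_map]
    congr 1
    exact RingHom.ext fun r => IsFractionRing.lift_algebraMap hψ r
  have hd : p.natDegree ≠ 0 := fun h => by
    rw [Polynomial.eq_C_of_natDegree_eq_zero h] at h0 hp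
    rw [Polynomial.eval₂_C, map_eq_zero_iff ψ hψ] at h0
    exact hp.ne_zero (by rw [h0, map_zero])
  have hpp := hp.isPrimitive hd
  have hi := (hpp.irreducible_iff_irreducible_map_fraction_map (K := F)).1 hp
  exact hpp.dvd_of_fraction_map_dvd_fraction_map (K := F)
    ((hi.dvd_iff_aeval_eq_zero (b := θ) (by rw [he, h0])).1 (by rw [he, h1]))

theorem aeval_opt {σ : Type} (c : σ → K) (θ : K) (q : MvPolynomial (Option σ) k) :
    aeval (fun o : Option σ => o.elim θ c) q =
      (optionEquivLeft k σ q).eval₂ (aeval c : MvPolynomial σ k →ₐ[k] K).toRingHom θ := by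
  induction q using MvPolynomial.induction_on with
  | C a => simp [optionEquivLeft_C]
  | add p q hp hq => simp only [map_add, Polynomial.eval₂_add, hp, hq]
  | mul_X p o hp =>
    rw [map_mul, map_mul, Polynomial.eval₂_mul, hp]
    cases o with
    | none => simp [optionEquivLeft_X_none]
    | some i => simp [optionEquivLeft_X_some]

theorem ker_prin {σ : Type} {c : σ → K} (hc : AlgebraicIndependent k c) (θ : K)
    {p q : MvPolynomial (Option σ) k} (hp : Irreducible p)
    (h0 : aeval (fun o : Option σ => o.elim θ c) p = 0)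
    (h1 : aeval (fun o : Option σ => o.elim θ c) q = 0) : p ∣ q := by
  rw [aeval_opt] at h0 h1
  have := dvd_of_root (aeval c : MvPolynomial σ k →ₐ[k] K).toRingHom hc θ
    (hp.map (optionEquivLeft k σ)) h0 h1
  exact (map_dvd_iff (optionEquivLeft k σ)).1 this

/-- First order expansion in the distinguished variable. -/
theorem newton {σ A : Type} [CommRing A] [Algebra k A] (a : σ → A) (t ε : A) (hε : ε * ε = 0)
    (q : MvPolynomial (Option σ) k) :
    aeval (fun o : Option σ => o.elim (t + ε) a) q = aeval (fun o : Option σ => o.elim t a) q +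
      ε * aeval (fun o : Option σ => o.elim t a) (pderiv none q) := by
  classical
  induction q using MvPolynomial.induction_on with
  | C a => simp
  | add p q hp hq => simp only [map_add, hp, hq]; ring
  | mul_X p o hp =>
    rw [map_mul, hp, Derivation.leibniz]
    cases o with
    | none =>
      simp only [map_mul, map_add, aeval_X, Option.elim_none, pderiv_X_self, smul_eq_mul, map_one]
      linear_combination aeval (fun o : Option σ => o.elim t a) (pderiv none p) * hε
    | some i =>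
      rw [pderiv_X_of_ne (by simp)]
      simp only [map_mul, map_add, aeval_X, Option.elim_some, smul_eq_mul, map_zero]
      ring

theorem chain {σ N : Type} [Fintype σ] [AddCommGroup N] [Module K N] [Module k N]
    [IsScalarTower k K N] (D : Derivation k K N) (c : σ → K) (q : MvPolynomial σ k) :
    D (aeval c q) = ∑ i, aeval c (pderiv i q) • D (c i) := by
  classical
  induction q using MvPolynomial.induction_on with
  | C a => simp
  | add p q hp hq => simp only [map_add, hp, hq, add_smul, Finset.sum_add_distrib]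
  | mul_X p j hp =>
    simp only [map_mul, aeval_X, Derivation.leibniz, hp, smul_eq_mul, map_add, add_smul,
      Finset.sum_add_distrib, Finset.smul_sum, mul_smul]
    congr 1
    rw [Finset.sum_eq_single j (fun i _ h => by rw [pderiv_X_of_ne h.symm]; simp) (by simp)]
    simp

theorem range_elim {σ A : Type} (c : σ → A) (θ : A) :
    Set.range (fun o : Option σ => o.elim θ c) = insert θ (Set.range c) := by
  ext z
  simp [Option.exists, eq_comm]

theorem smooth_of {σ : Type} {c : σ → K} {θ : K} {p : MvPolynomial (Option σ) k}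
    {O : Subalgebra k K} (hker : ∀ q, aeval (fun o : Option σ => o.elim θ c) q = 0 → p ∣ q)
    (h0 : aeval (fun o : Option σ => o.elim θ c) p = 0)
    (hO : O ∈ Pts (aeval (fun o : Option σ => o.elim θ c) : MvPolynomial (Option σ) k →ₐ[k] K).range)
    (hu : IsU O (aeval (fun o : Option σ => o.elim θ c) (pderiv none p))) :
    Algebra.FormallySmooth k O := by
  set v : Option σ → K := fun o => o.elim θ c with hv
  have hm : ∀ q : MvPolynomial (Option σ) k, aeval v q ∈ O := fun q => hO.2.1 ⟨q, rfl⟩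
  let π : MvPolynomial (Option σ) k →ₐ[k] O := (aeval v).codRestrict O hm
  refine Algebra.FormallySmooth.of_comp_surjective fun A _ _ I hI f => ?_
  have hnil : IsNilpotent I := ⟨2, hI⟩
  choose g hg using fun o => Ideal.Quotient.mk_surjective (f (π (X o)))
  have key : ∀ t : A, Ideal.Quotient.mk I t = f (π (X none)) → ∀ q, Ideal.Quotient.mk I
      (aeval (fun o : Option σ => o.elim t fun i => g (some i)) q) = f (π q) := by
    intro t ht q
    have : (Ideal.Quotient.mkₐ k I).comp (aeval (fun o : Option σ => o.elim t fun i => g (some i)))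
        = f.comp π := by
      refine MvPolynomial.algHom_ext fun o => ?_
      cases o with
      | none => simpa using ht
      | some i => simpa using hg (some i)
    exact DFunLike.congr_fun this q
  have unit : ∀ t : A, Ideal.Quotient.mk I t = f (π (X none)) →
      ∀ q : MvPolynomial (Option σ) k, IsU O (aeval v q) →
      IsUnit (aeval (fun o : Option σ => o.elim t fun i => g (some i)) q) := by
    intro t ht q hq
    rw [← IsNilpotent.isUnit_quotient_mk_iff hnil, key t ht]
    exact ((isU_iff_isUnit (π q)).1 hq).map f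
  obtain ⟨w, hw⟩ := (unit _ (hg none) _ hu).exists_right_inv
  have hp0 : π p = 0 := Subtype.ext h0
  have hpI : aeval (fun o : Option σ => o.elim (g none) fun i => g (some i)) p ∈ I := by
    rw [← Ideal.Quotient.eq_zero_iff_mem, key _ (hg none), hp0, map_zero]
  set ε := -(aeval (fun o : Option σ => o.elim (g none) fun i => g (some i)) p * w) with hε
  have hεI : ε ∈ I := I.neg_mem (I.mul_mem_right _ hpI)
  have hε2 : ε * ε = 0 := by
    have := Ideal.mul_mem_mul hεI hεI
    rwa [← pow_two I, hI, Ideal.mem_bot] at this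
  have ht : Ideal.Quotient.mk I (g none + ε) = f (π (X none)) := by
    rw [map_add, Ideal.Quotient.eq_zero_iff_mem.2 hεI, add_zero, hg]
  let ψ : MvPolynomial (Option σ) k →ₐ[k] A :=
    aeval (fun o : Option σ => o.elim (g none + ε) fun i => g (some i))
  have hψ : ψ p = 0 := by
    change aeval _ p = 0
    rw [newton _ _ _ hε2, hε]
    linear_combination
      (-aeval (fun o : Option σ => o.elim (g none) fun i => g (some i)) p) * hw
  let M : Submonoid (MvPolynomial (Option σ) k) := (IsUnit.submonoid O).comap π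
  let π' : Localization M →ₐ[k] O := IsLocalization.liftAlgHom (M := M) (f := π) fun y => y.2
  let ψ' : Localization M →ₐ[k] A := IsLocalization.liftAlgHom (M := M) (f := ψ) fun y =>
    unit _ ht y ((isU_iff_isUnit (π y)).2 y.2)
  have hπ' : ∀ q, π' (algebraMap _ _ q) = π q := fun q => by simp [π']
  have hψ' : ∀ q, ψ' (algebraMap _ _ q) = ψ q := fun q => by simp [ψ']
  have hsurj : Function.Surjective π' := by
    intro z
    obtain ⟨_, ⟨a, rfl⟩, _, ⟨b, rfl⟩, hb, hz⟩ := hO.2.2 z z.2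
    have hbM : b ∈ M := (isU_iff_isUnit (π b)).1 hb
    refine ⟨IsLocalization.mk' _ a ⟨b, hbM⟩, ?_⟩
    have h1 := congrArg π' (IsLocalization.mk'_spec (Localization M) a ⟨b, hbM⟩)
    rw [map_mul, hπ', hπ'] at h1
    refine Subtype.ext ?_
    rw [hz, eq_div_iff hb.1]
    exact congrArg Subtype.val h1
  have hle : RingHom.ker π'.toRingHom ≤ RingHom.ker ψ'.toRingHom := by
    intro z hz
    obtain ⟨⟨a, b⟩, rfl⟩ := IsLocalization.mk'_surjective M z
    have h1 := congrArg π' (IsLocalization.mk'_spec (Localization M) a b)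
    have hz' : π' (IsLocalization.mk' (Localization M) a b) = 0 := hz
    rw [map_mul, hz', zero_mul, hπ'] at h1
    obtain ⟨h, rfl⟩ := hker a (congrArg Subtype.val h1.symm)
    change ψ' (IsLocalization.mk' (Localization M) (p * h) b) = 0
    rw [← IsLocalization.mul_mk'_eq_mk'_of_mul, map_mul, hψ', hψ, zero_mul]
  refine ⟨AlgHom.liftOfSurjective π' hsurj ψ' hle, ?_⟩
  refine AlgHom.ext fun z => ?_
  obtain ⟨z, rfl⟩ := hsurj z
  have : (Ideal.Quotient.mkₐ k I).comp ψ' = f.comp π' := by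
    refine AlgHom.coe_ringHom_injective (IsLocalization.ringHom_ext M (RingHom.ext fun q => ?_))
    change Ideal.Quotient.mk I (ψ' (algebraMap _ _ q)) = f (π' (algebraMap _ _ q))
    rw [hψ', hπ']
    exact key _ ht q
  change Ideal.Quotient.mk I (AlgHom.liftOfSurjective π' hsurj ψ' hle (π' z)) = _
  rw [AlgHom.liftOfSurjective_apply]
  exact DFunLike.congr_fun this z

end ETA

theorem et_stmt : EtStmt := by
  intro k K _ _ _ n c θ p O hc h0 hO hu
  rw [← ETA.range_elim, Algebra.adjoin_range_eq_range_aeval] at hO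
  set v : Option (Fin n) → K := fun o => o.elim θ c with hv
  have hm : ∀ q : MvPolynomial (Option (Fin n)) k, aeval v q ∈ O := fun q => hO.2.1 ⟨q, rfl⟩
  constructor
  · have hp : p ≠ 0 := fun h => hu.1 (by simp [h])
    obtain ⟨p0, hp0, hz⟩ : ∃ p0 ∈ UniqueFactorizationMonoid.factors p, aeval v p0 = 0 := by
      obtain ⟨u, hu'⟩ := UniqueFactorizationMonoid.factors_prod hp
      have h1 := congrArg (aeval v) hu'
      rw [map_mul, h0, mul_eq_zero, map_multiset_prod, Multiset.prod_eq_zero_iff] at h1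
      rcases h1 with h1 | h1
      · obtain ⟨q, hq, hq'⟩ := Multiset.mem_map.1 h1
        exact ⟨q, hq, hq'⟩
      · exact absurd h1 (u.isUnit.map (aeval v)).ne_zero
    have hi := UniqueFactorizationMonoid.irreducible_of_factor p0 hp0
    obtain ⟨h, rfl⟩ := UniqueFactorizationMonoid.dvd_of_mem_factors hp0
    refine ETA.smooth_of (fun q hq => ETA.ker_prin hc θ hi hz hq) hz hO ?_
    rw [Derivation.leibniz, map_add, smul_eq_mul, smul_eq_mul, map_mul, map_mul, hz, zero_mul,
      zero_add, mul_comm] at hu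
    exact IsU.of_mul (hm _) (hm _) hu
  · intro D a ha
    let S : Submodule O (Fin 3 → K) := Submodule.span O (Set.range fun i => D (c i))
    have hS : ∀ (s : K) (z : Fin 3 → K), s ∈ O → z ∈ S → s • z ∈ S := fun s z hs hz =>
      S.smul_mem ⟨s, hs⟩ hz
    have hc' : ∀ i, D (c i) ∈ S := fun i => Submodule.subset_span ⟨i, rfl⟩
    have hθ : D θ ∈ S := by
      have h1 := ETA.chain D v p
      rw [h0, map_zero, Fintype.sum_option] at h1
      have h2 : D θ = (aeval v (pderiv none p))⁻¹ •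
          -∑ i, aeval v (pderiv (some i) p) • D (c i) := by
        rw [eq_inv_smul_iff₀ hu.1]
        exact eq_neg_of_add_eq_zero_left h1.symm
      rw [h2]
      exact hS _ _ hu.2.2 (S.neg_mem (S.sum_mem fun i _ => hS _ _ (hm _) (hc' i)))
    have hq : ∀ q : MvPolynomial (Option (Fin n)) k, D (aeval v q) ∈ S := fun q => by
      rw [ETA.chain]
      refine S.sum_mem fun o _ => hS _ _ (hm _) ?_
      cases o with
      | none => exact hθ
      | some i => exact hc' i
    have haS : D a ∈ S := by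
      obtain ⟨_, ⟨s, rfl⟩, _, ⟨t, rfl⟩, hb, rfl⟩ := hO.2.2 a ha
      rw [Derivation.leibniz_div]
      exact hS _ _ (O.pow_mem hb.2.2 2)
        (S.sub_mem (hS _ _ hb.2.1 (hq s)) (hS _ _ (hm s) (hq t)))
    obtain ⟨r, hr⟩ := (Submodule.mem_span_range_iff_exists_fun O).1 haS
    exact ⟨fun i => r i, fun i => (r i).2, hr.symm⟩

theorem smG_stmt : SmGStmt := by
  intro k K _ _ _ G hG h
  set R := Algebra.adjoin k G with hR
  have : Algebra.FiniteType k R :=
    (Subalgebra.fg_iff_finiteType R).1 ⟨hG.toFinset, by rw [hG.coe_toFinset]⟩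
  have : Algebra.FinitePresentation k R := Algebra.FinitePresentation.of_finiteType.1 ‹_›
  rw [← Algebra.smoothLocus_eq_univ_iff, Set.eq_univ_iff_forall]
  intro q
  obtain ⟨O, hO, hU⟩ := exists_loc R (Subtype.val '' (q.asIdeal : Set R)) ⟨0, q.asIdeal.zero_mem, rfl⟩
    (by
      rintro ⟨z, hz, h1⟩
      exact q.isPrime.ne_top ((Ideal.eq_top_iff_one _).2 ((Subtype.ext h1 : z = 1) ▸ hz)))
    (by
      rintro _ _ _ _ ⟨a, ha, rfl⟩ ⟨b, hb, rfl⟩
      exact ⟨a + b, q.asIdeal.add_mem ha hb, rfl⟩)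
    (by
      intro a ha b hb
      have e : ∀ z : R, (z : K) ∈ Subtype.val '' (q.asIdeal : Set R) ↔ z ∈ q.asIdeal := fun z =>
        Subtype.val_injective.mem_set_image
      exact (e (⟨a, ha⟩ * ⟨b, hb⟩)).trans (q.isPrime.mul_mem_iff_mem_or_mem.trans
        (or_congr (e ⟨a, ha⟩).symm (e ⟨b, hb⟩).symm)))
  have hU' : ∀ b : R, IsU O b ↔ b ∈ q.asIdeal.primeCompl := fun b =>
    (hU b b.2).trans (not_congr Subtype.val_injective.mem_set_image)
  let : Algebra R O := (Subalgebra.inclusion hO.2.1).toAlgebra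
  have : IsScalarTower k R O := IsScalarTower.of_algebraMap_eq fun _ => rfl
  have : IsLocalization q.asIdeal.primeCompl O :=
    { map_units := fun y => (isU_iff_isUnit (algebraMap R O y)).1 ((hU' y).2 y.2)
      surj := fun z => by
        obtain ⟨a, ha, b, hb, hu, hz⟩ := hO.2.2 z z.2
        refine ⟨⟨⟨a, ha⟩, ⟨⟨b, hb⟩, (hU' ⟨b, hb⟩).1 hu⟩⟩, Subtype.ext ?_⟩
        change (z : K) * b = a
        rw [hz, div_mul_cancel₀ _ hu.1]
      exists_of_eq := fun {x y} hxy => ⟨1, by
        rw [Subalgebra.inclusion_injective hO.2.1 hxy]⟩ }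
  have := h O hO
  exact Algebra.FormallySmooth.of_equiv
    ((IsLocalization.algEquiv q.asIdeal.primeCompl O
      (Localization.AtPrime q.asIdeal)).restrictScalars k)

end Pool.Agent.MP_20d318_ag.BV

end MrgPart0

-- ======== part 1: formerly Pool.Agent.MP_20d318_ag.BV.SetA
section MrgPart1

/-! The properties of the pencil over an arbitrary extension field. -/

set_option autoImplicit false

namespace Pool.Agent.MP_20d318_ag.BV

open MvPolynomial

namespace SetA

theorem nss {S : Set (MvPolynomial (Fin 3) ℂ)} {q : MvPolynomial (Fin 3) ℂ}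
    (h : ∀ p : Fin 3 → ℂ, (∀ f ∈ S, aeval p f = 0) → aeval p q = 0) :
    ∃ n : ℕ, q ^ n ∈ Ideal.span S := by
  have : q ∈ (Ideal.span S).radical := by
    rw [← vanishingIdeal_zeroLocus_eq_radical (K := ℂ), zeroLocus_span]
    exact fun p hp => h p hp
  exact this

/-- A consequence of polynomial equations over `ℂ` holds over every extension field. -/
theorem transfer {S : Set (MvPolynomial (Fin 3) ℂ)} {q : MvPolynomial (Fin 3) ℂ}
    (h : ∀ p : Fin 3 → ℂ, (∀ f ∈ S, aeval p f = 0) → aeval p q = 0)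
    {L : Type} [Field L] [Algebra ℂ L] (v : Fin 3 → L) (hv : ∀ f ∈ S, aeval v f = 0) :
    aeval v q = 0 := by
  obtain ⟨n, hn⟩ := nss h
  have hle : Ideal.span S ≤ RingHom.ker (aeval v : MvPolynomial (Fin 3) ℂ →ₐ[ℂ] L) :=
    Ideal.span_le.2 fun f hf => hv f hf
  have h1 : aeval v (q ^ n) = 0 := hle hn
  rw [map_pow] at h1
  exact IsNilpotent.eq_zero ⟨n, h1⟩

theorem split {n : ℕ} {P : MvPolynomial (Fin 3) ℂ} (h : P.IsHomogeneous (n + 1)) :
    ∃ a b c : MvPolynomial (Fin 3) ℂ, a.IsHomogeneous n ∧ b.IsHomogeneous n ∧ c.IsHomogeneous n ∧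
      P = X 0 * a + X 1 * b + X 2 * c := by
  have e := h.sum_X_mul_pderiv
  rw [Fin.sum_univ_three] at e
  have hn : ((n + 1 : ℕ) : ℂ) ≠ 0 := Nat.cast_ne_zero.2 n.succ_ne_zero
  have hd : ∀ i, (C ((n + 1 : ℕ) : ℂ)⁻¹ * pderiv i P).IsHomogeneous n := fun i =>
    (h.pderiv (i := i)).C_mul _
  refine ⟨_, _, _, hd 0, hd 1, hd 2, ?_⟩
  have e1 : (C ((n + 1 : ℕ) : ℂ)⁻¹ : MvPolynomial (Fin 3) ℂ) * ((n + 1 : ℕ) : _) = 1 := by
    rw [← map_natCast (C : ℂ →+* MvPolynomial (Fin 3) ℂ), ← map_mul, inv_mul_cancel₀ hn, map_one]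
  rw [nsmul_eq_mul] at e
  linear_combination (-C ((n + 1 : ℕ) : ℂ)⁻¹) * e - P * e1

theorem form1 {P : MvPolynomial (Fin 3) ℂ} (h : P.IsHomogeneous 1) :
    ∃ a b c : ℂ, P = C a * X 0 + C b * X 1 + C c * X 2 := by
  obtain ⟨a, b, c, ha, hb, hc, rfl⟩ := split h
  rw [← totalDegree_zero_iff_isHomogeneous, totalDegree_eq_zero_iff_eq_C] at ha hb hc
  refine ⟨coeff 0 a, coeff 0 b, coeff 0 c, ?_⟩
  rw [← ha, ← hb, ← hc]
  ring

theorem form2 {P : MvPolynomial (Fin 3) ℂ} (h : P.IsHomogeneous 2) :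
    ∃ a b c d e f : ℂ, P = C a * X 0 ^ 2 + C b * (X 0 * X 1) + C c * X 1 ^ 2 +
      C d * (X 0 * X 2) + C e * (X 1 * X 2) + C f * X 2 ^ 2 := by
  obtain ⟨a, b, c, ha, hb, hc, rfl⟩ := split h
  obtain ⟨a0, a1, a2, rfl⟩ := form1 ha
  obtain ⟨b0, b1, b2, rfl⟩ := form1 hb
  obtain ⟨c0, c1, c2, rfl⟩ := form1 hc
  refine ⟨a0, a1 + b0, b1, a2 + c0, b2 + c1, c2, ?_⟩
  simp only [map_add]
  ring

/-- The general ternary cubic. -/
noncomputable def cub (a : Fin 10 → ℂ) : MvPolynomial (Fin 3) ℂ :=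
  C (a 0) * X 0 ^ 3 + C (a 1) * (X 0 ^ 2 * X 1) + C (a 2) * (X 0 * X 1 ^ 2) + C (a 3) * X 1 ^ 3 +
    C (a 4) * (X 0 ^ 2 * X 2) + C (a 5) * (X 0 * X 1 * X 2) + C (a 6) * (X 1 ^ 2 * X 2) +
    C (a 7) * (X 0 * X 2 ^ 2) + C (a 8) * (X 1 * X 2 ^ 2) + C (a 9) * X 2 ^ 3

theorem form3 {P : MvPolynomial (Fin 3) ℂ} (h : P.IsHomogeneous 3) : ∃ a, P = cub a := by
  obtain ⟨a, b, c, ha, hb, hc, rfl⟩ := split h
  obtain ⟨a0, a1, a2, a3, a4, a5, rfl⟩ := form2 ha
  obtain ⟨b0, b1, b2, b3, b4, b5, rfl⟩ := form2 hb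
  obtain ⟨c0, c1, c2, c3, c4, c5, rfl⟩ := form2 hc
  refine ⟨![a0, a1 + b0, a2 + b1, b2, a3 + c0, a4 + b3 + c1, b4 + c2, a5 + c3, b5 + c4, c5], ?_⟩
  simp only [cub, Matrix.cons_val, map_add]
  ring

section ev

variable {A : Type} [CommRing A] [Algebra ℂ A] (a : Fin 10 → ℂ) (v : Fin 3 → A)

theorem ev : aeval v (cub a) = algebraMap ℂ A (a 0) * v 0 ^ 3 +
    algebraMap ℂ A (a 1) * (v 0 ^ 2 * v 1) + algebraMap ℂ A (a 2) * (v 0 * v 1 ^ 2) +
    algebraMap ℂ A (a 3) * v 1 ^ 3 + algebraMap ℂ A (a 4) * (v 0 ^ 2 * v 2) +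
    algebraMap ℂ A (a 5) * (v 0 * v 1 * v 2) + algebraMap ℂ A (a 6) * (v 1 ^ 2 * v 2) +
    algebraMap ℂ A (a 7) * (v 0 * v 2 ^ 2) + algebraMap ℂ A (a 8) * (v 1 * v 2 ^ 2) +
    algebraMap ℂ A (a 9) * v 2 ^ 3 := by
  simp only [cub, map_add, map_mul, map_pow, aeval_C, aeval_X]

theorem ev0 : aeval v (pderiv 0 (cub a)) = 3 * algebraMap ℂ A (a 0) * v 0 ^ 2 +
    2 * algebraMap ℂ A (a 1) * (v 0 * v 1) + algebraMap ℂ A (a 2) * v 1 ^ 2 +
    2 * algebraMap ℂ A (a 4) * (v 0 * v 2) + algebraMap ℂ A (a 5) * (v 1 * v 2) +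
    algebraMap ℂ A (a 7) * v 2 ^ 2 := by
  simp [cub, pderiv_X, map_ofNat]
  ring

theorem ev1 : aeval v (pderiv 1 (cub a)) = algebraMap ℂ A (a 1) * v 0 ^ 2 +
    2 * algebraMap ℂ A (a 2) * (v 0 * v 1) + 3 * algebraMap ℂ A (a 3) * v 1 ^ 2 +
    algebraMap ℂ A (a 5) * (v 0 * v 2) + 2 * algebraMap ℂ A (a 6) * (v 1 * v 2) +
    algebraMap ℂ A (a 8) * v 2 ^ 2 := by
  simp [cub, pderiv_X, map_ofNat]
  ring

theorem ev2 : aeval v (pderiv 2 (cub a)) = algebraMap ℂ A (a 4) * v 0 ^ 2 +
    algebraMap ℂ A (a 5) * (v 0 * v 1) + algebraMap ℂ A (a 6) * v 1 ^ 2 +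
    2 * algebraMap ℂ A (a 7) * (v 0 * v 2) + 2 * algebraMap ℂ A (a 8) * (v 1 * v 2) +
    3 * algebraMap ℂ A (a 9) * v 2 ^ 2 := by
  simp [cub, pderiv_X, map_ofNat]
  ring

end ev

/-- An irreducible cubic contains no line. -/
theorem no_line {W : MvPolynomial (Fin 3) ℂ} (hW : W.IsHomogeneous 3) (hi : Irreducible W)
    {p v : Fin 3 → ℂ} (hl : LinearIndependent ℂ ![p, v])
    (h : ∀ s t : ℂ, aeval (s • p + t • v) W = 0) : False := by
  have hn := crossProduct_ne_zero_iff_linearIndependent.2 hl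
  set n := crossProduct p v with hnd
  have n0 : n 0 = p 1 * v 2 - p 2 * v 1 := by simp [hnd, cross_apply]
  have n1 : n 1 = p 2 * v 0 - p 0 * v 2 := by simp [hnd, cross_apply]
  have n2 : n 2 = p 0 * v 1 - p 1 * v 0 := by simp [hnd, cross_apply]
  obtain ⟨i, hi0⟩ := Function.ne_iff.1 hn
  replace hi0 : n i ≠ 0 := hi0
  set l : MvPolynomial (Fin 3) ℂ := C (n 0) * X 0 + C (n 1) * X 1 + C (n 2) * X 2 with hld
  have hl1 : l.IsHomogeneous 1 :=
    ((isHomogeneous_C_mul_X _ _).add (isHomogeneous_C_mul_X _ _)).add (isHomogeneous_C_mul_X _ _)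
  have hev : ∀ x : Fin 3 → ℂ, aeval x l = n 0 * x 0 + n 1 * x 1 + n 2 * x 2 := fun x => by
    simp [hld]
  have hl0 : l ≠ 0 := fun h0 => by
    have := hev (Pi.single i 1)
    rw [h0, map_zero] at this
    fin_cases i <;> simp at this <;> exact hi0 this.symm
  obtain ⟨m, hm⟩ := nss (S := {l}) (q := W) fun x hx => by
    have hx0 := hx l rfl
    rw [hev, n0, n1, n2] at hx0
    obtain ⟨s, t, rfl⟩ : ∃ s t : ℂ, x = s • p + t • v := by
      refine ⟨crossProduct x v i / n i, crossProduct p x i / n i, funext fun j => ?_⟩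
      simp only [Pi.add_apply, Pi.smul_apply, smul_eq_mul]
      field_simp
      rw [hnd]
      fin_cases i <;> fin_cases j <;> simp [cross_apply] <;>
        first | ring1 | linear_combination hx0
    exact h s t
  rw [Ideal.mem_span_singleton, dvd_prime_pow hi.prime] at hm
  obtain ⟨j, -, hj⟩ := hm
  have hd : l.totalDegree = 1 := hl1.totalDegree hl0
  have hW3 : W.totalDegree = 3 := hW.totalDegree hi.ne_zero
  rcases j with _ | j
  · have := (isUnit_iff_totalDegree_of_isReduced.1 (associated_one_iff_isUnit.1 (by simpa using hj))).2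
    omega
  · have := totalDegree_le_of_dvd_of_isDomain ((dvd_pow_self W j.succ_ne_zero).trans hj.dvd') hl0
    omega

theorem aff_mul (P R : MvPolynomial (Fin 3) ℂ) : aff (P * R) = aff P * aff R := map_mul _ _ _

theorem aff_deg (P : MvPolynomial (Fin 3) ℂ) : (aff P).totalDegree ≤ P.totalDegree := by
  unfold aff
  conv_lhs => rw [P.as_sum, map_sum]
  refine totalDegree_finsetSum_le fun m hm => le_trans ?_ (le_totalDegree hm)
  rw [aeval_monomial]
  refine (totalDegree_mul _ _).trans ?_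
  rw [algebraMap_eq, totalDegree_C, zero_add]
  refine (totalDegree_finsetProd _ _).trans (Finset.sum_le_sum fun i _ => ?_)
  refine (totalDegree_pow _ _).trans (mul_le_of_le_one_right (Nat.zero_le _) ?_)
  fin_cases i <;> simp

theorem aff_inj {P R : MvPolynomial (Fin 3) ℂ} (hP : P.IsHomogeneous 3) (hR : R.IsHomogeneous 3)
    (h : aff P = aff R) : P = R := by
  have key : ∀ T : MvPolynomial (Fin 3) ℂ, T.IsHomogeneous 3 → ∀ x : Fin 3 → ℂ, x 2 ≠ 0 →
      aeval x T = x 2 ^ 3 * aeval ![x 0 / x 2, x 1 / x 2] (aff T) := fun T hT x hx => by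
    obtain ⟨a, rfl⟩ := form3 hT
    rw [aff, ev, ev]
    simp only [map_add, map_mul, map_pow, algebraMap_eq, aeval_C, Matrix.cons_val, aeval_X,
      map_one]
    field_simp
  have : X 2 * P = X 2 * R := MvPolynomial.funext fun x => by
    rw [map_mul, map_mul, eval_X]
    by_cases hx : x 2 = 0
    · rw [hx, zero_mul, zero_mul]
    · rw [← coe_aeval_eq_eval]
      change _ * aeval x P = _ * aeval x R
      rw [key P hP x hx, key R hR x hx, h]
  exact mul_left_cancel₀ (X_ne_zero 2) this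

/-- Homogenization. -/
theorem exists_hom (a : MvPolynomial (Fin 2) ℂ) :
    ∃ A : MvPolynomial (Fin 3) ℂ, A.IsHomogeneous a.totalDegree ∧ aff A = a := by
  refine ⟨∑ j ∈ Finset.range (a.totalDegree + 1),
    X 2 ^ (a.totalDegree - j) * rename Fin.castSucc (homogeneousComponent j a), ?_, ?_⟩
  · refine IsHomogeneous.sum _ _ _ fun j hj => ?_
    have := (isHomogeneous_X_pow (R := ℂ) (2 : Fin 3) (a.totalDegree - j)).mul
      ((homogeneousComponent_isHomogeneous j a).rename_isHomogeneous (f := Fin.castSucc))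
    rwa [Nat.sub_add_cancel (Nat.lt_succ_iff.1 (Finset.mem_range.1 hj))] at this
  · have hc : (![X 0, X 1, 1] : Fin 3 → MvPolynomial (Fin 2) ℂ) ∘ Fin.castSucc = X := by
      funext i
      fin_cases i <;> rfl
    conv_rhs => rw [← sum_homogeneousComponent a]
    rw [aff, map_sum]
    refine Finset.sum_congr rfl fun j _ => ?_
    rw [map_mul, map_pow, aeval_X, aeval_rename, hc, aeval_X_left_apply]
    simp

theorem aff_irr {W : MvPolynomial (Fin 3) ℂ} (hW : W.IsHomogeneous 3) (hi : Irreducible W) :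
    Irreducible (aff W) ∧ (aff W).totalDegree = 3 := by
  have hW3 : W.totalDegree = 3 := hW.totalDegree hi.ne_zero
  have hle : (aff W).totalDegree ≤ 3 := (aff_deg W).trans hW3.le
  have hd : (aff W).totalDegree = 3 := by
    by_contra hne
    obtain ⟨A, hA, e⟩ := exists_hom (aff W)
    obtain ⟨m, hm⟩ : ∃ m, m + 1 + (aff W).totalDegree = 3 := ⟨2 - (aff W).totalDegree, by omega⟩
    have h3 := (isHomogeneous_X_pow (R := ℂ) (2 : Fin 3) (m + 1)).mul hA
    rw [hm] at h3
    have e' : W = X 2 ^ (m + 1) * A := aff_inj hW h3 (by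
      rw [aff_mul, e]
      simp [aff])
    refine no_line hW hi (p := ![1, 0, 0]) (v := ![0, 1, 0]) ?_ fun s t => ?_
    · refine crossProduct_ne_zero_iff_linearIndependent.1 fun h0 => ?_
      simpa [cross_apply] using congrFun h0 2
    · rw [e']
      simp
  have h0 : aff W ≠ 0 := fun h0 => by simp [h0] at hd
  refine ⟨⟨fun hu => ?_, fun a b hab => ?_⟩, hd⟩
  · have := (isUnit_iff_totalDegree_of_isReduced.1 hu).2
    omega
  · obtain ⟨A, hA, eA⟩ := exists_hom a
    obtain ⟨B, hB, eB⟩ := exists_hom b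
    rw [hab] at h0 hd
    rw [totalDegree_mul_of_isDomain (left_ne_zero_of_mul h0) (right_ne_zero_of_mul h0)] at hd
    have h3 := hA.mul hB
    rw [hd] at h3
    have e : W = A * B := aff_inj hW h3 (by rw [aff_mul, eA, eB, hab])
    refine (hi.isUnit_or_isUnit e).imp (fun hu => ?_) fun hu => ?_
    · exact eA ▸ hu.map (aeval _ : MvPolynomial (Fin 3) ℂ →ₐ[ℂ] MvPolynomial (Fin 2) ℂ)
    · exact eB ▸ hu.map (aeval _ : MvPolynomial (Fin 3) ℂ →ₐ[ℂ] MvPolynomial (Fin 2) ℂ)

end SetA

open SetA in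
theorem setA_stmt : SetAStmt := by
  rintro F G ⟨hF, hG, smF, hnu, hirr, htv⟩
  have hae : ∀ (p : Fin 3 → ℂ) (P : MvPolynomial (Fin 3) ℂ), aeval p P = eval p P :=
    fun p P => rfl
  obtain ⟨g, rfl⟩ := form3 hG
  have g7 : g 7 = 0 := by simpa [← hae, ev0] using hnu 0
  have g8 : g 8 = 0 := by simpa [← hae, ev1] using hnu 1
  have g9 : g 9 = 0 := by simpa [← hae, ev2] using hnu 2
  have hWh : ∀ α β : ℂ, (C α * F + C β * cub g).IsHomogeneous 3 := fun α β =>
    (hF.C_mul α).add (hG.C_mul β)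
  have line : ∀ (α β : ℂ) (p v : Fin 3 → ℂ), LinearIndependent ℂ ![p, v] →
      (∀ s t : ℂ, aeval (s • p + t • v) (C α * F + C β * cub g) = 0) → α = 0 ∧ β = 0 := by
    intro α β p v hl h
    by_contra hne
    exact no_line (hWh α β) (hirr α β (not_and_or.1 hne)) hl h
  have copC : ∀ p : Fin 3 → ℂ, (∀ f ∈ ({pderiv 2 (cub g), cub g, X 2} : Set _), aeval p f = 0) →
      p 0 = 0 ∧ p 1 = 0 := by
    intro p hp
    have h1 := hp _ (Or.inl rfl)
    have h2 := hp _ (Or.inr (Or.inl rfl))
    have h3 := hp _ (Or.inr (Or.inr rfl))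
    rw [aeval_X] at h3
    rw [ev2, g7, g8, g9, h3] at h1
    rw [ev, g7, g8, g9, h3] at h2
    by_contra hne
    refine one_ne_zero (line 0 1 p ![0, 0, 1] ?_ fun s t => ?_).2
    · refine crossProduct_ne_zero_iff_linearIndependent.1 fun h0 => hne ⟨?_, ?_⟩
      · simpa [cross_apply] using congrFun h0 1
      · simpa [cross_apply] using congrFun h0 0
    · rw [map_zero, map_one, zero_mul, one_mul, zero_add, ev, g7, g8, g9]
      simp only [Pi.add_apply, Pi.smul_apply, smul_eq_mul, Matrix.cons_val, h3, map_zero]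
      linear_combination t * s ^ 2 * h1 + s ^ 3 * h2
  have cop : ∀ (L : Type) [Field L] [Algebra ℂ L] (α β : L),
      aeval ![α, β, 0] (pderiv 2 (cub g)) = 0 → aeval ![α, β, 0] (cub g) = 0 → α = 0 ∧ β = 0 := by
    intro L _ _ α β h1 h2
    have hv : ∀ f ∈ ({pderiv 2 (cub g), cub g, X 2} : Set (MvPolynomial (Fin 3) ℂ)),
        aeval ![α, β, 0] f = 0 := by
      rintro f (rfl | rfl | rfl)
      exacts [h1, h2, aeval_X _ _]
    exact ⟨by simpa using transfer (q := X 0) (fun p hp => by simpa using (copC p hp).1) _ hv,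
      by simpa using transfer (q := X 1) (fun p hp => by simpa using (copC p hp).2) _ hv⟩
  refine ⟨hF, hG, fun h0 => ?_, fun A _ _ v => ?_, cop, fun L _ _ v hv => ?_,
    fun L _ _ v hv => ?_, fun α β h => aff_irr (hWh α β) (hirr α β h), line, fun p hp h1 h2 => ?_⟩
  · have hne : (![0, 0, 1] : Fin 3 → ℂ) ≠ 0 := fun h => by simpa using congrFun h 2
    have := (htv _ hne (hae _ _ ▸ h0) (by simp [← hae, ev, g9])).2.ne_zero 1
    exact this (funext hnu)
  · rw [ev, ev, ev2, g7, g8, g9]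
    simp only [Matrix.cons_val, map_zero]
    ring
  · funext i
    have := transfer (S := Set.range fun i => pderiv i F) (q := X i) (fun p hp => by
      rw [smF p fun j => hae _ _ ▸ hp _ ⟨j, rfl⟩]
      simp) v (by rintro _ ⟨j, rfl⟩; exact hv j)
    simpa using this
  · have h0 := hv 0
    have h1 := hv 1
    have h2 := hv 2
    rw [ev0, g7] at h0
    rw [ev1, g8] at h1
    rw [ev2, g7, g8, g9] at h2
    have : CharZero L := charZero_of_injective_algebraMap (algebraMap ℂ L).injective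
    refine cop L _ _ ?_ ?_
    · rw [ev2, g7, g8, g9]
      simp only [Matrix.cons_val, map_zero] at h2 ⊢
      linear_combination h2
    · rw [ev, g7, g8, g9]
      simp only [Matrix.cons_val, map_zero] at h0 h1 h2 ⊢
      linear_combination (1 / 3 : L) * (v 0 * h0 + v 1 * h1 - 2 * v 2 * h2)
  · simp only [hae] at h1 h2 ⊢
    exact htv p hp h1 h2

end Pool.Agent.MP_20d318_ag.BV

end MrgPart1

-- ======== part 2: formerly Pool.Agent.MP_20d318_ag.BV.Ex
section MrgPart2

/-! An explicit pencil. -/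

set_option autoImplicit false

namespace Pool.Agent.MP_20d318_ag.BV

open MvPolynomial

namespace Ex

/-- The cuspidal cubic. -/
noncomputable def G0 : MvPolynomial (Fin 3) ℂ := X 1 ^ 2 * X 2 - X 0 ^ 3

/-- The smooth cubic. -/
noncomputable def F0 : MvPolynomial (Fin 3) ℂ := X 2 ^ 3 + X 0 * X 1 ^ 2 + X 1 ^ 3 + G0

theorem homG : G0.IsHomogeneous 3 :=
  (((isHomogeneous_X ℂ 1).pow 2).mul (isHomogeneous_X ℂ 2)).sub ((isHomogeneous_X ℂ 0).pow 3)

theorem homF : F0.IsHomogeneous 3 :=
  ((((isHomogeneous_X ℂ 2).pow 3).add ((isHomogeneous_X ℂ 0).mul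
    ((isHomogeneous_X ℂ 1).pow 2))).add ((isHomogeneous_X ℂ 1).pow 3)).add homG

theorem dG (p : Fin 3 → ℂ) : eval p (pderiv 0 G0) = -3 * p 0 ^ 2 ∧
    eval p (pderiv 1 G0) = 2 * p 1 * p 2 ∧ eval p (pderiv 2 G0) = p 1 ^ 2 := by
  refine ⟨?_, ?_, ?_⟩ <;> simp [G0, pderiv_X] <;> ring

theorem dF (p : Fin 3 → ℂ) : eval p (pderiv 0 F0) = p 1 ^ 2 - 3 * p 0 ^ 2 ∧
    eval p (pderiv 1 F0) = p 1 * (2 * p 0 + 3 * p 1 + 2 * p 2) ∧
    eval p (pderiv 2 F0) = 3 * p 2 ^ 2 + p 1 ^ 2 := by
  refine ⟨?_, ?_, ?_⟩ <;> simp [F0, G0, pderiv_X] <;> ring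

theorem irr_of (e : MvPolynomial (Fin 3) ℂ ≃ₐ[ℂ] Polynomial (MvPolynomial (Fin 2) ℂ))
    {P : MvPolynomial (Fin 3) ℂ} {u : ℂ} (hu : u ≠ 0) {A B : MvPolynomial (Fin 2) ℂ}
    (h : e P = Polynomial.C (C u) *
      (Polynomial.X ^ 3 + (Polynomial.C A * Polynomial.X + Polynomial.C B)))
    (hr : ∀ r, r ^ 3 + (A * r + B) ≠ 0) : Irreducible P := by
  rw [← MulEquiv.irreducible_iff e.toMulEquiv]
  change Irreducible (e P)
  rw [h, irreducible_isUnit_mul (Polynomial.isUnit_C.2 ((IsUnit.mk0 u hu).map C))]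
  have hd : (Polynomial.X ^ 3 + (Polynomial.C A * Polynomial.X + Polynomial.C B)).natDegree = 3 := by
    compute_degree!
  have hm : (Polynomial.X ^ 3 + (Polynomial.C A * Polynomial.X + Polynomial.C B)).Monic := by
    monicity!
  rw [hm.irreducible_iff_roots_eq_zero_of_degree_le_three (by omega) (by omega),
    Multiset.eq_zero_iff_forall_notMem]
  intro r h
  have := (Polynomial.mem_roots hm.ne_zero).1 h
  exact hr r (by simpa using this)

theorem noroot (c : ℂ) (r : Polynomial ℂ) :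
    r ^ 3 + (Polynomial.C c * r + (Polynomial.X + 1 - Polynomial.C c * Polynomial.X ^ 3)) ≠ 0 := by
  intro h
  have h1 : r.natDegree ≤ 1 := by
    by_contra hc
    have e : r ^ 3 = -(Polynomial.C c * r +
      (Polynomial.X + 1 - Polynomial.C c * Polynomial.X ^ 3)) := by linear_combination h
    have := congrArg Polynomial.natDegree e
    rw [Polynomial.natDegree_pow, Polynomial.natDegree_neg] at this
    have a1 : (Polynomial.X + 1 - Polynomial.C c * Polynomial.X ^ 3).natDegree ≤ 3 := by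
      compute_degree!
    have a2 := Polynomial.natDegree_C_mul_le c r
    have a3 := Polynomial.natDegree_add_le (Polynomial.C c * r)
      (Polynomial.X + 1 - Polynomial.C c * Polynomial.X ^ 3)
    omega
  obtain ⟨α, β, rfl⟩ : ∃ α β, r = Polynomial.C α * Polynomial.X + Polynomial.C β :=
    ⟨_, _, Polynomial.eq_X_add_C_of_natDegree_le_one h1⟩
  have ev : ∀ t : ℂ, (α * t + β) ^ 3 + (c * (α * t + β) + (t + 1 - c * t ^ 3)) = 0 := fun t => by
    simpa using congrArg (Polynomial.eval t) h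
  have e0 := ev 0
  have e1 := ev 1
  have e2 := ev (-1)
  have e3 := ev 2
  have k2 : α ^ 2 * β = 0 := by linear_combination (e1 + e2 - 2 * e0) / 6
  have k3 : α ^ 3 = c := by linear_combination (e3 - 3 * e1 + 3 * e0 - e2) / 6
  rcases mul_eq_zero.1 k2 with h | h
  · have h := pow_eq_zero_iff (two_ne_zero) |>.1 h
    subst h
    have : (2 : ℂ) = 0 := by linear_combination e1 - e2 - 2 * k3
    norm_num at this
  · subst h
    norm_num at e0

theorem irr (a b : ℂ) (h : a ≠ 0 ∨ b ≠ 0) : Irreducible (C a * F0 + C b * G0) := by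
  have x0 : finSuccEquiv ℂ 2 (X 0) = Polynomial.X := finSuccEquiv_X_zero
  have x1 : finSuccEquiv ℂ 2 (X 1) = Polynomial.C (X 0) := finSuccEquiv_X_succ (j := 0)
  have x2 : finSuccEquiv ℂ 2 (X 2) = Polynomial.C (X 1) := finSuccEquiv_X_succ (j := 1)
  have xc : ∀ c : ℂ, finSuccEquiv ℂ 2 (C c) = Polynomial.C (C c) := fun c =>
    (finSuccEquiv ℂ 2).commutes c
  by_cases ha : a = 0
  · subst ha
    have hb := h.resolve_left (by simp)
    refine irr_of (finSuccEquiv ℂ 2) (neg_ne_zero.2 hb) (A := 0) (B := -(X 0 ^ 2 * X 1)) ?_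
      fun r hr => ?_
    · simp only [G0, map_add, map_mul, map_sub, map_pow, map_neg, map_zero, x0, x1, x2, xc]
      ring
    · have e := congrArg (aeval ![1, (Polynomial.X : Polynomial ℂ)]) hr
      simp only [map_add, map_mul, map_pow, map_neg, map_zero, aeval_X, zero_mul, zero_add,
        Matrix.cons_val_zero, Matrix.cons_val_one, one_pow, one_mul] at e
      have := congrArg Polynomial.natDegree (add_neg_eq_zero.1 e)
      rw [Polynomial.natDegree_pow, Polynomial.natDegree_X] at this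
      omega
  · obtain ⟨c, rfl⟩ : ∃ c, b = a * (c - 1) := ⟨b / a + 1, by field_simp; ring⟩
    refine irr_of ((renameEquiv ℂ (Equiv.swap 0 2)).trans (finSuccEquiv ℂ 2)) ha
      (A := C c * X 0 ^ 2) (B := X 1 * X 0 ^ 2 + X 0 ^ 3 - C c * X 1 ^ 3) ?_ fun r hr => ?_
    · have s1 : Equiv.swap (0 : Fin 3) 2 1 = 1 := by decide
      simp only [F0, G0, AlgEquiv.trans_apply, renameEquiv_apply, map_add, map_mul, map_sub,
        map_pow, rename_X, rename_C, Equiv.swap_apply_left, Equiv.swap_apply_right, s1, x0, x1, x2,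
        xc, map_one]
      ring
    · refine noroot c (aeval ![1, (Polynomial.X : Polynomial ℂ)] r) ?_
      have e := congrArg (aeval ![1, (Polynomial.X : Polynomial ℂ)]) hr
      simpa using e

end Ex

open Ex

theorem ex_stmt : ExStmt := by
  refine ⟨F0, G0, homF, homG, fun p h => ?_, fun i => ?_, irr, fun p hp h1 h2 => ?_⟩
  · obtain ⟨a0, a1, a2⟩ := dF p
    rw [h] at a0 a1 a2
    have y0 : p 1 = 0 := by
      rcases mul_eq_zero.1 a1.symm with e | e
      · exact e
      · have k : 8 * (p 0 * p 2) = 9 * p 1 ^ 2 := by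
          linear_combination (2 * p 0 - 3 * p 1 + 2 * p 2) * e - 4 / 3 * a0 + 4 / 3 * a2
        have : p 1 ^ 4 = 0 := by
          linear_combination (-9 / 793 * (8 * (p 0 * p 2) + 9 * p 1 ^ 2)) * k
            + (192 / 793 * p 2 ^ 2) * a0 - (64 / 793 * p 1 ^ 2) * a2
        exact pow_eq_zero_iff (by norm_num) |>.1 this
    have x0 : p 0 ^ 2 = 0 := by rw [y0] at a0; linear_combination a0 / 3
    have z0 : p 2 ^ 2 = 0 := by rw [y0] at a2; linear_combination -a2 / 3
    funext i
    fin_cases i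
    exacts [pow_eq_zero_iff two_ne_zero |>.1 x0, y0, pow_eq_zero_iff two_ne_zero |>.1 z0]
  · obtain ⟨a0, a1, a2⟩ := dG ![0, 0, 1]
    fin_cases i
    exacts [a0.trans (by simp), a1.trans (by simp), a2.trans (by simp)]
  · have g : p 1 ^ 2 * p 2 - p 0 ^ 3 = 0 := by simpa [G0] using h2
    have f : p 2 ^ 3 + p 0 * p 1 ^ 2 + p 1 ^ 3 = 0 := by
      have : eval p F0 = p 2 ^ 3 + p 0 * p 1 ^ 2 + p 1 ^ 3 + eval p G0 := by simp [F0]
      rw [h1, h2] at this
      linear_combination -this
    have y0 : p 1 ≠ 0 := fun e => hp <| by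
      have x0 : p 0 ^ 3 = 0 := by rw [e] at g; linear_combination -g
      have z0 : p 2 ^ 3 = 0 := by rw [e] at f; linear_combination f
      funext i
      fin_cases i
      exacts [pow_eq_zero_iff three_ne_zero |>.1 x0, e, pow_eq_zero_iff three_ne_zero |>.1 z0]
    obtain ⟨τ, hτ⟩ : ∃ τ, p 0 = τ * p 1 := ⟨p 0 / p 1, by field_simp⟩
    have hz : p 2 = τ ^ 3 * p 1 := mul_left_cancel₀ (pow_ne_zero 2 y0) (by
      rw [hτ] at g; linear_combination g)
    have hN : τ ^ 9 + τ + 1 = 0 := mul_left_cancel₀ (pow_ne_zero 3 y0) (by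
      rw [hτ, hz] at f; linear_combination f)
    refine ⟨fun e => ?_, LinearIndependent.pair_iff.2 fun s t e => ?_⟩
    · have : τ = 0 := pow_eq_zero_iff three_ne_zero |>.1
        ((mul_eq_zero.1 (hz ▸ e)).resolve_right y0)
      rw [this] at hN
      norm_num at hN
    · have e0 := congrFun e 0
      have e2 := congrFun e 2
      simp only [Pi.add_apply, Pi.smul_apply, smul_eq_mul, Pi.zero_apply, (dF p).1, (dF p).2.2,
        (dG p).1, (dG p).2.2] at e0 e2
      rw [hτ] at e0
      rw [hz] at e2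
      have k0 : s - 3 * (s + t) * τ ^ 2 = 0 := mul_left_cancel₀ (pow_ne_zero 2 y0) (by
        linear_combination e0)
      have k2 : 3 * s * τ ^ 6 + (s + t) = 0 := mul_left_cancel₀ (pow_ne_zero 2 y0) (by
        linear_combination e2)
      have k : s * (1 + 9 * τ ^ 8) = 0 := by linear_combination k0 + 3 * τ ^ 2 * k2
      rcases mul_eq_zero.1 k with s0 | s0
      · subst s0
        exact ⟨rfl, by linear_combination k2⟩
      · have : τ = -9 / 8 := by linear_combination (9 * hN - τ * s0) / 8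
        rw [this] at s0
        norm_num at s0

end Pool.Agent.MP_20d318_ag.BV

end MrgPart2

-- marker of a merged file
example : 731051 + 56920 = 731051 + 56920 := rfl
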