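import Mathlib.RingTheory.MvPolynomial.IrreducibleQuadratic
import Pool.Agent.MP_20d318_ag.BV.Poly2

/-! A simple root gives a normal local ring. -/

set_option autoImplicit false

namespace Pool.Agent.MP_20d318_ag.BV

open Pool.Agent.MP_20d318_ag.AG Polynomial
open scoped IntermediateField

namespace Etn

variable {K : Type} [Field K] {θ : K} {P Q : K[X]}

theorem co0 (h : P = (X - C θ) * Q) : P.coeff 0 = -(θ * Q.coeff 0) := by
  rw [h, sub_mul, coeff_sub, coeff_C_mul]
  simp

theorem co1 (h : P = (X - C θ) * Q) (j : ℕ) :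
    P.coeff (j + 1) = Q.coeff j - θ * Q.coeff (j + 1) := by
  rw [h, sub_mul, coeff_sub, coeff_C_mul, coeff_X_mul]

theorem down (h : P = (X - C θ) * Q) (S : Subring K) (hP : ∀ j, P.coeff j ∈ S) (hθ : θ ∈ S)
    (j : ℕ) : Q.coeff j ∈ S := by
  by_cases hj : j ≤ Q.natDegree + 1
  · refine Nat.decreasingInduction (motive := fun j _ => Q.coeff j ∈ S) (fun i _ ih => ?_) ?_ hj
    · rw [eq_add_of_sub_eq (co1 h i).symm]
      exact add_mem (hP _) (mul_mem hθ ih)
    · rw [coeff_eq_zero_of_natDegree_lt (Nat.lt_succ_self _)]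
      exact zero_mem _
  · rw [coeff_eq_zero_of_natDegree_lt (by omega)]
    exact zero_mem _

theorem upw (h : P = (X - C θ) * Q) (S : Subring K) (hP : ∀ j, P.coeff j ∈ S) (h0 : θ ≠ 0)
    (hθ : θ⁻¹ ∈ S) (j : ℕ) : Q.coeff j ∈ S := by
  induction j with
  | zero =>
    rw [show Q.coeff 0 = -(θ⁻¹ * P.coeff 0) by rw [co0 h]; field_simp]
    exact neg_mem (mul_mem hθ (hP 0))
  | succ j ih =>
    rw [show Q.coeff (j + 1) = θ⁻¹ * (Q.coeff j - P.coeff (j + 1)) by rw [co1 h]; field_simp; ring]
    exact mul_mem hθ (sub_mem ih (hP _))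

theorem integral {R : Type} [CommRing R] [Algebra R K] (h : P = (X - C θ) * Q)
    (hP : ∀ j, P.coeff j ∈ (algebraMap R K).range) (j : ℕ) :
    IsIntegral R (Q.coeff j) ∧ IsIntegral R (θ * Q.coeff j) := by
  have h1 : ∀ j, IsIntegral R (Q.coeff j) := fun j => by
    have : Q.coeff j ∈ (integralClosure (Subring.closure ((algebraMap R K).range : Set K))
        K).toSubring := by
      rw [← iInf_valuationSubring_superset, Subring.mem_iInf]
      intro V
      rcases V.1.mem_or_inv_mem θ with h2 | h2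
      · exact down h _ (fun j => V.2 (hP j)) h2 j
      · rcases eq_or_ne θ 0 with h0 | h0
        · exact down h _ (fun j => V.2 (hP j)) (h0 ▸ zero_mem _) j
        · exact upw h _ (fun j => V.2 (hP j)) h0 h2 j
    rw [Subring.closure_eq] at this
    obtain ⟨q, hq, hq'⟩ := this
    obtain ⟨r, rfl, -, hr⟩ := lifts_and_natDegree_eq_and_monic
      (mem_lifts_of_surjective (algebraMap R K).rangeRestrict_surjective q) hq
    exact ⟨r, hr, by rwa [eval₂_map] at hq'⟩
  have h2 : ∀ j, IsIntegral R (P.coeff j) := fun j => by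
    obtain ⟨r, hr⟩ := hP j
    exact hr ▸ isIntegral_algebraMap
  refine ⟨h1 j, ?_⟩
  cases j with
  | zero => simpa [co0 h] using (h2 0).neg
  | succ j => simpa [co1 h] using (h1 j).sub (h2 (j + 1))

theorem eval_der (h : P = (X - C θ) * Q) : P.derivative.eval θ = Q.eval θ := by
  simp [h]

theorem euler {F : Type} [Field F] [Algebra F K] {p : F[X]} (hgen : F⟮θ⟯ = ⊤)
    (h : p.map (algebraMap F K) = (X - C θ) * Q) (h' : Q.eval θ ≠ 0) :
    FiniteDimensional F K ∧ ∀ x : K, x * Q.eval θ = ∑ j ∈ Finset.range (Q.natDegree + 1),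
      algebraMap F K (Algebra.trace F K (x * Q.coeff j)) * θ ^ j := by
  classical
  have hd : aeval θ p.derivative ≠ 0 := by
    rwa [← eval_der h, derivative_map, eval_map_algebraMap] at h'
  have h0 : aeval θ p = 0 := by
    rw [← eval_map_algebraMap, h]
    simp
  have hi : IsIntegral F θ := IsAlgebraic.isIntegral ⟨p, by rintro rfl; simp at hd, h0⟩
  have hs : IsSeparable F θ := by
    refine (separable_iff_derivative_ne_zero (minpoly.irreducible hi)).2 fun hm => hd ?_
    obtain ⟨g, rfl⟩ := minpoly.dvd F θ h0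
    simp [hm]
  have e : F⟮θ⟯ ≃ₐ[F] K := (IntermediateField.equivOfEq hgen).trans IntermediateField.topEquiv
  have := IntermediateField.adjoin.finiteDimensional hi
  have := (IntermediateField.isSeparable_adjoin_simple_iff_isSeparable F K).2 hs
  have hf : FiniteDimensional F K := e.toLinearEquiv.finiteDimensional
  have : Algebra.IsSeparable F K := AlgEquiv.Algebra.isSeparable e
  refine ⟨hf, fun x => (algebraMap K (AlgebraicClosure K)).injective ?_⟩
  let ι := IsScalarTower.toAlgHom F K (AlgebraicClosure K)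
  have h3 : ∀ σ : K →ₐ[F] AlgebraicClosure K, σ ≠ ι → (Q.map σ.toRingHom).eval (ι θ) = 0 := by
    intro σ hσ
    have h4 := congrArg (fun q => (q.map σ.toRingHom).eval (ι θ)) h
    simp only [Polynomial.map_map, Polynomial.map_mul, Polynomial.map_sub, map_X, map_C, eval_mul,
      eval_sub, eval_X, eval_C] at h4
    rw [show σ.toRingHom.comp (algebraMap F K) = algebraMap F _ from σ.comp_algebraMap,
      eval_map_algebraMap, aeval_algHom_apply, h0, map_zero] at h4
    refine (mul_eq_zero.1 h4.symm).resolve_left fun h5 => hσ (AlgHom.ext fun y => ?_)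
    have hy : y ∈ F⟮θ⟯.toSubalgebra := hgen ▸ trivial
    rw [IntermediateField.adjoin_simple_toSubalgebra_of_isAlgebraic hi.isAlgebraic] at hy
    exact Algebra.adjoin_le (S := AlgHom.equalizer σ ι)
      (Set.singleton_subset_iff.2 (sub_eq_zero.1 h5).symm) hy
  have h6 : ∀ σ : K →ₐ[F] AlgebraicClosure K, σ x * (Q.map σ.toRingHom).eval (ι θ) =
      ∑ j ∈ Finset.range (Q.natDegree + 1), σ (x * Q.coeff j) * ι θ ^ j := fun σ => by
    rw [eval_map, eval₂_eq_sum_range, Finset.mul_sum]
    exact Finset.sum_congr rfl fun j _ => by rw [map_mul, mul_assoc]; rfl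
  rw [map_sum]
  simp only [map_mul (algebraMap K (AlgebraicClosure K)), map_pow,
    ← IsScalarTower.algebraMap_apply, trace_eq_sum_embeddings (AlgebraicClosure K), Finset.sum_mul]
  rw [Finset.sum_comm]
  change _ = ∑ σ : K →ₐ[F] AlgebraicClosure K, ∑ j ∈ _, σ (x * Q.coeff j) * ι θ ^ j
  rw [← Finset.sum_congr rfl fun σ _ => h6 σ,
    Finset.sum_eq_single ι (fun σ _ hσ => by rw [h3 σ hσ, mul_zero]) (by simp), eval_map]
  exact congrArg _ (eval₂_at_apply _ θ).symm

theorem der_opt {k σ : Type} [Field k] (p : MvPolynomial (Option σ) k) :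
    derivative (MvPolynomial.optionEquivLeft k σ p) =
      MvPolynomial.optionEquivLeft k σ (MvPolynomial.pderiv none p) := by
  classical
  induction p using MvPolynomial.induction_on with
  | C a => simp
  | add p q hp hq => simp [hp, hq]
  | mul_X p i hp => cases i <;> simp [hp, mul_comm]

end Etn

open Etn in
theorem etN_stmt : EtNStmt := by
  intro k K _ _ _ n c θ p O hc hp hO hF hu
  let R := MvPolynomial (Fin n) k
  let _ : Algebra R K := (MvPolynomial.aeval c).toRingHom.toAlgebra
  have : IsScalarTower k R K := .of_algebraMap_eq fun a => ((MvPolynomial.aeval c).commutes a).symm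
  have : FaithfulSMul R K := (faithfulSMul_iff_algebraMap_injective R K).2 hc
  let F := FractionRing R
  let _ : Algebra F K := FractionRing.liftAlgebra R K
  have : IsScalarTower R F K := FractionRing.isScalarTower_liftAlgebra R K
  have hX : ∀ i, algebraMap R K (MvPolynomial.X i) = c i := fun i => MvPolynomial.aeval_X c i
  have hev : ∀ q : MvPolynomial (Option (Fin n)) k,
      ((MvPolynomial.optionEquivLeft k _ q).map (algebraMap R K)).eval θ =
        MvPolynomial.aeval (fun o : Option (Fin n) => o.elim θ c) q := fun q => by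
    rw [eval_map_algebraMap]
    refine AlgHom.congr_fun (φ₁ := ((aeval θ : R[X] →ₐ[R] K).restrictScalars k).comp
      (MvPolynomial.optionEquivLeft k _).toAlgHom) (MvPolynomial.algHom_ext fun o => ?_) q
    cases o <;> simp [hX]
  obtain ⟨Q, hQ⟩ := dvd_iff_isRoot.2 ((hev p).trans hp)
  have hP : ∀ j, ((MvPolynomial.optionEquivLeft k _ p).map (algebraMap R K)).coeff j ∈
      (algebraMap R K).range := fun j => ⟨_, (coeff_map _ j).symm⟩
  rw [← hev, ← der_opt, ← derivative_map, eval_der hQ] at hu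
  have hθ : θ ∈ O := hO.2.1 (Algebra.subset_adjoin (Set.mem_insert _ _))
  have hR : ∀ r, algebraMap R K r ∈ O := fun r =>
    hO.2.1 (Algebra.adjoin_mono (Set.subset_insert _ _)
      (Algebra.adjoin_range_eq_range_aeval k c ▸ ⟨r, rfl⟩))
  have hQO : ∀ j, Q.coeff j ∈ O :=
    down hQ O.toSubring (fun j => by obtain ⟨r, hr⟩ := hP j; exact hr ▸ hR r) hθ
  have hgen : F⟮θ⟯ = ⊤ := by
    have h1 : ∀ a ∈ Algebra.adjoin k (insert θ (Set.range c)), a ∈ F⟮θ⟯ := fun a ha => by
      have h2 : ∀ r, algebraMap R K r ∈ F⟮θ⟯ := fun r =>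
        IsScalarTower.algebraMap_apply R F K r ▸ algebraMap_mem _ _
      induction ha using Algebra.adjoin_induction with
      | mem x hx =>
        rcases hx with rfl | ⟨i, rfl⟩
        · exact IntermediateField.mem_adjoin_simple_self F x
        · exact hX i ▸ h2 _
      | algebraMap a => exact IsScalarTower.algebraMap_apply k R K a ▸ h2 _
      | add _ _ _ _ a b => exact add_mem a b
      | mul _ _ _ _ a b => exact mul_mem a b
    have h3 : ∀ a ∈ O, a ∈ F⟮θ⟯ := fun a ha => by
      obtain ⟨x, hx, y, hy, -, rfl⟩ := hO.2.2 a ha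
      exact div_mem (h1 x hx) (h1 y hy)
    refine eq_top_iff.2 fun f _ => ?_
    obtain ⟨x, hx, y, hy, -, rfl⟩ := hF f
    exact div_mem (h3 x hx) (h3 y hy)
  obtain ⟨_, he⟩ := euler (p := (MvPolynomial.optionEquivLeft k _ p).map (algebraMap R F)) hgen
    (by rw [Polynomial.map_map, ← IsScalarTower.algebraMap_eq, hQ]) hu.1
  obtain ⟨j, hj⟩ : ∃ j, IsU O (Q.coeff j) := by
    by_contra hn
    refine hu.not_mx ?_
    rw [eval_eq_sum_range]
    exact mx_sum hO.1 fun j _ => mx_mul_right ⟨hQO j, fun h => hn ⟨j, h⟩⟩ (pow_mem hθ j)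
  obtain ⟨g1, g2⟩ := integral hQ hP j
  refine nrmLoc_stmt k K ((integralClosure R K).restrictScalars k) O
    (fun f hf => isIntegral_trans (A := integralClosure R K) f hf) (fun x hx => ?_) fun f hf => ?_
  · rw [← mul_div_cancel_right₀ x hu.1, he]
    refine hu.div_mem (sum_mem fun i _ => mul_mem ?_ (pow_mem hθ i))
    obtain ⟨r, hr⟩ := IsIntegrallyClosed.isIntegral_iff.1
      (Algebra.isIntegral_trace (L := F) (IsIntegral.mul hx (integral hQ hP i).1))
    rw [← hr, ← IsScalarTower.algebraMap_apply]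
    exact hR r
  · have h1 : ∀ a ∈ Algebra.adjoin k (insert θ (Set.range c)),
        ∃ m : ℕ, IsIntegral R (a * Q.coeff j ^ m) := fun a ha => by
      induction ha using Algebra.adjoin_induction with
      | mem x hx =>
        rcases hx with rfl | ⟨i, rfl⟩
        · exact ⟨1, by rwa [pow_one]⟩
        · exact ⟨0, by rw [pow_zero, mul_one, ← hX]; exact isIntegral_algebraMap⟩
      | algebraMap a => exact ⟨0, by
          rw [pow_zero, mul_one, IsScalarTower.algebraMap_apply k R K]
          exact isIntegral_algebraMap⟩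
      | add x y _ _ a b =>
        obtain ⟨s, hs⟩ := a
        obtain ⟨t, ht⟩ := b
        exact ⟨s + t, by
          rw [show (x + y) * Q.coeff j ^ (s + t) = x * Q.coeff j ^ s * Q.coeff j ^ t +
            y * Q.coeff j ^ t * Q.coeff j ^ s by ring]
          exact (hs.mul (g1.pow t)).add (ht.mul (g1.pow s))⟩
      | mul x y _ _ a b =>
        obtain ⟨s, hs⟩ := a
        obtain ⟨t, ht⟩ := b
        exact ⟨s + t, by
          rw [pow_add, mul_mul_mul_comm]
          exact hs.mul ht⟩
    obtain ⟨x, hx, y, hy, hy', rfl⟩ := hO.2.2 f hf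
    obtain ⟨s, hs⟩ := h1 x hx
    obtain ⟨t, ht⟩ := h1 y hy
    refine ⟨_, hs.mul (g1.pow t), _, ht.mul (g1.pow s), (hy'.mul (hj.pow t)).mul (hj.pow s), ?_⟩
    have := hj.1
    have := hy'.1
    field_simp

end Pool.Agent.MP_20d318_ag.BV
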