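import Pool.Agent.MP_20d318_ag.BV.Sig1
import Pool.Agent.MP_20d318_ag.AG.Ht
import Pool.Agent.MP_20d318_ag.AG.Cls

-- ======== part 0: formerly Pool.Agent.MP_20d318_ag.BV.FinA
section MrgPart0

/-! The charts of the closure of a graph, and the transfer of infinite orbits to the scheme. -/

set_option autoImplicit false

open AlgebraicGeometry CategoryTheory

namespace Pool.Agent.MP_20d318_ag.BV

open Pool.Agent.MP_a703b5_ag Pool.Agent.MP_20d318_ag.AG

namespace FinA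

variable {K Λ : Type} [Field K] [Algebra ℂ K] {S : Λ → Set K} {i j : Λ → K}

theorem gen_mem {l : Λ} {a : K} (ha : a ∈ S l) : a / j l ∈ cht ℂ S j :=
  Algebra.subset_adjoin (Set.mem_iUnion.2 ⟨l, a, ha, rfl⟩)

theorem ratio [Fintype Λ] (hi : ∀ l, i l ∈ S l) : (∏ l, i l) / ∏ l, j l ∈ cht ℂ S j := by
  rw [← Finset.prod_div_distrib]
  exact prod_mem fun l _ => gen_mem (hi l)

theorem comp [Fintype Λ] (h : Fam ℂ S) (hi : ∀ l, i l ∈ S l) {c : K} (hc : c ∈ cht ℂ S i) :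
    ∃ N : ℕ, ((∏ l, i l) / ∏ l, j l) ^ N * c ∈ cht ℂ S j := by
  classical
  have hρ := ratio (j := j) hi
  induction hc using Algebra.adjoin_induction with
  | mem x hx =>
    obtain ⟨l, a, ha, rfl⟩ := Set.mem_iUnion.1 hx
    refine ⟨1, ?_⟩
    have h0 := h.nz l _ (hi l)
    have e : i l / j l * (a / i l) = a / j l := by
      rw [div_mul_div_comm, mul_comm (j l), mul_div_mul_left _ _ h0]
    rw [pow_one, ← Finset.prod_div_distrib, ← Finset.prod_erase_mul _ _ (Finset.mem_univ l),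
      mul_assoc, e]
    exact mul_mem (prod_mem fun l' _ => gen_mem (hi l')) (gen_mem ha)
  | algebraMap r => exact ⟨0, by simp⟩
  | add a b _ _ ha hb =>
    obtain ⟨m, hm⟩ := ha
    obtain ⟨n, hn⟩ := hb
    refine ⟨m + n, ?_⟩
    have := add_mem (mul_mem (pow_mem hρ n) hm) (mul_mem (pow_mem hρ m) hn)
    rwa [← mul_assoc, ← mul_assoc, ← pow_add, ← pow_add, add_comm n m, ← mul_add] at this
  | mul a b _ _ ha hb =>
    obtain ⟨m, hm⟩ := ha
    obtain ⟨n, hn⟩ := hb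
    refine ⟨m + n, ?_⟩
    have := mul_mem hm hn
    rwa [mul_mul_mul_comm, ← pow_add] at this

theorem fin [Finite Λ] (h : Fam ℂ S) : (⋃ l, (fun a => a / j l) '' S l).Finite :=
  Set.finite_iUnion fun l => (h.fin l).image _

theorem proper (h : Fam ℂ S) (O : ValuationSubring K) (hO : ∀ c : ℂ, algebraMap ℂ K c ∈ O) :
    ∃ j : Λ → K, (∀ l, j l ∈ S l) ∧ ∀ c ∈ cht ℂ S j, c ∈ O := by
  choose j hj hm using fun l => Set.exists_max_image (S l) O.valuation (h.fin l) (h.ne l)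
  let W : Subalgebra ℂ K := { O.toSubring.toSubsemiring with algebraMap_mem' := hO }
  have hle : cht ℂ S j ≤ W := Algebra.adjoin_le fun x hx => by
    obtain ⟨l, a, ha, rfl⟩ := Set.mem_iUnion.1 hx
    change a / j l ∈ O
    rw [← O.valuation_le_one_iff, map_div₀]
    exact div_le_one_of_le₀ (hm l a ha) zero_le
  exact ⟨j, hj, fun c hc => hle hc⟩

theorem frac (h : Fam ℂ S) (hj : ∀ l, j l ∈ S l) (x : K) :
    ∃ a ∈ cht ℂ S j, ∃ b ∈ cht ℂ S j, b ≠ 0 ∧ x * b = a := by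
  have h1 : x ∈ IntermediateField.adjoin ℂ (⋃ l, (fun a => a / j l) '' S l) := by
    refine (IntermediateField.adjoin_le_iff.2 ?_ : _ ≤ _) (h.top.ge IntermediateField.mem_top)
    rintro _ ⟨l, a, ha, b, hb, rfl⟩
    rw [← div_div_div_cancel_right₀ (h.nz l _ (hj l)) a b]
    exact div_mem (IntermediateField.subset_adjoin _ _ (Set.mem_iUnion.2 ⟨l, a, ha, rfl⟩))
      (IntermediateField.subset_adjoin _ _ (Set.mem_iUnion.2 ⟨l, b, hb, rfl⟩))
  obtain ⟨a, ha, b, hb, rfl⟩ := IntermediateField.mem_adjoin_iff_div.1 h1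
  by_cases h0 : b = 0
  · exact ⟨0, zero_mem _, 1, one_mem _, one_ne_zero, by simp [h0]⟩
  · exact ⟨a, ha, b, hb, h0, div_mul_cancel₀ _ h0⟩

end FinA

theorem chart_stmt : ChartStmt := by
  intro K Λ _ _ _ S h
  have := Fintype.ofFinite Λ
  refine ⟨{j : Λ → K // ∀ l, j l ∈ S l}, (Set.Finite.pi' h.fin).to_subtype,
    ⟨fun j => cht ℂ S j.1, fun j => ∏ l, j.1 l,
      fun j => Finset.prod_ne_zero_iff.2 fun l _ => h.nz l _ (j.2 l),
      fun i j => FinA.ratio i.2, fun i j c hc => FinA.comp h i.2 hc,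
      fun j => Subalgebra.fg_def.2 ⟨_, FinA.fin h, rfl⟩, fun O hO => ?_,
      fun j x => FinA.frac h j.2 x⟩, ?_, fun j => ⟨_, FinA.fin h, rfl⟩⟩
  · obtain ⟨j, hj, h1⟩ := FinA.proper h O hO
    exact ⟨⟨j, hj⟩, h1⟩
  · ext O
    exact Set.mem_iUnion.trans ⟨fun ⟨j, hO⟩ => ⟨j.1, j.2, hO⟩, fun ⟨j, hj, hO⟩ => ⟨⟨j, hj⟩, hO⟩⟩

open Sch in
theorem orb_stmt : OrbStmt := by
  intro K ι _ _ 𝒞 M ⟨ξ, hξ, hinf⟩
  choose r hr using exists_rel (M := M)
  choose l hl using exists_rel' M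
  let Φ : (AG.Curve (pts 𝒞) → ℝ) →ₗ[ℝ] Curve M.s → ℝ := LinearMap.funLeft ℝ ℝ r
  have hΦ : ∀ {D : CDiv M.X} {E : Cartier (pts 𝒞)}, RelD D E → Φ E.cls = deg M.s D :=
    fun h => funext fun c => ((hr c).deg h).symm
  have key : ∀ c ν, Sch.Rel c ν → Φ ξ c = ξ ν := fun c ν h => by
    refine LinearMap.eqOn_span' (f := (LinearMap.proj c).comp Φ) (g := LinearMap.proj ν) ?_ hξ
    rintro _ ⟨E, rfl⟩
    obtain ⟨D, hD⟩ := exists_cdiv M E
    exact (congrFun (hΦ hD) c).trans (h.deg hD)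
  have hN : (AG.N1 (pts 𝒞)).map Φ ≤ N1 M.s := by
    rw [AG.N1, Submodule.map_span]
    refine Submodule.span_mono ?_
    rintro _ ⟨_, ⟨E, rfl⟩, rfl⟩
    obtain ⟨D, hD⟩ := exists_cdiv M E
    exact ⟨D, (hΦ hD).symm⟩
  refine ⟨Φ ξ, hN (Submodule.mem_map_of_mem hξ),
    fun hfin => hinf ((hfin.image fun η ν => η (l ν)).subset ?_)⟩
  rintro _ ⟨g, rfl⟩
  obtain ⟨a, ha⟩ := exists_aut M g
  refine ⟨_, ⟨a, rfl⟩, funext fun ν => ?_⟩
  obtain ⟨c', h4, h5⟩ := (hl ν).push ha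
  exact (h5 _).trans (key _ _ h4)

end Pool.Agent.MP_20d318_ag.BV

end MrgPart0

-- ======== part 1: formerly Pool.Agent.MP_20d318_ag.BV.FinB
section MrgPart1

/-! The scheme is smooth, has trivial canonical class, and is the double cover. -/

set_option autoImplicit false
set_option linter.style.haveILetI false

open AlgebraicGeometry CategoryTheory MvPolynomial

namespace Pool.Agent.MP_20d318_ag.BV

open Pool.Agent.MP_a703b5_ag Pool.Agent.MP_20d318_ag.AG

namespace FinB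

section field

variable {k M K : Type} [Field k] [Field M] [Field K] [Algebra k M] [Algebra k K]
  {d : Dat k} {x y : M} {ι : M →ₐ[k] K} {l : k} {ζ w : K}

theorem map_aeval3 {A B : Type} [CommRing A] [CommRing B] [Algebra k A] [Algebra k B]
    (φ : A →ₐ[k] B) (a b : A) (P : MvPolynomial (Fin 3) k) :
    φ (aeval ![a, b, 1] P) = aeval ![φ a, φ b, 1] P := by
  rw [comp_aeval_apply]
  congr 2
  funext i
  fin_cases i <;> simp

theorem top_of (hg : GenP k x y) (he : Ext d x y ι l ζ w) {L : IntermediateField k K}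
    (h1 : ι x ∈ L) (h2 : ι y ∈ L) (h3 : ζ ∈ L) (h4 : w ∈ L) : L = ⊤ := by
  rw [eq_top_iff, ← he.top, IntermediateField.adjoin_le_iff]
  rintro _ (⟨m, rfl⟩ | rfl | rfl)
  · have h5 : IntermediateField.adjoin k {x, y} ≤ L.comap ι := by
      rw [IntermediateField.adjoin_le_iff]
      rintro _ (rfl | rfl)
      exacts [h1, h2]
    exact h5 (hg.top ▸ IntermediateField.mem_top)
  exacts [h3, h4]

theorem trb (h : XAll d x y ι l ζ w) : IsTranscendenceBasis k ![ι x, ι y, ζ] := by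
  refine h.loc.ind.isTranscendenceBasis_iff_isAlgebraic.mpr ⟨fun f => ?_⟩
  let R := Algebra.adjoin k (Set.range ![ι x, ι y, ζ])
  have m : ∀ i, ![ι x, ι y, ζ] i ∈ R := fun i => Algebra.subset_adjoin ⟨i, rfl⟩
  have a : ∀ u ∈ R, IsAlgebraic R u := fun u hu => isAlgebraic_algebraMap (⟨u, hu⟩ : R)
  have p : ∀ i, ι (fg d x y i) ∈ R := fun i => by
    rw [fg, map_aeval3]
    have h1 : Algebra.adjoin k (Set.range ![ι x, ι y, 1]) ≤ R := by
      refine Algebra.adjoin_le ?_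
      rintro _ ⟨j, rfl⟩
      fin_cases j
      exacts [m 0, m 1, R.one_mem]
    rw [Algebra.adjoin_range_eq_range_aeval] at h1
    exact h1 ⟨_, rfl⟩
  refine (top_of h.t.gen h.ext (L := ((Subalgebra.algebraicClosure R K).restrictScalars
    k).toIntermediateField fun _ => IsAlgebraic.inv) (a _ (m 0)) (a _ (m 1)) (a _ (m 2)) ?_).ge
      IntermediateField.mem_top
  have h0 := (map_ne_zero ι).2 (h.t.pen.ne 1)
  refine IsAlgebraic.of_pow (n := 2) two_pos ?_
  rw [eq_div_of_mul_eq h0 h.ext.eq, div_eq_mul_inv]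
  refine (a _ ?_).mul (a _ (p 1)).inv
  exact mul_mem (p 0) (mul_mem (mul_mem (m 2) (sub_mem (m 2) (one_mem _)))
    (sub_mem (m 2) (R.algebraMap_mem l)))

/-- One of the functions divides the others. -/
def Rg (S : Set K) (O : Subalgebra k K) : Prop := ∃ b ∈ S, b ≠ 0 ∧ ∀ a ∈ S, a / b ∈ O

theorem rg_mp {Λ : Type} {S : Λ → Set K} (hF : Fam k S) {O : Subalgebra k K} (hO : O ∈ mp k S)
    (i : Λ) : Rg (S i) O := by
  obtain ⟨j, h1, h2⟩ := hO
  exact ⟨j i, h1 i, hF.nz i _ (h1 i), fun a ha =>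
    h2.2.1 (Algebra.subset_adjoin (Set.mem_iUnion.2 ⟨i, a, ha, rfl⟩))⟩

theorem rg_gn {S : Set M} {R : Subalgebra k M} {γ : M} (h : Gn S R γ) {O : Subalgebra k K}
    (hle : R ≤ O.comap ι) : Rg (ι '' S) O := by
  obtain ⟨h1, b, hb, h2⟩ := h
  obtain ⟨h3, h4⟩ := div_ne_zero_iff.1 h2.1
  refine ⟨ι b, ⟨b, hb, rfl⟩, (map_ne_zero ι).2 h3, ?_⟩
  rintro _ ⟨a, ha, rfl⟩
  have h5 : a / b ∈ R := by
    convert mul_mem (h1 a ha) h2.2.2 using 1
    field_simp
  rw [← map_div₀]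
  exact hle h5

theorem rg_all (h : XAll d x y ι l ζ w) {O : Subalgebra k K} (hO : O ∈ XX d x y ι ζ w) :
    Rg {ι x, ι y, 1} O ∧ Rg {ι x, ι y} O ∧
      Rg {aeval ![ι x, ι y, 1] d.F, aeval ![ι x, ι y, 1] d.G} O ∧ Rg {ζ, 1} O := by
  refine ⟨?_, ?_, ?_, rg_mp h.loc.fam hO (Sum.inr false)⟩
  · simpa [famX, famT, SH, Set.image_insert_eq] using rg_mp h.loc.fam hO (Sum.inl none)
  · simpa [famX, famT, SQ, xq, yq, h.t.cub.a0, h.t.cub.b0, Set.image_insert_eq] using
      rg_mp h.loc.fam hO (Sum.inl (some none))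
  · obtain ⟨R, hR, hd⟩ := h.loc.maps O hO
    have h1 := rg_gn (h.t.pen.gnF R hR) hd.1
    rwa [Set.image_pair, fg, fg, map_aeval3, map_aeval3] at h1

end field

variable {K J : Type} [Field K] [Algebra ℂ K] {𝒞 : Charts K J} (N : Model 𝒞)

theorem regular_of {S : Set K} (h : ∀ p, Rg S (Sch.OA N p)) {S' : Set N.X.functionField}
    (hS : N.e '' S' = S) : Regular S' := by
  subst hS
  intro p
  obtain ⟨_, ⟨b, hb, rfl⟩, h0, h1⟩ := h p
  refine ⟨b, hb, fun a ha => ?_⟩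
  obtain ⟨u, hu⟩ := h1 _ ⟨a, ha, rfl⟩
  refine ⟨u, N.e.injective ?_⟩
  rw [map_mul]
  exact ((eq_div_iff h0).1 hu).symm

end FinB

open FinB

theorem fin_stmt : FinStmt := by
  intro hG M K _ _ _ _ d x y ι l ζ w hx hs J 𝒞 N hp hB
  have hO : ∀ p, Sch.OA N p ∈ XX d x y ι ζ w := fun p => hp ▸ Sch.OA_mem p
  refine ⟨N.smooth fun j => ?_, ?_, ?_⟩
  · obtain ⟨G, h1, h2⟩ := hB j
    rw [h2]
    exact hG ℂ K G h1 fun O h3 => hs.sm O (hp ▸ Set.mem_iUnion.2 ⟨j, h2 ▸ h3⟩)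
  · refine Sch.Canon.trivial_of N (trb hx) (l := w * ι (fg d x y 1))
      (mul_ne_zero hx.loc.wne ((map_ne_zero ι).2 (hx.t.pen.ne 1))) fun D hD p => ?_
    obtain ⟨c, h1, h2, h3⟩ := hs.can D hD _ (hO p)
    refine ⟨c, h1, fun a ha => ?_, h3⟩
    obtain ⟨r, h4, h5⟩ := h2 a ha
    rw [h5]
    exact sum_mem fun i _ => Submodule.smul_mem _ (⟨r i, h4 i⟩ : N.O p)
      (Submodule.subset_span ⟨i, rfl⟩)
  · letI : Algebra ℂ N.X.functionField := (const N.s).toAlgebra
    let e : N.X.functionField ≃ₐ[ℂ] K := AlgEquiv.ofRingEquiv (f := N.e) N.e_const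
    have he : ∀ a, N.e (e.symm a) = a := e.apply_symm_apply
    have hP : ∀ P : MvPolynomial (Fin 3) ℂ, N.e (aeval ![e.symm (ι x), e.symm (ι y), 1] P) =
        aeval ![ι x, ι y, 1] P := fun P => by
      have h1 : N.e _ = aeval ![N.e _, N.e _, 1] P :=
        map_aeval3 e.toAlgHom (e.symm (ι x)) (e.symm (ι y)) P
      rwa [he, he] at h1
    refine ⟨e.symm (ι x), e.symm (ι y), e.symm ζ, e.symm w, ?_, ?_, ?_,
      regular_of N (fun p => (rg_all hx (hO p)).1) ?_,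
      regular_of N (fun p => (rg_all hx (hO p)).2.1) ?_,
      regular_of N (fun p => (rg_all hx (hO p)).2.2.1) ?_,
      regular_of N (fun p => (rg_all hx (hO p)).2.2.2) ?_⟩
    · refine .of_comp e.toAlgHom ?_
      have h1 : e.toAlgHom ∘ ![e.symm (ι x), e.symm (ι y), e.symm ζ] = ![ι x, ι y, ζ] := by
        funext i
        fin_cases i <;> exact he _
      rw [h1]
      exact hx.loc.ind
    · have h1 := top_of hx.t.gen hx.ext (L := (IntermediateField.adjoin ℂ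
        {e.symm (ι x), e.symm (ι y), e.symm ζ, e.symm w}).comap e.symm.toAlgHom)
        (IntermediateField.subset_adjoin _ _ (by simp)) (IntermediateField.subset_adjoin _ _ (by simp))
        (IntermediateField.subset_adjoin _ _ (by simp)) (IntermediateField.subset_adjoin _ _ (by simp))
      refine eq_top_iff.2 fun f _ => ?_
      have h2 := h1.ge (IntermediateField.mem_top (x := e f))
      rw [← e.symm_apply_apply f]
      exact h2
    · refine N.e.injective ?_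
      have h1 := hx.ext.eq
      rw [fg, fg, map_aeval3, map_aeval3] at h1
      simp only [map_mul, map_pow, map_sub, map_one, he, hP, N.e_const]
      exact h1
    all_goals simp only [Set.image_insert_eq, Set.image_singleton, he, hP, map_one]

end Pool.Agent.MP_20d318_ag.BV

end MrgPart1

-- marker of a merged file
example : 731051 + 777045 = 731051 + 777045 := rfl
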