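import Pool.Agent.MP_20d318_ag.BV.Poly2

/-! From the lattice statements to the cone statement. -/

set_option autoImplicit false

namespace Pool.Agent.MP_20d318_ag.BV

open Pool.Agent.MP_79c67d_ag Pool.Agent.MP_20d318_ag.AG Pool.Agent.MP_20d318_ag.Lat

namespace Glue

section ring

variable {R : Type} [CommRing R]

theorem ip_comm (D Z : Lam R) : ip D Z = ip Z D := by
  simp only [ip, mul_comm]

theorem ip_add (D E Z : Lam R) : ip (D + E) Z = ip D Z + ip E Z := by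
  simp only [ip, Prod.fst_add, Prod.snd_add, Pi.add_apply, add_mul, Finset.sum_add_distrib]
  ring

theorem ip_smul (a : R) (D Z : Lam R) : ip (a • D) Z = a * ip D Z := by
  simp only [ip, Prod.smul_fst, Prod.smul_snd, Pi.smul_apply, smul_eq_mul, mul_sub, Finset.mul_sum,
    mul_assoc]

theorem ip_neg (D Z : Lam R) : ip (-D) Z = -ip D Z := by
  rw [← neg_one_smul R D, ip_smul, neg_one_mul]

theorem ip_sub (D E Z : Lam R) : ip (D - E) Z = ip D Z - ip E Z := by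
  rw [sub_eq_add_neg, ip_add, ip_neg, sub_eq_add_neg]

theorem ip_zero (D : Lam R) : ip D 0 = 0 := by simp [ip]

theorem ip_cE (q : Q) (Z : Lam R) : ip (cE q) Z = Z.2 q := by
  simp [ip, cE, Pi.single_apply]

theorem ip_sig (i : Fin 9) (D Z : Lam R) : ip (sig i D) Z = ip D (sig i Z) := by
  rw [ip_comm D (sig i Z)]
  simp only [sig, ip_add, ip_sub, ip_neg, ip_smul, ip_cE]
  rw [ip_comm Z D, ip_comm Z cF, ip_comm Z (ch _), ip_comm D cF, ip_comm D (ch _)]
  ring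

theorem ipW_sigW (i : Fin 9) (D Z : W R) : ipW (sigW i D) Z = ipW D (sigW i Z) := by
  simp only [ipW, sigW, ip_sig]

theorem ipW_add (D E Z : W R) : ipW (D + E) Z = ipW D Z + ipW E Z := by
  simp only [ipW, Prod.fst_add, Prod.snd_add, Pi.add_apply, add_mul, Finset.sum_add_distrib, ip_add]
  ring

theorem ipW_smul (a : R) (D Z : W R) : ipW (a • D) Z = a * ipW D Z := by
  simp only [ipW, Prod.smul_fst, Prod.smul_snd, Pi.smul_apply, smul_eq_mul, mul_sub, mul_add,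
    Finset.mul_sum, mul_assoc, ip_smul]

end ring

theorem ip_toR (D Z : Lam ℤ) : ip (toR D) (toR Z) = (ip D Z : ℤ) := by
  simp [ip, toR]

theorem ipW_toRW (D Z : W ℤ) : ipW (toRW D) (toRW Z) = (ipW D Z : ℤ) := by
  simp [ipW, toRW, ip_toR]

theorem toR_nsmul (n : ℕ) (c : Lam ℤ) : toR (n • c) = (n : ℝ) • toR c := by
  ext <;> simp [toR]

theorem toR_zero : toR 0 = 0 := by
  ext <;> simp [toR]

theorem toR_cF : toR cF = cF := by
  refine Prod.ext (by simp [toR, cF]) (funext fun q => ?_)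
  cases q <;> simp [toR, cF]

theorem toR_cR : toR cR = cR := by
  refine Prod.ext (by simp [toR, cR]) (funext fun q => ?_)
  cases q <;> simp [toR, cR]

theorem toR_cC (i : Fin 2) : toR (cC i) = cC i := by
  fin_cases i
  · exact toR_cF
  · exact toR_cR

theorem toR_ch (q : Q) : toR (ch q) = ch q := by
  refine Prod.ext (by simp [toR, ch]) (funext fun q' => ?_)
  simp [toR, ch, Pi.single_apply]

theorem toR_cE (q : Q) : toR (cE q) = cE q := by
  refine Prod.ext (by simp [toR, cE]) (funext fun q' => ?_)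
  simp [toR, cE, Pi.single_apply]

/-- Integral classes as real classes, additively. -/
def toRh : Lam ℤ →+ Lam ℝ where
  toFun := toR
  map_zero' := toR_zero
  map_add' a b := by ext <;> simp [toR]

theorem toR_zsmul (n : ℤ) (c : Lam ℤ) : toR (n • c) = (n : ℝ) • toR c := by
  ext <;> simp [toR]

theorem toR_sig (i : Fin 9) (c : Lam ℤ) : toR (sig i c) = sig i (toR c) := by
  have h1 : ∀ a b, toR (a + b) = toR a + toR b := toRh.map_add
  have h2 : ∀ a b, toR (a - b) = toR a - toR b := toRh.map_sub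
  have h3 : ∀ a, toR (-a) = -toR a := toRh.map_neg
  simp only [sig, h1, h2, h3, toR_zsmul, toR_cF, toR_ch, toR_cE, ← ip_toR]
  simp [toR]

theorem toRW_sigW (i : Fin 9) (D : W ℤ) : toRW (sigW i D) = sigW i (toRW D) := by
  simp only [toRW, sigW, toR_sig]

/-- Integral classes as real classes, additively. -/
def toRWh : W ℤ →+ W ℝ where
  toFun := toRW
  map_zero' := by ext <;> simp [toRW, toR]
  map_add' a b := by ext <;> simp [toRW, toR]

theorem mem_LW {D : W ℝ} (h : D ∈ LW) : ∃ E, toRW E = D := by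
  have : LW ≤ toRWh.range := (AddSubgroup.closure_le _).2 fun _ hx => hx
  exact this h

theorem finrank_W : Module.finrank ℝ (W ℝ) = 20 := by
  simp [W, Lam, Q, Module.finrank_prod, Module.finrank_pi_fintype]

variable {k K : Type} [Field k] [Field K] [Algebra k K] {X : Set (Subalgebra k K)}

theorem cvint : ∀ c ∈ Set.range (Curve.lin (X := X)),
    Intg (AddSubgroup.closure (Set.range Cartier.n1)) c := by
  rintro _ ⟨ν, rfl⟩ ξ hξ
  induction hξ using AddSubgroup.closure_induction with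
  | mem x hx => obtain ⟨D, rfl⟩ := hx; exact ⟨ν.deg D.f, rfl⟩
  | zero => exact ⟨0, by simp⟩
  | add x y _ _ hx hy =>
    obtain ⟨a, ha⟩ := hx
    obtain ⟨b, hb⟩ := hy
    exact ⟨a + b, by simp [ha, hb]⟩
  | neg x _ hx => obtain ⟨a, ha⟩ := hx; exact ⟨-a, by simp [ha]⟩

theorem gL : ∀ g ∈ autG X, ∀ x ∈ AddSubgroup.closure (Set.range (Cartier.n1 (X := X))),
    g x ∈ AddSubgroup.closure (Set.range (Cartier.n1 (X := X))) := by
  rintro _ ⟨g, rfl⟩ ξ hξ
  induction hξ using AddSubgroup.closure_induction with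
  | mem x hx =>
    obtain ⟨D, rfl⟩ := hx
    exact AddSubgroup.subset_closure ⟨D.pull g, (g.n1_n1 D).symm⟩
  | zero => simp
  | add x y _ _ hx hy => rw [map_add]; exact add_mem hx hy
  | neg x _ hx => rw [map_neg]; exact neg_mem hx

variable (X) in
/-- The cone of effective classes. -/
abbrev Ef : Set (N1 X) := cone (Cartier.n1 '' {D | D.Effective})

variable (X) in
/-- The cone of effective nef classes. -/
abbrev NEf : Set (N1 X) := {D | ∀ c ∈ Set.range Curve.lin, 0 ≤ c D} ∩ Ef X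

theorem gEf (g : Aut X) {ξ : N1 X} (h : ξ ∈ Ef X) : g.eqv ξ ∈ Ef X :=
  ((isCone_cone _).preimage g.eqv.toLinearMap).cone_subset (by
    rintro _ ⟨D, hD, rfl⟩
    exact subset_cone _ ⟨D.pull g, hD.pull g, (g.n1_n1 D).symm⟩) h

theorem gC : ∀ g ∈ autG X, ∀ x ∈ NEf X, g x ∈ NEf X := by
  rintro _ ⟨g, rfl⟩ x hx
  refine ⟨?_, gEf g hx.2⟩
  rintro _ ⟨ν, rfl⟩
  exact hx.1 _ ⟨ν.push (g.1 : K →ₐ[k] K) fun O => (g.2 O).1, rfl⟩

theorem cone_of_concl [hfd : FiniteDimensional ℝ (N1 X)]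
    (h : Concl (AddSubgroup.closure (Set.range Cartier.n1)) (NEf X) (autG X)) :
    ConeStatement X := by
  obtain ⟨R, hRL, hRC, hcov, hdis⟩ := h
  have hne : NefEff X = (N1 X).subtype '' NEf X := by
    have e : {η | ∃ D : Cartier X, D.Effective ∧ D.cls = η} =
        (N1 X).subtype '' (Cartier.n1 '' {D | D.Effective}) := by
      rw [Set.image_image]; rfl
    ext ξ
    constructor
    · rintro ⟨h1, h2⟩
      rw [e] at h2
      obtain ⟨η, h3, rfl⟩ := (cone_image _ _).subset h2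
      exact ⟨η, ⟨by rintro _ ⟨ν, rfl⟩; exact h1 ν, h3⟩, rfl⟩
    · rintro ⟨η, ⟨h1, h2⟩, rfl⟩
      refine ⟨fun ν => h1 _ ⟨ν, rfl⟩, ?_⟩
      rw [e]
      exact (cone_image _ _).superset ⟨η, h2, rfl⟩
  refine ⟨hfd, R, _, fun r hr => ?_, rfl,
    fun ξ hξ => hne ▸ ⟨ξ, hRC hξ, rfl⟩, fun ξ => ⟨fun hξ => ?_, ?_⟩, ?_⟩
  · have := hRL hr
    clear hr
    induction this using AddSubgroup.closure_induction with
    | mem x hx => obtain ⟨D, rfl⟩ := hx; exact Submodule.subset_span ⟨D, rfl⟩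
    | zero => exact zero_mem _
    | add x y _ _ hx hy => exact add_mem hx hy
    | neg x _ hx => exact neg_mem hx
  · rw [hne] at hξ
    obtain ⟨η, hη, rfl⟩ := hξ
    obtain ⟨_, ⟨g, rfl⟩, y, hy, rfl⟩ := hcov η hη
    exact ⟨g, y, hy, rfl⟩
  · rintro ⟨g, η, hη, rfl⟩
    rw [hne]
    exact ⟨g.eqv η, gC _ ⟨g, rfl⟩ η (hRC hη), rfl⟩
  · rintro g ⟨ζ, hζ, hg⟩ ξ hξ η hη e
    refine hdis g.eqv ⟨g, rfl⟩ (fun h1 => hg ?_) η (interior_subset_core _ hη) ?_
    · exact congrArg Subtype.val (LinearEquiv.congr_fun h1 ⟨ζ, hζ⟩)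
    · rw [show g.eqv η = ξ from Subtype.ext e.symm]
      exact interior_subset_core _ hξ

/-- The degrees of a class on all curves. -/
def Psi (Z : Curve X → W ℤ) : W ℝ →ₗ[ℝ] (Curve X → ℝ) where
  toFun D ν := ipW D (toRW (Z ν))
  map_add' D E := funext fun _ => ipW_add D E _
  map_smul' a D := funext fun _ => ipW_smul a D _

variable {P : Set (Lam ℤ)} {Z : Curve X → W ℤ}

theorem psi_cls {D : W ℤ} {C : Cartier X} (h : ∀ ν, ν.deg C.f = ipW D (Z ν)) :
    Psi Z (toRW D) = C.cls :=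
  funext fun ν => (ipW_toRW D (Z ν)).trans (congrArg _ (h ν).symm)

theorem nx_of_nef (h : GeoX X P Z) (hG : GEN ⊆ P) {D : W ℝ} (hD : ∀ ν, 0 ≤ Psi Z D ν) :
    D ∈ NX := by
  refine ⟨fun i j => ?_, fun i => ?_, fun c hc => ?_, fun j c hc => ?_⟩
  · obtain ⟨ν, n, hn, e⟩ := h.tE i j
    have h1 : Psi Z D ν = n * D.2.2 i j := by
      change ipW D (toRW (Z ν)) = _
      rw [e]
      simp [ipW, toRW, toR_zero, ip_zero, ite_and, mul_comm]
    have h2 := hD ν
    rw [h1] at h2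
    exact nonneg_of_mul_nonneg_right h2 (by exact_mod_cast hn)
  · obtain ⟨ν, n, hn, e⟩ := h.tC i
    have h1 : Psi Z D ν = n * (D.2.1 - ∑ j, D.2.2 i j) := by
      change ipW D (toRW (Z ν)) = _
      rw [e]
      simp [ipW, toRW, toR_zero, ip_zero, mul_sub, Finset.mul_sum, mul_comm]
    have h2 := hD ν
    rw [h1] at h2
    exact sub_nonneg.1 (nonneg_of_mul_nonneg_right h2 (by exact_mod_cast hn))
  · obtain ⟨ν, n, hn, e⟩ := h.tG c (hG hc)
    have h1 : Psi Z D ν = n * ip D.1 (toR c) := by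
      change ipW D (toRW (Z ν)) = _
      rw [e]
      simp only [ipW, toRW, toR_nsmul]
      rw [ip_comm, ip_smul, ip_comm]
      simp
    have h2 := hD ν
    rw [h1] at h2
    exact nonneg_of_mul_nonneg_right h2 (by exact_mod_cast hn)
  · obtain ⟨ν, n, hn, e⟩ := h.tT c (hG hc) j
    have h1 : Psi Z D ν = n * ip (D.1 - ∑ i, D.2.2 i j • cC i) (toR c) := by
      change ipW D (toRW (Z ν)) = _
      rw [e]
      have h3 : ∀ i, ((ip (cC i) (n • c) : ℤ) : ℝ) = n * ip (cC i) (toR c) := fun i => by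
        rw [← ip_toR, toR_nsmul, toR_cC, ip_comm, ip_smul, ip_comm]
      simp only [ipW, toRW, toR_nsmul, Fin.sum_univ_two, ip_sub, ip_add, ip_smul, apply_ite, h3]
      rw [ip_comm, ip_smul, ip_comm]
      simp
      ring
    have h2 := hD ν
    rw [h1] at h2
    exact nonneg_of_mul_nonneg_right h2 (by exact_mod_cast hn)

theorem exists_aut (h : GeoX X P Z) (l : List (Fin 9)) :
    ∃ g : Aut X, ∀ D, g.act (Psi Z D) = Psi Z (actW l D) := by
  induction l with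
  | nil => exact ⟨Aut.one, fun _ => rfl⟩
  | cons i l ih =>
    obtain ⟨g, hg⟩ := ih
    obtain ⟨a, ha⟩ := h.aut i
    refine ⟨a.mul g, fun D => ?_⟩
    rw [Aut.act_mul, hg]
    funext ν
    change ipW _ (toRW (Z _)) = ipW (sigW i (actW l D)) (toRW (Z ν))
    rw [ha, toRW_sigW, ipW_sigW]

end Glue

open Glue in
theorem glue_stmt : GlueStmt := by
  classical
  intro hA hD hB hC k K _ _ _ X P Z h
  have hG := hA P h.pa
  obtain ⟨c1, c2, c3, c4⟩ := hC P h.pa hG hD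
  obtain ⟨⟨P₀, B, ⟨R, hRL, rfl⟩, hPN, hBP, hcov⟩, hinf⟩ := hB
  have hnef : ∀ D ∈ NX, ∀ ν, 0 ≤ Psi Z D ν := fun D hD ν => c1 D hD _ (h.cur ν)
  have hinj : Function.Injective (Psi Z) := (injective_iff_map_eq_zero _).2 fun D e =>
    c4 D (nx_of_nef h hG fun ν => by simp [e]) (nx_of_nef h hG fun ν => by simp [e])
  have hmem : ∀ D, Psi Z D ∈ N1 X := by
    intro D
    have h1 : D ∈ Submodule.span ℝ (NX ∩ Set.range toRW) := by rw [c3]; trivial
    have h2 : Submodule.span ℝ (NX ∩ Set.range toRW) ≤ (N1 X).comap (Psi Z) := by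
      refine Submodule.span_le.2 ?_
      rintro _ ⟨-, E, rfl⟩
      obtain ⟨C, hC⟩ := h.cart E
      exact Submodule.subset_span ⟨C, (psi_cls hC).symm⟩
    exact h2 h1
  let Φ : W ℝ →ₗ[ℝ] N1 X := (Psi Z).codRestrict _ hmem
  have hΦ : ∀ D, (Φ D).1 = Psi Z D := fun _ => rfl
  have hΦi : Function.Injective Φ := fun a b e => hinj (congrArg Subtype.val e)
  have hΦs : Function.Surjective Φ := by
    rintro ⟨ξ, hξ⟩
    have h2 : N1 X ≤ LinearMap.range (Psi Z) := by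
      refine Submodule.span_le.2 ?_
      rintro _ ⟨C, rfl⟩
      obtain ⟨N, D, hN, e⟩ := h.cls C
      refine ⟨(N : ℝ)⁻¹ • toRW D, funext fun ν => ?_⟩
      have h3 : (N : ℝ) ≠ 0 := by exact_mod_cast hN
      rw [map_smul]
      change (N : ℝ)⁻¹ * ipW (toRW D) (toRW (Z ν)) = (ν.deg C.f : ℝ)
      rw [ipW_toRW, ← e, Int.cast_mul, inv_mul_cancel_left₀ h3]
    obtain ⟨D, rfl⟩ := h2 hξ
    exact ⟨D, rfl⟩
  have hfd : FiniteDimensional ℝ (N1 X) := Module.Finite.of_surjective Φ hΦs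
  have haut : ∀ l, ∃ g : Aut X, ∀ D, g.eqv (Φ D) = Φ (actW l D) := fun l => by
    obtain ⟨g, hg⟩ := exists_aut h l
    exact ⟨g, fun D => Subtype.ext (hg D)⟩
  have hmove : ∀ D ∈ NX, ∃ g : Aut X, g.eqv (Φ D) ∈ Φ '' cone (R : Set (W ℝ)) := by
    intro D hD
    obtain ⟨l, hl⟩ := hcov D hD
    obtain ⟨g, hg⟩ := haut l
    refine ⟨g, _, hBP ⟨nx_of_nef h hG fun ν => ?_, hl⟩, (hg D).symm⟩
    rw [← hΦ, ← hg]
    exact hnef D hD _
  have hRE : ∀ D ∈ cone (R : Set (W ℝ)), Φ D ∈ Ef X := by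
    refine fun D hD => ((isCone_cone _).preimage Φ).cone_subset (fun r hr => ?_) hD
    obtain ⟨E, rfl⟩ := mem_LW (hRL hr)
    refine ((isCone_cone _).preimage Φ).cone_subset ?_ (c2 E (hPN (subset_cone _ hr)))
    rintro _ ⟨E', hE', rfl⟩
    obtain ⟨C, hC, e⟩ := h.eff E' hE'
    exact subset_cone _ ⟨C, hC, Subtype.ext (psi_cls e).symm⟩
  have hNE : ∀ D ∈ NX, Φ D ∈ NEf X := by
    intro D hD
    refine ⟨by rintro _ ⟨ν, rfl⟩; exact hnef D hD ν, ?_⟩
    obtain ⟨g, E, hE, e⟩ := hmove D hD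
    have h1 := gEf g.inv (hRE E hE)
    rw [e] at h1
    have h2 : g.inv.eqv (g.eqv (Φ D)) = Φ D := g.eqv.symm_apply_apply _
    rwa [h2] at h1
  refine ⟨cone_of_concl (looijenga (Cv := Set.range Curve.lin) (P := Φ '' cone (R : Set (W ℝ)))
    ((isCone_dual _).inter (isCone_cone _)) cvint (fun c hc x hx => hx.1 c hc)
    (fun x hx => Subtype.ext (funext fun ν => hx _ ⟨ν, rfl⟩)) gL gC ?_
    ⟨R.image Φ, ?_, by rw [Finset.coe_image, cone_image]⟩ ?_ ?_), ?_, Psi Z (cH, 0, 0), hmem _, ?_⟩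
  · rw [eq_top_iff, ← LinearMap.range_eq_top.2 hΦs, ← Submodule.map_top, ← c3, Submodule.map_span]
    refine Submodule.span_mono ?_
    rintro _ ⟨D, hD, rfl⟩
    exact hNE D hD.1
  · rw [Finset.coe_image]
    rintro _ ⟨r, hr, rfl⟩
    obtain ⟨E, rfl⟩ := mem_LW (hRL hr)
    obtain ⟨C, hC⟩ := h.cart E
    exact AddSubgroup.subset_closure ⟨C, Subtype.ext (psi_cls hC).symm⟩
  · rintro _ ⟨D, hD, rfl⟩
    exact hNE D (hPN hD)
  · intro x hx
    obtain ⟨D, rfl⟩ := hΦs x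
    obtain ⟨g, hg⟩ := hmove D (nx_of_nef h hG fun ν => hx.1 _ ⟨ν, rfl⟩)
    exact ⟨_, ⟨g, rfl⟩, hg⟩
  · rw [← (LinearEquiv.ofBijective Φ ⟨hΦi, hΦs⟩).finrank_eq, finrank_W]
  · refine (hinf.image hinj.injOn).mono ?_
    rintro _ ⟨_, ⟨l, rfl⟩, rfl⟩
    obtain ⟨g, hg⟩ := exists_aut h l
    exact ⟨g, hg _⟩

end Pool.Agent.MP_20d318_ag.BV
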