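import Mathlib.Algebra.Lie.OfAssociative
import Mathlib.Algebra.MvPolynomial.Funext
import Mathlib.RingTheory.KrullDimension.Polynomial
import Pool.Agent.MP_20d318_ag.BV.Poly2
import Pool.Agent.MP_20d318_ag.BV.Mw

-- ======== part 0: formerly Pool.Agent.MP_20d318_ag.BV.LatA
section MrgPart0

/-! PROJECT BV, row LATA: the negative curves are prime. -/

set_option autoImplicit false

namespace Pool.Agent.MP_20d318_ag.BV

namespace LatA

theorem ip_comm (a b : Lam ℤ) : ip a b = ip b a := by simp only [ip, mul_comm]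

theorem ip_add (a b c : Lam ℤ) : ip (a + b) c = ip a c + ip b c := by
  simp only [ip, Prod.fst_add, Prod.snd_add, Pi.add_apply, add_mul, Finset.sum_add_distrib]
  ring

theorem ip_smul (n : ℤ) (a c : Lam ℤ) : ip (n • a) c = n * ip a c := by
  simp only [ip, Prod.smul_fst, Prod.smul_snd, Pi.smul_apply, smul_eq_mul, mul_sub,
    Finset.mul_sum, mul_assoc]

theorem ip_zero (c : Lam ℤ) : ip 0 c = 0 := by simp [ip]

theorem ip_neg (a c : Lam ℤ) : ip (-a) c = -ip a c := by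
  rw [← neg_one_smul ℤ a, ip_smul, neg_one_mul]

theorem ip_add' (a b c : Lam ℤ) : ip c (a + b) = ip c a + ip c b := by
  rw [ip_comm, ip_add, ip_comm a, ip_comm b]

theorem ip_smul' (n : ℤ) (a c : Lam ℤ) : ip c (n • a) = n * ip c a := by
  rw [ip_comm, ip_smul, ip_comm]

theorem ip_neg' (a c : Lam ℤ) : ip c (-a) = -ip c a := by rw [ip_comm, ip_neg, ip_comm]

theorem ip_E (c : Lam ℤ) (q : Q) : ip c (cE q) = c.2 q := by
  simp [ip, cE, Pi.single_apply]

theorem ip_F (c : Lam ℤ) : ip c cF = 3 * c.1 - ∑ i, c.2 (some i) := by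
  simp [ip, cF, Fintype.sum_option, mul_comm]

theorem FF : ip (cF : Lam ℤ) cF = 0 := by
  rw [ip_F]
  simp [cF]

theorem eF : ip (cE none : Lam ℤ) cF = 0 := by
  rw [ip_comm, ip_E]
  rfl

theorem R_eq : (cR : Lam ℤ) = cF + (-2 : ℤ) • cE none := by
  refine Prod.ext (by simp [cR, cF, cE]) (funext fun q => ?_)
  cases q <;> simp [cR, cF, cE]

theorem RF : ip (cR : Lam ℤ) cF = 0 := by rw [R_eq, ip_add, ip_smul, FF, eF]; rfl

/-- The numerical conditions of the Riemann-Roch property. -/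
theorem num {c : Lam ℤ} (h1 : ip c c = -1) (h2 : ip c cF - c.2 none = 1) :
    ∑ q, c.2 q * (c.2 q + 1) = c.1 ^ 2 + 3 * c.1 := by
  rw [ip_F] at h2
  simp only [ip] at h1
  simp only [mul_add, mul_one, Finset.sum_add_distrib]
  rw [Fintype.sum_option (fun q => c.2 q)]
  linear_combination -h1 - h2

theorem deg_nonneg {s : Lam ℤ} (hs : s ∈ SS) : 0 ≤ s.1 := by
  obtain ⟨h0, h1, h2⟩ := hs
  have h3 := num h1 (by rw [h2, h0]; rfl)
  have h4 : 0 ≤ ∑ q, s.2 q * (s.2 q + 1) := Finset.sum_nonneg fun q _ => by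
    rcases le_or_gt 0 (s.2 q) with h | h
    · positivity
    · exact mul_nonneg_of_nonpos_of_nonpos h.le (by omega)
  have h5 : 0 ≤ ∑ i : Fin 9, (3 * s.2 (some i) - s.1) ^ 2 :=
    Finset.sum_nonneg fun i _ => sq_nonneg _
  have h6 : ∑ i : Fin 9, (3 * s.2 (some i) - s.1) ^ 2 =
      9 * ∑ i, s.2 (some i) * s.2 (some i) - 6 * s.1 * ∑ i, s.2 (some i) + 9 * s.1 ^ 2 := by
    simp only [Fin.sum_univ_succ, Fin.sum_univ_zero]
    ring
  rw [ip_F] at h2
  simp only [ip, Fintype.sum_option, h0] at h1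
  have h7 : 0 ≤ 6 * s.1 + 9 := by
    rw [h6] at h5
    have e : 6 * s.1 + 9 = 9 * ∑ i, s.2 (some i) * s.2 (some i) -
        6 * s.1 * ∑ i, s.2 (some i) + 9 * s.1 ^ 2 := by
      linear_combination 9 * h1 - 6 * s.1 * h2
    rwa [e]
  by_contra h
  have : s.1 = -1 := by omega
  rw [h3, this] at h4
  omega

variable {P : Set (Lam ℤ)}

/-- A sum of primes: a horizontal part and a vertical part. -/
def Dec (P : Set (Lam ℤ)) (c : Lam ℤ) : Prop := ∃ (l : List (Lam ℤ)) (N k : ℤ), 0 ≤ N ∧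
  0 ≤ k + 2 * N ∧ (∀ x ∈ l, x ∈ P ∧ 1 ≤ ip x cF) ∧ c = l.sum + N • cF + k • cE none

theorem dec (h : PA P) {c : Lam ℤ} (hc : c ∈ AddSubmonoid.closure P) : Dec P c := by
  induction hc using AddSubmonoid.closure_induction with
  | mem c hc =>
    by_cases h0 : ip c cF = 0
    · rcases h.vert c hc h0 with rfl | rfl | rfl
      · exact ⟨[], 1, 0, by omega, by omega, by simp, by simp⟩
      · exact ⟨[], 1, -2, by omega, by omega, by simp, by rw [R_eq]; simp⟩
      · exact ⟨[], 0, 1, by omega, by omega, by simp, by simp⟩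
    · have := h.pos c hc cF h.memF fun e => h0 (e ▸ FF)
      exact ⟨[c], 0, 0, le_rfl, le_rfl, by simpa using ⟨hc, by omega⟩, by simp⟩
  | zero => exact ⟨[], 0, 0, le_rfl, le_rfl, by simp, by simp⟩
  | add a b _ _ ha hb =>
    obtain ⟨l, N, k, h1, h2, h3, rfl⟩ := ha
    obtain ⟨l', N', k', h1', h2', h3', rfl⟩ := hb
    refine ⟨l ++ l', N + N', k + k', by omega, by omega, fun x hx => ?_, ?_⟩
    · exact (List.mem_append.1 hx).elim (h3 x) (h3' x)
    · rw [List.sum_append, add_smul, add_smul]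
      abel

theorem sum_nonneg {l : List (Lam ℤ)} (h : ∀ x ∈ l, x ∈ P ∧ 1 ≤ ip x cF) : 0 ≤ ip l.sum cF := by
  induction l with
  | nil => rw [List.sum_nil, ip_zero]
  | cons x l ih =>
    have h1 := (h x List.mem_cons_self).2
    have h2 := ih fun y hy => h y (List.mem_cons_of_mem _ hy)
    rw [List.sum_cons, ip_add]
    omega

/-- A horizontal prime meets the two components of the reducible fibre nonnegatively. -/
theorem hor (h : PA P) {x : Lam ℤ} (hx : x ∈ P) (h1 : 1 ≤ ip x cF) :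
    0 ≤ x.2 none ∧ 2 * x.2 none ≤ ip x cF := by
  have h2 := h.pos x hx _ (h.memE none) fun e => by rw [e, eF] at h1; omega
  have h3 := h.pos x hx _ h.memR fun e => by rw [e, RF] at h1; omega
  rw [R_eq, ip_add', ip_smul', ip_E] at h3
  rw [ip_E] at h2
  omega

theorem ip_dec (x : Lam ℤ) (N k : ℤ) (s : Lam ℤ) :
    ip (x + N • cF + k • cE none) s = ip x s + N * ip s cF + k * s.2 none := by
  rw [ip_add, ip_add, ip_smul, ip_smul, ip_comm cF, ip_comm (cE none), ip_E]

theorem none_dec (x : Lam ℤ) (N k : ℤ) : (x + N • cF + k • cE none).2 none = x.2 none - k := by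
  simp [cF, cE, sub_eq_add_neg]

theorem rr (h : PA P) {c : Lam ℤ} (h0 : 0 ≤ c.1) (h1 : ip c c = -1)
    (h2 : ip c cF - c.2 none = 1) : Dec P c :=
  dec h (h.rr c h0 (by rw [num h1 h2]; nlinarith))

/-- A section that is disjoint from a prime section is prime. -/
theorem step (h : PA P) {s s' : Lam ℤ} (hs : s ∈ SS) (hs' : s' ∈ SS) (hP : s' ∈ P)
    (h0 : ip s s' = 0) : s ∈ P := by
  obtain ⟨l, N, k, h1, -, h3, e⟩ := rr h (deg_nonneg hs) hs.2.1 (by rw [hs.2.2, hs.1]; rfl)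
  have eF := congrArg (ip · cF) e
  simp only [ip_dec, FF, hs.2.2] at eF
  have eF' : ip l.sum cF = 1 := by
    have : (cF : Lam ℤ).2 none = 0 := rfl
    rw [this] at eF
    omega
  match l, h3, e, eF' with
  | [], _, _, eF' => rw [List.sum_nil, ip_zero] at eF'; omega
  | x :: y :: l, h3, _, eF' =>
    have a1 := (h3 x (by simp)).2
    have a2 := (h3 y (by simp)).2
    have a3 := sum_nonneg (l := l) fun z hz => h3 z (by simp [hz])
    rw [List.sum_cons, List.sum_cons, ip_add, ip_add] at eF'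
    omega
  | [x], h3, e, eF' =>
    rw [List.sum_singleton] at e eF'
    obtain ⟨hx, a1⟩ := h3 x (by simp)
    have a2 := hor h hx a1
    have a3 := congrArg (fun c => c.2 none) e
    simp only [none_dec, hs.1] at a3
    have a4 := congrArg (ip · s') e
    simp only [ip_dec, h0, hs'.1, hs'.2.2] at a4
    obtain rfl : k = 0 := by omega
    by_cases hxs : x = s'
    · have a5 := congrArg (ip · s) e
      simp only [ip_dec, hs.1, hs.2.2, hs.2.1] at a5
      rw [hxs, hs'.2.1] at a4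
      rw [hxs, ip_comm, h0] at a5
      omega
    · have a5 := h.pos x hx s' hP hxs
      obtain rfl : N = 0 := by omega
      rw [e]
      simpa using hx

/-- The roots orthogonal to the fibre. -/
def Rt : Set (Lam ℤ) := {r | r.2 none = 0 ∧ ip r cF = 0 ∧ ip r r = -2}

/-- Translation by `v` preserves prime sections. -/
def Tr (P : Set (Lam ℤ)) (v : Lam ℤ) : Prop := v.2 none = 0 ∧ ip v cF = 0 ∧ Even (ip v v) ∧
  ∀ s ∈ SS, s ∈ P → ∀ c : ℤ, s + v + c • cF ∈ SS → s + v + c • cF ∈ P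

theorem shift {s v : Lam ℤ} (hs : s ∈ SS) (h0 : v.2 none = 0) (h1 : ip v cF = 0) (c : ℤ) :
    s + v + c • cF ∈ SS ↔ ip v v + 2 * ip s v + 2 * c = 0 := by
  have e0 : (s + v + c • cF).2 none = 0 := by simp [cF, hs.1, h0]
  have e1 : ip (s + v + c • cF) cF = 1 := by
    rw [ip_add, ip_add, ip_smul, FF, h1, hs.2.2]
    ring
  have e2 : ip (s + v + c • cF) (s + v + c • cF) = -1 + (ip v v + 2 * ip s v + 2 * c) := by
    simp only [ip_add, ip_add', ip_smul, ip_smul', ip_comm cF s, ip_comm cF v, ip_comm v s, FF, h1,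
      hs.2.2, hs.2.1]
    ring
  refine ⟨fun h => ?_, fun h => ⟨e0, by rw [e2, h]; rfl, e1⟩⟩
  have := h.2.1
  rw [e2] at this
  omega

theorem tr (h : PA P) {v : Lam ℤ} (hv : v ∈ AddSubmonoid.closure Rt) : Tr P v := by
  induction hv using AddSubmonoid.closure_induction with
  | mem r hr =>
    refine ⟨hr.1, hr.2.1, by rw [hr.2.2]; decide, fun s hs hP c hc => step h hc hs hP ?_⟩
    have := (shift hs hr.1 hr.2.1 c).1 hc
    rw [hr.2.2] at this
    rw [ip_add, ip_add, ip_smul, ip_comm cF, ip_comm r, hs.2.1, hs.2.2]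
    omega
  | zero =>
    refine ⟨rfl, ip_zero _, by rw [ip_zero]; decide, fun s hs hP c hc => ?_⟩
    have := (shift hs rfl (ip_zero _) c).1 hc
    rw [ip_zero, ip_comm, ip_zero] at this
    obtain rfl : c = 0 := by omega
    simpa using hP
  | add v w _ _ hv hw =>
    obtain ⟨v0, v1, ⟨a, v2⟩, v3⟩ := hv
    obtain ⟨w0, w1, ⟨b, w2⟩, w3⟩ := hw
    refine ⟨by simp [v0, w0], by rw [ip_add, v1, w1]; rfl, ⟨a + b + ip v w, ?_⟩,
      fun s hs hP c hc => ?_⟩
    · rw [ip_add, ip_add', ip_add', ip_comm w v, v2, w2]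
      ring
    · have h1 := (shift hs v0 v1 (-a - ip s v)).2 (by rw [v2]; ring)
      have e : s + (v + w) + c • cF =
          s + v + (-a - ip s v) • cF + w + (c - (-a - ip s v)) • cF := by
        rw [sub_smul c]
        abel
      rw [e] at hc ⊢
      exact w3 _ h1 (v3 s hs hP _ h1) _ hc

theorem zsmul_mem {r : Lam ℤ} (hr : r ∈ Rt) (n : ℤ) : n • r ∈ AddSubmonoid.closure Rt := by
  have hn : -r ∈ Rt := ⟨by simp [hr.1], by rw [ip_neg, hr.2.1]; rfl, by
    rw [ip_neg, ip_neg', neg_neg, hr.2.2]⟩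
  obtain ⟨m, rfl | rfl⟩ := n.eq_nat_or_neg
  · rw [natCast_zsmul]
    exact nsmul_mem (AddSubmonoid.subset_closure hr) m
  · rw [neg_smul, ← smul_neg, natCast_zsmul]
    exact nsmul_mem (AddSubmonoid.subset_closure hn) m

/-- The root `H - e 0 - e 1 - e 2`. -/
def r0 : Lam ℤ := (1, fun q => q.elim 0 fun i => if i.1 < 3 then 1 else 0)

theorem r0_mem : r0 ∈ Rt := ⟨rfl, by decide, by decide⟩

theorem diff_mem : ∀ i : Fin 9, i ≠ 8 → (cE (some i) + -cE (some 8) : Lam ℤ) ∈ Rt := by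
  intro i hi
  have hF : ∀ j : Fin 9, ip (cE (some j) : Lam ℤ) cF = 1 := fun j => by rw [ip_comm, ip_E]; rfl
  refine ⟨by simp [cE], by rw [ip_add, ip_neg, hF, hF]; rfl, ?_⟩
  simp only [ip_add', ip_neg', ip_E]
  simp [cE, hi, hi.symm]

theorem span {v : Lam ℤ} (h0 : v.2 none = 0) (h1 : ip v cF = 0) :
    v ∈ AddSubmonoid.closure Rt := by
  have e : v = v.1 • r0 + ∑ i : Fin 9, (v.1 * r0.2 (some i) - v.2 (some i)) •
      (cE (some i) + -cE (some 8) : Lam ℤ) := by
    rw [ip_F] at h1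
    have h2 : ∑ i : Fin 9, (v.1 * r0.2 (some i) - v.2 (some i)) = 0 := by
      rw [Finset.sum_sub_distrib, ← Finset.mul_sum,
        show ∑ i : Fin 9, r0.2 (some i) = 3 by decide]
      omega
    simp only [smul_add, Finset.sum_add_distrib]
    rw [← Finset.sum_smul, h2, zero_smul, add_zero]
    refine Prod.ext ?_ (funext fun q => ?_)
    · simp [r0, cE, Prod.fst_sum]
    · cases q with
      | none => simp [r0, cE, Prod.snd_sum, h0]
      | some j => simp [cE, Prod.snd_sum, Pi.single_apply]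
  rw [e]
  refine add_mem (zsmul_mem r0_mem _) (sum_mem fun i _ => ?_)
  by_cases hi : i = 8
  · rw [hi, add_neg_cancel, smul_zero]
    exact zero_mem _
  · exact zsmul_mem (diff_mem i hi) _

theorem sec (h : PA P) {s : Lam ℤ} (hs : s ∈ SS) : s ∈ P := by
  have h8 : (cE (some 8) : Lam ℤ) ∈ SS := ⟨by decide, by decide, by decide⟩
  have h1 := (tr h (span (v := s + -cE (some 8)) (by simp [hs.1, cE]) (by
    rw [ip_add, ip_neg, hs.2.2, h8.2.2]; rfl))).2.2.2 _ h8 (h.memE _) 0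
  have e : cE (some 8) + (s + -cE (some 8)) + (0 : ℤ) • cF = s := by
    rw [zero_smul]
    abel
  rw [e] at h1
  exact h1 hs

theorem bis (h : PA P) {c : Lam ℤ} (hc : c ∈ BB) : c ∈ P := by
  obtain ⟨s, hs, s', hs', h1, hc⟩ := hc
  have hc' : c = s + s' + (0 : ℤ) • cF + (-1 : ℤ) • cE none := by
    rw [hc, zero_smul, neg_one_smul, add_zero, sub_eq_add_neg]
  have c0 : c.2 none = 1 := by
    rw [hc', none_dec, Prod.snd_add, Pi.add_apply, hs.1, hs'.1]
    rfl
  have cs : ip c s = 0 := by rw [hc', ip_dec, ip_add, hs.2.1, ip_comm s', h1, hs.1]; ring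
  have cs' : ip c s' = 0 := by rw [hc', ip_dec, ip_add, hs'.2.1, h1, hs'.1]; ring
  have F0 : (cF : Lam ℤ).2 none = 0 := rfl
  have cF2 : ip c cF = 2 := by rw [hc', ip_dec, ip_add, hs.2.2, hs'.2.2, FF, F0]; rfl
  have cc : ip c c = -1 := by
    nth_rw 1 [hc']
    rw [ip_dec, ip_add, ip_comm s, ip_comm s', cs, cs', c0, cF2]
    rfl
  have c1 : 0 ≤ c.1 := by
    have := add_nonneg (deg_nonneg hs) (deg_nonneg hs')
    rw [hc]
    simpa [cE] using this
  obtain ⟨l, N, k, n1, n2, h3, e⟩ := rr h c1 cc (by rw [cF2, c0]; rfl)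
  have eF := congrArg (ip · cF) e
  simp only [ip_dec, FF, cF2, F0] at eF
  have e0 := congrArg (fun c => c.2 none) e
  simp only [none_dec, c0] at e0
  have es := congrArg (ip · s) e
  simp only [ip_dec, cs, hs.1, hs.2.2] at es
  have key : ∀ x y : Lam ℤ, ∀ t ∈ SS, ∀ t' ∈ SS, y ∈ P → 1 ≤ N → x = t →
      t + t' = x + y + N • cF → False := fun x y t _ t' ht' hy hN hx e => by
    have e1 : t' = y + N • cF := by
      rw [hx, add_assoc] at e
      exact add_left_cancel e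
    have e2 := congrArg (ip · t') e1
    simp only [ip_add, ip_smul, ip_comm cF, ht'.2.1, ht'.2.2] at e2
    by_cases hy' : y = t'
    · rw [hy', ht'.2.1] at e2
      omega
    · have := h.pos y hy t' (sec h ht') hy'
      omega
  match l, h3, e, eF, e0, es with
  | [], _, _, eF, _, _ => rw [List.sum_nil, ip_zero] at eF; omega
  | x :: y :: z :: l, h3, _, eF, _, _ =>
    have a1 := (h3 x (by simp)).2
    have a2 := (h3 y (by simp)).2
    have a3 := (h3 z (by simp)).2
    have a4 := sum_nonneg (l := l) fun w hw => h3 w (by simp [hw])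
    rw [List.sum_cons, List.sum_cons, List.sum_cons, ip_add, ip_add, ip_add] at eF
    omega
  | [x], h3, e, eF, e0, es =>
    rw [List.sum_singleton] at e eF e0 es
    obtain ⟨hx, a1⟩ := h3 x (by simp)
    have a2 := hor h hx a1
    have a3 := h.pos x hx s (sec h hs) fun e => by rw [e, hs.2.2] at eF; omega
    obtain rfl : N = 0 := by omega
    obtain rfl : k = 0 := by omega
    rw [e]
    simpa using hx
  | [x, y], h3, e, eF, e0, es =>
    rw [List.sum_pair] at e eF e0 es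
    obtain ⟨hx, a1⟩ := h3 x (by simp)
    obtain ⟨hy, a2⟩ := h3 y (by simp)
    have a3 := hor h hx a1
    have a4 := hor h hy a2
    rw [ip_add] at eF es
    rw [Prod.snd_add, Pi.add_apply] at e0
    obtain rfl : k = -1 := by omega
    have e1 : s + s' = x + y + N • cF := by
      rw [hc', zero_smul, add_zero] at e
      exact add_right_cancel e
    exfalso
    by_cases hxs : x = s
    · exact key x y s hs s' hs' hy (by omega) hxs e1
    by_cases hys : y = s
    · exact key y x s hs s' hs' hx (by omega) hys (by rw [e1, add_comm x])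
    have a5 := h.pos x hx s (sec h hs) hxs
    have a6 := h.pos y hy s (sec h hs) hys
    omega

end LatA

theorem latA_stmt : LatAStmt := by
  rintro P h c ((hc | hc) | rfl | rfl)
  · exact LatA.sec h hc
  · exact LatA.bis h hc
  · exact h.memE none
  · exact h.memR

end Pool.Agent.MP_20d318_ag.BV

end MrgPart0

-- ======== part 1: formerly Pool.Agent.MP_20d318_ag.BV.LatC
section MrgPart1

/-! LATC: the nef criterion, effectivity, spanning. -/

set_option autoImplicit false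

namespace Pool.Agent.MP_20d318_ag.BV

open Pool.Agent.MP_20d318_ag.Lat

namespace LatC

theorem ip_toR (c c' : Lam ℤ) : ip (toR c) (toR c') = ((ip c c' : ℤ) : ℝ) := by
  simp [ip, toR]

/-- the form as a linear map in the second variable -/
def ipL (L : Lam ℝ) : Lam ℝ →ₗ[ℝ] ℝ where
  toFun Z := ip L Z
  map_add' x y := by simp [ip, mul_add, Finset.sum_add_distrib]; ring
  map_smul' c x := by simp [ip, Finset.mul_sum, mul_add, mul_sub, mul_left_comm]

theorem ip_add {R : Type} [CommRing R] (L L' Z : Lam R) : ip (L + L') Z = ip L Z + ip L' Z := by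
  simp [ip, add_mul, Finset.sum_add_distrib]; ring

theorem ip_sub {R : Type} [CommRing R] (L L' Z : Lam R) : ip (L - L') Z = ip L Z - ip L' Z := by
  simp [ip, sub_mul, Finset.sum_sub_distrib]; ring

theorem ip_smul {R : Type} [CommRing R] (c : R) (L Z : Lam R) : ip (c • L) Z = c * ip L Z := by
  simp [ip, Finset.mul_sum, mul_add, mul_sub, mul_assoc]

theorem ip_neg {R : Type} [CommRing R] (L Z : Lam R) : ip (-L) Z = -ip L Z := by
  simp [ip]; ring

theorem toR_cC (i : Fin 2) : toR (cC i) = cC i := by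
  fin_cases i <;> (ext q <;> simp [toR, cC, cF, cR]) <;> cases q <;> simp

theorem toR_nsmul (n : ℕ) (c : Lam ℤ) : toR (n • c) = (n : ℝ) • toR c := by
  ext q <;> simp [toR]

theorem toR_zero : toR 0 = 0 := by
  ext q <;> simp [toR]

variable {P : Set (Lam ℤ)}

theorem nef (hP : PA P) (hG : GEN ⊆ P) (hD : LatDStmt) {L : Lam ℝ} (hL : L ∈ NT) {c : Lam ℤ}
    (hc : c ∈ P) : 0 ≤ ip L (toR c) := by
  by_cases h : c ∈ GEN
  · exact hL c h
  have h1 : toR c ∈ NT := fun c' hc' => by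
    rw [ip_toR]
    exact_mod_cast hP.pos c hc c' (hG hc') fun e => h (e ▸ hc')
  exact (isCone_half (ipL L)).cone_subset (R := toR '' GEN)
    (by rintro _ ⟨c', hc', rfl⟩; exact hL c' hc') (hD c h1)

theorem part1 (hP : PA P) (hG : GEN ⊆ P) (hD : LatDStmt) (D : W ℝ) (hX : D ∈ NX) (Z : W ℤ)
    (hZ : Cur P Z) : 0 ≤ ipW D (toRW Z) := by
  obtain ⟨L, τ, b⟩ := D
  obtain ⟨z, t, a⟩ := Z
  obtain ⟨hb, hτ, hL, hj⟩ := hX
  obtain ⟨h1, h2, h3⟩ := hZ
  dsimp only at hb hτ hL hj h1 h2 h3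
  have key : ∀ L' ∈ NT, 0 ≤ ip L' (toR z) := by
    intro L' hL'
    rcases h1 with rfl | ⟨c, hc, n, rfl⟩
    · simp [toR_zero, ip]
    · rw [toR_nsmul]
      exact (map_smul (ipL L') _ _).ge.trans' (mul_nonneg n.cast_nonneg (nef hP hG hD hL' hc))
  have k0 := key L hL
  have kj : ∀ j, b 0 j * ((ip (cC 0) z : ℤ) : ℝ) + b 1 j * ((ip (cC 1) z : ℤ) : ℝ) ≤
      ip L (toR z) := fun j => by
    have := key _ (hj j)
    rw [Fin.sum_univ_two, ip_sub, ip_add, ip_smul, ip_smul, ← toR_cC, ← toR_cC, ip_toR,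
      ip_toR] at this
    linarith
  have ht : (0 : ℝ) ≤ t := by exact_mod_cast h2
  change 0 ≤ ip L (toR z) + τ * (t : ℝ) - ∑ i, ∑ j, b i j * (a i j : ℝ)
  rcases h3 with ⟨j, h4, h5⟩ | ⟨i, -, h5⟩ | ⟨i, j, -, h4, h5, h6⟩ | ⟨h4, h5, h6⟩
  · have := kj j
    simp only [h4, h5, Int.cast_ite, Int.cast_zero, mul_ite, mul_zero, Finset.sum_ite_eq',
      Finset.mem_univ, if_true, Fin.sum_univ_two]
    linarith
  · have e : ∑ i', ∑ j, b i' j * (a i' j : ℝ) = (∑ j, b i j) * t := by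
      rw [Finset.sum_eq_single i (fun i' _ h => by simp [h5, h]) (by simp), Finset.sum_mul]
      simp [h5]
    rw [e]
    nlinarith [hτ i]
  · have e : ∑ i', ∑ j', b i' j' * (a i' j' : ℝ) = b i j * a i j := by
      rw [Finset.sum_eq_single i (fun i' _ h => by simp [h6 i' _ fun x => h x.1]) (by simp),
        Finset.sum_eq_single j (fun j' _ h => by simp [h6 i j' fun x => h x.2]) (by simp)]
    have h5' : (a i j : ℝ) ≤ 0 := by exact_mod_cast h5
    rw [e, h4, Int.cast_zero]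
    nlinarith [hb i j]
  · obtain ⟨j0, -, hj0⟩ := Finset.exists_max_image Finset.univ (b 1) Finset.univ_nonempty
    have h4' : ∀ i j, (0 : ℝ) ≤ a i j := fun i j => by exact_mod_cast h4 i j
    have h5' : ∀ i, ∑ j, (a i j : ℝ) ≤ ((ip (cC i) z : ℤ) : ℝ) := fun i => by exact_mod_cast h5 i
    have h6' : ∀ j, (a 0 j : ℝ) ≤ t := fun j => by
      have : ∑ i, (a i j : ℝ) ≤ t := by exact_mod_cast h6 j
      rw [Fin.sum_univ_two] at this
      linarith [h4' 1 j]
    have e1 : ∑ j, b 1 j * (a 1 j : ℝ) ≤ b 1 j0 * ((ip (cC 1) z : ℤ) : ℝ) := by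
      refine le_trans ?_ (mul_le_mul_of_nonneg_left (h5' 1) (hb 1 j0))
      rw [Finset.mul_sum]
      exact Finset.sum_le_sum fun j hj => mul_le_mul_of_nonneg_right (hj0 j hj) (h4' 1 j)
    have e0 : ∑ j, b 0 j * (a 0 j : ℝ) ≤ τ * t := by
      refine le_trans ?_ (mul_le_mul_of_nonneg_right (hτ 0) ht)
      rw [Finset.sum_mul]
      exact Finset.sum_le_sum fun j _ => mul_le_mul_of_nonneg_left (h6' j) (hb 0 j)
    have e2 : 0 ≤ b 0 j0 * ((ip (cC 0) z : ℤ) : ℝ) :=
      mul_nonneg (hb 0 j0) ((Finset.sum_nonneg fun j _ => h4' 0 j).trans (h5' 0))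
    rw [Fin.sum_univ_two]
    linarith [kj j0]

/-- an exceptional class -/
def eE (i : Fin 2) (j : Fin 4) : W ℝ := (0, 0, fun i' j' => if i' = i ∧ j' = j then -1 else 0)

theorem part2 (hP : PA P) (hG : GEN ⊆ P) (hD : LatDStmt) (D : W ℤ) (hX : toRW D ∈ NX) :
    toRW D ∈ cone (toRW '' EG P) := by
  obtain ⟨L, τ, b⟩ := D
  obtain ⟨hb, hτ, -, hj⟩ := hX
  change ∀ i j, (0 : ℝ) ≤ b i j at hb
  change ∀ i, ∑ j, (b i j : ℝ) ≤ τ at hτ
  change ∀ j, toR L - ∑ i, (b i j : ℝ) • cC i ∈ NT at hj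
  obtain ⟨j0, -, hj0⟩ := Finset.exists_max_image Finset.univ (fun j => (b 1 j : ℝ))
    Finset.univ_nonempty
  have hC := isCone_cone (toRW '' EG P)
  have mem : ∀ (x : W ℤ) (y : W ℝ), x ∈ EG P → toRW x = y → y ∈ cone (toRW '' EG P) :=
    fun x y hx e => subset_cone _ ⟨x, hx, e⟩
  have mc : ∀ c ∈ P, ((toR c, 0, 0) : W ℝ) ∈ cone (toRW '' EG P) := fun c hc =>
    mem (c, 0, 0) _ (Or.inl ⟨c, hc, rfl⟩) (by ext <;> simp [toRW])
  have m1 : ((toR L - ∑ i, (b i j0 : ℝ) • cC i, 0, 0) : W ℝ) ∈ cone (toRW '' EG P) := by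
    have e : toR (L - ∑ i, b i j0 • cC i) = toR L - ∑ i, (b i j0 : ℝ) • cC i := by
      simp only [← toR_cC, Fin.sum_univ_two]
      ext q <;> simp [toR]
    have h1 := hD _ (e ▸ hj j0)
    rw [e] at h1
    exact (hC.preimage (LinearMap.inl ℝ _ _)).cone_subset (R := toR '' GEN)
      (by rintro _ ⟨c, hc, rfl⟩; exact mc c (hG hc)) h1
  have m2 : ((cC 1, 0, fun i' _ => if i' = 1 then 1 else 0) : W ℝ) ∈ cone (toRW '' EG P) :=
    mem _ _ (Or.inr (Or.inr (Or.inr (Or.inl ⟨1, rfl⟩)))) (by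
      simp only [toRW, toR_cC]; ext <;> simp)
  have m3 : ∀ i j, eE i j ∈ cone (toRW '' EG P) := fun i j =>
    mem _ _ (Or.inr (Or.inr (Or.inl ⟨i, j, rfl⟩))) (by
      simp only [toRW, toR_zero, eE]; ext <;> simp)
  have m4 : ((cC 0, 0, 0) : W ℝ) ∈ cone (toRW '' EG P) := by
    rw [← toR_cC]
    exact mc _ hP.memF
  have m5 : ∀ j : Fin 4, ((0, 1, fun _ j' => if j' = j then 1 else 0) : W ℝ) ∈
      cone (toRW '' EG P) := fun j =>
    mem _ _ (Or.inr (Or.inr (Or.inr (Or.inr ⟨j, rfl⟩)))) (by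
      simp only [toRW, toR_zero]; ext <;> simp)
  have m6 : ((0, 1, 0) : W ℝ) ∈ cone (toRW '' EG P) :=
    mem _ _ (Or.inr (Or.inl rfl)) (by simp only [toRW, toR_zero]; ext <;> simp)
  have := hC.add _ (hC.add _ (hC.add _ (hC.add _ (hC.add _ (hC.add _ m1
    _ (hC.smul _ (hb 1 j0) _ m2))
    _ (hC.sum_mem Finset.univ _ fun j hj => hC.smul _ (sub_nonneg.2 (hj0 j hj)) _ (m3 1 j)))
    _ (hC.smul _ (hb 0 j0) _ m4))
    _ (hC.sum_mem Finset.univ _ fun j _ => hC.smul _ (hb 0 j) _ (m5 j)))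
    _ (hC.sum_mem Finset.univ _ fun j _ => hC.smul _ (hb 0 j) _ (m3 1 j)))
    _ (hC.smul _ (sub_nonneg.2 (hτ 0)) _ m6)
  refine (congrArg (· ∈ cone (toRW '' EG P)) ?_).mp this
  refine Prod.ext ?_ (Prod.ext ?_ ?_)
  · simp only [toRW, eE, Fin.sum_univ_two, Fin.sum_univ_four, Prod.fst_add, Prod.smul_fst,
      smul_zero, add_zero]
    abel
  · simp [toRW, eE, Fin.sum_univ_four]
  · ext i j
    fin_cases i <;> fin_cases j <;> simp [toRW, eE, Fin.sum_univ_four]

theorem mk_mem (hG : GEN ⊆ P) {L : Lam ℤ} (h : ∀ c ∈ P, 0 ≤ ip L c) : toR L ∈ NT :=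
  fun c hc => by
    rw [ip_toR]
    exact_mod_cast h c (hG hc)

theorem zero_NT : (0 : Lam ℝ) ∈ NT := fun c _ => by simp [ip]

theorem part3 (hP : PA P) (hG : GEN ⊆ P) : Submodule.span ℝ (NX ∩ Set.range toRW) = ⊤ := by
  set S := Submodule.span ℝ (NX ∩ Set.range toRW)
  have mem : ∀ (x : W ℤ), toRW x ∈ NX → toRW x ∈ S := fun x hx =>
    Submodule.subset_span ⟨hx, x, rfl⟩
  have mL : ∀ L : Lam ℤ, toR L ∈ NT → ((toR L, 0, 0) : W ℝ) ∈ S := fun L hL => by
    have e : toRW (L, 0, 0) = (toR L, 0, 0) := by ext <;> simp [toRW]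
    rw [← e]
    refine mem _ ?_
    rw [e]
    exact ⟨by simp, by simp, hL, by simpa using hL⟩
  have nH : toR cH ∈ NT := mk_mem hG fun c hc => by simpa [ip, cH] using hP.nefH c hc
  have ih : ∀ q (c : Lam ℤ), ip (ch q) c = c.1 - c.2 q := fun q c => by
    simp [ip, ch, Pi.single_apply]
  have nh : ∀ q, toR (ch q) ∈ NT := fun q => mk_mem hG fun c hc => by
    rw [ih]; exact sub_nonneg.2 (hP.nefh c hc q)
  have nF : toR cF ∈ NT := mk_mem hG fun c hc => by
    by_cases e : cF = c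
    · rw [← e]; decide
    · exact hP.pos _ hP.memF c hc e
  have nR : toR (cR + (2 : ℤ) • ch (some 0)) ∈ NT := mk_mem hG fun c hc => by
    by_cases e : cR = c
    · rw [← e]; decide
    · rw [ip_add, ip_smul, ih]
      have := hP.pos _ hP.memR c hc e
      have := hP.nefh c hc (some 0)
      omega
  have n2 : toR ((2 : ℤ) • ch (some 0)) ∈ NT := mk_mem hG fun c hc => by
    rw [ip_smul, ih]
    have := hP.nefh c hc (some 0)
    omega
  have mf : ((0, 1, 0) : W ℝ) ∈ S := by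
    have e : toRW (0, 1, 0) = (0, 1, 0) := by simp only [toRW, toR_zero]; ext <;> simp
    rw [← e]
    refine mem _ ?_
    rw [e]
    exact ⟨by simp, by simp, zero_NT, by simpa using zero_NT⟩
  have mg : ∀ (L : Lam ℤ) (i j), toR L ∈ NT → toR L - cC i ∈ NT → eE i j ∈ S := by
    intro L i j h1 h2
    have e : toRW (L, 1, fun i' j' => if i' = i ∧ j' = j then 1 else 0) =
        (toR L, 1, fun i' j' => if i' = i ∧ j' = j then 1 else 0) := by
      simp only [toRW]; ext <;> simp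
    have h3 : ((toR L, 1, fun i' j' => if i' = i ∧ j' = j then 1 else 0) : W ℝ) ∈ S := by
      rw [← e]
      refine mem _ ?_
      rw [e]
      refine ⟨fun i' j' => ?_, fun i' => ?_, h1, fun j' => ?_⟩
      · dsimp only
        split_ifs <;> norm_num
      · by_cases h : i' = i <;> simp [h]
      · by_cases h : j' = j
        · simpa [h, ite_smul] using h2
        · simpa [h] using h1
    have h4 := S.sub_mem (S.add_mem (mL L h1) mf) h3
    refine (congrArg (· ∈ S) ?_).mp h4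
    simp only [eE]
    ext
    · simp
    · simp
    · simp
    · simp only [Prod.mk_add_mk, Prod.mk_sub_mk, Pi.sub_apply, Pi.add_apply, Pi.zero_apply]
      split_ifs <;> norm_num
  have mE : ∀ i j, eE i j ∈ S := by
    intro i j
    fin_cases i
    · refine mg cF 0 j nF ?_
      rw [← toR_cC]
      exact (sub_self (toR cF)).symm ▸ zero_NT
    · refine mg _ 1 j nR ?_
      have : toR (cR + (2 : ℤ) • ch (some 0)) - cC 1 = toR ((2 : ℤ) • ch (some 0)) := by
        rw [← toR_cC]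
        ext q <;> simp [toR, cC]
      rw [this]
      exact n2
  rw [eq_top_iff]
  rintro ⟨⟨d, m⟩, τ, b⟩ -
  have := S.add_mem (S.add_mem (S.add_mem (S.smul_mem d (mL _ nH))
    (S.sum_mem (t := Finset.univ) fun q _ =>
      S.smul_mem (m q) (S.sub_mem (mL _ (nh q)) (mL _ nH)))) (S.smul_mem τ mf))
    (S.sum_mem (t := Finset.univ) fun i _ => S.sum_mem (t := Finset.univ) fun j _ =>
      S.smul_mem (-b i j) (mE i j))
  refine (congrArg (· ∈ S) ?_).mp this
  refine Prod.ext (Prod.ext ?_ ?_) (Prod.ext ?_ ?_)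
  · simp [Prod.fst_sum, eE, toR, cH, ch]
  · ext q
    cases q <;>
      simp [Prod.fst_sum, Prod.snd_sum, eE, toR, cH, ch, Finset.sum_apply, Pi.single_apply]
  · simp [Prod.fst_sum, Prod.snd_sum, eE]
  · ext i j
    fin_cases i <;> simp [Prod.snd_sum, eE, Finset.sum_apply, ite_and]

theorem part4 (D : W ℝ) (h : D ∈ NX) (h' : -D ∈ NX) : D = 0 := by
  obtain ⟨L, τ, b⟩ := D
  obtain ⟨hb, hτ, hL, -⟩ := h
  obtain ⟨hb', hτ', hL', -⟩ := h'
  have b0 : b = 0 := by
    ext i j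
    exact le_antisymm (by simpa using hb' i j) (hb i j)
  subst b0
  have t0 : τ = 0 := le_antisymm (by simpa using hτ' 0) (by simpa using hτ 0)
  subst t0
  have key : ∀ c ∈ GEN, ip L (toR c) = 0 := fun c hc => by
    have h1 := hL c hc
    have h2 := hL' c hc
    change 0 ≤ ip (-L) _ at h2
    rw [ip_neg] at h2
    exact le_antisymm (by linarith) h1
  have hq : ∀ q, L.2 q = 0 := fun q => by
    have : cE q ∈ GEN := by
      cases q with
      | none => exact Or.inr (Or.inl rfl)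
      | some i => exact Or.inl (Or.inl (by revert i; simp only [SS, Set.mem_ofPred_eq]; decide))
    simpa [ip, toR, cE, Pi.single_apply] using key _ this
  have hd : L.1 = 0 := by simpa [ip, toR, cR, hq] using key cR (Or.inr (Or.inr rfl))
  exact Prod.ext (Prod.ext hd (funext hq)) rfl

end LatC

theorem latC_stmt : LatCStmt := fun _ hP hG hD =>
  ⟨LatC.part1 hP hG hD, LatC.part2 hP hG hD, LatC.part3 hP hG, LatC.part4⟩

end Pool.Agent.MP_20d318_ag.BV

end MrgPart1

-- ======== part 2: formerly Pool.Agent.MP_20d318_ag.BV.Proj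
section MrgPart2

/-! The degrees of the projections of a plane curve. -/

set_option autoImplicit false

namespace Pool.Agent.MP_20d318_ag.BV

open Pool.Agent.MP_79c67d_ag Pool.Agent.MP_20d318_ag.AG MvPolynomial
open scoped IntermediateField

namespace Proj

variable {k L : Type} [Field k] [IsAlgClosed k] [Field L] [Algebra k L] {u v : L}
  {p : MvPolynomial (Fin 2) k}

theorem ker (hp : Irreducible p) (h0 : aeval ![u, v] p = 0)
    (ht : Transcendental k u ∨ Transcendental k v) {g : MvPolynomial (Fin 2) k}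
    (hg : aeval ![u, v] g = 0) : p ∣ g := by
  by_contra hn
  let I : Ideal (MvPolynomial (Fin 2) k) := RingHom.ker (aeval (R := k) ![u, v])
  have hI : I.IsPrime := RingHom.ker_isPrime _
  have hP : (Ideal.span {p}).IsPrime := (Ideal.span_singleton_prime hp.ne_zero).2 hp.prime
  have hmax : ¬ I.IsMaximal := fun hm => by
    obtain ⟨c, hc⟩ := isMaximal_iff_eq_vanishingIdeal_singleton.1 hm
    have h1 : ∀ i, aeval ![u, v] (X i - C (c i) : MvPolynomial (Fin 2) k) = 0 := fun i => by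
      have : (X i - C (c i) : MvPolynomial (Fin 2) k) ∈ I := by
        rw [hc, mem_vanishingIdeal_singleton_iff]; simp
      exact this
    have h2 := h1 0
    have h3 := h1 1
    simp only [map_sub, aeval_X, aeval_C, sub_eq_zero] at h2 h3
    rcases ht with h | h
    · exact h ((show u = _ from h2) ▸ isAlgebraic_algebraMap _)
    · exact h ((show v = _ from h3) ▸ isAlgebraic_algebraMap _)
  obtain ⟨J, hJ, hIJ⟩ := I.exists_le_maximal hI.ne_top
  have s1 : (⊥ : Ideal (MvPolynomial (Fin 2) k)) < Ideal.span {p} :=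
    bot_lt_iff_ne_bot.2 (by simpa using hp.ne_zero)
  have s2 : Ideal.span {p} < I := lt_of_le_of_ne ((Ideal.span_singleton_le_iff_mem _).2 h0)
    fun e => hn (Ideal.mem_span_singleton.1 (e ▸ (hg : g ∈ I)))
  have s3 : I < J := lt_of_le_of_ne hIJ fun e => hmax (e ▸ hJ)
  let c : LTSeries (PrimeSpectrum (MvPolynomial (Fin 2) k)) := LTSeries.mk 3
    ![⟨⊥, Ideal.isPrime_bot⟩, ⟨_, hP⟩, ⟨I, hI⟩, ⟨J, hJ.isPrime⟩]
    (Fin.strictMono_iff_lt_succ.2 fun i => by fin_cases i; exacts [s1, s2, s3])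
  have h3 : ((3 : ℕ) : WithBot ℕ∞) ≤ ringKrullDim (MvPolynomial (Fin 2) k) :=
    Order.LTSeries.length_le_krullDim c
  rw [MvPolynomial.ringKrullDim_of_isNoetherianRing, ringKrullDim_eq_zero_of_field] at h3
  simp at h3
  exact absurd h3 (by decide)

omit [IsAlgClosed k] in
/-- The degree of the second coordinate over the field of the slope. -/
theorem core {s r : L} (hs : Transcendental k s) {α β : k} {m : ℕ} (ho : IsOrd p α β m)
    (hp : p ≠ 0) (a : Fin 2 → k⟮s⟯)
    (ha : a = ![IntermediateField.AdjoinSimple.gen k s, 1] ∨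
      a = ![1, IntermediateField.AdjoinSimple.gen k s])
    (hu : u = algebraMap k L α + a 0 * r) (hv : v = algebraMap k L β + a 1 * r) (hr : r ≠ 0)
    (h0 : aeval ![u, v] p = 0) (hk : ∀ g, aeval ![u, v] g = 0 → p ∣ g) :
    IsIntegral k⟮s⟯ r ∧ (minpoly k⟮s⟯ r).natDegree + m = p.totalDegree := by
  let ψ : MvPolynomial (Fin 2) k →ₐ[k] Polynomial k⟮s⟯ :=
    aeval ![algebraMap k _ α + Polynomial.X * Polynomial.C (a 0),
      algebraMap k _ β + Polynomial.X * Polynomial.C (a 1)]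
  have hev : ∀ g, Polynomial.aeval r (ψ g) = aeval ![u, v] g := fun g => by
    have : ((Polynomial.aeval r).restrictScalars k).comp ψ = aeval ![u, v] := by
      have e : ∀ (c : k) (b : k⟮s⟯), Polynomial.aeval r (algebraMap k (Polynomial k⟮s⟯) c +
          Polynomial.X * Polynomial.C b) = algebraMap k L c + b * r := fun c b => by
        rw [map_add, map_mul, Polynomial.aeval_X, Polynomial.aeval_C, mul_comm]
        exact congrArg (· + _) (((Polynomial.aeval r).restrictScalars k).commutes c)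
      refine MvPolynomial.algHom_ext (Fin.forall_fin_two.2 ⟨?_, ?_⟩)
      · rw [AlgHom.comp_apply, aeval_X, aeval_X]; exact (e _ _).trans hu.symm
      · rw [AlgHom.comp_apply, aeval_X, aeval_X]; exact (e _ _).trans hv.symm
    exact DFunLike.congr_fun this g
  have hne : ∀ {n : ℕ} {q : MvPolynomial (Fin 2) k}, q.IsHomogeneous n → q ≠ 0 → aeval a q ≠ 0 :=
    fun {n q} hq hq0 h => by
      have ht := (transcendental_iff.1 (FF.isRat_adjoin hs).trans)
      have e : ∀ b : Fin 2 → Polynomial k, (fun i => Polynomial.aeval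
          (IntermediateField.AdjoinSimple.gen k s) (b i)) = a → aeval b q = 0 := fun b hb =>
        ht _ (by rw [← AlgHom.comp_apply, comp_aeval, hb, h])
      rcases ha with ha | ha
      · exact (dehom_ne hq hq0).1 (e _ (by rw [ha]; ext i : 1; fin_cases i <;> simp))
      · exact (dehom_ne hq hq0).2 (e _ (by rw [ha]; ext i : 1; fin_cases i <;> simp))
  have hψ : ψ p = ∑ j ∈ Finset.range (p.totalDegree + 1),
      Polynomial.monomial j (aeval a (tay p α β j)) := by
    refine (aeval_tay p α β _ _).trans (Finset.sum_congr rfl fun j _ => ?_)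
    have e : (![algebraMap k _ α + Polynomial.X * Polynomial.C (a 0) - algebraMap k _ α,
        algebraMap k _ β + Polynomial.X * Polynomial.C (a 1) - algebraMap k _ β] :
        Fin 2 → Polynomial k⟮s⟯) = (Polynomial.X : Polynomial k⟮s⟯) •
          fun i => (Polynomial.CAlgHom : k⟮s⟯ →ₐ[k] Polynomial k⟮s⟯) (a i) := by
      ext i : 1
      fin_cases i <;> simp
    rw [e, aeval_smul (tay_hom p α β j), ← comp_aeval, AlgHom.comp_apply, mul_comm,
      ← Polynomial.C_mul_X_pow_eq_monomial]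
    rfl
  have hco : ∀ j, (ψ p).coeff j = aeval a (tay p α β j) := fun j => by
    rw [hψ, Polynomial.finsetSum_coeff]
    simp only [Polynomial.coeff_monomial, Finset.sum_ite_eq', Finset.mem_range]
    split_ifs with h
    · rfl
    · rw [tay_of_lt (by omega), map_zero]
  have hdeg : (ψ p).natDegree = p.totalDegree := Polynomial.natDegree_eq_of_le_of_coeff_ne_zero
    (Polynomial.natDegree_le_iff_coeff_eq_zero.2 fun j hj => by rw [hco, tay_of_lt hj, map_zero])
    (by rw [hco]; exact hne (tay_hom _ _ _ _) (tay_top hp α β))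
  obtain ⟨h, hh⟩ : Polynomial.X ^ m ∣ ψ p :=
    Polynomial.X_pow_dvd_iff.2 fun j hj => by rw [hco, ho.1 j hj, map_zero]
  have hc0 : h.coeff 0 ≠ 0 := by
    rw [← Polynomial.coeff_X_pow_mul h m 0, zero_add, ← hh, hco]
    exact hne (tay_hom _ _ _ _) ho.2
  have hh0 : h ≠ 0 := fun e => hc0 (by simp [e])
  have hr0 : Polynomial.aeval r h = 0 := by
    have := hev p
    rw [h0, hh, map_mul, map_pow, Polynomial.aeval_X] at this
    exact (mul_eq_zero.1 this).resolve_left (pow_ne_zero _ hr)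
  have hint : IsIntegral k⟮s⟯ r := (IsAlgebraic.isIntegral ⟨h, hh0, hr0⟩)
  let W : Subalgebra k (Polynomial k⟮s⟯) :=
    { carrier := {g | ∃ N : ℕ, Polynomial.X ^ N * g ∈ ψ.range}
      mul_mem' := fun {f g} ⟨N, hN⟩ ⟨N', hN'⟩ => ⟨N + N', by
        convert ψ.range.mul_mem hN hN' using 1; ring⟩
      add_mem' := fun {f g} ⟨N, hN⟩ ⟨N', hN'⟩ => ⟨N + N', by
        have hX : (Polynomial.X : Polynomial k⟮s⟯) ∈ ψ.range := by
          rcases ha with ha | ha
          · exact ⟨X 1 - C β, by simp [ψ, ha]⟩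
          · exact ⟨X 0 - C α, by simp [ψ, ha]⟩
        convert ψ.range.add_mem (ψ.range.mul_mem (ψ.range.pow_mem hX N') hN)
          (ψ.range.mul_mem (ψ.range.pow_mem hX N) hN') using 1
        ring⟩
      algebraMap_mem' := fun c => ⟨0, by simpa using ψ.range.algebraMap_mem c⟩ }
  have hX : (Polynomial.X : Polynomial k⟮s⟯) ∈ W := ⟨0, by
    rcases ha with ha | ha
    · exact ⟨X 1 - C β, by simp [ψ, ha]⟩
    · exact ⟨X 0 - C α, by simp [ψ, ha]⟩⟩
  have hS : Polynomial.C (IntermediateField.AdjoinSimple.gen k s) ∈ W := ⟨1, by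
    rcases ha with ha | ha
    · exact ⟨X 0 - C α, by simp [ψ, ha]⟩
    · exact ⟨X 1 - C β, by simp [ψ, ha]⟩⟩
  have hW : ∀ q : Polynomial k,
      Polynomial.C (Polynomial.aeval (IntermediateField.AdjoinSimple.gen k s) q) ∈ W := fun q => by
    have := Polynomial.aeval_algHom_apply (Polynomial.CAlgHom : k⟮s⟯ →ₐ[k] Polynomial k⟮s⟯)
      (IntermediateField.AdjoinSimple.gen k s) q
    exact (show _ = Polynomial.C _ from this) ▸ 
      (Algebra.adjoin_le (S := W) (Set.singleton_subset_iff.2 hS)) (Polynomial.aeval_mem_adjoin_singleton k _)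
  have hQ : ∀ g : Polynomial k⟮s⟯, ∃ c : k⟮s⟯, c ≠ 0 ∧ Polynomial.C c ∈ W ∧
      Polynomial.C c * g ∈ W := fun g => by
    induction g using Polynomial.induction_on' with
    | add f g hf hg =>
      obtain ⟨c, h1, h2, h3⟩ := hf
      obtain ⟨c', h4, h5, h6⟩ := hg
      refine ⟨c * c', mul_ne_zero h1 h4, by rw [map_mul]; exact W.mul_mem h2 h5, ?_⟩
      convert W.add_mem (W.mul_mem h5 h3) (W.mul_mem h2 h6) using 1
      rw [map_mul]; ring
    | monomial n b =>
      obtain ⟨q1, q2, h1, rfl⟩ := (FF.isRat_adjoin hs).gen b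
      have h2 := (FF.isRat_adjoin hs).aeval_ne_zero h1
      refine ⟨_, h2, hW q2, ?_⟩
      rw [← Polynomial.C_mul_X_pow_eq_monomial, ← mul_assoc, ← map_mul, mul_div_cancel₀ _ h2]
      exact W.mul_mem (hW q1) (W.pow_mem hX n)
  obtain ⟨c, hc, -, N, G, hG⟩ := hQ (minpoly k⟮s⟯ r)
  have hG' : ψ G = Polynomial.X ^ N * (Polynomial.C c * minpoly k⟮s⟯ r) := hG
  have h1 : p ∣ G := hk G (by rw [← hev, hG']; simp)
  have h2 : h ∣ Polynomial.X ^ N * (Polynomial.C c * minpoly k⟮s⟯ r) :=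
    hG' ▸ (Dvd.intro_left _ hh.symm).trans (map_dvd ψ h1)
  have h3 : IsCoprime h (Polynomial.X ^ N) := by
    refine IsCoprime.pow_right (IsCoprime.symm ?_)
    exact (Polynomial.irreducible_X.coprime_iff_not_dvd).2 fun e => hc0 (Polynomial.X_dvd_iff.1 e)
  have h4 : h ∣ minpoly k⟮s⟯ r :=
    (IsUnit.dvd_mul_left (Polynomial.isUnit_C.2 hc.isUnit)).1 (h3.dvd_of_dvd_mul_left h2)
  have h5 := Polynomial.natDegree_le_of_dvd h4 (minpoly.ne_zero hint)
  have h6 := Polynomial.natDegree_le_of_dvd (minpoly.dvd _ _ hr0) hh0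
  have h7 := hdeg
  rw [hh, Polynomial.natDegree_mul (pow_ne_zero _ Polynomial.X_ne_zero) hh0,
    Polynomial.natDegree_X_pow] at h7
  exact ⟨hint, by omega⟩

variable [CharZero k] [IsFF k L]

theorem slope (hp : Irreducible p) (h0 : aeval ![u, v] p = 0)
    (ht : Transcendental k u ∨ Transcendental k v) {s r : L} {α β : k} {m : ℕ}
    (ho : IsOrd p α β m) (hr : r ≠ 0)
    (h : (u = algebraMap k L α + s * r ∧ v = algebraMap k L β + r) ∨
      (u = algebraMap k L α + r ∧ v = algebraMap k L β + s * r)) :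
    pdeg k s = Module.finrank k⟮u, v⟯ L * ((p.totalDegree : ℤ) - m) := by
  have hk : ∀ g, aeval ![u, v] g = 0 → p ∣ g := fun g => ker hp h0 ht
  by_cases hs : Transcendental k s
  · obtain ⟨h1, h2⟩ : IsIntegral k⟮s⟯ r ∧ (minpoly k⟮s⟯ r).natDegree + m = p.totalDegree := by
      rcases h with h | h
      · exact core hs ho hp.ne_zero _ (Or.inl rfl) h.1 (by simpa using h.2) hr h0 hk
      · exact core hs ho hp.ne_zero _ (Or.inr rfl) (by simpa using h.1) h.2 hr h0 hk
    have e : k⟮s⟯⟮r⟯.restrictScalars k = k⟮u, v⟯ := by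
      rw [IntermediateField.adjoin_simple_adjoin_simple]
      have a1 : s ∈ k⟮s, r⟯ := IntermediateField.subset_adjoin _ _ (by simp)
      have a2 : r ∈ k⟮s, r⟯ := IntermediateField.subset_adjoin _ _ (by simp)
      have a3 : u - algebraMap k L α ∈ k⟮u, v⟯ :=
        sub_mem (IntermediateField.subset_adjoin _ _ (by simp)) (algebraMap_mem _ _)
      have a4 : v - algebraMap k L β ∈ k⟮u, v⟯ :=
        sub_mem (IntermediateField.subset_adjoin _ _ (by simp)) (algebraMap_mem _ _)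
      refine le_antisymm (IntermediateField.adjoin_le_iff.2 ?_) (IntermediateField.adjoin_le_iff.2 ?_)
      · rcases h with ⟨h3, h4⟩ | ⟨h3, h4⟩
        · rw [sub_eq_of_eq_add' h3] at a3
          rw [sub_eq_of_eq_add' h4] at a4
          rintro _ (rfl | rfl)
          exacts [by simpa [hr] using div_mem a3 a4, a4]
        · rw [sub_eq_of_eq_add' h3] at a3
          rw [sub_eq_of_eq_add' h4] at a4
          rintro _ (rfl | rfl)
          exacts [by simpa [hr] using div_mem a4 a3, a3]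
      · rcases h with ⟨rfl, rfl⟩ | ⟨rfl, rfl⟩
        · rintro _ (rfl | rfl)
          exacts [add_mem (algebraMap_mem _ _) (mul_mem a1 a2), add_mem (algebraMap_mem _ _) a2]
        · rintro _ (rfl | rfl)
          exacts [add_mem (algebraMap_mem _ _) a2, add_mem (algebraMap_mem _ _) (mul_mem a1 a2)]
    rw [pdeg_eq hs, ← Module.finrank_mul_finrank k⟮s⟯ k⟮s⟯⟮r⟯ L,
      IntermediateField.adjoin.finrank h1, ← e, ← h2]
    push_cast
    rw [add_sub_cancel_right, mul_comm]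
    rfl
  · obtain ⟨c, rfl⟩ : ∃ c, algebraMap k L c = s :=
      minpoly.mem_range_of_degree_eq_one k s (IsAlgClosed.degree_eq_one_of_irreducible k
        (minpoly.irreducible (not_not.1 hs).isIntegral))
    rw [pdeg_const]
    obtain ⟨g, h1, h2, h3, h4⟩ : ∃ g : MvPolynomial (Fin 2) k, g ≠ 0 ∧ g.totalDegree ≤ 1 ∧
        eval ![α, β] g = 0 ∧ aeval ![u, v] g = 0 := by
      have t : ∀ (i : Fin 2) (b : k), (X i - C b : MvPolynomial (Fin 2) k).totalDegree ≤ 1 :=
        fun i b => (totalDegree_sub _ _).trans (by simp)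
      have t' : ∀ (i j : Fin 2) (b b' : k),
          (X i - C b - C c * (X j - C b') : MvPolynomial (Fin 2) k).totalDegree ≤ 1 :=
        fun i j b b' => (totalDegree_sub _ _).trans (max_le (t i b)
          ((totalDegree_mul _ _).trans (by simpa using t j b')))
      rcases h with ⟨h3, h4⟩ | ⟨h3, h4⟩
      · exact ⟨_, fun e => by simpa using congrArg (eval ![α + 1, β]) e, t' 0 1 α β, by simp,
          by simp [h3, h4]⟩
      · exact ⟨_, fun e => by simpa using congrArg (eval ![α, β + 1]) e, t' 1 0 β α, by simp,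
          by simp [h3, h4]⟩
    obtain ⟨q, rfl⟩ := hk g h4
    have h5 := totalDegree_mul_of_isDomain hp.ne_zero (right_ne_zero_of_mul h1)
    have h6 : p.totalDegree ≠ 0 := fun e => hp.not_isUnit (by
      rw [totalDegree_eq_zero_iff_eq_C.1 e]
      refine (IsUnit.mk0 _ fun e' => hp.ne_zero ?_).map C
      rw [totalDegree_eq_zero_iff_eq_C.1 e, e', map_zero])
    have h7 : m ≤ p.totalDegree := le_of_not_gt fun e => ho.2 (tay_of_lt e)
    have h8 : m ≠ 0 := by
      rintro rfl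
      rw [totalDegree_eq_zero_iff_eq_C.1 (show q.totalDegree = 0 by omega), map_mul, eval_C] at h3
      refine right_ne_zero_of_mul h1 ?_
      rw [totalDegree_eq_zero_iff_eq_C.1 (show q.totalDegree = 0 by omega),
        (mul_eq_zero.1 h3).resolve_left (isOrd_zero.1 ho), map_zero]
    rw [show m = p.totalDegree by omega, sub_self, mul_zero]

omit [IsAlgClosed k] [CharZero k] [IsFF k L] in
theorem pole_sub (P : Place k L) (u : L) (c : k) :
    max 0 (-P.ord (u - algebraMap k L c)) = max 0 (-P.ord u) := by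
  by_cases h : P.v u ≤ 1
  · have h1 := FF.ord_nonneg h
    have h2 := FF.ord_nonneg ((P.v.map_sub u _).trans (max_le h (P.triv c)))
    omega
  · rw [Place.ord, Place.ord, P.v.map_sub_eq_of_lt_left ((P.triv c).trans_lt (not_le.1 h))]

omit [CharZero k] [IsFF k L] in
theorem exists_off (hp : p ≠ 0) (u v : L) :
    ∃ α β : k, eval ![α, β] p ≠ 0 ∧ u ≠ algebraMap k L α ∧ v ≠ algebraMap k L β := by
  have e : ∀ z : L, ∃ a : k, ∀ b, b ≠ a → z ≠ algebraMap k L b := fun z => by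
    by_cases h : ∃ a, z = algebraMap k L a
    · obtain ⟨a, rfl⟩ := h
      exact ⟨a, fun b hb h => hb ((algebraMap k L).injective h).symm⟩
    · exact ⟨0, fun b _ h' => h ⟨b, h'⟩⟩
  obtain ⟨a, ha⟩ := e u
  obtain ⟨b, hb⟩ := e v
  have h1 : p * ((X 0 - C a) * (X 1 - C b)) ≠ 0 := mul_ne_zero hp (mul_ne_zero
    (fun e => by simpa using congrArg (eval ![a + 1, 0]) e)
    fun e => by simpa using congrArg (eval ![0, b + 1]) e)
  obtain ⟨z, hz⟩ : ∃ z, eval z (p * ((X 0 - C a) * (X 1 - C b))) ≠ 0 :=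
    not_forall.1 fun h => h1 (MvPolynomial.funext fun z => by rw [h, map_zero])
  simp only [map_mul, map_sub, eval_X, eval_C, mul_ne_zero_iff, sub_ne_zero] at hz
  refine ⟨z 0, z 1, ?_, ha _ hz.2.1, hb _ hz.2.2⟩
  convert hz.1
  ext i
  fin_cases i <;> rfl

end Proj

open Proj in
theorem proj_stmt : ProjStmt := by
  intro k L _ _ _ _ _ _ u v p hp h0 ht
  have key : ∀ (α β : k) (m : ℕ), IsOrd p α β m →
      (v ≠ algebraMap k L β → pdeg k ((u - algebraMap k L α) / (v - algebraMap k L β)) =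
        Module.finrank k⟮u, v⟯ L * ((p.totalDegree : ℤ) - m)) ∧
      (u ≠ algebraMap k L α → pdeg k ((v - algebraMap k L β) / (u - algebraMap k L α)) =
        Module.finrank k⟮u, v⟯ L * ((p.totalDegree : ℤ) - m)) := fun α β m ho =>
    ⟨fun h => slope hp h0 ht ho (sub_ne_zero.2 h)
      (Or.inl ⟨by rw [div_mul_cancel₀ _ (sub_ne_zero.2 h)]; ring, by ring⟩),
    fun h => slope hp h0 ht ho (sub_ne_zero.2 h)
      (Or.inr ⟨by ring, by rw [div_mul_cancel₀ _ (sub_ne_zero.2 h)]; ring⟩)⟩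
  have hfin : FiniteDimensional k⟮u, v⟯ L := by
    obtain ⟨z, h1, h2⟩ : ∃ z, Transcendental k z ∧ k⟮z⟯ ≤ k⟮u, v⟯ := ht.elim
      (fun h => ⟨u, h, IntermediateField.adjoin.mono _ _ _ (by simp)⟩)
      fun h => ⟨v, h, IntermediateField.adjoin.mono _ _ _ (by simp)⟩
    have := finDim_adjoin h1
    exact (inferInstance : FiniteDimensional (IntermediateField.extendScalars h2) L)
  refine ⟨_, Module.finrank_pos, ?_, key⟩
  obtain ⟨α, β, h1, h2, h3⟩ := exists_off hp.ne_zero u v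
  have h4 := (key α β 0 (isOrd_zero.2 h1)).1 h3
  have h5 := sub_ne_zero.2 h2
  have h6 := sub_ne_zero.2 h3
  rw [Nat.cast_zero, sub_zero] at h4
  rw [← h4, ← sub_zero (pdeg k _), ← FF.finsum_ord (K := k) h6, pdeg, pdeg2, ← finsum_sub_distrib
    ((FF.finite_ord (K := k) ((u - algebraMap k L α) / (v - algebraMap k L β))).subset
      fun P hP h => hP (by simp only at h; simp [h]))
    (FF.finite_ord _)]
  refine finsum_congr fun P => ?_
  have h7 := pole_sub P u α
  have h8 := pole_sub P v β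
  have h9 : ¬ (0 < P.ord (u - algebraMap k L α) ∧ 0 < P.ord (v - algebraMap k L β)) := fun h => by
    have := aeval_sub_const (plO_isVal P).isLocalRing (r := ![u, v]) (c := ![α, β])
      (Fin.forall_fin_two.2 ⟨(mx_plO h5).2 h.1, (mx_plO h6).2 h.2⟩) p
    rw [h0, zero_sub, ← map_neg, const_mem_mx, neg_eq_zero] at this
    exact h1 this
  rw [P.ord_div h5 h6]
  omega

end Pool.Agent.MP_20d318_ag.BV

end MrgPart2

-- ======== part 3: formerly Pool.Agent.MP_20d318_ag.BV.Sig2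
section MrgPart3

/-! The action of the involution on the degrees of curves. -/

set_option autoImplicit false

namespace Pool.Agent.MP_20d318_ag.BV

open Pool.Agent.MP_79c67d_ag Pool.Agent.MP_20d318_ag.AG MvPolynomial

namespace Sig2

variable {k M : Type} [Field k] [Field M] [Algebra k M] {d : Dat k} {x y x' y' : M}
  {O : Subalgebra k M}

theorem mem_of_sub {a : M} {c : k} (h : a - algebraMap k M c ∈ mx O) : a ∈ O := by
  simpa using O.add_mem h.1 (O.algebraMap_mem c)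

theorem isU_of_sub (hO : IsLocalRing O) {a : M} {c : k} (h : a - algebraMap k M c ∈ mx O)
    (hc : c ≠ 0) : IsU O a := by
  simpa using (isU_const hc).add_mx hO h

theorem pol_mx (hO : IsLocalRing O) (P : MvPolynomial (Fin 3) k) {U V X Y : M} {α β : k} {q : Q}
    (hU : U - algebraMap k M α ∈ mx O) (hV : V - algebraMap k M β ∈ mx O)
    (hX : X - algebraMap k M (d.a q) ∈ mx O) (hY : Y - algebraMap k M (d.b q) ∈ mx O) :
    pol P ![U, V, 0] ![X, Y, 1] - algebraMap k M (α * aeval (d.pt k q) (pderiv 0 P) +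
      β * aeval (d.pt k q) (pderiv 1 P)) ∈ mx O := by
  have h : ∀ p : MvPolynomial (Fin 3) k,
      aeval ![X, Y, 1] p - algebraMap k M (aeval (d.pt k q) p) ∈ mx O := fun p =>
    aeval_sub_const hO (c := d.pt k q) (fun i => by
      fin_cases i
      · exact hX
      · exact hY
      · simpa [Dat.pt] using zero_mem_mx) p
  have := mx_add hO (mx_add hO (mx_mul_right hU (mem_of_sub (h (pderiv 0 P))))
    (mx_mul_left (O.algebraMap_mem α) (h (pderiv 0 P))))
    (mx_add hO (mx_mul_right hV (mem_of_sub (h (pderiv 1 P))))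
    (mx_mul_left (O.algebraMap_mem β) (h (pderiv 1 P))))
  convert this using 1
  simp only [pol_eq, map_add, map_mul, Matrix.cons_val_zero, Matrix.cons_val_one,
    Matrix.cons_val]
  ring

theorem ip_E (q : Q) (Z : Lam ℤ) : ip (cE q) Z = Z.2 q := by
  simp [ip, cE, Pi.single_apply]

theorem ip_h (q : Q) (Z : Lam ℤ) : ip (ch q) Z = Z.1 - Z.2 q := by
  simp [ip, ch, Pi.single_apply]

theorem ip_F (Z : Lam ℤ) : ip cF Z = 3 * Z.1 - ∑ j, Z.2 (some j) := by
  simp [ip, cF, Fintype.sum_option]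

theorem ip_sub (c c' Z : Lam ℤ) : ip (c - c') Z = ip c Z - ip c' Z := by
  simp only [ip, Prod.fst_sub, Prod.snd_sub, Pi.sub_apply, sub_mul, Finset.sum_sub_distrib]
  ring

theorem ip_comm (c Z : Lam ℤ) : ip c Z = ip Z c := by
  simp only [ip, mul_comm]

/-- The linear algebra. -/
theorem solve {i : Fin 9} {Z Z' : Lam ℤ} (ha : ip (ch (some i)) Z' = ip (ch (some i)) Z)
    (hb : ip cF Z' = ip cF Z) (hc : Z'.2 none = Z.2 none)
    (hd : ∀ j, j ≠ i → Z'.2 (some j) = ip (ch (some i) - cE (some j)) Z) : Z' = sig i Z := by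
  simp only [ip_sub, ip_h, ip_E] at ha hd
  have h1 := ip_F Z
  have h2 := ip_F Z'
  rw [← Finset.add_sum_erase _ _ (Finset.mem_univ i)] at h1 h2
  rw [Finset.sum_congr rfl fun j hj => hd j (Finset.ne_of_mem_erase hj), Finset.sum_sub_distrib,
    Finset.sum_const, Finset.card_erase_of_mem (Finset.mem_univ i)] at h2
  simp only [Finset.card_univ, Fintype.card_fin, nsmul_eq_mul] at h2
  unfold sig
  rw [ip_comm Z (ch _), ip_comm Z cF, ip_h]
  generalize ip cF Z = f at *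
  refine Prod.ext ?_ (funext fun q => ?_)
  · simp [cE, cF, ch]
    omega
  · rcases q with _ | j
    · simp [cE, cF, ch]
      omega
    · by_cases h : j = i
      · subst h
        simp [cE, cF, ch]
        omega
      · simp [cE, cF, ch, h, hd j h]
        omega

variable {i : Fin 9} {u t r r' : M}

/-- The exceptional curve over `p j` is not fixed. -/
theorem not_ov (h : TAll d x y) {j : Fin 9} (hij : j ≠ i) {P : Place k M}
    (hP : plO P ∈ TT d x y) (hx : x = algebraMap k M (d.a (some i)) + u * r)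
    (hy : y = algebraMap k M (d.b (some i)) + r) (hx' : x' = algebraMap k M (d.a (some i)) + u * r')
    (hy' : y' = algebraMap k M (d.b (some i)) + r') (ht : fg d x y 0 = t * fg d x y 1)
    (h1 : (d.co d.F i u 1 2 - t * d.co d.G i u 1 2) * (r + r') =
      -(d.co d.F i u 1 1 - t * d.co d.G i u 1 1))
    (h0 : (d.co d.F i u 1 2 - t * d.co d.G i u 1 2) * (r * r') =
      d.co d.F i u 1 0 - t * d.co d.G i u 1 0) (hr : r' ≠ 0)
    (o' : Ov d x' y' (some j) (plO P)) : ¬ Ov d x y (some j) (plO P) := fun o => by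
  have hO := (plO_isVal P).isLocalRing
  set α := d.a (some j) - d.a (some i) with hα
  set β := d.b (some j) - d.b (some i) with hβ
  have hne : α ≠ 0 ∨ β ≠ 0 := by
    by_contra hn
    push Not at hn
    exact hij (Option.some.inj (h.cub.inj _ _ (sub_eq_zero.1 hn.1) (sub_eq_zero.1 hn.2)))
  have ox' : x' - algebraMap k M (d.a (some j)) ∈ mx (plO P) := o' _ (Or.inl rfl)
  have oy' : y' - algebraMap k M (d.b (some j)) ∈ mx (plO P) := o' _ (Or.inr rfl)
  have ox : x - algebraMap k M (d.a (some j)) ∈ mx (plO P) := o _ (Or.inl rfl)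
  have oy : y - algebraMap k M (d.b (some j)) ∈ mx (plO P) := o _ (Or.inr rfl)
  have hU' : u * r' - algebraMap k M α ∈ mx (plO P) := by
    convert ox' using 1
    rw [hx', hα, map_sub]; ring
  have hV' : r' - algebraMap k M β ∈ mx (plO P) := by
    convert oy' using 1
    rw [hy', hβ, map_sub]; ring
  have hρ : 1 - r / r' ∈ mx (plO P) := by
    rcases hne with h2 | h2
    · have h3 := isU_of_sub hO hU' h2
      convert mx_div (mx_sub' hO ox' ox) h3 using 1
      have := left_ne_zero_of_mul h3.1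
      rw [hx, hx']; field_simp; ring
    · convert mx_div (mx_sub' hO oy' oy) (isU_of_sub hO hV' h2) using 1
      rw [hy, hy']; field_simp; ring
  have pF := pol_mx (d := d) hO d.F hU' hV' ox' oy'
  have pG := pol_mx (d := d) hO d.G hU' hV' ox' oy'
  set φ := α * aeval (d.pt k (some j)) (pderiv 0 d.F) + β * aeval (d.pt k (some j)) (pderiv 1 d.F)
    with hφ
  set γ := α * aeval (d.pt k (some j)) (pderiv 0 d.G) + β * aeval (d.pt k (some j)) (pderiv 1 d.G)
    with hγ
  have g := h.pen.gnF _ hP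
  have T0 : fg d x y 0 * lb d x y cF (plO P) ∈ plO P := by simpa using g.1 _ (Or.inl rfl)
  have T1 : fg d x y 1 * lb d x y cF (plO P) ∈ plO P := by simpa using g.1 _ (Or.inr rfl)
  have hm : ∀ (W : MvPolynomial (Fin 3) k) m, d.co W i (u * r') r' m ∈ plO P := fun W m => by
    obtain ⟨p, hp⟩ := co_poly d W i m
    rw [hp]
    refine aeval_mem (fun l => ?_) p
    fin_cases l
    exacts [mem_of_sub hU', mem_of_sub hV']
  have e : ∀ W : MvPolynomial (Fin 3) k, W.IsHomogeneous 3 → pol W ![u * r', r', 0] ![x', y', 1] =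
      r' * (d.co W i u 1 0 + 2 * r' * d.co W i u 1 1 + 3 * r' ^ 2 * d.co W i u 1 2) ∧
      d.co W i (u * r') r' 2 = r' ^ 3 * d.co W i u 1 2 := fun W hW => by
    have h2 := pol_line' d hW i u 1 r'
    have h3 := co_smul d hW i r' u 1 2
    rw [one_mul, ← hx', ← hy'] at h2
    rw [mul_one, mul_comm r' u] at h3
    refine ⟨?_, h3⟩
    rw [← h2, pol_eq, pol_eq]
    simp only [Matrix.cons_val_zero, Matrix.cons_val_one, Matrix.cons_val]
    ring
  have key : (algebraMap k M (-γ) * fg d x y 0 + algebraMap k M φ * fg d x y 1) *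
      lb d x y cF (plO P) ∈ mx (plO P) := by
    have := mx_add hO (mx_sub' hO (mx_mul_left T0 pG) (mx_mul_left T1 pF))
      (mx_mul_left ((plO P).sub_mem ((plO P).mul_mem T1 (hm d.F 2))
        ((plO P).mul_mem T0 (hm d.G 2))) hρ)
    convert this using 1
    rw [(e _ h.cub.hF).1, (e _ h.cub.hF).2, (e _ h.cub.hG).1, (e _ h.cub.hG).2, ht, map_neg]
    field_simp
    linear_combination (fg d x y 1 * lb d x y cF (plO P) * r') * (2 * r' * h1 - h0)
  obtain ⟨Pj, p1, -, -, p2, -⟩ := h.pl.plE (some j)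
  obtain rfl := p2 P hP o
  have hc : ∀ c φ, Prm d x y c φ P → c.1 = 0 := fun c φ hc => by
    rw [h.z.uniq _ _ _ _ _ hc p1]; rfl
  by_cases h2 : γ = 0
  · have h3 : φ ≠ 0 := fun h3 => h.cub.jac j (by
      rcases hne with h4 | h4
      · apply mul_left_cancel₀ h4
        linear_combination aeval (d.pt k (some j)) (pderiv 1 d.G) * (hφ.symm.trans h3) -
          aeval (d.pt k (some j)) (pderiv 1 d.F) * (hγ.symm.trans h2)
      · apply mul_left_cancel₀ h4
        linear_combination aeval (d.pt k (some j)) (pderiv 0 d.F) * (hγ.symm.trans h2) -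
          aeval (d.pt k (some j)) (pderiv 0 d.G) * (hφ.symm.trans h3))
    rw [h2, neg_zero, map_zero, zero_mul, zero_add, h.loc.lbF _ hP, mul_assoc, ← mul_assoc (fg ..)]
      at key
    have h4 := h.pen.mem _ hP 1
    have h5 := h.loc.exm _ hP none
    rcases mx_or_of_mul h4 ((plO P).pow_mem h5 2) ((mx_or_of_mul ((plO P).algebraMap_mem φ)
      ((plO P).mul_mem h4 ((plO P).pow_mem h5 2)) key).resolve_left (isU_const h3).not_mx)
      with h6 | h6
    · obtain ⟨PR, hR⟩ := h.pl.prC 1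
      obtain rfl := hR.eq_of_mx (h.loc.cart _) hP h6
      exact absurd (hc _ _ hR) (by decide)
    · exact (h.loc.exu _ hP none fun h7 => by cases h.loc.ovu _ hO _ _ h7 o).not_mx
        (mx_of_pow h5 h6)
  · obtain ⟨PW, hW⟩ := h.pl.prW (-γ) φ (neg_ne_zero.2 h2)
    obtain rfl := hW.eq_of_mx (h.loc.cart _) hP key
    exact absurd (hc _ _ hW) (by decide)

theorem deg' (h : TLoc d x' y') {Y : Set (Subalgebra k M)} (e : TT d x' y' = Y) (ν : Curve Y)
    (c : Lam ℤ) : ν.deg (lb d x' y' c) = ip c (zz d x' y' ν) := by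
  subst e
  exact h.deg ν c

end Sig2

open Sig2 in
theorem sig2_stmt : Sig2Stmt := by
  intro k M _ _ _ _ _ d x y x' y' i h h' ⟨u, t, r, r', hx, hy, hx', hy', ht, _, _, h1, h0⟩ hS ν
  have hG : Good (TT d x y) := h.loc.nice.toGood
  have hr : r ≠ 0 := by simpa [hy] using h.gen.y_ne (d.b (some i))
  have hr' : r' ≠ 0 := by simpa [hy'] using h'.gen.y_ne (d.b (some i))
  have ca : ∀ c, IsCart (TT d x y) (lb d x' y' c) := fun c => hS.eq ▸ h'.loc.cart c
  have cm : ∀ c {φ : M}, φ ≠ 0 → IsCart (TT d x y) fun O => φ * lb d x y c O := fun c φ hφ =>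
    (isCart_const hφ).mul (h.loc.cart c)
  have cm' : ∀ c {φ : M}, φ ≠ 0 → IsCart (TT d x y) fun O => φ * lb d x' y' c O := fun c φ hφ =>
    (isCart_const hφ).mul (ca c)
  have key : ∀ c c' {φ φ' : M}, φ ≠ 0 → φ' ≠ 0 → (∀ O ∈ TT d x y,
      IsU O (φ' * lb d x' y' c' O / (φ * lb d x y c O))) →
      ip c' (zz d x' y' ν) = ip c (zz d x y ν) := fun c c' φ φ' hφ hφ' hu => by
    rw [← deg' h'.loc hS.eq, ← h.loc.deg, ← deg_cmul hG (ca c') hφ',
      ← deg_cmul hG (h.loc.cart c) hφ]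
    exact deg_congr hG (cm' c' hφ') (cm c hφ) hu ν
  have gq : ∀ O ∈ TT d x y,
      IsU O (gn (SQ d x' y' (some i)) O / (r' / r * gn (SQ d x y (some i)) O)) := fun O hO => by
    have h2 := (h.loc.gQ O hO (some i)).pair_mul (div_ne_zero hr' hr)
    have e1 : r' / r * xq d x (some i) = xq d x' (some i) := by
      rw [xq, xq, hx, hx']; field_simp; ring
    have e2 : r' / r * yq d y (some i) = yq d y' (some i) := by
      rw [yq, yq, hy, hy']; field_simp; ring
    rw [e1, e2] at h2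
    exact (h'.loc.gQ O (hS.eq ▸ hO) (some i)).unit h2
  refine solve (key _ _ hr hr' fun O hO => ?_)
    (key _ _ (h.pen.ne 0) (h'.pen.ne 0) fun O hO => hS.st O hO 0) ?_ fun j hj => ?_
  · rw [h.loc.lbh O hO, h'.loc.lbh O (hS.eq ▸ hO)]
    convert (gq O hO).inv using 1
    field_simp
  · rw [← ip_E, ← ip_E]
    refine key _ _ one_ne_zero one_ne_zero fun O hO => ?_
    rw [one_mul, one_mul, h.loc.lbE, h'.loc.lbE]
    exact hS.ex O hO
  obtain ⟨P', p1, o', -⟩ := h'.pl.plE (some j)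
  obtain ⟨P, p2⟩ := h.pl.prL i j hj.symm
  have hP' : plO P' ∈ TT d x y := hS.eq ▸ p1.2.1
  have hO := (plO_isVal P').isLocalRing
  obtain rfl : P' = P := by
    refine p2.eq_of_mx (h.loc.cart _) hP' ?_
    have hU' : u * r' - algebraMap k M (d.a (some j) - d.a (some i)) ∈ mx (plO P') := by
      convert o' _ (Or.inl rfl) using 1
      rw [xq, hx', map_sub]; ring
    have hV' : r' - algebraMap k M (d.b (some j) - d.b (some i)) ∈ mx (plO P') := by
      convert o' _ (Or.inr rfl) using 1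
      rw [yq, hy', map_sub]; ring
    have e1 : xq d x' (some i) = u * r' := by rw [xq, hx', add_sub_cancel_left]
    have e2 : yq d y' (some i) = r' := by rw [yq, hy', add_sub_cancel_left]
    have u1 : IsU (plO P') (gn (SQ d x' y' (some i)) (plO P')) := by
      refine (h'.loc.gQ _ p1.2.1 (some i)).isU ?_ ?_
      · rintro _ (rfl | rfl)
        exacts [e1 ▸ mem_of_sub hU', e2 ▸ mem_of_sub hV']
      · by_cases h2 : d.a (some j) - d.a (some i) = 0
        · exact ⟨_, Or.inr rfl, e2 ▸ isU_of_sub hO hV' fun h3 => hj (Option.some.inj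
            (h.cub.inj _ _ (sub_eq_zero.1 h2) (sub_eq_zero.1 h3)))⟩
        · exact ⟨_, Or.inl rfl, e1 ▸ isU_of_sub hO hU' h2⟩
    have u2 := h.loc.exu _ hP' _ (not_ov h hj hP' hx hy hx' hy' ht h1 h0 hr' o')
    have e3 := h.loc.lbadd _ hP' (ch (some i) - cE (some j)) (cE (some j))
    rw [sub_add_cancel, h.loc.lbh _ hP', h.loc.lbE] at e3
    have m1 := mx_sub' hO
      (mx_mul_left ((plO P').algebraMap_mem (d.b (some j) - d.b (some i))) hU')
      (mx_mul_left ((plO P').algebraMap_mem (d.a (some j) - d.a (some i))) hV')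
    convert mx_div (mx_div (mx_mul_right m1 (gq _ hP').mem) u1) u2 using 1
    have := u1.1
    have := (h.loc.gQ _ hP' (some i)).ne
    rw [(eq_div_of_mul_eq u2.1 e3.symm :)]
    simp only [Dat.lin, map_sub, map_mul, aeval_C, aeval_X, Matrix.cons_val_zero,
      Matrix.cons_val_one, hx, hy]
    field_simp
    ring
  rw [← ip_E]
  refine key _ _ p2.1 one_ne_zero fun O hO => h.loc.nice.unit_div (cm' _ one_ne_zero)
    (cm _ p2.1) hO fun P hP => ?_
  rw [p1.2.2 P (hS.eq ▸ hP), p2.2.2 P hP]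

end Pool.Agent.MP_20d318_ag.BV

end MrgPart3

-- ======== part 4: formerly Pool.Agent.MP_20d318_ag.BV.XDiv
section MrgPart4

/-! The divisors on the threefold `X`. -/

set_option autoImplicit false

namespace Pool.Agent.MP_20d318_ag.BV

open Pool.Agent.MP_79c67d_ag Pool.Agent.MP_20d318_ag.AG MvPolynomial

namespace XDivL

section loc

variable {k K I J : Type} [Field k] [Field K] [Algebra k K] [Fintype I] [Fintype J]

/-- The local equation `A ^ 2 ∏ s = ∏ t` with at most one vanishing factor on each side. -/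
structure Loc (O : Subalgebra k K) (s : I → K) (t : J → K) (A : K) : Prop where
  sne : ∀ i, s i ≠ 0
  tne : ∀ j, t j ≠ 0
  ane : A ≠ 0
  aa : A ∈ O ∨ A⁻¹ ∈ O
  eqn : A ^ 2 * ∏ i, s i = ∏ j, t j
  sm : ∀ i, s i ∈ O
  tm : ∀ j, t j ∈ O
  s1 : ∀ i i', s i ∈ mx O → s i' ∈ mx O → i = i'
  t1 : ∀ j j', t j ∈ mx O → t j' ∈ mx O → j = j'

variable {O : Subalgebra k K} {s : I → K} {t : J → K} {A : K}

theorem Loc.symm (h : Loc O s t A) : Loc O t s A⁻¹ where
  sne := h.tne
  tne := h.sne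
  ane := inv_ne_zero h.ane
  aa := by rw [inv_inv]; exact h.aa.symm
  eqn := by rw [← h.eqn, inv_pow, inv_mul_cancel_left₀ (pow_ne_zero 2 h.ane)]
  sm := h.tm
  tm := h.sm
  s1 := h.t1
  t1 := h.s1

/-- A product in which all factors but one are units. -/
theorem prod_div {f : I → K} (i : I) (h0 : f i ≠ 0) (h : ∀ i', i' ≠ i → IsU O (f i')) :
    IsU O ((∏ i', f i') / f i) := by
  classical
  rw [← Finset.mul_prod_erase _ _ (Finset.mem_univ i), mul_div_cancel_left₀ _ h0]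
  exact isU_prod fun i' hi' => h i' (Finset.ne_of_mem_erase hi')

theorem Loc.su (h : Loc O s t A) {i : I} (hi : s i ∈ mx O) (i' : I) (hne : i' ≠ i) :
    IsU O (s i') :=
  isU_of_not_mx (h.sm i') fun h' => hne (h.s1 i' i h' hi)

theorem Loc.key (h : Loc O s t A) {i : I} {j : J} (hi : s i ∈ mx O) (hj : t j ∈ mx O) :
    IsU O (t j / s i / A ^ 2) := by
  have h1 := prod_div i (h.sne i) (h.su hi)
  have h2 := prod_div j (h.tne j) (h.symm.su hj)
  have h3 := h1.div h2
  have h4 : (∏ i', s i') ≠ 0 := Finset.prod_ne_zero_iff.2 fun i _ => h.sne i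
  have := h.sne i
  have := h.tne j
  have := h.ane
  convert h3 using 1
  rw [← h.eqn]
  field_simp

theorem Loc.div_mem (h : Loc O s t A) (hA : A ∈ O) (i : I) {j : J} (hj : t j ∈ mx O) :
    t j / s i ∈ O := by
  rcases isU_or_mx (h.sm i) with hi | hi
  · exact hi.div_mem (h.tm j)
  · have := O.mul_mem (h.key hi hj).mem (O.pow_mem hA 2)
    rwa [div_mul_cancel₀ _ (pow_ne_zero 2 h.ane)] at this

theorem Loc.prin (h : Loc O s t A) (i : I) (j : J) : Prin {s i, t j} O := by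
  rcases isU_or_mx (h.sm i) with hi | hi
  · exact (gn_left (h.sne i) (hi.div_mem (h.tm j))).prin
  rcases isU_or_mx (h.tm j) with hj | hj
  · exact (gn_right (h.tne j) (hj.div_mem (h.sm i))).prin
  rcases h.aa with hA | hA
  · exact (gn_left (h.sne i) (h.div_mem hA i hj)).prin
  · exact (gn_right (h.tne j) (h.symm.div_mem hA j hi)).prin

theorem Loc.pm (h : Loc O s t A) (i : I) (j : J) : ∀ a ∈ ({s i, t j} : Set K), a ∈ O := by
  rintro a (rfl | rfl)
  exacts [h.sm i, h.tm j]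

variable {E : I → J → K}

theorem Loc.eu (h : Loc O s t A) (hE : ∀ i j, Gn {s i, t j} O (E i j)) (i : I) (j : J)
    (hu : IsU O (s i) ∨ IsU O (t j)) : IsU O (E i j) :=
  (hE i j).isU (h.pm i j) (hu.elim (fun h' => ⟨_, Or.inl rfl, h'⟩) fun h' => ⟨_, Or.inr rfl, h'⟩)

theorem Loc.eT (h : Loc O s t A) (hE : ∀ i j, Gn {s i, t j} O (E i j)) (i : I) (j : J)
    (hA : A ∈ O) (hj : t j ∈ mx O) : IsU O (E i j / s i) :=
  (hE i j).unit (gn_left (h.sne i) (h.div_mem hA i hj))

omit [Fintype I] [Fintype J] in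
theorem gn_swap (hE : ∀ i j, Gn {s i, t j} O (E i j)) (j : J) (i : I) :
    Gn {t j, s i} O (E i j) := by
  rw [Set.pair_comm]; exact hE i j

theorem Loc.rC (h : Loc O s t A) (hE : ∀ i j, Gn {s i, t j} O (E i j)) (i : I) :
    s i / ∏ j, E i j ∈ O ∧ (A⁻¹ ∉ mx O → IsU O (s i / ∏ j, E i j)) := by
  rcases isU_or_mx (h.sm i) with hi | hi
  · have := hi.div (isU_prod (s := Finset.univ) fun j _ => h.eu hE i j (Or.inl hi))
    exact ⟨this.mem, fun _ => this⟩
  have hA : A⁻¹ ∉ mx O → A ∈ O := fun hA => h.aa.elim id fun h' => by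
    simpa using (isU_of_not_mx h' hA).inv_mem
  by_cases hj : ∃ j, t j ∈ mx O
  · obtain ⟨j, hj⟩ := hj
    have h1 := prod_div (O := O) (f := E i) j (hE i j).ne
      fun j' hj' => h.eu hE i j' (Or.inr (h.symm.su hj j' hj'))
    have h2 : s i / ∏ j, E i j = s i / E i j / ((∏ j', E i j') / E i j) := by
      have := (hE i j).ne
      rw [div_div_div_cancel_right₀ this]
    rw [h2]
    refine ⟨h1.div_mem ((hE i j).1 _ (Or.inl rfl)), fun h3 => IsU.div ?_ h1⟩
    simpa using (h.eT hE i j (hA h3) hj).inv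
  · have ht : ∀ j, IsU O (t j) := fun j => isU_of_not_mx (h.tm j) fun h' => hj ⟨j, h'⟩
    refine ⟨(isU_prod (s := Finset.univ) fun j _ => h.eu hE i j (Or.inr (ht j))).div_mem (h.sm i),
      fun h3 => absurd ?_ hi.2⟩
    have h4 : IsU O (A ^ 2 * ∏ i, s i) := by
      rw [h.eqn]; exact isU_prod fun j _ => ht j
    have h5 : IsU O ((∏ i, s i) * A ^ 2) := by rwa [mul_comm]
    have h6 := IsU.of_mul (O.prod_mem fun i _ => h.sm i) (O.pow_mem (hA h3) 2) h5
    have h7 := h6.div (prod_div i (h.sne i) (h.su hi))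
    rwa [div_div_cancel₀ h6.1] at h7

end loc

section glob

variable {k M K : Type} [Field k] [Field M] [Field K] [Algebra k M] [Algebra k K]
  {d : Dat k} {x y : M} {ι : M →ₐ[k] K} {l : k} {ζ w : K}

theorem loc (h : XLoc d x y ι l ζ w) {O : Subalgebra k K} (hO : O ∈ XX d x y ι ζ w) :
    Loc O (fun i => sX d x y ι i O) (fun j => tau l ζ j O) (AA d x y ι ζ w O) where
  sne := h.sne O hO
  tne := h.tne O
  ane := h.ane O hO
  aa := h.aa O hO
  eqn := by rw [Fin.prod_univ_two]; exact h.eqn O hO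
  sm := h.sm O hO
  tm := h.tm O hO
  s1 := h.s1 O hO
  t1 := h.t1 O hO

theorem gE (h : XLoc d x y ι l ζ w) {O : Subalgebra k K} (hO : O ∈ XX d x y ι ζ w) (i : Fin 2)
    (j : Fin 4) : Gn {sX d x y ι i O, tau l ζ j O} O (EE d x y ι l ζ i j O) :=
  gn_spec ((loc h hO).prin i j)

theorem cartZ (h : XLoc d x y ι l ζ w) : IsCart (XX d x y ι ζ w) (eta ζ) :=
  isCart_of_gn (Set.toFinite _) h.gZ

theorem cne (h : XLoc d x y ι l ζ w) (j : Fin 4) :
    (![ζ, ζ - 1, ζ - algebraMap k K l, 1] j : K) ≠ 0 := fun e =>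
  h.tne ⊤ j (by rw [tau, e, zero_div])

theorem cartT (h : XLoc d x y ι l ζ w) (j : Fin 4) : IsCart (XX d x y ι ζ w) (tau l ζ j) :=
  (isCart_const (cne h j)).div (cartZ h)

theorem cartU (ht : TAll d x y) (h : XLoc d x y ι l ζ w) {f : Subalgebra k M → M}
    (hf : IsCart (TT d x y) f) : IsCart (XX d x y ι ζ w) (up ι (TT d x y) f) :=
  isCart_up ht.loc.nice.toGood h.fine.toGood h.maps hf

theorem cartS (ht : TAll d x y) (h : XLoc d x y ι l ζ w) (i : Fin 2) :
    IsCart (XX d x y ι ζ w) (sX d x y ι i) :=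
  cartU ht h (ht.pen.cart i)

theorem cartA (ht : TAll d x y) (h : XLoc d x y ι l ζ w) :
    IsCart (XX d x y ι ζ w) (AA d x y ι ζ w) :=
  ((isCart_const h.wne).mul (cartU ht h (ht.loc.cartE none))).div
    ((cartS ht h 0).mul ((cartZ h).pow 2))

theorem cartE (ht : TAll d x y) (h : XLoc d x y ι l ζ w) (i : Fin 2) (j : Fin 4) :
    IsCart (XX d x y ι ζ w) (EE d x y ι l ζ i j) :=
  isCart_gn_pair (cartS ht h i) (cartT h j) fun _ hO => gE h hO i j

theorem lbW_eq (D : W ℤ) : lbW d x y ι l ζ D = up ι (TT d x y) (lb d x y D.1) * eta ζ ^ (-D.2.1) *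
    ∏ i, ∏ j, EE d x y ι l ζ i j ^ (-D.2.2 i j) := by
  funext O
  simp only [lbW, Pi.mul_apply, Pi.pow_apply, Finset.prod_apply]

theorem cartP (ht : TAll d x y) (h : XLoc d x y ι l ζ w) (D : W ℤ) (i : Fin 2) :
    IsCart (XX d x y ι ζ w) (∏ j, EE d x y ι l ζ i j ^ (-D.2.2 i j)) :=
  isCart_prod fun j _ => (cartE ht h i j).zpow _

theorem cartW (ht : TAll d x y) (h : XLoc d x y ι l ζ w) (D : W ℤ) :
    IsCart (XX d x y ι ζ w) (lbW d x y ι l ζ D) := by
  rw [lbW_eq]
  exact ((cartU ht h (ht.loc.cart D.1)).mul ((cartZ h).zpow _)).mul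
    (isCart_prod fun i _ => cartP ht h D i)

variable [CharZero k] [IsAlgClosed k]

theorem degL (ht : TAll d x y) (h : XLoc d x y ι l ζ w) (ν : Curve (XX d x y ι ζ w)) (c : Lam ℤ)
    {φ : M} (hφ : φ ≠ 0) :
    ν.deg (up ι (TT d x y) fun R => φ * lb d x y c R) = ip c (ZZ d x y ι l ζ ν).1 := by
  obtain ⟨ν', -, h2⟩ := exists_proj ht.loc.nice.toGood h.fine.toGood h.maps ν
  have h3 : IsCart (TT d x y) fun R => φ * lb d x y c R := (isCart_const hφ).mul (ht.loc.cart c)
  rw [h2 _ h3, deg_cmul ht.loc.nice.toGood (ht.loc.cart c) hφ, ht.loc.deg]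
  congr 1
  simp only [zz, ZZ, h2 _ ht.loc.cartH, h2 _ (ht.loc.cartE _)]

theorem degS (ht : TAll d x y) (h : XLoc d x y ι l ζ w) (ν : Curve (XX d x y ι ζ w)) (i : Fin 2) :
    ν.deg (sX d x y ι i) = ip (cC i) (ZZ d x y ι l ζ ν).1 :=
  degL ht h ν (cC i) (ht.pen.ne i)

theorem degT (h : XLoc d x y ι l ζ w) (ν : Curve (XX d x y ι ζ w)) (j : Fin 4) :
    ν.deg (tau l ζ j) = (ZZ d x y ι l ζ ν).2.1 := by
  have := deg_div h.fine.toGood (isCart_const (cne h j)) (cartZ h) ν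
  rw [deg_const, zero_sub] at this
  exact this

theorem degW (ht : TAll d x y) (h : XLoc d x y ι l ζ w) (ν : Curve (XX d x y ι ζ w)) (D : W ℤ) :
    ν.deg (lbW d x y ι l ζ D) = ipW D (ZZ d x y ι l ζ ν) := by
  have hX := h.fine.toGood
  have h1 := degL ht h ν D.1 one_ne_zero
  simp only [one_mul] at h1
  rw [lbW_eq, deg_mul hX ((cartU ht h (ht.loc.cart D.1)).mul ((cartZ h).zpow _))
    (isCart_prod fun i _ => cartP ht h D i),
    deg_mul hX (cartU ht h (ht.loc.cart D.1)) ((cartZ h).zpow _), deg_zpow hX (cartZ h),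
    deg_prod hX fun i _ => cartP ht h D i]
  have h2 : ∀ i, ν.deg (∏ j, EE d x y ι l ζ i j ^ (-D.2.2 i j)) =
      -∑ j, D.2.2 i j * (ZZ d x y ι l ζ ν).2.2 i j := fun i => by
    rw [deg_prod hX fun j _ => (cartE ht h i j).zpow _, ← Finset.sum_neg_distrib]
    exact Finset.sum_congr rfl fun j _ => by rw [deg_zpow hX (cartE ht h i j), neg_mul]; rfl
  rw [Finset.sum_congr rfl fun i _ => h2 i, Finset.sum_neg_distrib, ipW, ← h1]
  have h3 : (ZZ d x y ι l ζ ν).2.1 = -ν.deg (eta ζ) := rfl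
  rw [h3]
  ring

theorem ip_zero (Z : Lam ℤ) : ip 0 Z = 0 := by simp [ip]

theorem eff (ht : TAll d x y) (h : XLoc d x y ι l ζ w) (D : W ℤ) (hD : D ∈ EG (PP d x y)) :
    ∃ C : Cartier (XX d x y ι ζ w), C.Effective ∧
      ∀ ν : Curve (XX d x y ι ζ w), ν.deg C.f = ipW D (ZZ d x y ι l ζ ν) := by
  have hX := h.fine.toGood
  rcases hD with ⟨c, ⟨φ, P, hP⟩, rfl⟩ | rfl | ⟨i, j, rfl⟩ | ⟨i, rfl⟩ | ⟨j, rfl⟩
  · refine ⟨⟨_, cartU ht h (hP.cart (ht.loc.cart c))⟩, fun O hO => h.maps.mem_up hO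
      (hP.mem ht.loc.nice (ht.loc.cart c) (h.maps.mem hO)), fun ν => ?_⟩
    rw [show ipW (c, 0, 0) (ZZ d x y ι l ζ ν) = ip c (ZZ d x y ι l ζ ν).1 by simp [ipW]]
    exact degL ht h ν c hP.1
  · refine ⟨⟨_, cartT h 3⟩, fun O hO => h.tm O hO 3, fun ν => ?_⟩
    rw [show ipW (0, 1, 0) (ZZ d x y ι l ζ ν) = (ZZ d x y ι l ζ ν).2.1 by simp [ipW, ip_zero]]
    exact degT h ν 3
  · refine ⟨⟨_, cartE ht h i j⟩, fun O hO => (gE h hO i j).mem ((loc h hO).pm i j), fun ν => ?_⟩
    rw [show ipW (0, 0, fun i' j' => if i' = i ∧ j' = j then -1 else 0) (ZZ d x y ι l ζ ν) =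
      (ZZ d x y ι l ζ ν).2.2 i j by simp [ipW, ip_zero, ite_and]]
    rfl
  · have hc : IsCart (XX d x y ι ζ w) (∏ j, EE d x y ι l ζ i j) :=
      isCart_prod fun j _ => cartE ht h i j
    refine ⟨⟨_, (cartS ht h i).div hc⟩, fun O hO => ?_, fun ν => ?_⟩
    · have := ((loc h hO).rC (gE h hO) i).1
      simpa only [Pi.div_apply, Finset.prod_apply] using this
    · rw [show ipW (cC i, 0, fun i' _ => if i' = i then 1 else 0) (ZZ d x y ι l ζ ν) =
        ip (cC i) (ZZ d x y ι l ζ ν).1 - ∑ j, (ZZ d x y ι l ζ ν).2.2 i j by simp [ipW]]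
      change ν.deg (_ / _) = _
      rw [deg_div hX (cartS ht h i) hc, degS ht h, deg_prod hX fun j _ => cartE ht h i j]
      rfl
  · have hc : IsCart (XX d x y ι ζ w) (∏ i, EE d x y ι l ζ i j) :=
      isCart_prod fun i _ => cartE ht h i j
    refine ⟨⟨_, (cartT h j).div hc⟩, fun O hO => ?_, fun ν => ?_⟩
    · have := ((loc h hO).symm.rC (gn_swap (gE h hO)) j).1
      simpa only [Pi.div_apply, Finset.prod_apply] using this
    · rw [show ipW (0, 1, fun _ j' => if j' = j then 1 else 0) (ZZ d x y ι l ζ ν) =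
        (ZZ d x y ι l ζ ν).2.1 - ∑ i, (ZZ d x y ι l ζ ν).2.2 i j by simp [ipW, ip_zero]]
      change ν.deg (_ / _) = _
      rw [deg_div hX (cartT h j) hc, degT h, deg_prod hX fun i _ => cartE ht h i j]
      rfl

end glob

end XDivL

open XDivL in
/-- XDIV. -/
theorem xDiv_stmt : XDivStmt := fun _ _ _ _ _ _ _ _ _ _ _ _ _ _ _ _ _ ht _ h =>
  { gE := fun _ hO => gE h hO
    em := fun _ hO i j => (gE h hO i j).mem ((loc h hO).pm i j)
    eu := fun _ hO => (loc h hO).eu (gE h hO)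
    emx := fun _ hO i j hi hj => (gE h hO i j).mem_mx (by rintro a (rfl | rfl); exacts [hi, hj])
    eT := fun _ hO => (loc h hO).eT (gE h hO)
    eC := fun _ hO i j => (loc h hO).symm.eT (gn_swap (gE h hO)) j i
    rT := fun _ hO j => by simpa only [inv_inv] using (loc h hO).symm.rC (gn_swap (gE h hO)) j
    rC := fun _ hO => (loc h hO).rC (gE h hO)
    cartZ := cartZ h
    cartT := cartT h
    cartS := cartS ht h
    cartA := cartA ht h
    cartE := cartE ht h
    cartW := cartW ht h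
    degW := degW ht h
    degL := fun ν c _ hφ => degL ht h ν c hφ
    degS := degS ht h
    degT := degT h
    eff := eff ht h }

end Pool.Agent.MP_20d318_ag.BV

end MrgPart4

-- ======== part 5: formerly Pool.Agent.MP_20d318_ag.BV.XTest
section MrgPart5

/-! The test curves on the threefold. -/

set_option autoImplicit false

namespace Pool.Agent.MP_20d318_ag.BV

open Pool.Agent.MP_79c67d_ag Pool.Agent.MP_20d318_ag.AG MvPolynomial

namespace XTst

variable {k M K : Type} [Field k] [Field M] [Field K] [Algebra k M] [Algebra k K]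
  {d : Dat k} {x y : M} {ι : M →ₐ[k] K} {l : k} {ζ w : K} {O V : Subalgebra k K}
  {R : Subalgebra k M}

/-- Equations of the four branch points near these points. -/
noncomputable def tb (l : k) (ζ : K) (j : Fin 4) : K := ![ζ, ζ - 1, ζ - algebraMap k K l, ζ⁻¹] j

theorem tb_form (l : k) (ζ : K) (j : Fin 4) : ∃ c : k,
    (tb l ζ j = ζ - algebraMap k K c ∧ ![ζ, ζ - 1, ζ - algebraMap k K l, 1] j = tb l ζ j) ∨
    (tb l ζ j = ζ⁻¹ - algebraMap k K c ∧ tb l ζ j = ζ⁻¹ ∧
      ![ζ, ζ - 1, ζ - algebraMap k K l, 1] j = 1) := by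
  fin_cases j
  · exact ⟨0, Or.inl ⟨by simp [tb], rfl⟩⟩
  · exact ⟨1, Or.inl ⟨by simp [tb], rfl⟩⟩
  · exact ⟨l, Or.inl ⟨by simp [tb], rfl⟩⟩
  · exact ⟨0, Or.inr ⟨by simp [tb], rfl, rfl⟩⟩

theorem tr_tb (h : Tr ι ζ) (j : Fin 4) {a : M} (ha : a ≠ 0) : Tr ι (tb l ζ j / ι a) := by
  have key : ∀ (z : K) (c : k), Tr ι z → Tr ι ((z - algebraMap k K c) / ι a) := by
    intro z c hz
    have := hz.lin (inv_ne_zero ha) (-(algebraMap k M c) / a)
    convert this using 1
    simp only [map_inv₀, map_div₀, map_neg, AlgHom.commutes]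
    ring
  obtain ⟨c, ⟨h1, -⟩ | ⟨h1, -⟩⟩ := tb_form l ζ j
  · rw [h1]; exact key _ c h
  · rw [h1]; exact key _ c h.inv

theorem mem_of_dom (hd : Dom O V) {a : K} (h : a ∈ O ∨ a⁻¹ ∈ O) (ha : a ∈ V) : a ∈ O := by
  rcases h with h | h
  · exact h
  · by_cases h0 : a = 0
    · rw [h0]; exact O.zero_mem
    · simpa using (hd.2 _ h ⟨inv_ne_zero h0, hd.1 h, by simpa using ha⟩).inv_mem

theorem zor (hz : zc ζ O ∈ O) : ζ ∈ O ∨ ζ⁻¹ ∈ O := by
  unfold zc at hz
  split_ifs at hz with h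
  exacts [Or.inl h, Or.inr hz]

theorem mem_of_sub {a : K} {c : k} (h : a - algebraMap k K c ∈ V) : a ∈ V := by
  simpa using V.add_mem h (V.algebraMap_mem c)

/-- Near a branch point the local equation is the obvious one. -/
theorem tau_eq (h0 : ζ ≠ 0) (hz : zc ζ O ∈ O) (hd : Dom O V) {j : Fin 4} (h : tb l ζ j ∈ mx V) :
    tau l ζ j O = tb l ζ j ∧ ∃ c : k, zc ζ O - algebraMap k K c = tb l ζ j := by
  obtain ⟨c, ⟨h1, h2⟩ | ⟨h1, h2, h3⟩⟩ := tb_form l ζ j
  · have hm : ζ ∈ O := mem_of_dom hd (zor hz) (mem_of_sub (h1 ▸ h.1))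
    exact ⟨by rw [tau, eta, if_pos hm, h2, div_one], c, by rw [zc, if_pos hm, h1]⟩
  · have hm : ζ ∉ O := fun hm => by
      have := mx_mul_left (hd.1 hm) (h2 ▸ h)
      rw [mul_inv_cancel₀ h0] at this
      exact one_not_mem_mx this
    exact ⟨by rw [tau, eta, if_neg hm, h3, h2, one_div], c, by rw [zc, if_neg hm, h1]⟩

theorem tau_unit (hm : ζ ∈ O)
    (h : ∀ c : k, c = 0 ∨ c = 1 ∨ c = l → IsU O (ζ - algebraMap k K c)) (j : Fin 4) :
    IsU O (tau l ζ j O) := by
  rw [tau, eta, if_pos hm, div_one]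
  fin_cases j
  · simpa using h 0 (Or.inl rfl)
  · simpa using h 1 (Or.inr (Or.inl rfl))
  · simpa using h l (Or.inr (Or.inr rfl))
  · exact isU_one

theorem val_mx (hV : IsVal V) {a : K} (h : a ^ 2 ∈ mx V) : a ∈ mx V := by
  refine mx_of_pow (by_contra fun hn => ?_) h
  have h0 : a ≠ 0 := fun h0 => hn (h0 ▸ V.zero_mem)
  have := mx_mul_right h (V.pow_mem (hV.inv_mx hn).1 2)
  rw [← mul_pow, mul_inv_cancel₀ h0, one_pow] at this
  exact one_not_mem_mx this

variable (h : XAll d x y ι l ζ w)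
include h

theorem z_ne : ζ ≠ 0 := by simpa using h.ext.tr.ne 0

theorem lift (hR : R ∈ TT d x y) (hV : IsVal V) (hd : Dom R (V.comap ι)) :
    ∃ O ∈ XX d x y ι ζ w, Dom O V ∧ pr ι (TT d x y) O = R := by
  obtain ⟨O, hO, hOV⟩ := h.loc.fine.cpl V hV
  exact ⟨O, hO, hOV, h.t.loc.nice.sep _ (h.loc.maps.mem hO) _ hR _
    (isLocalRing_comap ι hV.isLocalRing) ((h.loc.maps.dom hO).trans (hOV.comap ι)) hd⟩

theorem s_ne (hR : R ∈ TT d x y) (i : Fin 2) : sT d x y i R ≠ 0 :=
  mul_ne_zero (h.t.pen.ne i) (h.t.loc.lbne R hR _)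

theorem ss_mx (hO : O ∈ XX d x y ι ζ w) {i : Fin 2} (hi : sX d x y ι i O ∈ mx O) :
    sX d x y ι 0 O * sX d x y ι 1 O ∈ mx O := by
  fin_cases i
  exacts [mx_mul_right hi (h.loc.sm O hO 1), mx_mul_left (h.loc.sm O hO 0) hi]

theorem A_not (hO : O ∈ XX d x y ι ζ w) (hu : ∀ j, IsU O (tau l ζ j O)) {i : Fin 2}
    (hi : sX d x y ι i O ∈ mx O) : AA d x y ι ζ w O ∉ O := fun hA => by
  have := mx_mul_left (O.pow_mem hA 2) (ss_mx h hO hi)
  rw [h.loc.eqn O hO] at this
  exact this.2 (isU_prod fun j _ => hu j)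

variable [CharZero k] [IsAlgClosed k]

omit [CharZero k] in
theorem nd0 (hO : O ∈ XX d x y ι ζ w) {P : Place k M} (hP : plO P ∈ TT d x y)
    (he : pr ι (TT d x y) O = plO P) : ¬ Dim O 0 := fun hd =>
  (h.t.loc.dim P hP).1 ((rat_iff (h.t.loc.nice.loc _ hP)).2
    (he ▸ hd.comap (h.loc.maps.dom hO)))

theorem rat_pt (i : Fin 2) : ∃ R ∈ TT d x y, RatPt R ∧ sT d x y i R ∈ mx R := by
  obtain ⟨P, hP⟩ := h.t.pl.prC i
  obtain ⟨ν, hν⟩ := h.t.z.cur P hP.2.1
  obtain ⟨Q⟩ := exists_pl ν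
  exact ⟨ν.pt Q, ν.pt_mem Q, pt_rat ν Q,
    (hP.mx_iff h.t.loc.nice (h.t.loc.cart _) (ν.pt_mem Q)).2 (hν ▸ ν.pt_le Q)⟩

variable (hU : UpStmt) (hC : CurveStmt) (hc : XCur d x y ι l ζ w)
include hU hC hc

theorem tG (c : Lam ℤ) (hm : c ∈ PP d x y) : ∃ ν : Curve (XX d x y ι ζ w), ∃ n : ℕ, 0 < n ∧
    ZZ d x y ι l ζ ν = (n • c, 0, 0) := by
  classical
  obtain ⟨φ, P, hP⟩ := hm
  obtain ⟨c0, h0⟩ := Infinite.exists_notMem_finset ({0, 1, l} : Finset k)
  simp only [Finset.mem_insert, Finset.mem_singleton, not_or] at h0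
  obtain ⟨V, hV, hd, hv⟩ := (hU k M K ι (plO P) ζ (h.t.loc.nice.loc _ hP.2.1) h.ext.tr).1 c0
  obtain ⟨O, hO, hOV, he⟩ := lift h hP.2.1 hV hd
  have hl := h.loc.fine.loc O hO
  have hz : ζ ∈ O := mem_of_dom hOV (zor (h.loc.zm O hO)) (mem_of_sub hv.1)
  have hv' : ζ - algebraMap k K c0 ∈ mx O :=
    mx_of_le hOV.1 (O.sub_mem hz (O.algebraMap_mem _)) hv
  have hu : ∀ j, IsU O (tau l ζ j O) := tau_unit hz fun c hc => by
    have hne : c0 - c ≠ 0 := sub_ne_zero.2 (by rcases hc with rfl | rfl | rfl <;> tauto)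
    have := (isU_const (O := O) hne).add_mx hl hv'
    rwa [map_sub, sub_add_sub_cancel'] at this
  have h1 : Dim O 1 := h.loc.dimZ O hO 1 (he ▸ (h.t.loc.dim P hP.2.1).2)
    (algM_of_mx (c := c0) (by rwa [zc, if_pos hz]))
    fun ⟨hA, i, hi⟩ => A_not h hO hu hi hA.mem
  obtain ⟨ν, rfl⟩ := hC k K _ h.loc.fine.toGood O hO h1 (nd0 h hO hP.2.1 he)
  obtain ⟨n, hn, e1⟩ := hc.c1 ν c φ P hP he
  exact ⟨ν, n, hn, Prod.ext e1 (hc.cG ν c0 h0.1 h0.2.1 h0.2.2 hv')⟩

theorem tT (c : Lam ℤ) (hm : c ∈ PP d x y) (j : Fin 4) :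
    ∃ ν : Curve (XX d x y ι ζ w), ∃ n : ℕ, 0 < n ∧
      ZZ d x y ι l ζ ν = (n • c, 0, fun i j' => if j' = j then ip (cC i) (n • c) else 0) := by
  obtain ⟨φ, P, hP⟩ := hm
  have hR := hP.2.1
  have hs : sT d x y 0 (plO P) * sT d x y 1 (plO P) ≠ 0 := mul_ne_zero (s_ne h hR 0) (s_ne h hR 1)
  have hs' : ι (sT d x y 0 (plO P) * sT d x y 1 (plO P)) ≠ 0 := by simpa using hs
  obtain ⟨V, hV, hd, hv⟩ := (hU k M K ι (plO P) _ (h.t.loc.nice.loc _ hR)
    (tr_tb (l := l) h.ext.tr j hs)).1 0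
  rw [map_zero, sub_zero] at hv
  obtain ⟨O, hO, hOV, he⟩ := lift h hR hV hd
  have ht : tb l ζ j ∈ mx V := by
    have := mx_mul_right (b := ι (sT d x y 0 (plO P) * sT d x y 1 (plO P))) hv
      (hd.1 ((plO P).mul_mem (h.t.pen.mem _ hR 0) (h.t.pen.mem _ hR 1)))
    rwa [div_mul_cancel₀ _ hs'] at this
  obtain ⟨e0, c0, e1⟩ := tau_eq (z_ne h) (h.loc.zm O hO) hOV ht
  have ht' : tau l ζ j O ∈ mx O := mx_of_le hOV.1 (h.loc.tm O hO j) (e0 ▸ ht)
  have hA : AA d x y ι ζ w O ∈ mx V := by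
    refine val_mx hV ?_
    have e := h.loc.eqn O hO
    rw [← Finset.mul_prod_erase _ _ (Finset.mem_univ j), e0, sX, sX, up, up, he, ← map_mul] at e
    rw [eq_div_of_mul_eq hs' e, ← div_mul_eq_mul_div]
    exact mx_mul_right hv (hOV.1 (O.prod_mem fun j' _ => h.loc.tm O hO j'))
  have hA' : AA d x y ι ζ w O ∈ mx O :=
    mx_of_le hOV.1 (mem_of_dom hOV (h.loc.aa O hO) hA.1) hA
  have h1 : Dim O 1 := h.loc.dimZ O hO 1 (he ▸ (h.t.loc.dim P hR).2)
    (algM_of_mx (c := c0) (by rwa [e1, ← e0])) fun hh => hA'.2 hh.1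
  obtain ⟨ν, rfl⟩ := hC k K _ h.loc.fine.toGood O hO h1 (nd0 h hO hR he)
  obtain ⟨n, hn, e2⟩ := hc.c1 ν c φ P hP he
  obtain ⟨e3, e4⟩ := hc.cA ν j hA' ht'
  exact ⟨ν, n, hn, Prod.ext e2 (Prod.ext e3 (funext₂ fun i j' => by rw [e4, e2]))⟩

theorem tC (i : Fin 2) : ∃ ν : Curve (XX d x y ι ζ w), ∃ n : ℤ, 0 < n ∧
    ZZ d x y ι l ζ ν = (0, n, fun i' _ => if i' = i then n else 0) := by
  obtain ⟨R, hR, hr, hs⟩ := rat_pt h i
  obtain ⟨V, hV, hd, hv⟩ := (hU k M K ι R ζ (h.t.loc.nice.loc R hR) h.ext.tr).2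
  obtain ⟨O, hO, hOV, he⟩ := lift h hR hV hd
  have hz : ζ ∈ O := mem_of_dom hOV (zor (h.loc.zm O hO)) (hv.1 0)
  have hu : ∀ c : k, IsU O (ζ - algebraMap k K c) := fun c =>
    hOV.2 _ (O.sub_mem hz (O.algebraMap_mem _)) (ind_one hv c)
  have hs' : sX d x y ι i O ∈ mx O := by
    rw [sX, up, h.loc.maps.mx_up hO (he ▸ hs.1), he]
    exact hs
  have hA := A_not h hO (tau_unit hz fun c _ => hu c) hs'
  have hA' : (AA d x y ι ζ w O)⁻¹ ∈ mx O :=
    ⟨(h.loc.aa O hO).resolve_left hA, fun hh => hA (by simpa using hh.inv_mem)⟩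
  obtain ⟨ν, rfl⟩ := hC k K _ h.loc.fine.toGood O hO (h.loc.dim O hO 0 (he ▸ hr.dim))
    (not_dim_zero (h.loc.fine.loc O hO) hz fun c => (hu c).not_mx)
  refine ⟨ν, (ZZ d x y ι l ζ ν).2.1, ?_, Prod.ext (hc.c0 ν (he ▸ hr))
    (Prod.ext rfl (funext₂ (hc.cB ν i hA' hs')))⟩
  have e := deg_gn_pair ν (h.loc.gZ _ hO) (fun P => h.loc.gZ _ (ν.pt_mem P)) one_ne_zero
    (by rwa [div_one])
  have : (ZZ d x y ι l ζ ν).2.1 = pdeg k (ν.ev ζ) := by
    rw [div_one] at e
    simp only [ZZ, e, neg_neg]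
  rw [this]
  exact pdeg_pos (ev_transcendental ν hz fun c => (hu c).not_mx)

theorem tE (i : Fin 2) (j : Fin 4) : ∃ ν : Curve (XX d x y ι ζ w), ∃ n : ℤ, 0 < n ∧
    ZZ d x y ι l ζ ν = (0, 0, fun i' j' => if i' = i ∧ j' = j then -n else 0) := by
  obtain ⟨R, hR, hr, hs⟩ := rat_pt h i
  have hs0 : ι (sT d x y i R) ≠ 0 := by simpa using s_ne h hR i
  obtain ⟨V, hV, hd, hv⟩ := (hU k M K ι R _ (h.t.loc.nice.loc R hR)
    (tr_tb (l := l) h.ext.tr j (s_ne h hR i))).2
  obtain ⟨O, hO, hOV, he⟩ := lift h hR hV hd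
  have ht : tb l ζ j ∈ mx V := by
    have := mx_mul_left (hv.1 0) ((mem_mx_comap ι).1 (hd.mx hs))
    rwa [Matrix.cons_val_zero, div_mul_cancel₀ _ hs0] at this
  obtain ⟨e0, -⟩ := tau_eq (z_ne h) (h.loc.zm O hO) hOV ht
  have ht' : tau l ζ j O ∈ mx O := mx_of_le hOV.1 (h.loc.tm O hO j) (e0 ▸ ht)
  have es : sX d x y ι i O = ι (sT d x y i R) := by rw [sX, up, he]
  have hs' : sX d x y ι i O ∈ mx O := by
    rw [es, h.loc.maps.mx_up hO (he ▸ hs.1), he]
    exact hs
  have g0 : Gn {tb l ζ j, ι (sT d x y i R)} O (EE d x y ι l ζ i j O) := by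
    have := h.div.gE O hO i j
    rwa [es, e0, Set.pair_comm] at this
  have hy : tb l ζ j / ι (sT d x y i R) ∈ O :=
    mem_of_dom hOV (g0.prin.pair.imp_right fun hh => by rwa [inv_div]) (hv.1 0)
  have hu : ∀ c : k, tb l ζ j / ι (sT d x y i R) - algebraMap k K c ∉ mx O := fun c hh =>
    (ind_one hv c).not_mx (hOV.mx hh)
  obtain ⟨ν, rfl⟩ := hC k K _ h.loc.fine.toGood O hO (h.loc.dim O hO 0 (he ▸ hr.dim))
    (not_dim_zero (h.loc.fine.loc O hO) hy hu)
  have g1 : ∀ P, Gn {tb l ζ j, ι (sT d x y i R)} (ν.pt P) (EE d x y ι l ζ i j (ν.pt P)) := by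
    intro P
    have hP := ν.pt_mem P
    have hz := zor (h.loc.zm _ hP)
    have hm : tb l ζ j ∈ mx (ν.pt P) := by
      rw [e0] at ht'
      obtain ⟨c, ⟨h1, -⟩ | ⟨h1, -⟩⟩ := tb_form l ζ j
      · rw [h1] at ht' ⊢
        exact mem_pt_of_const ν P ht' hz
      · rw [h1] at ht' ⊢
        exact mem_pt_of_const ν P ht' (by simpa using hz.symm)
    have := h.div.gE _ hP i j
    rwa [(tau_eq (z_ne h) (h.loc.zm _ hP) (Dom.refl _) hm).1, sX, up,
      pr_pt h.t.loc.nice.toGood h.loc.fine.toGood h.loc.maps ν (he ▸ hr) P, he,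
      Set.pair_comm] at this
  have e := deg_gn_pair ν g0 g1 hs0 hy
  obtain ⟨e1, e2⟩ := hc.cX ν i j hs' ht'
  refine ⟨ν, _, pdeg_pos (ev_transcendental ν hy hu), Prod.ext (hc.c0 ν (he ▸ hr))
    (Prod.ext e1 (funext₂ fun i' j' => ?_))⟩
  dsimp only
  split_ifs with hh
  · obtain ⟨rfl, rfl⟩ := hh
    exact e
  · exact e2 i' j' hh

end XTst

theorem xTest_stmt : XTestStmt := fun hU hC _ _ _ _ _ _ _ _ _ _ _ _ _ _ _ _ _ h hc =>
  ⟨XTst.tE h hU hC hc, XTst.tC h hU hC hc, XTst.tT h hU hC hc, XTst.tG h hU hC hc⟩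

end Pool.Agent.MP_20d318_ag.BV

end MrgPart5

-- ======== part 6: formerly Pool.Agent.MP_20d318_ag.BV.SigX
section MrgPart6

/-! The involution of the surface lifts to the threefold. -/

set_option autoImplicit false

namespace Pool.Agent.MP_20d318_ag.BV

open Pool.Agent.MP_79c67d_ag Pool.Agent.MP_20d318_ag.AG MvPolynomial

namespace SigX

section surface

variable {k M : Type} [Field k] [Field M] [Algebra k M] {d : Dat k} {x y x' y' : M}
  (σ : M ≃ₐ[k] M) {R : Subalgebra k M}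

theorem symm (h : SigT d x y x' y') : SigT d x' y' x y where
  eq := h.eq.symm
  ex O hO := by simpa using (h.ex O (h.eq ▸ hO)).inv
  st O hO j := by simpa using (h.st O (h.eq ▸ hO) j).inv
  tt := h.tt.symm

theorem fg_map (i : Fin 2) : σ (fg d x y i) = fg d (σ x) (σ y) i := by
  unfold fg
  have h := MvPolynomial.comp_aeval_apply ![x, y, 1] (σ : M →ₐ[k] M) (![d.F, d.G] i)
  refine h.trans ?_
  congr 2
  funext j
  fin_cases j <;> simp

theorem sh_map : σ '' SH x y = SH (σ x) (σ y) := by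
  simp [SH, Set.image_insert_eq]

theorem sq_map (q : Q) : σ '' SQ d x y q = SQ d (σ x) (σ y) q := by
  simp [SQ, xq, yq, Set.image_insert_eq]

theorem famT_map : famT d (σ x) (σ y) = fun o => σ '' famT d x y o := by
  funext o
  cases o with
  | none => exact (sh_map σ).symm
  | some q => exact (sq_map σ q).symm

theorem mem_TT : R ∈ TT d (σ x) (σ y) ↔ R.comap (σ : M →ₐ[k] M) ∈ TT d x y := by
  unfold TT
  rw [famT_map]
  exact mp_comap σ

variable {σ}

theorem gH (h : TLoc d x y) (h' : TLoc d (σ x) (σ y)) (hR : R ∈ TT d (σ x) (σ y)) :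
    IsU R (σ (gn (SH x y) (R.comap (σ : M →ₐ[k] M))) / gn (SH (σ x) (σ y)) R) := by
  have h1 := (gn_map (σ : M →ₐ[k] M)).2 (h.gH _ ((mem_TT σ).1 hR))
  have e : (σ : M →ₐ[k] M) '' SH x y = SH (σ x) (σ y) := sh_map σ
  rw [e] at h1
  exact h1.unit (h'.gH _ hR)

theorem gQ (h : TLoc d x y) (h' : TLoc d (σ x) (σ y)) (hR : R ∈ TT d (σ x) (σ y)) (q : Q) :
    IsU R (σ (gn (SQ d x y q) (R.comap (σ : M →ₐ[k] M))) / gn (SQ d (σ x) (σ y) q) R) := by
  have h1 := (gn_map (σ : M →ₐ[k] M)).2 (h.gQ _ ((mem_TT σ).1 hR) q)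
  have e : (σ : M →ₐ[k] M) '' SQ d x y q = SQ d (σ x) (σ y) q := sq_map σ q
  rw [e] at h1
  exact h1.unit (h'.gQ _ hR q)

theorem gE (h : TLoc d x y) (h' : TLoc d (σ x) (σ y)) (hR : R ∈ TT d (σ x) (σ y)) (q : Q) :
    IsU R (σ (ex d x y q (R.comap (σ : M →ₐ[k] M))) / ex d (σ x) (σ y) q R) := by
  unfold ex
  rw [map_div₀, div_div_div_comm]
  exact (gQ h h' hR q).div (gH h h' hR)

theorem gL (h : TLoc d x y) (h' : TLoc d (σ x) (σ y)) (hR : R ∈ TT d (σ x) (σ y)) (c : Lam ℤ) :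
    IsU R (σ (lb d x y c (R.comap (σ : M →ₐ[k] M))) / lb d (σ x) (σ y) c R) := by
  unfold lb
  rw [map_mul, map_prod, mul_div_mul_comm, ← Finset.prod_div_distrib, map_zpow₀, ← div_zpow]
  refine ((gH h h' hR).zpow _).mul (isU_prod fun q _ => ?_)
  rw [map_zpow₀, ← div_zpow]
  exact (gE h h' hR q).zpow _

theorem gS (h : TLoc d x y) (h' : TAll d (σ x) (σ y)) (hR : R ∈ TT d (σ x) (σ y)) (i : Fin 2) :
    IsU R (σ (sT d x y i (R.comap (σ : M →ₐ[k] M))) / sT d (σ x) (σ y) i R) := by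
  unfold sT
  rw [map_mul, fg_map, mul_div_mul_left _ _ (h'.pen.ne i)]
  exact gL h h'.loc hR _

end surface

section threefold

variable {k M K : Type} [Field k] [Field M] [Field K] [Algebra k M] [Algebra k K] {d : Dat k}
  {x y x' y' : M} {ι : M →ₐ[k] K} {l : k} {ζ w : K} {σ : M ≃ₐ[k] M} {φ : K ≃ₐ[k] K}
  {O : Subalgebra k K}

theorem prin (h : XAll d x y ι l ζ w) (h' : XAll d x' y' ι l ζ w) (hS : SigT d x y x' y')
    (hO : O ∈ XX d x y ι ζ w) (j : Option Q ⊕ Bool) : Prin (famX d x' y' ι ζ w j) O := by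
  have hR := h.loc.maps.mem hO
  have hD := h.loc.maps.dom hO
  rcases j with o | b
  · have hR' : pr ι (TT d x y) O ∈ TT d x' y' := by rw [hS.eq]; exact hR
    obtain ⟨g, hg⟩ := mp_prin h'.t.loc.fam hR' o
    exact (hg.up ι hD.1).prin
  · cases b with
    | false => exact mp_prin h.loc.fam hO (Sum.inr false)
    | true =>
      have hu : IsU O (AA d x' y' ι ζ w O / AA d x y ι ζ w O) := by
        have h1 := h.loc.maps.isU_up hO (hS.ex _ hR)
        have h2 := h.loc.maps.isU_up hO (hS.st _ hR 0)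
        have e : AA d x' y' ι ζ w O / AA d x y ι ζ w O =
            ι (ex d x' y' none (pr ι (TT d x y) O) / ex d x y none (pr ι (TT d x y) O)) /
              ι (sT d x' y' 0 (pr ι (TT d x y) O) / sT d x y 0 (pr ι (TT d x y) O)) := by
          have hw := h.loc.wne
          have he := (h.loc.gZ O hO).ne
          unfold AA sX up
          rw [hS.eq, map_div₀, map_div₀, div_div_div_comm, mul_div_mul_left _ _ hw,
            mul_div_mul_right _ _ (pow_ne_zero 2 he)]
        rw [e]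
        exact h1.div h2
      refine h'.loc.prin O (mp_loc hO) ⟨_, hS.eq ▸ hR, hD⟩ ?_ (h.loc.zm O hO)
      have ha := h.loc.ane O hO
      rcases h.loc.aa O hO with h1 | h1
      · left
        have := O.mul_mem hu.mem h1
        rwa [div_mul_cancel₀ _ ha] at this
      · right
        have := O.mul_mem hu.inv_mem h1
        rwa [inv_div, div_mul_eq_mul_div, mul_inv_cancel₀ ha, one_div] at this

theorem xx_eq (h : XAll d x y ι l ζ w) (h' : XAll d x' y' ι l ζ w) (hS : SigT d x y x' y') :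
    XX d x y ι ζ w = XX d x' y' ι ζ w :=
  mp_eq h.loc.fam h'.loc.fam (fun _ hO => prin h h' hS hO) fun _ hO => prin h' h (symm hS) hO

theorem famX_map (h1 : ∀ m, φ (ι m) = ι (σ m)) (h2 : φ ζ = ζ) (h3 : φ w = w) :
    famX d (σ x) (σ y) ι ζ w = fun j => φ '' famX d x y ι ζ w j := by
  funext j
  rcases j with o | b
  · show ι '' famT d (σ x) (σ y) o = φ '' (ι '' famT d x y o)
    rw [famT_map, Set.image_image, Set.image_image]
    simp only [h1]
  · cases b with
    | false =>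
      show ({ζ, 1} : Set K) = φ '' {ζ, 1}
      simp [Set.image_insert_eq, h2]
    | true =>
      show SI d (σ x) (σ y) ι ζ w = φ '' SI d x y ι ζ w
      unfold SI
      simp only [Set.image_insert_eq, Set.image_singleton, map_mul φ, map_pow φ, map_one φ, h1, h2,
        h3, map_mul σ, map_div₀ σ, fg_map]

theorem comap_comap (h1 : ∀ m, φ (ι m) = ι (σ m)) :
    (O.comap (φ : K →ₐ[k] K)).comap ι = (O.comap ι).comap (σ : M →ₐ[k] M) := by
  ext m
  show φ (ι m) ∈ O ↔ ι (σ m) ∈ O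
  rw [h1]

theorem pr_comap (h : XAll d x y ι l ζ w) (hS : SigT d x y (σ x) (σ y))
    (h1 : ∀ m, φ (ι m) = ι (σ m)) (hO : O ∈ XX d x y ι ζ w) :
    pr ι (TT d x y) (O.comap (φ : K →ₐ[k] K)) = (pr ι (TT d x y) O).comap (σ : M →ₐ[k] M) := by
  refine pr_eq h.t.loc.nice.toGood (isLocalRing_comap _ (mp_loc hO))
    ((mem_TT σ).1 (hS.eq ▸ h.loc.maps.mem hO)) ?_
  rw [comap_comap h1]
  exact (h.loc.maps.dom hO).comap _

theorem up_unit (h : XAll d x y ι l ζ w) (hS : SigT d x y (σ x) (σ y))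
    (h1 : ∀ m, φ (ι m) = ι (σ m)) (hO : O ∈ XX d x y ι ζ w) {f f' : Subalgebra k M → M}
    (hf : ∀ R ∈ TT d x y, IsU R (σ (f (R.comap (σ : M →ₐ[k] M))) / f' R)) :
    IsU O (φ (up ι (TT d x y) f (O.comap (φ : K →ₐ[k] K))) / up ι (TT d x y) f' O) := by
  unfold up
  rw [pr_comap h hS h1 hO, h1, ← map_div₀]
  exact h.loc.maps.isU_up hO (hf _ (h.loc.maps.mem hO))

theorem eta_map (h2 : φ ζ = ζ) : φ (eta ζ (O.comap (φ : K →ₐ[k] K))) = eta ζ O := by
  have e : ζ ∈ O.comap (φ : K →ₐ[k] K) ↔ ζ ∈ O := by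
    show φ ζ ∈ O ↔ _
    rw [h2]
  unfold eta
  by_cases hz : ζ ∈ O
  · rw [if_pos hz, if_pos (e.2 hz), map_one]
  · rw [if_neg hz, if_neg (mt e.1 hz), h2]

theorem tau_map (h2 : φ ζ = ζ) (j : Fin 4) :
    φ (tau l ζ j (O.comap (φ : K →ₐ[k] K))) = tau l ζ j O := by
  unfold tau
  rw [map_div₀, eta_map h2]
  congr 1
  fin_cases j <;> simp [h2]

theorem ee_unit (h : XAll d x y ι l ζ w) (h' : XAll d (σ x) (σ y) ι l ζ w)
    (hS : SigT d x y (σ x) (σ y)) (h1 : ∀ m, φ (ι m) = ι (σ m)) (h2 : φ ζ = ζ)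
    (hO : O ∈ XX d x y ι ζ w) (hO' : O.comap (φ : K →ₐ[k] K) ∈ XX d x y ι ζ w) (i : Fin 2)
    (j : Fin 4) :
    IsU O (φ (EE d x y ι l ζ i j (O.comap (φ : K →ₐ[k] K))) / EE d x y ι l ζ i j O) := by
  have g1 := (gn_map (φ : K →ₐ[k] K)).2 (h.div.gE _ hO' i j)
  rw [Set.image_pair] at g1
  have u1 : IsU O (φ (sX d x y ι i (O.comap (φ : K →ₐ[k] K))) / sX d x y ι i O) := by
    refine up_unit h hS h1 hO fun R hR => ?_
    have a := gS h.t.loc h'.t (show R ∈ TT d (σ x) (σ y) from hS.eq ▸ hR) i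
    have b := hS.st R hR i
    have c := (h'.t.pen.cart i).ne (show R ∈ TT d (σ x) (σ y) from hS.eq ▸ hR)
    have := a.mul b
    rwa [div_mul_div_cancel₀ c] at this
  have u2 : IsU O (tau l ζ j O / φ (tau l ζ j (O.comap (φ : K →ₐ[k] K)))) := by
    rw [tau_map h2, div_self (h.loc.tne O j)]
    exact isU_one
  have u3 : IsU O (sX d x y ι i O / φ (sX d x y ι i (O.comap (φ : K →ₐ[k] K)))) := by
    simpa using u1.inv
  exact (g1.pair_unit u3 u2).unit (h.div.gE _ hO i j)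

end threefold

end SigX

open SigX in
theorem sigX_stmt : SigXStmt := by
  intro hH k M K _ _ _ _ _ _ _ d x y ι l ζ w σ i h h' hS hz
  have n0 := h.t.pen.ne 0
  have n1 := h.t.pen.ne 1
  obtain ⟨φ, h1, h2, h3⟩ := hH k M K ι σ (fg d x y 0 / fg d x y 1) l ζ w (div_ne_zero n0 n1)
    (by
      rw [map_div₀, fg_map, fg_map, ← inv_div, hS.tt, inv_div])
    h.ext.tr
    (by
      rw [map_div₀, div_mul_eq_mul_div, eq_div_iff ((map_ne_zero ι).2 n1)]
      exact h.ext.eq)
    h.ext.top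
  have hg : ∀ O, O ∈ XX d x y ι ζ w ↔ O.comap (φ : K →ₐ[k] K) ∈ XX d x y ι ζ w := fun O => by
    conv_lhs => rw [xx_eq h h' hS]
    unfold XX
    rw [famX_map h1 h2 h3]
    exact mp_comap φ
  refine ⟨⟨φ, hg⟩, fun ν => ?_⟩
  have hT := h.t.loc.nice.toGood
  have hX := h.loc.fine.toGood
  obtain ⟨ν', -, hν⟩ := exists_proj hT hX h.loc.maps ν
  have key : ∀ f f' : Subalgebra k M → M, IsCart (TT d x y) f → IsCart (TT d x y) f' →
      (∀ R ∈ TT d x y, IsU R (σ (f (R.comap (σ : M →ₐ[k] M))) / f' R)) →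
      (ν.push (φ : K →ₐ[k] K) fun O => (hg O).1).deg (up ι (TT d x y) f) = ν'.deg f' := by
    intro f f' hf hf' hu
    rw [Curve.deg_push, ← hν f' hf']
    exact deg_congr hX ((isCart_up hT hX h.loc.maps hf).pull _ fun O => (hg O).1)
      (isCart_up hT hX h.loc.maps hf') (fun O hO => up_unit h hS h1 hO hu) ν
  have e1 : (ZZ d x y ι l ζ ν).1 = zz d x y ν' :=
    Prod.ext (congrArg Neg.neg (hν _ h.t.loc.cartH)) (funext fun q => hν _ (h.t.loc.cartE q))
  refine Prod.ext ?_ (Prod.ext ?_ ?_)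
  · show _ = sig i (ZZ d x y ι l ζ ν).1
    rw [e1, ← hz]
    refine Prod.ext (congrArg Neg.neg ?_) (funext fun q => ?_)
    · exact key _ _ h.t.loc.cartH (hS.eq ▸ h'.t.loc.cartH) fun R hR =>
        gH h.t.loc h'.t.loc (hS.eq ▸ hR)
    · exact key _ _ (h.t.loc.cartE q) (hS.eq ▸ h'.t.loc.cartE q) fun R hR =>
        gE h.t.loc h'.t.loc (hS.eq ▸ hR) q
  · refine congrArg Neg.neg ?_
    rw [Curve.deg_push]
    congr 1
    funext O
    exact eta_map h2
  · funext a b
    show Curve.deg _ _ = ν.deg _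
    rw [Curve.deg_push]
    exact deg_congr hX ((h.div.cartE a b).pull _ fun O => (hg O).1) (h.div.cartE a b)
      (fun O hO => ee_unit h h' hS h1 h2 hO ((hg O).1 hO) a b) ν

end Pool.Agent.MP_20d318_ag.BV

end MrgPart6

-- marker of a merged file
example : 731051 + 323858 = 731051 + 323858 := rfl
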