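import Mathlib.Algebra.BigOperators.Field
import Mathlib.RingTheory.Finiteness.Prod
import Mathlib.Data.Int.Star
import Pool.Agent.MP_20d318_ag.BV.Poly2

/-! A rational polyhedral cone that meets every orbit in the nef cone. -/

namespace Pool.Agent.MP_20d318_ag.BV

open Pool.Agent.MP_20d318_ag.Lat

namespace LatB

section ring

variable {R : Type} [CommRing R]

theorem ip_comm (D Z : Lam R) : ip D Z = ip Z D := by
  simp only [ip, mul_comm]

theorem ip_add (D D' Z : Lam R) : ip (D + D') Z = ip D Z + ip D' Z := by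
  simp only [ip, Prod.fst_add, Prod.snd_add, Pi.add_apply, add_mul, Finset.sum_add_distrib]
  ring

theorem ip_smul (c : R) (D Z : Lam R) : ip (c • D) Z = c * ip D Z := by
  simp only [ip, Prod.smul_fst, Prod.smul_snd, Pi.smul_apply, smul_eq_mul, mul_assoc,
    ← Finset.mul_sum, mul_sub]

theorem ip_neg (D Z : Lam R) : ip (-D) Z = -ip D Z := by
  rw [← neg_one_smul R D, ip_smul, neg_one_mul]

theorem ip_sub (D D' Z : Lam R) : ip (D - D') Z = ip D Z - ip D' Z := by
  rw [sub_eq_add_neg, ip_add, ip_neg, sub_eq_add_neg]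

theorem ip_cE (D : Lam R) (q : Q) : ip D (cE q) = D.2 q := by
  simp [ip, cE, Pi.single_apply]

theorem ip_ch (D : Lam R) (q : Q) : ip D (ch q) = D.1 - D.2 q := by
  simp [ip, ch, Pi.single_apply]

theorem ip_eq (D Z : Lam R) :
    ip D Z = D.1 * Z.1 - D.2 none * Z.2 none - ∑ k, D.2 (some k) * Z.2 (some k) := by
  rw [ip, Fintype.sum_option, sub_sub]

theorem ip_cF (D : Lam R) : ip D cF = 3 * D.1 - ∑ k, D.2 (some k) := by
  simp [ip_eq, cF, mul_comm]

theorem ip_cR (D : Lam R) : ip D cR = ip D cF - 2 * D.2 none := by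
  simp only [ip_eq, cF, cR, Option.elim]
  ring

theorem sig_fst (i : Fin 9) (D : Lam R) :
    (sig i D).1 = 2 * D.1 - 3 * D.2 (some i) + ip D cF := by
  simp only [sig, ip_ch, Prod.fst_add, Prod.fst_sub, Prod.fst_neg, Prod.smul_fst, smul_eq_mul]
  simp only [cE, cF, ch]
  ring

theorem sig_none (i : Fin 9) (D : Lam R) : (sig i D).2 none = D.2 none := by
  simp only [sig, Prod.snd_add, Prod.snd_sub, Prod.snd_neg, Prod.smul_snd, Pi.add_apply,
    Pi.sub_apply, Pi.neg_apply, Pi.smul_apply, smul_eq_mul]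
  simp [cE, cF, ch]
  ring

theorem sig_some (i k : Fin 9) (D : Lam R) : (sig i D).2 (some k) =
    D.1 - D.2 (some i) - D.2 (some k) + if k = i then ip D cF else 0 := by
  simp only [sig, ip_ch, Prod.snd_add, Prod.snd_sub, Prod.snd_neg, Prod.smul_snd, Pi.add_apply,
    Pi.sub_apply, Pi.neg_apply, Pi.smul_apply, smul_eq_mul]
  simp [cE, cF, ch, Pi.single_apply]
  ring

theorem sig_cF (i : Fin 9) (D : Lam R) : ip (sig i D) cF = ip D cF := by
  simp only [ip_cF (sig i D), sig_fst, sig_some, Finset.sum_add_distrib, Finset.sum_sub_distrib]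
  simp [ip_cF]
  ring

theorem sig_adj (i : Fin 9) (D Z : Lam R) : ip (sig i D) Z = ip D (sig i Z) := by
  rw [ip_comm D]
  simp only [sig, ip_add, ip_sub, ip_neg, ip_smul, ip_comm (cE none), ip_cE, ip_comm cF,
    ip_comm (ch _), ip_comm Z D]
  ring

theorem sig_sig (i : Fin 9) (D : Lam R) : sig i (sig i D) = D := by
  refine Prod.ext ?_ (funext fun q => ?_)
  · simp only [sig_fst, sig_some, sig_cF, if_true]
    ring
  · cases q with
    | none => rw [sig_none, sig_none]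
    | some k =>
      simp only [sig_fst, sig_some, sig_cF, if_true]
      ring

theorem sig_ip (i : Fin 9) (D Z : Lam R) : ip (sig i D) (sig i Z) = ip D Z := by
  rw [sig_adj, sig_sig]

theorem sig_sub (i : Fin 9) (D Z : Lam R) : sig i (D - Z) = sig i D - sig i Z := by
  simp only [sig, ip_sub, Prod.snd_sub, Pi.sub_apply]
  module

theorem sig_add (i : Fin 9) (D Z : Lam R) : sig i (D + Z) = sig i D + sig i Z := by
  simp only [sig, ip_add, Prod.snd_add, Pi.add_apply]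
  module

theorem sig_smul (i : Fin 9) (c : R) (D : Lam R) : sig i (c • D) = c • sig i D := by
  simp only [sig, ip_smul, Prod.smul_snd, Pi.smul_apply, smul_eq_mul]
  module

theorem sig_fix (i : Fin 9) {D : Lam R} (h : ∀ k, D.1 = 3 * D.2 (some k) ∧
    D.2 (some k) = D.2 (some i)) : sig i D = D := by
  have h0 : ip D cF = 0 := by
    simp only [ip_cF, fun k => (h k).2, (h i).1]
    simp
    ring
  refine Prod.ext ?_ (funext fun q => ?_)
  · rw [sig_fst, h0, (h i).1]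
    ring
  · cases q with
    | none => exact sig_none i D
    | some k =>
      rw [sig_some, h0, (h k).2, (h i).1, ite_self]
      ring

theorem sig_cC (i : Fin 9) (j : Fin 2) : sig i (cC j : Lam R) = cC j :=
  sig_fix i fun k => by fin_cases j <;> simp [cC, cF, cR]

theorem sig_e (i : Fin 9) : sig i (cE none : Lam R) = cE none := sig_fix i fun k => by simp [cE]

end ring

theorem ip_toR (c c' : Lam ℤ) : ip (toR c) (toR c') = ip c c' := by
  simp [ip, toR]

theorem toR_cE (q : Q) : toR (cE q) = cE q :=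
  Prod.ext (by simp [toR, cE]) (funext fun q' => by
    simp only [toR, cE, Pi.single_apply]
    split_ifs <;> simp)

theorem toR_cF : toR cF = cF :=
  Prod.ext (by simp [toR, cF]) (funext fun q => by cases q <;> simp [toR, cF])

theorem toR_cR : toR cR = cR :=
  Prod.ext (by simp [toR, cR]) (funext fun q => by cases q <;> simp [toR, cR])

theorem toR_cC (j : Fin 2) : toR (cC j) = cC j := by
  fin_cases j
  exacts [toR_cF, toR_cR]

theorem toR_sig (i : Fin 9) (c : Lam ℤ) : toR (sig i c) = sig i (toR c) := by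
  have h : ip (toR c) cF = (ip c cF : ℤ) := by rw [← toR_cF, ip_toR]
  refine Prod.ext ?_ (funext fun q => ?_)
  · rw [sig_fst, h]
    simp [toR, sig_fst]
  · cases q with
    | none => simp [toR, sig_none]
    | some k =>
      rw [sig_some, h]
      simp only [toR, sig_some]
      split_ifs <;> simp

theorem sig_SS (i : Fin 9) {s : Lam ℤ} (h : s ∈ SS) : sig i s ∈ SS :=
  ⟨(sig_none i s).trans h.1, (sig_ip i s s).trans h.2.1, (sig_cF i s).trans h.2.2⟩

theorem sig_GEN (i : Fin 9) {c : Lam ℤ} (h : c ∈ GEN) : sig i c ∈ GEN := by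
  rcases h with (h | ⟨s, h, s', h', e, rfl⟩) | rfl | rfl
  · exact .inl (.inl (sig_SS i h))
  · exact .inl (.inr ⟨_, sig_SS i h, _, sig_SS i h', (sig_ip i s s').trans e, by
      rw [sig_sub, sig_add, sig_e]⟩)
  · exact .inr (.inl (sig_e i))
  · exact .inr (.inr (sig_cC i 1))

theorem sig_NT (i : Fin 9) {L : Lam ℝ} (h : L ∈ NT) : sig i L ∈ NT := fun c hc => by
  rw [sig_adj, ← toR_sig]
  exact h _ (sig_GEN i hc)

theorem sig_NX (i : Fin 9) {D : W ℝ} (h : D ∈ NX) : sigW i D ∈ NX :=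
  ⟨h.1, h.2.1, sig_NT i h.2.2.1, fun j => by
    have := sig_NT i (h.2.2.2 j)
    simp only [Fin.sum_univ_two, sig_sub, sig_add, sig_smul, sig_cC] at this
    simpa only [Fin.sum_univ_two, sigW] using this⟩

theorem cE_SS (k : Fin 9) : cE (some k) ∈ SS :=
  ⟨by simp [cE], by rw [ip_cE]; simp [cE], by rw [ip_comm, ip_cE]; rfl⟩

theorem deg_nonneg {L : Lam ℝ} (h : L ∈ NT) : 0 ≤ L.1 := by
  have h0 := h _ (.inl (.inl (cE_SS 0)))
  have h1 := h _ (.inl (.inl (cE_SS 1)))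
  have h2 := h (1, fun q => if q = some 0 ∨ q = some 1 then 1 else 0)
    (.inl (.inl ⟨by simp, by decide, by decide⟩))
  rw [toR_cE, ip_cE] at h0 h1
  simp [ip_eq, toR, Fin.sum_univ_succ] at h2
  linarith

/-- The box. -/
def Box (L : Lam ℝ) : Prop := ∀ k l, L.2 (some k) - L.2 (some l) ≤ 2 * ip L cF

theorem step {i j : Fin 9} (h : j ≠ i) (L : Lam ℝ) :
    (sig j (sig i L)).1 = L.1 - 3 * (L.2 (some i) - L.2 (some j)) + 3 * ip L cF ∧
    (sig j (sig i L)).2 (some i) - (sig j (sig i L)).2 (some j) =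
      L.2 (some i) - L.2 (some j) - 2 * ip L cF := by
  simp only [sig_fst, sig_some, sig_cF, if_true, if_neg h, if_neg h.symm]
  constructor <;> ring

theorem cover {D : W ℝ} (hD : D ∈ NX) : ∃ l, Box (actW l D).1 := by
  have ha : 0 ≤ ip D.1 cF := by
    have h1 := hD.2.2.1 _ (.inr (.inl rfl))
    have h2 := hD.2.2.1 _ (.inr (.inr rfl))
    rw [toR_cE, ip_cE] at h1
    rw [toR_cR, ip_cR] at h2
    linarith
  have key : ∀ ε : ℝ, ∀ Q : Lam ℝ → Prop, 0 < ε → Q D.1 →
      (∀ L, Q L → ¬ Box L → ∃ i j, Q (sig j (sig i L)) ∧ (sig j (sig i L)).1 ≤ L.1 - ε) →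
      ∃ l, Box (actW l D).1 := fun ε Q hε h0 hs => by
    by_contra hc
    push Not at hc
    have : ∀ n : ℕ, ∃ l, actW l D ∈ NX ∧ Q (actW l D).1 ∧ (actW l D).1.1 ≤ D.1.1 - n * ε := by
      intro n
      induction n with
      | zero => exact ⟨[], hD, h0, by simp [actW]⟩
      | succ n ih =>
        obtain ⟨l, h1, h2, h3⟩ := ih
        obtain ⟨i, j, h4, h5⟩ := hs _ h2 (hc l)
        refine ⟨j :: i :: l, sig_NX j (sig_NX i h1), h4, h5.trans ?_⟩
        push_cast
        linarith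
    obtain ⟨n, hn⟩ := exists_nat_gt (D.1.1 / ε)
    obtain ⟨l, h1, -, h3⟩ := this n
    have := deg_nonneg h1.2.2.1
    rw [div_lt_iff₀ hε] at hn
    linarith
  rcases ha.eq_or_lt with ha | ha
  · refine by_contra fun hc => hc ?_
    obtain ⟨i, j, h⟩ : ∃ i j, 0 < D.1.2 (some i) - D.1.2 (some j) := by
      by_contra hn
      push Not at hn
      exact hc ⟨[], fun k l => (hn k l).trans (by change 0 ≤ 2 * ip D.1 cF; linarith)⟩
    have hij : j ≠ i := fun e => by simp [e] at h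
    refine key _ (fun L => ip L cF = 0 ∧ L.2 (some i) - L.2 (some j) =
      D.1.2 (some i) - D.1.2 (some j)) h ⟨ha.symm, rfl⟩ fun L hL _ => ⟨i, j, ⟨?_, ?_⟩, ?_⟩
    · rw [sig_cF, sig_cF, hL.1]
    · rw [(step hij L).2, hL.1, hL.2]
      ring
    · rw [(step hij L).1, hL.1, hL.2]
      linarith
  · refine key _ (fun L => ip L cF = ip D.1 cF) ha rfl fun L hL hn => ?_
    obtain ⟨i, j, h⟩ : ∃ i j, 2 * ip L cF < L.2 (some i) - L.2 (some j) := by
      simpa only [Box, not_forall, not_le] using hn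
    have hij : j ≠ i := fun e => by
      rw [e, hL] at h
      linarith
    refine ⟨i, j, by rw [sig_cF, sig_cF, hL], ?_⟩
    rw [(step hij L).1]
    linarith

theorem SS_sq {s : Lam ℤ} (h : s ∈ SS) : ∑ k, (s.1 - 3 * s.2 (some k)) = 3 ∧
    ∑ k, (s.1 - 3 * s.2 (some k)) ^ 2 = 6 * s.1 + 9 ∧ ∑ k, s.2 (some k) ^ 2 = s.1 ^ 2 + 1 := by
  obtain ⟨h0, h1, h2⟩ := h
  rw [ip_eq, h0] at h1
  rw [ip_cF] at h2
  simp only [Fin.sum_univ_succ, Fin.sum_univ_zero] at h1 h2 ⊢
  refine ⟨by linarith, ?_, by linarith⟩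
  linear_combination (-9) * h1 + 6 * s.1 * h2

theorem SS_lb {s : Lam ℤ} (h : s ∈ SS) : -2 ≤ s.1 := by
  have := Finset.sum_nonneg fun k (_ : k ∈ Finset.univ) => sq_nonneg (s.1 - 3 * s.2 (some k))
  rw [(SS_sq h).2.1] at this
  omega

theorem SS_fin (N : ℤ) : {s ∈ SS | s.1 ≤ N}.Finite := by
  refine ((Set.finite_Icc (-2) N).prod (Set.Finite.pi' fun _ : Q =>
    Set.finite_Icc (-(N ^ 2 + 5)) (N ^ 2 + 5))).subset fun s hs => ⟨⟨SS_lb hs.1, hs.2⟩, fun q => ?_⟩
  cases q with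
  | none =>
    rw [hs.1.1]
    constructor <;> nlinarith
  | some k =>
    have h1 := Finset.single_le_sum (fun k _ => sq_nonneg (s.2 (some k))) (Finset.mem_univ k)
    rw [(SS_sq hs.1).2.2] at h1
    have h2 := SS_lb hs.1
    have h3 : s.1 ^ 2 ≤ N ^ 2 + 4 := by
      rcases le_total 0 s.1 with h | h <;> nlinarith [hs.2]
    constructor <;> nlinarith [sq_nonneg (2 * s.2 (some k) - 1), sq_nonneg (2 * s.2 (some k) + 1)]

theorem GEN_fin : {c ∈ GEN | c.1 ≤ 450}.Finite := by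
  refine (((SS_fin 452).union ((SS_fin 452).image2 (fun s s' => s + s' - cE none)
    (SS_fin 452))).union (Set.toFinite {cE none, cR})).subset ?_
  rintro c ⟨(h | ⟨s, h, s', h', -, rfl⟩) | h, hc⟩
  · exact .inl (.inl ⟨h, by omega⟩)
  · have h1 := SS_lb h
    have h2 := SS_lb h'
    simp only [cE, Prod.fst_sub, Prod.fst_add] at hc
    exact .inl (.inr ⟨s, ⟨h, by omega⟩, s', ⟨h', by omega⟩, rfl⟩)
  · exact .inr h

theorem SS_low {L : Lam ℝ} (hL : Box L) {s : Lam ℤ} (h : s ∈ SS) :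
    L.2 (some 8) + ip L cF * (s.1 / 6 - 37) ≤ ip L (toR s) := by
  obtain ⟨h1, h2, -⟩ := SS_sq h
  have h1' : ∑ k, ((s.1 : ℝ) - 3 * s.2 (some k)) = 3 := by exact_mod_cast h1
  have h2' : ∑ k, ((s.1 : ℝ) - 3 * s.2 (some k)) ^ 2 = 6 * (s.1 : ℝ) + 9 := by
    exact_mod_cast h2
  have ha : 0 ≤ ip L cF := by linarith [hL 0 0]
  have h3 : ∑ k, -(2 * ip L cF * (((s.1 : ℝ) - 3 * s.2 (some k)) ^ 2 / 24 + 6)) ≤
      ∑ k, (L.2 (some k) - L.2 (some 8)) * ((s.1 : ℝ) - 3 * s.2 (some k)) :=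
    Finset.sum_le_sum fun k _ => by
      obtain ⟨u, hu⟩ : ∃ u, u = (s.1 : ℝ) - 3 * s.2 (some k) := ⟨_, rfl⟩
      rw [← hu]
      have a1 := hL k 8
      have a2 := hL 8 k
      rcases le_total 0 u with h | h
      · nlinarith [mul_nonneg ha (sq_nonneg (u - 12)), mul_nonneg h (sub_nonneg.2 a2)]
      · nlinarith [mul_nonneg ha (sq_nonneg (u + 12)), mul_nonneg (neg_nonneg.2 h) (sub_nonneg.2 a1)]
  have h4 : 3 * ip L (toR s) = ip L cF * s.1 + 3 * L.2 (some 8) +
      ∑ k, (L.2 (some k) - L.2 (some 8)) * ((s.1 : ℝ) - 3 * s.2 (some k)) := by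
    have e : ∀ k, (L.2 (some k) - L.2 (some 8)) * ((s.1 : ℝ) - 3 * s.2 (some k)) =
        L.2 (some k) * s.1 - 3 * (L.2 (some k) * s.2 (some k)) -
          L.2 (some 8) * ((s.1 : ℝ) - 3 * s.2 (some k)) := fun k => by ring
    rw [ip_eq L (toR s), ip_cF, Finset.sum_congr rfl fun k _ => e k, Finset.sum_sub_distrib,
      Finset.sum_sub_distrib, ← Finset.mul_sum, ← Finset.mul_sum, ← Finset.sum_mul, h1']
    simp only [toR, h.1]
    push_cast
    ring
  rw [Finset.sum_neg_distrib, ← Finset.mul_sum, Finset.sum_add_distrib, ← Finset.sum_div, h2'] at h3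
  simp only [Finset.sum_const, Finset.card_univ, Fintype.card_fin, nsmul_eq_mul] at h3
  push_cast at h3
  nlinarith

theorem NT_of {L : Lam ℝ} (hL : Box L) (h : ∀ c ∈ {c ∈ GEN | c.1 ≤ 450}, 0 ≤ ip L (toR c)) :
    L ∈ NT := fun c hc => by
  refine (le_or_gt c.1 450).elim (fun h' => h c ⟨hc, h'⟩) fun h' => ?_
  have ha : 0 ≤ ip L cF := by linarith [hL 0 0]
  have h1 := h _ ⟨.inl (.inl (cE_SS 8)), by simp [cE]⟩
  have h2 := h _ ⟨.inr (.inr rfl), by simp [cR]⟩
  rw [toR_cE, ip_cE] at h1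
  rw [toR_cR, ip_cR] at h2
  have h3 : (450 : ℝ) < c.1 := by exact_mod_cast h'
  rcases hc with (hc | ⟨s, hs, s', hs', -, rfl⟩) | rfl | rfl
  · nlinarith [SS_low hL hc]
  · have e : toR (s + s' - cE none) = toR s + toR s' - toR (cE none) := by
      simp only [toR, Prod.ext_iff, funext_iff]
      simp
    have := SS_low hL hs
    have := SS_low hL hs'
    rw [e, ip_comm, ip_sub, ip_add, toR_cE, ip_comm _ L, ip_comm _ L, ip_comm _ L, ip_cE]
    simp only [cE, Prod.fst_sub, Prod.fst_add, sub_zero, Int.cast_add] at h3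
    nlinarith
  · simp [cE] at h'
  · simp [cR] at h'

theorem rp_univ : RP LW Set.univ := by
  classical
  have h : Submodule.span ℝ (Set.range toRW) = ⊤ := eq_top_iff.2 fun x _ => by
    have e : x = x.1.1 • toRW ((1, 0), 0, 0) + ∑ q, x.1.2 q • toRW ((0, Pi.single q 1), 0, 0) +
        x.2.1 • toRW (0, 1, 0) +
        ∑ i, ∑ j, x.2.2 i j • toRW (0, 0, Pi.single i (Pi.single j 1)) := by
      simp [Prod.ext_iff, funext_iff, toRW, toR, Prod.fst_sum, Prod.snd_sum, Finset.sum_apply,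
        Pi.single_apply, ite_apply, apply_ite (Int.cast : ℤ → ℝ), -Fintype.sum_option]
    have m : ∀ (c : ℝ) D, c • toRW D ∈ Submodule.span ℝ (Set.range toRW) := fun c D =>
      Submodule.smul_mem _ _ (Submodule.subset_span ⟨D, rfl⟩)
    rw [e]
    exact add_mem (add_mem (add_mem (m _ _) (sum_mem fun _ _ => m _ _)) (m _ _))
      (sum_mem fun _ _ => sum_mem fun _ _ => m _ _)
  obtain ⟨S, h1, h2⟩ := (Submodule.fg_span_iff_fg_span_finset_subset (R := ℝ)
    (Set.range toRW)).1 (h ▸ Module.Finite.fg_top)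
  have hc := isCone_cone ((S ∪ S.image Neg.neg : Finset (W ℝ)) : Set (W ℝ))
  refine ⟨S ∪ S.image Neg.neg, fun x hx => ?_, Set.eq_univ_of_forall fun x => ?_⟩
  · rcases Finset.mem_union.1 hx with hx | hx
    · exact AddSubgroup.subset_closure (h1 hx)
    · obtain ⟨y, hy, rfl⟩ := Finset.mem_image.1 hx
      exact neg_mem (AddSubgroup.subset_closure (h1 hy))
  · have hx : x ∈ Submodule.span ℝ (S : Set (W ℝ)) := h2 ▸ h ▸ Submodule.mem_top
    refine And.left (b := -x ∈ _) (Submodule.span_induction (fun y hy => ⟨subset_cone _ ?_,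
      subset_cone _ ?_⟩) ⟨hc.zero, neg_zero (G := W ℝ) ▸ hc.zero⟩ (fun y z _ _ a b => ⟨hc.add _ a.1 _ b.1,
        neg_add y z ▸ hc.add _ a.2 _ b.2⟩) (fun c y _ a => ?_) hx)
    · exact Finset.mem_union_left _ hy
    · exact Finset.mem_union_right _ (Finset.mem_image_of_mem _ hy)
    · rcases le_total 0 c with h0 | h0
      · exact ⟨hc.smul c h0 _ a.1, smul_neg c y ▸ hc.smul c h0 _ a.2⟩
      · exact ⟨neg_smul_neg c y ▸ hc.smul _ (neg_nonneg.2 h0) _ a.2,
          neg_smul c y ▸ hc.smul _ (neg_nonneg.2 h0) _ a.1⟩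

/-- The degree on a fixed integral class. -/
def lin (Z : W ℤ) : W ℝ →ₗ[ℝ] ℝ where
  toFun D := ipW D (toRW Z)
  map_add' D D' := by
    simp only [ipW, Prod.fst_add, Prod.snd_add, ip_add, Pi.add_apply, add_mul,
      Finset.sum_add_distrib]
    ring
  map_smul' c D := by
    simp only [ipW, Prod.smul_fst, Prod.smul_snd, ip_smul, Pi.smul_apply, smul_eq_mul, mul_assoc,
      ← Finset.mul_sum, RingHom.id_apply]
    ring

theorem rp_fam {S : Set (W ℝ)} (hS : RP LW S) {ι : Type} {A : Set ι} (hA : A.Finite) (Z : ι → W ℤ)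
    (g : ι → W ℝ → ℝ) (h : ∀ t D, ipW D (toRW (Z t)) = g t D) :
    RP LW (S ∩ {D | ∀ t ∈ A, 0 ≤ g t D}) := by
  have := hS.inter_fin (hA.image fun t => lin (Z t)) (by
    rintro _ ⟨t, -, rfl⟩ x hx
    induction hx using AddSubgroup.closure_induction with
    | mem x hx =>
      obtain ⟨D, rfl⟩ := hx
      exact ⟨ipW D (Z t), by simp [lin, ipW, toRW, ip_toR]⟩
    | zero => exact ⟨0, by simp⟩
    | add x y _ _ a b =>
      obtain ⟨a, ha⟩ := a
      obtain ⟨b, hb⟩ := b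
      exact ⟨a + b, by simp [ha, hb]⟩
    | neg x _ a =>
      obtain ⟨a, ha⟩ := a
      exact ⟨-a, by simp [ha]⟩)
  refine Eq.mp (congrArg _ (congrArg _ (Set.ext fun D => ⟨fun a t ht => ?_, ?_⟩))) this
  · exact h t D ▸ a _ ⟨t, ht, rfl⟩
  · rintro a _ ⟨t, ht, rfl⟩
    exact (a t ht).trans_eq (h t D).symm

theorem rp_box : RP LW (NX ∩ {D | Box D.1}) := by
  have z : toR 0 = 0 := Prod.ext (by simp [toR]) (funext fun q => by simp [toR])
  have h1 := rp_fam rp_univ Set.finite_univ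
    (fun t : Fin 2 × Fin 4 => (0, 0, Pi.single t.1 (Pi.single t.2 (-1)))) (fun t D => D.2.2 t.1 t.2)
    fun t D => by simp [ipW, toRW, z, ip, Pi.single_apply, ite_apply, apply_ite (Int.cast : ℤ → ℝ)]
  have h2 := rp_fam h1 Set.finite_univ (fun i : Fin 2 => (0, 1, Pi.single i 1))
    (fun i D => D.2.1 - ∑ j, D.2.2 i j) fun t D => by
      simp [ipW, toRW, z, ip, Pi.single_apply, ite_apply, apply_ite (Int.cast : ℤ → ℝ)]
  have h3 := rp_fam h2 GEN_fin (fun c => (c, 0, 0)) (fun c D => ip D.1 (toR c))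
    fun t D => by simp [ipW, toRW]
  have h4 := rp_fam h3 (GEN_fin.prod Set.finite_univ)
    (fun t : Lam ℤ × Fin 4 => (t.1, 0, fun i => Pi.single t.2 (ip (cC i) t.1)))
    (fun t D => ip (D.1 - ∑ i, D.2.2 i t.2 • cC i) (toR t.1)) fun t D => by
      simp [ipW, toRW, ip_sub, ip_add, ip_smul, Pi.single_apply, apply_ite (Int.cast : ℤ → ℝ),
        ← ip_toR, toR_cC]
  have h5 := rp_fam h4 Set.finite_univ (fun t : Fin 9 × Fin 9 =>
    (cF + cF - cE (some t.1) + cE (some t.2), 0, 0))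
    (fun t D => 2 * ip D.1 cF - (D.1.2 (some t.1) - D.1.2 (some t.2))) fun t D => by
      have e : toR (cF + cF - cE (some t.1) + cE (some t.2)) =
          toR cF + toR cF - toR (cE (some t.1)) + toR (cE (some t.2)) := by
        simp only [toR, Prod.ext_iff, funext_iff]
        simp
      simp only [ipW, toRW, e, toR_cF, toR_cE, ip_comm D.1, ip_add, ip_sub]
      simp [ip_comm (cE _), ip_cE]
      ring
  refine Eq.mp (congrArg _ (Set.ext fun D => ⟨?_, ?_⟩)) h5
  · rintro ⟨⟨⟨⟨⟨-, a1⟩, a2⟩, a3⟩, a4⟩, a5⟩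
    have b : Box D.1 := fun k l => sub_nonneg.1 (a5 (k, l) trivial)
    refine ⟨⟨fun i j => a1 (i, j) trivial, fun i => sub_nonneg.1 (a2 i trivial), NT_of b a3,
      fun j => NT_of (fun k l => ?_) fun c hc => a4 (c, j) ⟨hc, trivial⟩⟩, b⟩
    have := b k l
    have e1 : ∀ i, ip (cC i : Lam ℝ) cF = 0 := fun i => by
      rw [ip_cF]
      fin_cases i <;> simp [cC, cF, cR] <;> norm_num
    have e2 : ∀ i k, (cC i : Lam ℝ).2 (some k) = 1 := fun i k => by fin_cases i <;> rfl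
    simp only [Fin.sum_univ_two, ip_sub, ip_add, ip_smul, e1, e2, Prod.snd_sub, Prod.snd_add,
      Prod.smul_snd, Pi.sub_apply, Pi.add_apply, Pi.smul_apply, smul_eq_mul]
    linarith
  · rintro ⟨⟨a1, a2, a3, a4⟩, a5⟩
    exact ⟨⟨⟨⟨⟨trivial, fun t _ => a1 _ _⟩, fun i _ => sub_nonneg.2 (a2 i)⟩, fun c hc => a3 c hc.1⟩,
      fun t ht => a4 _ _ ht.1.1⟩, fun t _ => sub_nonneg.2 (a5 _ _)⟩

theorem orbit : (Set.range fun l => actW l (((cH : Lam ℝ), 0, 0) : W ℝ)).Infinite := by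
  refine .of_image (fun D => D.1.2 (some 1) - D.1.2 (some 0))
    (Set.infinite_of_injective_forall_mem (f := fun n : ℕ => -(6 * n : ℝ))
      (fun a b h => by simpa using h) fun n => ?_)
  suffices ∃ l, ip (actW l (((cH : Lam ℝ), 0, 0) : W ℝ)).1 cF = 3 ∧
      (actW l (((cH : Lam ℝ), 0, 0) : W ℝ)).1.2 (some 1) -
        (actW l (((cH : Lam ℝ), 0, 0) : W ℝ)).1.2 (some 0) = -(6 * n : ℝ) from
    let ⟨l, h⟩ := this; ⟨_, ⟨l, rfl⟩, h.2⟩
  induction n with
  | zero => exact ⟨[], by simp [actW, ip_cF, cH], by simp [actW, cH]⟩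
  | succ n ih =>
    obtain ⟨l, h1, h2⟩ := ih
    refine ⟨0 :: 1 :: l, (sig_cF _ _).trans ((sig_cF _ _).trans h1),
      (step (by decide) (actW l (((cH : Lam ℝ), 0, 0) : W ℝ)).1).2.trans ?_⟩
    rw [h1, h2]
    push_cast
    ring

end LatB

theorem latB_stmt : LatBStmt :=
  ⟨⟨_, {D | LatB.Box D.1}, LatB.rp_box, Set.inter_subset_left, subset_rfl,
    fun _ h => LatB.cover h⟩, LatB.orbit⟩

end Pool.Agent.MP_20d318_ag.BV
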