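import Pool.Agent.MP_20d318_ag.BV.Poly2
import Mathlib.RingTheory.Nullstellensatz
import Mathlib.RingTheory.MvPolynomial.EulerIdentity
import Mathlib.RingTheory.MvPolynomial.IrreducibleQuadratic
import Mathlib.Tactic.Polynomial.Basic

-- ======== part 0: formerly Pool.Agent.MP_20d318_ag.BV.BaseB1
section MrgPart0

/-! Closures of graphs and projections. -/

set_option autoImplicit false

namespace Pool.Agent.MP_20d318_ag.BV

open Pool.Agent.MP_79c67d_ag Pool.Agent.MP_20d318_ag.AG MvPolynomial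

variable {k K M L Λ Λ' : Type} [Field k] [Field K] [Field M] [Field L] [Algebra k K] [Algebra k M]
  [Algebra k L]

namespace B1

variable {S : Set K} {O : Subalgebra k K}

theorem exists_gen (h : Prin S O) : ∃ b ∈ S, ∀ a ∈ S, a / b ∈ O := by
  obtain ⟨γ, h1, b, hb, hu⟩ := h
  refine ⟨b, hb, fun a ha => ?_⟩
  have hγ : γ ≠ 0 := fun h0 => hu.1 (by simp [h0])
  have := hu.div_mem (h1 a ha)
  rwa [div_div_div_cancel_right₀ hγ] at this

theorem prin_of {b : K} (hb : b ∈ S) (h0 : b ≠ 0) (h : ∀ a ∈ S, a / b ∈ O) : Prin S O :=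
  ⟨b, h, b, hb, by rw [div_self h0]; exact isU_one⟩

theorem val_prin (hV : IsVal O) (hS : S.Finite) (hne : S.Nonempty) (h : ∀ a ∈ S, a ≠ 0) :
    Prin S O := by
  obtain ⟨b, hb, hm⟩ := Set.exists_max_image S hV.vs.valuation hS hne
  refine prin_of hb (h b hb) fun a ha => ?_
  have h1 : hV.vs.valuation (a / b) ≤ 1 := by
    rw [map_div₀]
    exact div_le_one_of_le₀ (hm a ha) zero_le
  exact (hV.vs.valuation_le_one_iff _).1 h1

end B1

section mp

variable {S : Λ → Set K} {S' : Λ' → Set K} {O O' R W : Subalgebra k K} {j : Λ → K} {G : Set K}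

theorem mem_fr {f : K} : f ∈ fr R O ↔ ∃ a ∈ R, ∃ b ∈ R, IsU O b ∧ f = a / b := Iff.rfl
theorem le_fr : R ≤ fr R O := fun a ha => ⟨a, ha, 1, R.one_mem, isU_one, by simp⟩
theorem fr_le (h : R ≤ O) : fr R O ≤ O := by
  rintro _ ⟨a, ha, b, -, hu, rfl⟩
  exact hu.div_mem (h ha)
theorem inv_mem_fr {u : K} (h : u ∈ fr R O) (hR : R ≤ O) (hu : IsU O u) : u⁻¹ ∈ fr R O := by
  obtain ⟨a, ha, b, hb, hb', rfl⟩ := h
  have h1 := hu.mul hb'
  rw [div_mul_cancel₀ _ hb'.1] at h1
  exact ⟨b, hb, a, ha, ⟨h1.1, hR ha, h1.2.2⟩, by rw [inv_div]⟩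
theorem div_mem_fr {a u : K} (ha : a ∈ fr R O) (h : u ∈ fr R O) (hR : R ≤ O) (hu : IsU O u) :
    a / u ∈ fr R O := by
  rw [div_eq_mul_inv]
  exact mul_mem ha (inv_mem_fr h hR hu)
theorem Pts_of_fr (h : O ∈ Pts (Algebra.adjoin k G)) (hR : R ≤ O) (hG : ∀ g ∈ G, g ∈ fr R O) :
    O ∈ Pts R := by
  refine ⟨h.1, hR, fun f hf => ?_⟩
  obtain ⟨a, ha, b, hb, hu, rfl⟩ := h.2.2 f hf
  have h1 : Algebra.adjoin k G ≤ fr R O := Algebra.adjoin_le hG
  exact div_mem_fr (h1 ha) (h1 hb) hR hu
theorem Pts_ext (h1 : O ∈ Pts R) (h2 : O' ∈ Pts R) (h : ∀ b ∈ R, b ∈ mx O ↔ b ∈ mx O') :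
    O = O' := by
  refine le_antisymm (fun f hf => ?_) fun f hf => ?_
  · obtain ⟨a, ha, b, hb, hu, rfl⟩ := h1.2.2 f hf
    exact (isU_of_not_mx (h2.2.1 hb) fun hm => hu.not_mx ((h b hb).2 hm)).div_mem (h2.2.1 ha)
  · obtain ⟨a, ha, b, hb, hu, rfl⟩ := h2.2.2 f hf
    exact (isU_of_not_mx (h1.2.1 hb) fun hm => hu.not_mx ((h b hb).1 hm)).div_mem (h1.2.1 ha)
/-- A point over a point of the chart `G`. -/
theorem Pts_up (ι : M →ₐ[k] K) {T : Subalgebra k M} {H : Set M} (hT : T ∈ Pts (Algebra.adjoin k H))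
    (hO : O ∈ Pts (Algebra.adjoin k (ι '' T ∪ G))) : O ∈ Pts (Algebra.adjoin k (ι '' H ∪ G)) := by
  have h1 : T ≤ O.comap ι := fun a ha =>
    hO.2.1 (Algebra.subset_adjoin (Or.inl ⟨a, ha, rfl⟩))
  have h2 : Algebra.adjoin k H ≤ (Algebra.adjoin k (ι '' H ∪ G)).comap ι :=
    Algebra.adjoin_le fun a ha => Algebra.subset_adjoin (Or.inl ⟨a, ha, rfl⟩)
  refine Pts_of_fr hO (Algebra.adjoin_le ?_) ?_
  · rintro _ (⟨a, ha, rfl⟩ | h)
    · exact h1 (hT.2.1 (Algebra.subset_adjoin ha))
    · exact hO.2.1 (Algebra.subset_adjoin (Or.inr h))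
  · rintro _ (⟨f, hf, rfl⟩ | h)
    · obtain ⟨a, ha, b, hb, hu, rfl⟩ := hT.2.2 f hf
      exact ⟨ι a, h2 ha, ι b, h2 hb, (isU_comap ι).1 (hu.mono h1), map_div₀ ι a b⟩
    · exact le_fr (Algebra.subset_adjoin (Or.inr h))
theorem cht_le : cht k S j ≤ O ↔ ∀ l, ∀ a ∈ S l, a / j l ∈ O := by
  rw [cht, Algebra.adjoin_le_iff]
  refine ⟨fun h l a ha => h (Set.mem_iUnion.2 ⟨l, a, ha, rfl⟩), fun h f hf => ?_⟩
  obtain ⟨l, a, ha, rfl⟩ := Set.mem_iUnion.1 hf
  exact h l a ha
theorem mp_loc (hO : O ∈ mp k S) : IsLocalRing O := by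
  obtain ⟨_, -, h⟩ := hO
  exact h.1
theorem mp_prin (hF : Fam k S) (hO : O ∈ mp k S) (l : Λ) : Prin (S l) O := by
  obtain ⟨j, hj, h⟩ := hO
  exact B1.prin_of (hj l) (hF.nz l _ (hj l)) (cht_le.1 h.2.1 l)
theorem mp_pts (hF : Fam k S) (hO : O ∈ mp k S) (hj : ∀ l, j l ∈ S l) (hle : cht k S j ≤ O) :
    O ∈ Pts (cht k S j) := by
  obtain ⟨i, hi, h⟩ := hO
  refine Pts_of_fr h hle fun g hg => ?_
  obtain ⟨l, a, ha, rfl⟩ := Set.mem_iUnion.1 hg
  have h0 := hF.nz l _ (hj l)
  refine ⟨a / j l, cht_le.1 le_rfl l a ha, i l / j l, cht_le.1 le_rfl l _ (hi l),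
    ⟨div_ne_zero (hF.nz l _ (hi l)) h0, cht_le.1 hle l _ (hi l), ?_⟩,
    (div_div_div_cancel_right₀ h0 _ _).symm⟩
  rw [inv_div]
  exact cht_le.1 h.2.1 l _ (hj l)
/-- The criterion for charts: choose generators `j l`, all ratios are fractions in `R`. -/
theorem mp_chart (hF : Fam k S) (hO : O ∈ mp k S) (hR : R ≤ O)
    (h : ∀ l, ∃ b ∈ S l, ∀ a ∈ S l, a / b ∈ fr R O) : O ∈ Pts R := by
  choose j hj h using h
  refine Pts_of_fr (mp_pts hF hO hj (cht_le.2 fun l a ha => fr_le hR (h l a ha))) hR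
    fun g hg => ?_
  obtain ⟨l, a, ha, rfl⟩ := Set.mem_iUnion.1 hg
  exact h l a ha
theorem exists_mp_dom (hW : IsLocalRing W) (h : ∀ l, Prin (S l) W) :
    ∃ O ∈ mp k S, Dom O W := by
  choose j hj h using fun l => B1.exists_gen (h l)
  obtain ⟨O, h1, h2⟩ := exists_ctr hW (cht_le.2 h)
  exact ⟨O, ⟨j, hj, h1⟩, h2⟩

theorem B1.cht_le_of (hF : Fam k S) {i : Λ → K} (hi : ∀ l, i l ∈ S l) (hj : ∀ l, j l ∈ S l)
    (h1 : cht k S i ≤ O) (h2 : cht k S j ≤ W) (hd : Dom O W) : cht k S j ≤ O := by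
  refine cht_le.2 fun l a ha => ?_
  have h0 := hF.nz l _ (hi l)
  have h3 := cht_le.1 h1 l _ (hj l)
  have h4 : IsU O (j l / i l) := hd.2 _ h3 ⟨div_ne_zero (hF.nz l _ (hj l)) h0, hd.1 h3, by
    rw [inv_div]; exact cht_le.1 h2 l _ (hi l)⟩
  have := h4.div_mem (cht_le.1 h1 l a ha)
  rwa [div_div_div_cancel_right₀ h0] at this

theorem B1.frac (hF : Fam k S) (hj : ∀ l, j l ∈ S l) : Frac (cht k S j) := fun f => by
  have h1 : (⊤ : IntermediateField k K) ≤
      IntermediateField.adjoin k (⋃ l, (fun a => a / j l) '' S l) := by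
    rw [← hF.top, IntermediateField.adjoin_le_iff]
    rintro _ ⟨l, a, ha, b, hb, rfl⟩
    rw [← div_div_div_cancel_right₀ (hF.nz l _ (hj l)) a b]
    exact div_mem (IntermediateField.subset_adjoin _ _ (Set.mem_iUnion.2 ⟨l, a, ha, rfl⟩))
      (IntermediateField.subset_adjoin _ _ (Set.mem_iUnion.2 ⟨l, b, hb, rfl⟩))
  obtain ⟨a, ha, b, hb, rfl⟩ := IntermediateField.mem_adjoin_iff_div.1
    (h1 (IntermediateField.mem_top (x := f)))
  by_cases h0 : b = 0
  · exact ⟨0, zero_mem _, 1, one_mem _, one_ne_zero, by simp [h0]⟩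
  · exact ⟨a, ha, b, hb, h0, rfl⟩

theorem fine_mp [Finite Λ] (hF : Fam k S) : Fine (mp k S) := by
  have hfin : ∀ j : Λ → K, (⋃ l, (fun a => a / j l) '' S l).Finite := fun j =>
    Set.finite_iUnion fun l => (hF.fin l).image _
  refine ⟨⟨fun O hO => mp_loc hO, ?_, fun V hV => exists_mp_dom hV.isLocalRing fun l =>
    B1.val_prin hV (hF.fin l) (hF.ne l) (hF.nz l), ?_⟩, ?_⟩
  · rintro O₁ ⟨i, hi, h1⟩ O₂ ⟨j, hj, h2⟩ W - d1 d2
    exact Pts_eq h1 h2 (B1.cht_le_of hF hj hi h2.2.1 (h1.2.1.trans d1.1) d2)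
      (B1.cht_le_of hF hi hj h1.2.1 (h2.2.1.trans d2.1) d1) d1 d2
  · rintro O ⟨j, hj, h⟩
    exact ⟨_, hfin j, h, fun O' h' => ⟨j, hj, h'⟩⟩
  · refine ⟨(fun j : Λ → K => ⋃ l, (fun a => a / j l) '' S l) '' {j | ∀ l, j l ∈ S l},
      (Set.Finite.pi' hF.fin).image _, ?_, ?_⟩
    · rintro _ ⟨j, hj, rfl⟩
      exact ⟨hfin j, B1.frac hF hj⟩
    · rw [Set.biUnion_image]
      ext O
      simp only [Set.mem_iUnion, exists_prop]
      exact Iff.rfl
theorem mp_local (hO : O ∈ Pts R) (hP : ∀ l, Prin (S l) O)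
    (h : ∀ O' ∈ mp k S, Dom O' O → R ≤ O') : O ∈ mp k S := by
  obtain ⟨O', h1, h2⟩ := exists_mp_dom hO.1 hP
  rw [le_antisymm (Pts_le hO (h O' h1 h2) le_rfl h2) h2.1]
  exact h1

theorem B1.mp_sub [Finite Λ] (hF : Fam k S) (h : ∀ O ∈ mp k S, ∀ l, Prin (S' l) O)
    (h' : ∀ O ∈ mp k S', ∀ l, Prin (S l) O) : mp k S ⊆ mp k S' := fun O hO => by
  obtain ⟨O', h1, h2⟩ := exists_mp_dom (mp_loc hO) (h O hO)
  obtain ⟨O'', h3, h4⟩ := exists_mp_dom (mp_loc h1) (h' O' h1)
  have h5 := (fine_mp hF).sep O'' h3 O hO O (mp_loc hO) (h4.trans h2) (Dom.refl O)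
  rw [le_antisymm (h5 ▸ h4.1 : O ≤ O') h2.1]
  exact h1

theorem mp_eq [Finite Λ] [Finite Λ'] (hF : Fam k S) (hF' : Fam k S')
    (h : ∀ O ∈ mp k S, ∀ l, Prin (S' l) O) (h' : ∀ O ∈ mp k S', ∀ l, Prin (S l) O) :
    mp k S = mp k S' :=
  (B1.mp_sub hF h h').antisymm (B1.mp_sub hF' h' h)

theorem B1.cht_map (φ : K →ₐ[k] K) (j : Λ → K) :
    cht k (fun l => φ '' S l) (fun l => φ (j l)) = (cht k S j).map φ := by
  rw [cht, cht, AlgHom.map_adjoin, Set.image_iUnion]
  congr 1
  refine Set.iUnion_congr fun l => ?_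
  rw [Set.image_image, Set.image_image]
  exact Set.image_congr fun a _ => (map_div₀ φ a (j l)).symm

theorem B1.Pts_comap (φ : K ≃ₐ[k] K) (R : Subalgebra k K) :
    O ∈ Pts (R.map (φ : K →ₐ[k] K)) ↔ O.comap (φ : K →ₐ[k] K) ∈ Pts R := by
  refine ⟨fun hO => ⟨isLocalRing_comap _ hO.1, Subalgebra.map_le.1 hO.2.1, fun f hf => ?_⟩,
    fun hO => ⟨?_, Subalgebra.map_le.2 hO.2.1, fun f hf => ?_⟩⟩
  · obtain ⟨_, ⟨a, ha, rfl⟩, _, ⟨b, hb, rfl⟩, hu, e⟩ := hO.2.2 _ hf
    exact ⟨a, ha, b, hb, (isU_comap _).2 hu, φ.injective (by simpa using e)⟩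
  · have := isLocalRing_comap (φ.symm : K →ₐ[k] K) hO.1
    rwa [show (O.comap (φ : K →ₐ[k] K)).comap (φ.symm : K →ₐ[k] K) = O by ext; simp] at this
  · obtain ⟨a, ha, b, hb, hu, e⟩ := hO.2.2 (φ.symm f) (by simpa using hf)
    exact ⟨φ a, ⟨a, ha, rfl⟩, φ b, ⟨b, hb, rfl⟩, (isU_comap _).1 hu, by
      rw [← map_div₀, ← e]; simp⟩

theorem mp_comap (φ : K ≃ₐ[k] K) :
    O ∈ mp k (fun l => φ '' S l) ↔ O.comap (φ : K →ₐ[k] K) ∈ mp k S := by
  constructor
  · rintro ⟨j, hj, h⟩
    choose i hi he using hj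
    obtain rfl : j = fun l => φ (i l) := funext fun l => (he l).symm
    refine ⟨i, hi, (B1.Pts_comap φ _).1 ?_⟩
    rw [← B1.cht_map]
    exact h
  · rintro ⟨j, hj, h⟩
    refine ⟨fun l => φ (j l), fun l => ⟨_, hj l, rfl⟩, ?_⟩
    have := (B1.Pts_comap φ _).2 h
    rw [← B1.cht_map] at this
    exact this

end mp

section pr

variable {ι : M →ₐ[k] K} {T : Set (Subalgebra k M)} {X : Set (Subalgebra k K)}
  {O O' : Subalgebra k K} {R : Subalgebra k M} {f : Subalgebra k M → M}

theorem pr_spec (h : ∃ R ∈ T, Dom R (O.comap ι)) : pr ι T O ∈ T ∧ Dom (pr ι T O) (O.comap ι) :=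
  Classical.epsilon_spec h
theorem Maps.mem (h : Maps ι X T) (hO : O ∈ X) : pr ι T O ∈ T := (pr_spec (h O hO)).1
theorem Maps.dom (h : Maps ι X T) (hO : O ∈ X) : Dom (pr ι T O) (O.comap ι) := (pr_spec (h O hO)).2
theorem Maps.mem_up (h : Maps ι X T) (hO : O ∈ X) {a : M} (ha : a ∈ pr ι T O) : ι a ∈ O :=
  (h.dom hO).1 ha
theorem Maps.isU_up (h : Maps ι X T) (hO : O ∈ X) {a : M} (ha : IsU (pr ι T O) a) : IsU O (ι a) :=
  (isU_comap ι).1 (ha.mono (h.dom hO).1)
theorem Maps.mx_up (h : Maps ι X T) (hO : O ∈ X) {a : M} (ha : a ∈ pr ι T O) :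
    ι a ∈ mx O ↔ a ∈ mx (pr ι T O) :=
  ⟨fun hm => mx_of_le (h.dom hO).1 ha ((mem_mx_comap ι).2 hm),
    fun hm => (mem_mx_comap ι).1 ((h.dom hO).mx hm)⟩
theorem pr_eq (hT : Good T) (hO : IsLocalRing O) (hR : R ∈ T) (hd : Dom R (O.comap ι)) :
    pr ι T O = R :=
  hT.sep _ (pr_spec ⟨R, hR, hd⟩).1 R hR _ (isLocalRing_comap ι hO) (pr_spec ⟨R, hR, hd⟩).2 hd
theorem pr_dom (hT : Good T) (h : Maps ι X T) (hO : O ∈ X) (hl : IsLocalRing O') (hd : Dom O O') :
    pr ι T O' = pr ι T O :=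
  pr_eq hT hl (h.mem hO) ((h.dom hO).trans (hd.comap ι))
theorem pr_mono (hT : Good T) (hX : Good X) (h : Maps ι X T) (hO : O ∈ X) (hO' : O' ∈ X)
    (hle : O ≤ O') : pr ι T O ≤ pr ι T O' := by
  obtain ⟨R, h1, h2⟩ := exists_ctr (isLocalRing_comap ι (hX.loc O' hO'))
    (show pr ι T O ≤ O'.comap ι from fun a ha => hle (h.mem_up hO ha))
  rw [pr_eq hT (hX.loc O' hO') (hT.pts (h.mem hO) h1) h2]
  exact h1.2.1
theorem isCart_up (hT : Good T) (hX : Good X) (h : Maps ι X T) (hf : IsCart T f) :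
    IsCart X (up ι T f) := fun O hO => by
  classical
  obtain ⟨A, h1, h2⟩ := hf _ (h.mem hO)
  obtain ⟨G, hG, h3, h4⟩ := hT.fg _ (h.mem hO)
  choose! n hn d hd hu he using h3.2.2
  refine ⟨hG.toFinset.image ι ∪ A.image fun a => ι (d a)⁻¹, fun a ha => ?_, fun O' hO' h5 => ?_⟩
  · rcases Finset.mem_union.1 ha with ha | ha
    · obtain ⟨g, hg, rfl⟩ := Finset.mem_image.1 ha
      exact h.mem_up hO (h3.2.1 (Algebra.subset_adjoin (hG.mem_toFinset.1 hg)))
    · obtain ⟨b, hb, rfl⟩ := Finset.mem_image.1 ha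
      exact h.mem_up hO (hu b (h1 b hb)).2.2
  · have h6 : Algebra.adjoin k G ≤ O'.comap ι := Algebra.adjoin_le fun g hg =>
      h5 _ (Finset.mem_union_left _ (Finset.mem_image_of_mem _ (hG.mem_toFinset.2 hg)))
    obtain ⟨R, h7, h8⟩ := exists_ctr (isLocalRing_comap ι (hX.loc O' hO')) h6
    have h9 := pr_eq hT (hX.loc O' hO') (h4 h7) h8
    have h10 : IsU (pr ι T O') (f (pr ι T O') / f (pr ι T O)) := by
      refine h2 _ (h.mem hO') fun a ha => ?_
      have hb := h1 a ha
      rw [h9, he a hb]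
      exact (h8.2 _ (h7.2.1 (hd a hb)) ⟨(hu a hb).1, h6 (hd a hb),
        h5 _ (Finset.mem_union_right _ (Finset.mem_image_of_mem _ ha))⟩).div_mem (h7.2.1 (hn a hb))
    have := h.isU_up hO' h10
    rwa [map_div₀] at this

/-- The composition of a curve with the projection. -/
noncomputable def B1.proj (hT : Good T) (hX : Good X) (h : Maps ι X T) (ν : Curve X) :
    Curve T where
  L := ν.L
  gen := pr ι T ν.gen
  gen_mem := h.mem ν.gen_mem
  ρ := ν.ρ.comp ((ι.comp (pr ι T ν.gen).val).codRestrict ν.gen fun u => h.mem_up ν.gen_mem u.2)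
  ρ_loc u hu := (h.dom ν.gen_mem).2 u u.2
    ((isU_comap ι).2 (ν.ρ_loc ⟨ι u, h.mem_up ν.gen_mem u.2⟩ hu))
  pt P := pr ι T (ν.pt P)
  pt_mem P := h.mem (ν.pt_mem P)
  pt_le P := pr_mono hT hX h (ν.pt_mem P) ν.gen_mem (ν.pt_le P)
  pt_reg P u hu := ν.pt_reg P ⟨ι u, h.mem_up ν.gen_mem u.2⟩ (h.mem_up (ν.pt_mem P) hu)
  pt_loc P u hu hv := (h.dom (ν.pt_mem P)).2 u hu ((isU_comap ι).2
    (ν.pt_loc P ⟨ι u, h.mem_up ν.gen_mem u.2⟩ (h.mem_up (ν.pt_mem P) hu) hv))

theorem B1.ev_proj (hT : Good T) (hX : Good X) (h : Maps ι X T) (ν : Curve X) {a : M}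
    (ha : a ∈ pr ι T ν.gen) : (B1.proj hT hX h ν).ev a = ν.ev (ι a) :=
  (evO_of_mem (B1.proj hT hX h ν).ρ ha).trans (evO_of_mem ν.ρ (h.mem_up ν.gen_mem ha)).symm

/-- The image of a curve. -/
theorem exists_proj (hT : Good T) (hX : Good X) (h : Maps ι X T) (ν : Curve X) :
    ∃ ν' : Curve T, ν'.gen = pr ι T ν.gen ∧ ∀ f, IsCart T f → ν.deg (up ι T f) = ν'.deg f := by
  refine ⟨B1.proj hT hX h ν, rfl, fun f hf => ?_⟩
  unfold Curve.deg
  refine finsum_congr fun P => ?_
  have h1 := (hf.unit (h.mem (ν.pt_mem P)) (h.mem ν.gen_mem)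
    (pr_mono hT hX h (ν.pt_mem P) ν.gen_mem (ν.pt_le P))).2.1
  have h2 := B1.ev_proj hT hX h ν h1
  rw [map_div₀] at h2
  exact congrArg P.ord h2.symm

/-- Over a rational point all points of a curve have the same image. -/
theorem pr_pt (hT : Good T) (hX : Good X) (h : Maps ι X T) (ν : Curve X)
    (hr : RatPt (pr ι T ν.gen)) (P : Place k ν.L) : pr ι T (ν.pt P) = pr ι T ν.gen := by
  have _ := hX
  have hl := preO_local ν.locHom P
  rw [← pr_dom hT h (ν.pt_mem P) hl (ν.dom_preO P)]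
  refine pr_eq hT hl (h.mem ν.gen_mem) ((h.dom ν.gen_mem).of_le (fun a ha => ?_)
    fun a ha => (mem_preO.1 ha).1)
  obtain ⟨c, hc⟩ := hr a ha
  have h1 := h.mem_up ν.gen_mem ha
  have h2 := (ν.locHom.eq_zero_iff (h.mem_up ν.gen_mem hc.1)).2 ((h.mx_up ν.gen_mem hc.1).2 hc)
  rw [map_sub, AlgHom.commutes, evO_sub _ h1 (ν.gen.algebraMap_mem c), evO_const,
    sub_eq_zero] at h2
  exact (mem_preO (u := ι a)).2 ⟨h1, by rw [h2]; exact P.triv c⟩

end pr

end Pool.Agent.MP_20d318_ag.BV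

end MrgPart0

-- ======== part 1: formerly Pool.Agent.MP_20d318_ag.BV.SetC
section MrgPart1

-- ======== part 0: formerly Pool.Agent.MP_20d318_ag.BV.Poly1
section MrgPart0

/-! Cubic forms and their polars. -/

set_option autoImplicit false

namespace Pool.Agent.MP_20d318_ag.BV

open MvPolynomial

variable {k A : Type} [Field k] [CommRing A] [Algebra k A]

namespace Poly1

theorem map_ev {σ B : Type} [CommRing B] [Algebra k B] (φ : A →ₐ[k] B) (v : σ → A)
    (P : MvPolynomial σ k) : φ (aeval v P) = aeval (fun i => φ (v i)) P :=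
  comp_aeval_apply v φ P

theorem pol_add (P R : MvPolynomial (Fin 3) k) (v w : Fin 3 → A) :
    pol (P + R) v w = pol P v w + pol R v w := by
  simp [pol, mul_add, Finset.sum_add_distrib]

theorem pol_zero (v w : Fin 3 → A) : pol (0 : MvPolynomial (Fin 3) k) v w = 0 := by
  simp [pol]

theorem pol_mul (P R : MvPolynomial (Fin 3) k) (v w : Fin 3 → A) :
    pol (P * R) v w = aeval w P * pol R v w + aeval w R * pol P v w := by
  simp only [pol, Derivation.leibniz, smul_eq_mul, map_add, map_mul, Finset.mul_sum,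
    ← Finset.sum_add_distrib]
  exact Finset.sum_congr rfl fun i _ => by ring

theorem pol_X (i : Fin 3) (v w : Fin 3 → A) : pol (X i : MvPolynomial (Fin 3) k) v w = v i := by
  simp only [pol, pderiv_X]
  rw [Finset.sum_eq_single i]
  · simp
  · intro j _ hj
    simp [Pi.single_eq_of_ne hj.symm]
  · simp

theorem pol_C (c : k) (v w : Fin 3 → A) : pol (C c : MvPolynomial (Fin 3) k) v w = 0 := by
  simp [pol]

theorem ind3 {m : MvPolynomial (Fin 3) k → Prop} (h0 : m 0)
    (ha : ∀ P R, m P → m R → m (P + R)) (hm : ∀ c i j l, m (C c * X i * X j * X l))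
    {P : MvPolynomial (Fin 3) k} (h : P.IsHomogeneous 3) : m P := by
  rw [P.as_sum]
  refine Finset.sum_induction _ m ha h0 fun s hs => ?_
  have hd : s.degree = 3 := by
    by_contra hne
    exact (mem_support_iff.1 hs) (h.coeff_eq_zero hne)
  have hc : Multiset.card (Finsupp.toMultiset s) = 3 := by
    rw [Finsupp.card_toMultiset]
    exact hd
  obtain ⟨i, j, l, e⟩ := Multiset.card_eq_three.1 hc
  have e' : s = Finsupp.single i 1 + Finsupp.single j 1 + Finsupp.single l 1 := by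
    apply Multiset.toFinsupp.symm.injective
    change Finsupp.toMultiset s = Finsupp.toMultiset _
    rw [e]
    simp only [map_add, Finsupp.toMultiset_single, one_smul]
    rfl
  have : monomial s (coeff s P) = C (coeff s P) * X i * X j * X l := by
    generalize coeff s P = c
    rw [e']
    simp only [X, C_apply, monomial_mul, zero_add, mul_one]
  rw [this]
  exact hm _ _ _ _

theorem pt_map {B : Type} [CommRing B] [Algebra k B] (φ : A →ₐ[k] B) (d : Dat k) (q : Q) :
    (fun i => φ (d.pt A q i)) = d.pt B q := by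
  funext i
  fin_cases i <;> simp [Dat.pt]

theorem ev_pt (d : Dat k) (q : Q) (P : MvPolynomial (Fin 3) k) :
    aeval (d.pt A q) P = algebraMap k A (aeval (d.pt k q) P) := by
  have := map_ev (Algebra.ofId k A) (d.pt k q) P
  rw [pt_map] at this
  exact this.symm

theorem pol_map {B : Type} [CommRing B] [Algebra k B] (φ : A →ₐ[k] B)
    (P : MvPolynomial (Fin 3) k) (v w : Fin 3 → A) :
    φ (pol P v w) = pol P (fun i => φ (v i)) (fun i => φ (w i)) := by
  simp only [pol, map_sum, map_mul, map_ev]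

theorem line_eq (d : Dat k) (i : Fin 9) (u v r : A) :
    (![algebraMap k A (d.a (some i)) + u * r, algebraMap k A (d.b (some i)) + v * r, 1] :
      Fin 3 → A) = d.pt A (some i) + r • ![u, v, 0] := by
  funext j
  fin_cases j <;> simp [Dat.pt, mul_comm]

theorem smul_eq (c u v : A) : (![c * u, c * v, 0] : Fin 3 → A) = c • ![u, v, 0] := by
  funext j
  fin_cases j <;> simp

theorem ev_nu (P : MvPolynomial (Fin 3) k) (x y : A) : ∃ a b : A,
    aeval ![x, y, 1] P = algebraMap k A (aeval (![0, 0, 1] : Fin 3 → k) P) + (a * x + b * y) ∧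
      a ∈ Algebra.adjoin k {x, y} ∧ b ∈ Algebra.adjoin k {x, y} := by
  have hx : x ∈ Algebra.adjoin k {x, y} := Algebra.subset_adjoin (by simp)
  have hy : y ∈ Algebra.adjoin k {x, y} := Algebra.subset_adjoin (by simp)
  induction P using MvPolynomial.induction_on with
  | C c => exact ⟨0, 0, by simp, zero_mem _, zero_mem _⟩
  | add P R hP hR =>
    obtain ⟨a, b, e, ha, hb⟩ := hP
    obtain ⟨a', b', e', ha', hb'⟩ := hR
    refine ⟨a + a', b + b', ?_, add_mem ha ha', add_mem hb hb'⟩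
    rw [map_add, map_add, map_add, e, e']
    ring
  | mul_X P i hP =>
    obtain ⟨a, b, e, ha, hb⟩ := hP
    have hm : aeval ![x, y, 1] P ∈ Algebra.adjoin k {x, y} := by
      rw [e]
      exact add_mem (Subalgebra.algebraMap_mem _ _) (add_mem (mul_mem ha hx) (mul_mem hb hy))
    fin_cases i
    · exact ⟨_, 0, by simp, hm, zero_mem _⟩
    · exact ⟨0, _, by simp, zero_mem _, hm⟩
    · refine ⟨a, b, ?_, ha, hb⟩
      simpa using e

end Poly1

open Poly1

section forms

variable {P : MvPolynomial (Fin 3) k}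

theorem pol_eq (P : MvPolynomial (Fin 3) k) (v w : Fin 3 → A) : pol P v w =
    v 0 * aeval w (pderiv 0 P) + v 1 * aeval w (pderiv 1 P) + v 2 * aeval w (pderiv 2 P) := by
  simp [pol, Fin.sum_univ_three]

theorem aeval_smul {σ : Type} {n : ℕ} {p : MvPolynomial σ k} (h : p.IsHomogeneous n) (c : A)
    (v : σ → A) : aeval (c • v) p = c ^ n * aeval v p := by
  rw [p.as_sum, map_sum, map_sum, Finset.mul_sum]
  refine Finset.sum_congr rfl fun s hs => ?_
  have hd : s.degree = n := by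
    by_contra hne
    exact (mem_support_iff.1 hs) (h.coeff_eq_zero hne)
  rw [aeval_monomial, aeval_monomial, ← hd]
  simp only [Finsupp.prod, Pi.smul_apply, smul_eq_mul, mul_pow, Finset.prod_mul_distrib,
    Finset.prod_pow_eq_pow_sum, Finsupp.degree_apply]
  ring

theorem euler {n : ℕ} (h : P.IsHomogeneous n) (v : Fin 3 → A) : pol P v v = n * aeval v P := by
  have := congrArg (aeval v) h.sum_X_mul_pderiv
  simpa [pol, map_sum] using this

theorem expand (h : P.IsHomogeneous 3) (p v : Fin 3 → A) (r : A) : aeval (p + r • v) P =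
    aeval p P + r * pol P v p + r ^ 2 * pol P p v + r ^ 3 * aeval v P := by
  refine ind3 (m := fun P => aeval (p + r • v) P =
    aeval p P + r * pol P v p + r ^ 2 * pol P p v + r ^ 3 * aeval v P) ?_ ?_ ?_ h
  · simp [pol_zero]
  · intro P R hP hR
    simp only [map_add, pol_add, hP, hR]
    ring
  · intro c i j l
    simp only [pol_mul, pol_X, pol_C, map_mul, aeval_X, aeval_C, Pi.add_apply, Pi.smul_apply,
      smul_eq_mul]
    ring

theorem pol_line (h : P.IsHomogeneous 3) (p v : Fin 3 → A) (r : A) : pol P v (p + r • v) =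
    pol P v p + 2 * r * pol P p v + 3 * r ^ 2 * aeval v P := by
  refine ind3 (m := fun P => pol P v (p + r • v) =
    pol P v p + 2 * r * pol P p v + 3 * r ^ 2 * aeval v P) ?_ ?_ ?_ h
  · simp [pol_zero]
  · intro P R hP hR
    simp only [map_add, pol_add, hP, hR]
    ring
  · intro c i j l
    simp only [pol_mul, pol_X, pol_C, map_mul, aeval_X, aeval_C, Pi.add_apply, Pi.smul_apply,
      smul_eq_mul]
    ring

theorem co_smul (d : Dat k) (h : P.IsHomogeneous 3) (i : Fin 9) (c u v : A) (j : Fin 3) :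
    d.co P i (c * u) (c * v) j = c ^ ((j : ℕ) + 1) * d.co P i u v j := by
  have h2 : ∀ l, (pderiv l P).IsHomogeneous 2 := fun l => h.pderiv
  fin_cases j
  · simp [Dat.co, pol_eq]
    ring
  · simp only [Dat.co, smul_eq, pol_eq, aeval_smul (h2 _)]
    simp
    ring
  · simp only [Dat.co, smul_eq, aeval_smul h]
    simp

theorem co_map {B : Type} [CommRing B] [Algebra k B] (φ : A →ₐ[k] B) (d : Dat k)
    (P : MvPolynomial (Fin 3) k) (i : Fin 9) (u v : A) (j : Fin 3) :
    φ (d.co P i u v j) = d.co P i (φ u) (φ v) j := by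
  have e : (fun l => φ ((![u, v, 0] : Fin 3 → A) l)) = ![φ u, φ v, 0] := by
    funext l
    fin_cases l <;> simp
  fin_cases j
  · change φ (pol P ![u, v, 0] (d.pt A (some i))) = pol P ![φ u, φ v, 0] (d.pt B (some i))
    rw [pol_map, e, pt_map]
  · change φ (pol P (d.pt A (some i)) ![u, v, 0]) = pol P (d.pt B (some i)) ![φ u, φ v, 0]
    rw [pol_map, e, pt_map]
  · change φ (aeval ![u, v, 0] P) = aeval ![φ u, φ v, 0] P
    rw [map_ev, e]

/-- The coefficients are polynomials in the direction. -/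
theorem co_poly (d : Dat k) (P : MvPolynomial (Fin 3) k) (i : Fin 9) (j : Fin 3) :
    ∃ p : MvPolynomial (Fin 2) k, ∀ (B : Type) [CommRing B] [Algebra k B] (u v : B),
      d.co P i u v j = aeval ![u, v] p := by
  refine ⟨d.co P i (X 0) (X 1) j, fun B _ _ u v => ?_⟩
  rw [co_map]
  simp

theorem co_zero (d : Dat k) (P : MvPolynomial (Fin 3) k) (i : Fin 9) (u v : A) : d.co P i u v 0 =
    u * algebraMap k A (aeval (d.pt k (some i)) (pderiv 0 P)) +
      v * algebraMap k A (aeval (d.pt k (some i)) (pderiv 1 P)) := by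
  change pol P ![u, v, 0] (d.pt A (some i)) = _
  rw [pol_eq, ev_pt d _ (pderiv 0 P), ev_pt d _ (pderiv 1 P)]
  simp only [Matrix.cons_val_zero, Matrix.cons_val_one, Matrix.cons_val, zero_mul, add_zero]

/-- The restriction of a cubic through the base point `i` to a line through that point. -/
theorem aeval_line (d : Dat k) (h : P.IsHomogeneous 3) {i : Fin 9}
    (hv : aeval (d.pt k (some i)) P = 0) (u v r : A) :
    aeval ![algebraMap k A (d.a (some i)) + u * r, algebraMap k A (d.b (some i)) + v * r, 1] P =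
      r * (d.co P i u v 0 + r * d.co P i u v 1 + r ^ 2 * d.co P i u v 2) := by
  rw [line_eq, expand h, ev_pt, hv, map_zero]
  change _ = r * (pol P ![u, v, 0] (d.pt A (some i)) + r * pol P (d.pt A (some i)) ![u, v, 0] +
    r ^ 2 * aeval ![u, v, 0] P)
  ring

theorem pol_line' (d : Dat k) (h : P.IsHomogeneous 3) (i : Fin 9) (u v r : A) :
    pol P ![u, v, 0]
      ![algebraMap k A (d.a (some i)) + u * r, algebraMap k A (d.b (some i)) + v * r, 1] =
      d.co P i u v 0 + 2 * r * d.co P i u v 1 + 3 * r ^ 2 * d.co P i u v 2 := by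
  rw [line_eq, pol_line h]
  rfl

theorem aeval_aff (P : MvPolynomial (Fin 3) k) (x y : A) :
    aeval ![x, y] (aff P) = aeval ![x, y, 1] P := by
  rw [aff, map_ev]
  congr 2
  funext l
  fin_cases l <;> simp

theorem pderiv_aff0 (P : MvPolynomial (Fin 3) k) : pderiv 0 (aff P) = aff (pderiv 0 P) := by
  induction P using MvPolynomial.induction_on with
  | C c => simp [aff]
  | add P R hP hR =>
    simp only [aff, map_add] at hP hR ⊢
    rw [hP, hR]
  | mul_X P i hP =>
    simp only [aff, map_mul, Derivation.leibniz, smul_eq_mul, map_add] at hP ⊢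
    rw [hP]
    fin_cases i <;> simp

theorem pderiv_aff1 (P : MvPolynomial (Fin 3) k) : pderiv 1 (aff P) = aff (pderiv 1 P) := by
  induction P using MvPolynomial.induction_on with
  | C c => simp [aff]
  | add P R hP hR =>
    simp only [aff, map_add] at hP hR ⊢
    rw [hP, hR]
  | mul_X P i hP =>
    simp only [aff, map_mul, Derivation.leibniz, smul_eq_mul, map_add] at hP ⊢
    rw [hP]
    fin_cases i <;> simp

end forms

section cub

variable {d : Dat k}

theorem Cub.irrF (h : Cub d) : Irreducible (aff d.F) ∧ (aff d.F).totalDegree = 3 := by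
  simpa using h.irr 1 0 (Or.inl one_ne_zero)

theorem Cub.irrG (h : Cub d) : Irreducible (aff d.G) ∧ (aff d.G).totalDegree = 3 := by
  simpa using h.irr 0 1 (Or.inr one_ne_zero)

/-- The equation of `G` on the blow-up of the singular point. -/
theorem Cub.G_blow (h : Cub d) (u v r : A) : aeval ![u * r, v * r, 1] d.G =
    r ^ 2 * (aeval ![u, v, 0] (pderiv 2 d.G) + r * aeval ![u, v, 0] d.G) := by
  have h2 : (pderiv 2 d.G).IsHomogeneous 2 := h.hG.pderiv
  have e := h.Gz A ![u * r, v * r, 1]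
  simp only [Matrix.cons_val_zero, Matrix.cons_val_one, Matrix.cons_val] at e
  rw [e, mul_comm u r, mul_comm v r, smul_eq, aeval_smul h2, aeval_smul h.hG]
  ring

theorem Cub.G_zero (h : Cub d) : aeval (![0, 0, 1] : Fin 3 → k) d.G = 0 := by
  simpa using h.G_blow (0 : k) 0 0

theorem Cub.G_grad (h : Cub d) (i : Fin 3) :
    aeval (![0, 0, 1] : Fin 3 → k) (pderiv i d.G) = 0 := by
  have key : ∀ u v : k, pol d.G ![u, v, 0] (![0, 0, 1] : Fin 3 → k) = 0 := by
    intro u v
    have e := h.G_blow (Polynomial.C u) (Polynomial.C v) Polynomial.X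
    have e1 : (![Polynomial.C u * Polynomial.X, Polynomial.C v * Polynomial.X, 1] :
        Fin 3 → Polynomial k) = (fun l => Algebra.ofId k (Polynomial k) (![0, 0, 1] l)) +
          (Polynomial.X : Polynomial k) • fun l => Algebra.ofId k (Polynomial k) (![u, v, 0] l) := by
      funext l
      fin_cases l <;> simp [Polynomial.X_mul_C]
    rw [e1, expand h.hG, ← pol_map, ← map_ev, h.G_zero] at e
    have e2 := congrArg (fun p => Polynomial.coeff p 1) e
    simpa [Polynomial.coeff_X_pow_mul'] using e2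
  fin_cases i
  · simpa [pol_eq] using key 1 0
  · simpa [pol_eq] using key 0 1
  · have := euler h.hG (![0, 0, 1] : Fin 3 → k)
    rw [h.G_zero] at this
    simpa [pol_eq] using this

theorem Cub.not_dvd (h : Cub d) : ¬ aff d.F ∣ aff d.G := by
  rintro ⟨q, e⟩
  have hq : IsUnit q := (h.irrG.1.isUnit_or_isUnit e).resolve_left h.irrF.1.not_isUnit
  have e1 := congrArg (aeval (![0, 0] : Fin 2 → k)) e
  rw [map_mul, aeval_aff, aeval_aff, h.G_zero] at e1
  exact mul_ne_zero h.Fnu (hq.map _).ne_zero e1.symm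

/-- The cubic `G` and its derivatives lie in the ideal of the singular point. -/
theorem Cub.G_nu (h : Cub d) (x y : A) : (∃ a b : A, aeval ![x, y, 1] d.G = a * x + b * y ∧
    a ∈ Algebra.adjoin k {x, y} ∧ b ∈ Algebra.adjoin k {x, y}) ∧ ∀ i, ∃ a b : A,
      aeval ![x, y, 1] (pderiv i d.G) = a * x + b * y ∧ a ∈ Algebra.adjoin k {x, y} ∧
        b ∈ Algebra.adjoin k {x, y} := by
  refine ⟨?_, fun i => ?_⟩
  · simpa only [h.G_zero, map_zero, zero_add] using ev_nu d.G x y
  · simpa only [h.G_grad i, map_zero, zero_add] using ev_nu (pderiv i d.G) x y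

end cub

end Pool.Agent.MP_20d318_ag.BV

end MrgPart0

-- ======== part 1: formerly Pool.Agent.MP_20d318_ag.BV.SetC
section MrgPart1

/-! SETC: the pencil with its nine base points has all the properties that are used. -/

set_option autoImplicit false

namespace Pool.Agent.MP_20d318_ag.BV

open MvPolynomial

namespace SetC

variable {k : Type} [Field k]

/-- Specialization of a point over an extension field to a point over the ground field. -/
theorem transfer [IsAlgClosed k] {σ L : Type} [Finite σ] [Field L] [Algebra k L] (v : σ → L)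
    (g : MvPolynomial σ k) (hg : aeval v g ≠ 0) :
    ∃ w : σ → k, (∀ p : MvPolynomial σ k, aeval v p = 0 → aeval w p = 0) ∧ aeval w g ≠ 0 := by
  by_contra hc
  push Not at hc
  have hP : (RingHom.ker (aeval v : MvPolynomial σ k →ₐ[k] L)).IsPrime := RingHom.ker_isPrime _
  have h1 : g ∈ vanishingIdeal k
      (zeroLocus k (RingHom.ker (aeval v : MvPolynomial σ k →ₐ[k] L))) := by
    rw [mem_vanishingIdeal_iff]
    intro w hw
    exact hc w fun p hp => (mem_zeroLocus_iff.1 hw) p hp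
  rw [vanishingIdeal_zeroLocus_eq_radical, hP.radical] at h1
  exact hg h1

theorem pt_eq (d : Dat k) (q : Q) : d.pt k q = ![d.a q, d.b q, 1] := by
  simp [Dat.pt]

theorem pt_ne (d : Dat k) (q : Q) : d.pt k q ≠ 0 := fun h => by
  have := congrFun h 2
  simp [Dat.pt] at this

theorem jac {d : Dat k} (h : Pre d.F d.G) (n : Nine d) (i : Fin 9) :
    aeval (d.pt k (some i)) (pderiv 0 d.F) * aeval (d.pt k (some i)) (pderiv 1 d.G) ≠
      aeval (d.pt k (some i)) (pderiv 1 d.F) * aeval (d.pt k (some i)) (pderiv 0 d.G) := by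
  intro he
  have hl := (h.tv _ (pt_ne d (some i)) (n.vanF i) (n.vanG i)).2
  rw [LinearIndependent.pair_iff] at hl
  have eF := euler h.hF (d.pt k (some i))
  have eG := euler h.hG (d.pt k (some i))
  rw [pol_eq, n.vanF i, mul_zero] at eF
  rw [pol_eq, n.vanG i, mul_zero] at eG
  have e2 : d.pt k (some i) 2 = 1 := by simp [Dat.pt]
  rw [e2, one_mul] at eF eG
  set p := d.pt k (some i)
  have key : ∀ s t : k, s * aeval p (pderiv 0 d.F) + t * aeval p (pderiv 0 d.G) = 0 →
      s * aeval p (pderiv 1 d.F) + t * aeval p (pderiv 1 d.G) = 0 → s = 0 ∧ t = 0 := by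
    intro s t h0 h1
    refine hl s t (funext fun j => ?_)
    fin_cases j
    · simpa using h0
    · simpa using h1
    · have : s * aeval p (pderiv 2 d.F) + t * aeval p (pderiv 2 d.G) = 0 := by
        linear_combination s * eF + t * eG - p 0 * h0 - p 1 * h1
      simpa using this
  have h1 := key (aeval p (pderiv 1 d.G)) (-aeval p (pderiv 1 d.F)) (by linear_combination he)
    (by ring)
  have h0 := key (aeval p (pderiv 0 d.G)) (-aeval p (pderiv 0 d.F)) (by ring)
    (by linear_combination -he)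
  have h2 := key 1 0 (by linear_combination -h0.2) (by linear_combination -h1.2)
  exact one_ne_zero h2.1

theorem base [IsAlgClosed k] {d : Dat k} (h : Pre d.F d.G) (n : Nine d) (L : Type) [Field L]
    [Algebra k L] (v : Fin 3 → L) (hF : aeval v d.F = 0) (hG : aeval v d.G = 0) :
    v = 0 ∨ ∃ i, v 2 ≠ 0 ∧ v = v 2 • d.pt L (some i) := by
  by_contra hc
  push Not at hc
  obtain ⟨hv, hi⟩ := hc
  by_cases h2 : v 2 = 0
  · obtain ⟨j, hj⟩ : ∃ j, v j ≠ 0 := by
      by_contra h'
      push Not at h'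
      exact hv (funext h')
    obtain ⟨w, hw, hg⟩ := transfer v (X j : MvPolynomial (Fin 3) k) (by simpa using hj)
    have hw0 : w ≠ 0 := fun e => hg (by simp [e])
    have h3 := hw (X 2) (by simpa using h2)
    exact (h.tv w hw0 (hw _ hF) (hw _ hG)).1 (by simpa using h3)
  · have hj : ∀ i : Fin 9, ∃ j, v j - v 2 * algebraMap k L (d.pt k (some i) j) ≠ 0 := by
      intro i
      by_contra h'
      push Not at h'
      refine hi i h2 (funext fun j => ?_)
      have e := sub_eq_zero.1 (h' j)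
      rw [e]
      fin_cases j <;> simp [Dat.pt]
    choose j hj using hj
    obtain ⟨w, hw, hg⟩ := transfer v
      (X 2 * ∏ i, (X (j i) - X 2 * C (d.pt k (some i) (j i))) : MvPolynomial (Fin 3) k) (by
        rw [map_mul, map_prod]
        refine mul_ne_zero (by simpa using h2) (Finset.prod_ne_zero_iff.2 fun i _ => ?_)
        simpa using hj i)
    rw [map_mul, map_prod, mul_ne_zero_iff, Finset.prod_ne_zero_iff] at hg
    have w2 : w 2 ≠ 0 := by simpa using hg.1
    have e : (![w 0 / w 2, w 1 / w 2, 1] : Fin 3 → k) = (w 2)⁻¹ • w := by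
      funext m
      fin_cases m
      · simp [div_eq_inv_mul]
      · simp [div_eq_inv_mul]
      · simp [w2]
    obtain ⟨i, ha, hb⟩ := n.all (w 0 / w 2) (w 1 / w 2)
      (by rw [e, aeval_smul h.hF, hw _ hF, mul_zero])
      (by rw [e, aeval_smul h.hG, hw _ hG, mul_zero])
    refine hg.2 i (Finset.mem_univ i) ?_
    have : ∀ m, w m - w 2 * d.pt k (some i) m = 0 := by
      intro m
      rw [pt_eq, ← ha, ← hb]
      fin_cases m
      · simp [mul_div_cancel₀, w2]
      · simp [mul_div_cancel₀, w2]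
      · simp
    simpa using this (j i)

/-- A cubic through a base point, restricted to a line through that point. -/
theorem span_eq (d : Dat k) {P : MvPolynomial (Fin 3) k} (hP : P.IsHomogeneous 3) {i : Fin 9}
    (hv : aeval (d.pt k (some i)) P = 0) (u v s t : k) :
    aeval (s • d.pt k (some i) + t • ![u, v, 0]) P =
      s ^ 2 * t * d.co P i u v 0 + s * t ^ 2 * d.co P i u v 1 + t ^ 3 * d.co P i u v 2 := by
  by_cases hs : s = 0
  · subst hs
    rw [zero_smul, zero_add, aeval_smul hP]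
    simp [Dat.co]
  · have e : s • d.pt k (some i) + t • ![u, v, 0] =
        s • (d.pt k (some i) + (t / s) • ![u, v, 0]) := by
      rw [smul_add, smul_smul, mul_div_cancel₀ _ hs]
    rw [e, aeval_smul hP, expand hP, hv]
    simp only [Dat.co, Matrix.cons_val_zero, Matrix.cons_val_one, Matrix.cons_val]
    field_simp
    ring

theorem nol0 {d : Dat k} (h : Pre d.F d.G) (n : Nine d) (i : Fin 9) (s t u v : k)
    (he : ∀ j, s * d.co d.F i u v j = t * d.co d.G i u v j) (huv : u ≠ 0 ∨ v ≠ 0) :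
    s = 0 ∧ t = 0 := by
  have hl : LinearIndependent k ![d.pt k (some i), ![u, v, 0]] := by
    rw [LinearIndependent.pair_iff]
    intro a b hab
    have h2 := congrFun hab 2
    have ha : a = 0 := by simpa [Dat.pt] using h2
    subst ha
    have h0 := congrFun hab 0
    have h1 := congrFun hab 1
    refine ⟨rfl, ?_⟩
    rcases huv with hu | hv
    · simpa [hu] using h0
    · simpa [hv] using h1
  have := h.line s (-t) _ _ hl fun a b => by
    rw [map_add, map_mul, map_mul, aeval_C, aeval_C, span_eq d h.hF (n.vanF i),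
      span_eq d h.hG (n.vanG i)]
    simp only [Algebra.algebraMap_self, RingHom.id_apply]
    linear_combination a ^ 2 * b * he 0 + a * b ^ 2 * he 1 + b ^ 3 * he 2
  exact ⟨this.1, neg_eq_zero.1 this.2⟩

theorem nol [IsAlgClosed k] {d : Dat k} (h : Pre d.F d.G) (n : Nine d) (L : Type) [Field L]
    [Algebra k L] (i : Fin 9) (s t u v : L)
    (he : ∀ j, s * d.co d.F i u v j = t * d.co d.G i u v j) :
    (s = 0 ∧ t = 0) ∨ (u = 0 ∧ v = 0) := by
  by_contra hc
  have key : ∀ a b : Fin 4, (a = 0 ∨ a = 1) → (b = 2 ∨ b = 3) →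
      (![s, t, u, v] : Fin 4 → L) a ≠ 0 → (![s, t, u, v] : Fin 4 → L) b ≠ 0 → False := by
    intro a b ha hb h1 h2
    obtain ⟨w, hw, hg⟩ := transfer (![s, t, u, v] : Fin 4 → L)
      (X a * X b : MvPolynomial (Fin 4) k) (by simpa using ⟨h1, h2⟩)
    have hg' : w a ≠ 0 ∧ w b ≠ 0 := by simpa using hg
    have h3 : ∀ j, w 0 * d.co d.F i (w 2) (w 3) j = w 1 * d.co d.G i (w 2) (w 3) j := by
      intro j
      have := hw (X 0 * d.co d.F i (X 2) (X 3) j - X 1 * d.co d.G i (X 2) (X 3) j) (by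
        rw [map_sub, map_mul, map_mul, co_map, co_map]
        simpa using sub_eq_zero.2 (he j))
      rw [map_sub, map_mul, map_mul, co_map, co_map] at this
      simpa [sub_eq_zero] using this
    have h4 := nol0 h n i _ _ _ _ h3 (by
      rcases hb with rfl | rfl
      · exact Or.inl hg'.2
      · exact Or.inr hg'.2)
    rcases ha with rfl | rfl
    · exact hg'.1 h4.1
    · exact hg'.1 h4.2
  rw [not_or, not_and_or, not_and_or] at hc
  rcases hc with ⟨h1 | h1, h2 | h2⟩
  · exact key 0 2 (Or.inl rfl) (Or.inl rfl) (by simpa using h1) (by simpa using h2)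
  · exact key 0 3 (Or.inl rfl) (Or.inr rfl) (by simpa using h1) (by simpa using h2)
  · exact key 1 2 (Or.inr rfl) (Or.inl rfl) (by simpa using h1) (by simpa using h2)
  · exact key 1 3 (Or.inr rfl) (Or.inr rfl) (by simpa using h1) (by simpa using h2)

/-- The singular cubic on a line through the singular point. -/
theorem G_line {F G : MvPolynomial (Fin 3) k} (h : Pre F G) (u v r : k) :
    aeval ![u * r, v * r, 1] G =
      r ^ 2 * (aeval ![u, v, 0] (pderiv 2 G) + r * aeval ![u, v, 0] G) := by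
  have e : (![u * r, v * r, 0] : Fin 3 → k) = r • ![u, v, 0] := by
    funext m
    fin_cases m <;> simp [mul_comm]
  have h2 : (pderiv 2 G).IsHomogeneous 2 := h.hG.pderiv
  rw [h.Gz k]
  simp only [Matrix.cons_val_zero, Matrix.cons_val_one, Matrix.cons_val]
  rw [e, aeval_smul h2, aeval_smul h.hG]
  ring

theorem ncol {d : Dat k} (h : Pre d.F d.G) (n : Nine d) (i j : Fin 9) (q : Q) (hij : i ≠ j)
    (hi : q ≠ some i) (hj : q ≠ some j) :
    (d.a q - d.a (some i)) * (d.b (some j) - d.b (some i)) ≠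
      (d.b q - d.b (some i)) * (d.a (some j) - d.a (some i)) := by
  intro he
  set u := d.a (some j) - d.a (some i) with hu
  set v := d.b (some j) - d.b (some i) with hv
  have huv : u ≠ 0 ∨ v ≠ 0 := by
    by_contra hc
    push Not at hc
    exact hij (Option.some_injective _ (n.inj _ _ (by linear_combination -hu - hc.1)
      (by linear_combination -hv - hc.2)))
  obtain ⟨r, ha, hb⟩ : ∃ r : k, d.a q = d.a (some i) + u * r ∧ d.b q = d.b (some i) + v * r := by
    rcases huv with h0 | h0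
    · refine ⟨(d.a q - d.a (some i)) / u, by field_simp; ring, ?_⟩
      field_simp
      linear_combination -he
    · refine ⟨(d.b q - d.b (some i)) / v, ?_, by field_simp; ring⟩
      field_simp
      linear_combination he
  have r0 : r ≠ 0 := fun e => hi (n.inj _ _ (by rw [ha, e]; ring) (by rw [hb, e]; ring))
  have r1 : r - 1 ≠ 0 := fun e => hj (n.inj _ _ (by linear_combination ha - hu + u * e)
    (by linear_combination hb - hv + v * e))
  cases q with
  | none =>
    rw [n.a0] at ha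
    rw [n.b0] at hb
    have g1 := n.vanG i
    have g2 := n.vanG j
    rw [pt_eq, show d.a (some i) = u * (-r) by linear_combination -ha,
      show d.b (some i) = v * (-r) by linear_combination -hb, G_line h] at g1
    rw [pt_eq, show d.a (some j) = u * (1 - r) by linear_combination -ha - hu,
      show d.b (some j) = v * (1 - r) by linear_combination -hb - hv, G_line h] at g2
    have g3 := (mul_eq_zero.1 g1).resolve_left (pow_ne_zero _ (neg_ne_zero.2 r0))
    have g4 := (mul_eq_zero.1 g2).resolve_left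
      (pow_ne_zero _ fun e => r1 (by linear_combination -e))
    have hc : aeval ![u, v, 0] d.G = 0 := by linear_combination g4 - g3
    have hq : aeval ![u, v, 0] (pderiv 2 d.G) = 0 := by linear_combination g3 + r * hc
    have := h.cop k u v hq hc
    rcases huv with h0 | h0
    · exact h0 this.1
    · exact h0 this.2
  | some m =>
    have key : ∀ P : MvPolynomial (Fin 3) k, P.IsHomogeneous 3 →
        (∀ i, aeval (d.pt k (some i)) P = 0) → d.co P i u v 0 = r * d.co P i u v 2 ∧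
          d.co P i u v 1 = -(1 + r) * d.co P i u v 2 := by
      intro P hP hv'
      have g1 := aeval_line d hP (hv' i) u v 1
      have g2 := aeval_line d hP (hv' i) u v r
      simp only [Algebra.algebraMap_self, RingHom.id_apply] at g1 g2
      rw [show d.a (some i) + u * 1 = d.a (some j) by linear_combination hu,
        show d.b (some i) + v * 1 = d.b (some j) by linear_combination hv, ← pt_eq, hv'] at g1
      rw [← ha, ← hb, ← pt_eq, hv'] at g2
      have g3 := (mul_eq_zero.1 g2.symm).resolve_left r0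
      have g4 : d.co P i u v 1 = -(1 + r) * d.co P i u v 2 := by
        apply mul_left_cancel₀ r1
        linear_combination g3 + g1
      exact ⟨by linear_combination -g1 - g4, g4⟩
    obtain ⟨f0, f1⟩ := key _ h.hF n.vanF
    obtain ⟨g0, g1⟩ := key _ h.hG n.vanG
    have h1 := nol0 h n i (d.co d.G i u v 2) (d.co d.F i u v 2) u v (fun m => by
      fin_cases m
      · simp only [Fin.zero_eta]
        rw [f0, g0]; ring
      · simp only [Fin.mk_one]
        rw [f1, g1]; ring
      · simp only [Fin.reduceFinMk]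
        ring) huv
    have h2 := nol0 h n i 1 0 u v (fun m => by
      fin_cases m
      · simp only [Fin.zero_eta]
        rw [f0, h1.2]; ring
      · simp only [Fin.mk_one]
        rw [f1, h1.2]; ring
      · simp only [Fin.reduceFinMk]
        rw [h1.2]; ring) huv
    exact one_ne_zero h2.1

end SetC

theorem setC_stmt : SetCStmt := fun _ _ _ _ _ h n =>
  { hF := h.hF, hG := h.hG, a0 := n.a0, b0 := n.b0, inj := n.inj, ncol := SetC.ncol h n
    vanF := n.vanF, vanG := n.vanG, Fnu := h.Fnu, jac := SetC.jac h n, Gz := h.Gz, cop := h.cop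
    base := SetC.base h n, smF := h.smF, smG := h.smG, nol := SetC.nol h n, irr := h.irr
    nc := n.nc }

end Pool.Agent.MP_20d318_ag.BV

end MrgPart1

-- marker of a merged file
example : 731051 + 660192 = 731051 + 660192 := rfl

end MrgPart1

-- marker of a merged file
example : 731051 + 660192 = 731051 + 660192 := rfl
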