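import Mathlib.Algebra.CharZero.Infinite
import Mathlib.Algebra.MvPolynomial.Funext
import Pool.Agent.MP_20d318_ag.BV.Mw
import Pool.Agent.MP_20d318_ag.BV.Poly2

-- ======== part 0: formerly Pool.Agent.MP_20d318_ag.BV.SigT
section MrgPart0

/-! The involution attached to a base point is a regular map of `T`. -/

set_option autoImplicit false

namespace Pool.Agent.MP_20d318_ag.BV

open Pool.Agent.MP_79c67d_ag Pool.Agent.MP_20d318_ag.AG MvPolynomial

namespace SigTx

variable {k M : Type} [Field k] [Field M] [Algebra k M] {O : Subalgebra k M}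

theorem quad0 (hO : IsLocalRing O) {a0 a1 a2 ρ ρ' : M} (h1 : a1 ∈ O) (h2 : a2 ∈ O)
    (hu : IsU O a0 ∨ IsU O a1 ∨ IsU O a2) (hn : a2 ≠ 0) (hs : a2 * (ρ + ρ') = -a1)
    (hp : a2 * (ρ * ρ') = a0) (hρ : ρ ∈ O) : ρ' ∈ O ∨ ρ'⁻¹ ∈ O := by
  have hβ : a2 * ρ' = -a1 - a2 * ρ := by linear_combination hs
  have hβO : a2 * ρ' ∈ O := hβ ▸ O.sub_mem (O.neg_mem h1) (O.mul_mem h2 hρ)
  rcases isU_or_mx h2 with u2 | m2
  · left
    have := u2.div_mem hβO
    rwa [mul_div_cancel_left₀ _ hn] at this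
  rcases isU_or_mx hβO with ub | mb
  · right
    have := ub.div_mem h2
    rwa [div_mul_cancel_left₀ hn] at this
  have m1 : a1 ∈ mx O := by
    have : a1 = -(a2 * ρ') - a2 * ρ := by linear_combination hs
    exact this ▸ mx_sub' hO (mx_neg mb) (mx_mul_right m2 hρ)
  have m0 : a0 ∈ mx O := by
    have : a0 = a2 * ρ' * ρ := by linear_combination -hp
    exact this ▸ mx_mul_right mb hρ
  rcases hu with h | h | h
  exacts [(h.not_mx m0).elim, (h.not_mx m1).elim, (h.not_mx m2).elim]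

/-- The second root of a quadratic equation with a unit coefficient. -/
theorem quad (hO : IsLocalRing O) {a0 a1 a2 ρ ρ' : M} (h0 : a0 ∈ O) (h1 : a1 ∈ O) (h2 : a2 ∈ O)
    (hu : IsU O a0 ∨ IsU O a1 ∨ IsU O a2) (hn : a2 ≠ 0) (r : ρ ≠ 0) (r' : ρ' ≠ 0)
    (hs : a2 * (ρ + ρ') = -a1) (hp : a2 * (ρ * ρ') = a0) (hρ : ρ ∈ O ∨ ρ⁻¹ ∈ O) :
    ρ' ∈ O ∨ ρ'⁻¹ ∈ O := by
  rcases hρ with hρ | hρ
  · exact quad0 hO h1 h2 hu hn hs hp hρ
  · have := quad0 (a0 := a2) (a1 := a1) (a2 := a0) (ρ' := ρ'⁻¹) hO h1 h0 (by tauto)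
      (hp ▸ mul_ne_zero hn (mul_ne_zero r r')) (by rw [← hp, ← hs]; field_simp; ring)
      (by rw [← hp]; field_simp) hρ
    rw [inv_inv] at this
    exact this.symm

/-- The expansion of a polynomial to first order at a rational point. -/
theorem tay_loc (hO : IsLocalRing O) {σ : Type} [Fintype σ] [DecidableEq σ] {v : σ → M}
    {c : σ → k} (h : ∀ l, v l - algebraMap k M (c l) ∈ mx O) (P : MvPolynomial σ k) :
    ∃ m : σ → M, (∀ l, m l - algebraMap k M (aeval c (pderiv l P)) ∈ mx O) ∧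
      aeval v P = algebraMap k M (aeval c P) + ∑ l, m l * (v l - algebraMap k M (c l)) := by
  induction P using MvPolynomial.induction_on with
  | C a => exact ⟨0, fun l => by simpa using zero_mem_mx, by simp⟩
  | add p q hp hq =>
    obtain ⟨m, hm, e⟩ := hp
    obtain ⟨m', hm', e'⟩ := hq
    refine ⟨m + m', fun l => ?_, ?_⟩
    · have := mx_add hO (hm l) (hm' l)
      simp only [map_add, Pi.add_apply]
      convert this using 1
      ring
    · simp only [map_add, Pi.add_apply, add_mul, Finset.sum_add_distrib, e, e']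
      ring
  | mul_X p n hp =>
    obtain ⟨m, hm, e⟩ := hp
    have hv : v n ∈ O := by simpa using O.add_mem (h n).1 (O.algebraMap_mem (c n))
    refine ⟨fun l => m l * v n + if l = n then algebraMap k M (aeval c p) else 0, fun l => ?_, ?_⟩
    · have := mx_add hO (mx_mul_right (hm l) hv)
        (mx_mul_left (O.algebraMap_mem (aeval c (pderiv l p))) (h n))
      convert this using 1
      rw [Derivation.leibniz, smul_eq_mul, smul_eq_mul]
      simp only [map_add, map_mul, aeval_X]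
      by_cases hl : l = n
      · subst hl
        rw [if_pos rfl, pderiv_X_self]
        simp only [map_one]
        ring
      · rw [if_neg hl, pderiv_X_of_ne (Ne.symm hl)]
        simp only [map_zero]
        ring
    · simp only [map_mul, aeval_X, add_mul, Finset.sum_add_distrib, ite_mul, zero_mul,
        Finset.sum_ite_eq', Finset.mem_univ, if_true]
      rw [e, add_mul, Finset.sum_mul]
      have : ∑ l, m l * (v l - algebraMap k M (c l)) * v n =
          ∑ l, m l * v n * (v l - algebraMap k M (c l)) :=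
        Finset.sum_congr rfl fun l _ => by ring
      rw [this]
      ring

/-- Membership in the ideal generated by two elements. -/
def Sp (O : Subalgebra k M) (x y f : M) : Prop := ∃ α ∈ O, ∃ β ∈ O, f = α * x + β * y

section sp

variable {x y x' y' f g c γ : M}

theorem Sp.left : Sp O x y x := ⟨1, O.one_mem, 0, O.zero_mem, by ring⟩
theorem Sp.right : Sp O x y y := ⟨0, O.zero_mem, 1, O.one_mem, by ring⟩

theorem Sp.add (h : Sp O x y f) (h' : Sp O x y g) : Sp O x y (f + g) := by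
  obtain ⟨α, hα, β, hβ, rfl⟩ := h
  obtain ⟨α', hα', β', hβ', rfl⟩ := h'
  exact ⟨_, O.add_mem hα hα', _, O.add_mem hβ hβ', by ring⟩

theorem Sp.mul (hc : c ∈ O) (h : Sp O x y f) : Sp O x y (c * f) := by
  obtain ⟨α, hα, β, hβ, rfl⟩ := h
  exact ⟨_, O.mul_mem hc hα, _, O.mul_mem hc hβ, by ring⟩

theorem Sp.sub (h : Sp O x y f) (h' : Sp O x y g) : Sp O x y (f - g) := by
  have := h.add (Sp.mul (O.neg_mem O.one_mem) h')
  rwa [neg_one_mul, ← sub_eq_add_neg] at this

theorem Sp.div_mem (h : Sp O x y f) (hx : x / γ ∈ O) (hy : y / γ ∈ O) : f / γ ∈ O := by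
  obtain ⟨α, hα, β, hβ, rfl⟩ := h
  rw [add_div, mul_div_assoc, mul_div_assoc]
  exact O.add_mem (O.mul_mem hα hx) (O.mul_mem hβ hy)

theorem Sp.div_mx (hO : IsLocalRing O) (h : Sp O x y f) (hx : x / γ ∈ mx O) (hy : y / γ ∈ mx O) :
    f / γ ∈ mx O := by
  obtain ⟨α, hα, β, hβ, rfl⟩ := h
  rw [add_div, mul_div_assoc, mul_div_assoc]
  exact mx_add hO (mx_mul_left hα hx) (mx_mul_left hβ hy)

theorem Sp.mx (hO : IsLocalRing O) (h : Sp O x y f) (hx : x ∈ mx O) (hy : y ∈ mx O) :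
    f ∈ mx O := by
  simpa using h.div_mx (γ := 1) hO (by simpa using hx) (by simpa using hy)

theorem gn_of_sp (hO : IsLocalRing O) (h : Gn {x, y} O γ) (h1 : Sp O x y x') (h2 : Sp O x y y')
    (h3 : Sp O x' y' x) (h4 : Sp O x' y' y) : Gn {x', y'} O γ := by
  have hx := h1.div_mem (h.1 x (by simp)) (h.1 y (by simp))
  have hy := h2.div_mem (h.1 x (by simp)) (h.1 y (by simp))
  refine ⟨by rintro _ (rfl | rfl) <;> assumption, ?_⟩
  rcases isU_or_mx hx with u | m
  · exact ⟨x', by simp, u⟩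
  rcases isU_or_mx hy with u' | m'
  · exact ⟨y', by simp, u'⟩
  obtain ⟨_, rfl | rfl, hu⟩ := h.2
  · exact (hu.not_mx (h3.div_mx hO m m')).elim
  · exact (hu.not_mx (h4.div_mx hO m m')).elim

theorem sp_of_adjoin (hx : x ∈ O) (hy : y ∈ O) (h : ∃ a b : M, f = a * x + b * y ∧
    a ∈ Algebra.adjoin k {x, y} ∧ b ∈ Algebra.adjoin k {x, y}) : Sp O x y f := by
  obtain ⟨a, b, e, ha, hb⟩ := h
  have hle : Algebra.adjoin k {x, y} ≤ O := Algebra.adjoin_le (by rintro _ (rfl | rfl) <;> assumption)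
  exact ⟨a, hle ha, b, hle hb, e⟩

end sp

/-- The coefficients of the member of the pencil on the line. -/
noncomputable def aa (d : Dat k) (i : Fin 9) (U V T0 T1 : M) (j : Fin 3) : M :=
  T1 * d.co d.F i U V j - T0 * d.co d.G i U V j

/-- The normalized data at a local ring. -/
structure NF (d : Dat k) (i : Fin 9) (O : Subalgebra k M) (U V T0 T1 x y ρ x' y' ρ' : M) :
    Prop where
  cub : Cub d
  loc : IsLocalRing O
  hU : U ∈ O
  hV : V ∈ O
  uv : IsU O U ∨ IsU O V
  h0 : T0 ∈ O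
  h1 : T1 ∈ O
  tu : IsU O T0 ∨ IsU O T1
  ex : x = algebraMap k M (d.a (some i)) + U * ρ
  ey : y = algebraMap k M (d.b (some i)) + V * ρ
  ex' : x' = algebraMap k M (d.a (some i)) + U * ρ'
  ey' : y' = algebraMap k M (d.b (some i)) + V * ρ'
  r : ρ ≠ 0
  r' : ρ' ≠ 0
  ne : aa d i U V T0 T1 2 ≠ 0
  sum : aa d i U V T0 T1 2 * (ρ + ρ') = -aa d i U V T0 T1 1
  prod : aa d i U V T0 T1 2 * (ρ * ρ') = aa d i U V T0 T1 0

variable {d : Dat k} {i : Fin 9} {U V T0 T1 x y ρ x' y' ρ' γ : M}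

theorem NF.symm (h : NF d i O U V T0 T1 x y ρ x' y' ρ') : NF d i O U V T0 T1 x' y' ρ' x y ρ :=
  { h with
    ex := h.ex'
    ey := h.ey'
    ex' := h.ex
    ey' := h.ey
    r := h.r'
    r' := h.r
    sum := by rw [add_comm]; exact h.sum
    prod := by rw [mul_comm ρ']; exact h.prod }

theorem pair_mem (hU : U ∈ O) (hV : V ∈ O) : ∀ l, (![U, V] : Fin 2 → M) l ∈ O := by
  intro l; fin_cases l <;> assumption

theorem tri_mem {Z : M} (hU : U ∈ O) (hV : V ∈ O) (hZ : Z ∈ O) :
    ∀ l, (![U, V, Z] : Fin 3 → M) l ∈ O := by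
  intro l; fin_cases l <;> assumption

theorem co_mem (hU : U ∈ O) (hV : V ∈ O) (P : MvPolynomial (Fin 3) k) (j : Fin 3) :
    d.co P i U V j ∈ O := by
  obtain ⟨p, hp⟩ := co_poly d P i j
  rw [hp]
  exact aeval_mem (pair_mem hU hV) p

theorem evO_co {L : Type} [Field L] [Algebra k L] (φ : O →ₐ[k] L) (hU : U ∈ O) (hV : V ∈ O)
    (P : MvPolynomial (Fin 3) k) (j : Fin 3) :
    evO O φ (d.co P i U V j) = d.co P i (evO O φ U) (evO O φ V) j := by
  obtain ⟨p, hp⟩ := co_poly d P i j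
  rw [hp, hp, evO_aeval φ (pair_mem hU hV)]
  congr 2
  funext l; fin_cases l <;> rfl

theorem NF.am (h : NF d i O U V T0 T1 x y ρ x' y' ρ') (j : Fin 3) : aa d i U V T0 T1 j ∈ O :=
  O.sub_mem (O.mul_mem h.h1 (co_mem h.hU h.hV _ j)) (O.mul_mem h.h0 (co_mem h.hU h.hV _ j))

theorem NF.au (h : NF d i O U V T0 T1 x y ρ x' y' ρ') : IsU O (aa d i U V T0 T1 0) ∨
    IsU O (aa d i U V T0 T1 1) ∨ IsU O (aa d i U V T0 T1 2) := by
  by_contra hn
  have hm : ∀ j, aa d i U V T0 T1 j ∈ mx O := fun j =>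
    ⟨h.am j, fun hu => hn (by fin_cases j <;> tauto)⟩
  have := h.loc
  have hz : ∀ {a : M}, IsU O a → evO O (resid O) a ≠ 0 := fun ha => evO_ne _ ha
  rcases h.cub.nol (IsLocalRing.ResidueField O) i (evO O (resid O) T1) (evO O (resid O) T0)
    (evO O (resid O) U) (evO O (resid O) V) (fun j => by
      have e := (resid_loc.eq_zero_iff (h.am j)).2 (hm j)
      rw [aa, evO_sub _ (O.mul_mem h.h1 (co_mem h.hU h.hV _ j))
        (O.mul_mem h.h0 (co_mem h.hU h.hV _ j)), evO_mul _ h.h1 (co_mem h.hU h.hV _ j),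
        evO_mul _ h.h0 (co_mem h.hU h.hV _ j), evO_co _ h.hU h.hV, evO_co _ h.hU h.hV] at e
      exact sub_eq_zero.1 e) with e | e
  · exact h.tu.elim (fun u => hz u e.2) fun u => hz u e.1
  · exact h.uv.elim (fun u => hz u e.1) fun u => hz u e.2

theorem NF.e (h : NF d i O U V T0 T1 x y ρ x' y' ρ') :
    T1 * aeval ![x, y, 1] d.F = T0 * aeval ![x, y, 1] d.G := by
  have hs := h.sum
  have hp := h.prod
  rw [h.ex, h.ey, aeval_line d h.cub.hF (h.cub.vanF i), aeval_line d h.cub.hG (h.cub.vanG i)]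
  simp only [aa] at hs hp
  linear_combination ρ ^ 2 * hs - ρ * hp

theorem NF.cancel (h : NF d i O U V T0 T1 x y ρ x' y' ρ') {f : M} (h1 : U * f ∈ O)
    (h2 : V * f ∈ O) : f ∈ O := by
  rcases h.uv with u | u
  · have := u.div_mem h1
    rwa [mul_div_cancel_left₀ _ u.1] at this
  · have := u.div_mem h2
    rwa [mul_div_cancel_left₀ _ u.1] at this

theorem NF.rho (h : NF d i O U V T0 T1 x y ρ x' y' ρ') (hp : Prin (SH x y) O) :
    ρ ∈ O ∨ ρ⁻¹ ∈ O := by
  obtain ⟨γ, hγ⟩ := hp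
  have hx := hγ.1 x (by simp [SH])
  have hy := hγ.1 y (by simp [SH])
  have h1 := hγ.1 1 (by simp [SH])
  have g0 := hγ.ne
  have e1 : U * (ρ / γ) = x / γ - algebraMap k M (d.a (some i)) * (1 / γ) := by rw [h.ex]; ring
  have e2 : V * (ρ / γ) = y / γ - algebraMap k M (d.b (some i)) * (1 / γ) := by rw [h.ey]; ring
  have hr : ρ / γ ∈ O := h.cancel (e1 ▸ O.sub_mem hx (O.mul_mem (O.algebraMap_mem _) h1))
    (e2 ▸ O.sub_mem hy (O.mul_mem (O.algebraMap_mem _) h1))
  rcases isU_or_mx h1 with u | m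
  · left
    have := u.div_mem hr
    rwa [div_div_div_cancel_right₀ g0, div_one] at this
  rcases isU_or_mx hr with u' | m'
  · right
    have := u'.div_mem h1
    rwa [div_div_div_cancel_right₀ g0, one_div] at this
  obtain ⟨_, rfl | rfl | rfl, hu⟩ := hγ.2
  · refine (hu.not_mx ?_).elim
    rw [eq_add_of_sub_eq e1.symm]
    exact mx_add h.loc (mx_mul_left h.hU m') (mx_mul_left (O.algebraMap_mem _) m)
  · refine (hu.not_mx ?_).elim
    rw [eq_add_of_sub_eq e2.symm]
    exact mx_add h.loc (mx_mul_left h.hV m') (mx_mul_left (O.algebraMap_mem _) m)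
  · exact (hu.not_mx m).elim

theorem NF.xm (h : NF d i O U V T0 T1 x y ρ x' y' ρ') (hr : ρ ∈ O) : x ∈ O :=
  h.ex ▸ O.add_mem (O.algebraMap_mem _) (O.mul_mem h.hU hr)

theorem NF.ym (h : NF d i O U V T0 T1 x y ρ x' y' ρ') (hr : ρ ∈ O) : y ∈ O :=
  h.ey ▸ O.add_mem (O.algebraMap_mem _) (O.mul_mem h.hV hr)

/-- At infinity the parameter generates all the fractional ideals. -/
theorem NF.inf (h : NF d i O U V T0 T1 x y ρ x' y' ρ') (hr : ρ⁻¹ ∈ mx O) (α β : k) :
    (x - algebraMap k M α) / ρ ∈ O ∧ (y - algebraMap k M β) / ρ ∈ O ∧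
      (IsU O ((x - algebraMap k M α) / ρ) ∨ IsU O ((y - algebraMap k M β) / ρ)) := by
  have r := h.r
  have e1 : (x - algebraMap k M α) / ρ = U + algebraMap k M (d.a (some i) - α) * ρ⁻¹ := by
    rw [h.ex, map_sub]; field_simp; ring
  have e2 : (y - algebraMap k M β) / ρ = V + algebraMap k M (d.b (some i) - β) * ρ⁻¹ := by
    rw [h.ey, map_sub]; field_simp; ring
  rw [e1, e2]
  have m : ∀ c : k, algebraMap k M c * ρ⁻¹ ∈ mx O := fun c => mx_mul_left (O.algebraMap_mem c) hr
  exact ⟨O.add_mem h.hU (m _).1, O.add_mem h.hV (m _).1,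
    h.uv.imp (fun u => u.add_mx h.loc (m _)) fun u => u.add_mx h.loc (m _)⟩

theorem or_inf (hr : ρ ∈ O ∨ ρ⁻¹ ∈ O) : ρ ∈ O ∨ ρ⁻¹ ∈ mx O := by
  rcases hr with hr | hr
  · exact Or.inl hr
  · exact (isU_or_mx hr).imp_left fun u => by simpa using u.2.2

theorem NF.prinH (h : NF d i O U V T0 T1 x y ρ x' y' ρ') (hr : ρ ∈ O ∨ ρ⁻¹ ∈ O) :
    Prin (SH x y) O := by
  rcases or_inf hr with hr | hr
  · refine ⟨1, gn_one ?_ ⟨1, by simp [SH], isU_one⟩⟩
    rintro _ (rfl | rfl | rfl)
    exacts [h.xm hr, h.ym hr, O.one_mem]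
  · obtain ⟨h1, h2, h3⟩ := h.inf hr 0 0
    simp only [map_zero, sub_zero] at h1 h2 h3
    refine ⟨ρ, ?_, ?_⟩
    · rintro _ (rfl | rfl | rfl)
      exacts [h1, h2, by simpa using hr.1]
    · exact h3.elim (fun u => ⟨x, by simp [SH], u⟩) fun u => ⟨y, by simp [SH], u⟩

theorem NF.prin_some (h : NF d i O U V T0 T1 x y ρ x' y' ρ') (j : Fin 9)
    (hx : xq d x (some j) ∈ mx O) (hy : yq d y (some j) ∈ mx O) (x0 : xq d x (some j) ≠ 0)
    (y0 : yq d y (some j) ≠ 0) : Prin (SQ d x y (some j)) O := by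
  have hv : ∀ l, (![x, y, 1] : Fin 3 → M) l - algebraMap k M (d.pt k (some j) l) ∈ mx O := by
    intro l
    fin_cases l
    · simpa [Dat.pt, xq] using hx
    · simpa [Dat.pt, yq] using hy
    · simpa [Dat.pt] using zero_mem_mx
  obtain ⟨m, hm, e⟩ := tay_loc h.loc hv d.F
  obtain ⟨n, hn, e'⟩ := tay_loc h.loc hv d.G
  have he := h.e
  rw [e, e', h.cub.vanF, h.cub.vanG, Fin.sum_univ_three, Fin.sum_univ_three] at he
  have he' : (T1 * m 0 - T0 * n 0) * xq d x (some j) + (T1 * m 1 - T0 * n 1) * yq d y (some j) = 0 := by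
    simp only [Dat.pt, Matrix.cons_val_zero, Matrix.cons_val_one, Matrix.cons_val, map_zero,
      map_one, sub_self, mul_zero, add_zero, zero_add, Algebra.algebraMap_self, RingHom.id_apply]
      at he
    simp only [xq, yq]
    linear_combination he
  have key : ∀ {a : M} {c : k}, a - algebraMap k M c ∈ mx O → a ∈ O := fun {a c} h => by
    simpa using O.add_mem h.1 (O.algebraMap_mem c)
  have mm : ∀ l, m l ∈ O := fun l => key (hm l)
  have nm : ∀ l, n l ∈ O := fun l => key (hn l)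
  have pm : ∀ l, T1 * m l - T0 * n l ∈ O := fun l =>
    O.sub_mem (O.mul_mem h.h1 (mm l)) (O.mul_mem h.h0 (nm l))
  rcases isU_or_mx (pm 0) with u | m0
  · refine ⟨_, gn_right y0 ?_⟩
    have := u.div_mem (O.neg_mem (pm 1))
    convert this using 1
    rw [div_eq_div_iff y0 u.1]
    linear_combination he'
  rcases isU_or_mx (pm 1) with u | m1
  · refine ⟨_, gn_left x0 ?_⟩
    have := u.div_mem (O.neg_mem (pm 0))
    convert this using 1
    rw [div_eq_div_iff x0 u.1]
    linear_combination he'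
  exfalso
  have c : ∀ l, T1 * m l - T0 * n l ∈ mx O →
      T1 * algebraMap k M (aeval (d.pt k (some j)) (pderiv l d.F)) -
        T0 * algebraMap k M (aeval (d.pt k (some j)) (pderiv l d.G)) ∈ mx O := fun l hl => by
    have := mx_add h.loc (mx_sub' h.loc hl (mx_mul_left h.h1 (hm l))) (mx_mul_left h.h0 (hn l))
    convert this using 1
    ring
  have hD := isU_const (O := O) (sub_ne_zero.2 (h.cub.jac j))
  rcases h.tu with u | u
  · refine (u.mul hD).not_mx ?_
    have := mx_sub' h.loc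
      (mx_mul_left (O.algebraMap_mem (aeval (d.pt k (some j)) (pderiv 1 d.F))) (c 0 m0))
      (mx_mul_left (O.algebraMap_mem (aeval (d.pt k (some j)) (pderiv 0 d.F))) (c 1 m1))
    convert this using 1
    simp only [map_sub, map_mul]
    ring
  · refine (u.mul hD).not_mx ?_
    have := mx_sub' h.loc
      (mx_mul_left (O.algebraMap_mem (aeval (d.pt k (some j)) (pderiv 1 d.G))) (c 0 m0))
      (mx_mul_left (O.algebraMap_mem (aeval (d.pt k (some j)) (pderiv 0 d.G))) (c 1 m1))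
    convert this using 1
    simp only [map_sub, map_mul]
    ring

/-- Over the singular point. -/
theorem NF.nu (h : NF d i O U V T0 T1 x y ρ x' y' ρ') (hx : x ∈ mx O) (hy : y ∈ mx O) :
    Sp O x y x' ∧ Sp O x y y' := by
  have hF : IsU O (aeval ![x, y, 1] d.F) := by
    have hv : ∀ l, (![x, y, 1] : Fin 3 → M) l - algebraMap k M ((![0, 0, 1] : Fin 3 → k) l) ∈
        mx O := by
      intro l
      fin_cases l
      · simpa using hx
      · simpa using hy
      · simpa using zero_mem_mx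
    have := (isU_const (O := O) h.cub.Fnu).add_mx h.loc (aeval_sub_const h.loc hv d.F)
    rwa [← coe_aeval_eq_eval, RingHom.coe_coe, add_sub_cancel] at this
  obtain ⟨g1, g2⟩ := h.cub.G_nu x y
  have sG := sp_of_adjoin hx.1 hy.1 g1
  have sD := fun l => sp_of_adjoin hx.1 hy.1 (g2 l)
  have s1 : Sp O x y T1 := by
    have := Sp.mul (hF.div_mem h.h0) sG
    rwa [div_mul_eq_mul_div, ← h.e, mul_div_cancel_right₀ _ hF.1] at this
  have e1 : U * ρ = x - algebraMap k M (d.a (some i)) := by rw [h.ex]; ring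
  have e2 : V * ρ = y - algebraMap k M (d.b (some i)) := by rw [h.ey]; ring
  have hr : ρ ∈ O := h.cancel (e1 ▸ O.sub_mem hx.1 (O.algebraMap_mem _))
    (e2 ▸ O.sub_mem hy.1 (O.algebraMap_mem _))
  have ur : IsU O ρ := isU_of_not_mx hr fun m => by
    have a0 : algebraMap k M (d.a (some i)) ∈ mx O := by
      simpa [e1] using mx_sub' h.loc hx (mx_mul_left h.hU m)
    have b0 : algebraMap k M (d.b (some i)) ∈ mx O := by
      simpa [e2] using mx_sub' h.loc hy (mx_mul_left h.hV m)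
    exact absurd (h.cub.inj (some i) none ((const_mem_mx.1 a0).trans h.cub.a0.symm)
      ((const_mem_mx.1 b0).trans h.cub.b0.symm)) (by simp)
  have hE : aa d i U V T0 T1 2 * ρ * (ρ - ρ') =
      pol d.F ![U, V, 0] ![x, y, 1] * T1 - T0 * pol d.G ![U, V, 0] ![x, y, 1] := by
    have hs := h.sum
    have hp := h.prod
    rw [h.ex, h.ey, pol_line' d h.cub.hF, pol_line' d h.cub.hG]
    simp only [aa] at hs hp ⊢
    linear_combination hp - 2 * ρ * hs
  have sE : Sp O x y (aa d i U V T0 T1 2 * ρ * (ρ - ρ')) := by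
    rw [hE]
    refine (Sp.mul ?_ s1).sub (Sp.mul h.h0 ?_)
    · rw [pol_eq]
      have := aeval_mem (tri_mem hx.1 hy.1 O.one_mem)
      have hv := tri_mem h.hU h.hV O.zero_mem
      exact O.add_mem (O.add_mem (O.mul_mem (hv 0) (this _)) (O.mul_mem (hv 1) (this _)))
        (O.mul_mem (hv 2) (this _))
    · rw [pol_eq]
      have hv := tri_mem h.hU h.hV O.zero_mem
      exact ((Sp.mul (hv 0) (sD 0)).add (Sp.mul (hv 1) (sD 1))).add (Sp.mul (hv 2) (sD 2))
  have mE := sE.mx h.loc hx hy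
  have u2 : IsU O (aa d i U V T0 T1 2) := isU_of_not_mx (h.am 2) fun m => by
    have m3 : aa d i U V T0 T1 2 * ρ' ∈ mx O := by
      have := mx_sub' h.loc (mx_mul_right m hr) (mx_div mE ur)
      convert this using 1
      have := ur.1
      field_simp
      ring
    rcases h.au with u | u | u
    · refine u.not_mx ?_
      have := mx_mul_right m3 hr
      convert this using 1
      linear_combination -h.prod
    · refine u.not_mx ?_
      have := mx_neg (mx_add h.loc (mx_mul_right m hr) m3)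
      convert this using 1
      linear_combination h.sum
    · exact u.not_mx m
  have sr : Sp O x y (ρ - ρ') := by
    have := Sp.mul (u2.mul ur).2.2 sE
    rwa [inv_mul_cancel_left₀ (u2.mul ur).1] at this
  constructor
  · have := Sp.left.sub (Sp.mul h.hU sr)
    convert this using 1
    rw [h.ex']; linear_combination e1
  · have := Sp.right.sub (Sp.mul h.hV sr)
    convert this using 1
    rw [h.ey']; linear_combination e2

theorem SQ_none (hc : Cub d) (x y : M) : SQ d x y none = {x, y} := by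
  simp [SQ, xq, yq, hc.a0, hc.b0]

theorem NF.ov (h : NF d i O U V T0 T1 x y ρ x' y' ρ') (ho : Ov d x y none O) :
    Ov d x' y' none O := by
  rw [Ov, SQ_none h.cub] at ho ⊢
  have hx := ho x (by simp)
  have hy := ho y (by simp)
  obtain ⟨s1, s2⟩ := h.nu hx hy
  rintro _ (rfl | rfl)
  exacts [s1.mx h.loc hx hy, s2.mx h.loc hx hy]

theorem NF.gn_nu (h : NF d i O U V T0 T1 x y ρ x' y' ρ') (ho : Ov d x y none O)
    (hg : Gn (SQ d x y none) O γ) : Gn (SQ d x' y' none) O γ := by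
  have ho' := h.ov ho
  rw [Ov, SQ_none h.cub] at ho ho'
  rw [SQ_none h.cub] at hg ⊢
  obtain ⟨s1, s2⟩ := h.nu (ho x (by simp)) (ho y (by simp))
  obtain ⟨s3, s4⟩ := h.symm.nu (ho' x' (by simp)) (ho' y' (by simp))
  exact gn_of_sp h.loc hg s1 s2 s3 s4

theorem NF.prinQ (h : NF d i O U V T0 T1 x y ρ x' y' ρ') (hg : GenP k x y)
    (hr : ρ ∈ O ∨ ρ⁻¹ ∈ O) (hp : Prin (SQ d x' y' none) O) (q : Q) : Prin (SQ d x y q) O := by
  rcases or_inf hr with hr | hr
  · have hx : xq d x q ∈ O := O.sub_mem (h.xm hr) (O.algebraMap_mem _)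
    have hy : yq d y q ∈ O := O.sub_mem (h.ym hr) (O.algebraMap_mem _)
    have hS : ∀ a ∈ SQ d x y q, a ∈ O := by rintro _ (rfl | rfl) <;> assumption
    rcases isU_or_mx hx with u | mx'
    · exact ⟨1, gn_one hS ⟨_, by simp [SQ], u⟩⟩
    rcases isU_or_mx hy with u | my'
    · exact ⟨1, gn_one hS ⟨_, by simp [SQ], u⟩⟩
    cases q with
    | none =>
      obtain ⟨γ, hγ⟩ := hp
      exact ⟨γ, h.symm.gn_nu (h.ov (by rintro _ (rfl | rfl) <;> assumption)) hγ⟩
    | some j => exact h.prin_some j mx' my' (hg.x_ne _) (hg.y_ne _)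
  · obtain ⟨h1, h2, h3⟩ := h.inf hr (d.a q) (d.b q)
    refine ⟨ρ, ?_, ?_⟩
    · rintro _ (rfl | rfl)
      exacts [h1, h2]
    · exact h3.elim (fun u => ⟨_, by simp [SQ, xq], u⟩) fun u => ⟨_, by simp [SQ, yq], u⟩

theorem par_symm (h : Par d x y i x' y') : Par d x' y' i x y := by
  obtain ⟨u, t, r, r', h1, h2, h3, h4, h5, h6, h7, h8, h9⟩ := h
  exact ⟨u, t, r', r, h3, h4, h1, h2, h6, h5, h7, by rw [add_comm]; exact h8,
    by rw [mul_comm r']; exact h9⟩

theorem exists_nf (hT : TAll d x y) (hg' : GenP k x' y') (h : Par d x y i x' y')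
    (hO : O ∈ TT d x y) : ∃ U V T0 T1 ρ ρ', NF d i O U V T0 T1 x y ρ x' y' ρ' := by
  obtain ⟨u, t, r, r', h1, h2, h3, h4, h5, -, h7, h8, h9⟩ := h
  have r0 : r ≠ 0 := by simpa [h2] using hT.gen.y_ne (d.b (some i))
  have r0' : r' ≠ 0 := by simpa [h4] using hg'.y_ne (d.b (some i))
  have u0 : u ≠ 0 := left_ne_zero_of_mul (b := r) (by simpa [h1] using hT.gen.x_ne (d.a (some i)))
  obtain ⟨U, V, c, hU, hV, huv, c0, eu, ev⟩ : ∃ U V c : M, U ∈ O ∧ V ∈ O ∧ (IsU O U ∨ IsU O V) ∧
      c ≠ 0 ∧ u = c * U ∧ 1 = c * V := by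
    have hp := (hT.loc.gQ O hO (some i)).prin.pair
    have e1 : xq d x (some i) = u * r := by rw [xq, h1]; ring
    have e2 : yq d y (some i) = r := by rw [yq, h2]; ring
    rw [e1, e2, mul_div_cancel_right₀ _ r0, div_mul_cancel_right₀ r0] at hp
    rcases hp with hp | hp
    · exact ⟨u, 1, 1, hp, O.one_mem, Or.inr isU_one, one_ne_zero, by ring, by ring⟩
    · exact ⟨1, u⁻¹, u, O.one_mem, hp, Or.inl isU_one, u0, by ring, (mul_inv_cancel₀ u0).symm⟩
  have hg := hT.pen.gnF O hO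
  set m := lb d x y cF O
  have m0 : m ≠ 0 := hT.loc.lbne O hO cF
  have t0 : fg d x y 1 * m ≠ 0 := mul_ne_zero (hT.pen.ne 1) m0
  have ea : ∀ j : Fin 3, (d.co d.F i u 1 j - t * d.co d.G i u 1 j) * (fg d x y 1 * m) =
      c ^ ((j : ℕ) + 1) * aa d i U V (fg d x y 0 * m) (fg d x y 1 * m) j := by
    intro j
    have e1 := co_smul d hT.cub.hF i c U V j
    have e2 := co_smul d hT.cub.hG i c U V j
    rw [← eu, ← ev] at e1 e2
    rw [aa, h5, e1, e2]
    ring
  have ea0 := ea 0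
  have ea1 := ea 1
  have ea2 := ea 2
  simp only [Fin.val_zero, Fin.val_one, Fin.val_two] at ea0 ea1 ea2
  refine ⟨U, V, fg d x y 0 * m, fg d x y 1 * m, c * r, c * r',
    { cub := hT.cub, loc := mp_loc hO, hU := hU, hV := hV, uv := huv
      h0 := by simpa using hg.1 (fg d x y 0) (by simp)
      h1 := by simpa using hg.1 (fg d x y 1) (by simp)
      tu := ?_
      ex := by rw [h1, eu]; ring
      ey := by rw [h2]; linear_combination r * ev
      ex' := by rw [h3, eu]; ring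
      ey' := by rw [h4]; linear_combination r' * ev
      r := mul_ne_zero c0 r0
      r' := mul_ne_zero c0 r0'
      ne := fun h => mul_ne_zero h7 t0 (by rw [ea2, h, mul_zero])
      sum := ?_
      prod := ?_ }⟩
  · obtain ⟨_, rfl | rfl, hu⟩ := hg.2
    · exact Or.inl (by simpa using hu)
    · exact Or.inr (by simpa using hu)
  · refine mul_left_cancel₀ (pow_ne_zero 2 c0) ?_
    linear_combination fg d x y 1 * m * h8 - (r + r') * ea2 - ea1
  · refine mul_left_cancel₀ c0 ?_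
    linear_combination fg d x y 1 * m * h9 - r * r' * ea2 + ea0

theorem prin_all (hT : TAll d x y) (hg' : GenP k x' y') (h : Par d x y i x' y')
    (hO : O ∈ TT d x y) (l : Option Q) : Prin (famT d x' y' l) O := by
  obtain ⟨U, V, T0, T1, ρ, ρ', h⟩ := exists_nf hT hg' h hO
  have hr := quad h.loc (h.am 0) (h.am 1) (h.am 2) h.au h.ne h.r h.r' h.sum h.prod
    (h.rho (hT.loc.gH O hO).prin)
  cases l with
  | none => exact h.symm.prinH hr
  | some q => exact h.symm.prinQ hg' hr (hT.loc.gQ O hO none).prin q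

theorem tt_eq (hT : TAll d x y) (hT' : TAll d x' y') (h : Par d x y i x' y') :
    TT d x' y' = TT d x y :=
  mp_eq hT'.loc.fam hT.loc.fam (fun _ hO => prin_all hT' hT.gen (par_symm h) hO)
    fun _ hO => prin_all hT hT'.gen h hO

theorem ex_unit (hT : TAll d x y) (hT' : TAll d x' y') (h : Par d x y i x' y')
    (hO : O ∈ TT d x y) : IsU O (ex d x' y' none O / ex d x y none O) := by
  have hO' : O ∈ TT d x' y' := tt_eq hT hT' h ▸ hO
  obtain ⟨U, V, T0, T1, ρ, ρ', h⟩ := exists_nf hT hT'.gen h hO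
  by_cases ho : Ov d x y none O
  · have ho' := h.ov ho
    have u := (hT'.loc.gQ O hO' none).unit (h.gn_nu ho (hT.loc.gQ O hO none))
    rw [Ov, SQ_none h.cub] at ho ho'
    have u1 := hT.loc.hu O hO (ho x (by simp)).1 (ho y (by simp)).1
    have u2 := hT'.loc.hu O hO' (ho' x' (by simp)).1 (ho' y' (by simp)).1
    have := (u.mul u1).div u2
    convert this using 1
    rw [ex, ex]
    have := u1.1
    have := u2.1
    have := (hT.loc.gQ O hO none).ne
    field_simp
  · exact (hT'.loc.exu O hO' none fun ho' => ho (h.symm.ov ho')).div (hT.loc.exu O hO none ho)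

end SigTx

open SigTx in
theorem sigT_stmt : SigTStmt := by
  intro k M _ _ _ _ _ d x y x' y' i hT hT' h
  have hE := tt_eq hT hT' h
  have hx : ∀ O ∈ TT d x y, IsU O (ex d x' y' none O / ex d x y none O) :=
    fun O hO => ex_unit hT hT' h hO
  obtain ⟨u, t, r, r', -, -, -, -, h5, h6, -⟩ := h
  have f0 := hT.pen.ne 0
  have f1 := hT.pen.ne 1
  have g0 := hT'.pen.ne 0
  have g1 := hT'.pen.ne 1
  have t0 : t ≠ 0 := left_ne_zero_of_mul (h5 ▸ f0)
  refine ⟨hE, hx, fun O hO j => ?_, by rw [h5, h6]; field_simp⟩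
  have hO' : O ∈ TT d x' y' := hE ▸ hO
  have l0 := hT.loc.lbne O hO
  have l0' := hT'.loc.lbne O hO'
  have hg := (hT.pen.gnF O hO).pair_mul (div_ne_zero g1 f1)
  have e0 : fg d x' y' 1 / fg d x y 1 * fg d x y 0 = fg d x' y' 0 := by rw [h5, h6]; field_simp
  rw [e0, div_mul_cancel₀ _ f1] at hg
  have u := hg.unit (hT'.pen.gnF O hO')
  fin_cases j
  · convert u using 1
    change fg d x' y' 0 * lb d x' y' cF O / (fg d x y 0 * lb d x y cF O) = _
    rw [← e0]
    have := l0 cF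
    have := l0' cF
    field_simp
  · convert u.div ((hx O hO).pow 2) using 1
    change fg d x' y' 1 * lb d x' y' cR O / (fg d x y 1 * lb d x y cR O) = _
    rw [hT.loc.lbF O hO, hT'.loc.lbF O hO']
    have := l0 cR
    have := l0' cR
    have e1 : ex d x y none O ≠ 0 := hT.loc.lbE O none ▸ l0 _
    have e2 : ex d x' y' none O ≠ 0 := hT'.loc.lbE O none ▸ l0' _
    field_simp

end Pool.Agent.MP_20d318_ag.BV

end MrgPart0

-- ======== part 1: formerly Pool.Agent.MP_20d318_ag.BV.XLoc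
section MrgPart1

/-! The charts of the threefold `X`. -/

set_option autoImplicit false

namespace Pool.Agent.MP_20d318_ag.BV

open Pool.Agent.MP_79c67d_ag Pool.Agent.MP_20d318_ag.AG MvPolynomial

namespace XLocA

variable {k M K : Type} [Field k] [Field M] [Field K] [Algebra k M] [Algebra k K]
  {d : Dat k} {x y : M} {ι : M →ₐ[k] K} {l : k} {ζ w : K} {O B : Subalgebra k K}

theorem x_ne (ht : TAll d x y) : x ≠ 0 := by simpa using ht.gen.x_ne 0

theorem y_ne (ht : TAll d x y) : y ≠ 0 := by simpa using ht.gen.y_ne 0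

theorem z_ne (he : Ext d x y ι l ζ w) (c : k) : ζ - algebraMap k K c ≠ 0 := by
  have := he.tr.ne (algebraMap k M c)
  rw [AlgHom.commutes] at this
  exact sub_ne_zero.2 this

theorem z0 (he : Ext d x y ι l ζ w) : ζ ≠ 0 := by simpa using z_ne he 0

theorem z1 (he : Ext d x y ι l ζ w) : ζ - 1 ≠ 0 := by simpa using z_ne he 1

theorem up_ne {m : M} (h : m ≠ 0) : ι m ≠ 0 := (map_ne_zero ι).2 h

theorem w_ne (ht : TAll d x y) (he : Ext d x y ι l ζ w) : w ≠ 0 := fun h => by
  have h1 := he.eq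
  rw [h, zero_pow two_ne_zero, zero_mul] at h1
  exact mul_ne_zero (up_ne (ht.pen.ne 0))
    (mul_ne_zero (mul_ne_zero (z0 he) (z1 he)) (z_ne he l)) h1.symm

theorem eta_ne (he : Ext d x y ι l ζ w) (O : Subalgebra k K) : eta ζ O ≠ 0 := by
  unfold eta
  split_ifs
  · exact one_ne_zero
  · exact z0 he

theorem tau_ne (he : Ext d x y ι l ζ w) (O : Subalgebra k K) (j : Fin 4) : tau l ζ j O ≠ 0 := by
  refine div_ne_zero ?_ (eta_ne he O)
  fin_cases j
  · exact z0 he
  · exact z1 he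
  · exact z_ne he l
  · exact one_ne_zero

theorem ind (ht : TAll d x y) (he : Ext d x y ι l ζ w) : AlgebraicIndependent k ![ι x, ι y, ζ] := by
  let _ : Algebra M K := (ι : M →+* K).toAlgebra
  have : IsScalarTower k M K := IsScalarTower.of_algebraMap_eq fun c => (ι.commutes c).symm
  have h1 : Transcendental M ζ := transcendental_iff.2 fun p hp => he.tr p hp
  have h2 := ht.gen.ind.sumElim_comp (algebraicIndependent_iff_transcendental.2 h1)
  have h3 := h2.comp (![Sum.inr 0, Sum.inr 1, Sum.inl 0] : Fin 3 → Fin 1 ⊕ Fin 2) (by decide)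
  have h4 : (![ι x, ι y, ζ] : Fin 3 → K) = Sum.elim ![ζ] (algebraMap M K ∘ ![x, y]) ∘
      (![Sum.inr 0, Sum.inr 1, Sum.inl 0] : Fin 3 → Fin 1 ⊕ Fin 2) := by
    funext i
    fin_cases i <;> rfl
  rw [h4]
  exact h3

theorem tp (he : Ext d x y ι l ζ w) (O : Subalgebra k K) : ∃ α β : Fin 4 → k,
    (∀ j, tau l ζ j O = algebraMap k K (α j) * zc ζ O + algebraMap k K (β j)) ∧
    ∀ j j', j ≠ j' → α j * β j' ≠ α j' * β j := by
  have h0 := he.l0
  have h1 := he.l1
  have h1' := h1.symm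
  have hz := z0 he
  by_cases h : ζ ∈ O
  · refine ⟨![1, 1, 1, 0], ![0, -1, -l, 1], fun j => ?_, fun j j' hj => ?_⟩
    · fin_cases j <;> simp [tau, eta, zc, h, sub_eq_add_neg]
    · fin_cases j <;> fin_cases j' <;> simp_all
  · refine ⟨![0, -1, -l, 1], ![1, 1, 1, 0], fun j => ?_, fun j j' hj => ?_⟩
    · fin_cases j <;> simp [tau, eta, zc, h, hz, div_eq_mul_inv, sub_mul] <;> ring
    · fin_cases j <;> fin_cases j' <;> simp_all

/-- The product of the four equations is a polynomial in the coordinate. -/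
theorem prod_tau (he : Ext d x y ι l ζ w) (O : Subalgebra k K) : ∃ g : Polynomial k,
    g.coeff 1 ≠ 0 ∧ ∏ j, tau l ζ j O = Polynomial.aeval (zc ζ O) g := by
  have h0 := he.l0
  have hz := z0 he
  by_cases h : ζ ∈ O
  · refine ⟨Polynomial.X ^ 3 - Polynomial.C (l + 1) * Polynomial.X ^ 2 + Polynomial.C l * Polynomial.X,
      by simpa [Polynomial.coeff_X_pow, Polynomial.coeff_C_mul, -map_add] using h0, ?_⟩
    simp [Fin.prod_univ_four, tau, eta, zc, h]
    ring
  · refine ⟨Polynomial.C l * Polynomial.X ^ 3 - Polynomial.C (l + 1) * Polynomial.X ^ 2 + Polynomial.X,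
      by simp [Polynomial.coeff_X_pow, Polynomial.coeff_C_mul, -map_add], ?_⟩
    simp [Fin.prod_univ_four, tau, eta, zc, h]
    field_simp
    ring

theorem prod_eq (O : Subalgebra k K) :
    ∏ j, tau l ζ j O = ζ * (ζ - 1) * (ζ - algebraMap k K l) / eta ζ O ^ 4 := by
  simp only [Fin.prod_univ_four, tau]
  simp only [Matrix.cons_val_zero, Matrix.cons_val_one, Matrix.cons_val]
  ring

theorem eta_cases (ζ : K) (O : Subalgebra k K) :
    (eta ζ O = 1 ∧ zc ζ O = ζ) ∨ (eta ζ O = ζ ∧ zc ζ O = ζ⁻¹) := by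
  by_cases h : ζ ∈ O
  · exact Or.inl ⟨if_pos h, if_pos h⟩
  · exact Or.inr ⟨if_neg h, if_neg h⟩

theorem xq0 (ht : TAll d x y) : xq d x none = x := by simp [xq, ht.cub.a0]

theorem yq0 (ht : TAll d x y) : yq d y none = y := by simp [yq, ht.cub.b0]

theorem gN (ht : TAll d x y) {R : Subalgebra k M} (hR : R ∈ TT d x y) :
    Gn {x, y} R (gn (SQ d x y none) R) := by
  have := ht.loc.gQ R hR none
  rwa [show SQ d x y none = {x, y} by rw [SQ, xq0 ht, yq0 ht]] at this ⊢

theorem s_ne (ht : TAll d x y) {R : Subalgebra k M} (hR : R ∈ TT d x y) (i : Fin 2) :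
    sT d x y i R ≠ 0 := mul_ne_zero (ht.pen.ne i) (ht.loc.lbne R hR _)

theorem e_ne (ht : TAll d x y) {R : Subalgebra k M} (hR : R ∈ TT d x y) : ex d x y none R ≠ 0 :=
  div_ne_zero (ht.loc.gQ R hR none).ne (ht.loc.gH R hR).ne

theorem s_rel (ht : TAll d x y) {R : Subalgebra k M} (hR : R ∈ TT d x y) :
    sT d x y 1 R * ex d x y none R ^ 2 = fg d x y 1 / fg d x y 0 * sT d x y 0 R := by
  have h := ht.loc.lbF R hR
  have h0 := ht.pen.ne 0
  have e0 : sT d x y 0 R = fg d x y 0 * lb d x y cF R := rfl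
  have e1 : sT d x y 1 R = fg d x y 1 * lb d x y cR R := rfl
  rw [e0, e1, h]
  field_simp

variable (d x y ι ζ) in
/-- The common factor of the family defining the blow-up. -/
noncomputable def NN (O : Subalgebra k K) : K := ι (gn (SH x y) (pr ι (TT d x y) O)) * eta ζ O ^ 2

section loc

variable (ht : TAll d x y) (he : Ext d x y ι l ζ w) (hR : pr ι (TT d x y) O ∈ TT d x y)

include ht he hR

theorem N_ne : NN d x y ι ζ O ≠ 0 :=
  mul_ne_zero (up_ne (ht.loc.gH _ hR).ne) (pow_ne_zero _ (eta_ne he O))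

theorem A_ne : AA d x y ι ζ w O ≠ 0 :=
  div_ne_zero (mul_ne_zero (w_ne ht he) (up_ne (e_ne ht hR)))
    (mul_ne_zero (up_ne (s_ne ht hR 0)) (pow_ne_zero _ (eta_ne he O)))

theorem eqn : AA d x y ι ζ w O ^ 2 * (sX d x y ι 0 O * sX d x y ι 1 O) = ∏ j, tau l ζ j O := by
  have h1 := congrArg ι (s_rel ht hR)
  simp only [map_mul, map_pow, map_div₀] at h1
  have h2 := he.eq
  have h3 := eta_ne he O
  have h4 : ι (sT d x y 0 (pr ι (TT d x y) O)) ≠ 0 := up_ne (s_ne ht hR 0)
  have h5 : ι (fg d x y 0) ≠ 0 := up_ne (ht.pen.ne 0)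
  rw [prod_eq, eq_div_iff (pow_ne_zero _ h3)]
  simp only [AA, sX, up]
  field_simp
  field_simp at h1
  apply mul_left_cancel₀ h5
  apply mul_left_cancel₀ h4
  linear_combination w ^ 2 * ι (sT d x y 0 (pr ι (TT d x y) O)) * h1 +
    ι (sT d x y 0 (pr ι (TT d x y) O)) ^ 2 * h2

theorem w_eq (m : M) : w * ι m = NN d x y ι ζ O * AA d x y ι ζ w O *
    ι (sT d x y 0 (pr ι (TT d x y) O) * (m / gn (SQ d x y none) (pr ι (TT d x y) O))) := by
  have h3 := eta_ne he O
  have h4 : ι (sT d x y 0 (pr ι (TT d x y) O)) ≠ 0 := up_ne (s_ne ht hR 0)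
  have h5 : ι (gn (SQ d x y none) (pr ι (TT d x y) O)) ≠ 0 := up_ne (ht.loc.gQ _ hR none).ne
  have h6 : ι (gn (SH x y) (pr ι (TT d x y) O)) ≠ 0 := up_ne (ht.loc.gH _ hR).ne
  simp only [NN, AA, sX, up, ex, map_mul, map_div₀]
  field_simp

theorem w_eq' (m : M) : w * ι (fg d x y 1 / fg d x y 0 * m) = NN d x y ι ζ O * AA d x y ι ζ w O *
    ι (sT d x y 1 (pr ι (TT d x y) O) * ex d x y none (pr ι (TT d x y) O) ^ 2 *
      (m / gn (SQ d x y none) (pr ι (TT d x y) O))) := by
  rw [w_eq ht he hR, s_rel ht hR]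
  congr 2
  ring

theorem v_eq (m : M) (c : K) : ι m * c = NN d x y ι ζ O *
    (ι (m / gn (SH x y) (pr ι (TT d x y) O)) * (c / eta ζ O ^ 2)) := by
  have h3 := eta_ne he O
  have h6 : ι (gn (SH x y) (pr ι (TT d x y) O)) ≠ 0 := up_ne (ht.loc.gH _ hR).ne
  simp only [NN, map_div₀]
  field_simp

theorem SI_mem (hB : ∀ a ∈ pr ι (TT d x y) O, ι a ∈ B) (hz : zc ζ O ∈ B) :
    ∀ c ∈ SI d x y ι ζ w, ∃ b ∈ B,
      c = NN d x y ι ζ O * AA d x y ι ζ w O * b ∨ c = NN d x y ι ζ O * b := by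
  have g := (gN ht hR).1
  have gx := g x (by simp)
  have gy := g y (by simp)
  have g' := (ht.loc.gH _ hR).1
  have s0 := ht.pen.mem _ hR 0
  have s1 := mul_mem (ht.pen.mem _ hR 1) (pow_mem (ht.loc.exm _ hR none) 2)
  have hz0 := z0 he
  have p1 : 1 / eta ζ O ^ 2 ∈ B := by
    rcases eta_cases ζ O with ⟨h1, h2⟩ | ⟨h1, h2⟩
    · rw [h1]; simp
    · rw [h1, one_div, ← inv_pow, ← h2]; exact pow_mem hz 2
  have p2 : ζ ^ 2 / eta ζ O ^ 2 ∈ B := by
    rcases eta_cases ζ O with ⟨h1, h2⟩ | ⟨h1, h2⟩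
    · rw [h1, one_pow, div_one, ← h2]; exact pow_mem hz 2
    · rw [h1, div_self (pow_ne_zero _ hz0)]; exact B.one_mem
  have key : ∀ m ∈ SH x y, ∀ c : K, c / eta ζ O ^ 2 ∈ B → ∃ b ∈ B,
      ι m * c = NN d x y ι ζ O * AA d x y ι ζ w O * b ∨ ι m * c = NN d x y ι ζ O * b :=
    fun m hm c hc => ⟨_, mul_mem (hB _ (g' m hm)) hc, Or.inr (v_eq ht he hR m c)⟩
  intro c hc
  simp only [SI, Set.mem_insert_iff, Set.mem_singleton_iff] at hc
  rcases hc with rfl | rfl | rfl | rfl | rfl | rfl | rfl | rfl | rfl | rfl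
  · exact ⟨_, hB _ (mul_mem s0 gx), Or.inl (w_eq ht he hR x)⟩
  · exact ⟨_, hB _ (mul_mem s0 gy), Or.inl (w_eq ht he hR y)⟩
  · exact ⟨_, hB _ (mul_mem s1 gx), Or.inl (w_eq' ht he hR x)⟩
  · exact ⟨_, hB _ (mul_mem s1 gy), Or.inl (w_eq' ht he hR y)⟩
  · simpa using key x (by simp [SH]) 1 p1
  · simpa using key y (by simp [SH]) 1 p1
  · simpa using key 1 (by simp [SH]) 1 p1
  · exact key x (by simp [SH]) _ p2
  · exact key y (by simp [SH]) _ p2
  · simpa using key 1 (by simp [SH]) _ p2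

theorem SI_one : ∃ u, IsU (pr ι (TT d x y) O) u ∧
    NN d x y ι ζ O * AA d x y ι ζ w O * ι u ∈ SI d x y ι ζ w := by
  obtain ⟨m, hm, hu⟩ := (gN ht hR).2
  rcases ht.pen.one _ hR with h | h
  · refine ⟨_, h.mul hu, ?_⟩
    rw [← w_eq ht he hR]
    rcases hm with rfl | rfl <;> simp [SI]
  · refine ⟨_, h.mul hu, ?_⟩
    rw [← w_eq' ht he hR]
    rcases hm with rfl | rfl <;> simp only [SI, Set.mem_insert_iff, true_or, or_true]

theorem SI_two : ∃ u, IsU (pr ι (TT d x y) O) u ∧ NN d x y ι ζ O * ι u ∈ SI d x y ι ζ w := by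
  obtain ⟨m, hm, hu⟩ := (ht.loc.gH _ hR).2
  refine ⟨_, hu, ?_⟩
  have h1 := v_eq ht he hR m (eta ζ O ^ 2)
  rw [div_self (pow_ne_zero _ (eta_ne he O)), mul_one] at h1
  rw [← h1]
  rcases eta_cases ζ O with ⟨h2, -⟩ | ⟨h2, -⟩ <;> rw [h2] <;>
    rcases hm with rfl | rfl | rfl <;> simp [SI]

theorem chart_SI (hB : ∀ a ∈ pr ι (TT d x y) O, ι a ∈ B) (hz : zc ζ O ∈ B)
    (ha : AA d x y ι ζ w O ∈ B ∨ (AA d x y ι ζ w O)⁻¹ ∈ B) :
    ∃ b ∈ SI d x y ι ζ w, b ≠ 0 ∧ ∀ c ∈ SI d x y ι ζ w, c / b ∈ B := by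
  have hN := N_ne ht he hR
  have hA := A_ne ht he hR
  rcases ha with ha | ha
  · obtain ⟨u, hu, h⟩ := SI_two ht he hR
    have h0 : ι u ≠ 0 := up_ne hu.ne
    have h1 : (ι u)⁻¹ ∈ B := by simpa using hB _ hu.inv_mem
    refine ⟨_, h, mul_ne_zero hN h0, fun c hc => ?_⟩
    obtain ⟨b, hb, rfl | rfl⟩ := SI_mem ht he hR hB hz c hc
    · exact Set.mem_of_eq_of_mem (by field_simp) (mul_mem (mul_mem ha hb) h1)
    · exact Set.mem_of_eq_of_mem (by field_simp) (mul_mem hb h1)
  · obtain ⟨u, hu, h⟩ := SI_one ht he hR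
    have h0 : ι u ≠ 0 := up_ne hu.ne
    have h1 : (ι u)⁻¹ ∈ B := by simpa using hB _ hu.inv_mem
    refine ⟨_, h, mul_ne_zero (mul_ne_zero hN hA) h0, fun c hc => ?_⟩
    obtain ⟨b, hb, rfl | rfl⟩ := SI_mem ht he hR hB hz c hc
    · exact Set.mem_of_eq_of_mem (by field_simp) (mul_mem hb h1)
    · exact Set.mem_of_eq_of_mem (by field_simp) (mul_mem (mul_mem ha hb) h1)

theorem aa_of (hB : ∀ a ∈ pr ι (TT d x y) O, ι a ∈ B) (hz : zc ζ O ∈ B)
    (hp : Prin (SI d x y ι ζ w) B) : AA d x y ι ζ w O ∈ B ∨ (AA d x y ι ζ w O)⁻¹ ∈ B := by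
  have hN := N_ne ht he hR
  have hA := A_ne ht he hR
  obtain ⟨c, hc, hg⟩ := hp.exists_mem
  have hc0 := hg.ne
  obtain ⟨b, hb, rfl | rfl⟩ := SI_mem ht he hR hB hz c hc
  · obtain ⟨u, hu, h⟩ := SI_two ht he hR
    have h0 : ι u ≠ 0 := up_ne hu.ne
    have h1 : (ι u)⁻¹ ∈ B := by simpa using hB _ hu.inv_mem
    have hb0 := right_ne_zero_of_mul hc0
    right
    exact Set.mem_of_eq_of_mem (by field_simp) (mul_mem (mul_mem (hg.1 _ h) hb) h1)
  · obtain ⟨u, hu, h⟩ := SI_one ht he hR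
    have h0 : ι u ≠ 0 := up_ne hu.ne
    have h1 : (ι u)⁻¹ ∈ B := by simpa using hB _ hu.inv_mem
    have hb0 := right_ne_zero_of_mul hc0
    left
    exact Set.mem_of_eq_of_mem (by field_simp) (mul_mem (mul_mem (hg.1 _ h) hb) h1)

end loc

section glob

variable (ht : TAll d x y) (he : Ext d x y ι l ζ w)

include ht he

theorem fam : Fam k (famX d x y ι ζ w) where
  fin := by
    rintro (o | b)
    · exact (ht.loc.fam.fin o).image ι
    · cases b
      · exact Set.toFinite ({ζ, 1} : Set K)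
      · change (SI d x y ι ζ w).Finite
        unfold SI
        exact Set.toFinite _
  ne := by
    rintro (o | b)
    · exact (ht.loc.fam.ne o).image ι
    · cases b
      · exact ⟨ζ, Or.inl rfl⟩
      · exact ⟨w * ι x, Or.inl rfl⟩
  nz := by
    have hx : ι x ≠ 0 := up_ne (x_ne ht)
    have hy : ι y ≠ 0 := up_ne (y_ne ht)
    have hw := w_ne ht he
    have hz := z0 he
    have hf := div_ne_zero (ht.pen.ne 1) (ht.pen.ne 0)
    rintro (o | b) a ha
    · obtain ⟨m, hm, rfl⟩ := ha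
      exact up_ne (ht.loc.fam.nz o m hm)
    · cases b
      · rcases ha with rfl | rfl
        · exact hz
        · exact one_ne_zero
      · change a ∈ SI d x y ι ζ w at ha
        simp only [SI, Set.mem_insert_iff, Set.mem_singleton_iff] at ha
        rcases ha with rfl | rfl | rfl | rfl | rfl | rfl | rfl | rfl | rfl | rfl
        · exact mul_ne_zero hw hx
        · exact mul_ne_zero hw hy
        · exact mul_ne_zero hw (up_ne (mul_ne_zero hf (x_ne ht)))
        · exact mul_ne_zero hw (up_ne (mul_ne_zero hf (y_ne ht)))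
        · exact hx
        · exact hy
        · exact one_ne_zero
        · exact mul_ne_zero hx (pow_ne_zero _ hz)
        · exact mul_ne_zero hy (pow_ne_zero _ hz)
        · exact pow_ne_zero _ hz
  top := by
    have hx : ι x ≠ 0 := up_ne (x_ne ht)
    rw [eq_top_iff, ← he.top, IntermediateField.adjoin_le_iff]
    rintro f (⟨m, h⟩ | h | h)
    · have h1 : (⊤ : IntermediateField k M) ≤ (IntermediateField.adjoin k
          {f | ∃ l, ∃ a ∈ famX d x y ι ζ w l, ∃ b ∈ famX d x y ι ζ w l, f = a / b}).comap ι := by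
        rw [← ht.loc.fam.top, IntermediateField.adjoin_le_iff]
        rintro _ ⟨o, a, ha, b, hb, rfl⟩
        exact IntermediateField.subset_adjoin _ _
          ⟨Sum.inl o, ι a, ⟨a, ha, rfl⟩, ι b, ⟨b, hb, rfl⟩, map_div₀ ι a b⟩
      exact h ▸ h1 (IntermediateField.mem_top (x := m))
    · exact IntermediateField.subset_adjoin _ _
        ⟨Sum.inr false, ζ, Or.inl rfl, 1, Or.inr rfl, by simpa using h⟩
    · refine IntermediateField.subset_adjoin _ _ ⟨Sum.inr true, w * ι x, Or.inl rfl, ι x, ?_, ?_⟩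
      · change ι x ∈ SI d x y ι ζ w
        simp [SI]
      · rw [mul_div_cancel_right₀ _ hx]
        exact h

theorem maps : Maps ι (XX d x y ι ζ w) (TT d x y) := fun O hO => by
  refine exists_mp_dom (isLocalRing_comap ι (mp_loc hO)) fun o => ?_
  obtain ⟨_, ⟨b, -, rfl⟩, hg⟩ := (mp_prin (fam ht he) hO (Sum.inl o)).exists_mem
  exact ((gn_map ι).1 hg).prin

variable (hO : O ∈ XX d x y ι ζ w)

include hO

theorem zm : zc ζ O ∈ O := by
  unfold zc
  split_ifs with h
  · exact h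
  · rcases Prin.pair (mp_prin (fam ht he) hO (Sum.inr false)) with h1 | h1
    · exact absurd (by simpa using h1) h
    · simpa using h1

theorem gZ : Gn {ζ, 1} O (eta ζ O) := by
  have hz := zm ht he hO
  rcases eta_cases ζ O with ⟨h1, h2⟩ | ⟨h1, h2⟩
  · rw [h1]
    exact gn_right one_ne_zero (by rw [div_one, ← h2]; exact hz)
  · rw [h1]
    exact gn_left (z0 he) (by rw [one_div, ← h2]; exact hz)

theorem aa : AA d x y ι ζ w O ∈ O ∨ (AA d x y ι ζ w O)⁻¹ ∈ O :=
  aa_of ht he ((maps ht he).mem hO) (fun _ ha => (maps ht he).mem_up hO ha) (zm ht he hO)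
    (mp_prin (fam ht he) hO (Sum.inr true))

theorem pts (a : K) (ha : a ∈ O) (h : a = AA d x y ι ζ w O ∨ a = (AA d x y ι ζ w O)⁻¹) :
    O ∈ Pts (Algebra.adjoin k (ι '' pr ι (TT d x y) O ∪ {zc ζ O, a})) := by
  have hm := maps ht he
  have hB : ∀ b ∈ pr ι (TT d x y) O,
      ι b ∈ Algebra.adjoin k (ι '' pr ι (TT d x y) O ∪ {zc ζ O, a}) := fun b hb =>
    Algebra.subset_adjoin (Or.inl ⟨b, hb, rfl⟩)
  have hz : zc ζ O ∈ Algebra.adjoin k (ι '' pr ι (TT d x y) O ∪ {zc ζ O, a}) :=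
    Algebra.subset_adjoin (Or.inr (Or.inl rfl))
  have ha' : a ∈ Algebra.adjoin k (ι '' pr ι (TT d x y) O ∪ {zc ζ O, a}) :=
    Algebra.subset_adjoin (Or.inr (Or.inr rfl))
  refine mp_chart (fam ht he) hO ?_ ?_
  · rw [Algebra.adjoin_le_iff]
    rintro _ (⟨b, hb, rfl⟩ | rfl | rfl)
    · exact hm.mem_up hO hb
    · exact zm ht he hO
    · exact ha
  · rintro (o | b)
    · obtain ⟨b, hb, hg⟩ := (mp_prin ht.loc.fam (hm.mem hO) o).exists_mem
      refine ⟨ι b, ⟨b, hb, rfl⟩, ?_⟩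
      rintro _ ⟨c, hc, rfl⟩
      rw [← map_div₀]
      exact le_fr (hB _ (hg.1 c hc))
    · cases b
      · have hz0 := z0 he
        rcases eta_cases ζ O with ⟨-, h2⟩ | ⟨-, h2⟩
        · refine ⟨1, Or.inr rfl, fun c hc => le_fr ?_⟩
          rcases hc with hc | hc <;> rw [hc, div_one]
          · exact Set.mem_of_eq_of_mem h2.symm hz
          · exact one_mem _
        · refine ⟨ζ, Or.inl rfl, fun c hc => le_fr ?_⟩
          rcases hc with hc | hc <;> rw [hc]
          · rw [div_self hz0]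
            exact one_mem _
          · rw [one_div]
            exact Set.mem_of_eq_of_mem h2.symm hz
      · obtain ⟨b, hb, -, h1⟩ := chart_SI ht he (hm.mem hO) hB hz
          (h.imp (fun h => Set.mem_of_eq_of_mem h.symm ha') fun h => Set.mem_of_eq_of_mem h.symm ha')
        exact ⟨b, hb, fun c hc => le_fr (h1 c hc)⟩

theorem tm (j : Fin 4) : tau l ζ j O ∈ O := by
  obtain ⟨α, β, h, -⟩ := tp he O
  rw [h]
  exact add_mem (mul_mem (O.algebraMap_mem _) (zm ht he hO)) (O.algebraMap_mem _)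

theorem sm (i : Fin 2) : sX d x y ι i O ∈ O :=
  (maps ht he).mem_up hO (ht.pen.mem _ ((maps ht he).mem hO) i)

omit ht in
theorem t1 (j j' : Fin 4) (h : tau l ζ j O ∈ mx O) (h' : tau l ζ j' O ∈ mx O) : j = j' := by
  by_contra hn
  obtain ⟨α, β, h1, h2⟩ := tp he O
  have h3 := mx_sub' (mp_loc hO) (mx_mul_left (O.algebraMap_mem (α j)) h')
    (mx_mul_left (O.algebraMap_mem (α j')) h)
  have h4 : algebraMap k K (α j) * tau l ζ j' O - algebraMap k K (α j') * tau l ζ j O =
      algebraMap k K (α j * β j' - α j' * β j) := by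
    rw [h1, h1, map_sub, map_mul, map_mul]
    ring
  rw [h4, const_mem_mx, sub_eq_zero] at h3
  exact h2 j j' hn h3

theorem s01 (h : sX d x y ι 0 O ∈ mx O) (h' : sX d x y ι 1 O ∈ mx O) : False := by
  have hm := maps ht he
  have hR := hm.mem hO
  rcases ht.pen.one _ hR with h1 | h1
  · exact (hm.isU_up hO h1).not_mx h
  · exact (hm.isU_up hO (IsU.of_mul (ht.pen.mem _ hR 1)
      (pow_mem (ht.loc.exm _ hR none) 2) h1)).not_mx h'

theorem s1 (i i' : Fin 2) (h : sX d x y ι i O ∈ mx O) (h' : sX d x y ι i' O ∈ mx O) : i = i' := by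
  fin_cases i <;> fin_cases i'
  · rfl
  · exact (s01 ht he hO h h').elim
  · exact (s01 ht he hO h' h).elim
  · rfl

theorem ss_mem (u : K) : sX d x y ι 0 O * sX d x y ι 1 O ∈
    Algebra.adjoin k (ι '' pr ι (TT d x y) O ∪ {u}) :=
  mul_mem (Algebra.subset_adjoin (Or.inl ⟨_, ht.pen.mem _ ((maps ht he).mem hO) 0, rfl⟩))
    (Algebra.subset_adjoin (Or.inl ⟨_, ht.pen.mem _ ((maps ht he).mem hO) 1, rfl⟩))

/-- The coordinate on the line is algebraic over the rest. -/
theorem algZ : AlgM O (Algebra.adjoin k (ι '' pr ι (TT d x y) O ∪ {AA d x y ι ζ w O})) (zc ζ O) := by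
  obtain ⟨g, h1, h2⟩ := prod_tau he O
  have hA : AA d x y ι ζ w O ∈ Algebra.adjoin k (ι '' pr ι (TT d x y) O ∪ {AA d x y ι ζ w O}) :=
    Algebra.subset_adjoin (Or.inr rfl)
  refine ⟨g.map (algebraMap k K) -
    Polynomial.C (AA d x y ι ζ w O ^ 2 * (sX d x y ι 0 O * sX d x y ι 1 O)), fun i => ?_, ⟨1, ?_⟩, ?_⟩
  · rw [Polynomial.coeff_sub, Polynomial.coeff_map, Polynomial.coeff_C]
    refine sub_mem (Subalgebra.algebraMap_mem _ _) ?_
    split_ifs
    · exact mul_mem (pow_mem hA 2) (ss_mem ht he hO _)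
    · exact zero_mem _
  · rw [Polynomial.coeff_sub, Polynomial.coeff_map, Polynomial.coeff_C, if_neg one_ne_zero, sub_zero]
    exact isU_const h1
  · rw [Polynomial.eval_sub, Polynomial.eval_C, eqn ht he ((maps ht he).mem hO), h2,
      Polynomial.eval_map_algebraMap, sub_self]
    exact zero_mem_mx

/-- Away from the branch curves the fibre coordinate is algebraic over the rest. -/
theorem algA (hs : ∀ i, IsU O (sX d x y ι i O)) :
    AlgM O (Algebra.adjoin k (ι '' pr ι (TT d x y) O ∪ {zc ζ O})) (AA d x y ι ζ w O) := by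
  obtain ⟨g, -, h2⟩ := prod_tau he O
  have hz : zc ζ O ∈ Algebra.adjoin k (ι '' pr ι (TT d x y) O ∪ {zc ζ O}) :=
    Algebra.subset_adjoin (Or.inr rfl)
  refine ⟨Polynomial.monomial 2 (sX d x y ι 0 O * sX d x y ι 1 O) -
    Polynomial.C (∏ j, tau l ζ j O), fun i => ?_, ⟨2, ?_⟩, ?_⟩
  · rw [Polynomial.coeff_sub, Polynomial.coeff_monomial, Polynomial.coeff_C]
    refine sub_mem ?_ ?_ <;> split_ifs
    · exact ss_mem ht he hO _
    · exact zero_mem _
    · rw [h2]
      exact Polynomial.aeval_mem_adjoin_singleton k _ |> (Algebra.adjoin_le (by simpa using hz))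
    · exact zero_mem _
  · rw [Polynomial.coeff_sub, Polynomial.coeff_monomial, Polynomial.coeff_C, if_pos rfl,
      if_neg two_ne_zero, sub_zero]
    exact (hs 0).mul (hs 1)
  · rw [Polynomial.eval_sub, Polynomial.eval_C, Polynomial.eval_monomial,
      ← eqn ht he ((maps ht he).mem hO), mul_comm, sub_self]
    exact zero_mem_mx

variable (hD : DimUpStmt) {n : ℕ} (hn : Dim (pr ι (TT d x y) O) n)

include hD hn

theorem upA (ha : AA d x y ι ζ w O ∈ O) : Dim O (n + 1) ∧
    (AlgM O ((pr ι (TT d x y) O).map ι) (AA d x y ι ζ w O) → Dim O n) :=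
  hD k M K ι _ O _ (zc ζ O) n ((maps ht he).dom hO)
    (by rw [Set.pair_comm]; exact pts ht he hO _ ha (Or.inl rfl)) hn (algZ ht he hO)

theorem upZ (a : K) (ha : a ∈ mx O) (h : a = AA d x y ι ζ w O ∨ a = (AA d x y ι ζ w O)⁻¹) :
    Dim O (n + 1) ∧ (AlgM O ((pr ι (TT d x y) O).map ι) (zc ζ O) → Dim O n) :=
  hD k M K ι _ O _ a n ((maps ht he).dom hO) (pts ht he hO a ha.1 h) hn
    (algM_of_mx (c := 0) (by simpa using ha))

omit hD hn in
theorem inv_mx (h : AA d x y ι ζ w O ∉ O) : (AA d x y ι ζ w O)⁻¹ ∈ mx O :=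
  ⟨(aa ht he hO).resolve_left h, fun h1 => h (by simpa using h1.inv_mem)⟩

theorem dim : Dim O (n + 1) := by
  by_cases h : AA d x y ι ζ w O ∈ O
  · exact (upA ht he hO hD hn h).1
  · exact (upZ ht he hO hD hn _ (inv_mx ht he hO h) (Or.inr rfl)).1

theorem dimZ (h1 : AlgM O ((pr ι (TT d x y) O).map ι) (zc ζ O))
    (h2 : ¬ (IsU O (AA d x y ι ζ w O) ∧ ∃ i, sX d x y ι i O ∈ mx O)) : Dim O n := by
  by_cases h : AA d x y ι ζ w O ∈ O
  · rcases isU_or_mx h with h3 | h3
    · exact (hD k M K ι _ O _ _ n ((maps ht he).dom hO) (pts ht he hO _ h (Or.inl rfl)) hn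
        (algA ht he hO fun i => isU_of_not_mx (sm ht he hO i) fun h4 => h2 ⟨h3, i, h4⟩)).2 h1
    · exact (upZ ht he hO hD hn _ h3 (Or.inl rfl)).2 h1
  · exact (upZ ht he hO hD hn _ (inv_mx ht he hO h) (Or.inr rfl)).2 h1

end glob

end XLocA

open XLocA in
theorem xLoc_stmt : XLocStmt := fun hD _ _ _ _ _ _ _ _ _ _ _ _ _ _ _ _ _ ht he =>
  { fam := fam ht he
    fine := fine_mp (fam ht he)
    maps := maps ht he
    ind := ind ht he
    wne := w_ne ht he
    tne := tau_ne he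
    zm := fun _ => zm ht he
    gZ := fun _ => gZ ht he
    tp := tp he
    sne := fun _ hO i => up_ne (s_ne ht ((maps ht he).mem hO) i)
    ane := fun _ hO => A_ne ht he ((maps ht he).mem hO)
    aa := fun _ => aa ht he
    eqn := fun _ hO => eqn ht he ((maps ht he).mem hO)
    pts := fun _ => pts ht he
    prin := fun _ _ h ha hz => by
      obtain ⟨h1, h2⟩ := pr_spec h
      obtain ⟨b, hb, h0, h3⟩ := chart_SI ht he h1 (fun _ hc => h2.1 hc) hz ha
      exact (gn_of_mem hb h0 h3).prin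
    tm := fun _ => tm ht he
    sm := fun _ => sm ht he
    t1 := fun _ => t1 he
    s1 := fun _ => s1 ht he
    dim := fun _ hO _ hn => dim ht he hO hD hn
    dimZ := fun _ hO _ hn => dimZ ht he hO hD hn
    dimA := fun _ hO _ hn hu => (upA ht he hO hD hn hu.mem).2 }

end Pool.Agent.MP_20d318_ag.BV

end MrgPart1

-- ======== part 2: formerly Pool.Agent.MP_20d318_ag.BV.SetB
section MrgPart2

/-! SETB: the nine base points of the pencil. -/

set_option autoImplicit false

namespace Pool.Agent.MP_20d318_ag.BV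

open MvPolynomial

namespace SetB

section general

variable {σ k : Type} [CommRing k]

/-- Induction over forms. -/
theorem hom_ind (M : ℕ → MvPolynomial σ k → Prop) (hC : ∀ r, M 0 (C r)) (h0 : ∀ n, M n 0)
    (hadd : ∀ n p q, M n p → M n q → M n (p + q)) (hX : ∀ n p i, M n p → M (n + 1) (p * X i))
    {P : MvPolynomial σ k} {n : ℕ} (hP : P.IsHomogeneous n) : M n P := by
  have key : ∀ d : σ →₀ ℕ, ∀ p m, M m p → M (m + d.degree) (p * monomial d 1) := by
    intro d
    induction d using Finsupp.induction_linear with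
    | zero => intro p m h; simpa using h
    | add f g hf hg =>
      intro p m h
      have := hg _ _ (hf _ _ h)
      rwa [mul_assoc, monomial_mul, mul_one, add_assoc, ← map_add] at this
    | single i j =>
      intro p m h
      rw [← X_pow_eq_monomial, Finsupp.degree_single]
      induction j with
      | zero => simpa using h
      | succ j ih => rw [pow_succ, ← mul_assoc, ← add_assoc]; exact hX _ _ _ ih
  induction hP using IsWeightedHomogeneous.induction_on with
  | zero => exact h0 n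
  | add p q _ _ hp hq => exact hadd _ _ _ hp hq
  | monomial d r hr =>
    have := key d _ _ (hC r)
    rw [C_mul_monomial, mul_one, zero_add, Finsupp.degree_eq_weight_one, ← Pi.one_def, hr] at this
    exact this

theorem scal {A : Type} [CommRing A] [Algebra k A] {P : MvPolynomial σ k} {n : ℕ}
    (hP : P.IsHomogeneous n) (c : A) (v : σ → A) :
    aeval (fun i => c * v i) P = c ^ n * aeval v P := by
  refine hom_ind (fun n P => aeval (fun i => c * v i) P = c ^ n * aeval v P) ?_ ?_ ?_ ?_ hP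
  · intro r; simp
  · intro n; simp
  · intro n p q hp hq; rw [map_add, map_add, hp, hq, mul_add]
  · intro n p i hp; rw [map_mul, map_mul, hp, aeval_X, aeval_X]; ring

theorem top {P : MvPolynomial σ k} {n : ℕ} (hP : P.IsHomogeneous n) (v : σ → Polynomial k)
    (e : ℕ) (hv : ∀ i, (v i).natDegree ≤ e) : (aeval v P).natDegree ≤ n * e ∧
      (aeval v P).coeff (n * e) = aeval (fun i => (v i).coeff e) P := by
  refine hom_ind (fun n P => (aeval v P).natDegree ≤ n * e ∧
      (aeval v P).coeff (n * e) = aeval (fun i => (v i).coeff e) P) ?_ ?_ ?_ ?_ hP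
  · intro r; simp
  · intro n; simp
  · intro n p q hp hq
    rw [map_add, map_add, Polynomial.coeff_add, hp.2, hq.2]
    exact ⟨Polynomial.natDegree_add_le_of_degree_le hp.1 hq.1, rfl⟩
  · intro n p i hp
    rw [map_mul, map_mul, aeval_X, aeval_X, add_mul, one_mul,
      Polynomial.coeff_mul_add_eq_of_natDegree_le hp.1 (hv i), hp.2]
    exact ⟨Polynomial.natDegree_mul_le_of_le hp.1 (hv i), rfl⟩

theorem ev (v : σ → Polynomial k) (t : k) (P : MvPolynomial σ k) :
    (aeval v P).eval t = aeval (fun i => (v i).eval t) P := by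
  induction P using MvPolynomial.induction_on with
  | C a => simp
  | add p q hp hq => simp [hp, hq]
  | mul_X p i hp => simp [hp]

theorem chain [Fintype σ] [DecidableEq σ] (v : σ → Polynomial k) (P : MvPolynomial σ k) :
    Polynomial.derivative (aeval v P) =
      ∑ i, aeval v (pderiv i P) * Polynomial.derivative (v i) := by
  induction P using MvPolynomial.induction_on with
  | C a => simp
  | add p q hp hq => simp [hp, hq, add_mul, Finset.sum_add_distrib]
  | mul_X p j hp =>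
    have : ∀ i, aeval v (pderiv i (p * X j)) * Polynomial.derivative (v i) =
        aeval v (pderiv i p) * Polynomial.derivative (v i) * v j +
          if i = j then aeval v p * Polynomial.derivative (v j) else 0 := by
      intro i
      rw [Derivation.leibniz, pderiv_X, smul_eq_mul, smul_eq_mul, map_add, map_mul, map_mul,
        aeval_X]
      by_cases h : i = j
      · subst h; simp; ring
      · simp [h]; ring
    rw [map_mul, aeval_X, Polynomial.derivative_mul, hp, Finset.sum_congr rfl fun i _ => this i,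
      Finset.sum_add_distrib, Finset.sum_mul]
    simp

theorem euler [Fintype σ] {P : MvPolynomial σ k} {n : ℕ} (hP : P.IsHomogeneous n) (p : σ → k)
    (h : aeval p P = 0) : ∑ i, aeval p (pderiv i P) * p i = 0 := by
  have := congrArg (aeval p) hP.sum_X_mul_pderiv
  rw [map_nsmul, h, smul_zero, map_sum] at this
  rw [← this]
  exact Finset.sum_congr rfl fun i _ => by rw [map_mul, aeval_X, mul_comm]

end general

section cubic

variable {k : Type} [Field k] {F G : MvPolynomial (Fin 3) k}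

/-- The quadratic part of the singular cubic. -/
noncomputable def Qf (G : MvPolynomial (Fin 3) k) {A : Type} [CommRing A] [Algebra k A]
    (u w : A) : A := aeval ![u, w, 0] (pderiv 2 G)

/-- The cubic part of the singular cubic. -/
noncomputable def Cf (G : MvPolynomial (Fin 3) k) {A : Type} [CommRing A] [Algebra k A]
    (u w : A) : A := aeval ![u, w, 0] G

/-- The parametrization of the singular cubic. -/
noncomputable def Vf (G : MvPolynomial (Fin 3) k) {A : Type} [CommRing A] [Algebra k A]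
    (u w : A) : Fin 3 → A := ![Qf G u w * u, Qf G u w * w, -Cf G u w]

theorem scal3 {A : Type} [CommRing A] [Algebra k A] {P : MvPolynomial (Fin 3) k} {n : ℕ}
    (hP : P.IsHomogeneous n) (c x y z : A) :
    aeval ![c * x, c * y, c * z] P = c ^ n * aeval ![x, y, z] P := by
  rw [← scal hP]
  congr 2
  funext i
  fin_cases i <;> rfl

theorem scal2 {A : Type} [CommRing A] [Algebra k A] {P : MvPolynomial (Fin 2) k} {n : ℕ}
    (hP : P.IsHomogeneous n) (c x y : A) :
    aeval ![c * x, c * y] P = c ^ n * aeval ![x, y] P := by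
  rw [← scal hP]
  congr 2
  funext i
  fin_cases i <;> rfl

theorem Qf_smul (h : Pre F G) {A : Type} [CommRing A] [Algebra k A] (l u w : A) :
    Qf G (l * u) (l * w) = l ^ 2 * Qf G u w := by
  have := scal3 (h.hG.pderiv (i := 2)) l u w 0
  rw [mul_zero] at this
  exact this

theorem Cf_smul (h : Pre F G) {A : Type} [CommRing A] [Algebra k A] (l u w : A) :
    Cf G (l * u) (l * w) = l ^ 3 * Cf G u w := by
  have := scal3 h.hG l u w 0
  rw [mul_zero] at this
  exact this

theorem G_eq (h : Pre F G) {A : Type} [CommRing A] [Algebra k A] (x y z : A) :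
    aeval ![x, y, z] G = z * Qf G x y + Cf G x y := h.Gz A ![x, y, z]

theorem G_V (h : Pre F G) {A : Type} [CommRing A] [Algebra k A] (u w : A) :
    aeval (Vf G u w) G = 0 := by
  rw [Vf, G_eq h, Qf_smul h, Cf_smul h]
  ring

theorem ev3 (u w z : Polynomial k) (t : k) (P : MvPolynomial (Fin 3) k) :
    (aeval ![u, w, z] P).eval t = aeval ![u.eval t, w.eval t, z.eval t] P := by
  rw [ev]
  congr 2
  funext i
  fin_cases i <;> rfl

theorem ev2 (u w : Polynomial k) (t : k) (P : MvPolynomial (Fin 2) k) :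
    (aeval ![u, w] P).eval t = aeval ![u.eval t, w.eval t] P := by
  rw [ev]
  congr 2
  funext i
  fin_cases i <;> rfl

theorem Qf_ev (u w : Polynomial k) (t : k) :
    (Qf G u w).eval t = Qf G (u.eval t) (w.eval t) := by
  rw [Qf, ev3, Polynomial.eval_zero, Qf]

theorem Cf_ev (u w : Polynomial k) (t : k) :
    (Cf G u w).eval t = Cf G (u.eval t) (w.eval t) := by
  rw [Cf, ev3, Polynomial.eval_zero, Cf]

theorem Vf_ev (u w : Polynomial k) (t : k) (P : MvPolynomial (Fin 3) k) :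
    (aeval (Vf G u w) P).eval t = aeval (Vf G (u.eval t) (w.eval t)) P := by
  rw [Vf, ev3, Vf, Polynomial.eval_mul, Polynomial.eval_mul, Polynomial.eval_neg, Qf_ev, Cf_ev]

theorem F_nu (h : Pre F G) (z : k) (hz : aeval ![0, 0, z] F = 0) : z = 0 := by
  have := scal3 h.hF z 0 0 1
  rw [mul_zero, mul_one, hz] at this
  exact pow_eq_zero_iff (n := 3) (by norm_num) |>.1
    ((mul_eq_zero.1 this.symm).resolve_right h.Fnu)

/-- At a base point neither part vanishes. -/
theorem root_ne (h : Pre F G) {u w : k} (huw : u ≠ 0 ∨ w ≠ 0) (hF : aeval (Vf G u w) F = 0) :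
    Cf G u w ≠ 0 ∧ Qf G u w ≠ 0 ∧ LinearIndependent k
      ![fun i => aeval (Vf G u w) (pderiv i F), fun i => aeval (Vf G u w) (pderiv i G)] := by
  have hq : Qf G u w ≠ 0 := by
    intro hq
    rw [Vf, hq, zero_mul, zero_mul] at hF
    have := h.cop k u w hq (neg_eq_zero.1 (F_nu h _ hF))
    tauto
  have hne : Vf G u w ≠ 0 := by
    intro h0
    have h1 : Qf G u w * u = 0 := congrFun h0 0
    have h2 : Qf G u w * w = 0 := congrFun h0 1
    rw [mul_eq_zero] at h1 h2
    tauto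
  obtain ⟨h1, h2⟩ := h.tv _ hne hF (G_V h u w)
  exact ⟨fun h0 => h1 (neg_eq_zero.2 h0), hq, h2⟩

theorem not_indep {f g p r : Fin 3 → k} (hm : p 0 * r 1 - p 1 * r 0 ≠ 0)
    (h1 : ∑ i, f i * p i = 0) (h2 : ∑ i, f i * r i = 0) (h3 : ∑ i, g i * p i = 0)
    (h4 : ∑ i, g i * r i = 0) : ¬ LinearIndependent k ![f, g] := by
  rw [Fin.sum_univ_three] at h1 h2 h3 h4
  rw [LinearIndependent.pair_iff]
  intro H
  have a0 : (p 0 * r 1 - p 1 * r 0) * f 0 = f 2 * (p 1 * r 2 - p 2 * r 1) := by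
    linear_combination r 1 * h1 - p 1 * h2
  have a1 : (p 0 * r 1 - p 1 * r 0) * f 1 = f 2 * (p 2 * r 0 - p 0 * r 2) := by
    linear_combination p 0 * h2 - r 0 * h1
  have b0 : (p 0 * r 1 - p 1 * r 0) * g 0 = g 2 * (p 1 * r 2 - p 2 * r 1) := by
    linear_combination r 1 * h3 - p 1 * h4
  have b1 : (p 0 * r 1 - p 1 * r 0) * g 1 = g 2 * (p 2 * r 0 - p 0 * r 2) := by
    linear_combination p 0 * h4 - r 0 * h3
  have hf : f 2 = 0 := by
    refine neg_eq_zero.1 (H (g 2) (-f 2) ?_).2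
    funext i
    refine mul_left_cancel₀ hm ?_
    fin_cases i
    · simp only [Fin.zero_eta, Pi.add_apply, Pi.smul_apply, smul_eq_mul, Pi.zero_apply]
      linear_combination g 2 * a0 - f 2 * b0
    · simp only [Fin.mk_one, Pi.add_apply, Pi.smul_apply, smul_eq_mul, Pi.zero_apply]
      linear_combination g 2 * a1 - f 2 * b1
    · simp only [Fin.reduceFinMk, Pi.add_apply, Pi.smul_apply, smul_eq_mul, Pi.zero_apply]
      ring
  rw [hf, zero_mul, mul_eq_zero] at a0 a1
  refine one_ne_zero (H 1 0 ?_).1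
  funext i
  fin_cases i
  · simpa using a0.resolve_left hm
  · simpa using a1.resolve_left hm
  · simpa using hf

/-- A linear polynomial. -/
noncomputable def lin (e f : k) : Polynomial k := Polynomial.C e * Polynomial.X + Polynomial.C f

theorem lin_deg (e f : k) : (lin e f).natDegree ≤ 1 := Polynomial.natDegree_linear_le

theorem lin_co (e f : k) : (lin e f).coeff 1 = e := by simp [lin, Polynomial.coeff_C]

theorem lin_ev (e f t : k) : (lin e f).eval t = e * t + f := by simp [lin]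

theorem lin_der (e f t : k) : (Polynomial.derivative (lin e f)).eval t = e := by simp [lin]

theorem top3 {P : MvPolynomial (Fin 3) k} {n : ℕ} (hP : P.IsHomogeneous n) {u w z : Polynomial k}
    {e : ℕ} (hu : u.natDegree ≤ e) (hw : w.natDegree ≤ e) (hz : z.natDegree ≤ e) :
    (aeval ![u, w, z] P).natDegree ≤ n * e ∧
      (aeval ![u, w, z] P).coeff (n * e) = aeval ![u.coeff e, w.coeff e, z.coeff e] P := by
  have := top hP ![u, w, z] e fun i => by fin_cases i <;> assumption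
  refine ⟨this.1, this.2.trans ?_⟩
  congr 2
  funext i
  fin_cases i <;> rfl

theorem top2 {P : MvPolynomial (Fin 2) k} {n : ℕ} (hP : P.IsHomogeneous n) (e0 e1 f0 f1 : k) :
    (aeval ![lin e0 f0, lin e1 f1] P).natDegree ≤ n ∧
      (aeval ![lin e0 f0, lin e1 f1] P).coeff n = aeval ![e0, e1] P := by
  have := top hP ![lin e0 f0, lin e1 f1] 1 fun i => by fin_cases i <;> exact lin_deg _ _
  rw [mul_one] at this
  refine ⟨this.1, this.2.trans ?_⟩
  congr 2
  funext i
  fin_cases i <;> exact lin_co _ _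

theorem Q_top (h : Pre F G) (e0 e1 f0 f1 : k) : (Qf G (lin e0 f0) (lin e1 f1)).natDegree ≤ 2 ∧
    (Qf G (lin e0 f0) (lin e1 f1)).coeff 2 = Qf G e0 e1 := by
  have := top3 (h.hG.pderiv (i := 2)) (z := 0) (lin_deg e0 f0) (lin_deg e1 f1) (by simp)
  rw [lin_co, lin_co, Polynomial.coeff_zero] at this
  exact this

theorem C_top (h : Pre F G) (e0 e1 f0 f1 : k) : (Cf G (lin e0 f0) (lin e1 f1)).natDegree ≤ 3 ∧
    (Cf G (lin e0 f0) (lin e1 f1)).coeff 3 = Cf G e0 e1 := by
  have := top3 h.hG (z := 0) (lin_deg e0 f0) (lin_deg e1 f1) (by simp)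
  rw [lin_co, lin_co, Polynomial.coeff_zero] at this
  exact this

variable {e0 e1 f0 f1 : k}

theorem dir_ne (hd : e0 * f1 - e1 * f0 ≠ 0) (t : k) : e0 * t + f0 ≠ 0 ∨ e1 * t + f1 ≠ 0 := by
  by_contra hc
  rw [not_or, not_not, not_not] at hc
  exact hd (by linear_combination e0 * hc.2 - e1 * hc.1)

theorem C_ne (h : Pre F G) (hd : e0 * f1 - e1 * f0 ≠ 0) (hq : Qf G e0 e1 = 0) :
    Cf G e0 e1 ≠ 0 := by
  intro hc
  obtain ⟨h1, h2⟩ := h.cop k e0 e1 hq hc
  exact hd (by rw [h1, h2]; ring)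

theorem N_deg (h : Pre F G) (hd : e0 * f1 - e1 * f0 ≠ 0) (hq : Qf G e0 e1 = 0) :
    (aeval (Vf G (lin e0 f0) (lin e1 f1)) F).natDegree = 9 := by
  obtain ⟨q1, q2⟩ := Q_top h e0 e1 f0 f1
  obtain ⟨c1, c2⟩ := C_top h e0 e1 f0 f1
  have := top3 h.hF (e := 3) (Polynomial.natDegree_mul_le_of_le q1 (lin_deg e0 f0))
    (Polynomial.natDegree_mul_le_of_le q1 (lin_deg e1 f1))
    (z := -Cf G (lin e0 f0) (lin e1 f1)) (by rwa [Polynomial.natDegree_neg])
  refine Polynomial.natDegree_eq_of_le_of_coeff_ne_zero this.1 fun h0 => ?_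
  have e1' := Polynomial.coeff_mul_add_eq_of_natDegree_le q1 (lin_deg e0 f0)
  have e2' := Polynomial.coeff_mul_add_eq_of_natDegree_le q1 (lin_deg e1 f1)
  rw [q2, hq, zero_mul] at e1' e2'
  have h3 := this.2
  rw [e1', e2', Polynomial.coeff_neg, c2] at h3
  exact C_ne h hd hq (neg_eq_zero.1 (F_nu h _ (h3.symm.trans h0)))

theorem N_simple (h : Pre F G) (hd : e0 * f1 - e1 * f0 ≠ 0) (t : k)
    (h0 : (aeval (Vf G (lin e0 f0) (lin e1 f1)) F).eval t = 0) :
    (Polynomial.derivative (aeval (Vf G (lin e0 f0) (lin e1 f1)) F)).eval t ≠ 0 := by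
  intro h1
  rw [Vf_ev, lin_ev, lin_ev] at h0
  obtain ⟨-, hq, hi⟩ := root_ne h (dir_ne hd t) h0
  have hc : ∀ P : MvPolynomial (Fin 3) k,
      (Polynomial.derivative (aeval (Vf G (lin e0 f0) (lin e1 f1)) P)).eval t =
      ∑ i, aeval (Vf G (e0 * t + f0) (e1 * t + f1)) (pderiv i P) *
        (Polynomial.derivative (Vf G (lin e0 f0) (lin e1 f1) i)).eval t := by
    intro P
    rw [chain, Polynomial.eval_finsetSum]
    exact Finset.sum_congr rfl fun i _ => by rw [Polynomial.eval_mul, Vf_ev, lin_ev, lin_ev]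
  have h2 := hc G
  rw [G_V h, map_zero, Polynomial.eval_zero] at h2
  rw [hc] at h1
  refine not_indep ?_ (euler h.hF _ h0) h1 (euler h.hG _ (G_V h _ _)) h2.symm hi
  have : Vf G (e0 * t + f0) (e1 * t + f1) 0 *
        (Polynomial.derivative (Vf G (lin e0 f0) (lin e1 f1) 1)).eval t -
      Vf G (e0 * t + f0) (e1 * t + f1) 1 *
        (Polynomial.derivative (Vf G (lin e0 f0) (lin e1 f1) 0)).eval t =
      -(Qf G (e0 * t + f0) (e1 * t + f1) ^ 2 * (e0 * f1 - e1 * f0)) := by
    simp only [Vf, Matrix.cons_val_zero, Matrix.cons_val_one, Polynomial.derivative_mul,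
      Polynomial.eval_add, Polynomial.eval_mul, lin_ev, lin_der, Qf_ev]
    ring
  rw [this]
  exact neg_ne_zero.2 (mul_ne_zero (pow_ne_zero _ hq) hd)

/-- The nine parameters. -/
theorem nine_roots [IsAlgClosed k] (h : Pre F G) (hd : e0 * f1 - e1 * f0 ≠ 0)
    (hq : Qf G e0 e1 = 0) : ∃ τ : Fin 9 → k, Function.Injective τ ∧
      ∀ t, aeval (Vf G (e0 * t + f0) (e1 * t + f1)) F = 0 ↔ ∃ i, τ i = t := by
  classical
  have hN := N_deg h hd hq
  have hS := N_simple h hd
  have hE : ∀ t, (aeval (Vf G (lin e0 f0) (lin e1 f1)) F).eval t =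
      aeval (Vf G (e0 * t + f0) (e1 * t + f1)) F := fun t => by rw [Vf_ev, lin_ev, lin_ev]
  generalize aeval (Vf G (lin e0 f0) (lin e1 f1)) F = N at hN hS hE
  have h0 : N ≠ 0 := by
    rintro rfl
    simp at hN
  have hnd : N.roots.Nodup := by
    rw [Multiset.nodup_iff_count_le_one]
    intro t
    rw [Polynomial.count_roots]
    by_contra hc
    obtain ⟨h1, h2⟩ := (Polynomial.one_lt_rootMultiplicity_iff_isRoot h0).1 (not_le.1 hc)
    exact hS t h1 h2
  have hc : N.roots.toFinset.card = 9 := by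
    rw [Multiset.toFinset_card_of_nodup hnd, IsAlgClosed.card_roots_eq_natDegree, hN]
  let ε := (Finset.equivFinOfCardEq hc).symm
  refine ⟨fun i => ε i, Subtype.val_injective.comp ε.injective, fun t => ?_⟩
  rw [← hE]
  constructor
  · intro ht
    refine ⟨ε.symm ⟨t, ?_⟩, by simp⟩
    rw [Multiset.mem_toFinset, Polynomial.mem_roots h0]
    exact ht
  · rintro ⟨i, rfl⟩
    have := (ε i).2
    rw [Multiset.mem_toFinset, Polynomial.mem_roots h0] at this
    exact this

theorem decomp (hd : e0 * f1 - e1 * f0 ≠ 0) (α β : k) : (∃ s, α = s * e0 ∧ β = s * e1) ∨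
    ∃ l t, l ≠ 0 ∧ α = l * (e0 * t + f0) ∧ β = l * (e1 * t + f1) := by
  obtain ⟨s, hs⟩ : ∃ s, s * (e0 * f1 - e1 * f0) = α * f1 - β * f0 := ⟨_, div_mul_cancel₀ _ hd⟩
  obtain ⟨l, hl⟩ : ∃ l, l * (e0 * f1 - e1 * f0) = β * e0 - α * e1 := ⟨_, div_mul_cancel₀ _ hd⟩
  have h1 : α = s * e0 + l * f0 :=
    mul_right_cancel₀ hd (by linear_combination -e0 * hs - f0 * hl)
  have h2 : β = s * e1 + l * f1 :=
    mul_right_cancel₀ hd (by linear_combination -e1 * hs - f1 * hl)
  by_cases h0 : l = 0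
  · exact Or.inl ⟨s, by rw [h1, h0]; ring, by rw [h2, h0]; ring⟩
  · obtain ⟨t, ht⟩ : ∃ t, t * l = s := ⟨_, div_mul_cancel₀ _ h0⟩
    exact Or.inr ⟨l, t, h0, by rw [h1, ← ht]; ring, by rw [h2, ← ht]; ring⟩

theorem form_zero [CharZero k] (hd : e0 * f1 - e1 * f0 ≠ 0) {P : MvPolynomial (Fin 2) k} {n : ℕ}
    (hP : P.IsHomogeneous n) (h0 : aeval ![lin e0 f0, lin e1 f1] P = 0) : P = 0 := by
  refine MvPolynomial.funext fun x => ?_
  have hx : x = ![x 0, x 1] := by
    funext i
    fin_cases i <;> rfl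
  rw [map_zero, hx, ← coe_aeval_eq_eval]
  change aeval ![x 0, x 1] P = 0
  rcases decomp hd (x 0) (x 1) with ⟨s, h1, h2⟩ | ⟨l, t, -, h1, h2⟩
  · rw [h1, h2, scal2 hP, ← (top2 hP e0 e1 f0 f1).2, h0, Polynomial.coeff_zero, mul_zero]
  · have := ev2 (lin e0 f0) (lin e1 f1) t P
    rw [h0, Polynomial.eval_zero, lin_ev, lin_ev] at this
    rw [h1, h2, scal2 hP, ← this, mul_zero]

theorem split (p : MvPolynomial (Fin 2) k) (hp : p.totalDegree ≤ 2) :
    p = homogeneousComponent 0 p + homogeneousComponent 1 p + homogeneousComponent 2 p := by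
  have h1 := sum_homogeneousComponent p
  have h2 : ∑ i ∈ Finset.range (p.totalDegree + 1), homogeneousComponent i p =
      ∑ i ∈ Finset.range 3, homogeneousComponent i p :=
    Finset.sum_subset (Finset.range_subset_range.2 (by omega)) fun i _ hi =>
      homogeneousComponent_eq_zero _ _ (by rw [Finset.mem_range] at hi; omega)
  rw [h2, Finset.sum_range_succ, Finset.sum_range_succ, Finset.sum_range_one] at h1
  exact h1.symm

/-- No conic passes through the base points. -/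
theorem no_conic [CharZero k] [IsAlgClosed k] (h : Pre F G) (hd : e0 * f1 - e1 * f0 ≠ 0)
    (hq : Qf G e0 e1 = 0) (τ : Fin 9 → k) (hτ : Function.Injective τ) (l : Fin 9 → k)
    (hl : ∀ i, l i * Cf G (e0 * τ i + f0) (e1 * τ i + f1) =
      -Qf G (e0 * τ i + f0) (e1 * τ i + f1))
    (p : MvPolynomial (Fin 2) k) (hp : p.totalDegree ≤ 2)
    (hv : ∀ i, aeval ![l i * (e0 * τ i + f0), l i * (e1 * τ i + f1)] p = 0) : p = 0 := by
  have hs := split p hp
  have g0 := homogeneousComponent_isHomogeneous 0 p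
  have g1 := homogeneousComponent_isHomogeneous 1 p
  have g2 := homogeneousComponent_isHomogeneous 2 p
  generalize homogeneousComponent 0 p = p0 at hs g0
  generalize homogeneousComponent 1 p = p1 at hs g1
  generalize homogeneousComponent 2 p = p2 at hs g2
  have t0 := (top2 g0 e0 e1 f0 f1).1
  have t1 := (top2 g1 e0 e1 f0 f1).1
  have t2 := (top2 g2 e0 e1 f0 f1).1
  obtain ⟨q1, -⟩ := Q_top h e0 e1 f0 f1
  obtain ⟨c1, c2⟩ := C_top h e0 e1 f0 f1
  have cd : (Cf G (lin e0 f0) (lin e1 f1)).natDegree = 3 :=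
    Polynomial.natDegree_eq_of_le_of_coeff_ne_zero c1 (c2 ▸ C_ne h hd hq)
  have hcop : IsCoprime (Cf G (lin e0 f0) (lin e1 f1)) (Qf G (lin e0 f0) (lin e1 f1)) := by
    rw [Polynomial.isCoprime_iff_aeval_ne_zero_of_isAlgClosed (k := k) k]
    intro t
    rw [Polynomial.coe_aeval_eq_eval, Cf_ev, Qf_ev, lin_ev, lin_ev]
    by_contra hc
    rw [not_or, not_not, not_not] at hc
    have := h.cop k _ _ hc.2 hc.1
    have := dir_ne hd t
    tauto
  have hR : Cf G (lin e0 f0) (lin e1 f1) ^ 2 * aeval ![lin e0 f0, lin e1 f1] p0 -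
      Cf G (lin e0 f0) (lin e1 f1) * Qf G (lin e0 f0) (lin e1 f1) *
        aeval ![lin e0 f0, lin e1 f1] p1 +
      Qf G (lin e0 f0) (lin e1 f1) ^ 2 * aeval ![lin e0 f0, lin e1 f1] p2 = 0 := by
    refine Polynomial.eq_zero_of_natDegree_lt_card_of_eval_eq_zero _ hτ (fun i => ?_) ?_
    · have := hv i
      rw [hs, map_add, map_add, scal2 g0, scal2 g1, scal2 g2] at this
      simp only [Polynomial.eval_add, Polynomial.eval_sub, Polynomial.eval_mul,
        Polynomial.eval_pow, Cf_ev, Qf_ev, ev2, lin_ev]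
      have e := hl i
      generalize Cf G (e0 * τ i + f0) (e1 * τ i + f1) = c at e
      generalize Qf G (e0 * τ i + f0) (e1 * τ i + f1) = q at e
      rw [show q = -(l i * c) by rw [e, neg_neg]]
      linear_combination c ^ 2 * this
    · have a1 := Polynomial.natDegree_mul_le_of_le (Polynomial.natDegree_pow_le_of_le 2 c1) t0
      have a2 := Polynomial.natDegree_mul_le_of_le (Polynomial.natDegree_mul_le_of_le c1 q1) t1
      have a3 := Polynomial.natDegree_mul_le_of_le (Polynomial.natDegree_pow_le_of_le 2 q1) t2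
      have a4 := Polynomial.natDegree_add_le_of_degree_le
        ((Polynomial.natDegree_sub_le_of_le a1 a2).trans (by norm_num : _ ≤ 6)) a3
      rw [Fintype.card_fin]
      omega
  have hc0 : Cf G (lin e0 f0) (lin e1 f1) ≠ 0 := by
    intro h0
    rw [h0] at cd
    simp at cd
  have z2 := form_zero hd g2
  have z1 := form_zero hd g1
  have z0 := form_zero hd g0
  generalize aeval ![lin e0 f0, lin e1 f1] p0 = r0 at *
  generalize aeval ![lin e0 f0, lin e1 f1] p1 = r1 at *
  generalize aeval ![lin e0 f0, lin e1 f1] p2 = r2 at *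
  generalize Cf G (lin e0 f0) (lin e1 f1) = c at *
  generalize Qf G (lin e0 f0) (lin e1 f1) = q at *
  have y2 : r2 = 0 := Polynomial.eq_zero_of_dvd_of_natDegree_lt
    ((hcop.pow_right (n := 2)).dvd_of_dvd_mul_left ⟨q * r1 - c * r0, by linear_combination hR⟩)
    (by omega)
  have hR' : c * r0 = q * r1 := mul_left_cancel₀ hc0 (by rw [y2] at hR; linear_combination hR)
  have y1 : r1 = 0 := Polynomial.eq_zero_of_dvd_of_natDegree_lt
    (hcop.dvd_of_dvd_mul_left ⟨r0, hR'.symm⟩) (by omega)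
  rw [y1, mul_zero] at hR'
  rw [hs, z0 ((mul_eq_zero.1 hR').resolve_left hc0), z1 y1, z2 y2, add_zero, add_zero]

theorem main [CharZero k] [IsAlgClosed k] (h : Pre F G) (hd : e0 * f1 - e1 * f0 ≠ 0)
    (hq : Qf G e0 e1 = 0) : ∃ d : Dat k, d.F = F ∧ d.G = G ∧ Nine d := by
  obtain ⟨τ, hτ, hr⟩ := nine_roots h hd hq
  have hz := fun i => (hr (τ i)).2 ⟨i, rfl⟩
  have hne := fun i => root_ne h (dir_ne hd (τ i)) (hz i)
  obtain ⟨l, hl⟩ : ∃ l : Fin 9 → k, ∀ i, l i * Cf G (e0 * τ i + f0) (e1 * τ i + f1) =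
      -Qf G (e0 * τ i + f0) (e1 * τ i + f1) := ⟨_, fun i => div_mul_cancel₀ _ (hne i).1⟩
  have l0 : ∀ i, l i ≠ 0 := fun i h0 =>
    (hne i).2.1 (by have := hl i; rw [h0, zero_mul] at this; exact neg_eq_zero.1 this.symm)
  have hV : ∀ (u w m : k) (P : MvPolynomial (Fin 3) k), P.IsHomogeneous 3 →
      m * Cf G u w = -Qf G u w →
      aeval (Vf G u w) P = (-Cf G u w) ^ 3 * aeval ![m * u, m * w, 1] P := by
    intro u w m P hP hm
    rw [← scal3 hP, Vf, show Qf G u w = -(m * Cf G u w) by rw [hm, neg_neg]]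
    congr 3 <;> [ring; (congr 1 <;> [ring; (congr 1; ring)])]
  have van : ∀ (P : MvPolynomial (Fin 3) k), P.IsHomogeneous 3 → ∀ i,
      aeval (Vf G (e0 * τ i + f0) (e1 * τ i + f1)) P = 0 →
      aeval ![l i * (e0 * τ i + f0), l i * (e1 * τ i + f1), 1] P = 0 := by
    intro P hP i h0
    rw [hV _ _ _ P hP (hl i)] at h0
    exact (mul_eq_zero.1 h0).resolve_left (pow_ne_zero _ (neg_ne_zero.2 (hne i).1))
  have hno : ∀ i, l i * (e0 * τ i + f0) = 0 → l i * (e1 * τ i + f1) = 0 → False := by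
    intro i h1 h2
    have := dir_ne hd (τ i)
    have := l0 i
    rw [mul_eq_zero] at h1 h2
    tauto
  refine ⟨⟨fun q => q.elim 0 fun i => l i * (e0 * τ i + f0),
    fun q => q.elim 0 fun i => l i * (e1 * τ i + f1), F, G⟩, rfl, rfl, rfl, rfl, ?_,
    fun i => van F h.hF i (hz i), fun i => van G h.hG i (G_V h _ _), ?_,
    fun p hp hv => no_conic h hd hq τ hτ l hl p hp fun i => hv i⟩
  · rintro (_ | i) (_ | j) h1 h2
    · rfl
    · exact (hno j h1.symm h2.symm).elim
    · exact (hno i h1 h2).elim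
    · change l i * (e0 * τ i + f0) = l j * (e0 * τ j + f0) at h1
      change l i * (e1 * τ i + f1) = l j * (e1 * τ j + f1) at h2
      have h3 : l i = l j := mul_right_cancel₀ hd (by linear_combination e0 * h2 - e1 * h1)
      rw [h3] at h1 h2
      have h4 := mul_left_cancel₀ (l0 j) h1
      have h5 := mul_left_cancel₀ (l0 j) h2
      rw [hτ (mul_right_cancel₀ hd (by linear_combination f1 * h4 - f0 * h5) : τ i = τ j)]
  · intro α β h1 h2
    change aeval ![α, β, 1] F = 0 at h1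
    change aeval ![α, β, 1] G = 0 at h2
    change ∃ i, α = l i * (e0 * τ i + f0) ∧ β = l i * (e1 * τ i + f1)
    rw [G_eq h, one_mul] at h2
    rcases decomp hd α β with ⟨s, rfl, rfl⟩ | ⟨m, t, hm, rfl, rfl⟩
    · rw [Qf_smul h, Cf_smul h, hq, mul_zero, zero_add, mul_eq_zero] at h2
      rw [pow_eq_zero_iff (n := 3) (by norm_num) |>.1 (h2.resolve_right (C_ne h hd hq)),
        zero_mul, zero_mul] at h1
      exact (h.Fnu h1).elim
    · rw [Qf_smul h, Cf_smul h] at h2
      have h3 : m * Cf G (e0 * t + f0) (e1 * t + f1) = -Qf G (e0 * t + f0) (e1 * t + f1) :=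
        mul_left_cancel₀ (pow_ne_zero 2 hm) (by linear_combination h2)
      obtain ⟨i, rfl⟩ := (hr t).1 (by rw [hV _ _ m F h.hF h3, h1, mul_zero])
      have h4 : m = l i := mul_right_cancel₀ (hne i).1 (h3.trans (hl i).symm)
      exact ⟨i, by rw [h4], by rw [h4]⟩

end cubic

end SetB

/-- SETB. -/
theorem setB_stmt : SetBStmt := by
  intro k _ _ _ F G h
  by_cases h0 : SetB.Qf G (1 : k) 0 = 0
  · exact SetB.main h (e0 := 1) (e1 := 0) (f0 := 0) (f1 := 1) (by simp) h0
  · obtain ⟨q1, q2⟩ := SetB.Q_top h 1 0 0 1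
    have hd := Polynomial.natDegree_eq_of_le_of_coeff_ne_zero q1 (q2 ▸ h0)
    obtain ⟨t, ht⟩ := IsAlgClosed.exists_root (SetB.Qf G (SetB.lin (1 : k) 0) (SetB.lin 0 1))
      (Polynomial.natDegree_pos_iff_degree_pos.1 (by omega)).ne'
    rw [Polynomial.IsRoot, SetB.Qf_ev, SetB.lin_ev, SetB.lin_ev] at ht
    exact SetB.main h (f0 := 1) (f1 := 0) (by simp) ht

end Pool.Agent.MP_20d318_ag.BV

end MrgPart2

-- marker of a merged file
example : 731051 + 877540 = 731051 + 877540 := rfl
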