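import Pool.Agent.MP_20d318_ag.BV.Mw

/-! The classes of the prime divisors of the surface `T`. -/

set_option autoImplicit false

namespace Pool.Agent.MP_20d318_ag.BV

open Pool.Agent.MP_79c67d_ag Pool.Agent.MP_20d318_ag.AG MvPolynomial

namespace TPa

theorem ip_smul (c c' : Lam ℤ) (n : ℕ) : ip c (n • c') = n * ip c c' := by
  simp only [ip, Prod.smul_fst, Prod.smul_snd, Pi.smul_apply]
  simp only [nsmul_eq_mul, mul_sub, Finset.mul_sum]
  congr 1
  · ring
  · exact Finset.sum_congr rfl fun q _ => by ring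

theorem ip_comm (c c' : Lam ℤ) : ip c c' = ip c' c := by
  simp only [ip, mul_comm]

variable {k M : Type} [Field k] [CharZero k] [IsAlgClosed k] [Field M] [Algebra k M] {d : Dat k}
  {x y : M} {c c' : Lam ℤ} {φ φ' : M} {P P' : Place k M}

omit [CharZero k] [IsAlgClosed k] in
/-- The degrees on a curve that maps onto the prime divisor. -/
theorem cur (h : TAll d x y) (hP : Prm d x y c φ P) : ∃ ν : Curve (TT d x y), ν.gen = plO P ∧
    ∃ n : ℕ, 0 < n ∧ ∀ c', ν.deg (lb d x y c') = n * ip c' c := by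
  obtain ⟨ν, hν⟩ := h.z.cur P hP.2.1
  obtain ⟨n, h0, hn⟩ := h.z.prm c φ P hP ν hν
  exact ⟨ν, hν, n, h0, fun c' => by rw [h.loc.deg, hn, ip_smul]⟩

theorem pos (h : TAll d x y) (hP : Prm d x y c φ P) (hP' : Prm d x y c' φ' P') (hne : c ≠ c') :
    0 ≤ ip c c' := by
  have hN := h.loc.nice
  obtain ⟨ν, hν, n, h0, hn⟩ := cur h hP'
  have h1 : P' ≠ P := fun e => hne (h.z.uniq _ _ _ _ _ hP (e ▸ hP'))
  have h2 := deg_nonneg hN.toGood (hP.cart (h.loc.cart c))
    (fun O hO => hP.mem hN (h.loc.cart c) hO) ν (by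
      rw [hν, isU_plO']
      exact ⟨mul_ne_zero hP.1 (h.loc.lbne _ hP'.2.1 c), by rw [hP.2.2 P' hP'.2.1, if_neg h1]⟩)
  rw [deg_cmul hN.toGood (h.loc.cart c) hP.1, hn] at h2
  exact nonneg_of_mul_nonneg_right h2 (by exact_mod_cast h0)

omit [CharZero k] [IsAlgClosed k] in
theorem cart (h : TAll d x y) (h0 : φ ≠ 0) : IsCart (TT d x y) fun O => φ * lb d x y c O :=
  (isCart_const h0).mul (h.loc.cart c)

omit [CharZero k] [IsAlgClosed k] in
/-- The class of an effective divisor is a sum of classes of prime divisors. -/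
theorem eff (h : TAll d x y) (s : Finset (Place k M)) : ∀ (c : Lam ℤ) (φ : M), φ ≠ 0 →
    (∀ P : Place k M, plO P ∈ TT d x y → 0 ≤ P.ord (φ * lb d x y c (plO P))) →
    (∀ P : Place k M, plO P ∈ TT d x y → P ∉ s → P.ord (φ * lb d x y c (plO P)) = 0) →
    c ∈ AddSubmonoid.closure (PP d x y) := by
  classical
  induction s using Finset.induction_on with
  | empty =>
    intro c φ h0 _ h2
    rw [h.z.zero c φ fun O hO => h.loc.nice.unit (cart h h0) hO fun P hP _ => h2 P hP (by simp)]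
    exact zero_mem _
  | insert P s _ ih =>
    intro c φ h0 h1 h2
    by_cases hP : plO P ∈ TT d x y
    swap
    · exact ih c φ h0 h1 fun P' a b => h2 P' a (by
        rw [Finset.mem_insert, not_or]
        exact ⟨fun e => hP (e ▸ a), b⟩)
    obtain ⟨c0, ψ, hψ⟩ := h.pl.all P hP
    obtain ⟨n, hn⟩ := Int.eq_ofNat_of_zero_le (h1 P hP)
    have key : ∀ P' : Place k M, plO P' ∈ TT d x y →
        P'.ord (φ * ψ ^ (-(n : ℤ)) * lb d x y (c + (-(n : ℤ)) • c0) (plO P')) =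
          if P' = P then 0 else P'.ord (φ * lb d x y c (plO P')) := fun P' a => by
      rw [h.loc.lbadd _ a, h.loc.lbsm _ a, mul_mul_mul_comm, ← mul_zpow,
        P'.ord_mul (mul_ne_zero h0 (h.loc.lbne _ a _))
          (zpow_ne_zero _ (mul_ne_zero hψ.1 (h.loc.lbne _ a _))), Place.ord_zpow, hψ.2.2 P' a]
      split_ifs with e
      · rw [e, hn]
        ring
      · ring
    have h3 := ih _ _ (mul_ne_zero h0 (zpow_ne_zero (-(n : ℤ)) hψ.1))
      (fun P' a => by
        rw [key P' a]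
        split_ifs
        exacts [le_rfl, h1 P' a])
      fun P' a b => by
        rw [key P' a]
        split_ifs with e
        exacts [rfl, h2 P' a (by simp [e, b])]
    have h4 := add_mem h3 (nsmul_mem (AddSubmonoid.subset_closure
      (show c0 ∈ PP d x y from ⟨ψ, P, hψ⟩)) n)
    simpa using h4

omit [CharZero k] [IsAlgClosed k] in
theorem sec (h : TAll d x y) (hs : Sec d x y c φ) : c ∈ AddSubmonoid.closure (PP d x y) :=
  eff h (h.loc.nice.toFine.fin_cart (cart (c := c) h hs.1)).toFinset c φ hs.1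
    (fun P hP => mem_plO_ord.1 (hs.2 _ hP)) fun P hP hn => by_contra fun e => hn (by simp [hP, e])

/-- A curve of degree zero lies in a member of the pencil. -/
theorem fib (h : TAll d x y) (ν : Curve (TT d x y)) (hν : ν.deg (lb d x y cF) = 0) {p q : M}
    (hg : ∀ O ∈ TT d x y, Gn {p, q} O (lb d x y cF O)⁻¹) (hq : q ≠ 0) (hpq : p / q ∈ ν.gen) :
    ∃ a : k, (p - algebraMap k M a * q) * lb d x y cF ν.gen ∈ mx ν.gen := by
  have h1 := deg_gn_pair (f := (lb d x y cF)⁻¹) ν (hg _ ν.gen_mem) (fun P => hg _ (ν.pt_mem P))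
    hq hpq
  rw [deg_inv h.loc.nice.toGood (h.loc.cart cF), hν, neg_inj] at h1
  obtain ⟨a, ha⟩ := const_of_pdeg h1.symm
  have h2 : p / q - algebraMap k M a ∈ mx ν.gen :=
    (ev_eq_zero ν (sub_mem hpq (ν.gen.algebraMap_mem a))).1 (by rw [ev_sub_const ν hpq, ha, sub_self])
  have h3 := mx_mul_right h2 ((hg _ ν.gen_mem).1 q (by simp))
  refine ⟨a, by convert h3 using 1; field_simp⟩

theorem vert (h : TAll d x y) (hP : Prm d x y c φ P) (h0 : ip c cF = 0) :
    c = cF ∨ c = cR ∨ c = cE none := by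
  obtain ⟨ν, hν, n, -, hn⟩ := cur h hP
  have h1 : ν.deg (lb d x y cF) = 0 := by rw [hn, ip_comm, h0, mul_zero]
  have hT := hP.2.1
  have u : ∀ {c' φ' P'}, Prm d x y c' φ' P' → φ' * lb d x y c' (plO P) ∈ mx (plO P) → c = c' :=
    fun a b => h.z.uniq _ _ _ _ _ hP (a.eq_of_mx (h.loc.cart _) hT b ▸ a)
  have w : ∀ α β : k, α ≠ 0 → (algebraMap k M α * fg d x y 0 + algebraMap k M β * fg d x y 1) *
      lb d x y cF (plO P) ∈ mx (plO P) → c = cF := fun α β a b => by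
    obtain ⟨P', hP'⟩ := h.pl.prW α β a
    exact u hP' b
  rcases plO_isVal P (fg d x y 0 / fg d x y 1) with h2 | h2
  · obtain ⟨a, ha⟩ := fib h ν h1 h.pen.gnF (h.pen.ne 1) (hν ▸ h2)
    rw [hν] at ha
    exact Or.inl (w 1 (-a) one_ne_zero (by simpa [sub_eq_add_neg] using ha))
  rw [inv_div] at h2
  obtain ⟨a, ha⟩ := fib h ν h1 (fun O hO => Set.pair_comm _ _ ▸ h.pen.gnF O hO) (h.pen.ne 0)
    (hν ▸ h2)
  rw [hν] at ha
  by_cases e : a = 0
  swap
  · exact Or.inl (w (-a) 1 (neg_ne_zero.2 e) (by simpa [sub_eq_neg_add] using ha))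
  rw [e, map_zero, zero_mul, sub_zero, h.loc.lbF _ hT, ← mul_assoc] at ha
  have hE := h.loc.exm _ hT none
  obtain ⟨P1, h3⟩ := h.pl.prC 1
  obtain ⟨P2, h4, -⟩ := h.pl.plE none
  refine Or.inr ((mx_or_of_mul (h.pen.mem _ hT 1) (pow_mem hE 2) ha).imp (u h3) fun b => u h4 ?_)
  rw [one_mul, h.loc.lbE]
  exact mx_of_pow hE b

theorem nef (h : TAll d x y) (hP : Prm d x y c φ P) {S : Set M} (hS : S.Finite)
    (hg : ∀ O ∈ TT d x y, Gn S O (lb d x y c' O)⁻¹) : 0 ≤ ip c' c := by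
  obtain ⟨ν, -, n, h0, hn⟩ := cur h hP
  have h1 := deg_gn_nonpos (f := (lb d x y c')⁻¹) h.loc.nice.toGood hS hg ν
  rw [deg_inv h.loc.nice.toGood (h.loc.cart c'), hn, neg_nonpos] at h1
  exact nonneg_of_mul_nonneg_right h1 (by exact_mod_cast h0)

end TPa

open TPa in
theorem tPa_stmt : TPaStmt := by
  intro k M _ _ _ _ _ d x y h
  refine ⟨?_, fun c h0 h1 => ?_, fun q => ?_, ?_, ?_, ?_, ?_, ?_⟩
  · rintro c ⟨φ, P, hP⟩ c' ⟨φ', P', hP'⟩
    exact pos h hP hP'
  · obtain ⟨p, a1, a2, a3⟩ := exists_van d.a d.b c h0 h1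
    exact sec h (h.pl.sec c p a1 a2 a3)
  · obtain ⟨P, hP, -⟩ := h.pl.plE q
    exact ⟨_, P, hP⟩
  · obtain ⟨P, hP⟩ := h.pl.prC 0
    exact ⟨_, P, hP⟩
  · obtain ⟨P, hP⟩ := h.pl.prC 1
    exact ⟨_, P, hP⟩
  · rintro c ⟨φ, P, hP⟩
    exact vert h hP
  · rintro c ⟨φ, P, hP⟩
    have := nef (c' := cH) h hP (h.loc.fam.fin none) fun O hO => by
      rw [h.loc.lbH, inv_inv]
      exact h.loc.gH O hO
    simpa [ip, cH] using this
  · rintro c ⟨φ, P, hP⟩ q
    have := nef (c' := ch q) h hP (h.loc.fam.fin (some q)) fun O hO => by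
      rw [h.loc.lbh O hO, inv_inv]
      exact h.loc.gQ O hO q
    simpa [ip, ch, Pi.single_apply] using this

end Pool.Agent.MP_20d318_ag.BV
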