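import Pool.Agent.MP_20d318_ag.BV.Mw

/-! The degrees of curves on the surface `T`. -/

set_option autoImplicit false

namespace Pool.Agent.MP_20d318_ag.BV

open Pool.Agent.MP_79c67d_ag Pool.Agent.MP_20d318_ag.AG MvPolynomial

namespace TZa

variable {k M : Type} [Field k] [Field M] [Algebra k M] {d : Dat k} {x y : M}
  {O : Subalgebra k M} {q : Q}

theorem ov_iff : Ov d x y q O ↔ xq d x q ∈ mx O ∧ yq d y q ∈ mx O := by
  simp [Ov, SQ]

theorem ov_mem (h : Ov d x y q O) : x ∈ O ∧ y ∈ O := by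
  obtain ⟨h1, h2⟩ := ov_iff.1 h
  refine ⟨?_, ?_⟩
  · simpa [xq] using O.add_mem h1.1 (O.algebraMap_mem (d.a q))
  · simpa [yq] using O.add_mem h2.1 (O.algebraMap_mem (d.b q))

theorem not_inv {a : M} (h0 : a ≠ 0) (ha : a ∈ O) (h : a⁻¹ ∈ mx O) : False := by
  have := mx_mul_left ha h
  rw [mul_inv_cancel₀ h0] at this
  exact one_not_mem_mx this

theorem ex_eq (q : Q) :
    ex d x y q = (gn (SQ d x y q) / gn (SH x y) : Subalgebra k M → M) := rfl

variable [CharZero k] [IsAlgClosed k]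

theorem deg_ex (L : TLoc d x y) (ν : Curve (TT d x y)) (q : Q) :
    ν.deg (ex d x y q) = ν.deg (gn (SQ d x y q)) - ν.deg (gn (SH x y)) := by
  rw [ex_eq, deg_div L.nice.toGood (L.cartQ q) L.cartH]

/-- A coordinate of a chart whose second coordinate vanishes is not constant on a prime divisor. -/
theorem tr_of (L : TLoc d x y) (ν : Curve (TT d x y)) {P : Place k M} (hν : ν.gen = plO P)
    {a b : M} (h : ν.gen ∈ Pts (Algebra.adjoin k {a, b}))
    (hb : ∃ c : k, b - algebraMap k M c ∈ mx ν.gen) : Transcendental k (ν.ev a) := by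
  refine ev_transcendental ν (h.2.1 (Algebra.subset_adjoin (by simp))) fun c hc => ?_
  refine (L.dim P (hν ▸ ν.gen_mem)).1 (hν ▸ ratPt_of h rfl ?_)
  rintro g (rfl | rfl)
  · exact ⟨c, hc⟩
  · exact hb

theorem zE (hg : GenP k x y) (L : TLoc d x y) (ν : Curve (TT d x y)) {P : Place k M}
    (hν : ν.gen = plO P) (ho : Ov d x y q ν.gen) (hu : xq d x q / yq d y q ∈ ν.gen) :
    ∃ n : ℕ, 0 < n ∧ zz d x y ν = n • cE q := by
  have hX := L.nice.toGood
  obtain ⟨hx, hy⟩ := ov_iff.1 ho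
  have hx0 : x ≠ 0 := by simpa using hg.x_ne 0
  have hy0 : y ≠ 0 := by simpa using hg.y_ne 0
  have key : ∀ (P' : Place k ν.L) (a : M) (c : k), a ≠ 0 → a - algebraMap k M c ∈ mx ν.gen →
      a⁻¹ ∉ mx (ν.pt P') := fun P' a c h0 h h' =>
    not_inv h0 (by
      simpa using (ν.pt P').add_mem (mem_pt_of_const ν P' h (Or.inr h'.1)).1
        ((ν.pt P').algebraMap_mem c)) h'
  have hxy : ∀ P', x ∈ ν.pt P' ∧ y ∈ ν.pt P' := fun P' => by
    rcases L.cases _ (ν.pt_mem P') with h | ⟨_, h, -⟩ | ⟨_, h, -⟩ | h | h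
    · exact ⟨h.1, h.2.1⟩
    · exact ov_mem h
    · exact ov_mem h
    · exact (key P' x _ hx0 hx h.1).elim
    · exact (key P' y _ hy0 hy h.1).elim
  have hov : ∀ P', Ov d x y q (ν.pt P') := fun P' => ov_iff.2
    ⟨mem_pt_of_const ν P' hx (Or.inl (hxy P').1), mem_pt_of_const ν P' hy (Or.inl (hxy P').2)⟩
  have hH : ν.deg (gn (SH x y)) = 0 :=
    deg_zero_of hX L.cartH ν fun P' => L.hu _ (ν.pt_mem P') (hxy P').1 (hxy P').2
  have hT := tr_of L ν hν (L.c1 _ ν.gen_mem q ho hu).1 ⟨0, by simpa using hy⟩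
  have hQ : ν.deg (gn (SQ d x y q)) = -pdeg k (ν.ev (xq d x q / yq d y q)) :=
    deg_gn_pair ν (L.gQ _ ν.gen_mem q) (fun P' => L.gQ _ (ν.pt_mem P') q) (hg.y_ne _) hu
  have hp := pdeg_pos hT
  refine ⟨(pdeg k (ν.ev (xq d x q / yq d y q))).toNat, by omega, Prod.ext ?_ (funext fun q' => ?_)⟩
  · simp [zz, cE, hH]
  · by_cases e : q' = q
    · subst e
      simp [zz, cE, deg_ex L, hH, hQ, Int.toNat_of_nonneg hp.le]
    · have : ν.deg (ex d x y q') = 0 := deg_zero_of hX (L.cartE q') ν fun P' =>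
        L.exu _ (ν.pt_mem P') q' fun h => e (L.ovu _ (hX.loc _ (ν.pt_mem P')) _ _ h (hov P'))
      simp [zz, cE, this, e]

theorem zL (hg : GenP k x y) (L : TLoc d x y) (ν : Curve (TT d x y)) {P : Place k M}
    (hν : ν.gen = plO P) (hx : x⁻¹ ∈ mx ν.gen) (hu : y / x ∈ ν.gen) :
    ∃ n : ℕ, 0 < n ∧ zz d x y ν = n • cH := by
  have hX := L.nice.toGood
  have hx0 : x ≠ 0 := by simpa using hg.x_ne 0
  have hE : ∀ q, ν.deg (ex d x y q) = 0 := fun q => deg_zero_of hX (L.cartE q) ν fun P' =>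
    L.exu _ (ν.pt_mem P') q fun h => not_inv hx0 (ν.pt_le P' (ov_mem h).1) hx
  have hT := tr_of L ν hν (L.c3 _ ν.gen_mem hx hu).1 ⟨0, by simpa using hx⟩
  have e : SH x y = {1, y, x} := by
    ext a
    simp only [SH, Set.mem_insert_iff, Set.mem_singleton_iff]
    tauto
  have h1 : (1 : M) / x ∈ mx ν.gen := by simpa using hx
  have hH : ν.deg (gn (SH x y)) = -pdeg k (ν.ev (y / x)) := by
    rw [deg_gn_three ν (e ▸ L.gH _ ν.gen_mem) (fun P' => e ▸ L.gH _ (ν.pt_mem P')) hx0 h1.1 hu,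
      (ev_eq_zero ν h1.1).2 h1, pdeg2_zero_left]
  have hp := pdeg_pos hT
  refine ⟨(pdeg k (ν.ev (y / x))).toNat, by omega, Prod.ext ?_ (funext fun q => ?_)⟩
  · simp [zz, cH, hH, Int.toNat_of_nonneg hp.le]
  · simp [zz, cH, hE]

theorem zP (hJ : ProjStmt) (L : TLoc d x y) (ν : Curve (TT d x y))
    {P : Place k M} (hν : ν.gen = plO P) {p : MvPolynomial (Fin 2) k} (hp : PlOf x y p P)
    {m : Q → ℕ} (hm : ∀ q, IsOrd p (d.a q) (d.b q) (m q)) (hn : ∀ q, ¬ Ov d x y q ν.gen) :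
    ∃ n : ℕ, 0 < n ∧
      zz d x y ν = n • (((p.totalDegree : ℤ), fun q => (m q : ℤ)) : Lam ℤ) := by
  have hpts : ν.gen ∈ Pts (Algebra.adjoin k {x, y}) := hν ▸ hp.pts
  have hx : x ∈ ν.gen := hpts.2.1 (Algebra.subset_adjoin (by simp))
  have hy : y ∈ ν.gen := hpts.2.1 (Algebra.subset_adjoin (by simp))
  have hr : ∀ i, ![x, y] i ∈ ν.gen := Fin.forall_fin_two.2 ⟨hx, hy⟩
  have h0 : aeval ![ν.ev x, ν.ev y] p = 0 := by
    have e : (fun i => evO ν.gen ν.ρ (![x, y] i)) = ![ν.ev x, ν.ev y] :=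
      funext (Fin.forall_fin_two.2 ⟨rfl, rfl⟩)
    rw [← e, ← evO_aeval ν.ρ hr p]
    exact (ev_eq_zero ν (aeval_mem hr p)).2 (hν ▸ (hp.mem p).2 dvd_rfl)
  have hT : Transcendental k (ν.ev x) ∨ Transcendental k (ν.ev y) := by
    by_cases h : ∃ c : k, y - algebraMap k M c ∈ mx ν.gen
    · exact Or.inl (tr_of L ν hν hpts h)
    · exact Or.inr (ev_transcendental ν hy fun c hc => h ⟨c, hc⟩)
  obtain ⟨n, hn0, h2, h3⟩ := hJ k ν.L (ν.ev x) (ν.ev y) p hp.irr h0 hT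
  have hH : ν.deg (gn (SH x y)) = -(n * p.totalDegree) := by
    rw [deg_gn_three ν (L.gH _ ν.gen_mem) (fun P' => L.gH _ (ν.pt_mem P')) one_ne_zero
      (by simpa using hx) (by simpa using hy), div_one, div_one, h2]
  have hQ : ∀ q, ν.deg (gn (SQ d x y q)) = -(n * ((p.totalDegree : ℤ) - m q)) := fun q => by
    have ha : xq d x q ∈ ν.gen := ν.gen.sub_mem hx (ν.gen.algebraMap_mem _)
    have hb : yq d y q ∈ ν.gen := ν.gen.sub_mem hy (ν.gen.algebraMap_mem _)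
    have ea : ν.ev (xq d x q) = ν.ev x - algebraMap k ν.L (d.a q) := ev_sub_const ν hx _
    have eb : ν.ev (yq d y q) = ν.ev y - algebraMap k ν.L (d.b q) := ev_sub_const ν hy _
    by_cases h : yq d y q ∈ mx ν.gen
    · have hU : IsU ν.gen (xq d x q) := isU_of_not_mx ha fun h' => hn q (ov_iff.2 ⟨h', h⟩)
      have e : SQ d x y q = {yq d y q, xq d x q} := Set.pair_comm _ _
      rw [deg_gn_pair ν (e ▸ L.gQ _ ν.gen_mem q) (fun P' => e ▸ L.gQ _ (ν.pt_mem P') q) hU.1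
        (hU.div_mem hb), ev_div ν hb hU, ea, eb, (h3 _ _ _ (hm q)).2]
      exact sub_ne_zero.1 (ea ▸ evO_ne ν.ρ hU)
    · have hU : IsU ν.gen (yq d y q) := isU_of_not_mx hb h
      rw [deg_gn_pair ν (L.gQ _ ν.gen_mem q) (fun P' => L.gQ _ (ν.pt_mem P') q) hU.1
        (hU.div_mem ha), ev_div ν ha hU, ea, eb, (h3 _ _ _ (hm q)).1]
      exact sub_ne_zero.1 (eb ▸ evO_ne ν.ρ hU)
  refine ⟨n, hn0, Prod.ext ?_ (funext fun q => ?_)⟩
  · simp [zz, hH]
  · have e : ν.deg (ex d x y q) = n * m q := by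
      rw [deg_ex L, hH, hQ]
      ring
    simp [zz, e]

theorem cur (hC : CurveStmt) (L : TLoc d x y) (P : Place k M) (h : plO P ∈ TT d x y) :
    ∃ ν : Curve (TT d x y), ν.gen = plO P :=
  hC k M _ L.nice.toGood _ h (L.dim P h).2 fun h0 =>
    (L.dim P h).1 ((rat_iff (L.nice.loc _ h)).2 h0)

theorem zero (hC : CurveStmt) (hg : GenP k x y) (L : TLoc d x y) (T : TPl d x y) (c : Lam ℤ)
    (φ : M) (h : ∀ O ∈ TT d x y, IsU O (φ * lb d x y c O)) : c = 0 := by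
  have hX := L.nice.toGood
  have h0 : φ ≠ 0 := left_ne_zero_of_mul (h _ L.nice.toFine.top).1
  have hi : ∀ ν : Curve (TT d x y), ip c (zz d x y ν) = 0 := fun ν => by
    rw [← L.deg, ← deg_cmul hX (L.cart c) h0]
    exact deg_zero_of hX ((isCart_const h0).mul (L.cart c)) ν fun P' => h _ (ν.pt_mem P')
  refine Prod.ext ?_ (funext fun q => ?_)
  · obtain ⟨P, hP, h1, h2, -⟩ := T.plL
    obtain ⟨ν, hν⟩ := cur hC L P hP.2.1
    obtain ⟨n, hn, e⟩ := zL hg L ν hν (hν ▸ h1) (hν ▸ h2.2.1)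
    have := hi ν
    rw [e] at this
    simpa [ip, cH, hn.ne'] using this
  · obtain ⟨P, hP, h1, h2, -⟩ := T.plE q
    obtain ⟨ν, hν⟩ := cur hC L P hP.2.1
    obtain ⟨n, hn, e⟩ := zE hg L ν hν (hν ▸ h1) (hν ▸ h2.2.1)
    have := hi ν
    rw [e] at this
    simpa [ip, cE, hn.ne', Pi.single_apply] using this

theorem uniq (hC : CurveStmt) (hg : GenP k x y) (L : TLoc d x y) (T : TPl d x y)
    (c c' : Lam ℤ) (φ φ' : M) (P : Place k M) (h : Prm d x y c φ P) (h' : Prm d x y c' φ' P) :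
    c = c' := by
  refine sub_eq_zero.1 (zero hC hg L T _ (φ / φ') fun O hO => ?_)
  have := L.nice.unit_div (h.cart (L.cart c)) (h'.cart (L.cart c')) hO fun P' hP' =>
    (h.2.2 P' hP').trans (h'.2.2 P' hP').symm
  have e := L.lbadd O hO (c - c') c'
  rw [sub_add_cancel] at e
  have h1 := L.lbne O hO c'
  have h2 := h'.1
  have e2 : φ * lb d x y c O / (φ' * lb d x y c' O) = φ / φ' * lb d x y (c - c') O := by
    rw [e]
    field_simp
  exact e2 ▸ this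

theorem prm0 (hP : PlaneStmt) (hJ : ProjStmt) (hg : GenP k x y) (L : TLoc d x y) (T : TPl d x y)
    (ν : Curve (TT d x y)) {P : Place k M} (hν : ν.gen = plO P) :
    ∃ c φ, Prm d x y c φ P ∧ ∃ n : ℕ, 0 < n ∧ zz d x y ν = n • c := by
  have h : plO P ∈ TT d x y := hν ▸ ν.gen_mem
  by_cases h1 : ∃ q, Ov d x y q (plO P)
  · obtain ⟨q, hq⟩ := h1
    obtain ⟨P', hP', -, h2, h3, -⟩ := T.plE q
    obtain rfl := h3 P h hq
    exact ⟨_, _, hP', zE hg L ν hν (hν ▸ hq) (hν ▸ h2.2.1)⟩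
  by_cases h2 : x ∈ plO P ∧ y ∈ plO P
  · obtain ⟨p, hp⟩ := (hP k M x y hg).plof P (L.c0 _ h h2.1 h2.2 (not_exists.1 h1))
    choose m _ hm using fun q => exists_isOrd hp.irr.ne_zero (d.a q) (d.b q)
    exact ⟨_, _, (T.plP p P m hp hm).1, zP hJ L ν hν hp hm (hν ▸ not_exists.1 h1)⟩
  · obtain ⟨P', hP', h3, h4, h5, -⟩ := T.plL
    obtain rfl := h5 P h h2
    exact ⟨_, _, hP', zL hg L ν hν (hν ▸ h3) (hν ▸ h4.2.1)⟩

end TZa

theorem tZ_stmt : TZStmt := by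
  intro hP hJ hC k M _ _ _ _ _ d x y _ hg L T
  refine ⟨TZa.cur hC L, TZa.zero hC hg L T, TZa.uniq hC hg L T, fun c φ P h ν hν => ?_, fun ν => ?_⟩
  · obtain ⟨c', φ', h', hz⟩ := TZa.prm0 hP hJ hg L T ν hν
    rwa [TZa.uniq hC hg L T c c' φ φ' P h h']
  · rcases L.tri _ ν.gen_mem with h | h | ⟨P, h⟩
    · exact (hg.not_dim (h ▸ curve_dim ν)).elim
    · refine Or.inl ⟨h, Prod.ext ?_ (funext fun q => ?_)⟩
      · simp [zz, deg_rat L.cartH ν h]
      · simp [zz, deg_rat (L.cartE q) ν h]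
    · exact Or.inr ⟨P, h.symm⟩

end Pool.Agent.MP_20d318_ag.BV
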