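import Mathlib.Algebra.Algebra.IsSimpleRing
import Mathlib.Algebra.MvPolynomial.NoZeroDivisors
import Mathlib.RingTheory.IntegralClosure.GoingDown
import Mathlib.RingTheory.NoetherNormalization
import Pool.Agent.MP_20d318_ag.BV.Poly2
import Pool.Agent.MP_20d318_ag.AG.See
import Mathlib.FieldTheory.RatFunc.Degree
import Mathlib.RingTheory.MvPolynomial.IrreducibleQuadratic
import Mathlib.Tactic.Polynomial.Basic

-- ======== part 0: formerly Pool.Agent.MP_20d318_ag.BV.Hor
section MrgPart0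

-- ======== part 0: formerly Pool.Agent.MP_20d318_ag.BV.Ht1
section MrgPart0

/-! Prime divisors have codimension one. -/

set_option autoImplicit false

namespace Pool.Agent.MP_20d318_ag.BV

open Pool.Agent.MP_79c67d_ag Pool.Agent.MP_20d318_ag.AG MvPolynomial

namespace Ht1

variable {k K : Type} [Field k] [Field K] [Algebra k K]

theorem card_le {A : Subalgebra k K} (hA : Frac A) {s m : ℕ} (g : MvPolynomial (Fin s) k →ₐ[k] A)
    (hg : g.IsIntegral) {c : Fin m → K} (hc : AlgebraicIndependent k c) : m ≤ s := by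
  set z : Fin s → K := fun i => (g (X i) : K) with hz
  have hev : ∀ p, aeval z p = (g p : K) := fun p => by
    have : aeval z = A.val.comp g := by ext i; simp [hz]
    rw [this]; rfl
  have hm : ∀ p, aeval z p ∈ Algebra.adjoin k (Set.range z) := fun p => by
    rw [Algebra.adjoin_range_eq_range_aeval]; exact ⟨p, rfl⟩
  have h1 : ∀ a : A, IsAlgebraic (Algebra.adjoin k (Set.range z)) (a : K) := fun a => by
    obtain ⟨p, hp, h0⟩ := hg a
    refine IsIntegral.isAlgebraic ⟨p.map ((aeval z).codRestrict _ hm).toRingHom, hp.map _, ?_⟩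
    rw [Polynomial.eval₂_map]
    have h2 := Polynomial.hom_eval₂ p g.toRingHom A.val.toRingHom a
    have h3 : Polynomial.eval₂ g.toRingHom a p = 0 := h0
    rw [h3, map_zero] at h2
    refine Eq.trans ?_ h2.symm
    congr 1
    exact RingHom.ext hev
  have : Algebra.IsAlgebraic (Algebra.adjoin k (Set.range z)) K := ⟨fun f => by
    obtain ⟨a, ha, b, hb, -, rfl⟩ := hA f
    rw [div_eq_mul_inv]
    exact (h1 ⟨a, ha⟩).mul (h1 ⟨b, hb⟩).inv⟩
  have h2 := Algebra.IsAlgebraic.trdeg_le_cardinalMk k (A := K) (Set.range z)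
  have h3 := hc.lift_cardinalMk_le_trdeg
  have h4 : Cardinal.mk (Set.range z) ≤ (s : Cardinal) := by
    simpa using Cardinal.mk_range_le (f := z)
  simp only [Cardinal.lift_id, Cardinal.mk_fin] at h3
  exact_mod_cast h3.trans (h2.trans h4)

theorem pow_le (P : Place k K) {a b : K} (ha : P.v a < 1) (hb : b ≠ 0) :
    ∃ e : ℕ, P.v (a ^ e) ≤ P.v b := by
  rcases eq_or_ne a 0 with rfl | h0
  · exact ⟨1, by simp⟩
  obtain ⟨x, hx⟩ := WithZero.ne_zero_iff_exists.1 (P.v_ne h0)
  obtain ⟨y, hy⟩ := WithZero.ne_zero_iff_exists.1 (P.v_ne hb)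
  rw [← hx, ← WithZero.coe_one, WithZero.coe_lt_coe] at ha
  have hx' : Multiplicative.toAdd x < 0 := ha
  refine ⟨(Multiplicative.toAdd y).natAbs, ?_⟩
  rw [map_pow, ← hx, ← hy, ← WithZero.coe_pow, WithZero.coe_le_coe, ← Multiplicative.toAdd_le,
    toAdd_pow, nsmul_eq_mul]
  have h1 : -((Multiplicative.toAdd y).natAbs : ℤ) ≤ Multiplicative.toAdd y := by omega
  have h2 : (0 : ℤ) ≤ ((Multiplicative.toAdd y).natAbs : ℤ) := by omega
  nlinarith

theorem avoid {n s : ℕ} (hs : n + 2 ≤ s) {π : MvPolynomial (Fin s) k} (hπ : Prime π) :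
    ∃ e : Fin (n + 1) → Fin s, Function.Injective e ∧
      ∀ F : MvPolynomial (Fin (n + 1)) k, F ≠ 0 → ¬ π ∣ rename e F := by
  classical
  have hv : π.vars.Nonempty := by
    rw [Finset.nonempty_iff_ne_empty, Ne, vars_eq_empty_iff_eq_C]
    intro h
    have h0 : π.coeff 0 ≠ 0 := fun h0 => hπ.ne_zero (by rw [h, h0, map_zero])
    exact hπ.not_isUnit (h ▸ (isUnit_iff_ne_zero.2 h0).map C)
  obtain ⟨i, hi⟩ := hv
  obtain ⟨t, rfl⟩ : ∃ t, s = t + 1 := ⟨s - 1, by omega⟩
  have hinj : Function.Injective (i.succAbove ∘ Fin.castLE (show n + 1 ≤ t by omega)) :=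
    Fin.succAbove_right_injective.comp (Fin.castLE_injective _)
  refine ⟨_, hinj, fun F hF ⟨q, hq⟩ => ?_⟩
  have h0 : π * q ≠ 0 := hq ▸ fun h => hF (rename_injective _ hinj (by rw [h, map_zero]))
  have h1 : i ∈ (π * q).vars := by
    rw [mem_vars_iff_degreeOf_ne_zero] at hi ⊢
    rw [degreeOf_mul_eq hπ.ne_zero (right_ne_zero_of_mul h0)]
    omega
  obtain ⟨j, -, hj⟩ := mem_vars_rename _ _ (hq ▸ h1)
  exact Fin.succAbove_ne i _ hj

end Ht1

theorem htOne_stmt : HtOneStmt := by
  intro k K _ _ _ G n c P hG hF hc hP hD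
  apply hD
  set A := Algebra.adjoin k G with hA
  have : Algebra.FiniteType k A := Algebra.FiniteType.adjoin_of_finite hG
  obtain ⟨s, g, hinj, hint⟩ := exists_integral_inj_algHom_of_fg k A
  have hs := Ht1.card_le hF g hint hc
  have := hP.1
  let p : Ideal A := (IsLocalRing.maximalIdeal (plO P)).comap (Subalgebra.inclusion hP.2.1)
  have hp : ∀ a : A, a ∈ p ↔ P.v a < 1 := fun a => by
    rw [← mem_mx_plO, Ideal.mem_comap, ← mem_mx_iff]; rfl
  have : p.IsPrime := Ideal.comap_isPrime _ _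
  let : Algebra (MvPolynomial (Fin s) k) A := g.toRingHom.toAlgebra
  have : Algebra.IsIntegral (MvPolynomial (Fin s) k) A := ⟨hint⟩
  have : FaithfulSMul (MvPolynomial (Fin s) k) A :=
    (faithfulSMul_iff_algebraMap_injective _ _).2 hinj
  have key : ∃ e : Fin (n + 1) → Fin s,
      ∀ F : MvPolynomial (Fin (n + 1)) k, F ≠ 0 → g (rename e F) ∉ p := by
    by_cases hq : p.under (MvPolynomial (Fin s) k) = ⊥
    · refine ⟨Fin.castLE (by omega), fun F hF0 h => hF0 ?_⟩
      have h1 : rename (Fin.castLE (show n + 1 ≤ s by omega)) F ∈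
          p.under (MvPolynomial (Fin s) k) := h
      rw [hq, Ideal.mem_bot] at h1
      exact rename_injective _ (Fin.castLE_injective _) (by rw [h1, map_zero])
    obtain ⟨π, hπq, hπ⟩ := Ideal.IsPrime.exists_mem_prime_of_ne_bot inferInstance hq
    have : (Ideal.span {π}).IsPrime := (Ideal.span_singleton_prime hπ.ne_zero).2 hπ
    obtain ⟨p', hle, hp', hov⟩ := Ideal.exists_ideal_le_liesOver_of_le
      (p := Ideal.span {π}) (q := p.under (MvPolynomial (Fin s) k)) p
      ((Ideal.span_singleton_le_iff_mem _).2 hπq)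
    have hmem : ∀ F, g F ∈ p' ↔ π ∣ F := fun F => by
      rw [← Ideal.mem_span_singleton, hov.over]; rfl
    obtain ⟨e, -, he⟩ := Ht1.avoid hs hπ
    refine ⟨e, fun F hF0 h => he F hF0 ((hmem _).1 ?_)⟩
    have h0 : (g π : K) ≠ 0 := fun h0 =>
      hπ.ne_zero (hinj (by rw [map_zero]; exact Subtype.ext h0))
    obtain ⟨m, hm⟩ := Ht1.pow_le P ((hp _).1 h) h0
    have h1 : (g (rename e F) : K) ^ m / g π ∈ plO P := by
      rw [mem_plO, map_div₀, div_le_one₀ (zero_lt_iff.2 (P.v_ne h0))]; exact hm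
    obtain ⟨a, ha, b, hb, hu, hab⟩ := hP.2.2 _ h1
    have h2 : (⟨b, hb⟩ : A) * g (rename e F) ^ m = g π * ⟨a, ha⟩ := by
      apply Subtype.ext
      rw [div_eq_div_iff h0 hu.1] at hab
      push_cast
      linear_combination hab
    have h3 : (⟨b, hb⟩ : A) * g (rename e F) ^ m ∈ p' :=
      h2 ▸ p'.mul_mem_right _ ((hmem π).2 dvd_rfl)
    rcases hp'.mem_or_mem h3 with h4 | h4
    · have h5 := (hp _).1 (hle h4)
      rw [(isU_plO P).1 hu] at h5
      exact absurd h5 (lt_irrefl _)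
    · exact hp'.mem_of_pow_mem _ h4
  obtain ⟨e, he⟩ := key
  refine ⟨fun i => (g (X (e i)) : K), fun i => hP.2.1 (g (X (e i))).2, fun F hF0 => ?_⟩
  have h1 : aeval (fun i => (g (X (e i)) : K)) F = (g (rename e F) : K) := by
    have : aeval (fun i => (g (X (e i)) : K)) = A.val.comp (g.comp (rename e)) := by
      ext i; simp
    rw [this]; rfl
  rw [h1]
  exact isU_of_not_mx (hP.2.1 (g _).2) fun h => he F hF0 ((hp _).2 ((mem_mx_plO P).1 h))

end Pool.Agent.MP_20d318_ag.BV

end MrgPart0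

-- ======== part 1: formerly Pool.Agent.MP_20d318_ag.BV.Dim
section MrgPart1

/-! Row DIM: the transcendence degree of residue fields. -/

set_option autoImplicit false

namespace Pool.Agent.MP_20d318_ag.BV

open Pool.Agent.MP_79c67d_ag Pool.Agent.MP_20d318_ag.AG MvPolynomial

namespace DimRow

variable {k K L : Type} [Field k] [Field K] [Field L] [Algebra k K] [Algebra k L]
  {O : Subalgebra k K} {ρ : O →ₐ[k] L}

theorem aeval_coe {σ : Type} {r : σ → K} (h : ∀ i, r i ∈ O) (p : MvPolynomial σ k) :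
    aeval r p = ((aeval (fun i => (⟨r i, h i⟩ : O)) p : O) : K) :=
  (MvPolynomial.comp_aeval_apply (fun i => (⟨r i, h i⟩ : O)) O.val p).symm

theorem ev_aeval (ρ : O →ₐ[k] L) {σ : Type} {r : σ → K} (h : ∀ i, r i ∈ O)
    (p : MvPolynomial σ k) : evO O ρ (aeval r p) = aeval (fun i => evO O ρ (r i)) p := by
  rw [aeval_coe h, evO_coe, MvPolynomial.comp_aeval_apply]
  simp only [evO_of_mem ρ (h _)]

theorem ind_iff (hρ : LocHom O ρ) {n : ℕ} {r : Fin n → K} (h : ∀ i, r i ∈ O) :
    Ind O r ↔ AlgebraicIndependent k fun i => evO O ρ (r i) := by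
  rw [algebraicIndependent_iff]
  refine ⟨fun hi p hp => by_contra fun h0 => evO_ne ρ (hi.2 p h0) (by rw [ev_aeval ρ h, hp]),
    fun hi => ⟨h, fun p hp => ?_⟩⟩
  have hm : aeval r p ∈ O := by rw [aeval_coe h]; exact Subtype.prop _
  refine isU_of_not_mx hm fun hx => hp (hi p ?_)
  rw [← ev_aeval ρ h]
  exact (hρ.eq_zero_iff hm).2 hx

/-- The rank of the set of residues. -/
theorem rk_le_iff (hρ : LocHom O ρ) {S : Set K} (hS : S ⊆ O) (n : ℕ) :
    (AlgebraicIndependent.matroid k L).eRk (evO O ρ '' S) ≤ n ↔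
      ¬ ∃ r : Fin (n + 1) → K, (∀ i, r i ∈ S) ∧ Ind O r := by
  constructor
  · rintro h ⟨r, hr, hi⟩
    have h1 := (ind_iff hρ hi.1).1 hi
    have h2 : (AlgebraicIndependent.matroid k L).Indep (Set.range fun i => evO O ρ (r i)) :=
      AlgebraicIndependent.matroid_indep_iff.2 h1.to_subtype_range
    have h3 := h1.injective.encard_range.trans (h2.encard_le_eRk_of_subset (X := evO O ρ '' S) (by
      rintro _ ⟨i, rfl⟩
      exact ⟨r i, hr i, rfl⟩))
    have h4 := h3.trans h
    simp only [ENat.card_eq_coe_fintype_card, Fintype.card_fin, Nat.cast_le] at h4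
    omega
  · intro h
    by_contra hn
    have h1 : ((n + 1 : ℕ) : ℕ∞) ≤ (AlgebraicIndependent.matroid k L).eRk (evO O ρ '' S) := by
      rw [Nat.cast_add, Nat.cast_one]
      exact Order.add_one_le_of_lt (not_le.1 hn)
    obtain ⟨I, hIS, hI, hc⟩ := Matroid.le_eRk_iff.1 h1
    have hfin : I.Finite := Set.finite_of_encard_eq_coe hc
    have := hfin.fintype
    have hcard : Fintype.card I = n + 1 := by
      rw [Set.encard_eq_coe_toFinset_card, Nat.cast_inj, Set.toFinset_card] at hc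
      exact hc
    let e := (Fintype.equivFinOfCardEq hcard).symm
    choose r hr he using fun i : Fin (n + 1) => hIS (e i).2
    refine h ⟨r, hr, (ind_iff hρ fun i => hS (hr i)).2 ?_⟩
    simp only [he]
    exact (AlgebraicIndependent.matroid_indep_iff.1 hI).comp e e.injective

theorem dim_iff (hρ : LocHom O ρ) (n : ℕ) :
    Dim O n ↔ (AlgebraicIndependent.matroid k L).eRk (evO O ρ '' O) ≤ n := by
  rw [rk_le_iff hρ subset_rfl]
  exact not_congr (exists_congr fun r => ⟨fun h => ⟨h.1, h⟩, fun h => h.2⟩)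

theorem mem_cl {s : Set L} {a : L} : a ∈ (AlgebraicIndependent.matroid k L).closure s ↔
    IsAlgebraic (Algebra.adjoin k s) a := by
  rw [AlgebraicIndependent.matroid_closure_eq]
  rfl

theorem ev_adjoin (ρ : O →ₐ[k] L) {G : Set K} (hG : G ⊆ O) {a : K}
    (ha : a ∈ Algebra.adjoin k G) : evO O ρ a ∈ Algebra.adjoin k (evO O ρ '' G) := by
  have hle : Algebra.adjoin k G ≤ O := Algebra.adjoin_le hG
  induction ha using Algebra.adjoin_induction with
  | mem x hx => exact Algebra.subset_adjoin ⟨x, hx, rfl⟩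
  | algebraMap c => rw [evO_const]; exact Subalgebra.algebraMap_mem _ c
  | add x y hx hy h1 h2 => rw [evO_add ρ (hle hx) (hle hy)]; exact add_mem h1 h2
  | mul x y hx hy h1 h2 => rw [evO_mul ρ (hle hx) (hle hy)]; exact mul_mem h1 h2

theorem pts_cl (ρ : O →ₐ[k] L) {G : Set K} (hO : O ∈ Pts (Algebra.adjoin k G)) :
    evO O ρ '' O ⊆ (AlgebraicIndependent.matroid k L).closure (evO O ρ '' G) := by
  rintro _ ⟨f, hf, rfl⟩
  have hG : G ⊆ O := fun g hg => hO.2.1 (Algebra.subset_adjoin hg)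
  obtain ⟨a, ha, b, hb, hu, rfl⟩ := hO.2.2 f hf
  rw [evO_div ρ (hO.2.1 ha) hu, mem_cl, div_eq_mul_inv]
  exact (isAlgebraic_algebraMap
    (⟨_, ev_adjoin ρ hG ha⟩ : Algebra.adjoin k (evO O ρ '' G))).mul
      (isAlgebraic_algebraMap (⟨_, ev_adjoin ρ hG hb⟩ : Algebra.adjoin k (evO O ρ '' G))).inv

theorem algM_cl (hρ : LocHom O ρ) {B : Subalgebra k K} (hB : B ≤ O) {s : Set L}
    (hs : ∀ b ∈ B, evO O ρ b ∈ Algebra.adjoin k s) {v : K} (hv : v ∈ O) (h : AlgM O B v) :
    evO O ρ v ∈ (AlgebraicIndependent.matroid k L).closure s := by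
  obtain ⟨p, hp, ⟨i, hi⟩, hm⟩ := h
  rw [mem_cl]
  let q : Polynomial (Algebra.adjoin k s) :=
    ∑ j ∈ p.support, Polynomial.monomial j ⟨_, hs _ (hp j)⟩
  refine ⟨q, fun h0 => ?_, ?_⟩
  · have h1 := congrArg (fun r : Polynomial (Algebra.adjoin k s) => ((r.coeff i : _) : L)) h0
    have h2 : i ∈ p.support := Polynomial.mem_support_iff.2 hi.1
    simp only [q, Polynomial.finsetSum_coeff, Polynomial.coeff_monomial, Finset.sum_ite_eq',
      if_pos h2, Polynomial.coeff_zero, ZeroMemClass.coe_zero] at h1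
    exact evO_ne ρ hi h1
  · have h1 := (hρ.eq_zero_iff hm.1).2 hm
    rw [Polynomial.eval_eq_sum, Polynomial.sum_def] at h1
    have h2 : ∀ t : Finset ℕ, evO O ρ (∑ j ∈ t, p.coeff j * v ^ j) =
        ∑ j ∈ t, evO O ρ (p.coeff j) * evO O ρ v ^ j := fun t => by
      induction t using Finset.induction_on with
      | empty => simp [evO_zero]
      | insert j t hj ih =>
        rw [Finset.sum_insert hj, Finset.sum_insert hj,
          evO_add ρ (mul_mem (hB (hp j)) (pow_mem hv j))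
            (sum_mem fun l _ => mul_mem (hB (hp l)) (pow_mem hv l)), ih,
          evO_mul ρ (hB (hp j)) (pow_mem hv j), evO_pow ρ hv]
    rw [h2] at h1
    simp only [q, map_sum, Polynomial.aeval_monomial]
    exact h1

end DimRow

open DimRow

theorem dimUp_stmt : DimUpStmt := by
  intro k M K _ _ _ _ _ ι R O u v n hd hO hR hv
  have := hO.1
  have hρ := resid_loc (O := O)
  set ρ := resid O
  set N := AlgebraicIndependent.matroid k (IsLocalRing.ResidueField O)
  have hG : ι '' R ∪ {u, v} ⊆ O := fun g hg => hO.2.1 (Algebra.subset_adjoin hg)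
  have hRO : ι '' R ⊆ O := Set.subset_union_left.trans hG
  have hu : u ∈ O := hG (by simp)
  have hv' : v ∈ O := hG (by simp)
  have hG' : ι '' R ∪ {u} ⊆ O := Set.union_subset hRO (by simpa using hu)
  have h1 : N.eRk (evO O ρ '' (ι '' R)) ≤ n := by
    rw [rk_le_iff hρ hRO]
    rintro ⟨r, hr, hi⟩
    choose s hs he using hr
    refine hR ⟨s, hs, fun p hp => ?_⟩
    have hm : aeval s p ∈ R := by rw [aeval_coe hs]; exact Subtype.prop _
    refine hd.2 _ hm ((isU_comap ι).2 ?_)
    rw [MvPolynomial.comp_aeval_apply]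
    simp only [he]
    exact hi.2 p hp
  have h2 : evO O ρ v ∈ N.closure (evO O ρ '' (ι '' R ∪ {u})) :=
    algM_cl hρ (Algebra.adjoin_le hG') (fun b hb => ev_adjoin ρ hG' hb) hv' hv
  have h3 : evO O ρ '' O ⊆ N.closure (insert (evO O ρ u) (evO O ρ '' (ι '' R))) := by
    rw [← Set.image_insert_eq, ← Set.union_singleton]
    refine (pts_cl ρ hO).trans (Matroid.closure_subset_closure_of_subset_closure ?_)
    rintro _ ⟨g, hg, rfl⟩
    rcases hg with hg | rfl | rfl
    · exact N.mem_closure_of_mem ⟨g, Or.inl hg, rfl⟩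
    · exact N.mem_closure_of_mem ⟨g, Or.inr rfl, rfl⟩
    · exact h2
  refine ⟨(dim_iff hρ _).2 ?_, fun hu' => (dim_iff hρ _).2 ?_⟩
  · refine (N.eRk_mono h3).trans ?_
    rw [Matroid.eRk_closure_eq, Nat.cast_add, Nat.cast_one]
    exact (N.eRk_insert_le_add_one _ _).trans (add_le_add_left h1 1)
  · have h4 : evO O ρ u ∈ N.closure (evO O ρ '' (ι '' R)) :=
      algM_cl hρ (B := R.map ι) hRO (fun b hb => Algebra.subset_adjoin (Set.mem_image_of_mem _ hb))
        hu hu'
    refine (N.eRk_mono h3).trans ?_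
    rw [Matroid.closure_insert_eq_of_mem_closure h4, Matroid.eRk_closure_eq]
    exact h1

theorem curve_stmt : CurveStmt := by
  intro k K _ _ _ _ _ X hX O hO h1 h0
  have := hX.loc O hO
  have hρ := resid_loc (O := O)
  set ρ := resid O
  have hs : evO O ρ '' O = Set.univ := Set.eq_univ_of_forall fun a => by
    obtain ⟨b, rfl⟩ := resid_surj a
    exact ⟨b, b.2, evO_coe ρ b⟩
  have : IsFF k (IsLocalRing.ResidueField O) := by
    constructor
    · obtain ⟨G, hG, hp, -⟩ := hX.fg O hO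
      have hGO : G ⊆ O := fun g hg => hp.2.1 (Algebra.subset_adjoin hg)
      rw [Algebra.essFiniteType_iff]
      refine ⟨(hG.image (evO O ρ)).toFinset, fun s => ?_⟩
      obtain ⟨f, hf, rfl⟩ : s ∈ evO O ρ '' O := hs ▸ Set.mem_univ s
      obtain ⟨a, ha, b, hb, hu, rfl⟩ := hp.2.2 f hf
      rw [Set.Finite.coe_toFinset]
      refine ⟨_, ev_adjoin ρ hGO hb, (evO_ne ρ hu).isUnit, ?_⟩
      rw [evO_div ρ (hp.2.1 ha) hu, div_mul_cancel₀ _ (evO_ne ρ hu)]
      exact ev_adjoin ρ hGO ha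
    · rw [dim_iff hρ, hs, Matroid.eRk_univ_eq, ← Matroid.toENat_cRank_eq,
        AlgebraicIndependent.matroid_cRank_eq] at h1 h0
      rw [← Cardinal.toENat_eq_one]
      refine le_antisymm (by simpa using h1) (Order.one_le_iff_pos.2 (by simpa using not_le.1 h0))
  exact ⟨hX.curve hO ρ hρ, rfl⟩

end Pool.Agent.MP_20d318_ag.BV

end MrgPart1

-- ======== part 2: formerly Pool.Agent.MP_20d318_ag.BV.Hor
section MrgPart2

/-! A closed point of the generic fibre is linearly equivalent to rational points. -/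

set_option autoImplicit false

namespace Pool.Agent.MP_20d318_ag.BV

open Pool.Agent.MP_79c67d_ag Pool.Agent.MP_20d318_ag.AG Polynomial
open WeierstrassCurve.Affine WeierstrassCurve.Affine.CoordinateRing

namespace Hor

/-- The curve `Y ^ 2 = X ^ 3 + A X ^ 2 + B X`. -/
def Wt {M : Type} [Field M] (A B : M) : WeierstrassCurve.Affine M := ⟨0, A, 0, B, 0⟩

theorem main {k M K : Type} [Field k] [Field M] [Field K] [Algebra k M] [Algebra k K]
    [Algebra M K] (A B : M) (x y : K) (R : Subalgebra k K) (hx : Transcendental M x)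
    (he : y ^ 2 = x ^ 3 + algebraMap M K A * x ^ 2 + algebraMap M K B * x)
    (hM : ∀ c : M, algebraMap M K c ∈ R) (hxR : x ∈ R) (hyR : y ∈ R)
    (hR : ∀ S : Subring K, (∀ c : M, algebraMap M K c ∈ S) → x ∈ S → y ∈ S → ∀ f ∈ R, f ∈ S)
    (O : Subalgebra k K) (hO : O ∈ Pts R) (g : K) (hg : g ∈ mx O) (hg0 : g ≠ 0) :
    ∃ h ∈ R, h ≠ 0 ∧ h ∈ mx O ∧ ∀ O' ∈ Pts R, h ∈ mx O' → O' = O ∨
      ∃ a b : M, b ^ 2 = a ^ 3 + A * a ^ 2 + B * a ∧ x - algebraMap M K a ∈ mx O' ∧
        y - algebraMap M K b ∈ mx O' := by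
  let θ : (Wt A B).CoordinateRing →+* K :=
    AdjoinRoot.lift (aeval x : M[X] →ₐ[M] K).toRingHom y (by
      simp [WeierstrassCurve.Affine.polynomial, Wt, he, eval₂_pow])
  have hC : ∀ p : M[X], θ (mk (Wt A B) (C p)) = aeval x p := fun p => AdjoinRoot.lift_of _
  have hY : θ (mk (Wt A B) X) = y := AdjoinRoot.lift_root _
  have hc : ∀ c : M, θ (algebraMap M _ c) = algebraMap M K c := fun c => by
    rw [IsScalarTower.algebraMap_apply M M[X]]
    exact (hC _).trans (aeval_C x c)
  have hb : ∀ p q : M[X], θ (p • 1 + q • mk (Wt A B) X) = aeval x p + aeval x q * y :=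
    fun p q => by rw [smul, smul, map_add, map_mul, map_mul, hC, hC, hY, map_one, mul_one]
  have hinj : ∀ a, θ a = 0 → a = 0 := fun a ha => by
    obtain ⟨p, q, rfl⟩ := exists_smul_basis_eq a
    rw [hb] at ha
    have h1 : Algebra.norm M[X] (p • (1 : (Wt A B).CoordinateRing) + q • mk (Wt A B) X) = 0 := by
      refine (transcendental_iff.1 hx) _ ?_
      rw [norm_smul_basis]
      simp only [Wt, map_zero, zero_mul, add_zero, mul_zero, sub_zero, map_sub, map_mul,
        map_pow, map_add, aeval_X, aeval_C]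
      linear_combination (aeval x p - aeval x q * y) * ha + aeval x q ^ 2 * he
    have := Module.Finite.of_basis (CoordinateRing.basis (Wt A B))
    exact Algebra.norm_eq_zero_iff.1 h1
  have hp : ∀ p : M[X], aeval x p ∈ R := fun p => by
    rw [aeval_eq_sum_range]
    exact sum_mem fun i _ => by
      rw [Algebra.smul_def]; exact mul_mem (hM _) (pow_mem hxR i)
  have h1 : ∀ a, θ a ∈ R := fun a => by
    obtain ⟨p, q, rfl⟩ := exists_smul_basis_eq a
    rw [hb]; exact add_mem (hp p) (mul_mem (hp q) hyR)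
  have h2 : ∀ f ∈ R, ∃ a, θ a = f :=
    hR θ.range (fun c => ⟨_, hc c⟩) ⟨_, (hC X).trans (aeval_X _)⟩ ⟨_, hY⟩
  have hm : See.pm θ O hO.1 (fun a => hO.2.1 (h1 a)) ≠ ⊥ := fun h => by
    obtain ⟨a, ha, b, hb, hu, rfl⟩ := hO.2.2 g hg.1
    obtain ⟨a, rfl⟩ := h2 a ha
    have h3 : a ∈ See.pm θ O hO.1 fun a => hO.2.1 (h1 a) := by
      have := mx_mul_right hg hu.2.1
      rwa [div_mul_cancel₀ _ hu.1] at this
    rw [h, Ideal.mem_bot] at h3
    simp [h3] at hg0
  obtain ⟨f, hf, hf0, hn⟩ := See.hor_ideal (Wt A B) hm (See.pm_prime _ _ _ _)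
  refine ⟨θ f, h1 f, fun h => hf0 (hinj f h), hf, fun O' hO' hf' => ?_⟩
  refine (hn _ (See.pm_prime θ O' hO'.1 fun a => hO'.2.1 (h1 a)) hf').imp (fun h => ?_) fun h => ?_
  · refine See.Pts_ext hO' hO fun b hb => ?_
    obtain ⟨b, rfl⟩ := h2 b hb
    exact SetLike.ext_iff.1 h b
  · obtain ⟨a, ha⟩ := h (mk (Wt A B) (C X))
    obtain ⟨b, hb⟩ := h (mk (Wt A B) X)
    have ha' : x - algebraMap M K a ∈ mx O' := by
      have : θ _ ∈ mx O' := ha
      rwa [map_sub, hC, hc, aeval_X] at this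
    have hb' : y - algebraMap M K b ∈ mx O' := by
      have : θ _ ∈ mx O' := hb
      rwa [map_sub, hY, hc] at this
    refine ⟨a, b, by_contra fun hne => ?_, ha', hb'⟩
    have ha1 := hO'.2.1 (hM a)
    have hx1 := hO'.2.1 hxR
    have h3 : algebraMap M K (b ^ 2 - (a ^ 3 + A * a ^ 2 + B * a)) ∈ mx O' := by
      have := mx_sub' hO'.1 (mx_mul_right ha' (add_mem (add_mem (add_mem (add_mem (pow_mem hx1 2)
        (mul_mem hx1 ha1)) (pow_mem ha1 2)) (mul_mem (hO'.2.1 (hM A)) (add_mem hx1 ha1)))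
        (hO'.2.1 (hM B)))) (mx_mul_right hb' (add_mem (hO'.2.1 hyR) (hO'.2.1 (hM b))))
      have e : algebraMap M K (b ^ 2 - (a ^ 3 + A * a ^ 2 + B * a)) =
          (x - algebraMap M K a) * (x ^ 2 + x * algebraMap M K a + algebraMap M K a ^ 2 +
            algebraMap M K A * (x + algebraMap M K a) + algebraMap M K B) -
          (y - algebraMap M K b) * (y + algebraMap M K b) := by
        simp only [map_sub, map_add, map_mul, map_pow]
        linear_combination he
      exact e ▸ this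
    refine h3.2 ⟨(_root_.map_ne_zero _).2 (sub_ne_zero.2 hne), h3.1, ?_⟩
    rw [← map_inv₀]
    exact hO'.2.1 (hM _)

end Hor

theorem horB_stmt : HorBStmt := by
  intro k M K _ _ _ _ _ ι t l ζ w ht hζ he O hO ⟨g, hg, hg0⟩
  let _ : Algebra M K := (ι : M →+* K).toAlgebra
  have hι : ∀ c : M, algebraMap M K c = ι c := fun _ => rfl
  have ht' : ι t ≠ 0 := (_root_.map_ne_zero ι).2 ht
  have hl : ι (algebraMap k M l) = algebraMap k K l := ι.commutes l
  have hz : Transcendental M ζ := transcendental_iff.2 fun p hp => hζ p hp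
  have hx : Transcendental M (ι t * ζ) := fun h => hz (by
    have := (isAlgebraic_algebraMap (R := M) (A := K) t⁻¹).mul h
    rwa [hι, map_inv₀, inv_mul_cancel_left₀ ht'] at this)
  have hM : ∀ c : M, ι c ∈ Algebra.adjoin k (Set.range ι ∪ {ζ, w}) := fun c =>
    Algebra.subset_adjoin (Or.inl ⟨c, rfl⟩)
  have hzR : ζ ∈ Algebra.adjoin k (Set.range ι ∪ {ζ, w}) :=
    Algebra.subset_adjoin (Or.inr (Or.inl rfl))
  have hwR : w ∈ Algebra.adjoin k (Set.range ι ∪ {ζ, w}) :=
    Algebra.subset_adjoin (Or.inr (Or.inr rfl))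
  obtain ⟨h, h1, h2, h3, h4⟩ := Hor.main (-((1 + algebraMap k M l) * t))
    (algebraMap k M l * t ^ 2) (ι t * ζ) (ι t * w) _ hx (by
      simp only [hι, map_neg, map_mul, map_add, map_one, map_pow, hl]
      linear_combination ι t ^ 2 * he) hM (mul_mem (hM t) hzR) (mul_mem (hM t) hwR)
    (fun S s1 s2 s3 f hf => by
      induction hf using Algebra.adjoin_induction with
      | mem a ha =>
        have s4 : (ι t)⁻¹ ∈ S := by rw [← map_inv₀]; exact s1 _
        rcases ha with ⟨c, rfl⟩ | rfl | rfl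
        · exact s1 c
        · have := S.mul_mem s4 s2
          rwa [inv_mul_cancel_left₀ ht'] at this
        · have := S.mul_mem s4 s3
          rwa [inv_mul_cancel_left₀ ht'] at this
      | algebraMap c => rw [← ι.commutes c]; exact s1 _
      | add a b _ _ ha hb => exact S.add_mem ha hb
      | mul a b _ _ ha hb => exact S.mul_mem ha hb) O hO g hg hg0
  refine ⟨h, h1, h2, h3, fun O' hO' hh => (h4 O' hO' hh).imp_right ?_⟩
  rintro ⟨a, b, e, ha, hb⟩
  refine ⟨a / t, b / t, ?_, ?_, ?_⟩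
  · field_simp
    linear_combination e
  · have := mx_mul_left (hO'.2.1 (hM t⁻¹)) ha
    rwa [hι, mul_sub, map_inv₀, inv_mul_cancel_left₀ ht', ← div_eq_inv_mul, ← map_div₀] at this
  · have := mx_mul_left (hO'.2.1 (hM t⁻¹)) hb
    rwa [hι, mul_sub, map_inv₀, inv_mul_cancel_left₀ ht', ← div_eq_inv_mul, ← map_div₀] at this

end Pool.Agent.MP_20d318_ag.BV

end MrgPart2

-- marker of a merged file
example : 731051 + 184115 = 731051 + 184115 := rfl

end MrgPart0

-- ======== part 1: formerly Pool.Agent.MP_20d318_ag.BV.XAlg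
section MrgPart1

/-! The function field of the double cover; valuations with a prescribed centre. -/

set_option autoImplicit false

namespace Pool.Agent.MP_20d318_ag.BV

open Pool.Agent.MP_79c67d_ag Pool.Agent.MP_20d318_ag.AG

namespace XAlg

open Polynomial

variable {k M K : Type} [Field k] [Field M] [Field K] [Algebra k M] [Algebra k K]

/-- Evaluation of polynomials. -/
noncomputable def ev {A B : Type} [CommRing A] [CommRing B] [Algebra k A] [Algebra k B]
    (f : A →ₐ[k] B) (b : B) : A[X] →ₐ[k] B :=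
  eval₂AlgHom f b fun _ => Commute.all _ _

theorem ev_eq {A B : Type} [CommRing A] [CommRing B] [Algebra k A] [Algebra k B]
    (f : A →ₐ[k] B) (b : B) (p : A[X]) : ev f b p = eval₂ (f : A →+* B) b p := rfl

theorem ev_C {A B : Type} [CommRing A] [CommRing B] [Algebra k A] [Algebra k B]
    (f : A →ₐ[k] B) (b : B) (a : A) : ev f b (C a) = f a := eval₂_C _ _

theorem ev_X {A B : Type} [CommRing A] [CommRing B] [Algebra k A] [Algebra k B]
    (f : A →ₐ[k] B) (b : B) : ev f b X = b := eval₂_X _ _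

theorem ev_inj {ι : M →ₐ[k] K} {y : K} (h : Tr ι y) : Function.Injective (ev ι y) :=
  (injective_iff_map_eq_zero _).2 h

/-- The cubic. -/
noncomputable def cub (t a : M) : M[X] := C t * (X * (X - C 1) * (X - C a))

theorem cub_deg {t : M} (a : M) (ht : t ≠ 0) : (cub t a).natDegree = 3 := by
  unfold cub
  rw [natDegree_C_mul ht, natDegree_mul (mul_ne_zero X_ne_zero (X_sub_C_ne_zero 1))
    (X_sub_C_ne_zero a), natDegree_mul X_ne_zero (X_sub_C_ne_zero 1), natDegree_X,
    natDegree_X_sub_C, natDegree_X_sub_C]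

theorem irr {t : M} (a : M) (ht : t ≠ 0) :
    Irreducible (X ^ 2 - C (algebraMap M[X] (RatFunc M) (cub t a))) := by
  refine X_pow_sub_C_irreducible_of_prime Nat.prime_two fun b hb => ?_
  have h3 := RatFunc.intDegree_polynomial (p := cub t a)
  rw [cub_deg a ht, ← hb] at h3
  by_cases h0 : b = 0
  · rw [h0] at h3
    simp at h3
  · rw [sq, RatFunc.intDegree_mul h0 h0] at h3
    omega

theorem exists_equiv (τ : M →ₐ[k] K) (t : M) (l : k) (ζ w : K) (ht : t ≠ 0) (htr : Tr τ ζ)
    (hw : w ^ 2 = τ t * (ζ * (ζ - 1) * (ζ - algebraMap k K l)))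
    (htop : IntermediateField.adjoin k (Set.range τ ∪ {ζ, w}) = ⊤) :
    ∃ α : AdjoinRoot (X ^ 2 - C (algebraMap M[X] (RatFunc M) (cub t (algebraMap k M l)))) ≃ₐ[k] K,
      (∀ p : M[X], α (AdjoinRoot.of _ (algebraMap M[X] (RatFunc M) p)) = ev τ ζ p) ∧
        α (AdjoinRoot.root _) = w := by
  have := Fact.mk (irr (algebraMap k M l) ht)
  let j : RatFunc M →ₐ[k] K := IsFractionRing.liftAlgHom (ev_inj htr)
  have hj : ∀ p : M[X], j (algebraMap M[X] (RatFunc M) p) = ev τ ζ p := fun p =>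
    IsFractionRing.lift_algebraMap (g := (ev τ ζ : M[X] →+* K)) (ev_inj htr) p
  have h0 : (X ^ 2 - C (algebraMap M[X] (RatFunc M) (cub t (algebraMap k M l)))).eval₂
      (j : RatFunc M →+* K) w = 0 := by
    rw [eval₂_sub, eval₂_X_pow, eval₂_C, hw, sub_eq_zero]
    refine Eq.trans ?_ (hj _).symm
    simp only [cub, map_mul, map_sub, ev_C, ev_X, map_one, AlgHom.commutes]
  let β := AdjoinRoot.liftAlgHom _ j w h0
  have h1 : ∀ p : M[X], β (AdjoinRoot.of _ (algebraMap M[X] (RatFunc M) p)) = ev τ ζ p :=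
    fun p => (AdjoinRoot.liftAlgHom_of _ j w h0 _).trans (hj p)
  have h2 : β (AdjoinRoot.root _) = w := AdjoinRoot.liftAlgHom_root _ j w h0
  have hs : Function.Surjective β := by
    have hle : IntermediateField.adjoin k (Set.range τ ∪ {ζ, w}) ≤ β.fieldRange := by
      rw [IntermediateField.adjoin_le_iff]
      rintro _ (⟨m, rfl⟩ | rfl | rfl)
      · exact ⟨_, (h1 (C m)).trans (ev_C _ _ _)⟩
      · exact ⟨_, (h1 X).trans (ev_X _ _)⟩
      · exact ⟨_, h2⟩
    intro z
    exact hle (htop ▸ IntermediateField.mem_top)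
  exact ⟨AlgEquiv.ofBijective β ⟨β.toRingHom.injective, hs⟩, h1, h2⟩

theorem plane (k : Type) [Field k] :
    ∃ (M : Type) (_ : Field M) (_ : Algebra k M) (x y : M), GenP k x y := by
  let f := IsScalarTower.toAlgHom k (MvPolynomial (Fin 2) k) (FractionRing (MvPolynomial (Fin 2) k))
  have hf : Function.Injective f := IsFractionRing.injective _ _
  refine ⟨FractionRing (MvPolynomial (Fin 2) k), inferInstance, inferInstance,
    f (MvPolynomial.X 0), f (MvPolynomial.X 1), ?_, ?_⟩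
  · have h := (MvPolynomial.algebraicIndependent_X (Fin 2) k).map' hf
    have e : ![f (MvPolynomial.X 0), f (MvPolynomial.X 1)] = f ∘ MvPolynomial.X := by
      funext i
      fin_cases i <;> rfl
    rwa [e]
  · have hm : ∀ p, f p ∈ IntermediateField.adjoin k
        ({f (MvPolynomial.X 0), f (MvPolynomial.X 1)} : Set _) := by
      intro p
      induction p using MvPolynomial.induction_on with
      | C a => exact (f.commutes a).symm ▸ IntermediateField.algebraMap_mem _ a
      | add p q hp hq => rw [map_add]; exact add_mem hp hq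
      | mul_X p i hp =>
        rw [map_mul]
        refine mul_mem hp (IntermediateField.subset_adjoin _ _ ?_)
        fin_cases i
        · exact Or.inl rfl
        · exact Or.inr rfl
    refine eq_top_iff.2 fun z _ => ?_
    obtain ⟨a, b, -, rfl⟩ := IsFractionRing.div_surjective (A := MvPolynomial (Fin 2) k) z
    exact div_mem (hm a) (hm b)

theorem cover (t : M) (l : k) : ∃ (K : Type) (_ : Field K) (_ : Algebra k K) (ι : M →ₐ[k] K)
    (ζ w : K), Tr ι ζ ∧ w ^ 2 = ι t * (ζ * (ζ - 1) * (ζ - algebraMap k K l)) ∧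
      IntermediateField.adjoin k (Set.range ι ∪ {ζ, w}) = ⊤ := by
  let Ω := AlgebraicClosure (RatFunc M)
  let g : M[X] →ₐ[k] Ω := (IsScalarTower.toAlgHom k (RatFunc M) Ω).comp
    (IsScalarTower.toAlgHom k M[X] (RatFunc M))
  have hg : Function.Injective g :=
    (algebraMap (RatFunc M) Ω).injective.comp (IsFractionRing.injective M[X] (RatFunc M))
  let ι0 : M →ₐ[k] Ω := g.comp (IsScalarTower.toAlgHom k M M[X])
  obtain ⟨w0, hw0⟩ := IsAlgClosed.exists_pow_nat_eq
    (ι0 t * (g X * (g X - 1) * (g X - algebraMap k Ω l))) two_pos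
  let S := IntermediateField.adjoin k (Set.range ι0 ∪ {g X, w0})
  have m1 : ∀ m, ι0 m ∈ S := fun m => IntermediateField.subset_adjoin _ _ (Or.inl ⟨m, rfl⟩)
  have m2 : g X ∈ S := IntermediateField.subset_adjoin _ _ (Or.inr (Or.inl rfl))
  have m3 : w0 ∈ S := IntermediateField.subset_adjoin _ _ (Or.inr (Or.inr rfl))
  let ι : M →ₐ[k] S := ι0.codRestrict S.toSubalgebra m1
  refine ⟨S, inferInstance, inferInstance, ι, ⟨g X, m2⟩, ⟨w0, m3⟩, fun p hp => ?_,
    Subtype.ext hw0, ?_⟩
  · have e : S.val.comp (ev ι ⟨g X, m2⟩) = g := by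
      refine Polynomial.algHom_ext' (AlgHom.ext fun m => ?_) ?_
      · exact congrArg S.val (ev_C ι _ m)
      · exact congrArg S.val (ev_X ι _)
    apply hg
    rw [← e, AlgHom.comp_apply, ev_eq, hp, map_zero, map_zero]
  · apply IntermediateField.lift_injective
    rw [IntermediateField.lift_adjoin, IntermediateField.lift_top, Set.image_union,
      Set.image_pair, ← Set.range_comp]
    rfl

theorem exists_val_ev {L : Type} [Field L] [Algebra k L] (ι : M →ₐ[k] K) (R : Subalgebra k M)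
    (y : K) (htr : Tr ι y) (ψ : R →ₐ[k] L) (hψ : LocHom R ψ) (z : L) :
    ∃ V : Subalgebra k K, IsVal V ∧ Dom R (V.comap ι) ∧ ∀ p : R[X],
      ev (ι.comp R.val) y p ∈ V ∧ (ev (ι.comp R.val) y p ∈ mx V ↔ ev ψ z p = 0) := by
  have hE : Function.Injective (ev (ι.comp R.val) y) := by
    refine (injective_iff_map_eq_zero _).2 fun p hp => ?_
    have h1 := htr (p.map (R.val : R →+* M)) (by rw [eval₂_map]; exact hp)
    exact (Polynomial.map_eq_zero_iff Subtype.val_injective).1 h1
  obtain ⟨O, hO, ρ, hρ, he⟩ :=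
    exists_ext ((ev ψ z).comp (AlgEquiv.ofInjective _ hE).symm.toAlgHom)
  obtain ⟨V, hV, hd⟩ := exists_val hO.1
  have key : ∀ p : R[X], ev (ι.comp R.val) y p ∈ V ∧
      (ev (ι.comp R.val) y p ∈ mx V ↔ ev ψ z p = 0) := fun p => by
    have hm : ev (ι.comp R.val) y p ∈ (ev (ι.comp R.val) y).range := ⟨p, rfl⟩
    have h1 : evO O ρ (ev (ι.comp R.val) y p) = ev ψ z p := by
      rw [he _ hm, evO_of_mem _ hm]
      exact congrArg (ev ψ z) ((AlgEquiv.ofInjective _ hE).symm_apply_apply p)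
    refine ⟨hd.1 (hO.2.1 hm), ?_⟩
    rw [← h1, hρ.eq_zero_iff (hO.2.1 hm)]
    exact ⟨mx_of_le hd.1 (hO.2.1 hm), hd.mx⟩
  refine ⟨V, hV, ⟨fun u hu => ?_, fun u hu h => ?_⟩, key⟩
  · have h1 := (key (C ⟨u, hu⟩)).1
    rw [ev_C] at h1
    exact h1
  · have h1 := (key (C ⟨u, hu⟩)).2
    rw [ev_C, ev_C] at h1
    refine hψ ⟨u, hu⟩ fun h0 => (h1.2 h0).2 ⟨(map_ne_zero ι).2 h.1, h.2.1, ?_⟩
    have h2 : ι u⁻¹ ∈ V := h.2.2
    rw [map_inv₀] at h2
    exact h2

end XAlg

open XAlg Polynomial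

theorem xHom_stmt : XHomStmt := by
  intro k M K _ _ _ _ _ ι σ t l ζ w ht hσ htr hw htop
  have htr' : Tr (ι.comp (σ : M →ₐ[k] M)) ζ := fun p hp => by
    have h1 := htr (p.map (σ : M →+* M)) (by rw [eval₂_map]; exact hp)
    exact (Polynomial.map_eq_zero_iff σ.injective).1 h1
  have hr : Set.range (ι.comp (σ : M →ₐ[k] M)) = Set.range ι := σ.surjective.range_comp ι
  obtain ⟨α, a1, a2⟩ := exists_equiv ι t l ζ w ht htr hw htop
  obtain ⟨β, b1, b2⟩ := exists_equiv (ι.comp (σ : M →ₐ[k] M)) t l ζ w ht htr'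
    (by rw [hw]; exact congrArg (fun m => ι m * _) hσ.symm) (by rw [hr]; exact htop)
  refine ⟨α.symm.trans β, fun m => ?_, ?_, ?_⟩
  · rw [← ev_C ι ζ m, ← a1, AlgEquiv.trans_apply, α.symm_apply_apply, b1, ev_C]
    rfl
  · have h1 := a1 X
    have h2 := b1 X
    rw [ev_X] at h1 h2
    rw [AlgEquiv.trans_apply, α.symm_apply_eq.2 h1.symm, h2]
  · rw [AlgEquiv.trans_apply, α.symm_apply_eq.2 a2.symm, b2]

theorem xEx_stmt : XExStmt := by
  refine ⟨plane, fun k M _ _ _ d x y l h0 h1 hg => ?_⟩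
  obtain ⟨K, _, _, ι, ζ, w, h2, h3, h4⟩ := cover (k := k) (fg d x y 0 / fg d x y 1) l
  refine ⟨K, inferInstance, inferInstance, ι, ζ, w, h0, h1, h2, ?_, h4⟩
  have h5 : ι (fg d x y 1) ≠ 0 := (map_ne_zero ι).2 hg
  rw [h3, map_div₀]
  field_simp

theorem up_stmt : UpStmt := by
  intro k M K _ _ _ _ _ ι R y hR htr
  refine ⟨fun c => ?_, ?_⟩
  · obtain ⟨V, hV, hd, h⟩ := exists_val_ev ι R y htr (resid R) resid_loc (algebraMap k _ c)
    refine ⟨V, hV, hd, ?_⟩
    have h1 := (h (X - algebraMap k _ c)).2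
    rw [map_sub, map_sub, ev_X, ev_X, AlgHom.commutes, AlgHom.commutes] at h1
    exact h1.2 (sub_self _)
  · obtain ⟨V, hV, hd, h⟩ := exists_val_ev ι R y htr _
      (resid_loc.comp (IsScalarTower.toAlgHom k (IsLocalRing.ResidueField R)
        (RatFunc (IsLocalRing.ResidueField R)))) RatFunc.X
    have hz : AlgebraicIndependent k ![(RatFunc.X : RatFunc (IsLocalRing.ResidueField R))] :=
      algebraicIndependent_iff_transcendental.2
        (Transcendental.of_tower_top k (L := IsLocalRing.ResidueField R) RatFunc.transcendental_X)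
    have e : ∀ {B : Type} [CommRing B] [Algebra k B] (f : R →ₐ[k] B) (b : B)
        (p : MvPolynomial (Fin 1) k),
        ev f b (MvPolynomial.aeval ![(X : R[X])] p) = MvPolynomial.aeval ![b] p := by
      intro B _ _ f b p
      rw [← AlgHom.comp_apply, MvPolynomial.comp_aeval]
      congr 2
      funext i
      fin_cases i
      exact ev_X f b
    refine ⟨V, hV, hd, fun i => ?_, fun p hp => ?_⟩
    · have h1 := (h X).1
      rw [ev_X] at h1
      fin_cases i
      exact h1
    · obtain ⟨h1, h2⟩ := h (MvPolynomial.aeval ![(X : R[X])] p)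
      rw [e] at h1
      rw [e, e] at h2
      exact isU_of_not_mx h1 fun hm => hp (hz (by rw [h2.1 hm, map_zero]))

end Pool.Agent.MP_20d318_ag.BV

end MrgPart1

-- marker of a merged file
example : 731051 + 516918 = 731051 + 516918 := rfl
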