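import Pool.Agent.MP_20d318_ag.BV.Mw

/-! The divisor class group of the threefold. -/

set_option autoImplicit false

namespace Pool.Agent.MP_20d318_ag.BV

open Pool.Agent.MP_79c67d_ag Pool.Agent.MP_20d318_ag.AG MvPolynomial

namespace XCls

theorem ipW_add (D D' Z : W ℤ) : ipW (D + D') Z = ipW D Z + ipW D' Z := by
  simp only [ipW, ip, Prod.fst_add, Prod.snd_add, Pi.add_apply, add_mul, Finset.sum_add_distrib]
  ring

theorem ipW_smul (n : ℤ) (D Z : W ℤ) : ipW (n • D) Z = n * ipW D Z := by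
  simp only [ipW, ip, Prod.smul_fst, Prod.smul_snd, Pi.smul_apply, smul_eq_mul, mul_sub, mul_add,
    Finset.mul_sum, mul_assoc]

theorem ipW_zero (Z : W ℤ) : ipW 0 Z = 0 := by simp [ipW, ip]

theorem ipW_E (i : Fin 2) (j : Fin 4) (Z : W ℤ) :
    ipW (0, 0, fun i' j' => if i' = i ∧ j' = j then -1 else 0) Z = Z.2.2 i j := by
  simp [ipW, ip, ite_and]

theorem ipW_T (Z : W ℤ) : ipW (0, 1, 0) Z = Z.2.1 := by simp [ipW, ip]

theorem ipW_L (c : Lam ℤ) (Z : W ℤ) : ipW (c, 0, 0) Z = ip c Z.1 := by simp [ipW]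

variable {k M K : Type} [Field k] [Field M] [Field K] [Algebra k M] [Algebra k K]
  {d : Dat k} {x y : M} {ι : M →ₐ[k] K} {l : k} {ζ w : K}

theorem mx_of_ord {P : Place k K} {a : K} (ha : a ∈ plO P) (h : P.ord a ≠ 0) : a ∈ mx (plO P) :=
  ⟨ha, fun hu => h ((isU_plO' _).1 hu).2⟩

theorem ord_ne {P : Place k K} {a : K} (h0 : a ≠ 0) (ha : a ∈ mx (plO P)) : P.ord a ≠ 0 :=
  fun h => ha.2 ((isU_plO' _).2 ⟨h0, h⟩)

theorem zeta_mem {O : Subalgebra k K} (h : IsU O (tau l ζ 3 O)) : ζ ∈ O := by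
  by_contra hz
  have h1 := h.inv_mem
  simp [tau, eta, hz] at h1

/-- A place on the generic fibre lies in the affine chart. -/
theorem gen_pts (hL : XLoc d x y ι l ζ w) {P : Place k K} (hP : plO P ∈ XX d x y ι ζ w)
    (ht : pr ι (TT d x y) (plO P) = ⊤) (hu : ∀ j, IsU (plO P) (tau l ζ j (plO P))) :
    plO P ∈ Pts (Algebra.adjoin k (Set.range ι ∪ {ζ, w})) := by
  have hz := zeta_mem (hu 3)
  have hm : ∀ m, ι m ∈ plO P := fun m => hL.maps.mem_up hP (by rw [ht]; trivial)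
  have hmu : ∀ m, ι m ≠ 0 → IsU (plO P) (ι m) := fun m h0 => ⟨h0, hm m, by
    rw [← map_inv₀]; exact hm _⟩
  have hs : ∀ i, IsU (plO P) (sX d x y ι i (plO P)) := fun i => hmu _ (hL.sne _ hP i)
  have h2 : IsU (plO P) (AA d x y ι ζ w (plO P) ^ 2) := by
    have h3 := (isU_prod (s := Finset.univ) fun j _ => hu j).div ((hs 0).mul (hs 1))
    rwa [← hL.eqn _ hP, mul_div_cancel_right₀ _ ((hs 0).mul (hs 1)).ne] at h3
  have hA : AA d x y ι ζ w (plO P) ∈ plO P := by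
    rcases hL.aa _ hP with h | h
    · exact h
    · have h3 : IsU (plO P) ((AA d x y ι ζ w (plO P))⁻¹ ^ 2) := by
        rw [inv_pow]; exact h2.inv
      simpa using (IsU.of_pow h two_ne_zero h3).inv_mem
  obtain ⟨m, hAm⟩ : ∃ m, AA d x y ι ζ w (plO P) = w * ι m :=
    ⟨ex d x y none (pr ι (TT d x y) (plO P)) / sT d x y 0 (pr ι (TT d x y) (plO P)), by
      simp [AA, sX, up, eta, hz, mul_div_assoc]⟩
  have hm0 : ι m ≠ 0 := fun h => hL.ane _ hP (by rw [hAm, h, mul_zero])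
  have hw : w ∈ plO P := by
    have h3 := (hmu m hm0).div_mem hA
    rwa [hAm, mul_div_cancel_right₀ _ hm0] at h3
  refine Pts_of_le (hL.pts _ hP _ hA (Or.inl rfl)) (Algebra.adjoin_le ?_) (Algebra.adjoin_le ?_)
  · rintro a (⟨b, -, rfl⟩ | rfl | rfl)
    · exact Algebra.subset_adjoin (Or.inl ⟨b, rfl⟩)
    · rw [zc, if_pos hz]; exact Algebra.subset_adjoin (Or.inr (Or.inl rfl))
    · rw [hAm]
      exact Subalgebra.mul_mem _ (Algebra.subset_adjoin (Or.inr (Or.inr rfl)))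
        (Algebra.subset_adjoin (Or.inl ⟨m, rfl⟩))
  · rintro a (⟨b, rfl⟩ | rfl | rfl)
    exacts [hm b, hz, hw]

variable (d x y ι l ζ w) in
/-- Divisors whose class is in the lattice. -/
def Gd (g : Subalgebra k K → K) : Prop := IsCart (XX d x y ι ζ w) g ∧
  ∃ D : W ℤ, ∀ ν : Curve (XX d x y ι ζ w), ν.deg g = ipW D (ZZ d x y ι l ζ ν)

variable (d x y ι l ζ) in
open Classical in
/-- The order in which the places are treated. -/
noncomputable def lev (P : Place k K) : ℕ :=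
  if ∃ i j, sX d x y ι i (plO P) ∈ mx (plO P) ∧ tau l ζ j (plO P) ∈ mx (plO P) then 0
  else if pr ι (TT d x y) (plO P) = ⊤ ∧ ∀ j, IsU (plO P) (tau l ζ j (plO P)) then 2 else 1

theorem lev_zero {P : Place k K} {i : Fin 2} {j : Fin 4} (h1 : sX d x y ι i (plO P) ∈ mx (plO P))
    (h2 : tau l ζ j (plO P) ∈ mx (plO P)) : lev d x y ι l ζ P = 0 := if_pos ⟨i, j, h1, h2⟩

theorem lev_pos {P : Place k K}
    (h : ¬ ∃ i j, sX d x y ι i (plO P) ∈ mx (plO P) ∧ tau l ζ j (plO P) ∈ mx (plO P)) :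
    0 < lev d x y ι l ζ P := by
  rw [lev, if_neg h]; split_ifs <;> norm_num

theorem step [CharZero k] [IsAlgClosed k] (hH : HorBStmt) (hX : XAll d x y ι l ζ w)
    (hP : XPl d x y ι l ζ w) (hM : MW d x y l) (P : Place k K) (hm : plO P ∈ XX d x y ι ζ w) :
    ∃ g, Gd d x y ι l ζ w g ∧ P.ord (g (plO P)) ≠ 0 ∧ ∀ P' : Place k K,
      plO P' ∈ XX d x y ι ζ w → P' ≠ P → P'.ord (g (plO P')) ≠ 0 →
        lev d x y ι l ζ P' < lev d x y ι l ζ P := by
  have hL := hX.loc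
  have hD := hX.div
  by_cases h0 : ∃ i j, sX d x y ι i (plO P) ∈ mx (plO P) ∧ tau l ζ j (plO P) ∈ mx (plO P)
  · obtain ⟨i, j, h1, h2⟩ := h0
    refine ⟨EE d x y ι l ζ i j, ⟨hD.cartE i j, _, fun ν => (ipW_E i j (ZZ d x y ι l ζ ν)).symm⟩,
      ord_ne ((hD.cartE i j).ne hm) (hD.emx _ hm i j h1 h2), fun P' hm' hne ho => ?_⟩
    have h3 : ¬ IsU (plO P') (EE d x y ι l ζ i j (plO P')) := fun h => ho ((isU_plO' _).1 h).2
    exact absurd (hP.uE P' P i j hm' hm ⟨hL.sm _ hm' i, fun h => h3 (hD.eu _ hm' i j (Or.inl h))⟩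
      ⟨hL.tm _ hm' j, fun h => h3 (hD.eu _ hm' i j (Or.inr h))⟩ h1 h2) hne
  have key : ∀ P' : Place k K, plO P' ∈ XX d x y ι ζ w → ∀ j, tau l ζ j (plO P') ∈ mx (plO P') →
      lev d x y ι l ζ P' = 0 ∨ pr ι (TT d x y) (plO P') = ⊤ := fun P' hm' j hj => by
    by_cases h : ∃ i, sX d x y ι i (plO P') ∈ mx (plO P')
    · obtain ⟨i, hi⟩ := h
      exact Or.inl (lev_zero hi hj)
    · exact Or.inr (hP.top P' j hm' hj fun i => isU_of_not_mx (hL.sm _ hm' i) fun h' => h ⟨i, h'⟩)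
  have hpos := lev_pos h0
  by_cases h1 : ∃ j, tau l ζ j (plO P) ∈ mx (plO P)
  · obtain ⟨j, hj⟩ := h1
    refine ⟨tau l ζ j, ⟨hD.cartT j, _, fun ν => (hD.degT ν j).trans (ipW_T _).symm⟩,
      ord_ne (hL.tne _ j) hj, fun P' hm' hne ho => ?_⟩
    have h3 := mx_of_ord (hL.tm _ hm' j) ho
    rcases key P' hm' j h3 with h | h
    · rwa [h]
    · exact absurd (hP.uT P' P j hm' hm h3 h hj ((key P hm j hj).resolve_left hpos.ne')) hne
  have hu : ∀ j, IsU (plO P) (tau l ζ j (plO P)) := fun j =>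
    isU_of_not_mx (hL.tm _ hm j) fun h => h1 ⟨j, h⟩
  have hT := hX.t.loc
  rcases hP.pl P hm with ht | ⟨P₀, ht⟩
  · have hf0 := hX.t.pen.ne 0
    have hf1 := hX.t.pen.ne 1
    have hf1' : ι (fg d x y 1) ≠ 0 := by simpa using hf1
    obtain ⟨a, ha⟩ : ∃ a, a ∉ plO P := by
      by_contra hc
      push Not at hc
      exact plO_ne_top _ (eq_top_iff.2 fun a _ => hc a)
    obtain ⟨h, hB, hh0, hh, H⟩ := hH k M K ι (fg d x y 0 / fg d x y 1) l ζ w (div_ne_zero hf0 hf1)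
      hX.ext.tr (by rw [map_div₀, div_mul_eq_mul_div, eq_div_iff hf1', hX.ext.eq]) _
      (gen_pts hL hm ht hu)
      ⟨a⁻¹, (plO_isVal _).inv_mx ha, inv_ne_zero fun e => ha (e ▸ (plO P).zero_mem)⟩
    refine ⟨fun _ => h, ⟨isCart_const hh0, 0, fun ν => (deg_const ν h).trans (ipW_zero _).symm⟩,
      ord_ne hh0 hh, fun P' hm' hne ho => ?_⟩
    rw [lev.eq_1 d x y ι l ζ P, if_neg h0, if_pos ⟨ht, hu⟩, lev]
    split_ifs with e1 e2
    · norm_num
    · exfalso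
      have hp := gen_pts hL hm' e2.1 e2.2
      have hz := zeta_mem (e2.2 3)
      rcases H _ hp (mx_of_ord (hp.2.1 hB) ho) with e | ⟨a, b, e, h2, -⟩
      · exact hne (plO_inj e.le)
      · have hb := hM a b (by rw [e, div_mul_eq_mul_div, div_mul_cancel₀ _ hf1])
        rw [hb, zero_pow two_ne_zero, eq_comm, mul_eq_zero, mul_eq_zero, mul_eq_zero] at e
        rcases e with e | (e | e) | e
        · exact div_ne_zero hf0 hf1 e
        · exact (e2.2 0).not_mx (by simpa [tau, eta, hz, e] using h2)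
        · exact (e2.2 1).not_mx (by simpa [tau, eta, hz, sub_eq_zero.1 e] using h2)
        · exact (e2.2 2).not_mx (by simpa [tau, eta, hz, sub_eq_zero.1 e] using h2)
    · norm_num
  · have hm0 : plO P₀ ∈ TT d x y := ht ▸ hL.maps.mem hm
    obtain ⟨c, φ, hc⟩ := hX.t.pl.all P₀ hm0
    have hC := isCart_up hT.nice.toGood hL.fine.toGood hL.maps (hc.cart (hT.cart c))
    have hx : ∀ O ∈ XX d x y ι ζ w, up ι (TT d x y) (fun R => φ * lb d x y c R) O ∈ O ∧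
        (up ι (TT d x y) (fun R => φ * lb d x y c R) O ∈ mx O ↔ pr ι (TT d x y) O ≤ plO P₀) :=
      fun O hO => by
        have h2 := hc.mem hT.nice (hT.cart c) (hL.maps.mem hO)
        exact ⟨hL.maps.mem_up hO h2,
          (hL.maps.mx_up hO h2).trans (hc.mx_iff hT.nice (hT.cart c) (hL.maps.mem hO))⟩
    refine ⟨_, ⟨hC, _, fun ν => (hD.degL ν c φ hc.1).trans (ipW_L _ _).symm⟩,
      ord_ne (hC.ne hm) ((hx _ hm).2.2 ht.le), fun P' hm' hne ho => ?_⟩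
    have h2 := (hx _ hm').2.1 (mx_of_ord (hx _ hm').1 ho)
    have h3 : pr ι (TT d x y) (plO P') ≠ ⊤ := fun e => plO_ne_top _ (top_le_iff.1 (e ▸ h2))
    obtain ⟨P₁, h4⟩ := (hP.pl P' hm').resolve_left h3
    obtain rfl : P₁ = P₀ := plO_inj (h4 ▸ h2)
    by_cases h5 : ∃ j, tau l ζ j (plO P') ∈ mx (plO P')
    · obtain ⟨j, hj⟩ := h5
      rwa [(key P' hm' j hj).resolve_right h3]
    · exact absurd (hP.uV P' P P₁ hm' hm
        (fun j => isU_of_not_mx (hL.tm _ hm' j) fun h => h5 ⟨j, h⟩) hu h4 ht) hne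

end XCls

open XCls in
theorem xCls_stmt : XClsStmt := by
  intro hH hC k M K _ _ _ _ _ _ _ d x y ι l ζ w hX hP hM hN C
  have hG := hX.loc.fine.toGood
  obtain ⟨N, g, h0, ⟨hg, D, hD⟩, hu⟩ := hC k K (XX d x y ι ζ w) (Gd d x y ι l ζ w)
    (lev d x y ι l ζ) ⟨hX.loc.fine, hN⟩ (fun _ h => h.1)
    (fun f g ⟨hf, D, hD⟩ ⟨hg, D', hD'⟩ => ⟨hf.mul hg, D + D', fun ν => by
      rw [deg_mul hG hf hg, hD, hD', ipW_add]⟩)
    (fun g n ⟨hg, D, hD⟩ => ⟨hg.zpow n, n • D, fun ν => by rw [deg_zpow hG hg, hD, ipW_smul]⟩)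
    ⟨isCart_one, 0, fun ν => (deg_one ν).trans (ipW_zero _).symm⟩ (step hH hX hP hM) C.f C.loc
  have hf : IsCart (XX d x y ι ζ w) C.f := C.loc
  exact ⟨N, D, h0, fun ν => by rw [← deg_zpow hG hf, deg_congr hG (hf.zpow N) hg hu, hD]⟩

end Pool.Agent.MP_20d318_ag.BV
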