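import Pool.Agent.MP_20d318_ag.BV.Mw

/-! The degrees of curves on the threefold. -/

set_option autoImplicit false

namespace Pool.Agent.MP_20d318_ag.BV

open Pool.Agent.MP_79c67d_ag Pool.Agent.MP_20d318_ag.AG MvPolynomial

namespace XCurA

variable {k M K : Type} [Field k] [Field M] [Field K] [Algebra k M] [Algebra k K]

theorem ptmx {X : Set (Subalgebra k K)} {f : Subalgebra k K → K} (hf : IsCart X f)
    (hor : ∀ O ∈ X, f O ∈ O ∨ (f O)⁻¹ ∈ O) (ν : Curve X) (h : f ν.gen ∈ mx ν.gen)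
    (P : Place k ν.L) : f (ν.pt P) ∈ mx (ν.pt P) := by
  have h1 := mx_pt_cart hf ν P h
  rcases hor _ (ν.pt_mem P) with h2 | h2
  · exact mx_pt ν P h1 h2
  · exact (h1.2 ⟨hf.ne (ν.pt_mem P), h1.1, ν.pt_le P h2⟩).elim

theorem mx_prod {O : Subalgebra k K} {n : ℕ} {f : Fin n → K} (hm : ∀ j, f j ∈ O)
    (h : ∏ j, f j ∈ mx O) : ∃ j, f j ∈ mx O := by
  by_contra hc
  push Not at hc
  exact h.2 (isU_prod fun j _ => isU_of_not_mx (hm j) (hc j))

variable [CharZero k] [IsAlgClosed k] {d : Dat k} {x y : M} {ι : M →ₐ[k] K} {l : k} {ζ w : K}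
  (h : XAll d x y ι l ζ w) (ν : Curve (XX d x y ι ζ w))

include h

theorem proj : ∃ ν' : Curve (TT d x y), ν'.gen = pr ι (TT d x y) ν.gen ∧
    (ZZ d x y ι l ζ ν).1 = zz d x y ν' := by
  obtain ⟨ν', h1, h2⟩ := exists_proj h.t.loc.nice.toFine.toGood h.loc.fine.toGood h.loc.maps ν
  refine ⟨ν', h1, Prod.ext ?_ (funext fun q => h2 _ (h.t.loc.cartE q))⟩
  exact congrArg Neg.neg (h2 _ h.t.loc.cartH)

theorem c0 (hr : RatPt (pr ι (TT d x y) ν.gen)) : (ZZ d x y ι l ζ ν).1 = 0 := by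
  obtain ⟨ν', h1, h2⟩ := proj h ν
  rw [← h1] at hr
  rw [h2]
  refine Prod.ext ?_ (funext fun q => deg_rat (h.t.loc.cartE q) ν' hr)
  exact neg_eq_zero.2 (deg_rat h.t.loc.cartH ν' hr)

theorem c1 (c φ P) (hP : Prm d x y c φ P) (e : pr ι (TT d x y) ν.gen = plO P) :
    ∃ n : ℕ, 0 < n ∧ (ZZ d x y ι l ζ ν).1 = n • c := by
  obtain ⟨ν', h1, h2⟩ := proj h ν
  rw [h2]
  exact h.t.z.prm c φ P hP ν' (h1.trans e)

theorem cases : RatPt (pr ι (TT d x y) ν.gen) ∨ ∃ P : Place k M, pr ι (TT d x y) ν.gen = plO P := by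
  obtain ⟨ν', h1, -⟩ := proj h ν
  rw [← h1]
  exact (h.t.z.cases ν').imp_left And.left

theorem onC (i : Fin 2) (hs : sX d x y ι i ν.gen ∈ mx ν.gen) :
    ∃ n : ℕ, (ZZ d x y ι l ζ ν).1 = n • cC i := by
  rcases cases h ν with hr | ⟨P', e⟩
  · exact ⟨0, by rw [c0 h ν hr, zero_smul]⟩
  · obtain ⟨P, hP⟩ := h.t.pl.prC i
    have hm := h.loc.maps.mem ν.gen_mem
    have h1 := (h.loc.maps.mx_up ν.gen_mem (h.t.pen.mem _ hm i)).1 hs
    rw [e] at hm h1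
    obtain rfl := hP.eq_of_mx (h.t.loc.cart _) hm h1
    exact (c1 h ν _ _ _ hP e).imp fun _ => And.right

theorem tauU {j j' : Fin 4} (ht : tau l ζ j ν.gen ∈ mx ν.gen) (hj : j' ≠ j) (P : Place k ν.L) :
    IsU (ν.pt P) (tau l ζ j' (ν.pt P)) :=
  isU_of_not_mx (h.loc.tm _ (ν.pt_mem P) j') fun e => hj (h.loc.t1 _ (ν.pt_mem P) j' j e
    (ptmx (h.div.cartT j) (fun O hO => .inl (h.loc.tm O hO j)) ν ht P))

theorem sU {i i' : Fin 2} (hs : sX d x y ι i ν.gen ∈ mx ν.gen) (hi : i' ≠ i) (P : Place k ν.L) :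
    IsU (ν.pt P) (sX d x y ι i' (ν.pt P)) :=
  isU_of_not_mx (h.loc.sm _ (ν.pt_mem P) i') fun e => hi (h.loc.s1 _ (ν.pt_mem P) i' i e
    (ptmx (h.div.cartS i) (fun O hO => .inl (h.loc.sm O hO i)) ν hs P))

theorem zeroT (j : Fin 4) (hu : ∀ P, IsU (ν.pt P) (tau l ζ j (ν.pt P))) :
    (ZZ d x y ι l ζ ν).2.1 = 0 :=
  (h.div.degT ν j).symm.trans (deg_zero_of h.loc.fine.toGood (h.div.cartT j) ν hu)

theorem zeroE (i : Fin 2) (j : Fin 4) (hu : ∀ P, IsU (ν.pt P) (sX d x y ι i (ν.pt P)) ∨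
    IsU (ν.pt P) (tau l ζ j (ν.pt P))) : (ZZ d x y ι l ζ ν).2.2 i j = 0 :=
  deg_zero_of h.loc.fine.toGood (h.div.cartE i j) ν fun P => h.div.eu _ (ν.pt_mem P) i j (hu P)

theorem zeroT' {j : Fin 4} (ht : tau l ζ j ν.gen ∈ mx ν.gen) : (ZZ d x y ι l ζ ν).2.1 = 0 := by
  obtain ⟨j', hj⟩ := exists_ne j
  exact zeroT h ν j' (tauU h ν ht hj)

theorem cA (j : Fin 4) (ha : AA d x y ι ζ w ν.gen ∈ mx ν.gen) (ht : tau l ζ j ν.gen ∈ mx ν.gen) :
    (ZZ d x y ι l ζ ν).2.1 = 0 ∧ ∀ i j', (ZZ d x y ι l ζ ν).2.2 i j' =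
      if j' = j then ip (cC i) (ZZ d x y ι l ζ ν).1 else 0 := by
  refine ⟨zeroT' h ν ht, fun i j' => ?_⟩
  split_ifs with e
  · subst e
    rw [← h.div.degS]
    exact degc h.loc.fine.toGood (h.div.cartE i j') (h.div.cartS i) ν fun P =>
      h.div.eT _ (ν.pt_mem P) i j' (ptmx h.div.cartA h.loc.aa ν ha P).1
        (ptmx (h.div.cartT j') (fun O hO => .inl (h.loc.tm O hO j')) ν ht P)
  · exact zeroE h ν i j' fun P => .inr (tauU h ν ht e P)

theorem cB (i : Fin 2) (ha : (AA d x y ι ζ w ν.gen)⁻¹ ∈ mx ν.gen)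
    (hs : sX d x y ι i ν.gen ∈ mx ν.gen) (i' : Fin 2) (j : Fin 4) :
    (ZZ d x y ι l ζ ν).2.2 i' j = if i' = i then (ZZ d x y ι l ζ ν).2.1 else 0 := by
  split_ifs with e
  · subst e
    rw [← h.div.degT ν j]
    exact degc h.loc.fine.toGood (h.div.cartE i' j) (h.div.cartT j) ν fun P =>
      h.div.eC _ (ν.pt_mem P) i' j (ptmx h.div.cartA.inv
        (fun O hO => (h.loc.aa O hO).symm.imp_right fun e => by simpa using e) ν ha P).1
        (ptmx (h.div.cartS i') (fun O hO => .inl (h.loc.sm O hO i')) ν hs P)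
  · exact zeroE h ν i' j fun P => .inl (sU h ν hs e P)

theorem cX (i : Fin 2) (j : Fin 4) (hs : sX d x y ι i ν.gen ∈ mx ν.gen)
    (ht : tau l ζ j ν.gen ∈ mx ν.gen) : (ZZ d x y ι l ζ ν).2.1 = 0 ∧
      ∀ i' j', ¬ (i' = i ∧ j' = j) → (ZZ d x y ι l ζ ν).2.2 i' j' = 0 :=
  ⟨zeroT' h ν ht, fun i' j' e => zeroE h ν i' j' fun P =>
    (not_and_or.1 e).imp (fun e => sU h ν hs e P) fun e => tauU h ν ht e P⟩

theorem cG (c : k) (h0 : c ≠ 0) (h1 : c ≠ 1) (hl : c ≠ l)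
    (hc : ζ - algebraMap k K c ∈ mx ν.gen) : (ZZ d x y ι l ζ ν).2 = 0 := by
  have hu : ∀ j P, IsU (ν.pt P) (tau l ζ j (ν.pt P)) := fun j P => by
    have hO := h.loc.fine.toGood.loc _ (ν.pt_mem P)
    have h2 := mem_pt_of_const ν P hc (by
      have := h.loc.zm _ (ν.pt_mem P)
      unfold zc at this
      split_ifs at this
      exacts [.inl this, .inr this])
    have h3 : ζ ∈ ν.pt P := by simpa using add_mem h2.1 ((ν.pt P).algebraMap_mem c)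
    have h4 : ∀ e : k, c ≠ e → IsU (ν.pt P) (ζ - algebraMap k K e) := fun e he => by
      have := (isU_const (O := ν.pt P) (sub_ne_zero.2 he)).add_mx hO h2
      rwa [map_sub, sub_add_sub_cancel'] at this
    unfold tau eta
    rw [if_pos h3, div_one]
    fin_cases j
    · simpa using h4 0 h0
    · simpa using h4 1 h1
    · exact h4 l hl
    · exact isU_one
  exact Prod.ext (zeroT h ν 0 (hu 0)) (funext fun i => funext fun j =>
    zeroE h ν i j fun P => .inr (hu j P))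

theorem sumT (j : Fin 4) (ha : AA d x y ι ζ w ν.gen ∉ mx ν.gen) :
    ∑ i, (ZZ d x y ι l ζ ν).2.2 i j ≤ (ZZ d x y ι l ζ ν).2.1 := by
  have hX := h.loc.fine.toGood
  have hc := isCart_prod (s := Finset.univ) fun i _ => h.div.cartE i j
  have h1 := deg_nonneg hX ((h.div.cartT j).div hc)
    (fun O hO => by simpa using (h.div.rT O hO j).1) ν
    (by simpa using (h.div.rT _ ν.gen_mem j).2 ha)
  rw [deg_div hX (h.div.cartT j) hc, deg_prod hX fun i _ => h.div.cartE i j, h.div.degT] at h1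
  exact sub_nonneg.1 h1

theorem sumC (i : Fin 2) (ha : (AA d x y ι ζ w ν.gen)⁻¹ ∉ mx ν.gen) :
    ∑ j, (ZZ d x y ι l ζ ν).2.2 i j ≤ ip (cC i) (ZZ d x y ι l ζ ν).1 := by
  have hX := h.loc.fine.toGood
  have hc := isCart_prod (s := Finset.univ) fun j _ => h.div.cartE i j
  have h1 := deg_nonneg hX ((h.div.cartS i).div hc)
    (fun O hO => by simpa using (h.div.rC O hO i).1) ν
    (by simpa using (h.div.rC _ ν.gen_mem i).2 ha)
  rw [deg_div hX (h.div.cartS i) hc, deg_prod hX fun j _ => h.div.cartE i j, h.div.degS] at h1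
  exact sub_nonneg.1 h1

theorem cur : Cur (PP d x y) (ZZ d x y ι l ζ ν) := by
  have hX := h.loc.fine.toGood
  have hO := ν.gen_mem
  have hs2 : sX d x y ι 0 ν.gen * sX d x y ι 1 ν.gen ∈ mx ν.gen →
      ∃ i, sX d x y ι i ν.gen ∈ mx ν.gen := fun e =>
    mx_prod (h.loc.sm _ hO) (by rwa [Fin.prod_univ_two])
  have hsm := mul_mem (h.loc.sm _ hO 0) (h.loc.sm _ hO 1)
  have eqn := h.loc.eqn _ hO
  refine ⟨?_, neg_nonneg.2 (deg_gn_nonpos hX (Set.toFinite _) h.loc.gZ ν), ?_⟩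
  · rcases cases h ν with hr | ⟨P, e⟩
    · exact .inl (c0 h ν hr)
    · obtain ⟨c, φ, hP⟩ := h.t.pl.all P (e ▸ h.loc.maps.mem hO)
      exact .inr ⟨c, ⟨φ, P, hP⟩, (c1 h ν _ _ _ hP e).imp fun _ => And.right⟩
  by_cases ha : AA d x y ι ζ w ν.gen ∈ mx ν.gen
  · obtain ⟨j, hj⟩ := mx_prod (h.loc.tm _ hO) (eqn ▸ mx_mul_right (mx_pow ha two_ne_zero) hsm)
    exact .inl ⟨j, cA h ν j ha hj⟩
  by_cases hb : (AA d x y ι ζ w ν.gen)⁻¹ ∈ mx ν.gen
  · obtain ⟨i, hi⟩ := hs2 (by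
      have := mx_mul_right (mx_pow hb two_ne_zero) (prod_mem fun j (_ : j ∈ Finset.univ) =>
        h.loc.tm _ hO j)
      rwa [← eqn, inv_pow, inv_mul_cancel_left₀ (pow_ne_zero _ (h.loc.ane _ hO))] at this)
    exact .inr (.inl ⟨i, onC h ν i hi, cB h ν i hb hi⟩)
  have hu : IsU ν.gen (AA d x y ι ζ w ν.gen) := (h.loc.aa _ hO).elim (isU_of_not_mx · ha)
    fun e => by simpa using (isU_of_not_mx e hb).inv
  by_cases ht : ∃ j, tau l ζ j ν.gen ∈ mx ν.gen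
  · obtain ⟨j, hj⟩ := ht
    obtain ⟨i, hi⟩ := hs2 (by
      refine (mx_or_of_mul (hu.pow 2).mem hsm ?_).resolve_left (hu.pow 2).not_mx
      rw [eqn, ← Finset.mul_prod_erase _ _ (Finset.mem_univ j)]
      exact mx_mul_right hj (prod_mem fun j _ => h.loc.tm _ hO j))
    obtain ⟨h1, h2⟩ := cX h ν i j hi hj
    refine .inr (.inr (.inl ⟨i, j, onC h ν i hi, h1, ?_, h2⟩))
    have h3 := sumT h ν j ha
    rwa [h1, Finset.sum_eq_single i (fun i' _ e => h2 i' j fun e' => e e'.1) (by simp)] at h3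
  · push Not at ht
    exact .inr (.inr (.inr ⟨fun i j => deg_nonneg hX (h.div.cartE i j)
      (fun O hO => h.div.em O hO i j) ν (h.div.eu _ hO i j
        (.inr (isU_of_not_mx (h.loc.tm _ hO j) (ht j)))),
      fun i => sumC h ν i hb, fun j => sumT h ν j ha⟩))

end XCurA

theorem xCur_stmt : XCurStmt := fun _ _ _ _ _ _ _ _ _ _ _ _ _ _ _ _ _ h =>
  ⟨XCurA.c0 h, XCurA.c1 h, XCurA.cA h, XCurA.cB h, XCurA.cX h, XCurA.cG h, XCurA.cur h⟩

end Pool.Agent.MP_20d318_ag.BV
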